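import Pool.Agent.Helper155.FW.Defs

set_option autoImplicit false
open Filter Asymptotics Topology

namespace Pool.Agent.FW

/-! ## TARGETS (prove these) -/

/-- `(exponent)/y` -/
noncomputable def E6v (a1 a2 a3 a4 a5 y : ℝ) : ℝ := a1 + a2 * y + a3 * y ^ 2 + a4 * y ^ 3 + a5 * y ^ 4
noncomputable def E6w1 (a2 a3 a4 a5 y : ℝ) : ℝ := a2 + a3 * y + a4 * y ^ 2 + a5 * y ^ 3
noncomputable def E6w2 (a3 a4 a5 y : ℝ) : ℝ := a3 + a4 * y + a5 * y ^ 2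
noncomputable def E6r2 (a1 a2 a3 a4 a5 y : ℝ) : ℝ :=
  2 * a1 * a5 + 2 * a2 * a4 + a3 ^ 2 + y * (2 * a2 * a5 + 2 * a3 * a4) +
    y ^ 2 * (2 * a3 * a5 + a4 ^ 2) + 2 * a4 * a5 * y ^ 3 + a5 ^ 2 * y ^ 4
noncomputable def E6r3 (a1 a2 a3 a4 a5 y : ℝ) : ℝ :=
  a2 * (2 * a1 * a3 + a2 ^ 2) + 2 * a1 * a2 * a3 + y * a3 * (2 * a1 * a3 + a2 ^ 2) +
    (a4 + a5 * y) * (a1 ^ 2 + 2 * a1 * a2 * y + (2 * a1 * a3 + a2 ^ 2) * y ^ 2) +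
    E6v a1 a2 a3 a4 a5 y * (2 * a1 * a4 + 2 * a2 * a3) +
    y * E6v a1 a2 a3 a4 a5 y * E6r2 a1 a2 a3 a4 a5 y
noncomputable def E6r4 (a1 a2 a3 a4 a5 y : ℝ) : ℝ :=
  4 * a1 ^ 3 * E6w2 a3 a4 a5 y + 6 * a1 ^ 2 * E6w1 a2 a3 a4 a5 y ^ 2 +
    4 * a1 * E6w1 a2 a3 a4 a5 y ^ 3 * y + E6w1 a2 a3 a4 a5 y ^ 4 * y ^ 2
noncomputable def E6r5 (a1 a2 a3 a4 a5 y : ℝ) : ℝ :=
  E6w1 a2 a3 a4 a5 y * (E6v a1 a2 a3 a4 a5 y ^ 4 + E6v a1 a2 a3 a4 a5 y ^ 3 * a1 +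
    E6v a1 a2 a3 a4 a5 y ^ 2 * a1 ^ 2 + E6v a1 a2 a3 a4 a5 y * a1 ^ 3 + a1 ^ 4)
/-- the quotient polynomial -/
noncomputable def E6q (a1 a2 a3 a4 a5 y : ℝ) : ℝ :=
  E6r2 a1 a2 a3 a4 a5 y / 2 + E6r3 a1 a2 a3 a4 a5 y / 6 + E6r4 a1 a2 a3 a4 a5 y / 24 +
    E6r5 a1 a2 a3 a4 a5 y / 120

theorem E6_2 (a1 a2 a3 a4 a5 y : ℝ) : E6v a1 a2 a3 a4 a5 y ^ 2 =
    a1 ^ 2 + 2 * a1 * a2 * y + (2 * a1 * a3 + a2 ^ 2) * y ^ 2 +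
      (2 * a1 * a4 + 2 * a2 * a3) * y ^ 3 + y ^ 4 * E6r2 a1 a2 a3 a4 a5 y := by
  unfold E6v E6r2; ring

theorem E6_3 (a1 a2 a3 a4 a5 y : ℝ) : E6v a1 a2 a3 a4 a5 y ^ 3 =
    a1 ^ 3 + 3 * a1 ^ 2 * a2 * y + (3 * a1 ^ 2 * a3 + 3 * a1 * a2 ^ 2) * y ^ 2 +
      y ^ 3 * E6r3 a1 a2 a3 a4 a5 y := by
  have h2 := E6_2 a1 a2 a3 a4 a5 y
  have hv : E6v a1 a2 a3 a4 a5 y = a1 + a2 * y + a3 * y ^ 2 + a4 * y ^ 3 + a5 * y ^ 4 := rfl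
  have hr : E6r3 a1 a2 a3 a4 a5 y = a2 * (2 * a1 * a3 + a2 ^ 2) + 2 * a1 * a2 * a3 +
    y * a3 * (2 * a1 * a3 + a2 ^ 2) +
    (a4 + a5 * y) * (a1 ^ 2 + 2 * a1 * a2 * y + (2 * a1 * a3 + a2 ^ 2) * y ^ 2) +
    E6v a1 a2 a3 a4 a5 y * (2 * a1 * a4 + 2 * a2 * a3) +
    y * E6v a1 a2 a3 a4 a5 y * E6r2 a1 a2 a3 a4 a5 y := rfl
  generalize E6r2 a1 a2 a3 a4 a5 y = R2 at h2 hr
  rw [hr, pow_succ, h2, hv]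
  ring

theorem E6_4 (a1 a2 a3 a4 a5 y : ℝ) : E6v a1 a2 a3 a4 a5 y ^ 4 =
    a1 ^ 4 + 4 * a1 ^ 3 * a2 * y + y ^ 2 * E6r4 a1 a2 a3 a4 a5 y := by
  have hv : E6v a1 a2 a3 a4 a5 y = a1 + y * E6w1 a2 a3 a4 a5 y := by
    unfold E6v E6w1; ring
  have hw : E6w1 a2 a3 a4 a5 y = a2 + y * E6w2 a3 a4 a5 y := by
    unfold E6w1 E6w2; ring
  have hr : E6r4 a1 a2 a3 a4 a5 y = 4 * a1 ^ 3 * E6w2 a3 a4 a5 y +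
    6 * a1 ^ 2 * E6w1 a2 a3 a4 a5 y ^ 2 +
    4 * a1 * E6w1 a2 a3 a4 a5 y ^ 3 * y + E6w1 a2 a3 a4 a5 y ^ 4 * y ^ 2 := rfl
  rw [hv, hr]
  generalize E6w1 a2 a3 a4 a5 y = W at hw
  generalize E6w2 a3 a4 a5 y = W2 at hw
  linear_combination (4 * a1 ^ 3 * y) * hw

theorem E6_5 (a1 a2 a3 a4 a5 y : ℝ) : E6v a1 a2 a3 a4 a5 y ^ 5 =
    a1 ^ 5 + y * E6r5 a1 a2 a3 a4 a5 y := by
  have hv : E6v a1 a2 a3 a4 a5 y = a1 + y * E6w1 a2 a3 a4 a5 y := by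
    unfold E6v E6w1; ring
  have hr : E6r5 a1 a2 a3 a4 a5 y = E6w1 a2 a3 a4 a5 y *
    (E6v a1 a2 a3 a4 a5 y ^ 4 + E6v a1 a2 a3 a4 a5 y ^ 3 * a1 +
    E6v a1 a2 a3 a4 a5 y ^ 2 * a1 ^ 2 + E6v a1 a2 a3 a4 a5 y * a1 ^ 3 + a1 ^ 4) := rfl
  rw [hr]
  generalize E6v a1 a2 a3 a4 a5 y = v at hv
  generalize E6w1 a2 a3 a4 a5 y = W at hv
  linear_combination (v ^ 4 + v ^ 3 * a1 + v ^ 2 * a1 ^ 2 + v * a1 ^ 3 + a1 ^ 4) * hv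

theorem E6q_eq (a1 a2 a3 a4 a5 y : ℝ) :
    (1 + (a1 * y + a2 * y ^ 2 + a3 * y ^ 3 + a4 * y ^ 4 + a5 * y ^ 5)
      + (a1 * y + a2 * y ^ 2 + a3 * y ^ 3 + a4 * y ^ 4 + a5 * y ^ 5) ^ 2 / 2
      + (a1 * y + a2 * y ^ 2 + a3 * y ^ 3 + a4 * y ^ 4 + a5 * y ^ 5) ^ 3 / 6
      + (a1 * y + a2 * y ^ 2 + a3 * y ^ 3 + a4 * y ^ 4 + a5 * y ^ 5) ^ 4 / 24
      + (a1 * y + a2 * y ^ 2 + a3 * y ^ 3 + a4 * y ^ 4 + a5 * y ^ 5) ^ 5 / 120)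
      - (1 + a1 * y + (a2 + a1 ^ 2 / 2) * y ^ 2 + (a3 + a1 * a2 + a1 ^ 3 / 6) * y ^ 3
        + (a4 + a1 * a3 + a2 ^ 2 / 2 + a1 ^ 2 * a2 / 2 + a1 ^ 4 / 24) * y ^ 4
        + (a5 + a1 * a4 + a2 * a3 + (a1 ^ 2 * a3 + a1 * a2 ^ 2) / 2 + a1 ^ 3 * a2 / 6
            + a1 ^ 5 / 120) * y ^ 5) = E6q a1 a2 a3 a4 a5 y * y ^ 6 := by
  have hu : a1 * y + a2 * y ^ 2 + a3 * y ^ 3 + a4 * y ^ 4 + a5 * y ^ 5 =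
      y * E6v a1 a2 a3 a4 a5 y := by unfold E6v; ring
  have hv : E6v a1 a2 a3 a4 a5 y = a1 + a2 * y + a3 * y ^ 2 + a4 * y ^ 3 + a5 * y ^ 4 := rfl
  have h2 := E6_2 a1 a2 a3 a4 a5 y
  have h3 := E6_3 a1 a2 a3 a4 a5 y
  have h4 := E6_4 a1 a2 a3 a4 a5 y
  have h5 := E6_5 a1 a2 a3 a4 a5 y
  rw [hu]
  have hq : E6q a1 a2 a3 a4 a5 y =
    E6r2 a1 a2 a3 a4 a5 y / 2 + E6r3 a1 a2 a3 a4 a5 y / 6 + E6r4 a1 a2 a3 a4 a5 y / 24 +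
    E6r5 a1 a2 a3 a4 a5 y / 120 := rfl
  rw [hq]
  generalize E6r2 a1 a2 a3 a4 a5 y = R2 at *
  generalize E6r3 a1 a2 a3 a4 a5 y = R3 at *
  generalize E6r4 a1 a2 a3 a4 a5 y = R4 at *
  generalize E6r5 a1 a2 a3 a4 a5 y = R5 at *
  generalize E6v a1 a2 a3 a4 a5 y = v at *
  linear_combination y * hv + (y ^ 2 / 2) * h2 + (y ^ 3 / 6) * h3 + (y ^ 4 / 24) * h4 +
    (y ^ 5 / 120) * h5

theorem E6q_cont : Continuous (fun p : ℝ × ℝ × ℝ × ℝ × ℝ × ℝ =>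
    E6q p.1 p.2.1 p.2.2.1 p.2.2.2.1 p.2.2.2.2.1 p.2.2.2.2.2) := by
  have c1 : Continuous (fun p : ℝ × ℝ × ℝ × ℝ × ℝ × ℝ => p.1) := continuous_fst
  have c2 : Continuous (fun p : ℝ × ℝ × ℝ × ℝ × ℝ × ℝ => p.2.1) :=
    continuous_fst.comp continuous_snd
  have c3 : Continuous (fun p : ℝ × ℝ × ℝ × ℝ × ℝ × ℝ => p.2.2.1) := by fun_prop
  have c4 : Continuous (fun p : ℝ × ℝ × ℝ × ℝ × ℝ × ℝ => p.2.2.2.1) := by fun_prop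
  have c5 : Continuous (fun p : ℝ × ℝ × ℝ × ℝ × ℝ × ℝ => p.2.2.2.2.1) := by fun_prop
  have c6 : Continuous (fun p : ℝ × ℝ × ℝ × ℝ × ℝ × ℝ => p.2.2.2.2.2) := by fun_prop
  have key : ∀ f1 f2 f3 f4 f5 f6 : (ℝ × ℝ × ℝ × ℝ × ℝ × ℝ) → ℝ, Continuous f1 →
      Continuous f2 → Continuous f3 → Continuous f4 → Continuous f5 → Continuous f6 →
      Continuous (fun p => E6q (f1 p) (f2 p) (f3 p) (f4 p) (f5 p) (f6 p)) := by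
    intro f1 f2 f3 f4 f5 f6 c1 c2 c3 c4 c5 c6
    have hv : Continuous (fun p => E6v (f1 p) (f2 p) (f3 p) (f4 p) (f5 p) (f6 p)) := by
      unfold E6v; fun_prop
    have hw1 : Continuous (fun p => E6w1 (f2 p) (f3 p) (f4 p) (f5 p) (f6 p)) := by
      unfold E6w1; fun_prop
    have hw2 : Continuous (fun p => E6w2 (f3 p) (f4 p) (f5 p) (f6 p)) := by
      unfold E6w2; fun_prop
    have h2 : Continuous (fun p => E6r2 (f1 p) (f2 p) (f3 p) (f4 p) (f5 p) (f6 p)) := by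
      unfold E6r2; fun_prop
    have h3 : Continuous (fun p => E6r3 (f1 p) (f2 p) (f3 p) (f4 p) (f5 p) (f6 p)) := by
      unfold E6r3; fun_prop
    have h4 : Continuous (fun p => E6r4 (f1 p) (f2 p) (f3 p) (f4 p) (f5 p) (f6 p)) := by
      unfold E6r4; fun_prop
    have h5 : Continuous (fun p => E6r5 (f1 p) (f2 p) (f3 p) (f4 p) (f5 p) (f6 p)) := by
      unfold E6r5; fun_prop
    unfold E6q
    fun_prop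
  exact key _ _ _ _ _ _ continuous_fst c2 c3 c4 c5 c6

theorem E6_rem (u : ℝ) : |Real.exp u - (1 + u + u ^ 2 / 2 + u ^ 3 / 6 + u ^ 4 / 24 + u ^ 5 / 120)| ≤
    |u| ^ 6 * Real.exp |u| := by
  have h := Complex.norm_exp_sub_sum_le_norm_mul_exp (u : ℂ) 6
  rw [Complex.norm_real, Real.norm_eq_abs] at h
  refine le_trans (le_of_eq ?_) h
  rw [← Real.norm_eq_abs, ← Complex.norm_real]
  congr 1
  push_cast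
  simp only [Finset.sum_range_succ, Finset.sum_range_zero, Nat.factorial]
  push_cast
  ring

theorem exp6 (K : ℝ) (hK : 0 ≤ K) : ∃ K' : ℝ, 0 < K' ∧ ∀ a1 a2 a3 a4 a5 y : ℝ,
    |a1| ≤ K → |a2| ≤ K → |a3| ≤ K → |a4| ≤ K → |a5| ≤ K → |y| ≤ 1 →
    |Real.exp (a1 * y + a2 * y ^ 2 + a3 * y ^ 3 + a4 * y ^ 4 + a5 * y ^ 5)
      - (1 + a1 * y + (a2 + a1 ^ 2 / 2) * y ^ 2 + (a3 + a1 * a2 + a1 ^ 3 / 6) * y ^ 3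
        + (a4 + a1 * a3 + a2 ^ 2 / 2 + a1 ^ 2 * a2 / 2 + a1 ^ 4 / 24) * y ^ 4
        + (a5 + a1 * a4 + a2 * a3 + (a1 ^ 2 * a3 + a1 * a2 ^ 2) / 2 + a1 ^ 3 * a2 / 6
            + a1 ^ 5 / 120) * y ^ 5)| ≤ K' * y ^ 6 := by
  have hcomp : IsCompact ((Set.Icc (-K) K) ×ˢ (Set.Icc (-K) K) ×ˢ (Set.Icc (-K) K) ×ˢ
      (Set.Icc (-K) K) ×ˢ (Set.Icc (-K) K) ×ˢ (Set.Icc (-1 : ℝ) 1)) :=
    isCompact_Icc.prod (isCompact_Icc.prod (isCompact_Icc.prod (isCompact_Icc.prod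
      (isCompact_Icc.prod isCompact_Icc))))
  obtain ⟨B, hB⟩ := hcomp.exists_bound_of_continuousOn E6q_cont.continuousOn
  refine ⟨(5 * K) ^ 6 * Real.exp (5 * K) + |B| + 1, by positivity, ?_⟩
  intro a1 a2 a3 a4 a5 y h1 h2 h3 h4 h5 hy
  have hq : |E6q a1 a2 a3 a4 a5 y| ≤ |B| := by
    have := hB (a1, a2, a3, a4, a5, y) ⟨abs_le.mp h1, abs_le.mp h2, abs_le.mp h3, abs_le.mp h4,
      abs_le.mp h5, abs_le.mp hy⟩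
    exact this.trans (le_abs_self B)
  set u := a1 * y + a2 * y ^ 2 + a3 * y ^ 3 + a4 * y ^ 4 + a5 * y ^ 5 with hu
  have hy0 : 0 ≤ |y| := abs_nonneg y
  have hterm : ∀ (a : ℝ) (k : ℕ), |a| ≤ K → |a * y ^ (k + 1)| ≤ K * |y| := by
    intro a k ha
    rw [abs_mul, abs_pow, pow_succ]
    have : |y| ^ k ≤ 1 := pow_le_one₀ hy0 hy
    calc |a| * (|y| ^ k * |y|) ≤ K * (1 * |y|) := by gcongr
      _ = K * |y| := by ring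
  have hub : |u| ≤ 5 * K * |y| := by
    have e1 : |a1 * y| ≤ K * |y| := by simpa using hterm a1 0 h1
    have e2 : |a2 * y ^ 2| ≤ K * |y| := hterm a2 1 h2
    have e3 : |a3 * y ^ 3| ≤ K * |y| := hterm a3 2 h3
    have e4 : |a4 * y ^ 4| ≤ K * |y| := hterm a4 3 h4
    have e5 : |a5 * y ^ 5| ≤ K * |y| := hterm a5 4 h5
    have f1 := abs_add_le (a1 * y + a2 * y ^ 2 + a3 * y ^ 3 + a4 * y ^ 4) (a5 * y ^ 5)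
    have f2 := abs_add_le (a1 * y + a2 * y ^ 2 + a3 * y ^ 3) (a4 * y ^ 4)
    have f3 := abs_add_le (a1 * y + a2 * y ^ 2) (a3 * y ^ 3)
    have f4 := abs_add_le (a1 * y) (a2 * y ^ 2)
    rw [← hu] at f1
    linarith
  have hub2 : |u| ≤ 5 * K := by
    calc |u| ≤ 5 * K * |y| := hub
      _ ≤ 5 * K * 1 := by gcongr
      _ = 5 * K := mul_one _
  have hrem := E6_rem u
  have hy6 : y ^ 6 = |y| ^ 6 := by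
    rw [show (6:ℕ) = 2 * 3 by norm_num, pow_mul, pow_mul, sq_abs]
  have hrem2 : |u| ^ 6 * Real.exp |u| ≤ (5 * K) ^ 6 * Real.exp (5 * K) * y ^ 6 := by
    calc |u| ^ 6 * Real.exp |u| ≤ (5 * K * |y|) ^ 6 * Real.exp (5 * K) := by
          gcongr
      _ = (5 * K) ^ 6 * Real.exp (5 * K) * y ^ 6 := by rw [hy6]; ring
  have hkey := E6q_eq a1 a2 a3 a4 a5 y
  rw [← hu] at hkey
  have hy6n : 0 ≤ y ^ 6 := by rw [hy6]; positivity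
  have hqb : |E6q a1 a2 a3 a4 a5 y * y ^ 6| ≤ |B| * y ^ 6 := by
    rw [abs_mul, abs_of_nonneg hy6n]
    gcongr
  have hsplit : Real.exp u
      - (1 + a1 * y + (a2 + a1 ^ 2 / 2) * y ^ 2 + (a3 + a1 * a2 + a1 ^ 3 / 6) * y ^ 3
        + (a4 + a1 * a3 + a2 ^ 2 / 2 + a1 ^ 2 * a2 / 2 + a1 ^ 4 / 24) * y ^ 4
        + (a5 + a1 * a4 + a2 * a3 + (a1 ^ 2 * a3 + a1 * a2 ^ 2) / 2 + a1 ^ 3 * a2 / 6
            + a1 ^ 5 / 120) * y ^ 5) =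
      (Real.exp u - (1 + u + u ^ 2 / 2 + u ^ 3 / 6 + u ^ 4 / 24 + u ^ 5 / 120)) +
        E6q a1 a2 a3 a4 a5 y * y ^ 6 := by
    rw [← hkey]; ring
  rw [hsplit]
  calc _ ≤ |Real.exp u - (1 + u + u ^ 2 / 2 + u ^ 3 / 6 + u ^ 4 / 24 + u ^ 5 / 120)| +
        |E6q a1 a2 a3 a4 a5 y * y ^ 6| := abs_add_le _ _
    _ ≤ (5 * K) ^ 6 * Real.exp (5 * K) * y ^ 6 + |B| * y ^ 6 := by linarith
    _ ≤ ((5 * K) ^ 6 * Real.exp (5 * K) + |B| + 1) * y ^ 6 := by nlinarith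

end Pool.Agent.FW
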