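import Pool.Agent.Helper155.FW.Defs
import Pool.Agent.Helper155.FW.D2a

set_option autoImplicit false
open Filter Asymptotics Topology

namespace Pool.Agent.FW

/-! ## AVAILABLE (proved by others; use freely) -/


/-! ## TARGETS (prove these) -/

lemma exp6' (K : ℝ) (hK : 0 ≤ K) : ∃ K' : ℝ, 0 < K' ∧ ∀ x t A b c d g : ℝ, 0 < x → x ≤ 1 → |t| ≤ 1 →
    |A| ≤ K * x → |b| ≤ K * x ^ 2 → |c| ≤ K * x ^ 3 → |d| ≤ K * x ^ 4 → |g| ≤ K * x ^ 5 →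
    |Real.exp (t * A + t ^ 2 * b + t ^ 3 * c + t ^ 4 * d + t ^ 5 * g)
      - (1 + A * t + (b + A ^ 2 / 2) * t ^ 2 + (c + A * b + A ^ 3 / 6) * t ^ 3
        + (d + A * c + b ^ 2 / 2 + A ^ 2 * b / 2 + A ^ 4 / 24) * t ^ 4
        + (g + A * d + b * c + (A ^ 2 * c + A * b ^ 2) / 2 + A ^ 3 * b / 6
            + A ^ 5 / 120) * t ^ 5)| ≤ K' * (t ^ 6 * x ^ 6) := by
  obtain ⟨K', hK', h⟩ := exp6 K hK
  refine ⟨K', hK', fun x t A b c d g hx hx1 ht hA hb hc hd hg => ?_⟩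
  have key : ∀ (z : ℝ) (k : ℕ), |z| ≤ K * x ^ k → |z / x ^ k| ≤ K := by
    intro z k hz
    rw [abs_div, abs_of_pos (pow_pos hx k), div_le_iff₀ (pow_pos hx k)]
    exact hz
  have h1 := key A 1 (by simpa using hA)
  have h2 := key b 2 hb
  have h3 := key c 3 hc
  have h4 := key d 4 hd
  have h5 := key g 5 hg
  have hy : |t * x| ≤ 1 := by
    rw [abs_mul, abs_of_pos hx]
    calc |t| * x ≤ 1 * 1 := mul_le_mul ht hx1 hx.le zero_le_one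
      _ = 1 := one_mul 1
  have hh := h (A / x ^ 1) (b / x ^ 2) (c / x ^ 3) (d / x ^ 4) (g / x ^ 5) (t * x) h1 h2 h3 h4 h5 hy
  have hx0 : x ≠ 0 := hx.ne'
  have e1 : A / x ^ 1 * (t * x) + b / x ^ 2 * (t * x) ^ 2 + c / x ^ 3 * (t * x) ^ 3
      + d / x ^ 4 * (t * x) ^ 4 + g / x ^ 5 * (t * x) ^ 5
      = t * A + t ^ 2 * b + t ^ 3 * c + t ^ 4 * d + t ^ 5 * g := by
    field_simp
  have e2 : 1 + A / x ^ 1 * (t * x) + (b / x ^ 2 + (A / x ^ 1) ^ 2 / 2) * (t * x) ^ 2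
      + (c / x ^ 3 + A / x ^ 1 * (b / x ^ 2) + (A / x ^ 1) ^ 3 / 6) * (t * x) ^ 3
      + (d / x ^ 4 + A / x ^ 1 * (c / x ^ 3) + (b / x ^ 2) ^ 2 / 2
        + (A / x ^ 1) ^ 2 * (b / x ^ 2) / 2 + (A / x ^ 1) ^ 4 / 24) * (t * x) ^ 4
      + (g / x ^ 5 + A / x ^ 1 * (d / x ^ 4) + b / x ^ 2 * (c / x ^ 3)
        + ((A / x ^ 1) ^ 2 * (c / x ^ 3) + A / x ^ 1 * (b / x ^ 2) ^ 2) / 2
        + (A / x ^ 1) ^ 3 * (b / x ^ 2) / 6 + (A / x ^ 1) ^ 5 / 120) * (t * x) ^ 5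
      = 1 + A * t + (b + A ^ 2 / 2) * t ^ 2 + (c + A * b + A ^ 3 / 6) * t ^ 3
        + (d + A * c + b ^ 2 / 2 + A ^ 2 * b / 2 + A ^ 4 / 24) * t ^ 4
        + (g + A * d + b * c + (A ^ 2 * c + A * b ^ 2) / 2 + A ^ 3 * b / 6
            + A ^ 5 / 120) * t ^ 5 := by
    field_simp
  have e3 : (t * x) ^ 6 = t ^ 6 * x ^ 6 := by ring
  rw [e1, e2, e3] at hh
  exact hh

lemma rpow_third (z : ℝ) (hz : 0 < z) (k : ℕ) : z ^ (-((k : ℝ) / 3)) = (z ^ (-(1 / 3 : ℝ))) ^ k := by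
  rw [← Real.rpow_natCast, ← Real.rpow_mul hz.le]
  congr 1
  ring

theorem residual (Q : Seqs) (K : ℝ) (hG : Good Q K) (hR : Rel Q) :
    ∃ K' t0 : ℝ, 0 < K' ∧ 0 < t0 ∧ t0 ≤ 1 / 3 ∧ ∀ (n : ℕ) (t : ℝ), |t| ≤ t0 →
      |t * (Q.A n + Q.A (n + 1)) - (Real.exp (Q.del n t) - Real.exp (-(Q.del (n + 1) t)))|
        ≤ K' * t ^ 6 * ((n : ℝ) + 1) ^ (-(2 : ℝ)) := by
  have hK0 : 0 ≤ K := zero_le_one.trans hG.K1
  obtain ⟨K', hK', h⟩ := exp6' K hK0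
  refine ⟨2 * K', 1 / 3, by positivity, by norm_num, le_refl _, fun n t ht => ?_⟩
  have ht1 : |t| ≤ 1 := ht.trans (by norm_num)
  have hn : (0 : ℝ) < (n : ℝ) + 1 := by positivity
  have hn1 : (1 : ℝ) ≤ (n : ℝ) + 1 := by
    have : (0 : ℝ) ≤ n := Nat.cast_nonneg n
    linarith
  set x : ℝ := ((n : ℝ) + 1) ^ (-(1 / 3 : ℝ)) with hx
  have hx0 : 0 < x := Real.rpow_pos_of_pos hn _
  have hx1 : x ≤ 1 := Real.rpow_le_one_of_one_le_of_nonpos hn1 (by norm_num)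
  have p2 : ((n : ℝ) + 1) ^ (-(2 / 3 : ℝ)) = x ^ 2 := by
    have := rpow_third _ hn 2; push_cast at this; exact this
  have p3 : ((n : ℝ) + 1) ^ (-(1 : ℝ)) = x ^ 3 := by
    have := rpow_third _ hn 3; push_cast at this
    rw [show (-(1 : ℝ)) = -(3 / 3) by norm_num]; exact this
  have p4 : ((n : ℝ) + 1) ^ (-(4 / 3 : ℝ)) = x ^ 4 := by
    have := rpow_third _ hn 4; push_cast at this; exact this
  have p5 : ((n : ℝ) + 1) ^ (-(5 / 3 : ℝ)) = x ^ 5 := by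
    have := rpow_third _ hn 5; push_cast at this; exact this
  have p6 : ((n : ℝ) + 1) ^ (-(2 : ℝ)) = x ^ 6 := by
    have := rpow_third _ hn 6; push_cast at this
    rw [show (-(2 : ℝ)) = -(6 / 3) by norm_num]; exact this
  have hmono : ∀ s : ℝ, s ≤ 0 → (((n + 1 : ℕ) : ℝ) + 1) ^ s ≤ ((n : ℝ) + 1) ^ s := by
    intro s hs
    apply Real.rpow_le_rpow_of_nonpos hn _ hs
    push_cast; linarith
  have up : ∀ s : ℝ, s ≤ 0 → ∀ z : ℝ, |z| ≤ K * (((n + 1 : ℕ) : ℝ) + 1) ^ s →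
      |-z| ≤ K * ((n : ℝ) + 1) ^ s := by
    intro s hs z hz
    rw [abs_neg]
    exact hz.trans (mul_le_mul_of_nonneg_left (hmono s hs) hK0)
  have h1 := h x t (Q.A n) (Q.b n) (Q.c n) (Q.d n) (Q.g n) hx0 hx1 ht1 (hG.A n)
    (by rw [← p2]; exact hG.b n) (by rw [← p3]; exact hG.c n) (by rw [← p4]; exact hG.d n)
    (by rw [← p5]; exact hG.g n)
  have h2 := h x t (-Q.A (n + 1)) (-Q.b (n + 1)) (-Q.c (n + 1)) (-Q.d (n + 1)) (-Q.g (n + 1))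
    hx0 hx1 ht1 (up _ (by norm_num) _ (hG.A (n + 1)))
    (by rw [← p2]; exact up _ (by norm_num) _ (hG.b (n + 1)))
    (by rw [← p3]; exact up _ (by norm_num) _ (hG.c (n + 1)))
    (by rw [← p4]; exact up _ (by norm_num) _ (hG.d (n + 1)))
    (by rw [← p5]; exact up _ (by norm_num) _ (hG.g (n + 1)))
  have hdel : Q.del n t = t * Q.A n + t ^ 2 * Q.b n + t ^ 3 * Q.c n + t ^ 4 * Q.d n + t ^ 5 * Q.g n :=
    rfl
  have hdel' : -(Q.del (n + 1) t) = t * -Q.A (n + 1) + t ^ 2 * -Q.b (n + 1) + t ^ 3 * -Q.c (n + 1)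
      + t ^ 4 * -Q.d (n + 1) + t ^ 5 * -Q.g (n + 1) := by
    simp only [Seqs.del]; ring
  rw [← hdel] at h1
  rw [← hdel'] at h2
  have hr2 := hR.r2 n
  have hr3 := hR.r3 n
  have hr4 := hR.r4 n
  have hr5 := hR.r5 n
  have h1' := abs_le.mp h1
  have h2' := abs_le.mp h2
  have hid : t * (Q.A n + Q.A (n + 1)) - (Real.exp (Q.del n t) - Real.exp (-(Q.del (n + 1) t)))
      = (Real.exp (-(Q.del (n + 1) t))
        - (1 + -Q.A (n + 1) * t + (-Q.b (n + 1) + (-Q.A (n + 1)) ^ 2 / 2) * t ^ 2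
          + (-Q.c (n + 1) + -Q.A (n + 1) * -Q.b (n + 1) + (-Q.A (n + 1)) ^ 3 / 6) * t ^ 3
          + (-Q.d (n + 1) + -Q.A (n + 1) * -Q.c (n + 1) + (-Q.b (n + 1)) ^ 2 / 2
            + (-Q.A (n + 1)) ^ 2 * -Q.b (n + 1) / 2 + (-Q.A (n + 1)) ^ 4 / 24) * t ^ 4
          + (-Q.g (n + 1) + -Q.A (n + 1) * -Q.d (n + 1) + -Q.b (n + 1) * -Q.c (n + 1)
            + ((-Q.A (n + 1)) ^ 2 * -Q.c (n + 1) + -Q.A (n + 1) * (-Q.b (n + 1)) ^ 2) / 2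
            + (-Q.A (n + 1)) ^ 3 * -Q.b (n + 1) / 6 + (-Q.A (n + 1)) ^ 5 / 120) * t ^ 5))
        - (Real.exp (Q.del n t)
          - (1 + Q.A n * t + (Q.b n + Q.A n ^ 2 / 2) * t ^ 2
            + (Q.c n + Q.A n * Q.b n + Q.A n ^ 3 / 6) * t ^ 3
            + (Q.d n + Q.A n * Q.c n + Q.b n ^ 2 / 2 + Q.A n ^ 2 * Q.b n / 2 + Q.A n ^ 4 / 24) * t ^ 4
            + (Q.g n + Q.A n * Q.d n + Q.b n * Q.c n + (Q.A n ^ 2 * Q.c n + Q.A n * Q.b n ^ 2) / 2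
              + Q.A n ^ 3 * Q.b n / 6 + Q.A n ^ 5 / 120) * t ^ 5)) := by
    linear_combination (-t ^ 2) * hr2 - t ^ 3 * hr3 - t ^ 4 * hr4 - t ^ 5 * hr5
  rw [hid, p6]
  refine (abs_sub _ _).trans ?_
  calc _ ≤ K' * (t ^ 6 * x ^ 6) + K' * (t ^ 6 * x ^ 6) := add_le_add h2 h1
    _ = 2 * K' * t ^ 6 * x ^ 6 := by ring

end Pool.Agent.FW
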