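import Pool.Agent.Helper155.FW.Defs
import Pool.Agent.Helper155.FW.D2b

set_option autoImplicit false
open Filter Asymptotics Topology

namespace Pool.Agent.FW

/-! ## AVAILABLE (proved by others; use freely) -/


/-! ## TARGETS (prove these) -/

theorem key17 (a b c d s u T r r' e : ℝ) (ha : 0 < a) (hb : 0 < b) (hc : 0 < c) (hd : 0 < d)
    (hr : 0 < r) (hr' : 0 < r') (he : 0 < e) (hs : s = 1 ∨ s = -1) (hrec : r = T + s * u + 1 / r') :
    e * (b * d)⁻¹ * (-s * (b - r') / (r' + d⁻¹)) - e * (s * (a - r) / (r + c⁻¹)) =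
    e * (u / (d + b⁻¹)) + s * (u / (d + b⁻¹)) * (e * (s * (a - r) / (r + c⁻¹)) + e * (b * d)⁻¹ * (-s * (b - r') / (r' + d⁻¹)))
    + (u / (d + b⁻¹)) * (e * (s * (a - r) / (r + c⁻¹))) * (e * (b * d)⁻¹ * (-s * (b - r') / (r' + d⁻¹))) / e
    + e * (s * (T - (a - b⁻¹)) / (d + b⁻¹) + (T - (d - c⁻¹)) * (s * (a - r) / (r + c⁻¹)) / (d + b⁻¹)
      + (b * d)⁻¹ * (-s * (b - r') / (r' + d⁻¹)) * ((T - (a - b⁻¹)) / (d + b⁻¹) + s * (T - (d - c⁻¹)) * (s * (a - r) / (r + c⁻¹)) / (d + b⁻¹))) := by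
  have h1 : r + c⁻¹ ≠ 0 := by positivity
  have h2 : r' + d⁻¹ ≠ 0 := by positivity
  have h3 : d + b⁻¹ ≠ 0 := by positivity
  have h4 : r * c + 1 ≠ 0 := by positivity
  have h5 : r' * d + 1 ≠ 0 := by positivity
  have h6 : d * b + 1 ≠ 0 := by positivity
  rcases hs with rfl | rfl
  · have hT : T = r - u - 1 / r' := by linarith
    subst hT
    field_simp
    ring
  · have hT : T = r + u - 1 / r' := by linarith
    subst hT
    field_simp
    ring

theorem rpow_le17 (n : ℕ) (x : ℝ) (hx : 0 ≤ x) : ((n : ℝ) + 1) ^ (-x) ≤ 1 := by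
  apply Real.rpow_le_one_of_one_le_of_nonpos
  · have : (0 : ℝ) ≤ n := Nat.cast_nonneg n
    linarith
  · linarith

theorem coef_le17 {K y x : ℝ} {n : ℕ} (hK : 1 ≤ K) (hx : 0 ≤ x)
    (h : |y| ≤ K * ((n : ℝ) + 1) ^ (-x)) : |y| ≤ K :=
  h.trans (by
    have := rpow_le17 n x hx
    nlinarith)

theorem del_small17 (Q : Seqs) (K : ℝ) (hG : Good Q K) (n : ℕ) (t : ℝ) (ht : 0 < t)
    (ht0 : t ≤ 1 / (20 * K)) : |Q.del n t| ≤ 1 / 4 ∧ |Q.delp n t| ≤ 1 / 4 := by
  have hK := hG.K1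
  have hK0 : 0 < K := by linarith
  have htK : t * K ≤ 1 / 20 := by
    rw [le_div_iff₀ (by positivity)] at ht0
    linarith
  have ht1 : t ≤ 1 := by nlinarith
  have hA := coef_le17 hK (by norm_num) (hG.A n)
  have hb := coef_le17 hK (by norm_num) (hG.b n)
  have hc := coef_le17 hK (by norm_num) (hG.c n)
  have hd := coef_le17 hK (by norm_num) (hG.d n)
  have hg := coef_le17 hK (by norm_num) (hG.g n)
  have hp : ∀ k : ℕ, 1 ≤ k → t ^ k ≤ t := by
    intro k hk
    calc t ^ k ≤ t ^ 1 := pow_le_pow_of_le_one ht.le ht1 hk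
      _ = t := pow_one t
  have hm : ∀ (k : ℕ) (y : ℝ), 1 ≤ k → |y| ≤ K → |t ^ k * y| ≤ 1 / 20 := by
    intro k y hk hy
    rw [abs_mul, abs_of_pos (pow_pos ht k)]
    calc t ^ k * |y| ≤ t * K := mul_le_mul (hp k hk) hy (abs_nonneg _) ht.le
      _ ≤ 1 / 20 := htK
  have h1 := hm 1 _ le_rfl hA
  have h2 := hm 2 _ (by norm_num) hb
  have h3 := hm 3 _ (by norm_num) hc
  have h4 := hm 4 _ (by norm_num) hd
  have h5 := hm 5 _ (by norm_num) hg
  rw [pow_one] at h1
  rw [abs_le] at h1 h2 h3 h4 h5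
  unfold Seqs.del Seqs.delp
  constructor <;> rw [abs_le] <;> constructor <;> linarith [h1.1, h1.2, h2.1, h2.2, h3.1, h3.2, h4.1, h4.2, h5.1, h5.2]

theorem exp_bd17 {x : ℝ} (hx : |x| ≤ 1 / 4) : 3 / 4 ≤ Real.exp x ∧ Real.exp x ≤ 4 / 3 := by
  rw [abs_le] at hx
  constructor
  · have := Real.add_one_le_exp x
    linarith [hx.1]
  · have h := Real.add_one_le_exp (-x)
    have h1 : 3 / 4 ≤ Real.exp (-x) := by linarith [hx.2]
    rw [Real.exp_neg] at h1
    have h2 := Real.exp_pos x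
    rw [le_inv_comm₀ (by norm_num) h2] at h1
    linarith

theorem eta_bd17 {a c r : ℝ} (ha : 0 < a) (hc : 0 < c) (hr : 0 < r) (hac : a * c ≤ 2) (s : ℝ)
    (hs : |s| = 1) : |s * (a - r) / (r + c⁻¹)| ≤ 2 := by
  have h1 : 0 < r + c⁻¹ := by positivity
  rw [abs_div, abs_mul, hs, one_mul, abs_of_pos h1, div_le_iff₀ h1, abs_le]
  have h2 : 0 < c⁻¹ := by positivity
  have h3 : a ≤ 2 * c⁻¹ := by
    rw [← div_eq_mul_inv, le_div_iff₀ hc]; exact hac
  constructor <;> nlinarith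

theorem e_succ17 (Q : Seqs) (n : ℕ) (t : ℝ) :
    Q.e (n + 1) t = Q.e n t * (Real.exp (Q.del (n + 1) t) * Real.exp (Q.delp (n + 1) t))⁻¹ := by
  have h : Q.e (n + 1) t = Real.exp (-(t * Q.X n + t ^ 3 * Q.Y n + t ^ 5 * Q.W n)
      + -(Q.del (n + 1) t + Q.delp (n + 1) t)) := by
    unfold Seqs.e Seqs.X Seqs.Y Seqs.W Seqs.del Seqs.delp
    congr 1
    rw [Finset.sum_range_succ _ (n + 1), Finset.sum_range_succ _ (n + 1),
      Finset.sum_range_succ _ (n + 1)]
    ring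
  rw [h, Real.exp_add, ← Real.exp_add (Q.del (n + 1) t), ← Real.exp_neg]
  rfl

theorem zeta_exists (Q : Seqs) (K : ℝ) (hG : Good Q K) (hR : Rel Q) (ρ : ℝ → ℕ → ℝ)
    (hρ : ∀ t > 0, ∀ n, 0 < ρ t n)
    (hrec : ∀ t > 0, ∀ n, ρ t n = t * (Q.A n + Q.A (n + 1) + (-1) ^ n * Q.h n) + 1 / ρ t (n + 1)) :
    ∃ (ζ : ℕ → ℝ → ℝ) (K' t0 : ℝ), ZF Q ζ K' t0 ∧ ∀ t : ℝ, 0 < t → t ≤ t0 →
      ζ 0 t = Q.e 0 t * (Real.exp (Q.del 0 t) - ρ t 0) / (ρ t 0 + Real.exp (-(Q.delp 0 t))) := by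
  obtain ⟨K1, t1, hK1, ht1, ht1', hres⟩ := residual Q K hG hR
  have hK := hG.K1
  have hK0 : 0 < K := by linarith
  have he0 : ∀ m t, 0 < Q.e m t := fun m t => Real.exp_pos _
  have hsabs : ∀ m : ℕ, |((-1 : ℝ)) ^ m| = 1 := fun m => by
    rw [abs_pow, abs_neg, abs_one, one_pow]
  have heta : ∀ (m : ℕ) (t : ℝ), 0 < t → t ≤ 1 / (20 * K) →
      |(-1) ^ m * (Real.exp (Q.del m t) - ρ t m) / (ρ t m + (Real.exp (Q.delp m t))⁻¹)| ≤ 2 := by
    intro m t ht htt
    obtain ⟨hd1, hd2⟩ := del_small17 Q K hG m t ht htt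
    obtain ⟨ha1, ha2⟩ := exp_bd17 hd1
    obtain ⟨hc1, hc2⟩ := exp_bd17 hd2
    exact eta_bd17 (Real.exp_pos _) (Real.exp_pos _) (hρ t ht m) (by nlinarith) _ (hsabs m)
  refine ⟨fun m t => Q.e m t * ((-1) ^ m * (Real.exp (Q.del m t) - ρ t m) /
    (ρ t m + (Real.exp (Q.delp m t))⁻¹)), max 2 (15 * K1), min t1 (1 / (20 * K)), ?_, ?_⟩
  · refine ⟨le_trans (by norm_num) (le_max_left _ _), lt_min ht1 (by positivity),
      (min_le_left _ _).trans ht1', ?_, ?_⟩
    · intro m t ht htt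
      rw [abs_mul, abs_of_pos (he0 m t), mul_comm]
      apply mul_le_mul_of_nonneg_right _ (he0 m t).le
      exact (heta m t ht (htt.trans (min_le_right _ _))).trans (le_max_left _ _)
    · intro m t ht htt
      have htt1 : t ≤ t1 := htt.trans (min_le_left _ _)
      have htt2 : t ≤ 1 / (20 * K) := htt.trans (min_le_right _ _)
      have hrm := hres m t (by rw [abs_of_pos ht]; exact htt1)
      have hrp := hres m (-t) (by rw [abs_neg, abs_of_pos ht]; exact htt1)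
      have hdn : ∀ n, Q.del n (-t) = -(Q.delp n t) := by
        intro n; unfold Seqs.del Seqs.delp; ring
      rw [hdn, hdn, neg_neg] at hrp
      have hη := heta m t ht htt2
      have hη' := heta (m + 1) t ht htt2
      obtain ⟨hd1, hd2⟩ := del_small17 Q K hG (m + 1) t ht htt2
      obtain ⟨hb1, hb2⟩ := exp_bd17 hd1
      obtain ⟨hdd1, hdd2⟩ := exp_bd17 hd2
      have hid := key17 (Real.exp (Q.del m t)) (Real.exp (Q.del (m + 1) t))
        (Real.exp (Q.delp m t)) (Real.exp (Q.delp (m + 1) t)) ((-1) ^ m) (t * Q.h m)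
        (t * (Q.A m + Q.A (m + 1))) (ρ t m) (ρ t (m + 1)) (Q.e m t)
        (Real.exp_pos _) (Real.exp_pos _) (Real.exp_pos _) (Real.exp_pos _) (hρ t ht m)
        (hρ t ht (m + 1)) (he0 m t) (neg_one_pow_eq_or ℝ m) (by
          have := hrec t ht m
          linarith)
      have hs1 : (-1 : ℝ) ^ (m + 1) = -(-1) ^ m := by rw [pow_succ]; ring
      have hp : Q.p m t = t * Q.h m / (Real.exp (Q.delp (m + 1) t) + (Real.exp (Q.del (m + 1) t))⁻¹) := by
        unfold Seqs.p Seqs.om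
        rw [Real.exp_neg]
      rw [hs1] at hη'
      rw [e_succ17, hs1, hp]
      set η : ℝ := (-1) ^ m * (Real.exp (Q.del m t) - ρ t m) / (ρ t m + (Real.exp (Q.delp m t))⁻¹) with hηdef
      set η' : ℝ := -(-1) ^ m * (Real.exp (Q.del (m + 1) t) - ρ t (m + 1)) /
        (ρ t (m + 1) + (Real.exp (Q.delp (m + 1) t))⁻¹) with hη'def
      set rm : ℝ := t * (Q.A m + Q.A (m + 1)) - (Real.exp (Q.del m t) - (Real.exp (Q.del (m + 1) t))⁻¹) with hrmdef
      set rp : ℝ := t * (Q.A m + Q.A (m + 1)) - (Real.exp (Q.delp (m + 1) t) - (Real.exp (Q.delp m t))⁻¹) with hrpdef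
      set om : ℝ := Real.exp (Q.delp (m + 1) t) + (Real.exp (Q.del (m + 1) t))⁻¹ with homdef
      set ε : ℝ := (Real.exp (Q.del (m + 1) t) * Real.exp (Q.delp (m + 1) t))⁻¹ with hεdef
      have hrm' : |rm| ≤ K1 * t ^ 6 * ((m : ℝ) + 1) ^ (-(2 : ℝ)) := by
        rw [hrmdef, ← Real.exp_neg]; exact hrm
      have hrp' : |rp| ≤ K1 * t ^ 6 * ((m : ℝ) + 1) ^ (-(2 : ℝ)) := by
        have e1 : rp = -(-t * (Q.A m + Q.A (m + 1)) - (Real.exp (-Q.delp m t) - Real.exp (Q.delp (m + 1) t))) := by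
          rw [hrpdef, Real.exp_neg]; ring
        rw [e1, abs_neg]
        calc _ ≤ _ := hrp
          _ = _ := by rw [show (-t) ^ 6 = t ^ 6 by ring]
      have hom1 : 1 ≤ om := by
        have : 0 < (Real.exp (Q.del (m + 1) t))⁻¹ := by positivity
        have h4 : 3 / 4 ≤ (Real.exp (Q.del (m + 1) t))⁻¹ := by
          rw [le_inv_comm₀ (by norm_num) (Real.exp_pos _)]
          linarith
        rw [homdef]; linarith
      have hε0 : 0 < ε := by rw [hεdef]; positivity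
      have hε1 : ε ≤ 2 := by
        rw [hεdef, inv_le_comm₀ (by positivity) (by norm_num)]
        nlinarith
      set B : ℝ := K1 * t ^ 6 * ((m : ℝ) + 1) ^ (-(2 : ℝ)) with hB
      have hB0 : 0 ≤ B := by positivity
      have e2 : (Q.e m t * ε * η' - Q.e m t * η -
          (Q.e m t * (t * Q.h m / om) + (-1) ^ m * (t * Q.h m / om) * (Q.e m t * η + Q.e m t * ε * η')
            + t * Q.h m / om * (Q.e m t * η) * (Q.e m t * ε * η') / Q.e m t)) =
          Q.e m t * ((-1) ^ m * rm / om + rp * η / om + ε * η' * (rm / om + (-1) ^ m * rp * η / om)) := by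
        linarith [hid]
      rw [e2, abs_mul, abs_of_pos (he0 m t)]
      have hdiv : ∀ y : ℝ, |y / om| ≤ |y| := by
        intro y
        rw [abs_div, abs_of_pos (by linarith : (0:ℝ) < om)]
        exact div_le_self (abs_nonneg _) hom1
      have b1 : |(-1) ^ m * rm / om| ≤ B := by
        refine (hdiv _).trans ?_
        rw [abs_mul, hsabs, one_mul]; exact hrm'
      have b2 : |rp * η / om| ≤ 2 * B := by
        refine (hdiv _).trans ?_
        rw [abs_mul]
        calc |rp| * |η| ≤ B * 2 := mul_le_mul hrp' hη (abs_nonneg _) hB0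
          _ = 2 * B := by ring
      have b3 : |rm / om| ≤ B := (hdiv _).trans hrm'
      have b4 : |(-1) ^ m * rp * η / om| ≤ 2 * B := by
        refine (hdiv _).trans ?_
        rw [abs_mul, abs_mul, hsabs, one_mul]
        calc |rp| * |η| ≤ B * 2 := mul_le_mul hrp' hη (abs_nonneg _) hB0
          _ = 2 * B := by ring
      have b5 : |rm / om + (-1) ^ m * rp * η / om| ≤ 3 * B :=
        (abs_add_le _ _).trans (by linarith)
      have b6 : |ε * η' * (rm / om + (-1) ^ m * rp * η / om)| ≤ 12 * B := by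
        rw [abs_mul, abs_mul, abs_of_pos hε0]
        have h7 : ε * |η'| ≤ 2 * 2 := mul_le_mul hε1 hη' (abs_nonneg _) (by norm_num)
        calc ε * |η'| * |rm / om + (-1) ^ m * rp * η / om| ≤ (2 * 2) * (3 * B) :=
              mul_le_mul h7 b5 (abs_nonneg _) (by norm_num)
          _ = 12 * B := by ring
      have b7 : |(-1) ^ m * rm / om + rp * η / om + ε * η' * (rm / om + (-1) ^ m * rp * η / om)| ≤ 15 * B := by
        refine (abs_add_le _ _).trans ?_
        have := abs_add_le ((-1) ^ m * rm / om) (rp * η / om)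
        linarith
      calc Q.e m t * |(-1) ^ m * rm / om + rp * η / om + ε * η' * (rm / om + (-1) ^ m * rp * η / om)|
          ≤ Q.e m t * (15 * B) := mul_le_mul_of_nonneg_left b7 (he0 m t).le
        _ = (15 * K1) * (t ^ 6 * Q.e m t * ((m : ℝ) + 1) ^ (-(2 : ℝ))) := by rw [hB]; ring
        _ ≤ (max 2 (15 * K1)) * (t ^ 6 * Q.e m t * ((m : ℝ) + 1) ^ (-(2 : ℝ))) := by
            apply mul_le_mul_of_nonneg_right (le_max_right _ _)
            have := he0 m t
            positivity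
        _ = max 2 (15 * K1) * t ^ 6 * Q.e m t * ((m : ℝ) + 1) ^ (-(2 : ℝ)) := by ring
  · intro t ht htt
    simp only [pow_zero, one_mul, Real.exp_neg]
    rw [mul_div_assoc]

end Pool.Agent.FW

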