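import Pool.Agent.Helper155.FW.Defs

set_option autoImplicit false
open Filter Asymptotics Topology

namespace Pool.Agent.FW

/-! ## TARGETS (prove these) -/

theorem rpow_neg_le_one' (n : ℕ) {x : ℝ} (hx : x ≤ 0) : ((n : ℝ) + 1) ^ x ≤ 1 :=
  Real.rpow_le_one_of_one_le_of_nonpos (by have : (0 : ℝ) ≤ n := Nat.cast_nonneg n; linarith) hx

theorem abs_le_K {K a r : ℝ} (hK : 1 ≤ K) (h : |a| ≤ K * r) (hr : r ≤ 1) : |a| ≤ K :=
  h.trans (by nlinarith)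

theorem K_t {K t : ℝ} (hK : 1 ≤ K) (htK : t ≤ 1 / (10 * K)) : t * K ≤ 1 / 10 := by
  have hK0 : 0 < K := by linarith
  calc t * K ≤ 1 / (10 * K) * K := by nlinarith
    _ = 1 / 10 := by field_simp

theorem t_le {K t : ℝ} (hK : 1 ≤ K) (ht : 0 < t) (htK : t ≤ 1 / (10 * K)) : t ≤ 1 / 10 := by
  have := K_t hK htK
  nlinarith

theorem e_le {Q : Seqs} {K : ℝ} (hG : Good Q K) (m : ℕ) {t : ℝ} (ht : 0 < t)
    (htK : t ≤ 1 / (10 * K)) :
    Q.e m t ≤ Real.exp K * Real.exp (-(t * ((m : ℝ) + 1) ^ (2 / 3 : ℝ) / (2 * K))) := by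
  have hK := hG.K1
  have hK0 : 0 < K := by linarith
  have hm1 : (1 : ℝ) ≤ (m : ℝ) + 1 := by have : (0 : ℝ) ≤ m := Nat.cast_nonneg m; linarith
  have hm0 : (0 : ℝ) < (m : ℝ) + 1 := by linarith
  have h1 := K_t hK htK
  have h2 := t_le hK ht htK
  set N := ((m : ℝ) + 1) ^ (2 / 3 : ℝ) with hN
  have hN1 : 1 ≤ N := Real.one_le_rpow hm1 (by norm_num)
  have hlog : Real.log ((m : ℝ) + 1) ≤ 3 / 2 * N := by
    have e1 : Real.log N = 2 / 3 * Real.log ((m : ℝ) + 1) := by rw [hN, Real.log_rpow hm0]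
    have e2 : Real.log N ≤ N - 1 := Real.log_le_sub_one_of_pos (by linarith)
    linarith
  have hlog0 : 0 ≤ Real.log ((m : ℝ) + 1) := Real.log_nonneg hm1
  have hX := hG.Xl m
  have hY := hG.Yu m
  have hW := hG.Wu m
  rw [← hN] at hX
  have hXK : N / K ≤ Q.X m := by rw [div_le_iff₀ hK0]; linarith
  have hYl : -(K * (1 + 3 / 2 * N)) ≤ Q.Y m := by
    have := (abs_le.mp hY).1
    nlinarith
  have hWl := (abs_le.mp hW).1
  unfold Seqs.e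
  rw [← Real.exp_add]
  apply Real.exp_le_exp.mpr
  have f1 : t * (N / K) ≤ t * Q.X m := mul_le_mul_of_nonneg_left hXK ht.le
  have ht3 : 0 < t ^ 3 := by positivity
  have ht5 : 0 < t ^ 5 := by positivity
  have f2 : t ^ 3 * (-(K * (1 + 3 / 2 * N))) ≤ t ^ 3 * Q.Y m := mul_le_mul_of_nonneg_left hYl ht3.le
  have f3 : t ^ 5 * (-K) ≤ t ^ 5 * Q.W m := mul_le_mul_of_nonneg_left hWl ht5.le
  have f4 : t ^ 3 * K * N ≤ 1 / 100 * (t * (N / K)) := by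
    have : t ^ 3 * K * N = (t * K) * (t * K) * (t * (N / K)) := by field_simp
    rw [this]
    have g0 : 0 ≤ t * K := by positivity
    have g1 : (t * K) * (t * K) ≤ 1 / 100 := by
      calc (t * K) * (t * K) ≤ (1 / 10) * (1 / 10) := mul_le_mul h1 h1 g0 (by norm_num)
        _ = 1 / 100 := by norm_num
    have g2 : 0 ≤ t * (N / K) := by positivity
    exact mul_le_mul_of_nonneg_right g1 g2
  have ht1' : t ≤ 1 := by linarith
  have f5 : t ^ 3 ≤ 1 / 10 := by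
    have e : t ^ 3 = t ^ 2 * t := by ring
    rw [e]
    have g : t ^ 2 ≤ 1 := pow_le_one₀ ht.le ht1'
    calc t ^ 2 * t ≤ 1 * t := mul_le_mul_of_nonneg_right g ht.le
      _ ≤ 1 / 10 := by linarith
  have f6 : t ^ 5 ≤ 1 / 10 := by
    have e : t ^ 5 = t ^ 4 * t := by ring
    rw [e]
    have g : t ^ 4 ≤ 1 := pow_le_one₀ ht.le ht1'
    calc t ^ 4 * t ≤ 1 * t := mul_le_mul_of_nonneg_right g ht.le
      _ ≤ 1 / 10 := by linarith
  have f7 : t * N / (2 * K) = 1 / 2 * (t * (N / K)) := by field_simp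
  rw [f7]
  have g2 : 0 ≤ t * (N / K) := by positivity
  have f8 : t ^ 3 * K ≤ 1 / 10 * K := mul_le_mul_of_nonneg_right f5 hK0.le
  have f9 : t ^ 5 * K ≤ 1 / 10 * K := mul_le_mul_of_nonneg_right f6 hK0.le
  have f10 : t ^ 3 * (-(K * (1 + 3 / 2 * N))) = -(t ^ 3 * K) - 3 / 2 * (t ^ 3 * K * N) := by ring
  rw [f10] at f2
  linarith

theorem e_le' {Q : Seqs} {K : ℝ} (hG : Good Q K) (m : ℕ) {t : ℝ} (ht : 0 < t)
    (htK : t ≤ 1 / (10 * K)) : Q.e m t ≤ Real.exp K := by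
  have hK := hG.K1
  have hK0 : 0 < K := by linarith
  refine (e_le hG m ht htK).trans ?_
  have : Real.exp (-(t * ((m : ℝ) + 1) ^ (2 / 3 : ℝ) / (2 * K))) ≤ 1 := by
    apply Real.exp_le_one_iff.mpr
    have : 0 ≤ t * ((m : ℝ) + 1) ^ (2 / 3 : ℝ) / (2 * K) := by positivity
    linarith
  have h2 := Real.exp_pos K
  nlinarith

theorem e_pos (Q : Seqs) (m : ℕ) (t : ℝ) : 0 < Q.e m t := Real.exp_pos _

theorem e_tendsto {Q : Seqs} {K : ℝ} (hG : Good Q K) {t : ℝ} (ht : 0 < t)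
    (htK : t ≤ 1 / (10 * K)) : Tendsto (fun m : ℕ => Q.e m t) atTop (𝓝 0) := by
  have hK := hG.K1
  have hK0 : 0 < K := by linarith
  have h0 : Tendsto (fun m : ℕ => ((m : ℝ) + 1)) atTop atTop :=
    tendsto_atTop_add_const_right _ _ tendsto_natCast_atTop_atTop
  have h1 : Tendsto (fun m : ℕ => ((m : ℝ) + 1) ^ (2 / 3 : ℝ)) atTop atTop :=
    (tendsto_rpow_atTop (by norm_num)).comp h0
  have h2 : Tendsto (fun m : ℕ => t * ((m : ℝ) + 1) ^ (2 / 3 : ℝ) / (2 * K)) atTop atTop :=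
    (h1.const_mul_atTop ht).atTop_div_const (by positivity)
  have h3 : Tendsto (fun m : ℕ => Real.exp (-(t * ((m : ℝ) + 1) ^ (2 / 3 : ℝ) / (2 * K))))
      atTop (𝓝 0) := Real.tendsto_exp_neg_atTop_nhds_zero.comp h2
  have h4 := h3.const_mul (Real.exp K)
  rw [mul_zero] at h4
  exact squeeze_zero (fun m => (e_pos Q m t).le) (fun m => e_le hG m ht htK) h4

theorem om_ge {Q : Seqs} {K : ℝ} (hG : Good Q K) (m : ℕ) {t : ℝ} (ht : 0 < t)
    (htK : t ≤ 1 / (10 * K)) : 1 ≤ Q.om m t := by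
  have hK := hG.K1
  have h1 := K_t hK htK
  have h2 := t_le hK ht htK
  have hA : |Q.A (m + 1)| ≤ K := abs_le_K hK (hG.A (m + 1)) (rpow_neg_le_one' _ (by norm_num))
  have hb : |Q.b (m + 1)| ≤ K := abs_le_K hK (hG.b (m + 1)) (rpow_neg_le_one' _ (by norm_num))
  have hc : |Q.c (m + 1)| ≤ K := abs_le_K hK (hG.c (m + 1)) (rpow_neg_le_one' _ (by norm_num))
  have hd : |Q.d (m + 1)| ≤ K := abs_le_K hK (hG.d (m + 1)) (rpow_neg_le_one' _ (by norm_num))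
  have hg : |Q.g (m + 1)| ≤ K := abs_le_K hK (hG.g (m + 1)) (rpow_neg_le_one' _ (by norm_num))
  have key : ∀ (x : ℝ) (k : ℕ), |x| ≤ K → |t ^ (k + 1) * x| ≤ 1 / 10 := by
    intro x k hx
    rw [abs_mul, abs_of_pos (by positivity), pow_succ]
    have a1 : t ^ k ≤ 1 := pow_le_one₀ ht.le (by linarith)
    have a0 : 0 ≤ t ^ k := by positivity
    have a2 : t * |x| ≤ 1 / 10 := by nlinarith
    have a3 : 0 ≤ t * |x| := by positivity
    calc t ^ k * t * |x| = t ^ k * (t * |x|) := by ring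
      _ ≤ 1 * (1 / 10) := by nlinarith
      _ = 1 / 10 := by ring
  have k1 := abs_le.mp (key _ 0 hA)
  have k2 := abs_le.mp (key _ 1 hb)
  have k3 := abs_le.mp (key _ 2 hc)
  have k4 := abs_le.mp (key _ 3 hd)
  have k5 := abs_le.mp (key _ 4 hg)
  norm_num at k1 k2 k3 k4 k5
  unfold Seqs.om Seqs.delp Seqs.del
  have e1 := Real.add_one_le_exp (t * Q.A (m + 1) - t ^ 2 * Q.b (m + 1) + t ^ 3 * Q.c (m + 1)
    - t ^ 4 * Q.d (m + 1) + t ^ 5 * Q.g (m + 1))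
  have e2 := Real.add_one_le_exp (-(t * Q.A (m + 1) + t ^ 2 * Q.b (m + 1) + t ^ 3 * Q.c (m + 1)
    + t ^ 4 * Q.d (m + 1) + t ^ 5 * Q.g (m + 1)))
  linarith [k1.1, k1.2, k2.1, k2.2, k3.1, k3.2, k4.1, k4.2, k5.1, k5.2]

theorem p_le {Q : Seqs} {K : ℝ} (hG : Good Q K) (m : ℕ) {t : ℝ} (ht : 0 < t)
    (htK : t ≤ 1 / (10 * K)) : |Q.p m t| ≤ t * K * ((m : ℝ) + 1) ^ (-(7 / 3 : ℝ)) := by
  have ho := om_ge hG m ht htK
  unfold Seqs.p
  rw [abs_div, abs_mul, abs_of_pos ht, abs_of_pos (by linarith : (0 : ℝ) < Q.om m t)]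
  have hh := hG.h m
  have h0 : 0 ≤ t * |Q.h m| := by positivity
  calc t * |Q.h m| / Q.om m t ≤ t * |Q.h m| := div_le_self h0 ho
    _ ≤ t * (K * ((m : ℝ) + 1) ^ (-(7 / 3 : ℝ))) := mul_le_mul_of_nonneg_left hh ht.le
    _ = _ := by ring

theorem three_bounds {Q : Seqs} {K : ℝ} (hG : Good Q K) {ζ : ℕ → ℝ → ℝ} {K1 t1 : ℝ}
    (hZ : ZF Q ζ K1 t1) (m : ℕ) {t : ℝ} (ht : 0 < t) (ht1 : t ≤ t1)
    (htK : t ≤ 1 / (10 * K)) :
    |Q.e m t * Q.p m t| ≤ Real.exp K * K * (t * ((m : ℝ) + 1) ^ (-(7 / 3 : ℝ))) ∧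
    |(-1) ^ m * Q.p m t * (ζ m t + ζ (m + 1) t)| ≤
      2 * K1 * Real.exp K * K * (t * ((m : ℝ) + 1) ^ (-(7 / 3 : ℝ))) ∧
    |Q.p m t * ζ m t * ζ (m + 1) t / Q.e m t| ≤
      K1 * K1 * Real.exp K * K * (t * ((m : ℝ) + 1) ^ (-(7 / 3 : ℝ))) := by
  have hK := hG.K1
  have hK1 := hZ.K1
  have hE := e_le' hG m ht htK
  have hE' := e_le' hG (m + 1) ht htK
  have he := e_pos Q m t
  have he' := e_pos Q (m + 1) t
  have hp := p_le hG m ht htK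
  have z0 := hZ.bd m t ht ht1
  have z1 := hZ.bd (m + 1) t ht ht1
  have hr : 0 ≤ ((m : ℝ) + 1) ^ (-(7 / 3 : ℝ)) := by positivity
  set R := t * K * ((m : ℝ) + 1) ^ (-(7 / 3 : ℝ)) with hR
  have hR0 : 0 ≤ R := by rw [hR]; positivity
  have hp0 := abs_nonneg (Q.p m t)
  have hEp := Real.exp_pos K
  have z0' : |ζ m t| ≤ K1 * Real.exp K := z0.trans (mul_le_mul_of_nonneg_left hE (by linarith))
  have z1' : |ζ (m + 1) t| ≤ K1 * Real.exp K := z1.trans (mul_le_mul_of_nonneg_left hE' (by linarith))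
  refine ⟨?_, ?_, ?_⟩
  · rw [abs_mul, abs_of_pos he]
    calc Q.e m t * |Q.p m t| ≤ Real.exp K * R := mul_le_mul hE hp hp0 hEp.le
      _ = _ := by rw [hR]; ring
  · rw [abs_mul, abs_mul, abs_pow, abs_neg, abs_one, one_pow, one_mul]
    have : |ζ m t + ζ (m + 1) t| ≤ 2 * (K1 * Real.exp K) := (abs_add_le _ _).trans (by linarith)
    calc |Q.p m t| * |ζ m t + ζ (m + 1) t| ≤ R * (2 * (K1 * Real.exp K)) :=
          mul_le_mul hp this (abs_nonneg _) hR0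
      _ = _ := by rw [hR]; ring
  · rw [abs_div, abs_mul, abs_mul, abs_of_pos he, div_le_iff₀ he]
    calc |Q.p m t| * |ζ m t| * |ζ (m + 1) t| ≤ R * (K1 * Q.e m t) * (K1 * Real.exp K) := by
          apply mul_le_mul _ z1' (abs_nonneg _) (by positivity)
          exact mul_le_mul hp z0 (abs_nonneg _) hR0
      _ = _ := by rw [hR]; ring

theorem rem_bound {Q : Seqs} {K : ℝ} (hG : Good Q K) {ζ : ℕ → ℝ → ℝ} {K1 t1 : ℝ}
    (hZ : ZF Q ζ K1 t1) (m : ℕ) {t : ℝ} (ht : 0 < t) (ht1 : t ≤ t1)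
    (htK : t ≤ 1 / (10 * K)) :
    |ζ (m + 1) t - ζ m t - (Q.e m t * Q.p m t + (-1) ^ m * Q.p m t * (ζ m t + ζ (m + 1) t)
        + Q.p m t * ζ m t * ζ (m + 1) t / Q.e m t)| ≤
      K1 * Real.exp K * (t ^ 6 * ((m : ℝ) + 1) ^ (-(2 : ℝ))) := by
  have hK1 := hZ.K1
  refine (hZ.step m t ht ht1).trans ?_
  have hE := e_le' hG m ht htK
  have hr : 0 ≤ ((m : ℝ) + 1) ^ (-(2 : ℝ)) := by positivity
  have h6 : 0 < t ^ 6 := by positivity
  have : K1 * t ^ 6 * Q.e m t ≤ K1 * t ^ 6 * Real.exp K :=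
    mul_le_mul_of_nonneg_left hE (by positivity)
  calc K1 * t ^ 6 * Q.e m t * ((m : ℝ) + 1) ^ (-(2 : ℝ))
      ≤ K1 * t ^ 6 * Real.exp K * ((m : ℝ) + 1) ^ (-(2 : ℝ)) := mul_le_mul_of_nonneg_right this hr
    _ = _ := by ring

theorem pow_drop1 (m : ℕ) : ((m : ℝ) + 1) ^ (-(7 / 3 : ℝ)) ≤
    2 * (((m : ℝ) + 1) ^ (-(4 / 3 : ℝ)) - ((m : ℝ) + 1 + 1) ^ (-(4 / 3 : ℝ))) := by
  have hx : (1 : ℝ) ≤ (m : ℝ) + 1 := by have : (0 : ℝ) ≤ m := Nat.cast_nonneg m; linarith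
  set x : ℝ := (m : ℝ) + 1 with hxd
  have hx0 : 0 < x := by linarith
  have hy0 : 0 < x + 1 := by linarith
  have e1 : x ^ (-(4 / 3 : ℝ)) = x ^ (-(1 / 3 : ℝ)) * x⁻¹ := by
    rw [← Real.rpow_neg_one x, ← Real.rpow_add hx0]; norm_num
  have e2 : (x + 1) ^ (-(4 / 3 : ℝ)) = (x + 1) ^ (-(1 / 3 : ℝ)) * (x + 1)⁻¹ := by
    rw [← Real.rpow_neg_one (x + 1), ← Real.rpow_add hy0]; norm_num
  have e3 : x ^ (-(7 / 3 : ℝ)) = x ^ (-(1 / 3 : ℝ)) * (x⁻¹ * x⁻¹) := by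
    rw [← Real.rpow_neg_one x, ← Real.rpow_add hx0, ← Real.rpow_add hx0]; norm_num
  have e4 : (x + 1) ^ (-(1 / 3 : ℝ)) ≤ x ^ (-(1 / 3 : ℝ)) :=
    Real.rpow_le_rpow_of_nonpos hx0 (by linarith) (by norm_num)
  rw [e1, e2, e3]
  have h1 : 0 < x ^ (-(1 / 3 : ℝ)) := by positivity
  have h2 : 0 < (x + 1)⁻¹ := by positivity
  have h3 : (x + 1) ^ (-(1 / 3 : ℝ)) * (x + 1)⁻¹ ≤ x ^ (-(1 / 3 : ℝ)) * (x + 1)⁻¹ :=
    mul_le_mul_of_nonneg_right e4 h2.le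
  have h4 : x⁻¹ * x⁻¹ ≤ 2 * (x⁻¹ - (x + 1)⁻¹) := by
    have : x⁻¹ - (x + 1)⁻¹ = x⁻¹ * (x + 1)⁻¹ := by field_simp; ring
    rw [this]
    have h5 : x⁻¹ ≤ 2 * (x + 1)⁻¹ := by
      rw [inv_eq_one_div, inv_eq_one_div, ← mul_div_assoc, div_le_div_iff₀ hx0 hy0]
      linarith
    have h6 : 0 < x⁻¹ := by positivity
    nlinarith
  nlinarith

theorem pow_drop2 (m : ℕ) : ((m : ℝ) + 1) ^ (-(2 : ℝ)) ≤
    2 * (((m : ℝ) + 1)⁻¹ - ((m : ℝ) + 1 + 1)⁻¹) := by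
  have hx : (1 : ℝ) ≤ (m : ℝ) + 1 := by have : (0 : ℝ) ≤ m := Nat.cast_nonneg m; linarith
  set x : ℝ := (m : ℝ) + 1 with hxd
  have hx0 : 0 < x := by linarith
  have hy0 : 0 < x + 1 := by linarith
  have e3 : x ^ (-(2 : ℝ)) = x⁻¹ * x⁻¹ := by
    rw [← Real.rpow_neg_one x, ← Real.rpow_add hx0]; norm_num
  rw [e3]
  have : x⁻¹ - (x + 1)⁻¹ = x⁻¹ * (x + 1)⁻¹ := by field_simp; ring
  rw [this]
  have h5 : x⁻¹ ≤ 2 * (x + 1)⁻¹ := by
    rw [inv_eq_one_div, inv_eq_one_div, ← mul_div_assoc, div_le_div_iff₀ hx0 hy0]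
    linarith
  have h6 : 0 < x⁻¹ := by positivity
  nlinarith

theorem crude_bound (Q : Seqs) (K : ℝ) (hG : Good Q K) (ζ : ℕ → ℝ → ℝ) (K1 t1 : ℝ)
    (hZ : ZF Q ζ K1 t1) : ∃ K' t0 : ℝ, 1 ≤ K' ∧ 0 < t0 ∧ t0 ≤ t1 ∧ Crude ζ K' t0 := by
  have hK := hG.K1
  have hK0 : 0 < K := by linarith
  have hK1 := hZ.K1
  have hE1 : 1 ≤ Real.exp K := by
    have := Real.add_one_le_exp K; linarith
  set C : ℝ := Real.exp K * K + 2 * K1 * Real.exp K * K + K1 * K1 * Real.exp K * K + K1 * Real.exp K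
    with hC
  have hC1 : 1 ≤ C := by
    have a1 : 1 ≤ Real.exp K * K := by nlinarith
    have a2 : 0 ≤ 2 * K1 * Real.exp K * K := by positivity
    have a3 : 0 ≤ K1 * K1 * Real.exp K * K := by positivity
    have a4 : 0 ≤ K1 * Real.exp K := by positivity
    rw [hC]; linarith
  refine ⟨2 * C, min t1 (1 / (10 * K)), by linarith, lt_min hZ.t0pos (by positivity),
    min_le_left _ _, ?_⟩
  intro m t ht htt
  have ht1 : t ≤ t1 := htt.trans (min_le_left _ _)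
  have htK : t ≤ 1 / (10 * K) := htt.trans (min_le_right _ _)
  set Φ : ℕ → ℝ := fun m => C * (2 * (t * ((m : ℝ) + 1) ^ (-(4 / 3 : ℝ))) + 2 * (t ^ 6 * ((m : ℝ) + 1)⁻¹))
    with hΦ
  have h6 : 0 < t ^ 6 := by positivity
  have hstep : ∀ n : ℕ, |ζ n t| - Φ n ≤ |ζ (n + 1) t| - Φ (n + 1) := by
    intro n
    obtain ⟨b1, b2, b3⟩ := three_bounds hG hZ n ht ht1 htK
    have b4 := rem_bound hG hZ n ht ht1 htK
    have hr1 : 0 ≤ t * ((n : ℝ) + 1) ^ (-(7 / 3 : ℝ)) := by positivity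
    have hr2 : 0 ≤ t ^ 6 * ((n : ℝ) + 1) ^ (-(2 : ℝ)) := by positivity
    have hd : |ζ (n + 1) t - ζ n t| ≤ C * (t * ((n : ℝ) + 1) ^ (-(7 / 3 : ℝ)) +
        t ^ 6 * ((n : ℝ) + 1) ^ (-(2 : ℝ))) := by
      have e : ζ (n + 1) t - ζ n t = (ζ (n + 1) t - ζ n t - (Q.e n t * Q.p n t +
          (-1) ^ n * Q.p n t * (ζ n t + ζ (n + 1) t) + Q.p n t * ζ n t * ζ (n + 1) t / Q.e n t)) +
          (Q.e n t * Q.p n t + (-1) ^ n * Q.p n t * (ζ n t + ζ (n + 1) t) +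
          Q.p n t * ζ n t * ζ (n + 1) t / Q.e n t) := by ring
      rw [e]
      refine (abs_add_le _ _).trans ?_
      refine (add_le_add b4 ((abs_add_le _ _).trans (add_le_add ((abs_add_le _ _).trans
        (add_le_add b1 b2)) b3))).trans ?_
      have a1 : 0 ≤ Real.exp K * K := by positivity
      have a2 : 0 ≤ 2 * K1 * Real.exp K * K := by positivity
      have a3 : 0 ≤ K1 * K1 * Real.exp K * K := by positivity
      have a4 : 0 ≤ K1 * Real.exp K := by positivity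
      rw [hC]
      nlinarith [mul_nonneg a4 hr1, mul_nonneg a1 hr2, mul_nonneg a2 hr2, mul_nonneg a3 hr2]
    have hab : |ζ n t| ≤ |ζ (n + 1) t| + |ζ (n + 1) t - ζ n t| := by
      have := abs_sub_abs_le_abs_sub (ζ n t) (ζ (n + 1) t)
      rw [abs_sub_comm] at this
      linarith
    have d1 := pow_drop1 n
    have d2 := pow_drop2 n
    have hcast : (((n + 1 : ℕ) : ℝ) + 1) = (n : ℝ) + 1 + 1 := by push_cast; ring
    simp only [hΦ]
    rw [hcast]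
    have d1' := mul_le_mul_of_nonneg_left d1 ht.le
    have d2' := mul_le_mul_of_nonneg_left d2 h6.le
    have d3 := mul_le_mul_of_nonneg_left (add_le_add d1' d2') (by linarith : (0 : ℝ) ≤ C)
    have d4 : C * (t * (2 * (((n : ℝ) + 1) ^ (-(4 / 3 : ℝ)) - ((n : ℝ) + 1 + 1) ^ (-(4 / 3 : ℝ)))) +
        t ^ 6 * (2 * (((n : ℝ) + 1)⁻¹ - ((n : ℝ) + 1 + 1)⁻¹))) =
        C * (2 * (t * ((n : ℝ) + 1) ^ (-(4 / 3 : ℝ))) + 2 * (t ^ 6 * ((n : ℝ) + 1)⁻¹)) -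
        C * (2 * (t * ((n : ℝ) + 1 + 1) ^ (-(4 / 3 : ℝ))) + 2 * (t ^ 6 * ((n : ℝ) + 1 + 1)⁻¹)) := by
      ring
    rw [d4] at d3
    linarith
  have hmono : Monotone (fun n : ℕ => |ζ n t| - Φ n) := monotone_nat_of_le_succ hstep
  have h0 : Tendsto (fun m : ℕ => ((m : ℝ) + 1)) atTop atTop :=
    tendsto_atTop_add_const_right _ _ tendsto_natCast_atTop_atTop
  have hΦlim : Tendsto Φ atTop (𝓝 0) := by
    have l1 : Tendsto (fun m : ℕ => ((m : ℝ) + 1) ^ (-(4 / 3 : ℝ))) atTop (𝓝 0) :=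
      (tendsto_rpow_neg_atTop (by norm_num)).comp h0
    have l2 : Tendsto (fun m : ℕ => ((m : ℝ) + 1)⁻¹) atTop (𝓝 0) :=
      tendsto_inv_atTop_zero.comp h0
    have := (((l1.const_mul t).const_mul 2).add ((l2.const_mul (t ^ 6)).const_mul 2)).const_mul C
    simpa using this
  have hζlim : Tendsto (fun n : ℕ => |ζ n t|) atTop (𝓝 0) := by
    have h1 := (e_tendsto hG ht htK).const_mul K1
    rw [mul_zero] at h1
    exact squeeze_zero (fun _ => abs_nonneg _) (fun n => hZ.bd n t ht ht1) h1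
  have hlim : Tendsto (fun n : ℕ => |ζ n t| - Φ n) atTop (𝓝 0) := by
    simpa using hζlim.sub hΦlim
  have hle : |ζ m t| - Φ m ≤ 0 := hmono.ge_of_tendsto hlim m
  have hinv : ((m : ℝ) + 1)⁻¹ ≤ 1 := by
    apply inv_le_one_of_one_le₀
    have : (0 : ℝ) ≤ m := Nat.cast_nonneg m
    linarith
  have : Φ m ≤ 2 * C * (t * ((m : ℝ) + 1) ^ (-(4 / 3 : ℝ)) + t ^ 6) := by
    simp only [hΦ]
    have : t ^ 6 * ((m : ℝ) + 1)⁻¹ ≤ t ^ 6 := by nlinarith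
    nlinarith
  linarith

theorem zeta_sum (Q : Seqs) (K : ℝ) (hG : Good Q K) (ζ : ℕ → ℝ → ℝ) (K1 t1 : ℝ)
    (hZ : ZF Q ζ K1 t1) : ∃ K' t0 : ℝ, 0 < K' ∧ 0 < t0 ∧ t0 ≤ t1 ∧ ∀ t : ℝ, 0 < t → t ≤ t0 →
      Summable (fun m : ℕ => Q.e m t * Q.p m t) ∧
      Summable (fun m : ℕ => (-1) ^ m * Q.p m t * (ζ m t + ζ (m + 1) t)) ∧
      Summable (fun m : ℕ => Q.p m t * ζ m t * ζ (m + 1) t / Q.e m t) ∧
      |ζ 0 t + ∑' m : ℕ, Q.e m t * Q.p m t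
        + ∑' m : ℕ, (-1) ^ m * Q.p m t * (ζ m t + ζ (m + 1) t)
        + ∑' m : ℕ, Q.p m t * ζ m t * ζ (m + 1) t / Q.e m t| ≤ K' * t ^ 6 := by
  have hK := hG.K1
  have hK0 : 0 < K := by linarith
  have hK1 := hZ.K1
  have hs1 : Summable (fun m : ℕ => ((m : ℝ) + 1) ^ (-(7 / 3 : ℝ))) := by
    have := (summable_nat_add_iff 1).mpr (Real.summable_nat_rpow.mpr (by norm_num : -(7 / 3 : ℝ) < -1))
    simpa using this
  have hs2 : Summable (fun m : ℕ => ((m : ℝ) + 1) ^ (-(2 : ℝ))) := by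
    have := (summable_nat_add_iff 1).mpr (Real.summable_nat_rpow.mpr (by norm_num : -(2 : ℝ) < -1))
    simpa using this
  set S := ∑' m : ℕ, ((m : ℝ) + 1) ^ (-(2 : ℝ)) with hS
  have hS0 : 0 ≤ S := tsum_nonneg (fun m => by positivity)
  refine ⟨K1 * Real.exp K * S + 1, min t1 (1 / (10 * K)), by positivity,
    lt_min hZ.t0pos (by positivity), min_le_left _ _, ?_⟩
  intro t ht htt
  have ht1 : t ≤ t1 := htt.trans (min_le_left _ _)
  have htK : t ≤ 1 / (10 * K) := htt.trans (min_le_right _ _)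
  have h6 : 0 < t ^ 6 := by positivity
  have B := fun m => three_bounds hG hZ m ht ht1 htK
  have s1 : Summable (fun m : ℕ => Q.e m t * Q.p m t) :=
    Summable.of_norm_bounded ((hs1.mul_left t).mul_left (Real.exp K * K)) (fun m => (B m).1)
  have s2 : Summable (fun m : ℕ => (-1) ^ m * Q.p m t * (ζ m t + ζ (m + 1) t)) :=
    Summable.of_norm_bounded ((hs1.mul_left t).mul_left (2 * K1 * Real.exp K * K)) (fun m => (B m).2.1)
  have s3 : Summable (fun m : ℕ => Q.p m t * ζ m t * ζ (m + 1) t / Q.e m t) :=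
    Summable.of_norm_bounded ((hs1.mul_left t).mul_left (K1 * K1 * Real.exp K * K)) (fun m => (B m).2.2)
  refine ⟨s1, s2, s3, ?_⟩
  set r : ℕ → ℝ := fun m => ζ (m + 1) t - ζ m t - (Q.e m t * Q.p m t +
    (-1) ^ m * Q.p m t * (ζ m t + ζ (m + 1) t) + Q.p m t * ζ m t * ζ (m + 1) t / Q.e m t) with hr
  have hrb : ∀ m, |r m| ≤ K1 * Real.exp K * (t ^ 6 * ((m : ℝ) + 1) ^ (-(2 : ℝ))) :=
    fun m => rem_bound hG hZ m ht ht1 htK
  have hsr : Summable r :=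
    Summable.of_norm_bounded ((hs2.mul_left (t ^ 6)).mul_left (K1 * Real.exp K)) hrb
  have hζlim : Tendsto (fun n : ℕ => ζ n t) atTop (𝓝 0) := by
    have h1 := (e_tendsto hG ht htK).const_mul K1
    rw [mul_zero] at h1
    exact squeeze_zero_norm (fun n => hZ.bd n t ht ht1) h1
  have htel : ∀ M : ℕ, ∑ m ∈ Finset.range M, (Q.e m t * Q.p m t +
      (-1) ^ m * Q.p m t * (ζ m t + ζ (m + 1) t) + Q.p m t * ζ m t * ζ (m + 1) t / Q.e m t + r m) =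
      ζ M t - ζ 0 t := by
    intro M
    rw [← Finset.sum_range_sub (fun m => ζ m t) M]
    apply Finset.sum_congr rfl
    intro m _
    simp only [hr]
    ring
  have hsum := ((s1.add s2).add s3).add hsr
  have hlim1 := hsum.hasSum.tendsto_sum_nat
  simp only [htel] at hlim1
  have hlim2 : Tendsto (fun M : ℕ => ζ M t - ζ 0 t) atTop (𝓝 (0 - ζ 0 t)) :=
    hζlim.sub_const _
  have heq := tendsto_nhds_unique hlim1 hlim2
  rw [((s1.add s2).add s3).tsum_add hsr, (s1.add s2).tsum_add s3, s1.tsum_add s2] at heq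
  have hfin : ζ 0 t + ∑' m : ℕ, Q.e m t * Q.p m t
        + ∑' m : ℕ, (-1) ^ m * Q.p m t * (ζ m t + ζ (m + 1) t)
        + ∑' m : ℕ, Q.p m t * ζ m t * ζ (m + 1) t / Q.e m t = - ∑' m, r m := by linarith
  rw [hfin, abs_neg]
  have hn : |∑' m, r m| ≤ ∑' m, |r m| := by
    have := norm_tsum_le_tsum_norm (f := r) hsr.norm
    simpa using this
  refine hn.trans ?_
  have hle : ∑' m, |r m| ≤ ∑' m : ℕ, K1 * Real.exp K * (t ^ 6 * ((m : ℝ) + 1) ^ (-(2 : ℝ))) :=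
    Summable.tsum_le_tsum hrb hsr.norm ((hs2.mul_left (t ^ 6)).mul_left (K1 * Real.exp K))
  refine hle.trans ?_
  rw [tsum_mul_left, tsum_mul_left, ← hS]
  nlinarith

end Pool.Agent.FW
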