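import Pool.Agent.Helper155.FW.Defs

set_option autoImplicit false
open Filter Asymptotics Topology

namespace Pool.Agent.FW

/-- The analytic forward recursion is well defined and bounded on shrinking discs. -/
theorem forwardRec (K c : ℝ) (hK : 1 ≤ K) (hc : 0 < c) (hc1 : c ≤ 1) (E p : ℕ → ℂ → ℂ)
    (hE : ∀ j : ℕ, DifferentiableOn ℂ (E j) (Metric.ball 0 (c / ((j : ℝ) + 1) ^ (2 / 3 : ℝ))))
    (hE0 : ∀ j : ℕ, ∀ z ∈ Metric.ball (0 : ℂ) (c / ((j : ℝ) + 1) ^ (2 / 3 : ℝ)), E j z ≠ 0)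
    (hEb : ∀ j : ℕ, ∀ z ∈ Metric.ball (0 : ℂ) (c / ((j : ℝ) + 1) ^ (2 / 3 : ℝ)), ‖E j z‖ ≤ K)
    (hEi : ∀ j : ℕ, ∀ z ∈ Metric.ball (0 : ℂ) (c / ((j : ℝ) + 1) ^ (2 / 3 : ℝ)), ‖(E j z)⁻¹‖ ≤ K)
    (hp : ∀ j : ℕ, DifferentiableOn ℂ (p j) (Metric.ball 0 (c / ((j : ℝ) + 1) ^ (2 / 3 : ℝ))))
    (hpb : ∀ j : ℕ, ∀ z ∈ Metric.ball (0 : ℂ) (c / ((j : ℝ) + 1) ^ (2 / 3 : ℝ)),
      ‖p j z‖ ≤ K * ‖z‖ * ((j : ℝ) + 1) ^ (-(7 / 3 : ℝ)))
    (P : ℂ → ℂ) (hP : Differentiable ℂ P) (hPb : ∀ z : ℂ, ‖z‖ ≤ 1 → ‖P z‖ ≤ K * ‖z‖) :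
    ∃ (c' K' : ℝ) (y : ℕ → ℂ → ℂ), 0 < c' ∧ c' ≤ c ∧ 1 ≤ K' ∧ y 0 = P ∧
      (∀ m : ℕ, DifferentiableOn ℂ (y m) (Metric.ball 0 (c' / ((m : ℝ) + 1) ^ (2 / 3 : ℝ)))) ∧
      (∀ m : ℕ, ∀ z ∈ Metric.ball (0 : ℂ) (c' / ((m : ℝ) + 1) ^ (2 / 3 : ℝ)),
        ‖y m z‖ ≤ K' * ‖z‖) ∧
      (∀ m : ℕ, ∀ z ∈ Metric.ball (0 : ℂ) (c' / ((m : ℝ) + 2) ^ (2 / 3 : ℝ)),
        y (m + 1) z - y m z = E m z * p m z + (-1) ^ m * p m z * (y m z + y (m + 1) z)
          + p m z * y m z * y (m + 1) z / E m z) := by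

  classical
  have hsum : Summable (fun j : ℕ => ((j : ℝ) + 1) ^ (-(7 / 3 : ℝ))) := by
    have h1 : Summable (fun j : ℕ => (j : ℝ) ^ (-(7 / 3 : ℝ))) := by
      rw [Real.summable_nat_rpow]; norm_num
    have h2 := (summable_nat_add_iff 1).2 h1
    refine h2.congr ?_
    intro j
    push_cast
    rfl
  set S : ℝ := ∑' j : ℕ, ((j : ℝ) + 1) ^ (-(7 / 3 : ℝ)) with hS
  have hS0 : 0 ≤ S := tsum_nonneg (fun j => by positivity)
  set Sm : ℕ → ℝ := fun m => ∑ j ∈ Finset.range m, ((j : ℝ) + 1) ^ (-(7 / 3 : ℝ)) with hSm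
  have hSmS : ∀ m, Sm m ≤ S := fun m =>
    hsum.sum_le_tsum (Finset.range m) (fun j _ => by positivity)
  have hSm0 : ∀ m, 0 ≤ Sm m := fun m => Finset.sum_nonneg (fun j _ => by positivity)
  set B : ℝ := K * (2 * K + 2) with hB
  have hB0 : 0 ≤ B := by positivity
  set K' : ℝ := K + B * S + 1 with hK'
  have hBS : 0 ≤ B * S := mul_nonneg hB0 hS0
  have hK'1 : 1 ≤ K' := by rw [hK']; linarith
  set Q : ℝ := K' + K * (1 + K) + 1 with hQ
  have hKK : 0 ≤ K * (1 + K) := by positivity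
  have hQ1 : 1 ≤ Q := by rw [hQ]; linarith
  have hQ0 : 0 < Q := by linarith
  set c' : ℝ := c / (4 * Q) with hc'
  have hc'0 : 0 < c' := by rw [hc']; positivity
  have hc'Q : c' * Q ≤ 1 / 4 := by
    rw [hc', div_mul_eq_mul_div, div_le_iff₀ (by positivity)]
    nlinarith
  have hc'c : c' ≤ c := by
    rw [hc', div_le_iff₀ (by positivity)]
    nlinarith
  have hc'4 : c' ≤ 1 / 4 := by nlinarith
  let y : ℕ → ℂ → ℂ := fun m => Nat.rec P (fun m ym => fun z =>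
    (ym z + E m z * p m z + (-1) ^ m * p m z * ym z) /
      (1 - (-1) ^ m * p m z - p m z * ym z / E m z)) m
  have hy0 : y 0 = P := rfl
  have hys : ∀ m z, y (m + 1) z = (y m z + E m z * p m z + (-1) ^ m * p m z * y m z) /
      (1 - (-1) ^ m * p m z - p m z * y m z / E m z) := fun m z => rfl
  -- radii
  have hrad : ∀ m : ℕ, c' / ((m : ℝ) + 1) ^ (2 / 3 : ℝ) ≤ c' := by
    intro m
    apply div_le_self hc'0.le
    apply Real.one_le_rpow
    · have : (0:ℝ) ≤ m := Nat.cast_nonneg m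
      linarith
    · norm_num
  have hradc : ∀ m : ℕ, c' / ((m : ℝ) + 1) ^ (2 / 3 : ℝ) ≤ c / ((m : ℝ) + 1) ^ (2 / 3 : ℝ) := by
    intro m
    exact div_le_div_of_nonneg_right hc'c (by positivity)
  have hradm : ∀ m : ℕ, c' / (((m + 1 : ℕ) : ℝ) + 1) ^ (2 / 3 : ℝ) ≤
      c' / ((m : ℝ) + 1) ^ (2 / 3 : ℝ) := by
    intro m
    apply div_le_div_of_nonneg_left hc'0.le (by positivity)
    apply Real.rpow_le_rpow (by positivity) _ (by norm_num)
    push_cast; linarith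
  have hpow1 : ∀ m : ℕ, ((m : ℝ) + 1) ^ (-(7 / 3 : ℝ)) ≤ 1 := by
    intro m
    apply Real.rpow_le_one_of_one_le_of_nonpos
    · have : (0:ℝ) ≤ m := Nat.cast_nonneg m
      linarith
    · norm_num
  -- one step
  have hstep : ∀ m : ℕ, ∀ z : ℂ, z ∈ Metric.ball (0 : ℂ) (c' / ((m : ℝ) + 1) ^ (2 / 3 : ℝ)) →
      ‖y m z‖ ≤ (K + B * Sm m) * ‖z‖ →
      (1 - (-1) ^ m * p m z - p m z * y m z / E m z ≠ 0) ∧
      (y (m + 1) z - y m z = E m z * p m z + (-1) ^ m * p m z * (y m z + y (m + 1) z)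
          + p m z * y m z * y (m + 1) z / E m z) ∧
      ‖y (m + 1) z‖ ≤ (K + B * Sm (m + 1)) * ‖z‖ := by
    intro m z hz hyb
    have hzc : z ∈ Metric.ball (0 : ℂ) (c / ((m : ℝ) + 1) ^ (2 / 3 : ℝ)) :=
      Metric.ball_subset_ball (hradc m) hz
    have hzn : ‖z‖ < c' := by
      have : ‖z‖ < c' / ((m : ℝ) + 1) ^ (2 / 3 : ℝ) := by simpa using hz
      exact lt_of_lt_of_le this (hrad m)
    have hz0 : 0 ≤ ‖z‖ := norm_nonneg z
    have hE0' := hE0 m z hzc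
    have hEb' := hEb m z hzc
    have hEi' := hEi m z hzc
    have hpb' := hpb m z hzc
    have hp1 : ‖p m z‖ ≤ K * ‖z‖ := by
      refine hpb'.trans ?_
      have := mul_le_mul_of_nonneg_left (hpow1 m) (by positivity : 0 ≤ K * ‖z‖)
      linarith
    have hyK' : ‖y m z‖ ≤ K' * ‖z‖ := by
      refine hyb.trans ?_
      apply mul_le_mul_of_nonneg_right _ hz0
      have := mul_le_mul_of_nonneg_left (hSmS m) hB0
      rw [hK']; linarith
    have hQz : Q * ‖z‖ ≤ 1 / 4 := by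
      have := mul_le_mul_of_nonneg_left hzn.le hQ0.le
      linarith [mul_comm Q c']
    have hK'z : K' * ‖z‖ + K * (1 + K) * ‖z‖ + ‖z‖ ≤ 1 / 4 := by
      rw [hQ] at hQz; linarith
    have hKKz : 0 ≤ K * (1 + K) * ‖z‖ := by positivity
    have hK'z0 : 0 ≤ K' * ‖z‖ := by positivity
    have hy1 : ‖y m z‖ ≤ 1 := by linarith
    have hsgn : ∀ w : ℂ, ‖(-1) ^ m * w‖ = ‖w‖ := by
      intro w; rw [norm_mul, norm_pow, norm_neg, norm_one, one_pow, one_mul]
    have hK0 : 0 ≤ K := by linarith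
    have hpy : ‖p m z * y m z / E m z‖ ≤ ‖p m z‖ * K := by
      rw [div_eq_mul_inv, norm_mul, norm_mul]
      calc ‖p m z‖ * ‖y m z‖ * ‖(E m z)⁻¹‖ ≤ ‖p m z‖ * 1 * K := by
            apply mul_le_mul _ hEi' (norm_nonneg _) (by positivity)
            exact mul_le_mul_of_nonneg_left hy1 (norm_nonneg _)
        _ = _ := by ring
    have hpK : ‖p m z‖ * K ≤ K * K * ‖z‖ := by
      calc ‖p m z‖ * K ≤ K * ‖z‖ * K := mul_le_mul_of_nonneg_right hp1 hK0
        _ = _ := by ring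
    -- denominator
    have hD : 3 / 4 ≤ ‖1 - (-1) ^ m * p m z - p m z * y m z / E m z‖ := by
      have h1 : ‖(1:ℂ)‖ ≤ ‖1 - (-1) ^ m * p m z - p m z * y m z / E m z‖ +
          ‖(-1) ^ m * p m z + p m z * y m z / E m z‖ := by
        have := norm_add_le (1 - (-1) ^ m * p m z - p m z * y m z / E m z)
          ((-1) ^ m * p m z + p m z * y m z / E m z)
        refine le_trans (le_of_eq ?_) this
        congr 1; ring
      have h2 : ‖(-1) ^ m * p m z + p m z * y m z / E m z‖ ≤ 1 / 4 := by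
        refine (norm_add_le _ _).trans ?_
        rw [hsgn]
        have : K * ‖z‖ + K * K * ‖z‖ = K * (1 + K) * ‖z‖ := by ring
        linarith
      rw [norm_one] at h1
      linarith
    have hDne : 1 - (-1) ^ m * p m z - p m z * y m z / E m z ≠ 0 := by
      intro h0; rw [h0, norm_zero] at hD; linarith
    have hid : y (m + 1) z * (1 - (-1) ^ m * p m z - p m z * y m z / E m z) =
        y m z + E m z * p m z + (-1) ^ m * p m z * y m z := by
      rw [hys, div_mul_cancel₀ _ hDne]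
    have hrec : y (m + 1) z - y m z = E m z * p m z + (-1) ^ m * p m z * (y m z + y (m + 1) z)
          + p m z * y m z * y (m + 1) z / E m z := by
      have h3 : p m z * y m z * y (m + 1) z / E m z = y (m + 1) z * (p m z * y m z / E m z) := by
        ring
      rw [h3]
      linear_combination hid
    have hnum : ‖y m z + E m z * p m z + (-1) ^ m * p m z * y m z‖ ≤ 1 / 4 := by
      refine (norm_add_le _ _).trans ?_
      have h4 := norm_add_le (y m z) (E m z * p m z)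
      have h5 : ‖E m z * p m z‖ ≤ K * K * ‖z‖ := by
        rw [norm_mul]
        calc ‖E m z‖ * ‖p m z‖ ≤ K * (K * ‖z‖) := mul_le_mul hEb' hp1 (norm_nonneg _) hK0
          _ = _ := by ring
      have h6 : ‖(-1) ^ m * p m z * y m z‖ ≤ K * ‖z‖ := by
        rw [norm_mul, hsgn]
        calc ‖p m z‖ * ‖y m z‖ ≤ K * ‖z‖ * 1 := mul_le_mul hp1 hy1 (norm_nonneg _) (by positivity)
          _ = _ := by ring
      have : K * ‖z‖ + K * K * ‖z‖ = K * (1 + K) * ‖z‖ := by ring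
      linarith
    have hy'1 : ‖y (m + 1) z‖ ≤ 1 := by
      rw [hys, norm_div, div_le_one (by linarith)]
      linarith
    refine ⟨hDne, hrec, ?_⟩
    have hdiff : ‖y (m + 1) z - y m z‖ ≤ ‖p m z‖ * (2 * K + 2) := by
      rw [hrec]
      refine (norm_add_le _ _).trans ?_
      have h4 := norm_add_le (E m z * p m z) ((-1) ^ m * p m z * (y m z + y (m + 1) z))
      have h5 : ‖E m z * p m z‖ ≤ ‖p m z‖ * K := by
        rw [norm_mul, mul_comm]
        exact mul_le_mul_of_nonneg_left hEb' (norm_nonneg _)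
      have h6 : ‖(-1) ^ m * p m z * (y m z + y (m + 1) z)‖ ≤ ‖p m z‖ * 2 := by
        rw [norm_mul, hsgn]
        apply mul_le_mul_of_nonneg_left _ (norm_nonneg _)
        refine (norm_add_le _ _).trans ?_
        linarith
      have h7 : ‖p m z * y m z * y (m + 1) z / E m z‖ ≤ ‖p m z‖ * K := by
        have h8 : p m z * y m z * y (m + 1) z / E m z =
            (p m z * y m z / E m z) * y (m + 1) z := by ring
        rw [h8, norm_mul]
        calc ‖p m z * y m z / E m z‖ * ‖y (m + 1) z‖ ≤ (‖p m z‖ * K) * 1 :=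
              mul_le_mul hpy hy'1 (norm_nonneg _) (by positivity)
          _ = _ := by ring
      have h9 : ‖p m z‖ * (2 * K + 2) = ‖p m z‖ * K + ‖p m z‖ * 2 + ‖p m z‖ * K := by ring
      rw [h9]
      linarith
    have hdiff2 : ‖p m z‖ * (2 * K + 2) ≤ B * ((m : ℝ) + 1) ^ (-(7 / 3 : ℝ)) * ‖z‖ := by
      calc ‖p m z‖ * (2 * K + 2) ≤ (K * ‖z‖ * ((m : ℝ) + 1) ^ (-(7 / 3 : ℝ))) * (2 * K + 2) :=
            mul_le_mul_of_nonneg_right hpb' (by positivity)
        _ = _ := by rw [hB]; ring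
    have h10 : Sm (m + 1) = Sm m + ((m : ℝ) + 1) ^ (-(7 / 3 : ℝ)) := by
      rw [hSm]; simp only [Finset.sum_range_succ]
    rw [h10]
    have h11 : y (m + 1) z = y m z + (y (m + 1) z - y m z) := by ring
    have h12 : ‖y (m + 1) z‖ ≤ ‖y m z‖ + ‖y (m + 1) z - y m z‖ := by
      conv_lhs => rw [h11]
      exact norm_add_le _ _
    have h13 : (K + B * (Sm m + ((m : ℝ) + 1) ^ (-(7 / 3 : ℝ)))) * ‖z‖ =
      (K + B * Sm m) * ‖z‖ + B * ((m : ℝ) + 1) ^ (-(7 / 3 : ℝ)) * ‖z‖ := by ring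
    rw [h13]
    linarith
  -- main induction
  have hmain : ∀ m : ℕ, DifferentiableOn ℂ (y m) (Metric.ball 0 (c' / ((m : ℝ) + 1) ^ (2 / 3 : ℝ))) ∧
      ∀ z ∈ Metric.ball (0 : ℂ) (c' / ((m : ℝ) + 1) ^ (2 / 3 : ℝ)),
        ‖y m z‖ ≤ (K + B * Sm m) * ‖z‖ := by
    intro m
    induction m with
    | zero =>
      refine ⟨hP.differentiableOn, ?_⟩
      intro z hz
      have hzn : ‖z‖ < c' / (((0:ℕ) : ℝ) + 1) ^ (2 / 3 : ℝ) := by simpa using hz
      have hz1 : ‖z‖ ≤ 1 := by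
        have := hrad 0
        linarith
      have h1 := hPb z hz1
      have h2 : Sm 0 = 0 := by rw [hSm]; simp
      rw [h2, mul_zero, add_zero, hy0]
      exact h1
    | succ m ih =>
      obtain ⟨ihd, ihb⟩ := ih
      have hsub : Metric.ball (0:ℂ) (c' / (((m + 1 : ℕ) : ℝ) + 1) ^ (2 / 3 : ℝ)) ⊆
          Metric.ball 0 (c' / ((m : ℝ) + 1) ^ (2 / 3 : ℝ)) := Metric.ball_subset_ball (hradm m)
      have hsubc : Metric.ball (0:ℂ) (c' / (((m + 1 : ℕ) : ℝ) + 1) ^ (2 / 3 : ℝ)) ⊆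
          Metric.ball 0 (c / ((m : ℝ) + 1) ^ (2 / 3 : ℝ)) :=
        hsub.trans (Metric.ball_subset_ball (hradc m))
      constructor
      · have hyd := ihd.mono hsub
        have hEd := (hE m).mono hsubc
        have hpd := (hp m).mono hsubc
        have hnumd : DifferentiableOn ℂ (fun z => y m z + E m z * p m z + (-1) ^ m * p m z * y m z)
            (Metric.ball (0:ℂ) (c' / (((m + 1 : ℕ) : ℝ) + 1) ^ (2 / 3 : ℝ))) :=
          (hyd.add (hEd.mul hpd)).add ((hpd.const_mul _).mul hyd)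
        have hdend : DifferentiableOn ℂ (fun z => 1 - (-1) ^ m * p m z - p m z * y m z / E m z)
            (Metric.ball (0:ℂ) (c' / (((m + 1 : ℕ) : ℝ) + 1) ^ (2 / 3 : ℝ))) := by
          apply DifferentiableOn.sub
          · exact (differentiableOn_const _).sub (hpd.const_mul _)
          · exact (hpd.mul hyd).div hEd (fun z hz => hE0 m z (hsubc hz))
        have := hnumd.div hdend (fun z hz => (hstep m z (hsub hz) (ihb z (hsub hz))).1)
        exact this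
      · intro z hz
        exact (hstep m z (hsub hz) (ihb z (hsub hz))).2.2
  refine ⟨c', K', y, hc'0, hc'c, hK'1, hy0, fun m => (hmain m).1, ?_, ?_⟩
  · intro m z hz
    refine ((hmain m).2 z hz).trans ?_
    apply mul_le_mul_of_nonneg_right _ (norm_nonneg z)
    have := mul_le_mul_of_nonneg_left (hSmS m) hB0
    rw [hK']; linarith
  · intro m z hz
    have hz' : z ∈ Metric.ball (0 : ℂ) (c' / ((m : ℝ) + 1) ^ (2 / 3 : ℝ)) := by
      apply Metric.ball_subset_ball (hradm m)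
      have : (((m + 1 : ℕ) : ℝ) + 1) = (m : ℝ) + 2 := by push_cast; ring
      rw [this]; exact hz
    exact (hstep m z hz' ((hmain m).2 z hz')).2.1

end Pool.Agent.FW
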