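import Pool.Agent.Helper155.FW.Defs

set_option autoImplicit false
open Filter Asymptotics Topology

namespace Pool.Agent.FW

/-- Taylor remainder from a sup bound (Cauchy estimates). -/
theorem cauchyTaylor (R M : ℝ) (hR : 0 < R) (hM : 0 ≤ M) (f : ℂ → ℂ)
    (hf : DifferentiableOn ℂ f (Metric.ball 0 R)) (hb : ∀ z ∈ Metric.ball (0 : ℂ) R, ‖f z‖ ≤ M) :
    ∃ a : ℕ → ℂ, (∀ i, ‖a i‖ ≤ M / R ^ i) ∧ ∀ (k : ℕ) (z : ℂ), ‖z‖ ≤ R / 2 →
      ‖f z - ∑ i ∈ Finset.range k, a i * z ^ i‖ ≤ 2 * M * (‖z‖ / R) ^ k := by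
  have hbound : ∀ i : ℕ, ‖((i.factorial : ℂ))⁻¹ * iteratedDeriv i f 0‖ ≤ M / R ^ i := by
    intro i
    rw [le_div_iff₀ (by positivity)]
    have hkey : ∀ r ∈ Set.Ioo 0 R, ‖((i.factorial : ℂ))⁻¹ * iteratedDeriv i f 0‖ * r ^ i ≤ M := by
      intro r hr
      have hsub : Metric.closedBall (0 : ℂ) r ⊆ Metric.ball 0 R := Metric.closedBall_subset_ball hr.2
      have hd : DiffContOnCl ℂ f (Metric.ball 0 r) := by
        apply DifferentiableOn.diffContOnCl
        rw [closure_ball _ hr.1.ne']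
        exact hf.mono hsub
      have h1 := Complex.norm_iteratedDeriv_le_of_forall_mem_sphere_norm_le i hr.1 hd
        (fun z hz => hb z (hsub (Metric.sphere_subset_closedBall hz)))
      have hfac : (0:ℝ) < i.factorial := by exact_mod_cast Nat.factorial_pos i
      have hri : 0 < r ^ i := pow_pos hr.1 i
      rw [norm_mul, norm_inv, Complex.norm_natCast]
      rw [le_div_iff₀ hri] at h1
      calc (i.factorial : ℝ)⁻¹ * ‖iteratedDeriv i f 0‖ * r ^ i =
          (i.factorial : ℝ)⁻¹ * (‖iteratedDeriv i f 0‖ * r ^ i) := by ring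
        _ ≤ (i.factorial : ℝ)⁻¹ * (i.factorial * M) :=
            mul_le_mul_of_nonneg_left h1 (by positivity)
        _ = M := by field_simp
    have hcl : R ∈ closure (Set.Ioo 0 R) := by
      rw [closure_Ioo hR.ne]
      exact ⟨hR.le, le_rfl⟩
    exact ContinuousWithinAt.closure_le hcl
      (f := fun r : ℝ => ‖((i.factorial : ℂ))⁻¹ * iteratedDeriv i f 0‖ * r ^ i)
      (by fun_prop) continuousWithinAt_const hkey
  refine ⟨fun i => ((i.factorial : ℂ))⁻¹ * iteratedDeriv i f 0, hbound, ?_⟩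
  intro k z hz
  have hzR : z ∈ Metric.ball (0 : ℂ) R := by
    rw [mem_ball_zero_iff]
    linarith
  have hsum := Complex.hasSum_taylorSeries_on_ball hf hzR
  have hsum2 : HasSum (fun n : ℕ => ((n.factorial : ℂ))⁻¹ * iteratedDeriv n f 0 * z ^ n) (f z) := by
    refine hsum.congr_fun ?_
    intro n
    simp only [smul_eq_mul, sub_zero]
    ring
  have hsum3 := (hasSum_nat_add_iff' k).2 hsum2
  set ρ := ‖z‖ / R with hρ
  have hρ0 : 0 ≤ ρ := by positivity
  have hρ1 : ρ ≤ 1 / 2 := by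
    rw [hρ, div_le_iff₀ hR]
    linarith
  have hgeo := (hasSum_geometric_of_lt_one hρ0 (by linarith)).mul_left (M * ρ ^ k)
  have hle := hsum3.norm_le_of_bounded hgeo (fun i => by
    rw [norm_mul, norm_pow]
    have h1 := hbound (i + k)
    calc ‖(((i + k).factorial : ℂ))⁻¹ * iteratedDeriv (i + k) f 0‖ * ‖z‖ ^ (i + k)
        ≤ M / R ^ (i + k) * ‖z‖ ^ (i + k) := mul_le_mul_of_nonneg_right h1 (by positivity)
      _ = M * ρ ^ k * ρ ^ i := by
          rw [hρ, div_pow, div_pow, pow_add, pow_add]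
          field_simp)
  refine hle.trans ?_
  have h2 : (1 - ρ)⁻¹ ≤ 2 := by
    rw [inv_le_comm₀ (by linarith) (by norm_num)]
    linarith
  calc M * ρ ^ k * (1 - ρ)⁻¹ ≤ M * ρ ^ k * 2 := mul_le_mul_of_nonneg_left h2 (by positivity)
    _ = 2 * M * ρ ^ k := by ring

end Pool.Agent.FW
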