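import Pool.Agent.Helper155.FW.Defs
import Pool.Agent.Helper155.FW.FA1

set_option autoImplicit false
open Filter Asymptotics Topology

namespace Pool.Agent.FW

/-! ## AVAILABLE (proved by others; use freely) -/


/-! ## TARGETS (prove these) -/

theorem wq (x : ℝ) (hx : 0 < x) (k : ℕ) :
    x ^ (-(7 / 3 : ℝ)) * (x ^ (2 / 3 : ℝ)) ^ k = x ^ ((2 / 3 : ℝ) * k - 7 / 3) := by
  rw [← Real.rpow_natCast, ← Real.rpow_mul hx.le, ← Real.rpow_add hx]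
  congr 1; ring

theorem incTaylor (K c : ℝ) (hK : 1 ≤ K) (hc : 0 < c) (hc1 : c ≤ 1) (G : ℕ → ℂ → ℂ)
    (hG : ∀ j : ℕ, DifferentiableOn ℂ (G j) (Metric.ball 0 (c / ((j : ℝ) + 2) ^ (2 / 3 : ℝ))))
    (hGb : ∀ j : ℕ, ∀ z ∈ Metric.ball (0 : ℂ) (c / ((j : ℝ) + 2) ^ (2 / 3 : ℝ)),
      ‖G j z‖ ≤ K * ‖z‖ * ((j : ℝ) + 1) ^ (-(7 / 3 : ℝ))) (j : ℕ) :
    ∃ g1 g2 g3 g4 : ℂ, ‖g1‖ ≤ 2 * K * (2 / c) ^ 4 * ((j : ℝ) + 1) ^ (-(5 / 3) : ℝ) ∧
      ‖g2‖ ≤ 2 * K * (2 / c) ^ 4 * ((j : ℝ) + 1) ^ (-(5 / 3) : ℝ) ∧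
      ‖g3‖ ≤ 2 * K * (2 / c) ^ 4 * ((j : ℝ) + 1)⁻¹ ∧
      ‖g4‖ ≤ 2 * K * (2 / c) ^ 4 * ((j : ℝ) + 1) ^ (-(1 / 3) : ℝ) ∧
      ∀ z : ℂ, ‖z‖ ≤ (c / ((j : ℝ) + 2) ^ (2 / 3 : ℝ)) / 2 →
        ‖G j z - (g1 * z + g2 * z ^ 2 + g3 * z ^ 3 + g4 * z ^ 4)‖ ≤
          2 * K * (2 / c) ^ 4 * ((j : ℝ) + 1) ^ (1 / 3 : ℝ) * ‖z‖ ^ 5 := by
  set R := c / ((j : ℝ) + 2) ^ (2 / 3 : ℝ) with hR
  set x := (j : ℝ) + 1 with hx
  have hx1 : 1 ≤ x := by rw [hx]; have : (0 : ℝ) ≤ j := Nat.cast_nonneg j; linarith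
  have hx0 : 0 < x := by linarith
  set q := x ^ (2 / 3 : ℝ) with hq
  set w := x ^ (-(7 / 3 : ℝ)) with hw
  have hq0 : 0 < q := Real.rpow_pos_of_pos hx0 _
  have hw0 : 0 < w := Real.rpow_pos_of_pos hx0 _
  have hR0 : 0 < R := by positivity
  have hRi : R⁻¹ ≤ 2 / c * q := by
    rw [hR, inv_div, div_mul_eq_mul_div]
    refine div_le_div_of_nonneg_right ?_ hc.le
    have e1 : ((j : ℝ) + 2) ≤ 2 * x := by rw [hx]; have : (0 : ℝ) ≤ j := Nat.cast_nonneg j; linarith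
    calc ((j : ℝ) + 2) ^ (2 / 3 : ℝ) ≤ (2 * x) ^ (2 / 3 : ℝ) :=
          Real.rpow_le_rpow (by positivity) e1 (by norm_num)
      _ = 2 ^ (2 / 3 : ℝ) * q := Real.mul_rpow (by norm_num) hx0.le
      _ ≤ 2 * q := by
          refine mul_le_mul_of_nonneg_right ?_ hq0.le
          calc (2 : ℝ) ^ (2 / 3 : ℝ) ≤ 2 ^ (1 : ℝ) := Real.rpow_le_rpow_of_exponent_le (by norm_num) (by norm_num)
            _ = 2 := Real.rpow_one 2
  have hM : 0 ≤ K * R * w := by positivity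
  obtain ⟨a, ha, hrem⟩ := cauchyTaylor R (K * R * w) hR0 hM (G j) (hG j) (by
    intro z hz
    refine (hGb j z hz).trans ?_
    rw [mem_ball_zero_iff] at hz
    exact mul_le_mul_of_nonneg_right (mul_le_mul_of_nonneg_left hz.le (by linarith)) hw0.le)
  have hG0 : G j 0 = 0 := by
    have := hGb j 0 (by simpa using hR0)
    simpa using this
  have ha0 : a 0 = 0 := by
    have := hrem 1 0 (by simp; positivity)
    simp [hG0] at this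
    exact this
  -- general coefficient bound
  have h2c : 1 ≤ 2 / c := by rw [le_div_iff₀ hc]; linarith
  have hB : ∀ k : ℕ, k ≤ 4 → K * (2 / c) ^ k ≤ 2 * K * (2 / c) ^ 4 := by
    intro k hk
    have e1 : (2 / c) ^ k ≤ (2 / c) ^ 4 := pow_le_pow_right₀ h2c hk
    have e2 : 0 < (2 / c) ^ 4 := by positivity
    nlinarith
  have hcoef : ∀ k : ℕ, k ≤ 3 → ‖a (k + 1)‖ ≤ 2 * K * (2 / c) ^ 4 * (w * q ^ k) := by
    intro k hk
    refine (ha (k + 1)).trans ?_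
    have e1 : K * R * w / R ^ (k + 1) = K * w * (R⁻¹) ^ k := by
      rw [pow_succ, inv_pow]
      field_simp
    rw [e1]
    have e2 : (R⁻¹) ^ k ≤ (2 / c * q) ^ k := pow_le_pow_left₀ (by positivity) hRi k
    calc K * w * (R⁻¹) ^ k ≤ K * w * (2 / c * q) ^ k := mul_le_mul_of_nonneg_left e2 (by positivity)
      _ = (K * (2 / c) ^ k) * (w * q ^ k) := by rw [mul_pow]; ring
      _ ≤ _ := mul_le_mul_of_nonneg_right (hB k (by omega)) (by positivity)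
  have c1 := hcoef 0 (by norm_num)
  have c2 := hcoef 1 (by norm_num)
  have c3 := hcoef 2 (by norm_num)
  have c4 := hcoef 3 (by norm_num)
  have BB : 0 ≤ 2 * K * (2 / c) ^ 4 := by positivity
  refine ⟨a 1, a 2, a 3, a 4, ?_, ?_, ?_, ?_, ?_⟩
  · refine c1.trans (mul_le_mul_of_nonneg_left ?_ BB)
    rw [hw, hq, wq x hx0]
    exact Real.rpow_le_rpow_of_exponent_le hx1 (by norm_num)
  · refine c2.trans (mul_le_mul_of_nonneg_left (le_of_eq ?_) BB)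
    rw [hw, hq, wq x hx0]
    congr 1; norm_num
  · refine c3.trans (mul_le_mul_of_nonneg_left (le_of_eq ?_) BB)
    rw [hw, hq, wq x hx0, ← Real.rpow_neg_one]
    congr 1; norm_num
  · refine c4.trans (mul_le_mul_of_nonneg_left (le_of_eq ?_) BB)
    rw [hw, hq, wq x hx0]
    congr 1; norm_num
  · intro z hz
    have h5 := hrem 5 z hz
    have e1 : ∑ i ∈ Finset.range 5, a i * z ^ i = a 1 * z + a 2 * z ^ 2 + a 3 * z ^ 3 + a 4 * z ^ 4 := by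
      simp only [Finset.sum_range_succ, Finset.sum_range_zero, ha0]
      ring
    rw [e1] at h5
    refine h5.trans ?_
    have e2 : 2 * (K * R * w) * (‖z‖ / R) ^ 5 = 2 * K * w * (R⁻¹) ^ 4 * ‖z‖ ^ 5 := by
      rw [div_pow, inv_pow]
      field_simp
    rw [e2]
    have e3 : (R⁻¹) ^ 4 ≤ (2 / c * q) ^ 4 := pow_le_pow_left₀ (by positivity) hRi 4
    have e4 : w * q ^ 4 = x ^ (1 / 3 : ℝ) := by
      rw [hw, hq, wq x hx0]; congr 1; norm_num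
    calc 2 * K * w * (R⁻¹) ^ 4 * ‖z‖ ^ 5 ≤ 2 * K * w * (2 / c * q) ^ 4 * ‖z‖ ^ 5 :=
          mul_le_mul_of_nonneg_right (mul_le_mul_of_nonneg_left e3 (by positivity)) (by positivity)
      _ = 2 * K * (2 / c) ^ 4 * (w * q ^ 4) * ‖z‖ ^ 5 := by rw [mul_pow]; ring
      _ = _ := by rw [e4]

theorem sum_third (m : ℕ) : ∑ j ∈ Finset.range m, ((j : ℝ) + 1) ^ (-(1 / 3) : ℝ) ≤ 2 * (m : ℝ) ^ (2 / 3 : ℝ) := by
  induction m with
  | zero => simp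
  | succ m ih =>
    rw [Finset.sum_range_succ]
    have hm : (0 : ℝ) ≤ m := Nat.cast_nonneg m
    set s := ((m : ℝ) + 1) ^ (1 / 3 : ℝ) with hs
    set r := (m : ℝ) ^ (1 / 3 : ℝ) with hr
    have hs0 : 0 < s := Real.rpow_pos_of_pos (by positivity) _
    have hr0 : 0 ≤ r := Real.rpow_nonneg hm _
    have hrs : r ≤ s := Real.rpow_le_rpow hm (by linarith) (by norm_num)
    have hs3 : s ^ 3 = (m : ℝ) + 1 := by
      rw [hs, ← Real.rpow_natCast, ← Real.rpow_mul (by positivity)]; norm_num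
    have hr3 : r ^ 3 = (m : ℝ) := by
      rw [hr, ← Real.rpow_natCast, ← Real.rpow_mul hm]; norm_num
    have e1 : ((m : ℝ) + 1) ^ (-(1 / 3) : ℝ) = s⁻¹ := by
      rw [hs, ← Real.rpow_neg (by positivity)]
    have e2 : (m : ℝ) ^ (2 / 3 : ℝ) = r ^ 2 := by
      rw [hr, ← Real.rpow_natCast, ← Real.rpow_mul hm]; norm_num
    have e3 : ((m + 1 : ℕ) : ℝ) ^ (2 / 3 : ℝ) = s ^ 2 := by
      rw [hs, ← Real.rpow_natCast, ← Real.rpow_mul (by positivity)]; push_cast; norm_num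
    rw [e1, e3]
    rw [e2] at ih
    have key : s⁻¹ ≤ 2 * (s ^ 2 - r ^ 2) := by
      rw [inv_le_iff_one_le_mul₀ hs0]
      have h1 : s ^ 3 - r ^ 3 = 1 := by rw [hs3, hr3]; ring
      nlinarith [mul_nonneg hs0.le (sub_nonneg.2 hrs), mul_nonneg hr0 (sub_nonneg.2 hrs),
        mul_nonneg (mul_nonneg hs0.le hr0) (sub_nonneg.2 hrs), mul_nonneg (mul_nonneg hs0.le hs0.le) (sub_nonneg.2 hrs),
        mul_nonneg (mul_nonneg hr0 hr0) (sub_nonneg.2 hrs)]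
    linarith

theorem sum_four (m : ℕ) : ∑ j ∈ Finset.range m, ((j : ℝ) + 1) ^ (1 / 3 : ℝ) ≤ ((m : ℝ) + 1) ^ (4 / 3 : ℝ) := by
  have hm : (0 : ℝ) ≤ m := Nat.cast_nonneg m
  calc ∑ j ∈ Finset.range m, ((j : ℝ) + 1) ^ (1 / 3 : ℝ) ≤ ∑ j ∈ Finset.range m, ((m : ℝ) + 1) ^ (1 / 3 : ℝ) := by
        refine Finset.sum_le_sum fun j hj => ?_
        have : (j : ℝ) ≤ m := by exact_mod_cast (Finset.mem_range.1 hj).le
        exact Real.rpow_le_rpow (by positivity) (by linarith) (by norm_num)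
    _ = m * ((m : ℝ) + 1) ^ (1 / 3 : ℝ) := by rw [Finset.sum_const, Finset.card_range, nsmul_eq_mul]
    _ ≤ ((m : ℝ) + 1) * ((m : ℝ) + 1) ^ (1 / 3 : ℝ) := by
        refine mul_le_mul_of_nonneg_right (by linarith) (Real.rpow_nonneg (by linarith) _)
    _ = ((m : ℝ) + 1) ^ (4 / 3 : ℝ) := by
        nth_rewrite 1 [← Real.rpow_one ((m : ℝ) + 1)]
        rw [← Real.rpow_add (by linarith)]
        norm_num

theorem sum_harm (m : ℕ) : ∑ j ∈ Finset.range m, ((j : ℝ) + 1)⁻¹ ≤ 1 + Real.log ((m : ℝ) + 1) := by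
  have h1 := harmonic_le_one_add_log m
  have e : ((harmonic m : ℚ) : ℝ) = ∑ j ∈ Finset.range m, ((j : ℝ) + 1)⁻¹ := by
    unfold harmonic
    push_cast
    rfl
  rw [e] at h1
  refine h1.trans ?_
  rcases Nat.eq_zero_or_pos m with h | h
  · subst h; simp
  · have : Real.log m ≤ Real.log ((m : ℝ) + 1) := Real.log_le_log (by exact_mod_cast h) (by linarith)
    linarith

theorem sum_five : ∃ S : ℝ, 0 ≤ S ∧ ∀ m : ℕ, ∑ j ∈ Finset.range m, ((j : ℝ) + 1) ^ (-(5 / 3) : ℝ) ≤ S := by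
  have h1 : Summable (fun n : ℕ => ((n : ℝ) + 1) ^ (-(5 / 3) : ℝ)) := by
    have h2 : Summable (fun n : ℕ => (n : ℝ) ^ (-(5 / 3) : ℝ)) := Real.summable_nat_rpow.2 (by norm_num)
    have h3 := (summable_nat_add_iff 1).2 h2
    simpa using h3
  refine ⟨∑' n : ℕ, ((n : ℝ) + 1) ^ (-(5 / 3) : ℝ), tsum_nonneg fun n => by positivity, fun m => ?_⟩
  exact h1.sum_le_tsum _ (fun n _ => by positivity)

/-- Taylor expansion, to order four and uniformly in `m`, of a family with increments `G m`. -/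
theorem forwardTaylor (K c : ℝ) (hK : 1 ≤ K) (hc : 0 < c) (hc1 : c ≤ 1) (G y : ℕ → ℂ → ℂ)
    (hG : ∀ j : ℕ, DifferentiableOn ℂ (G j) (Metric.ball 0 (c / ((j : ℝ) + 2) ^ (2 / 3 : ℝ))))
    (hGb : ∀ j : ℕ, ∀ z ∈ Metric.ball (0 : ℂ) (c / ((j : ℝ) + 2) ^ (2 / 3 : ℝ)),
      ‖G j z‖ ≤ K * ‖z‖ * ((j : ℝ) + 1) ^ (-(7 / 3 : ℝ)))
    (a1 a2 a3 a4 : ℂ)
    (hy0 : ∀ z, y 0 z = a1 * z + a2 * z ^ 2 + a3 * z ^ 3 + a4 * z ^ 4)
    (hy : ∀ m : ℕ, ∀ z ∈ Metric.ball (0 : ℂ) (c / ((m : ℝ) + 2) ^ (2 / 3 : ℝ)),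
      y (m + 1) z - y m z = G m z) :
    ∃ (c' K' : ℝ) (z1 z2 z3 z4 : ℕ → ℂ), 0 < c' ∧ c' ≤ c ∧ 1 ≤ K' ∧
      (∀ m, ‖z1 m‖ ≤ K') ∧ (∀ m, ‖z2 m‖ ≤ K') ∧
      (∀ m : ℕ, ‖z3 m‖ ≤ K' * (1 + Real.log ((m : ℝ) + 1))) ∧
      (∀ m : ℕ, ‖z4 m‖ ≤ K' * ((m : ℝ) + 1) ^ (2 / 3 : ℝ)) ∧
      ∀ m : ℕ, ∀ z ∈ Metric.ball (0 : ℂ) (c' / ((m : ℝ) + 1) ^ (2 / 3 : ℝ)),
        ‖y m z - (z1 m * z + z2 m * z ^ 2 + z3 m * z ^ 3 + z4 m * z ^ 4)‖
          ≤ K' * ‖z‖ ^ 5 * ((m : ℝ) + 1) ^ (4 / 3 : ℝ) := by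
  choose g1 g2 g3 g4 b1 b2 b3 b4 br using incTaylor K c hK hc hc1 G hG hGb
  obtain ⟨S, hS0, hS⟩ := sum_five
  set B := 2 * K * (2 / c) ^ 4 with hB
  have hB0 : 0 ≤ B := by positivity
  set A := ‖a1‖ + ‖a2‖ + ‖a3‖ + ‖a4‖ with hA
  have n1 := norm_nonneg a1
  have n2 := norm_nonneg a2
  have n3 := norm_nonneg a3
  have n4 := norm_nonneg a4
  have hA0 : 0 ≤ A := by positivity
  have hBS : 0 ≤ B * S := mul_nonneg hB0 hS0
  have hsum : ∀ (g : ℕ → ℂ) (p : ℕ → ℝ) (m : ℕ), (∀ j, ‖g j‖ ≤ B * p j) →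
      ‖∑ j ∈ Finset.range m, g j‖ ≤ B * ∑ j ∈ Finset.range m, p j := by
    intro g p m h
    refine (norm_sum_le _ _).trans ?_
    rw [Finset.mul_sum]
    exact Finset.sum_le_sum fun j _ => h j
  refine ⟨c / 2, 1 + A + B * S + 2 * B, fun m => a1 + ∑ j ∈ Finset.range m, g1 j,
    fun m => a2 + ∑ j ∈ Finset.range m, g2 j, fun m => a3 + ∑ j ∈ Finset.range m, g3 j,
    fun m => a4 + ∑ j ∈ Finset.range m, g4 j, by positivity, by linarith, by linarith, ?_, ?_, ?_, ?_, ?_⟩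
  · intro m
    have h1 := norm_add_le a1 (∑ j ∈ Finset.range m, g1 j)
    have h2 := hsum g1 _ m b1
    have h3 := mul_le_mul_of_nonneg_left (hS m) hB0
    linarith
  · intro m
    have h1 := norm_add_le a2 (∑ j ∈ Finset.range m, g2 j)
    have h2 := hsum g2 _ m b2
    have h3 := mul_le_mul_of_nonneg_left (hS m) hB0
    linarith
  · intro m
    have h1 := norm_add_le a3 (∑ j ∈ Finset.range m, g3 j)
    have h2 := hsum g3 _ m b3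
    have h3 := mul_le_mul_of_nonneg_left (sum_harm m) hB0
    have h4 : 0 ≤ Real.log ((m : ℝ) + 1) := Real.log_nonneg (by have : (0 : ℝ) ≤ m := Nat.cast_nonneg m; linarith)
    have h5 : 0 ≤ (1 + A + B * S + 2 * B) * Real.log ((m : ℝ) + 1) := by positivity
    have h6 : 0 ≤ (1 + A + B * S + B) * Real.log ((m : ℝ) + 1) := by positivity
    nlinarith
  · intro m
    have h1 := norm_add_le a4 (∑ j ∈ Finset.range m, g4 j)
    have h2 := hsum g4 _ m b4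
    have hm : (0 : ℝ) ≤ m := Nat.cast_nonneg m
    have h0 : (m : ℝ) ^ (2 / 3 : ℝ) ≤ ((m : ℝ) + 1) ^ (2 / 3 : ℝ) := Real.rpow_le_rpow hm (by linarith) (by norm_num)
    have h3 := mul_le_mul_of_nonneg_left ((sum_third m).trans (mul_le_mul_of_nonneg_left h0 (by norm_num))) hB0
    have h4 : (1 : ℝ) ≤ ((m : ℝ) + 1) ^ (2 / 3 : ℝ) := Real.one_le_rpow (by linarith) (by norm_num)
    have h5 : A * 1 ≤ A * ((m : ℝ) + 1) ^ (2 / 3 : ℝ) := mul_le_mul_of_nonneg_left h4 hA0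
    have h6 : 0 ≤ (1 + B * S) * ((m : ℝ) + 1) ^ (2 / 3 : ℝ) := by positivity
    nlinarith
  · intro m z hz
    rw [mem_ball_zero_iff] at hz
    have hm0 : (0 : ℝ) ≤ m := Nat.cast_nonneg m
    have hmp : 0 < ((m : ℝ) + 1) ^ (2 / 3 : ℝ) := Real.rpow_pos_of_pos (by linarith) _
    have hRj : ∀ j < m, ‖z‖ ≤ (c / ((j : ℝ) + 2) ^ (2 / 3 : ℝ)) / 2 := by
      intro j hj
      have h1 : ((j : ℝ) + 2) ≤ (m : ℝ) + 1 := by
        have : (j : ℝ) + 1 ≤ m := by exact_mod_cast hj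
        linarith
      have h2 : ((j : ℝ) + 2) ^ (2 / 3 : ℝ) ≤ ((m : ℝ) + 1) ^ (2 / 3 : ℝ) :=
        Real.rpow_le_rpow (by positivity) h1 (by norm_num)
      have h3 : 0 < ((j : ℝ) + 2) ^ (2 / 3 : ℝ) := Real.rpow_pos_of_pos (by positivity) _
      have h4 : c / ((m : ℝ) + 1) ^ (2 / 3 : ℝ) ≤ c / ((j : ℝ) + 2) ^ (2 / 3 : ℝ) :=
        div_le_div_of_nonneg_left hc.le h3 h2
      have h5 : c / 2 / ((m : ℝ) + 1) ^ (2 / 3 : ℝ) = c / ((m : ℝ) + 1) ^ (2 / 3 : ℝ) / 2 := by ring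
      rw [h5] at hz
      linarith
    have hym : ∀ k ≤ m, y k z = y 0 z + ∑ j ∈ Finset.range k, G j z := by
      intro k hk
      induction k with
      | zero => simp
      | succ k ih =>
        have h1 := ih (by omega)
        have h2 := hRj k (by omega)
        have h3 : 0 < c / ((k : ℝ) + 2) ^ (2 / 3 : ℝ) :=
          div_pos hc (Real.rpow_pos_of_pos (by positivity) _)
        have h4 := hy k z (by rw [mem_ball_zero_iff]; linarith)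
        rw [Finset.sum_range_succ, ← add_assoc, ← h1]
        linear_combination h4
    rw [hym m le_rfl, hy0]
    have e1 : a1 * z + a2 * z ^ 2 + a3 * z ^ 3 + a4 * z ^ 4 + ∑ j ∈ Finset.range m, G j z -
        ((a1 + ∑ j ∈ Finset.range m, g1 j) * z + (a2 + ∑ j ∈ Finset.range m, g2 j) * z ^ 2 +
          (a3 + ∑ j ∈ Finset.range m, g3 j) * z ^ 3 + (a4 + ∑ j ∈ Finset.range m, g4 j) * z ^ 4) =
        ∑ j ∈ Finset.range m, (G j z - (g1 j * z + g2 j * z ^ 2 + g3 j * z ^ 3 + g4 j * z ^ 4)) := by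
      rw [Finset.sum_sub_distrib, Finset.sum_add_distrib, Finset.sum_add_distrib, Finset.sum_add_distrib,
        ← Finset.sum_mul, ← Finset.sum_mul, ← Finset.sum_mul, ← Finset.sum_mul]
      ring
    show ‖a1 * z + a2 * z ^ 2 + a3 * z ^ 3 + a4 * z ^ 4 + ∑ j ∈ Finset.range m, G j z -
        ((a1 + ∑ j ∈ Finset.range m, g1 j) * z + (a2 + ∑ j ∈ Finset.range m, g2 j) * z ^ 2 +
          (a3 + ∑ j ∈ Finset.range m, g3 j) * z ^ 3 + (a4 + ∑ j ∈ Finset.range m, g4 j) * z ^ 4)‖ ≤ _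
    rw [e1]
    have e2 : ‖∑ j ∈ Finset.range m, (G j z - (g1 j * z + g2 j * z ^ 2 + g3 j * z ^ 3 + g4 j * z ^ 4))‖ ≤
        ∑ j ∈ Finset.range m, B * ((j : ℝ) + 1) ^ (1 / 3 : ℝ) * ‖z‖ ^ 5 := by
      refine (norm_sum_le _ _).trans (Finset.sum_le_sum fun j hj => ?_)
      exact br j z (hRj j (Finset.mem_range.1 hj))
    refine e2.trans ?_
    rw [← Finset.sum_mul, ← Finset.mul_sum]
    have h5 := sum_four m
    have h6 : 0 ≤ ((m : ℝ) + 1) ^ (4 / 3 : ℝ) := by positivity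
    have h7 : 0 ≤ ‖z‖ ^ 5 := by positivity
    calc (B * ∑ j ∈ Finset.range m, ((j : ℝ) + 1) ^ (1 / 3 : ℝ)) * ‖z‖ ^ 5 ≤ (B * ((m : ℝ) + 1) ^ (4 / 3 : ℝ)) * ‖z‖ ^ 5 := by
          exact mul_le_mul_of_nonneg_right (mul_le_mul_of_nonneg_left h5 hB0) h7
      _ ≤ (1 + A + B * S + 2 * B) * ‖z‖ ^ 5 * ((m : ℝ) + 1) ^ (4 / 3 : ℝ) := by
          have : 0 ≤ (1 + A + B * S + B) * (‖z‖ ^ 5 * ((m : ℝ) + 1) ^ (4 / 3 : ℝ)) := by positivity
          nlinarith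

end Pool.Agent.FW
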