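import Pool.Agent.Helper155.FW.Defs
import Pool.Agent.Helper155.FW.FA2
import Pool.Agent.Helper155.FW.FA3

set_option autoImplicit false
open Filter Asymptotics Topology

namespace Pool.Agent.FW

/-! ## AVAILABLE (proved by others; use freely) -/



/-! ## TARGETS (prove these) -/

/-- complex versions -/
noncomputable def yfE (Q : Seqs) (m : ℕ) (z : ℂ) : ℂ :=
  Complex.exp (-(z * (Q.X m : ℂ) + z ^ 3 * (Q.Y m : ℂ) + z ^ 5 * (Q.W m : ℂ)))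

noncomputable def yfDel (Q : Seqs) (n : ℕ) (z : ℂ) : ℂ :=
  z * (Q.A n : ℂ) + z ^ 2 * (Q.b n : ℂ) + z ^ 3 * (Q.c n : ℂ) + z ^ 4 * (Q.d n : ℂ) +
    z ^ 5 * (Q.g n : ℂ)

noncomputable def yfDelp (Q : Seqs) (n : ℕ) (z : ℂ) : ℂ :=
  z * (Q.A n : ℂ) - z ^ 2 * (Q.b n : ℂ) + z ^ 3 * (Q.c n : ℂ) - z ^ 4 * (Q.d n : ℂ) +
    z ^ 5 * (Q.g n : ℂ)

noncomputable def yfOm (Q : Seqs) (m : ℕ) (z : ℂ) : ℂ :=
  Complex.exp (yfDelp Q (m + 1) z) + Complex.exp (-(yfDel Q (m + 1) z))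

noncomputable def yfP (Q : Seqs) (m : ℕ) (z : ℂ) : ℂ := z * (Q.h m : ℂ) / yfOm Q m z

theorem yfE_real (Q : Seqs) (m : ℕ) (t : ℝ) : yfE Q m (t : ℂ) = ((Q.e m t : ℝ) : ℂ) := by
  unfold yfE Seqs.e
  push_cast
  rfl

theorem yfDel_real (Q : Seqs) (m : ℕ) (t : ℝ) : yfDel Q m (t : ℂ) = ((Q.del m t : ℝ) : ℂ) := by
  unfold yfDel Seqs.del
  push_cast
  rfl

theorem yfDelp_real (Q : Seqs) (m : ℕ) (t : ℝ) :
    yfDelp Q m (t : ℂ) = ((Q.delp m t : ℝ) : ℂ) := by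
  unfold yfDelp Seqs.delp
  push_cast
  rfl

theorem yfOm_real (Q : Seqs) (m : ℕ) (t : ℝ) : yfOm Q m (t : ℂ) = ((Q.om m t : ℝ) : ℂ) := by
  unfold yfOm Seqs.om
  rw [yfDel_real, yfDelp_real]
  push_cast
  rfl

theorem yfP_real (Q : Seqs) (m : ℕ) (t : ℝ) : yfP Q m (t : ℂ) = ((Q.p m t : ℝ) : ℂ) := by
  unfold yfP Seqs.p
  rw [yfOm_real]
  push_cast
  rfl

theorem yf_quint {K : ℝ} {a b c d g z : ℂ} (ha : ‖a‖ ≤ K) (hb : ‖b‖ ≤ K) (hc : ‖c‖ ≤ K)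
    (hd : ‖d‖ ≤ K) (hg : ‖g‖ ≤ K) (hz : ‖z‖ ≤ 1) :
    ‖z * a + z ^ 2 * b + z ^ 3 * c + z ^ 4 * d + z ^ 5 * g‖ ≤ 5 * K * ‖z‖ := by
  have hK : 0 ≤ K := (norm_nonneg a).trans ha
  have h0 := norm_nonneg z
  have hp : ∀ k : ℕ, 1 ≤ k → ‖z‖ ^ k ≤ ‖z‖ := by
    intro k hk
    obtain ⟨j, rfl⟩ : ∃ j, k = j + 1 := ⟨k - 1, by omega⟩
    rw [pow_succ]
    have : ‖z‖ ^ j ≤ 1 := pow_le_one₀ h0 hz
    nlinarith
  have ht : ∀ (k : ℕ) (e : ℂ), 1 ≤ k → ‖e‖ ≤ K → ‖z ^ k * e‖ ≤ K * ‖z‖ := by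
    intro k e hk he
    rw [norm_mul, norm_pow, mul_comm K]
    exact mul_le_mul (hp k hk) he (norm_nonneg _) h0
  have h1 : ‖z * a‖ ≤ K * ‖z‖ := by
    have := ht 1 a le_rfl ha
    rwa [pow_one] at this
  have h2 := ht 2 b (by norm_num) hb
  have h3 := ht 3 c (by norm_num) hc
  have h4 := ht 4 d (by norm_num) hd
  have h5 := ht 5 g (by norm_num) hg
  calc ‖z * a + z ^ 2 * b + z ^ 3 * c + z ^ 4 * d + z ^ 5 * g‖
      ≤ ‖z * a + z ^ 2 * b + z ^ 3 * c + z ^ 4 * d‖ + ‖z ^ 5 * g‖ := norm_add_le _ _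
    _ ≤ (‖z * a + z ^ 2 * b + z ^ 3 * c‖ + ‖z ^ 4 * d‖) + ‖z ^ 5 * g‖ := by
        gcongr; exact norm_add_le _ _
    _ ≤ ((‖z * a + z ^ 2 * b‖ + ‖z ^ 3 * c‖) + ‖z ^ 4 * d‖) + ‖z ^ 5 * g‖ := by
        gcongr; exact norm_add_le _ _
    _ ≤ (((‖z * a‖ + ‖z ^ 2 * b‖) + ‖z ^ 3 * c‖) + ‖z ^ 4 * d‖) + ‖z ^ 5 * g‖ := by
        gcongr; exact norm_add_le _ _
    _ ≤ 5 * K * ‖z‖ := by linarith

theorem yf_coef {K x : ℝ} (hK : 0 ≤ K) (hx : 0 ≤ x) (n : ℕ) : K * ((n : ℝ) + 1) ^ (-x) ≤ K := by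
  have h1 : ((n : ℝ) + 1) ^ (-x) ≤ 1 := by
    apply Real.rpow_le_one_of_one_le_of_nonpos
    · have : (0 : ℝ) ≤ n := Nat.cast_nonneg n
      linarith
    · linarith
  nlinarith

theorem yf_delb {Q : Seqs} {K : ℝ} (hG : Good Q K) (n : ℕ) {z : ℂ} (hz : ‖z‖ ≤ 1) :
    ‖yfDel Q n z‖ ≤ 5 * K * ‖z‖ ∧ ‖yfDelp Q n z‖ ≤ 5 * K * ‖z‖ := by
  have hK : 0 ≤ K := by linarith [hG.K1]
  have ha : ‖(Q.A n : ℂ)‖ ≤ K := by
    rw [Complex.norm_real, Real.norm_eq_abs]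
    exact (hG.A n).trans (yf_coef hK (by norm_num) n)
  have hb : ‖(Q.b n : ℂ)‖ ≤ K := by
    rw [Complex.norm_real, Real.norm_eq_abs]
    exact (hG.b n).trans (yf_coef hK (by norm_num) n)
  have hc : ‖(Q.c n : ℂ)‖ ≤ K := by
    rw [Complex.norm_real, Real.norm_eq_abs]
    exact (hG.c n).trans (yf_coef hK (by norm_num) n)
  have hd : ‖(Q.d n : ℂ)‖ ≤ K := by
    rw [Complex.norm_real, Real.norm_eq_abs]
    exact (hG.d n).trans (yf_coef hK (by norm_num) n)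
  have hg : ‖(Q.g n : ℂ)‖ ≤ K := by
    rw [Complex.norm_real, Real.norm_eq_abs]
    exact (hG.g n).trans (yf_coef hK (by norm_num) n)
  refine ⟨yf_quint ha hb hc hd hg hz, ?_⟩
  have h1 := yf_quint (b := -(Q.b n : ℂ)) (d := -(Q.d n : ℂ)) ha (by rwa [norm_neg]) hc
    (by rwa [norm_neg]) hg hz
  have e : yfDelp Q n z = z * (Q.A n : ℂ) + z ^ 2 * (-(Q.b n : ℂ)) + z ^ 3 * (Q.c n : ℂ) +
      z ^ 4 * (-(Q.d n : ℂ)) + z ^ 5 * (Q.g n : ℂ) := by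
    unfold yfDelp
    ring
  rw [e]
  exact h1

theorem yf_om {Q : Seqs} {K : ℝ} (hG : Good Q K) (m : ℕ) {z : ℂ} (hz : 20 * K * ‖z‖ ≤ 1) :
    1 ≤ ‖yfOm Q m z‖ := by
  have hK1 := hG.K1
  have h0 := norm_nonneg z
  have hz1 : ‖z‖ ≤ 1 := by nlinarith
  obtain ⟨h1, h2⟩ := yf_delb hG (m + 1) hz1
  have h3 : ‖Complex.exp (yfDelp Q (m + 1) z) - 1‖ ≤ 1 / 2 := by
    have h4 : ‖yfDelp Q (m + 1) z‖ ≤ 1 := by linarith
    have h5 := Complex.norm_exp_sub_one_le h4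
    linarith
  have h6 : ‖Complex.exp (-(yfDel Q (m + 1) z)) - 1‖ ≤ 1 / 2 := by
    have h4 : ‖-(yfDel Q (m + 1) z)‖ ≤ 1 := by rw [norm_neg]; linarith
    have h5 := Complex.norm_exp_sub_one_le h4
    rw [norm_neg] at h5
    linarith
  have h7 : (2 : ℝ) ≤ ‖yfOm Q m z‖ + ‖(2 : ℂ) - yfOm Q m z‖ := by
    have h8 : (2 : ℂ) = yfOm Q m z + (2 - yfOm Q m z) := by ring
    have h9 : ‖(2 : ℂ)‖ = 2 := by simp
    calc (2 : ℝ) = ‖yfOm Q m z + (2 - yfOm Q m z)‖ := by rw [← h8, h9]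
      _ ≤ _ := norm_add_le _ _
  have h10 : ‖(2 : ℂ) - yfOm Q m z‖ ≤ 1 := by
    have e : (2 : ℂ) - yfOm Q m z = -((Complex.exp (yfDelp Q (m + 1) z) - 1) +
        (Complex.exp (-(yfDel Q (m + 1) z)) - 1)) := by
      unfold yfOm
      ring
    rw [e, norm_neg]
    calc ‖(Complex.exp (yfDelp Q (m + 1) z) - 1) + (Complex.exp (-(yfDel Q (m + 1) z)) - 1)‖
        ≤ _ := norm_add_le _ _
      _ ≤ 1 / 2 + 1 / 2 := add_le_add h3 h6
      _ = 1 := by norm_num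
  linarith

theorem yf_Pb {Q : Seqs} {K : ℝ} (hG : Good Q K) (m : ℕ) {z : ℂ} (hz : 20 * K * ‖z‖ ≤ 1) :
    ‖yfP Q m z‖ ≤ K * ‖z‖ * ((m : ℝ) + 1) ^ (-(7 / 3 : ℝ)) := by
  have h1 := yf_om hG m hz
  have hh := hG.h m
  unfold yfP
  rw [norm_div, norm_mul, Complex.norm_real, Real.norm_eq_abs]
  calc ‖z‖ * |Q.h m| / ‖yfOm Q m z‖ ≤ ‖z‖ * |Q.h m| / 1 :=
        div_le_div_of_nonneg_left (by positivity) one_pos h1
    _ = ‖z‖ * |Q.h m| := div_one _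
    _ ≤ ‖z‖ * (K * ((m : ℝ) + 1) ^ (-(7 / 3 : ℝ))) := mul_le_mul_of_nonneg_left hh (norm_nonneg _)
    _ = _ := by ring

theorem yf_rpow_one (m : ℕ) : (1 : ℝ) ≤ ((m : ℝ) + 1) ^ (2 / 3 : ℝ) := by
  apply Real.one_le_rpow
  · have : (0 : ℝ) ≤ m := Nat.cast_nonneg m
    linarith
  · norm_num

theorem yf_Eb {Q : Seqs} {K : ℝ} (hG : Good Q K) (m : ℕ) {z : ℂ}
    (hz : 20 * K * (‖z‖ * ((m : ℝ) + 1) ^ (2 / 3 : ℝ)) ≤ 1) :
    ‖z * (Q.X m : ℂ) + z ^ 3 * (Q.Y m : ℂ) + z ^ 5 * (Q.W m : ℂ)‖ ≤ 1 := by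
  have hK1 := hG.K1
  have h0 := norm_nonneg z
  obtain ⟨r, hr⟩ : ∃ r : ℝ, r = ((m : ℝ) + 1) ^ (2 / 3 : ℝ) := ⟨_, rfl⟩
  have hr1 : 1 ≤ r := by rw [hr]; exact yf_rpow_one m
  have hm1 : (1 : ℝ) ≤ (m : ℝ) + 1 := by
    have : (0 : ℝ) ≤ m := Nat.cast_nonneg m
    linarith
  have hr2 : (m : ℝ) + 1 ≤ r * r := by
    rw [hr, ← Real.rpow_add (by linarith)]
    calc (m : ℝ) + 1 = ((m : ℝ) + 1) ^ (1 : ℝ) := (Real.rpow_one _).symm
      _ ≤ _ := Real.rpow_le_rpow_of_exponent_le hm1 (by norm_num)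
  rw [← hr] at hz
  have hzr : ‖z‖ * r ≤ 1 / 20 / K := by
    rw [le_div_iff₀ (by linarith)]
    nlinarith
  have hzr1 : ‖z‖ * r ≤ 1 := by
    have : 1 / 20 / K ≤ 1 := by
      rw [div_le_one (by linarith)]
      linarith
    linarith
  have hz1 : ‖z‖ ≤ ‖z‖ * r := by nlinarith
  have hX : ‖z * (Q.X m : ℂ)‖ ≤ K * (‖z‖ * r) := by
    rw [norm_mul, Complex.norm_real, Real.norm_eq_abs]
    have h1 : |Q.X m| ≤ K * r := by
      have h2 := hG.Xl m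
      have h3 := hG.Xu m
      rw [← hr] at h2 h3
      have h4 : 0 ≤ Q.X m := by
        by_contra hcon
        have : K * Q.X m ≤ 0 := mul_nonpos_of_nonneg_of_nonpos (by linarith) (not_le.1 hcon).le
        linarith
      rw [abs_of_nonneg h4]
      exact h3
    calc ‖z‖ * |Q.X m| ≤ ‖z‖ * (K * r) := mul_le_mul_of_nonneg_left h1 h0
      _ = _ := by ring
  have hY : ‖z ^ 3 * (Q.Y m : ℂ)‖ ≤ K * (‖z‖ * r) := by
    rw [norm_mul, norm_pow, Complex.norm_real, Real.norm_eq_abs]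
    have h1 : |Q.Y m| ≤ K * (r * r) := by
      have h2 := hG.Yu m
      have h3 : 1 + Real.log ((m : ℝ) + 1) ≤ (m : ℝ) + 1 := by
        have := Real.log_le_sub_one_of_pos (show (0 : ℝ) < (m : ℝ) + 1 by linarith)
        linarith
      calc |Q.Y m| ≤ K * (1 + Real.log ((m : ℝ) + 1)) := h2
        _ ≤ K * (r * r) := mul_le_mul_of_nonneg_left (h3.trans hr2) (by linarith)
    calc ‖z‖ ^ 3 * |Q.Y m| ≤ ‖z‖ ^ 3 * (K * (r * r)) :=
          mul_le_mul_of_nonneg_left h1 (by positivity)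
      _ = K * (‖z‖ * ((‖z‖ * r) * (‖z‖ * r))) := by ring
      _ ≤ K * (‖z‖ * 1) := by
          have : (‖z‖ * r) * (‖z‖ * r) ≤ 1 := by
            have h5 : 0 ≤ ‖z‖ * r := by positivity
            nlinarith
          gcongr
      _ ≤ K * (‖z‖ * r) := by
          rw [mul_one]
          exact mul_le_mul_of_nonneg_left hz1 (by linarith)
  have hW : ‖z ^ 5 * (Q.W m : ℂ)‖ ≤ K * (‖z‖ * r) := by
    rw [norm_mul, norm_pow, Complex.norm_real, Real.norm_eq_abs]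
    have h2 := hG.Wu m
    have hzz : ‖z‖ ≤ 1 := by linarith
    have h3 : ‖z‖ ^ 5 ≤ ‖z‖ := by
      have : ‖z‖ ^ 4 ≤ 1 := pow_le_one₀ h0 hzz
      nlinarith
    calc ‖z‖ ^ 5 * |Q.W m| ≤ ‖z‖ * K := mul_le_mul h3 h2 (abs_nonneg _) h0
      _ ≤ (‖z‖ * r) * K := mul_le_mul_of_nonneg_right hz1 (by linarith)
      _ = _ := by ring
  calc ‖z * (Q.X m : ℂ) + z ^ 3 * (Q.Y m : ℂ) + z ^ 5 * (Q.W m : ℂ)‖
      ≤ ‖z * (Q.X m : ℂ) + z ^ 3 * (Q.Y m : ℂ)‖ + ‖z ^ 5 * (Q.W m : ℂ)‖ := norm_add_le _ _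
    _ ≤ (‖z * (Q.X m : ℂ)‖ + ‖z ^ 3 * (Q.Y m : ℂ)‖) + ‖z ^ 5 * (Q.W m : ℂ)‖ := by
        gcongr; exact norm_add_le _ _
    _ ≤ 3 * (K * (‖z‖ * r)) := by linarith
    _ ≤ 1 := by nlinarith

theorem yf_exp_le {w : ℂ} (hw : ‖w‖ ≤ 1) : ‖Complex.exp w‖ ≤ 3 := by
  calc ‖Complex.exp w‖ ≤ Real.exp ‖w‖ := Complex.norm_exp_le_exp_norm w
    _ ≤ Real.exp 1 := Real.exp_le_exp.2 hw
    _ ≤ 3 := by linarith [Real.exp_one_lt_d9]

set_option maxHeartbeats 4000000 in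
theorem YF_exists (Q : Seqs) (K : ℝ) (hG : Good Q K) (a1 a2 a3 a4 : ℝ) :
    ∃ (y : ℕ → ℝ → ℝ) (z1 z2 z3 z4 : ℕ → ℝ) (K' c : ℝ), YF Q y z1 z2 z3 z4 K' c ∧
      ∀ t : ℝ, y 0 t = a1 * t + a2 * t ^ 2 + a3 * t ^ 3 + a4 * t ^ 4 := by
  have hK1 := hG.K1
  obtain ⟨c0, hc0⟩ : ∃ c0 : ℝ, c0 = 1 / (20 * K) := ⟨_, rfl⟩
  have hc0pos : 0 < c0 := by rw [hc0]; positivity
  have hc0K : 20 * K * c0 = 1 := by rw [hc0]; field_simp
  have hc01 : c0 ≤ 1 := by nlinarith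
  obtain ⟨K0, hK0⟩ : ∃ K0 : ℝ, K0 = K + 3 + (|a1| + |a2| + |a3| + |a4|) := ⟨_, rfl⟩
  have hs0 : 0 ≤ |a1| + |a2| + |a3| + |a4| := by positivity
  have hK01 : 1 ≤ K0 := by linarith
  have hKK0 : K ≤ K0 := by linarith
  have h3K0 : 3 ≤ K0 := by linarith
  -- membership
  have hball : ∀ (j : ℕ) (z : ℂ), z ∈ Metric.ball (0 : ℂ) (c0 / ((j : ℝ) + 1) ^ (2 / 3 : ℝ)) →
      20 * K * (‖z‖ * ((j : ℝ) + 1) ^ (2 / 3 : ℝ)) ≤ 1 := by
    intro j z hz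
    rw [mem_ball_zero_iff, lt_div_iff₀ (by have := yf_rpow_one j; linarith)] at hz
    calc 20 * K * (‖z‖ * ((j : ℝ) + 1) ^ (2 / 3 : ℝ)) ≤ 20 * K * c0 :=
          mul_le_mul_of_nonneg_left hz.le (by linarith)
      _ = 1 := hc0K
  have hball' : ∀ (j : ℕ) (z : ℂ), z ∈ Metric.ball (0 : ℂ) (c0 / ((j : ℝ) + 1) ^ (2 / 3 : ℝ)) →
      20 * K * ‖z‖ ≤ 1 := by
    intro j z hz
    have h1 := hball j z hz
    have h2 : ‖z‖ ≤ ‖z‖ * ((j : ℝ) + 1) ^ (2 / 3 : ℝ) := by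
      have := yf_rpow_one j
      nlinarith [norm_nonneg z]
    have h3 : 20 * K * ‖z‖ ≤ 20 * K * (‖z‖ * ((j : ℝ) + 1) ^ (2 / 3 : ℝ)) :=
      mul_le_mul_of_nonneg_left h2 (by linarith)
    linarith
  have hEdiff : ∀ j : ℕ, Differentiable ℂ (yfE Q j) := by
    intro j
    unfold yfE
    fun_prop
  have hEb : ∀ j : ℕ, ∀ z ∈ Metric.ball (0 : ℂ) (c0 / ((j : ℝ) + 1) ^ (2 / 3 : ℝ)),
      ‖yfE Q j z‖ ≤ K0 := by
    intro j z hz
    have h1 := yf_Eb hG j (hball j z hz)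
    refine (yf_exp_le (w := -(z * (Q.X j : ℂ) + z ^ 3 * (Q.Y j : ℂ) + z ^ 5 * (Q.W j : ℂ))) ?_).trans
      h3K0
    rwa [norm_neg]
  have hEi : ∀ j : ℕ, ∀ z ∈ Metric.ball (0 : ℂ) (c0 / ((j : ℝ) + 1) ^ (2 / 3 : ℝ)),
      ‖(yfE Q j z)⁻¹‖ ≤ K0 := by
    intro j z hz
    have h1 := yf_Eb hG j (hball j z hz)
    unfold yfE
    rw [← Complex.exp_neg, neg_neg]
    exact (yf_exp_le h1).trans h3K0
  have hE0 : ∀ (j : ℕ) (z : ℂ), yfE Q j z ≠ 0 := fun j z => Complex.exp_ne_zero _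
  have homdiff : ∀ j : ℕ, Differentiable ℂ (yfOm Q j) := by
    intro j
    unfold yfOm yfDelp yfDel
    fun_prop
  have hPdiff : ∀ j : ℕ, DifferentiableOn ℂ (yfP Q j)
      (Metric.ball 0 (c0 / ((j : ℝ) + 1) ^ (2 / 3 : ℝ))) := by
    intro j z hz
    have h1 := yf_om hG j (hball' j z hz)
    have h2 : yfOm Q j z ≠ 0 := by
      intro h
      rw [h, norm_zero] at h1
      linarith
    apply DifferentiableAt.differentiableWithinAt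
    unfold yfP
    exact (differentiableAt_id.mul (differentiableAt_const _)).div (homdiff j z) h2
  have hPb : ∀ j : ℕ, ∀ z ∈ Metric.ball (0 : ℂ) (c0 / ((j : ℝ) + 1) ^ (2 / 3 : ℝ)),
      ‖yfP Q j z‖ ≤ K0 * ‖z‖ * ((j : ℝ) + 1) ^ (-(7 / 3 : ℝ)) := by
    intro j z hz
    refine (yf_Pb hG j (hball' j z hz)).trans ?_
    gcongr
  obtain ⟨P, hP⟩ : ∃ P : ℂ → ℂ, P = fun z => (a1 : ℂ) * z + (a2 : ℂ) * z ^ 2 + (a3 : ℂ) * z ^ 3 +
    (a4 : ℂ) * z ^ 4 := ⟨_, rfl⟩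
  have hPd : Differentiable ℂ P := by
    rw [hP]
    fun_prop
  have hPbd : ∀ z : ℂ, ‖z‖ ≤ 1 → ‖P z‖ ≤ K0 * ‖z‖ := by
    intro z hz
    have h0 := norm_nonneg z
    have hpw : ∀ (k : ℕ) (a : ℝ), 1 ≤ k → ‖(a : ℂ) * z ^ k‖ ≤ |a| * ‖z‖ := by
      intro k a hk
      rw [norm_mul, norm_pow, Complex.norm_real, Real.norm_eq_abs]
      obtain ⟨j, rfl⟩ : ∃ j, k = j + 1 := ⟨k - 1, by omega⟩
      have h1 : ‖z‖ ^ (j + 1) ≤ ‖z‖ := by
        rw [pow_succ]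
        have : ‖z‖ ^ j ≤ 1 := pow_le_one₀ h0 hz
        nlinarith
      exact mul_le_mul_of_nonneg_left h1 (abs_nonneg _)
    have e1 : ‖(a1 : ℂ) * z‖ ≤ |a1| * ‖z‖ := by
      have := hpw 1 a1 le_rfl
      rwa [pow_one] at this
    have e2 := hpw 2 a2 (by norm_num)
    have e3 := hpw 3 a3 (by norm_num)
    have e4 := hpw 4 a4 (by norm_num)
    rw [hP]
    calc ‖(a1 : ℂ) * z + (a2 : ℂ) * z ^ 2 + (a3 : ℂ) * z ^ 3 + (a4 : ℂ) * z ^ 4‖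
        ≤ ‖(a1 : ℂ) * z + (a2 : ℂ) * z ^ 2 + (a3 : ℂ) * z ^ 3‖ + ‖(a4 : ℂ) * z ^ 4‖ :=
          norm_add_le _ _
      _ ≤ (‖(a1 : ℂ) * z + (a2 : ℂ) * z ^ 2‖ + ‖(a3 : ℂ) * z ^ 3‖) + ‖(a4 : ℂ) * z ^ 4‖ := by
          gcongr; exact norm_add_le _ _
      _ ≤ ((‖(a1 : ℂ) * z‖ + ‖(a2 : ℂ) * z ^ 2‖) + ‖(a3 : ℂ) * z ^ 3‖) + ‖(a4 : ℂ) * z ^ 4‖ := by
          gcongr; exact norm_add_le _ _
      _ ≤ (|a1| + |a2| + |a3| + |a4|) * ‖z‖ := by linarith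
      _ ≤ K0 * ‖z‖ := mul_le_mul_of_nonneg_right (by linarith) h0
  obtain ⟨c1, K1, y, hc1, hc10, hK11, hy0, hyd, hyb, hyr⟩ :=
    forwardRec K0 c0 hK01 hc0pos hc01 (yfE Q) (yfP Q) (fun j => (hEdiff j).differentiableOn)
      (fun j z _ => hE0 j z) hEb hEi hPdiff hPb P hPd hPbd
  -- inclusions of balls
  have hsub1 : ∀ (j : ℕ) (z : ℂ), z ∈ Metric.ball (0 : ℂ) (c1 / ((j : ℝ) + 1) ^ (2 / 3 : ℝ)) →
      z ∈ Metric.ball (0 : ℂ) (c0 / ((j : ℝ) + 1) ^ (2 / 3 : ℝ)) := by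
    intro j z hz
    rw [mem_ball_zero_iff] at hz ⊢
    refine hz.trans_le ?_
    have := yf_rpow_one j
    gcongr
  have hpow2 : ∀ j : ℕ, ((j : ℝ) + 1) ^ (2 / 3 : ℝ) ≤ ((j : ℝ) + 2) ^ (2 / 3 : ℝ) := by
    intro j
    have : (0 : ℝ) ≤ j := Nat.cast_nonneg j
    exact Real.rpow_le_rpow (by linarith) (by linarith) (by norm_num)
  have hsub2 : ∀ (j : ℕ) (z : ℂ), z ∈ Metric.ball (0 : ℂ) (c1 / ((j : ℝ) + 2) ^ (2 / 3 : ℝ)) →
      z ∈ Metric.ball (0 : ℂ) (c1 / ((j : ℝ) + 1) ^ (2 / 3 : ℝ)) := by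
    intro j z hz
    rw [mem_ball_zero_iff] at hz ⊢
    refine hz.trans_le ?_
    have h1 := yf_rpow_one j
    have h2 := hpow2 j
    gcongr
  have hsub3 : ∀ (j : ℕ) (z : ℂ), z ∈ Metric.ball (0 : ℂ) (c1 / ((j : ℝ) + 2) ^ (2 / 3 : ℝ)) →
      z ∈ Metric.ball (0 : ℂ) (c1 / (((j + 1 : ℕ) : ℝ) + 1) ^ (2 / 3 : ℝ)) := by
    intro j z hz
    have e : (((j + 1 : ℕ) : ℝ) + 1) = (j : ℝ) + 2 := by push_cast; ring
    rw [e]
    exact hz
  have hnorm1 : ∀ (j : ℕ) (z : ℂ), z ∈ Metric.ball (0 : ℂ) (c1 / ((j : ℝ) + 1) ^ (2 / 3 : ℝ)) →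
      ‖z‖ < c1 := by
    intro j z hz
    rw [mem_ball_zero_iff, lt_div_iff₀ (by have := yf_rpow_one j; linarith)] at hz
    have h1 := yf_rpow_one j
    nlinarith [norm_nonneg z]
  obtain ⟨G, hGd⟩ : ∃ G : ℕ → ℂ → ℂ, G = fun m z => yfE Q m z * yfP Q m z +
      (-1) ^ m * yfP Q m z * (y m z + y (m + 1) z) + yfP Q m z * y m z * y (m + 1) z / yfE Q m z :=
    ⟨_, rfl⟩
  have hGdiff : ∀ j : ℕ, DifferentiableOn ℂ (G j)
      (Metric.ball 0 (c1 / ((j : ℝ) + 2) ^ (2 / 3 : ℝ))) := by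
    intro j
    have d1 : DifferentiableOn ℂ (yfE Q j) (Metric.ball 0 (c1 / ((j : ℝ) + 2) ^ (2 / 3 : ℝ))) :=
      (hEdiff j).differentiableOn
    have d2 : DifferentiableOn ℂ (yfP Q j) (Metric.ball 0 (c1 / ((j : ℝ) + 2) ^ (2 / 3 : ℝ))) :=
      (hPdiff j).mono fun z hz => hsub1 j z (hsub2 j z hz)
    have d3 : DifferentiableOn ℂ (y j) (Metric.ball 0 (c1 / ((j : ℝ) + 2) ^ (2 / 3 : ℝ))) :=
      (hyd j).mono fun z hz => hsub2 j z hz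
    have d4 : DifferentiableOn ℂ (y (j + 1)) (Metric.ball 0 (c1 / ((j : ℝ) + 2) ^ (2 / 3 : ℝ))) :=
      (hyd (j + 1)).mono fun z hz => hsub3 j z hz
    rw [hGd]
    exact ((d1.mul d2).add (((differentiableOn_const _).mul d2).mul (d3.add d4))).add
      (((d2.mul d3).mul d4).div d1 fun z _ => hE0 j z)
  obtain ⟨K2, hK2⟩ : ∃ K2 : ℝ, K2 = K0 * (K0 + 2 * K1 + K1 ^ 2 * K0) := ⟨_, rfl⟩
  have hK21 : 1 ≤ K2 := by
    rw [hK2]
    have : 1 ≤ K0 + 2 * K1 + K1 ^ 2 * K0 := by nlinarith [sq_nonneg K1]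
    nlinarith
  have hGb : ∀ j : ℕ, ∀ z ∈ Metric.ball (0 : ℂ) (c1 / ((j : ℝ) + 2) ^ (2 / 3 : ℝ)),
      ‖G j z‖ ≤ K2 * ‖z‖ * ((j : ℝ) + 1) ^ (-(7 / 3 : ℝ)) := by
    intro j z hz
    have m1 := hsub2 j z hz
    have m2 := hsub1 j z m1
    have m3 := hsub3 j z hz
    have b1 := hEb j z m2
    have b2 := hEi j z m2
    have b3 := hPb j z m2
    have b4 := hyb j z m1
    have b5 := hyb (j + 1) z m3
    have hz1 : ‖z‖ ≤ 1 := by
      have := hnorm1 j z m1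
      linarith
    have h0 := norm_nonneg z
    obtain ⟨pb, hpb⟩ : ∃ pb : ℝ, pb = K0 * ‖z‖ * ((j : ℝ) + 1) ^ (-(7 / 3 : ℝ)) := ⟨_, rfl⟩
    rw [← hpb] at b3
    have hpb0 : 0 ≤ pb := (norm_nonneg _).trans b3
    have b4' : ‖y j z‖ ≤ K1 := b4.trans (by nlinarith)
    have b5' : ‖y (j + 1) z‖ ≤ K1 := b5.trans (by nlinarith)
    have hK10 : 0 ≤ K1 := by linarith
    have hK00 : 0 ≤ K0 := by linarith
    have t1 : ‖yfE Q j z * yfP Q j z‖ ≤ K0 * pb := by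
      rw [norm_mul]
      exact mul_le_mul b1 b3 (norm_nonneg _) hK00
    have t2 : ‖(-1 : ℂ) ^ j * yfP Q j z * (y j z + y (j + 1) z)‖ ≤ pb * (2 * K1) := by
      rw [norm_mul, norm_mul, norm_pow, norm_neg, norm_one, one_pow, one_mul]
      refine mul_le_mul b3 ?_ (norm_nonneg _) hpb0
      calc ‖y j z + y (j + 1) z‖ ≤ ‖y j z‖ + ‖y (j + 1) z‖ := norm_add_le _ _
        _ ≤ 2 * K1 := by linarith
    have t3 : ‖yfP Q j z * y j z * y (j + 1) z / yfE Q j z‖ ≤ pb * K1 * K1 * K0 := by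
      rw [div_eq_mul_inv, norm_mul, norm_mul, norm_mul]
      refine mul_le_mul (mul_le_mul (mul_le_mul b3 b4' (norm_nonneg _) hpb0) b5' (norm_nonneg _)
        (by positivity)) b2 (norm_nonneg _) (by positivity)
    rw [hGd]
    calc ‖yfE Q j z * yfP Q j z + (-1) ^ j * yfP Q j z * (y j z + y (j + 1) z) +
          yfP Q j z * y j z * y (j + 1) z / yfE Q j z‖
        ≤ ‖yfE Q j z * yfP Q j z + (-1) ^ j * yfP Q j z * (y j z + y (j + 1) z)‖ +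
          ‖yfP Q j z * y j z * y (j + 1) z / yfE Q j z‖ := norm_add_le _ _
      _ ≤ (‖yfE Q j z * yfP Q j z‖ + ‖(-1 : ℂ) ^ j * yfP Q j z * (y j z + y (j + 1) z)‖) +
          ‖yfP Q j z * y j z * y (j + 1) z / yfE Q j z‖ := by gcongr; exact norm_add_le _ _
      _ ≤ K0 * pb + pb * (2 * K1) + pb * K1 * K1 * K0 := by linarith
      _ = K2 * ‖z‖ * ((j : ℝ) + 1) ^ (-(7 / 3 : ℝ)) := by
          rw [hK2, hpb]
          ring
  obtain ⟨c2, K3, w1, w2, w3, w4, hc2, hc21, hK31, hw1, hw2, hw3, hw4, hwx⟩ :=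
    forwardTaylor K2 c1 hK21 hc1 (hc10.trans hc01) G y hGdiff hGb (a1 : ℂ) (a2 : ℂ) (a3 : ℂ) (a4 : ℂ)
      (fun z => by rw [hy0, hP]) (fun m z hz => by rw [hyr m z hz, hGd])
  -- real values
  obtain ⟨c3, hc3⟩ : ∃ c3 : ℝ, c3 = min c2 (1 / (2 * K0 * (1 + K1 * K0))) := ⟨_, rfl⟩
  have hK00 : 0 < K0 := by linarith
  have hK10 : 0 < K1 := by linarith
  have hc3pos : 0 < c3 := by
    rw [hc3]
    exact lt_min hc2 (by positivity)
  have hc32 : c3 ≤ c2 := by rw [hc3]; exact min_le_left _ _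
  have hc3K : c3 * (2 * K0 * (1 + K1 * K0)) ≤ 1 := by
    have h1 : c3 ≤ 1 / (2 * K0 * (1 + K1 * K0)) := by rw [hc3]; exact min_le_right _ _
    rwa [le_div_iff₀ (by positivity)] at h1
  have hc31 : c3 ≤ c1 := hc32.trans hc21
  have hmemb : ∀ (c : ℝ), c3 ≤ c → ∀ (m : ℕ) (t : ℝ), |t| * ((m : ℝ) + 1) ^ (2 / 3 : ℝ) < c3 →
      (t : ℂ) ∈ Metric.ball (0 : ℂ) (c / ((m : ℝ) + 1) ^ (2 / 3 : ℝ)) := by
    intro c hc m t ht
    rw [mem_ball_zero_iff, Complex.norm_real, Real.norm_eq_abs,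
      lt_div_iff₀ (by have := yf_rpow_one m; linarith)]
    linarith
  have hreal : ∀ (m : ℕ) (t : ℝ), |t| * ((m : ℝ) + 1) ^ (2 / 3 : ℝ) < c3 →
      y m (t : ℂ) = (((y m (t : ℂ)).re : ℝ) : ℂ) := by
    intro m
    induction m with
    | zero =>
      intro t _
      rw [hy0, hP]
      simp only
      have e : (a1 : ℂ) * (t : ℂ) + (a2 : ℂ) * (t : ℂ) ^ 2 + (a3 : ℂ) * (t : ℂ) ^ 3 +
          (a4 : ℂ) * (t : ℂ) ^ 4 = ((a1 * t + a2 * t ^ 2 + a3 * t ^ 3 + a4 * t ^ 4 : ℝ) : ℂ) := by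
        push_cast
        ring
      rw [e, Complex.ofReal_re]
    | succ m ih =>
      intro t ht
      have e2 : (((m + 1 : ℕ) : ℝ) + 1) = (m : ℝ) + 2 := by push_cast; ring
      rw [e2] at ht
      have ht1 : |t| * ((m : ℝ) + 1) ^ (2 / 3 : ℝ) < c3 :=
        (mul_le_mul_of_nonneg_left (hpow2 m) (abs_nonneg t)).trans_lt ht
      have hym := ih t ht1
      have m1 : (t : ℂ) ∈ Metric.ball (0 : ℂ) (c1 / ((m : ℝ) + 2) ^ (2 / 3 : ℝ)) := by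
        rw [mem_ball_zero_iff, Complex.norm_real, Real.norm_eq_abs, lt_div_iff₀]
        · linarith
        · have := yf_rpow_one m
          have := hpow2 m
          linarith
      have hrec := hyr m (t : ℂ) m1
      obtain ⟨u, hu⟩ : ∃ u : ℝ, u = (y m (t : ℂ)).re := ⟨_, rfl⟩
      rw [← hu] at hym
      rw [hym, yfE_real, yfP_real] at hrec
      have hE0' : (Q.e m t : ℝ) ≠ 0 := by
        unfold Seqs.e
        exact Real.exp_ne_zero _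
      have hEC : ((Q.e m t : ℝ) : ℂ) ≠ 0 := by exact_mod_cast hE0'
      obtain ⟨D, hD⟩ : ∃ D : ℝ, D = 1 - (-1) ^ m * Q.p m t - Q.p m t * u / Q.e m t := ⟨_, rfl⟩
      have m2 := hsub2 m _ m1
      have m3 := hsub1 m _ m2
      have b2 := hEi m _ m3
      have b3 := hPb m _ m3
      have b4 := hyb m _ m2
      rw [yfE_real, ← Complex.ofReal_inv, Complex.norm_real, Real.norm_eq_abs] at b2
      rw [yfP_real, Complex.norm_real, Complex.norm_real, Real.norm_eq_abs, Real.norm_eq_abs] at b3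
      rw [hym, Complex.norm_real, Complex.norm_real, Real.norm_eq_abs, Real.norm_eq_abs] at b4
      have htc : |t| < c3 := by
        have := yf_rpow_one m
        nlinarith [abs_nonneg t]
      have ht1' : |t| ≤ 1 := by linarith
      have b3' : |Q.p m t| ≤ K0 * |t| := by
        refine b3.trans ?_
        have := yf_coef (x := 7 / 3) (show 0 ≤ K0 * |t| by positivity) (by norm_num) m
        exact this
      have b4' : |u| ≤ K1 := b4.trans (by nlinarith [abs_nonneg t])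
      have hDne : D ≠ 0 := by
        intro hD0
        have h1 : (1 : ℝ) = (-1) ^ m * Q.p m t + Q.p m t * u / Q.e m t := by linarith
        have h2 : |(-1) ^ m * Q.p m t + Q.p m t * u / Q.e m t| ≤ K0 * |t| + K0 * |t| * K1 * K0 := by
          calc |(-1) ^ m * Q.p m t + Q.p m t * u / Q.e m t|
              ≤ |(-1) ^ m * Q.p m t| + |Q.p m t * u / Q.e m t| := abs_add_le _ _
            _ = |Q.p m t| + |Q.p m t| * |u| * |(Q.e m t)⁻¹| := by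
                rw [abs_mul, abs_pow, abs_neg, abs_one, one_pow, one_mul, div_eq_mul_inv,
                  abs_mul, abs_mul]
            _ ≤ K0 * |t| + K0 * |t| * K1 * K0 := by
                refine add_le_add b3' (mul_le_mul (mul_le_mul b3' b4' (abs_nonneg _)
                  (by positivity)) b2 (abs_nonneg _) (by positivity))
        rw [← h1, abs_one] at h2
        have h3 : K0 * |t| + K0 * |t| * K1 * K0 = |t| * (K0 * (1 + K1 * K0)) := by ring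
        have h4 : |t| * (K0 * (1 + K1 * K0)) ≤ c3 * (K0 * (1 + K1 * K0)) :=
          mul_le_mul_of_nonneg_right htc.le (by positivity)
        have h5 : c3 * (2 * K0 * (1 + K1 * K0)) = 2 * (c3 * (K0 * (1 + K1 * K0))) := by ring
        linarith
      have hDC : (D : ℂ) ≠ 0 := by exact_mod_cast hDne
      have hkey : y (m + 1) (t : ℂ) * (D : ℂ) =
          ((u + Q.e m t * Q.p m t + (-1) ^ m * Q.p m t * u : ℝ) : ℂ) := by
        rw [hD]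
        push_cast
        have e3 : y (m + 1) (t : ℂ) = (u : ℂ) + (((Q.e m t : ℝ) : ℂ) * ((Q.p m t : ℝ) : ℂ) +
            (-1) ^ m * ((Q.p m t : ℝ) : ℂ) * ((u : ℂ) + y (m + 1) (t : ℂ)) +
            ((Q.p m t : ℝ) : ℂ) * (u : ℂ) * y (m + 1) (t : ℂ) / ((Q.e m t : ℝ) : ℂ)) := by
          rw [← hrec]
          ring
        linear_combination e3
      have hfin : y (m + 1) (t : ℂ) =
          (((u + Q.e m t * Q.p m t + (-1) ^ m * Q.p m t * u) / D : ℝ) : ℂ) := by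
        rw [Complex.ofReal_div, ← hkey, mul_div_cancel_right₀ _ hDC]
      rw [hfin, Complex.ofReal_re]
  -- final constants
  obtain ⟨cf, hcf⟩ : ∃ cf : ℝ, cf = min (c3 / 2) (1 / 3) := ⟨_, rfl⟩
  have hcfpos : 0 < cf := by
    rw [hcf]
    exact lt_min (by linarith) (by norm_num)
  have hcf3 : cf ≤ c3 / 2 := by rw [hcf]; exact min_le_left _ _
  have hcf1 : cf ≤ 1 / 3 := by rw [hcf]; exact min_le_right _ _
  refine ⟨fun m t => (y m (t : ℂ)).re, fun m => (w1 m).re, fun m => (w2 m).re, fun m => (w3 m).re,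
    fun m => (w4 m).re, K1 + K3, cf, ?_, ?_⟩
  · refine { K1 := by linarith, cpos := hcfpos, c1 := hcf1, bd := ?_, step := ?_, ex := ?_,
             z1b := ?_, z2b := ?_, z3b := ?_, z4b := ?_ }
    · intro m t ht0 ht
      have ht' : |t| * ((m : ℝ) + 1) ^ (2 / 3 : ℝ) < c3 := by
        rw [abs_of_pos ht0]
        linarith
      have h1 := hyb m (t : ℂ) (hmemb c1 hc31 m t ht')
      rw [Complex.norm_real, Real.norm_eq_abs, abs_of_pos ht0] at h1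
      calc |(y m (t : ℂ)).re| ≤ ‖y m (t : ℂ)‖ := Complex.abs_re_le_norm _
        _ ≤ K1 * t := h1
        _ ≤ (K1 + K3) * t := by nlinarith
    · intro m t ht0 ht
      have ht' : |t| * ((m : ℝ) + 2) ^ (2 / 3 : ℝ) < c3 := by
        rw [abs_of_pos ht0]
        linarith
      have ht1 : |t| * ((m : ℝ) + 1) ^ (2 / 3 : ℝ) < c3 :=
        (mul_le_mul_of_nonneg_left (hpow2 m) (abs_nonneg t)).trans_lt ht'
      have ht2 : |t| * (((m + 1 : ℕ) : ℝ) + 1) ^ (2 / 3 : ℝ) < c3 := by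
        have e2 : (((m + 1 : ℕ) : ℝ) + 1) = (m : ℝ) + 2 := by push_cast; ring
        rw [e2]
        exact ht'
      have m1 : (t : ℂ) ∈ Metric.ball (0 : ℂ) (c1 / ((m : ℝ) + 2) ^ (2 / 3 : ℝ)) := by
        rw [mem_ball_zero_iff, Complex.norm_real, Real.norm_eq_abs, lt_div_iff₀]
        · linarith
        · have := yf_rpow_one m
          have := hpow2 m
          linarith
      have hrec := hyr m (t : ℂ) m1
      obtain ⟨u, hu⟩ : ∃ u : ℝ, u = (y m (t : ℂ)).re := ⟨_, rfl⟩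
      obtain ⟨v, hv⟩ : ∃ v : ℝ, v = (y (m + 1) (t : ℂ)).re := ⟨_, rfl⟩
      have r1 := hreal m t ht1
      have r2 := hreal (m + 1) t ht2
      rw [← hu] at r1
      rw [← hv] at r2
      rw [r1, r2, yfE_real, yfP_real] at hrec
      simp only [← hu, ← hv]
      exact_mod_cast hrec
    · intro m t ht0 ht
      have ht' : |t| * ((m : ℝ) + 1) ^ (2 / 3 : ℝ) < c3 := by
        rw [abs_of_pos ht0]
        linarith
      have h1 := hwx m (t : ℂ) (hmemb c2 hc32 m t ht')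
      rw [Complex.norm_real, Real.norm_eq_abs, abs_of_pos ht0] at h1
      have h2 : (y m (t : ℂ) - (w1 m * (t : ℂ) + w2 m * (t : ℂ) ^ 2 + w3 m * (t : ℂ) ^ 3 +
          w4 m * (t : ℂ) ^ 4)).re = (y m (t : ℂ)).re - ((w1 m).re * t + (w2 m).re * t ^ 2 +
          (w3 m).re * t ^ 3 + (w4 m).re * t ^ 4) := by
        simp only [Complex.sub_re, Complex.add_re, ← Complex.ofReal_pow, Complex.re_mul_ofReal]
      have hm0 : (0 : ℝ) ≤ t ^ 5 * ((m : ℝ) + 1) ^ (4 / 3 : ℝ) := by positivity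
      calc |(y m (t : ℂ)).re - ((w1 m).re * t + (w2 m).re * t ^ 2 +
          (w3 m).re * t ^ 3 + (w4 m).re * t ^ 4)| ≤ K3 * t ^ 5 * ((m : ℝ) + 1) ^ (4 / 3 : ℝ) := by
            rw [← h2]
            exact (Complex.abs_re_le_norm _).trans h1
        _ ≤ (K1 + K3) * t ^ 5 * ((m : ℝ) + 1) ^ (4 / 3 : ℝ) := by
            rw [mul_assoc, mul_assoc]
            exact mul_le_mul_of_nonneg_right (by linarith) hm0
    · intro m
      exact (Complex.abs_re_le_norm _).trans ((hw1 m).trans (by linarith))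
    · intro m
      exact (Complex.abs_re_le_norm _).trans ((hw2 m).trans (by linarith))
    · intro m
      refine (Complex.abs_re_le_norm _).trans ((hw3 m).trans ?_)
      have : 0 ≤ Real.log ((m : ℝ) + 1) := Real.log_nonneg (by
        have : (0 : ℝ) ≤ m := Nat.cast_nonneg m
        linarith)
      exact mul_le_mul_of_nonneg_right (by linarith) (by linarith)
    · intro m
      refine (Complex.abs_re_le_norm _).trans ((hw4 m).trans ?_)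
      exact mul_le_mul_of_nonneg_right (by linarith) (by positivity)
  · intro t
    simp only
    rw [hy0, hP]
    simp only
    have e : (a1 : ℂ) * (t : ℂ) + (a2 : ℂ) * (t : ℂ) ^ 2 + (a3 : ℂ) * (t : ℂ) ^ 3 +
        (a4 : ℂ) * (t : ℂ) ^ 4 = ((a1 * t + a2 * t ^ 2 + a3 * t ^ 3 + a4 * t ^ 4 : ℝ) : ℂ) := by
      push_cast
      ring
    rw [e, Complex.ofReal_re]

end Pool.Agent.FW
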