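import Pool.Agent.Helper155.FW.Defs

set_option autoImplicit false
open Filter Asymptotics Topology

namespace Pool.Agent.FW


noncomputable def uu (j : ℕ) : ℝ := 1 / ((j:ℝ)+1)^2

lemma uu_nonneg (j : ℕ) : 0 ≤ uu j := by unfold uu; positivity

lemma uu_le_one (j : ℕ) : uu j ≤ 1 := by
  unfold uu
  rw [div_le_one (by positivity)]
  have : (0:ℝ) ≤ j := Nat.cast_nonneg j
  nlinarith

lemma uu_sum (m : ℕ) : ∑ j ∈ Finset.range m, uu j ≤ 3 - 2 / ((m:ℝ)+1) := by
  induction m with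
  | zero => norm_num
  | succ m ih =>
    rw [Finset.sum_range_succ]
    unfold uu at *
    push_cast
    have hm : (0:ℝ) ≤ m := Nat.cast_nonneg m
    have : 1 / ((m:ℝ)+1)^2 ≤ 2 / ((m:ℝ)+1) - 2 / ((m:ℝ)+1+1) := by
      rw [div_sub_div _ _ (by positivity) (by positivity), div_le_div_iff₀ (by positivity) (by positivity)]
      nlinarith
    linarith

lemma g1_tele (D g : ℕ → ℝ) (m : ℕ) (B : ℝ) (hB : 0 ≤ B)
    (h : ∀ j < m, |D (j+1) - D j - g j| ≤ B * uu j) :
    ∀ k ≤ m, |D k - D 0 - ∑ j ∈ Finset.range k, g j| ≤ 3 * B := by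
  have key : ∀ k ≤ m, |D k - D 0 - ∑ j ∈ Finset.range k, g j| ≤ B * ∑ j ∈ Finset.range k, uu j := by
    intro k
    induction k with
    | zero => intro _; simp
    | succ k ih =>
      intro hk
      rw [Finset.sum_range_succ, Finset.sum_range_succ, mul_add]
      have h1 := ih (by omega)
      have h2 := h k (by omega)
      have h3 : D (k+1) - D 0 - (∑ j ∈ Finset.range k, g j + g k)
          = (D k - D 0 - ∑ j ∈ Finset.range k, g j) + (D (k+1) - D k - g k) := by ring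
      rw [h3]
      exact (abs_add_le _ _).trans (add_le_add h1 h2)
  intro k hk
  have h1 := key k hk
  have h2 := uu_sum k
  have h3 : (0:ℝ) ≤ 2 / ((k:ℝ)+1) := by positivity
  nlinarith

lemma gron (D : ℕ → ℝ) (m : ℕ) (α β : ℝ) (hα : 0 ≤ α) (hα' : α ≤ 1/12) (hβ : 0 ≤ β)
    (h : ∀ j < m, |D (j+1) - D j| ≤ (α * (|D j| + |D (j+1)|) + β) * uu j) :
    ∀ j ≤ m, |D j| ≤ 2 * |D 0| + 6 * β := by
  obtain ⟨k, hk, hmax⟩ := Finset.exists_max_image (Finset.range (m+1)) (fun j => |D j|) ⟨0, by simp⟩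
  rw [Finset.mem_range] at hk
  have hM : |D k| ≤ 2 * |D 0| + 6 * β := by
    have h1 : ∀ j < m, |D (j+1) - D j - (fun _ => (0:ℝ)) j| ≤ (2 * α * |D k| + β) * uu j := by
      intro j hj
      have h2 := hmax j (Finset.mem_range.mpr (by omega))
      have h3 := hmax (j+1) (Finset.mem_range.mpr (by omega))
      simp only [sub_zero]
      refine (h j hj).trans ?_
      apply mul_le_mul_of_nonneg_right _ (uu_nonneg j)
      have h4 : α * (|D j| + |D (j+1)|) ≤ α * (|D k| + |D k|) :=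
        mul_le_mul_of_nonneg_left (add_le_add h2 h3) hα
      linarith
    have h4 := g1_tele D (fun _ => 0) m (2 * α * |D k| + β) (by positivity) h1 k (by omega)
    simp only [Finset.sum_const_zero, sub_zero] at h4
    have h5 : |D k| ≤ |D k - D 0| + |D 0| := by
      have := abs_add_le (D k - D 0) (D 0)
      simpa using this
    nlinarith [abs_nonneg (D k)]
  intro j hj
  exact (hmax j (Finset.mem_range.mpr (by omega))).trans hM

lemma g1_rpow_neg_le_one' (n : ℕ) (x : ℝ) (hx : 0 ≤ x) : ((n:ℝ)+1)^(-x) ≤ 1 := by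
  have h1 : (1:ℝ) ≤ (n:ℝ) + 1 := by
    have : (0:ℝ) ≤ n := Nat.cast_nonneg n
    linarith
  exact Real.rpow_le_one_of_one_le_of_nonpos h1 (by linarith)

lemma rpow_two_uu (n : ℕ) : ((n:ℝ)+1)^(-(2:ℝ)) = uu n := by
  unfold uu
  rw [Real.rpow_neg (by positivity), one_div]
  norm_num

lemma rpow_73_uu (n : ℕ) : ((n:ℝ)+1)^(-(7/3:ℝ)) ≤ uu n := by
  rw [← rpow_two_uu]
  have h1 : (1:ℝ) ≤ (n:ℝ) + 1 := by
    have : (0:ℝ) ≤ n := Nat.cast_nonneg n
    linarith
  exact Real.rpow_le_rpow_of_exponent_le h1 (by norm_num)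

lemma h_bd {Q : Seqs} {K : ℝ} (hG : Good Q K) (n : ℕ) : |Q.h n| ≤ K * uu n := by
  have hK := hG.K1
  exact (hG.h n).trans (mul_le_mul_of_nonneg_left (rpow_73_uu n) (by linarith))

lemma e_bd {Q : Seqs} {K : ℝ} (hG : Good Q K) (m : ℕ) (t : ℝ) (ht : 0 < t) (ht1 : t ≤ 1/3)
    (hr : t * ((m:ℝ)+1)^(2/3:ℝ) ≤ 1/3) :
    0 < Q.e m t ∧ Q.e m t ≤ Real.exp (3*K) ∧ 1 / Q.e m t ≤ Real.exp (3*K) := by
  have hK := hG.K1
  have hm : (0:ℝ) ≤ m := Nat.cast_nonneg m
  have hN : 0 ≤ ((m:ℝ)+1)^(2/3:ℝ) := by positivity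
  set N := ((m:ℝ)+1)^(2/3:ℝ) with hNdef
  have hlog : Real.log ((m:ℝ)+1) ≤ (3/2) * N := by
    have := Real.log_le_rpow_div (x := (m:ℝ)+1) (ε := 2/3) (by positivity) (by norm_num)
    rw [← hNdef] at this
    linarith
  have hlog0 : 0 ≤ Real.log ((m:ℝ)+1) := Real.log_nonneg (by linarith)
  have hX0 : 0 ≤ Q.X m := by
    have := hG.Xl m
    by_contra hneg
    push Not at hneg
    have h2 : K * Q.X m < 0 := mul_neg_of_pos_of_neg (by linarith) hneg
    linarith
  have h1 : t * Q.X m ≤ K / 3 := by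
    have := hG.Xu m
    calc t * Q.X m ≤ t * (K * N) := mul_le_mul_of_nonneg_left this ht.le
      _ = K * (t * N) := by ring
      _ ≤ K * (1/3) := mul_le_mul_of_nonneg_left hr (by linarith)
      _ = K / 3 := by ring
  have h1' : 0 ≤ t * Q.X m := by positivity
  have h2 : |t^3 * Q.Y m| ≤ K := by
    rw [abs_mul, abs_of_pos (by positivity : (0:ℝ) < t^3)]
    have hY := hG.Yu m
    calc t^3 * |Q.Y m| ≤ t^3 * (K * (1 + Real.log ((m:ℝ)+1))) := mul_le_mul_of_nonneg_left hY (by positivity)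
      _ ≤ t^3 * (K * (1 + (3/2) * N)) := by
          apply mul_le_mul_of_nonneg_left _ (by positivity)
          apply mul_le_mul_of_nonneg_left _ (by linarith)
          linarith
      _ = K * (t^3 + (3/2) * t^2 * (t * N)) := by ring
      _ ≤ K * 1 := by
          apply mul_le_mul_of_nonneg_left _ (by linarith)
          have ht2 : t^2 ≤ 1/9 := by nlinarith
          have ht3 : t^3 ≤ 1/9 := by
            have : t^3 = t^2 * t := by ring
            nlinarith [sq_nonneg t]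
          have htN : 0 ≤ t * N := by positivity
          nlinarith [sq_nonneg t]
      _ = K := by ring
  have h3 : |t^5 * Q.W m| ≤ K := by
    rw [abs_mul, abs_of_pos (by positivity : (0:ℝ) < t^5)]
    have hW := hG.Wu m
    have ht5 : t^5 ≤ 1 := pow_le_one₀ ht.le (by linarith)
    calc t^5 * |Q.W m| ≤ 1 * K := mul_le_mul ht5 hW (abs_nonneg _) (by norm_num)
      _ = K := by ring
  have h4 := abs_le.mp h2
  have h5 := abs_le.mp h3
  unfold Seqs.e
  refine ⟨Real.exp_pos _, Real.exp_le_exp.mpr (by linarith [h4.1, h4.2, h5.1, h5.2]), ?_⟩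
  rw [one_div, ← Real.exp_neg]
  exact Real.exp_le_exp.mpr (by linarith [h4.1, h4.2, h5.1, h5.2])

lemma g1_abs_le_K {Q : Seqs} {K : ℝ} (hG : Good Q K) (n : ℕ) :
    |Q.A n| ≤ K ∧ |Q.b n| ≤ K ∧ |Q.c n| ≤ K ∧ |Q.d n| ≤ K ∧ |Q.g n| ≤ K := by
  have hK := hG.K1
  have key : ∀ x : ℝ, 0 ≤ x → K * ((n:ℝ)+1)^(-x) ≤ K := by
    intro x hx
    have := g1_rpow_neg_le_one' n x hx
    nlinarith
  exact ⟨(hG.A n).trans (key _ (by norm_num)), (hG.b n).trans (key _ (by norm_num)),
    (hG.c n).trans (key _ (by norm_num)), (hG.d n).trans (key _ (by norm_num)),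
    (hG.g n).trans (key _ (by norm_num))⟩

lemma poly_bd (K t A b c d g : ℝ) (hK : 0 ≤ K) (ht : 0 < t) (ht1 : t ≤ 1/3)
    (hA : |A| ≤ K) (hb : |b| ≤ K) (hc : |c| ≤ K) (hd : |d| ≤ K) (hg : |g| ≤ K) :
    |t * A + t^2 * b + t^3 * c + t^4 * d + t^5 * g| ≤ 2 * K * t := by
  have e1 : |t * A| ≤ t * K := by rw [abs_mul, abs_of_pos ht]; exact mul_le_mul_of_nonneg_left hA ht.le
  have p2 : t^2 ≤ t * (1/3) := by nlinarith
  have p3 : t^3 ≤ t * (1/9) := by
    have : t^3 = t * t^2 := by ring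
    nlinarith
  have p4 : t^4 ≤ t * (1/27) := by
    have : t^4 = t * t^3 := by ring
    nlinarith
  have p5 : t^5 ≤ t * (1/27) := by
    have : t^5 = t * t^4 := by ring
    nlinarith
  have e2 : |t^2 * b| ≤ t * (1/3) * K := by
    rw [abs_mul, abs_of_pos (by positivity : (0:ℝ) < t^2)]
    exact mul_le_mul p2 hb (abs_nonneg _) (by positivity)
  have e3 : |t^3 * c| ≤ t * (1/9) * K := by
    rw [abs_mul, abs_of_pos (by positivity : (0:ℝ) < t^3)]
    exact mul_le_mul p3 hc (abs_nonneg _) (by positivity)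
  have e4 : |t^4 * d| ≤ t * (1/27) * K := by
    rw [abs_mul, abs_of_pos (by positivity : (0:ℝ) < t^4)]
    exact mul_le_mul p4 hd (abs_nonneg _) (by positivity)
  have e5 : |t^5 * g| ≤ t * (1/27) * K := by
    rw [abs_mul, abs_of_pos (by positivity : (0:ℝ) < t^5)]
    exact mul_le_mul p5 hg (abs_nonneg _) (by positivity)
  have htK : 0 ≤ t * K := by positivity
  rw [abs_le] at *
  constructor <;> nlinarith

lemma om_bd {Q : Seqs} {K : ℝ} (hG : Good Q K) (m : ℕ) (t : ℝ) (ht : 0 < t) (ht1 : 4 * K * t ≤ 1) :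
    1 ≤ Q.om m t ∧ |Q.om m t - 2| ≤ 12 * K^2 * t^2 := by
  have hK := hG.K1
  have ht2 : t ≤ 1/3 := by nlinarith
  obtain ⟨hA, hb, hc, hd, hg⟩ := g1_abs_le_K hG (m+1)
  have d1 : |Q.del (m+1) t| ≤ 2 * K * t := by
    unfold Seqs.del
    exact poly_bd K t _ _ _ _ _ (by linarith) ht ht2 hA hb hc hd hg
  have d2 : |Q.delp (m+1) t| ≤ 2 * K * t := by
    unfold Seqs.delp
    have := poly_bd K t (Q.A (m+1)) (-Q.b (m+1)) (Q.c (m+1)) (-Q.d (m+1)) (Q.g (m+1)) (by linarith) ht ht2 hA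
      (by rwa [abs_neg]) hc (by rwa [abs_neg]) hg
    convert this using 2
    ring
  have d3 : |Q.delp (m+1) t - Q.del (m+1) t| ≤ 4 * K * t^2 := by
    have : Q.delp (m+1) t - Q.del (m+1) t = -(2 * t^2 * (Q.b (m+1) + t^2 * Q.d (m+1))) := by
      unfold Seqs.del Seqs.delp; ring
    rw [this, abs_neg, abs_mul, abs_of_pos (by positivity : (0:ℝ) < 2 * t^2)]
    have h1 : |Q.b (m+1) + t^2 * Q.d (m+1)| ≤ K + t^2 * K := by
      refine (abs_add_le _ _).trans (add_le_add hb ?_)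
      rw [abs_mul, abs_of_pos (by positivity : (0:ℝ) < t^2)]
      exact mul_le_mul_of_nonneg_left hd (by positivity)
    have h2 : t^2 ≤ 1 := by nlinarith
    have h3 : t^2 * K ≤ K := by nlinarith
    calc 2 * t^2 * |Q.b (m+1) + t^2 * Q.d (m+1)| ≤ 2 * t^2 * (2 * K) :=
          mul_le_mul_of_nonneg_left (by linarith) (by positivity)
      _ = 4 * K * t^2 := by ring
  have hx : 2 * K * t ≤ 1/2 := by linarith
  have l1 : |Real.exp (Q.delp (m+1) t) - 1 - Q.delp (m+1) t| ≤ (Q.delp (m+1) t)^2 :=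
    Real.abs_exp_sub_one_sub_id_le (by linarith)
  have l2 : |Real.exp (-Q.del (m+1) t) - 1 - (-Q.del (m+1) t)| ≤ (-Q.del (m+1) t)^2 :=
    Real.abs_exp_sub_one_sub_id_le (by rw [abs_neg]; linarith)
  have s1 : (Q.delp (m+1) t)^2 ≤ 4 * K^2 * t^2 := by
    have : (Q.delp (m+1) t)^2 ≤ (2 * K * t)^2 := sq_le_sq' (by linarith [abs_le.mp d2]) (abs_le.mp d2).2
    linarith [this, (by ring : (2 * K * t)^2 = 4 * K^2 * t^2)]
  have s2 : (-Q.del (m+1) t)^2 ≤ 4 * K^2 * t^2 := by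
    have : (-Q.del (m+1) t)^2 ≤ (2 * K * t)^2 :=
      sq_le_sq' (by linarith [abs_le.mp d1]) (by linarith [abs_le.mp d1])
    linarith [this, (by ring : (2 * K * t)^2 = 4 * K^2 * t^2)]
  constructor
  · unfold Seqs.om
    have a1 := Real.add_one_le_exp (Q.delp (m+1) t)
    have a2 := Real.add_one_le_exp (-Q.del (m+1) t)
    linarith [abs_le.mp d1, abs_le.mp d2]
  · unfold Seqs.om
    have hKt : 4 * K * t^2 ≤ 4 * K^2 * t^2 := by
      have : K ≤ K^2 := by nlinarith
      nlinarith [sq_nonneg t]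
    have a1 := abs_le.mp l1
    have a2 := abs_le.mp l2
    have a3 := abs_le.mp d3
    rw [abs_le]
    constructor <;> linarith [a1.1, a1.2, a2.1, a2.2, a3.1, a3.2]

lemma p_bd {Q : Seqs} {K : ℝ} (hG : Good Q K) (m : ℕ) (t : ℝ) (ht : 0 < t) (ht1 : 4 * K * t ≤ 1) :
    |Q.p m t| ≤ K * t * uu m ∧ |2 * Q.p m t - t * Q.h m| ≤ 12 * K^3 * t^3 * uu m := by
  have hK := hG.K1
  obtain ⟨o1, o2⟩ := om_bd hG m t ht ht1
  have hh := h_bd hG m
  have hu := uu_nonneg m
  have opos : 0 < Q.om m t := by linarith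
  constructor
  · unfold Seqs.p
    rw [abs_div, abs_mul, abs_of_pos ht, abs_of_pos opos, div_le_iff₀ opos]
    calc t * |Q.h m| ≤ t * (K * uu m) := mul_le_mul_of_nonneg_left hh ht.le
      _ = K * t * uu m * 1 := by ring
      _ ≤ K * t * uu m * Q.om m t := mul_le_mul_of_nonneg_left o1 (by positivity)
  · have : 2 * Q.p m t - t * Q.h m = t * Q.h m * (2 - Q.om m t) / Q.om m t := by
      unfold Seqs.p
      field_simp
    rw [this, abs_div, abs_of_pos opos, div_le_iff₀ opos, abs_mul, abs_mul, abs_of_pos ht, abs_sub_comm]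
    calc t * |Q.h m| * |Q.om m t - 2| ≤ t * (K * uu m) * (12 * K^2 * t^2) :=
          mul_le_mul (mul_le_mul_of_nonneg_left hh ht.le) o2 (abs_nonneg _) (by positivity)
      _ = 12 * K^3 * t^3 * uu m * 1 := by ring
      _ ≤ 12 * K^3 * t^3 * uu m * Q.om m t := mul_le_mul_of_nonneg_left o1 (by positivity)

/-! ## TARGETS (prove these) -/

/-- the difference `ζ - y` carries the logarithms -/
theorem compare (Q : Seqs) (K : ℝ) (hG : Good Q K) (ζ : ℕ → ℝ → ℝ) (K1 t1 : ℝ)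
    (hZ : ZF Q ζ K1 t1) (hC : Crude ζ K1 t1) (y : ℕ → ℝ → ℝ) (z1 z2 z3 z4 : ℕ → ℝ) (K2 c2 : ℝ)
    (hY : YF Q y z1 z2 z3 z4 K2 c2) (q a K3 : ℝ)
    (h0 : ∀ t : ℝ, 0 < t → t ≤ t1 →
      |ζ 0 t - y 0 t - (q * t ^ 3 * Real.log t + a * t ^ 4 * Real.log t)|
        ≤ K3 * t ^ 5 * |Real.log t|) :
    ∃ K' c' t0 : ℝ, 0 < K' ∧ 0 < c' ∧ c' ≤ c2 ∧ 0 < t0 ∧ t0 ≤ t1 ∧
      ∀ (m : ℕ) (t : ℝ), 0 < t → t ≤ t0 → t * ((m : ℝ) + 1) ^ (2 / 3 : ℝ) ≤ c' →
        |ζ m t - y m t - (q * t ^ 3 * Real.log t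
            + (a + q * ∑ j ∈ Finset.range m, (-1) ^ j * Q.h j) * t ^ 4 * Real.log t)|
          ≤ K' * t ^ 5 * |Real.log t| := by
  have hK := hG.K1
  have hK1 := hZ.K1
  have hK2 := hY.K1
  have ht1 := hZ.t0pos
  have ht13 := hZ.t01
  have hc2 := hY.cpos
  have hc23 := hY.c1
  -- log bound
  have hlog : ∀ t : ℝ, 0 < t → t ≤ 1/3 → 1 ≤ |Real.log t| := by
    intro t ht ht3
    have h3 : Real.log t ≤ Real.log (1/3) := Real.log_le_log ht ht3
    have h4 : Real.log (1/3) = - Real.log 3 := by rw [one_div, Real.log_inv]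
    have h5 : 1 ≤ Real.log 3 := by
      rw [Real.le_log_iff_exp_le (by norm_num)]
      exact (Real.exp_one_lt_d9.trans (by norm_num)).le
    rw [abs_of_nonpos (by linarith)]
    linarith
  have hK3 : 0 ≤ K3 := by
    have h1 := h0 t1 ht1 le_rfl
    have h2 := hlog t1 ht1 ht13
    have h3 : 0 ≤ K3 * t1^5 * |Real.log t1| := (abs_nonneg _).trans h1
    by_contra hneg
    push Not at hneg
    have : K3 * (t1^5 * |Real.log t1|) < 0 := mul_neg_of_neg_of_pos hneg (by positivity)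
    nlinarith
  set E := Real.exp (3*K) with hE
  have hE1 : 1 ≤ E := Real.one_le_exp (by linarith)
  set C1 := K * (1 + E * (2*K1 + K2)) with hC1
  have hC1K : K ≤ C1 := by
    rw [hC1]
    have : 0 ≤ E * (2*K1+K2) := by positivity
    nlinarith
  have hC1pos : 0 < C1 := by linarith
  set t0 := min t1 (1 / (12 * C1)) with ht0
  have ht0pos : 0 < t0 := lt_min ht1 (by positivity)
  set Q0 := |q| + |a| + K3 with hQ0
  have hQ00 : 0 ≤ Q0 := by positivity
  set M1 := 2 * Q0 + 6 * (K1 * E) with hM1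
  have hM10 : 0 ≤ M1 := by positivity
  set M2 := 3 * (2 * C1 * M1 + K1 * E) with hM2
  have hM20 : 0 ≤ M2 := by positivity
  set M3 := K * (2 * M2) + 12 * K^3 * M1 + K * E * (2*K1+K2) * (2 * M1) + K1 * E with hM3
  have hM30 : 0 ≤ M3 := by positivity
  refine ⟨3 * M3 + 3 * K * |a| + K3 * (1 + 3 * K) + 1, c2, t0, by positivity, hc2, le_rfl, ht0pos,
    min_le_left _ _, ?_⟩
  intro m t ht htt0 hr
  have htt1 : t ≤ t1 := htt0.trans (min_le_left _ _)
  have ht3 : t ≤ 1/3 := htt1.trans ht13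
  have htC : 12 * C1 * t ≤ 1 := by
    have := htt0.trans (min_le_right _ _)
    rw [le_div_iff₀ (by positivity)] at this
    linarith
  have ht4K : 4 * K * t ≤ 1 := by nlinarith
  set l := |Real.log t| with hl
  have hl1 : 1 ≤ l := hlog t ht ht3
  set D : ℕ → ℝ := fun j => ζ j t - y j t with hD
  -- region facts
  have hreg : ∀ j, j ≤ m → t * ((j:ℝ)+1)^(2/3:ℝ) ≤ c2 := by
    intro j hj
    refine le_trans ?_ hr
    apply mul_le_mul_of_nonneg_left _ ht.le
    apply Real.rpow_le_rpow (by positivity) _ (by norm_num)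
    have : (j:ℝ) ≤ m := by exact_mod_cast hj
    linarith
  have hreg2 : ∀ j, j < m → t * ((j:ℝ)+2)^(2/3:ℝ) ≤ c2 := by
    intro j hj
    have := hreg (j+1) hj
    push_cast at this
    have e : (j:ℝ) + 2 = (j:ℝ) + 1 + 1 := by ring
    rw [e]; exact this
  have tp : ∀ n : ℕ, 0 < t^n := fun n => by positivity
  have t6 : t^6 ≤ t := by
    have : t^6 = t^5 * t := by ring
    have h5 : t^5 ≤ 1 := pow_le_one₀ ht.le (by linarith)
    nlinarith
  have hζb : ∀ j, |ζ j t| ≤ 2 * K1 * t := by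
    intro j
    have h1 := hC j t ht htt1
    have h2 := g1_rpow_neg_le_one' j (4/3) (by norm_num)
    have h3 : t * ((j:ℝ)+1)^(-(4/3:ℝ)) ≤ t * 1 := mul_le_mul_of_nonneg_left h2 ht.le
    calc |ζ j t| ≤ K1 * (t * ((j:ℝ)+1)^(-(4/3:ℝ)) + t^6) := h1
      _ ≤ K1 * (t * 1 + t) := mul_le_mul_of_nonneg_left (add_le_add h3 t6) (by linarith)
      _ = 2 * K1 * t := by ring
  have hyb : ∀ j, j ≤ m → |y j t| ≤ K2 * t := fun j hj => hY.bd j t ht (hreg j hj)
  -- recursion for D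
  have hrec : ∀ j, j < m → ∃ R : ℝ, |R| ≤ K1 * E * t^6 * uu j ∧
      D (j+1) - D j = (-1)^j * Q.p j t * (D j + D (j+1))
        + Q.p j t / Q.e j t * (ζ j t * D (j+1) + D j * y (j+1) t) + R := by
    intro j hj
    obtain ⟨epos, eu, el⟩ := e_bd hG j t ht ht3 ((hreg j hj.le).trans hc23)
    have h1 := hZ.step j t ht htt1
    have h2 := hY.step j t ht (hreg2 j hj)
    refine ⟨ζ (j+1) t - ζ j t - (Q.e j t * Q.p j t + (-1)^j * Q.p j t * (ζ j t + ζ (j+1) t)
        + Q.p j t * ζ j t * ζ (j+1) t / Q.e j t), ?_, ?_⟩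
    · refine h1.trans ?_
      rw [rpow_two_uu]
      apply mul_le_mul_of_nonneg_right _ (uu_nonneg j)
      calc K1 * t^6 * Q.e j t ≤ K1 * t^6 * E := mul_le_mul_of_nonneg_left eu (by positivity)
        _ = K1 * E * t^6 := by ring
    · simp only [hD]
      have h3 : ζ (j+1) t - y (j+1) t - (ζ j t - y j t) = (ζ (j+1) t - ζ j t) - (y (j+1) t - y j t) := by ring
      rw [h3, h2]
      ring
  have hpe : ∀ j, j < m → |Q.p j t / Q.e j t| ≤ K * E * t * uu j := by
    intro j hj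
    obtain ⟨epos, eu, el⟩ := e_bd hG j t ht ht3 ((hreg j hj.le).trans hc23)
    have hp := (p_bd hG j t ht ht4K).1
    rw [div_eq_mul_one_div, abs_mul, abs_of_pos (by positivity : 0 < 1 / Q.e j t)]
    calc |Q.p j t| * (1 / Q.e j t) ≤ K * t * uu j * E :=
          mul_le_mul hp el (by positivity) (mul_nonneg (by positivity) (uu_nonneg j))
      _ = K * E * t * uu j := by ring
  have hquad : ∀ j, j < m → |Q.p j t / Q.e j t * (ζ j t * D (j+1) + D j * y (j+1) t)|
      ≤ K * E * (2*K1+K2) * t^2 * (|D j| + |D (j+1)|) * uu j := by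
    intro j hj
    rw [abs_mul]
    have h1 : |ζ j t * D (j+1) + D j * y (j+1) t| ≤ (2*K1+K2) * t * (|D j| + |D (j+1)|) := by
      refine (abs_add_le _ _).trans ?_
      rw [abs_mul, abs_mul]
      have a1 : |ζ j t| * |D (j+1)| ≤ 2 * K1 * t * |D (j+1)| := mul_le_mul_of_nonneg_right (hζb j) (abs_nonneg _)
      have a2 : |D j| * |y (j+1) t| ≤ |D j| * (K2 * t) := mul_le_mul_of_nonneg_left (hyb (j+1) hj) (abs_nonneg _)
      have a3 : 0 ≤ K2 * t * |D (j+1)| := by positivity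
      have a4 : 0 ≤ 2 * K1 * t * |D j| := by positivity
      nlinarith
    calc |Q.p j t / Q.e j t| * |ζ j t * D (j+1) + D j * y (j+1) t|
        ≤ (K * E * t * uu j) * ((2*K1+K2) * t * (|D j| + |D (j+1)|)) :=
          mul_le_mul (hpe j hj) h1 (abs_nonneg _) (mul_nonneg (by positivity) (uu_nonneg j))
      _ = K * E * (2*K1+K2) * t^2 * (|D j| + |D (j+1)|) * uu j := by ring
  have hsgn : ∀ j : ℕ, |((-1:ℝ))^j| = 1 := fun j => by simp
  -- first bound
  have hstep : ∀ j, j < m → |D (j+1) - D j| ≤ (C1 * t * (|D j| + |D (j+1)|) + K1 * E * t^6) * uu j := by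
    intro j hj
    obtain ⟨R, hR, hrec'⟩ := hrec j hj
    have hp := (p_bd hG j t ht ht4K).1
    have hq := hquad j hj
    have hu := uu_nonneg j
    rw [hrec']
    have a1 : |(-1)^j * Q.p j t * (D j + D (j+1))| ≤ K * t * uu j * (|D j| + |D (j+1)|) := by
      rw [abs_mul, abs_mul, hsgn, one_mul]
      exact mul_le_mul hp (abs_add_le _ _) (abs_nonneg _) (mul_nonneg (by positivity) hu)
    have a2 : K * E * (2*K1+K2) * t^2 * (|D j| + |D (j+1)|) * uu j
        ≤ K * E * (2*K1+K2) * t * (|D j| + |D (j+1)|) * uu j := by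
      apply mul_le_mul_of_nonneg_right _ hu
      apply mul_le_mul_of_nonneg_right _ (by positivity)
      apply mul_le_mul_of_nonneg_left _ (by positivity)
      nlinarith
    refine (abs_add_le _ _).trans ?_
    refine (add_le_add (abs_add_le _ _) hR).trans ?_
    have a3 : (C1 * t * (|D j| + |D (j+1)|) + K1 * E * t^6) * uu j
        = K * t * uu j * (|D j| + |D (j+1)|) + K * E * (2*K1+K2) * t * (|D j| + |D (j+1)|) * uu j
          + K1 * E * t^6 * uu j := by
      rw [hC1]; ring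
    rw [a3]
    linarith
  have hDm := gron D m (C1 * t) (K1 * E * t^6) (by positivity) (by linarith) (by positivity) hstep
  have t36 : t^6 ≤ t^3 * l := by
    have : t^6 = t^3 * t^3 := by ring
    have h3 : t^3 ≤ 1 := pow_le_one₀ ht.le (by linarith)
    have h4 : t^3 ≤ l := h3.trans hl1
    nlinarith [tp 3]
  have t46 : t^6 ≤ t^4 * l := by
    have : t^6 = t^4 * t^2 := by ring
    have h3 : t^2 ≤ 1 := pow_le_one₀ ht.le (by linarith)
    have h4 : t^2 ≤ l := h3.trans hl1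
    nlinarith [tp 4]
  have t56 : t^6 ≤ t^5 * l := by
    have : t^6 = t^5 * t := by ring
    have h4 : t ≤ l := by linarith
    nlinarith [tp 5]
  have hD0 : |D 0| ≤ Q0 * (t^3 * l) := by
    have h1 := h0 t ht htt1
    have h2 : D 0 = (ζ 0 t - y 0 t - (q * t ^ 3 * Real.log t + a * t ^ 4 * Real.log t))
        + (q * t ^ 3 * Real.log t + a * t ^ 4 * Real.log t) := by simp only [hD]; ring
    have h3 : |q * t^3 * Real.log t| = |q| * (t^3 * l) := by
      rw [abs_mul, abs_mul, abs_of_pos (tp 3)]; ring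
    have h4 : |a * t^4 * Real.log t| ≤ |a| * (t^3 * l) := by
      rw [abs_mul, abs_mul, abs_of_pos (tp 4)]
      have : t^4 ≤ t^3 := by
        have : t^4 = t^3 * t := by ring
        nlinarith [tp 3]
      calc |a| * t^4 * l ≤ |a| * t^3 * l :=
            mul_le_mul_of_nonneg_right (mul_le_mul_of_nonneg_left this (abs_nonneg _)) (by linarith)
        _ = |a| * (t^3 * l) := by ring
    have h5 : K3 * t^5 * l ≤ K3 * (t^3 * l) := by
      have : t^5 ≤ t^3 := by
        have h6 : t^5 = t^3 * t^2 := by ring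
        have h7 : t^2 ≤ 1 := pow_le_one₀ ht.le (by linarith)
        nlinarith [tp 3]
      calc K3 * t^5 * l ≤ K3 * t^3 * l :=
            mul_le_mul_of_nonneg_right (mul_le_mul_of_nonneg_left this hK3) (by linarith)
        _ = K3 * (t^3 * l) := by ring
    rw [h2]
    refine (abs_add_le _ _).trans ?_
    refine (add_le_add h1 (abs_add_le _ _)).trans ?_
    rw [h3, hQ0]
    linarith
  have hM1b : ∀ j, j ≤ m → |D j| ≤ M1 * (t^3 * l) := by
    intro j hj
    refine (hDm j hj).trans ?_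
    have h1 : K1 * E * t^6 ≤ K1 * E * (t^3 * l) := mul_le_mul_of_nonneg_left t36 (by positivity)
    rw [hM1]
    nlinarith
  have hstep2 : ∀ j, j < m → |D (j+1) - D j - (fun _ => (0:ℝ)) j| ≤ ((2 * C1 * M1 + K1 * E) * (t^4 * l)) * uu j := by
    intro j hj
    simp only [sub_zero]
    refine (hstep j hj).trans (mul_le_mul_of_nonneg_right ?_ (uu_nonneg j))
    have h1 := hM1b j hj.le
    have h2 := hM1b (j+1) hj
    have h3 : C1 * t * (|D j| + |D (j+1)|) ≤ C1 * t * (2 * (M1 * (t^3 * l))) :=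
      mul_le_mul_of_nonneg_left (by linarith) (by positivity)
    have h4 : K1 * E * t^6 ≤ K1 * E * (t^4 * l) := mul_le_mul_of_nonneg_left t46 (by positivity)
    have h5 : C1 * t * (2 * (M1 * (t^3 * l))) = 2 * C1 * M1 * (t^4 * l) := by ring
    linarith
  have hM2b : ∀ j, j ≤ m → |D j - D 0| ≤ M2 * (t^4 * l) := by
    intro j hj
    have := g1_tele D (fun _ => 0) m ((2 * C1 * M1 + K1 * E) * (t^4 * l)) (by positivity) hstep2 j hj
    simp only [Finset.sum_const_zero, sub_zero] at this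
    refine this.trans (le_of_eq ?_)
    rw [hM2]; ring
  have hstep3 : ∀ j, j < m → |D (j+1) - D j - (fun i => (-1)^i * Q.h i * (t * D 0)) j| ≤ (M3 * (t^5 * l)) * uu j := by
    intro j hj
    simp only
    obtain ⟨R, hR, hrec'⟩ := hrec j hj
    obtain ⟨hp, hp2⟩ := p_bd hG j t ht ht4K
    have hq := hquad j hj
    have hu := uu_nonneg j
    have h1 := hM1b j hj.le
    have h2 := hM1b (j+1) hj
    have h3 := hM2b j hj.le
    have h4 := hM2b (j+1) hj
    have h00 := hM1b 0 (Nat.zero_le _)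
    have e1 : D (j+1) - D j - (-1)^j * Q.h j * (t * D 0)
        = (-1)^j * (Q.p j t * ((D j - D 0) + (D (j+1) - D 0))) + (-1)^j * ((2 * Q.p j t - t * Q.h j) * D 0)
          + Q.p j t / Q.e j t * (ζ j t * D (j+1) + D j * y (j+1) t) + R := by
      rw [hrec']; ring
    rw [e1]
    have a1 : |(-1)^j * (Q.p j t * ((D j - D 0) + (D (j+1) - D 0)))| ≤ K * t * uu j * (2 * (M2 * (t^4 * l))) := by
      rw [abs_mul, hsgn, one_mul, abs_mul]
      exact mul_le_mul hp ((abs_add_le _ _).trans (by linarith)) (abs_nonneg _) (mul_nonneg (by positivity) hu)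
    have a2 : |(-1)^j * ((2 * Q.p j t - t * Q.h j) * D 0)| ≤ 12 * K^3 * t^3 * uu j * (M1 * (t^3 * l)) := by
      rw [abs_mul, hsgn, one_mul, abs_mul]
      exact mul_le_mul hp2 h00 (abs_nonneg _) (mul_nonneg (by positivity) hu)
    have a3 : K * E * (2*K1+K2) * t^2 * (|D j| + |D (j+1)|) * uu j
        ≤ K * E * (2*K1+K2) * t^2 * (2 * (M1 * (t^3 * l))) * uu j := by
      apply mul_le_mul_of_nonneg_right _ hu
      exact mul_le_mul_of_nonneg_left (by linarith) (by positivity)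
    -- final
    have b2 : 12 * K^3 * t^3 * uu j * (M1 * (t^3 * l)) ≤ 12 * K^3 * M1 * (t^5 * l) * uu j := by
      have : t^6 ≤ t^5 := by
        have h6 : t^6 = t^5 * t := by ring
        nlinarith [tp 5]
      calc 12 * K^3 * t^3 * uu j * (M1 * (t^3 * l)) = 12 * K^3 * M1 * (t^6 * l) * uu j := by ring
        _ ≤ 12 * K^3 * M1 * (t^5 * l) * uu j := by
          apply mul_le_mul_of_nonneg_right _ hu
          apply mul_le_mul_of_nonneg_left _ (by positivity)
          exact mul_le_mul_of_nonneg_right this (by linarith)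
    have b4 : K1 * E * t^6 * uu j ≤ K1 * E * (t^5 * l) * uu j :=
      mul_le_mul_of_nonneg_right (mul_le_mul_of_nonneg_left t56 (by positivity)) hu
    have c1 := abs_add_le ((-1)^j * (Q.p j t * ((D j - D 0) + (D (j+1) - D 0)))
      + (-1)^j * ((2 * Q.p j t - t * Q.h j) * D 0)
      + Q.p j t / Q.e j t * (ζ j t * D (j+1) + D j * y (j+1) t)) R
    have c2' := abs_add_le ((-1)^j * (Q.p j t * ((D j - D 0) + (D (j+1) - D 0)))
      + (-1)^j * ((2 * Q.p j t - t * Q.h j) * D 0))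
      (Q.p j t / Q.e j t * (ζ j t * D (j+1) + D j * y (j+1) t))
    have c3 := abs_add_le ((-1)^j * (Q.p j t * ((D j - D 0) + (D (j+1) - D 0))))
      ((-1)^j * ((2 * Q.p j t - t * Q.h j) * D 0))
    have hfin : (M3 * (t^5 * l)) * uu j = K * t * uu j * (2 * (M2 * (t^4 * l)))
        + 12 * K^3 * M1 * (t^5 * l) * uu j
        + K * E * (2*K1+K2) * t^2 * (2 * (M1 * (t^3 * l))) * uu j
        + K1 * E * (t^5 * l) * uu j := by
      rw [hM3]; ring
    rw [hfin]
    linarith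
  have hfin3 := g1_tele D (fun i => (-1)^i * Q.h i * (t * D 0)) m (M3 * (t^5 * l)) (by positivity) hstep3 m le_rfl
  set H := ∑ j ∈ Finset.range m, (-1)^j * Q.h j with hH
  have hHsum : ∑ j ∈ Finset.range m, (fun i => (-1)^i * Q.h i * (t * D 0)) j = H * (t * D 0) := by
    rw [hH, Finset.sum_mul]
  rw [hHsum] at hfin3
  have hHb : |H| ≤ 3 * K := by
    rw [hH]
    refine (Finset.abs_sum_le_sum_abs _ _).trans ?_
    have h1 : ∀ j ∈ Finset.range m, |(-1)^j * Q.h j| ≤ K * uu j := by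
      intro j _
      rw [abs_mul, hsgn, one_mul]
      exact h_bd hG j
    refine (Finset.sum_le_sum h1).trans ?_
    rw [← Finset.mul_sum]
    have h2 := uu_sum m
    have h3 : (0:ℝ) ≤ 2 / ((m:ℝ)+1) := by positivity
    nlinarith
  have hr0 := h0 t ht htt1
  set r := ζ 0 t - y 0 t - (q * t ^ 3 * Real.log t + a * t ^ 4 * Real.log t) with hrdef
  have hD0' : D 0 = q * t ^ 3 * Real.log t + a * t ^ 4 * Real.log t + r := by
    simp only [hD, hrdef]; ring
  have hgoal : ζ m t - y m t - (q * t ^ 3 * Real.log t + (a + q * H) * t ^ 4 * Real.log t)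
      = (D m - D 0 - H * (t * D 0)) + (a * H * (t^5 * Real.log t) + r * (1 + t * H)) := by
    have : ζ m t - y m t = D m := rfl
    rw [this, hD0']
    ring
  rw [hgoal]
  refine (abs_add_le _ _).trans ?_
  refine (add_le_add hfin3 (abs_add_le _ _)).trans ?_
  have g1 : |a * H * (t^5 * Real.log t)| ≤ 3 * K * |a| * (t^5 * l) := by
    rw [abs_mul, abs_mul, abs_mul, abs_of_pos (tp 5)]
    calc |a| * |H| * (t^5 * l) ≤ |a| * (3 * K) * (t^5 * l) :=
          mul_le_mul_of_nonneg_right (mul_le_mul_of_nonneg_left hHb (abs_nonneg _)) (by positivity)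
      _ = 3 * K * |a| * (t^5 * l) := by ring
  have g2 : |r * (1 + t * H)| ≤ K3 * (1 + 3 * K) * (t^5 * l) := by
    rw [abs_mul]
    have h1 : |1 + t * H| ≤ 1 + 3 * K := by
      refine (abs_add_le _ _).trans ?_
      rw [abs_one, abs_mul, abs_of_pos ht]
      have : t * |H| ≤ 1 * (3 * K) := mul_le_mul (by linarith) hHb (abs_nonneg _) (by norm_num)
      linarith
    calc |r| * |1 + t * H| ≤ (K3 * t^5 * l) * (1 + 3 * K) :=
          mul_le_mul hr0 h1 (abs_nonneg _) (by positivity)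
      _ = K3 * (1 + 3 * K) * (t^5 * l) := by ring
  have g3 : (3 * M3 + 3 * K * |a| + K3 * (1 + 3 * K) + 1) * t^5 * l
      = 3 * (M3 * (t^5 * l)) + (3 * K * |a| * (t^5 * l) + K3 * (1 + 3 * K) * (t^5 * l)) + t^5 * l := by ring
  rw [g3]
  have g4 : 0 ≤ t^5 * l := by positivity
  linarith


end Pool.Agent.FW
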