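import Pool.Agent.Helper155.FW.Defs

set_option autoImplicit false
open Filter Asymptotics Topology

namespace Pool.Agent.FW

/-! ## TARGETS (prove these) -/

theorem zx_lim {z A C t0 : ℝ} (ht0 : 0 < t0) (h : ∀ t, 0 < t → t ≤ t0 → z ≤ A + C * t) :
    z ≤ A := by
  apply le_of_forall_pos_le_add
  intro ε hε
  have hC : 0 < |C| + 1 := by positivity
  have ht : 0 < min t0 (ε / (|C| + 1)) := lt_min ht0 (by positivity)
  refine (h _ ht (min_le_left _ _)).trans ?_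
  have h1 : C * min t0 (ε / (|C| + 1)) ≤ (|C| + 1) * min t0 (ε / (|C| + 1)) := by
    apply mul_le_mul_of_nonneg_right _ ht.le
    linarith [le_abs_self C]
  have h2 : (|C| + 1) * min t0 (ε / (|C| + 1)) ≤ (|C| + 1) * (ε / (|C| + 1)) :=
    mul_le_mul_of_nonneg_left (min_le_right _ _) hC.le
  have h3 : (|C| + 1) * (ε / (|C| + 1)) = ε := by field_simp
  linarith

/-- triangle inequality for one coefficient of the expansion -/
theorem zx_tri1 {ζ z1 z2 z3 z4 w4 q t L B : ℝ} (ht : 0 < t)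
    (hex : |ζ - (z1 * t + z2 * t ^ 2 + (z3 + q * L) * t ^ 3 + (z4 + w4 * L) * t ^ 4)| ≤ B) :
    |z1| * t ≤ |ζ| + |z2| * t ^ 2 + (|z3| + |q| * |L|) * t ^ 3 + (|z4| + |w4| * |L|) * t ^ 4 + B := by
  have h1 : |z1| * t = |z1 * t| := by rw [abs_mul, abs_of_pos ht]
  have h2 : |z2| * t ^ 2 = |z2 * t ^ 2| := by rw [abs_mul, abs_of_pos (pow_pos ht 2)]
  have h3 : |(z3 + q * L) * t ^ 3| ≤ (|z3| + |q| * |L|) * t ^ 3 := by
    rw [abs_mul, abs_of_pos (pow_pos ht 3)]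
    apply mul_le_mul_of_nonneg_right _ (pow_pos ht 3).le
    rw [← abs_mul]
    exact abs_add_le _ _
  have h4 : |(z4 + w4 * L) * t ^ 4| ≤ (|z4| + |w4| * |L|) * t ^ 4 := by
    rw [abs_mul, abs_of_pos (pow_pos ht 4)]
    apply mul_le_mul_of_nonneg_right _ (pow_pos ht 4).le
    rw [← abs_mul]
    exact abs_add_le _ _
  rw [h1, h2]
  rw [abs_le] at hex
  rw [abs_le'] 
  constructor
  · have a1 := le_abs_self ζ
    have a2 := neg_abs_le (z2 * t ^ 2)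
    have a3 := neg_abs_le ((z3 + q * L) * t ^ 3)
    have a4 := neg_abs_le ((z4 + w4 * L) * t ^ 4)
    linarith [hex.1]
  · have a1 := neg_abs_le ζ
    have a2 := le_abs_self (z2 * t ^ 2)
    have a3 := le_abs_self ((z3 + q * L) * t ^ 3)
    have a4 := le_abs_self ((z4 + w4 * L) * t ^ 4)
    linarith [hex.2]

theorem zx_tri2 {ζ z1 z2 z3 z4 w4 q t L B : ℝ} (ht : 0 < t)
    (hex : |ζ - (z1 * t + z2 * t ^ 2 + (z3 + q * L) * t ^ 3 + (z4 + w4 * L) * t ^ 4)| ≤ B) :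
    |z2| * t ^ 2 ≤ |ζ| + |z1| * t + (|z3| + |q| * |L|) * t ^ 3 + (|z4| + |w4| * |L|) * t ^ 4 + B := by
  have h1 : |z1| * t = |z1 * t| := by rw [abs_mul, abs_of_pos ht]
  have h2 : |z2| * t ^ 2 = |z2 * t ^ 2| := by rw [abs_mul, abs_of_pos (pow_pos ht 2)]
  have h3 : |(z3 + q * L) * t ^ 3| ≤ (|z3| + |q| * |L|) * t ^ 3 := by
    rw [abs_mul, abs_of_pos (pow_pos ht 3)]
    apply mul_le_mul_of_nonneg_right _ (pow_pos ht 3).le
    rw [← abs_mul]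
    exact abs_add_le _ _
  have h4 : |(z4 + w4 * L) * t ^ 4| ≤ (|z4| + |w4| * |L|) * t ^ 4 := by
    rw [abs_mul, abs_of_pos (pow_pos ht 4)]
    apply mul_le_mul_of_nonneg_right _ (pow_pos ht 4).le
    rw [← abs_mul]
    exact abs_add_le _ _
  rw [h1, h2]
  rw [abs_le] at hex
  rw [abs_le']
  constructor
  · have a1 := le_abs_self ζ
    have a2 := neg_abs_le (z1 * t)
    have a3 := neg_abs_le ((z3 + q * L) * t ^ 3)
    have a4 := neg_abs_le ((z4 + w4 * L) * t ^ 4)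
    linarith [hex.1]
  · have a1 := neg_abs_le ζ
    have a2 := le_abs_self (z1 * t)
    have a3 := le_abs_self ((z3 + q * L) * t ^ 3)
    have a4 := le_abs_self ((z4 + w4 * L) * t ^ 4)
    linarith [hex.2]

theorem zx_log {t : ℝ} (ht : 0 < t) (ht1 : t ≤ 1) : |Real.log t| * t ≤ 1 := by
  rw [abs_of_nonpos (Real.log_nonpos ht.le ht1)]
  have h := Real.log_le_sub_one_of_pos (inv_pos.2 ht)
  rw [Real.log_inv] at h
  have h2 : t⁻¹ * t = 1 := inv_mul_cancel₀ ht.ne'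
  nlinarith

/-- the bound used in the limit for the first coefficient -/
theorem zx_z1 {ζ z1 z2 z3 z4 w4 q t L K1 K0 V N2 : ℝ} (ht : 0 < t) (ht1 : t ≤ 1)
    (hK1 : 0 ≤ K1) (hK0 : 0 ≤ K0) (hN2 : 0 ≤ N2) (hL : |L| * t ≤ 1)
    (hζ : |ζ| ≤ K1 * (t * V + t ^ 6))
    (hex : |ζ - (z1 * t + z2 * t ^ 2 + (z3 + q * L) * t ^ 3 + (z4 + w4 * L) * t ^ 4)| ≤
      K0 * t ^ 5 * (N2 + |L|)) :
    |z1| ≤ K1 * V + (K1 + |z2| + |z3| + |q| + |z4| + |w4| + K0 * (N2 + 1)) * t := by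
  have h := zx_tri1 ht hex
  have ht2 : t ^ 2 ≤ t := by nlinarith
  have p3 : t ^ 3 ≤ t ^ 2 := pow_le_pow_of_le_one ht.le ht1 (by norm_num)
  have p4 : t ^ 4 ≤ t ^ 2 := pow_le_pow_of_le_one ht.le ht1 (by norm_num)
  have p5 : t ^ 5 ≤ t ^ 2 := pow_le_pow_of_le_one ht.le ht1 (by norm_num)
  have p6 : t ^ 6 ≤ t ^ 2 := pow_le_pow_of_le_one ht.le ht1 (by norm_num)
  have q0 : 0 < t ^ 2 := by positivity
  have l3 : |L| * t ^ 3 ≤ t ^ 2 := by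
    have : |L| * t ^ 3 = (|L| * t) * t ^ 2 := by ring
    rw [this]; nlinarith
  have l4 : |L| * t ^ 4 ≤ t ^ 2 := by
    have : |L| * t ^ 4 = (|L| * t) * t ^ 3 := by ring
    rw [this]
    have : 0 ≤ t ^ 3 := by positivity
    nlinarith
  have l5 : |L| * t ^ 5 ≤ t ^ 2 := by
    have : |L| * t ^ 5 = (|L| * t) * t ^ 4 := by ring
    rw [this]
    have : 0 ≤ t ^ 4 := by positivity
    nlinarith
  have a1 : K1 * t ^ 6 ≤ K1 * t ^ 2 := mul_le_mul_of_nonneg_left p6 hK1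
  have a3 : |z3| * t ^ 3 ≤ |z3| * t ^ 2 := mul_le_mul_of_nonneg_left p3 (abs_nonneg _)
  have a4 : |q| * (|L| * t ^ 3) ≤ |q| * t ^ 2 := mul_le_mul_of_nonneg_left l3 (abs_nonneg _)
  have a5 : |z4| * t ^ 4 ≤ |z4| * t ^ 2 := mul_le_mul_of_nonneg_left p4 (abs_nonneg _)
  have a6 : |w4| * (|L| * t ^ 4) ≤ |w4| * t ^ 2 := mul_le_mul_of_nonneg_left l4 (abs_nonneg _)
  have a7 : K0 * N2 * t ^ 5 ≤ K0 * N2 * t ^ 2 := mul_le_mul_of_nonneg_left p5 (by positivity)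
  have a8 : K0 * (|L| * t ^ 5) ≤ K0 * t ^ 2 := mul_le_mul_of_nonneg_left l5 hK0
  have hfin : |z1| * t ≤
      (K1 * V + (K1 + |z2| + |z3| + |q| + |z4| + |w4| + K0 * (N2 + 1)) * t) * t := by
    have e : (K1 * V + (K1 + |z2| + |z3| + |q| + |z4| + |w4| + K0 * (N2 + 1)) * t) * t =
      K1 * (t * V) + K1 * t ^ 2 + |z2| * t ^ 2 + |z3| * t ^ 2 + |q| * t ^ 2 + |z4| * t ^ 2 +
        |w4| * t ^ 2 + K0 * N2 * t ^ 2 + K0 * t ^ 2 := by ring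
    rw [e]
    linarith
  exact le_of_mul_le_mul_right hfin ht

/-- the bound of the second coefficient -/
theorem zx_z2 {ζ z1 z2 z3 z4 w4 q t L K1 K2 K3 K4 K0 u N l c' : ℝ}
    (hu : 0 < u) (hu1 : u ≤ 1) (hNu : N * u = 1) (hl : 1 ≤ l) (hc' : 0 < c') (hc1 : c' ≤ 1)
    (ht : t = c' * u) (hK1 : 0 ≤ K1) (hK2 : 0 ≤ K2) (hK3 : 0 ≤ K3) (hK4 : 0 ≤ K4) (hK0 : 0 ≤ K0)
    (hL : |L| ≤ K4 * l)
    (hζ : |ζ| ≤ K1 * (t * u ^ 2 + t ^ 6)) (hz1 : |z1| ≤ K1 * u ^ 2) (hz3 : |z3| ≤ K2 * l)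
    (hz4 : |z4| ≤ K2 * N) (hw4 : |w4| ≤ K3)
    (hex : |ζ - (z1 * t + z2 * t ^ 2 + (z3 + q * L) * t ^ 3 + (z4 + w4 * L) * t ^ 4)| ≤
      K0 * t ^ 5 * (N ^ 2 + |L|)) :
    |z2| ≤ (3 * K1 + 2 * K2 + |q| * K4 + K3 * K4 + K0 * (1 + K4)) / c' ^ 2 * u * l := by
  have ht0 : 0 < t := by rw [ht]; positivity
  have htu : t ≤ u := by rw [ht]; nlinarith
  have h := zx_tri2 ht0 hex
  have hu3 : 0 < u ^ 3 := by positivity
  have p6 : t ^ 6 ≤ u ^ 3 := (pow_le_pow_left₀ ht0.le htu 6).trans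
    (pow_le_pow_of_le_one hu.le hu1 (by norm_num))
  have p3 : t ^ 3 ≤ u ^ 3 := pow_le_pow_left₀ ht0.le htu 3
  have p4 : t ^ 4 ≤ u ^ 4 := pow_le_pow_left₀ ht0.le htu 4
  have p5 : t ^ 5 ≤ u ^ 5 := pow_le_pow_left₀ ht0.le htu 5
  have q4 : u ^ 4 ≤ u ^ 3 := pow_le_pow_of_le_one hu.le hu1 (by norm_num)
  have q5 : u ^ 5 ≤ u ^ 3 := pow_le_pow_of_le_one hu.le hu1 (by norm_num)
  have hN0 : 0 < N := by
    by_contra hcon
    push Not at hcon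
    nlinarith
  have g1 : K1 * (t * u ^ 2 + t ^ 6) ≤ 2 * K1 * (u ^ 3 * l) := by
    have e : t * u ^ 2 ≤ u ^ 3 := by
      have : t * u ^ 2 ≤ u * u ^ 2 := mul_le_mul_of_nonneg_right htu (by positivity)
      linarith [this, show u * u ^ 2 = u ^ 3 by ring]
    have e2 : u ^ 3 ≤ u ^ 3 * l := le_mul_of_one_le_right hu3.le hl
    have e3 : t * u ^ 2 + t ^ 6 ≤ 2 * (u ^ 3 * l) := by linarith
    have := mul_le_mul_of_nonneg_left e3 hK1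
    linarith
  have g2 : |z1| * t ≤ K1 * (u ^ 3 * l) := by
    calc |z1| * t ≤ K1 * u ^ 2 * u := mul_le_mul hz1 htu ht0.le (by positivity)
      _ = K1 * u ^ 3 := by ring
      _ ≤ K1 * (u ^ 3 * l) := mul_le_mul_of_nonneg_left (le_mul_of_one_le_right hu3.le hl) hK1
  have g3 : (|z3| + |q| * |L|) * t ^ 3 ≤ (K2 + |q| * K4) * (u ^ 3 * l) := by
    have e1 : |z3| + |q| * |L| ≤ (K2 + |q| * K4) * l := by
      have := mul_le_mul_of_nonneg_left hL (abs_nonneg q)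
      linarith
    calc (|z3| + |q| * |L|) * t ^ 3 ≤ ((K2 + |q| * K4) * l) * u ^ 3 :=
          mul_le_mul e1 p3 (by positivity) (by positivity)
      _ = _ := by ring
  have g4 : (|z4| + |w4| * |L|) * t ^ 4 ≤ (K2 + K3 * K4) * (u ^ 3 * l) := by
    have e1 : |w4| * |L| ≤ K3 * (K4 * l) := mul_le_mul hw4 hL (abs_nonneg _) hK3
    have e2 : (|z4| + |w4| * |L|) * t ^ 4 ≤ (K2 * N + K3 * (K4 * l)) * u ^ 4 :=
      mul_le_mul (by linarith) p4 (by positivity) (by positivity)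
    have e3 : (K2 * N + K3 * (K4 * l)) * u ^ 4 = K2 * u ^ 3 * (N * u) + K3 * K4 * l * u ^ 4 := by
      ring
    rw [e3, hNu, mul_one] at e2
    have e4 : K2 * u ^ 3 ≤ K2 * (u ^ 3 * l) :=
      mul_le_mul_of_nonneg_left (le_mul_of_one_le_right hu3.le hl) hK2
    have e5 : K3 * K4 * l * u ^ 4 ≤ K3 * K4 * l * u ^ 3 :=
      mul_le_mul_of_nonneg_left q4 (by positivity)
    linarith
  have g5 : K0 * t ^ 5 * (N ^ 2 + |L|) ≤ K0 * (1 + K4) * (u ^ 3 * l) := by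
    have e2 : K0 * t ^ 5 * (N ^ 2 + |L|) ≤ K0 * u ^ 5 * (N ^ 2 + K4 * l) := by
      apply mul_le_mul (mul_le_mul_of_nonneg_left p5 hK0) (by linarith) (by positivity)
        (by positivity)
    have e3 : K0 * u ^ 5 * (N ^ 2 + K4 * l) = K0 * u ^ 3 * (N * u) ^ 2 + K0 * K4 * l * u ^ 5 := by
      ring
    rw [e3, hNu, one_pow, mul_one] at e2
    have e4 : K0 * u ^ 3 ≤ K0 * (u ^ 3 * l) :=
      mul_le_mul_of_nonneg_left (le_mul_of_one_le_right hu3.le hl) hK0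
    have e5 : K0 * K4 * l * u ^ 5 ≤ K0 * K4 * l * u ^ 3 :=
      mul_le_mul_of_nonneg_left q5 (by positivity)
    linarith
  set K5 := 3 * K1 + 2 * K2 + |q| * K4 + K3 * K4 + K0 * (1 + K4) with hK5
  have hfin : |z2| * t ^ 2 ≤ K5 * (u ^ 3 * l) := by
    rw [hK5]
    linarith
  have hfin2 : |z2| * (c' ^ 2 * u ^ 2) ≤ (K5 / c' ^ 2 * u * l) * (c' ^ 2 * u ^ 2) := by
    have e1 : (K5 / c' ^ 2 * u * l) * (c' ^ 2 * u ^ 2) = K5 * (u ^ 3 * l) := by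
      field_simp
    rw [e1]
    have e2 : t ^ 2 = c' ^ 2 * u ^ 2 := by rw [ht]; ring
    rw [← e2]
    exact hfin
  exact le_of_mul_le_mul_right hfin2 (by positivity)

theorem zx_N1 (m : ℕ) : 1 ≤ ((m : ℝ) + 1) ^ (2 / 3 : ℝ) :=
  Real.one_le_rpow (by have : (0:ℝ) ≤ m := Nat.cast_nonneg m
                       linarith) (by norm_num)

theorem zx_e43 (m : ℕ) : ((m : ℝ) + 1) ^ (4 / 3 : ℝ) = (((m : ℝ) + 1) ^ (2 / 3 : ℝ)) ^ 2 := by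
  have hx0 : (0:ℝ) < (m : ℝ) + 1 := by positivity
  rw [← Real.rpow_natCast, ← Real.rpow_mul hx0.le]
  norm_num

theorem zx_em23 (m : ℕ) : ((m : ℝ) + 1) ^ (-(2 / 3 : ℝ)) = (((m : ℝ) + 1) ^ (2 / 3 : ℝ))⁻¹ := by
  have hx0 : (0:ℝ) < (m : ℝ) + 1 := by positivity
  rw [Real.rpow_neg hx0.le]

theorem zx_em43 (m : ℕ) : ((m : ℝ) + 1) ^ (-(4 / 3 : ℝ)) = (((m : ℝ) + 1) ^ (-(2 / 3 : ℝ))) ^ 2 := by
  have hx0 : (0:ℝ) < (m : ℝ) + 1 := by positivity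
  rw [← Real.rpow_natCast, ← Real.rpow_mul hx0.le]
  norm_num

theorem zx_second (m : ℕ) {ζ : ℝ → ℝ} {z1 z2 z3 z4 w4 q K0 K1 K2 K3 K4 K5 c3 t3 : ℝ}
    (hK4 : K4 = 1 + Real.log (1 / c3))
    (hK5 : K5 = 3 * K1 + 2 * K2 + |q| * K4 + K3 * K4 + K0 * (1 + K4))
    (hc3 : 0 < c3) (hc'1 : c3 ≤ 1 / 3) (ht3 : 0 < t3) (hK10 : 0 ≤ K1) (hK2 : 1 ≤ K2)
    (hK30 : 0 ≤ K3) (hK40 : 0 ≤ K4) (hK00 : 0 ≤ K0) (hK50 : 0 ≤ K5)
    (hC : ∀ t, 0 < t → t ≤ t3 → |ζ t| ≤ K1 * (t * ((m : ℝ) + 1) ^ (-(4 / 3 : ℝ)) + t ^ 6))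
    (hex : ∀ t, 0 < t → t ≤ t3 → t * ((m : ℝ) + 1) ^ (2 / 3 : ℝ) ≤ c3 →
      |ζ t - (z1 * t + z2 * t ^ 2 + (z3 + q * Real.log t) * t ^ 3
        + (z4 + w4 * Real.log t) * t ^ 4)|
      ≤ K0 * t ^ 5 * (((m : ℝ) + 1) ^ (4 / 3 : ℝ) + |Real.log t|))
    (hZ1 : |z1| ≤ K1 * ((m : ℝ) + 1) ^ (-(4 / 3 : ℝ))) (hz2b : |z2| ≤ K2)
    (hz3b : |z3| ≤ K2 * (1 + Real.log ((m : ℝ) + 1)))
    (hz4b : |z4| ≤ K2 * ((m : ℝ) + 1) ^ (2 / 3 : ℝ)) (hw : |w4| ≤ K3) :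
    |z2| ≤ (K5 / c3 ^ 2 + K2 * (c3 / t3)) * ((m : ℝ) + 1) ^ (-(2 / 3 : ℝ)) *
      (1 + Real.log ((m : ℝ) + 1)) := by
  have hx0 : (0:ℝ) < (m : ℝ) + 1 := by positivity
  have hlogc : 0 ≤ Real.log (1 / c3) := Real.log_nonneg (by rw [le_div_iff₀ hc3]; linarith)
  have hN0 : 0 < ((m : ℝ) + 1) ^ (2 / 3 : ℝ) := by linarith [zx_N1 m]
  have hlm : 0 ≤ Real.log ((m : ℝ) + 1) := Real.log_nonneg (by
    have : (0:ℝ) ≤ m := Nat.cast_nonneg m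
    linarith)
  have hu : ((m : ℝ) + 1) ^ (-(2 / 3 : ℝ)) = ((m : ℝ) + 1) ^ (-(2 / 3 : ℝ)) := rfl
  rw [zx_em43 m] at hZ1
  set u := ((m : ℝ) + 1) ^ (-(2 / 3 : ℝ)) with hudef
  have huN : u = (((m : ℝ) + 1) ^ (2 / 3 : ℝ))⁻¹ := zx_em23 m
  have hu0 : 0 < u := by rw [huN]; positivity
  have hu1 : u ≤ 1 := by rw [huN]; exact inv_le_one_of_one_le₀ (zx_N1 m)
  have hNu : ((m : ℝ) + 1) ^ (2 / 3 : ℝ) * u = 1 := by rw [huN]; exact mul_inv_cancel₀ hN0.ne'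
  set l := 1 + Real.log ((m : ℝ) + 1) with hl
  have hl1 : 1 ≤ l := by rw [hl]; linarith
  by_cases hcase : c3 * u ≤ t3
  · have ht : 0 < c3 * u := by positivity
    have htN : c3 * u * ((m : ℝ) + 1) ^ (2 / 3 : ℝ) ≤ c3 := by
      have : c3 * u * ((m : ℝ) + 1) ^ (2 / 3 : ℝ) = c3 * (((m : ℝ) + 1) ^ (2 / 3 : ℝ) * u) := by
        ring
      rw [this, hNu, mul_one]
    have hL : |Real.log (c3 * u)| ≤ K4 * l := by
      have h1 : Real.log (c3 * u) = -(Real.log (1 / c3) + 2 / 3 * Real.log ((m : ℝ) + 1)) := by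
        rw [Real.log_mul hc3.ne' hu0.ne', hudef, Real.log_rpow hx0, one_div, Real.log_inv]
        ring
      rw [h1, abs_neg, abs_of_nonneg (by positivity), hK4, hl]
      nlinarith [mul_nonneg hlogc hlm]
    have hZ := hC (c3 * u) ht hcase
    rw [zx_em43 m] at hZ
    have hE := hex (c3 * u) ht hcase htN
    rw [zx_e43 m] at hE
    have hmain := zx_z2 hu0 hu1 hNu hl1 hc3 (by linarith) rfl hK10 (by linarith) hK30 hK40 hK00
      hL hZ hZ1 hz3b hz4b hw hE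
    rw [← hK5] at hmain
    refine hmain.trans ?_
    have h3 : 0 ≤ K2 * (c3 / t3) * u * l := by positivity
    linarith
  · push Not at hcase
    have h1 : 1 ≤ (c3 / t3) * u := by
      rw [div_mul_eq_mul_div, le_div_iff₀ ht3]
      linarith
    have h2 : |z2| ≤ K2 * ((c3 / t3) * u * l) := by
      refine hz2b.trans ?_
      have h3 : 1 ≤ (c3 / t3) * u * l := one_le_mul_of_one_le_of_one_le h1 hl1
      have := mul_le_mul_of_nonneg_left h3 (show 0 ≤ K2 by linarith)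
      linarith
    refine h2.trans ?_
    have h3 : 0 ≤ K5 / c3 ^ 2 * u * l := by positivity
    linarith

theorem zx_expand {ζ y z1 z2 z3 z4 w4 q t K2 K3 N2 L : ℝ} (ht : 0 < t) (hK2 : 0 ≤ K2)
    (hK3 : 0 ≤ K3) (hN2 : 0 ≤ N2)
    (h1 : |ζ - y - (q * t ^ 3 * L + w4 * t ^ 4 * L)| ≤ K3 * t ^ 5 * |L|)
    (h2 : |y - (z1 * t + z2 * t ^ 2 + z3 * t ^ 3 + z4 * t ^ 4)| ≤ K2 * t ^ 5 * N2) :
    |ζ - (z1 * t + z2 * t ^ 2 + (z3 + q * L) * t ^ 3 + (z4 + w4 * L) * t ^ 4)| ≤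
      (K2 + K3) * t ^ 5 * (N2 + |L|) := by
  have e : ζ - (z1 * t + z2 * t ^ 2 + (z3 + q * L) * t ^ 3 + (z4 + w4 * L) * t ^ 4) =
      (ζ - y - (q * t ^ 3 * L + w4 * t ^ 4 * L)) +
      (y - (z1 * t + z2 * t ^ 2 + z3 * t ^ 3 + z4 * t ^ 4)) := by ring
  rw [e]
  refine (abs_add_le _ _).trans ((add_le_add h1 h2).trans ?_)
  have a1 : 0 ≤ K2 * t ^ 5 * |L| := by positivity
  have a2 : 0 ≤ K3 * t ^ 5 * N2 := by positivity
  linarith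

theorem ZX_of (Q : Seqs) (K : ℝ) (hG : Good Q K) (ζ : ℕ → ℝ → ℝ) (K1 t1 : ℝ)
    (hC : Crude ζ K1 t1) (y : ℕ → ℝ → ℝ) (z1 z2 z3 z4 : ℕ → ℝ) (K2 c2 : ℝ)
    (hY : YF Q y z1 z2 z3 z4 K2 c2) (q : ℝ) (w4 : ℕ → ℝ) (K3 c3 t3 : ℝ) (hw : ∀ m, |w4 m| ≤ K3)
    (hc3 : 0 < c3) (hc32 : c3 ≤ c2) (ht3 : 0 < t3) (ht31 : t3 ≤ t1) (ht1 : t1 ≤ 1 / 3)
    (hcmp : ∀ (m : ℕ) (t : ℝ), 0 < t → t ≤ t3 → t * ((m : ℝ) + 1) ^ (2 / 3 : ℝ) ≤ c3 →
        |ζ m t - y m t - (q * t ^ 3 * Real.log t + w4 m * t ^ 4 * Real.log t)|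
          ≤ K3 * t ^ 5 * |Real.log t|) :
    ∃ K' c' t0 : ℝ, t0 ≤ t1 ∧ ZX ζ z1 z2 z3 z4 w4 q K' c' t0 := by
  have hK2 : 1 ≤ K2 := hY.K1
  have ht1' : 0 < t1 := ht3.trans_le ht31
  have hc'1 : c3 ≤ 1 / 3 := hc32.trans hY.c1
  have hK10 : 0 ≤ K1 := by
    have h := (abs_nonneg _).trans (hC 0 t3 ht3 ht31)
    refine nonneg_of_mul_nonneg_left h ?_
    positivity
  have hK30 : 0 ≤ K3 := (abs_nonneg _).trans (hw 0)
  set K0 := K2 + K3 with hK0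
  have hK00 : 0 ≤ K0 := by rw [hK0]; linarith
  set K4 := 1 + Real.log (1 / c3) with hK4
  have hlogc : 0 ≤ Real.log (1 / c3) := Real.log_nonneg (by rw [le_div_iff₀ hc3]; linarith)
  have hK40 : 0 ≤ K4 := by rw [hK4]; linarith
  -- the expansion
  have hex : ∀ (m : ℕ) (t : ℝ), 0 < t → t ≤ t3 → t * ((m : ℝ) + 1) ^ (2 / 3 : ℝ) ≤ c3 →
    |ζ m t - (z1 m * t + z2 m * t ^ 2 + (z3 m + q * Real.log t) * t ^ 3
        + (z4 m + w4 m * Real.log t) * t ^ 4)|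
      ≤ K0 * t ^ 5 * (((m : ℝ) + 1) ^ (4 / 3 : ℝ) + |Real.log t|) := by
    intro m t ht htt htN
    exact zx_expand ht (by linarith) hK30 (by positivity) (hcmp m t ht htt htN)
      (hY.ex m t ht (htN.trans hc32))
  -- the first coefficient
  have hz1 : ∀ m : ℕ, |z1 m| ≤ K1 * ((m : ℝ) + 1) ^ (-(4 / 3 : ℝ)) := by
    intro m
    have hN0 : 0 < ((m : ℝ) + 1) ^ (2 / 3 : ℝ) := by linarith [zx_N1 m]
    have ht0 : 0 < min t3 (c3 / ((m : ℝ) + 1) ^ (2 / 3 : ℝ)) := lt_min ht3 (by positivity)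
    refine zx_lim (C := K1 + |z2 m| + |z3 m| + |q| + |z4 m| + |w4 m| +
      K0 * (((m : ℝ) + 1) ^ (4 / 3 : ℝ) + 1)) ht0 ?_
    intro t ht htm
    have h1 : t ≤ t3 := htm.trans (min_le_left _ _)
    have h2 : t * ((m : ℝ) + 1) ^ (2 / 3 : ℝ) ≤ c3 := by
      have := htm.trans (min_le_right _ _)
      rwa [le_div_iff₀ hN0] at this
    have ht1'' : t ≤ 1 := by linarith
    exact zx_z1 ht ht1'' hK10 hK00 (by positivity) (zx_log ht ht1'')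
      (hC m t ht (h1.trans ht31)) (hex m t ht h1 h2)
  -- the second coefficient
  set K5 := 3 * K1 + 2 * K2 + |q| * K4 + K3 * K4 + K0 * (1 + K4) with hK5
  have hK50 : 0 ≤ K5 := by rw [hK5]; positivity
  have hz2 : ∀ m : ℕ, |z2 m| ≤ (K5 / c3 ^ 2 + K2 * (c3 / t3)) * ((m : ℝ) + 1) ^ (-(2 / 3 : ℝ)) *
      (1 + Real.log ((m : ℝ) + 1)) := fun m =>
    zx_second m hK4 hK5 hc3 hc'1 ht3 hK10 hK2 hK30 hK40 hK00 hK50
      (fun t ht htt => hC m t ht (htt.trans ht31)) (fun t ht htt htN => hex m t ht htt htN)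
      (hz1 m) (hY.z2b m) (hY.z3b m) (hY.z4b m) (hw m)
  set K' := K1 + K2 + K3 + (K5 / c3 ^ 2 + K2 * (c3 / t3)) with hK'
  have hK6 : 0 ≤ K5 / c3 ^ 2 + K2 * (c3 / t3) := by positivity
  refine ⟨K', c3, t3, ht31, ?_⟩
  refine ⟨by linarith, hc3, hc'1, ht3, ht31.trans ht1, ?_, ?_, ?_, ?_, ?_, ?_, ?_⟩
  · intro m t ht htt htN
    refine (hex m t ht htt htN).trans ?_
    have hp : 0 ≤ ((m : ℝ) + 1) ^ (4 / 3 : ℝ) + |Real.log t| := by positivity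
    apply mul_le_mul_of_nonneg_right _ hp
    apply mul_le_mul_of_nonneg_right _ (by positivity)
    linarith
  · intro m t ht htt
    refine (hC m t ht (htt.trans ht31)).trans ?_
    apply mul_le_mul_of_nonneg_right _ (by positivity)
    linarith
  · intro m
    refine (hz1 m).trans ?_
    apply mul_le_mul_of_nonneg_right _ (by positivity)
    linarith
  · intro m
    refine (hz2 m).trans ?_
    have hlm : 0 ≤ Real.log ((m : ℝ) + 1) := Real.log_nonneg (by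
      have : (0:ℝ) ≤ m := Nat.cast_nonneg m
      linarith)
    apply mul_le_mul_of_nonneg_right _ (by linarith)
    apply mul_le_mul_of_nonneg_right _ (by positivity)
    linarith
  · intro m
    refine (hY.z3b m).trans ?_
    have hlm : 0 ≤ Real.log ((m : ℝ) + 1) := Real.log_nonneg (by
      have : (0:ℝ) ≤ m := Nat.cast_nonneg m
      linarith)
    apply mul_le_mul_of_nonneg_right _ (by linarith)
    linarith
  · intro m
    refine (hY.z4b m).trans ?_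
    apply mul_le_mul_of_nonneg_right _ (by positivity)
    linarith
  · intro m
    refine (hw m).trans ?_
    linarith


end Pool.Agent.FW
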