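import Pool.Agent.Helper155.FW.Defs

set_option autoImplicit false
open Filter Asymptotics Topology

namespace Pool.Agent.FW

/-! ## TARGETS (prove these) -/

namespace T2


lemma cosh_lb (x : ℝ) : 1 + x ^ 2 / 2 ≤ Real.cosh x := by
  have h1 : Real.cosh x = 1 + 2 * Real.sinh (x / 2) ^ 2 := by
    have : x = 2 * (x / 2) := by ring
    conv_lhs => rw [this]
    rw [Real.cosh_two_mul, Real.cosh_sq]; ring
  have h2 : (x / 2) ^ 2 ≤ Real.sinh (x / 2) ^ 2 := by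
    rw [sq_le_sq]
    rcases le_total 0 (x / 2) with h | h
    · rw [abs_of_nonneg h, abs_of_nonneg (Real.sinh_nonneg_iff.2 h)]
      exact Real.self_le_sinh_iff.2 h
    · rw [abs_of_nonpos h, abs_of_nonpos (Real.sinh_nonpos_iff.2 h)]
      have := Real.sinh_le_self_iff.2 h
      linarith
  rw [h1]; nlinarith

lemma cosh_inv_bd (a : ℝ) : |1 / Real.cosh a - 1 + a ^ 2 / 2| ≤ a ^ 4 / 4 := by
  have hc : 0 < Real.cosh a := Real.cosh_pos a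
  have h1 : Real.exp (-(a ^ 2 / 2)) ≤ 1 / Real.cosh a := by
    rw [Real.exp_neg, ← one_div]
    exact one_div_le_one_div_of_le hc (Real.cosh_le_exp_half_sq a)
  have h2 := Real.add_one_le_exp (-(a ^ 2 / 2))
  have h3 : 1 / Real.cosh a ≤ 1 - a ^ 2 / 2 + a ^ 4 / 4 := by
    have : 1 / Real.cosh a ≤ 1 / (1 + a ^ 2 / 2) :=
      one_div_le_one_div_of_le (by positivity) (cosh_lb a)
    refine this.trans ?_
    rw [div_le_iff₀ (by positivity)]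
    nlinarith [sq_nonneg (a ^ 3), sq_nonneg a]
  rw [abs_le]; constructor
  · have : 0 ≤ a ^ 4 / 4 := by positivity
    linarith
  · linarith

lemma om_inv (K : ℝ) (hK : 1 ≤ K) (A b c d g t : ℝ) (hA : |A| ≤ K) (hb : |b| ≤ K) (hc : |c| ≤ K)
    (hd : |d| ≤ K) (hg : |g| ≤ K) (ht : 0 < t) (ht1 : t ≤ 1) (htK : 2 * K * t ≤ 1) :
    |1 / (Real.exp (t * A - t ^ 2 * b + t ^ 3 * c - t ^ 4 * d + t ^ 5 * g)
        + Real.exp (-(t * A + t ^ 2 * b + t ^ 3 * c + t ^ 4 * d + t ^ 5 * g)))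
      - (1 / 2 + (b / 2 - A ^ 2 / 4) * t ^ 2)| ≤ 28 * K ^ 5 * t ^ 4 := by
  have hK0 : 0 < K := by linarith
  have ht2 : t ^ 2 ≤ t := by nlinarith
  have ht2' : t ^ 2 ≤ 1 := by nlinarith
  have ht3 : t ^ 3 ≤ t := by nlinarith [sq_nonneg t]
  have ht4 : t ^ 4 ≤ t ^ 2 := by nlinarith [sq_nonneg t]
  have ht5 : t ^ 5 ≤ t ^ 3 := by nlinarith [pow_pos ht 3]
  have p2 : 0 < t ^ 2 := by positivity
  have p3 : 0 < t ^ 3 := by positivity
  have p4 : 0 < t ^ 4 := by positivity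
  have p5 : 0 < t ^ 5 := by positivity
  set β := t ^ 2 * b + t ^ 4 * d with hβ
  set a := t * A + t ^ 3 * c + t ^ 5 * g with ha
  have e1 : Real.exp (t * A - t ^ 2 * b + t ^ 3 * c - t ^ 4 * d + t ^ 5 * g)
        + Real.exp (-(t * A + t ^ 2 * b + t ^ 3 * c + t ^ 4 * d + t ^ 5 * g))
        = 2 * Real.exp (-β) * Real.cosh a := by
    rw [Real.cosh_eq]
    have : 2 * Real.exp (-β) * ((Real.exp a + Real.exp (-a)) / 2)
        = Real.exp (-β) * Real.exp a + Real.exp (-β) * Real.exp (-a) := by ring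
    rw [this, ← Real.exp_add, ← Real.exp_add]
    congr 2 <;> (rw [hβ, ha]; ring)
  have e2 : 1 / (2 * Real.exp (-β) * Real.cosh a) = Real.exp β * (1 / Real.cosh a) / 2 := by
    rw [Real.exp_neg]
    have := Real.cosh_pos a
    have := Real.exp_pos β
    field_simp
  rw [e1, e2]
  have hb' := abs_le.1 hb
  have hd' := abs_le.1 hd
  have hβ2 : |β| ≤ 2 * K * t ^ 2 := by
    calc |β| ≤ |t ^ 2 * b| + |t ^ 4 * d| := abs_add_le _ _
      _ = t ^ 2 * |b| + t ^ 4 * |d| := by rw [abs_mul, abs_mul, abs_of_pos p2, abs_of_pos p4]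
      _ ≤ t ^ 2 * K + t ^ 2 * K := by gcongr
      _ = _ := by ring
  have hβ1 : |β| ≤ 1 := by
    refine hβ2.trans ?_
    nlinarith
  have hE := Real.abs_exp_sub_one_sub_id_le hβ1
  have hβsq : β ^ 2 ≤ 4 * K ^ 2 * t ^ 4 := by
    rw [← sq_abs]
    calc |β| ^ 2 ≤ (2 * K * t ^ 2) ^ 2 := by gcongr
      _ = _ := by ring
  have hE1 : |Real.exp β - 1 - t ^ 2 * b| ≤ 5 * K ^ 2 * t ^ 4 := by
    have : Real.exp β - 1 - t ^ 2 * b = (Real.exp β - 1 - β) + t ^ 4 * d := by rw [hβ]; ring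
    rw [this]
    calc _ ≤ |Real.exp β - 1 - β| + |t ^ 4 * d| := abs_add_le _ _
      _ ≤ 4 * K ^ 2 * t ^ 4 + t ^ 4 * K := by
          rw [abs_mul, abs_of_pos p4]
          have := mul_le_mul_of_nonneg_left hd p4.le
          linarith
      _ ≤ _ := by nlinarith
  have hab : |a| ≤ 3 * K * t := by
    calc |a| ≤ |t * A + t ^ 3 * c| + |t ^ 5 * g| := abs_add_le _ _
      _ ≤ |t * A| + |t ^ 3 * c| + |t ^ 5 * g| := by gcongr; exact abs_add_le _ _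
      _ = t * |A| + t ^ 3 * |c| + t ^ 5 * |g| := by
          rw [abs_mul, abs_mul, abs_mul, abs_of_pos ht, abs_of_pos p3, abs_of_pos p5]
      _ ≤ t * K + t * K + t * K := by
          have h5 : t ^ 5 ≤ t := ht5.trans ht3
          gcongr
      _ = _ := by ring
  have ha2 : |a - t * A| ≤ 2 * K * t ^ 3 := by
    have : a - t * A = t ^ 3 * c + t ^ 5 * g := by rw [ha]; ring
    rw [this]
    calc _ ≤ |t ^ 3 * c| + |t ^ 5 * g| := abs_add_le _ _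
      _ = t ^ 3 * |c| + t ^ 5 * |g| := by rw [abs_mul, abs_mul, abs_of_pos p3, abs_of_pos p5]
      _ ≤ t ^ 3 * K + t ^ 3 * K := by gcongr
      _ = _ := by ring
  have ha3 : |a + t * A| ≤ 4 * K * t := by
    calc _ ≤ |a| + |t * A| := abs_add_le _ _
      _ ≤ 3 * K * t + t * K := by
          rw [abs_mul, abs_of_pos ht]
          have := mul_le_mul_of_nonneg_left hA ht.le
          linarith
      _ = _ := by ring
  have hasq : |a ^ 2 - t ^ 2 * A ^ 2| ≤ 8 * K ^ 2 * t ^ 4 := by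
    have : a ^ 2 - t ^ 2 * A ^ 2 = (a - t * A) * (a + t * A) := by ring
    rw [this, abs_mul]
    calc _ ≤ (2 * K * t ^ 3) * (4 * K * t) := by gcongr
      _ = _ := by ring
  have ha4 : a ^ 4 ≤ 81 * K ^ 4 * t ^ 4 := by
    have : a ^ 4 = |a| ^ 4 := by rw [← abs_pow, abs_of_nonneg (by positivity)]
    rw [this]
    calc |a| ^ 4 ≤ (3 * K * t) ^ 4 := by gcongr
      _ = _ := by ring
  have hK2 : K ^ 2 ≤ K ^ 4 := by
    have : 1 ≤ K ^ 2 := by nlinarith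
    nlinarith [sq_nonneg K]
  have hC := cosh_inv_bd a
  have hC1 : |1 / Real.cosh a - 1 + t ^ 2 * A ^ 2 / 2| ≤ 25 * K ^ 4 * t ^ 4 := by
    have : 1 / Real.cosh a - 1 + t ^ 2 * A ^ 2 / 2
        = (1 / Real.cosh a - 1 + a ^ 2 / 2) + -((a ^ 2 - t ^ 2 * A ^ 2) / 2) := by ring
    rw [this]
    calc _ ≤ |1 / Real.cosh a - 1 + a ^ 2 / 2| + |-((a ^ 2 - t ^ 2 * A ^ 2) / 2)| := abs_add_le _ _
      _ ≤ a ^ 4 / 4 + (8 * K ^ 2 * t ^ 4) / 2 := by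
          rw [abs_neg, abs_div, abs_of_pos (by norm_num : (0:ℝ) < 2)]
          linarith
      _ ≤ 81 * K ^ 4 * t ^ 4 / 4 + (8 * K ^ 4 * t ^ 4) / 2 := by
          have := mul_le_mul_of_nonneg_right hK2 p4.le
          linarith
      _ ≤ _ := by
          have : 0 ≤ K ^ 4 * t ^ 4 := by positivity
          linarith
  have hY1 : |1 / Real.cosh a| ≤ 1 := by
    rw [abs_of_pos (by have := Real.cosh_pos a; positivity), div_le_one (Real.cosh_pos a)]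
    exact Real.one_le_cosh a
  have key : Real.exp β * (1 / Real.cosh a) / 2 - (1 / 2 + (b / 2 - A ^ 2 / 4) * t ^ 2)
      = ((Real.exp β - 1 - t ^ 2 * b) * (1 / Real.cosh a)
        + (1 + t ^ 2 * b) * (1 / Real.cosh a - 1 + t ^ 2 * A ^ 2 / 2)
        + -(t ^ 2 * b * (t ^ 2 * A ^ 2 / 2))) / 2 := by ring
  rw [key, abs_div, abs_of_pos (by norm_num : (0:ℝ) < 2)]
  have k1 : |(Real.exp β - 1 - t ^ 2 * b) * (1 / Real.cosh a)| ≤ 5 * K ^ 2 * t ^ 4 := by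
    rw [abs_mul]
    calc _ ≤ 5 * K ^ 2 * t ^ 4 * 1 := by gcongr
      _ = _ := by ring
  have k2 : |(1 + t ^ 2 * b) * (1 / Real.cosh a - 1 + t ^ 2 * A ^ 2 / 2)| ≤ 2 * K * (25 * K ^ 4 * t ^ 4) := by
    rw [abs_mul]
    have : |1 + t ^ 2 * b| ≤ 2 * K := by
      calc _ ≤ |(1:ℝ)| + |t ^ 2 * b| := abs_add_le _ _
        _ ≤ 1 + 1 * K := by
            rw [abs_one, abs_mul, abs_of_pos p2]
            gcongr
        _ ≤ _ := by linarith
    gcongr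
  have k3 : |-(t ^ 2 * b * (t ^ 2 * A ^ 2 / 2))| ≤ K ^ 3 * t ^ 4 / 2 := by
    rw [abs_neg, abs_mul, abs_mul, abs_of_pos p2, abs_of_nonneg (by positivity : 0 ≤ t ^ 2 * A ^ 2 / 2), ← sq_abs A]
    calc t ^ 2 * |b| * (t ^ 2 * |A| ^ 2 / 2) ≤ t ^ 2 * K * (t ^ 2 * K ^ 2 / 2) := by gcongr
      _ = _ := by ring
  have k4 := abs_add_three ((Real.exp β - 1 - t ^ 2 * b) * (1 / Real.cosh a))
    ((1 + t ^ 2 * b) * (1 / Real.cosh a - 1 + t ^ 2 * A ^ 2 / 2)) (-(t ^ 2 * b * (t ^ 2 * A ^ 2 / 2)))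
  have hK5a : K ^ 2 ≤ K ^ 5 := pow_le_pow_right₀ hK (by norm_num)
  have hK5b : K ^ 3 ≤ K ^ 5 := pow_le_pow_right₀ hK (by norm_num)
  have m1 := mul_le_mul_of_nonneg_right hK5a p4.le
  have m2 := mul_le_mul_of_nonneg_right hK5b p4.le
  have m3 : 2 * K * (25 * K ^ 4 * t ^ 4) = 50 * (K ^ 5 * t ^ 4) := by ring
  have m4 : 0 ≤ K ^ 5 * t ^ 4 := by positivity
  rw [m3] at k2
  linarith

/-- telescoping bound -/
lemma tel (a : ℝ) (ha : 1 < a) (x : ℝ) (hx : 0 < x) :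
    (x + 1) ^ (-a) ≤ (1 / (a - 1)) * (x ^ (1 - a) - (x + 1) ^ (1 - a)) := by
  have h1 : 0 < x + 1 := by linarith
  have hy : 0 < x / (x + 1) := by positivity
  have e1 : x ^ (1 - a) = (x / (x + 1)) ^ (1 - a) * (x + 1) ^ (1 - a) := by
    rw [← Real.mul_rpow hy.le h1.le]; congr 1; field_simp
  have e2 : (x + 1) ^ (-a) = (x + 1) ^ (1 - a) / (x + 1) := by
    rw [show -a = (1 - a) - 1 by ring, Real.rpow_sub h1, Real.rpow_one]
  have e3 : 1 + (a - 1) * (1 / (x + 1)) ≤ (x / (x + 1)) ^ (1 - a) := by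
    rw [Real.rpow_def_of_pos hy]
    have l1 : Real.log (x / (x + 1)) ≤ x / (x + 1) - 1 := Real.log_le_sub_one_of_pos hy
    have l2 : x / (x + 1) - 1 = -(1 / (x + 1)) := by field_simp; ring
    rw [l2] at l1
    have l3 := Real.add_one_le_exp (Real.log (x / (x + 1)) * (1 - a))
    nlinarith
  have h2 : 0 < (x + 1) ^ (1 - a) := Real.rpow_pos_of_pos h1 _
  rw [e1, e2]
  have ha' : 0 < a - 1 := by linarith
  have : (a - 1) * (1 / (x + 1)) * (x + 1) ^ (1 - a)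
      ≤ (x / (x + 1)) ^ (1 - a) * (x + 1) ^ (1 - a) - (x + 1) ^ (1 - a) := by nlinarith
  rw [one_div, inv_mul_eq_div, le_div_iff₀ ha']
  calc (x + 1) ^ (1 - a) / (x + 1) * (a - 1) = (a - 1) * (1 / (x + 1)) * (x + 1) ^ (1 - a) := by ring
    _ ≤ _ := this



/-- sum of 1/(m+1) -/
lemma harm (N : ℕ) : ∑ m ∈ Finset.range N, 1 / ((m : ℝ) + 1) ≤ 1 + Real.log N := by
  have h := harmonic_le_one_add_log N
  have e : ((harmonic N : ℚ) : ℝ) = ∑ m ∈ Finset.range N, 1 / ((m : ℝ) + 1) := by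
    unfold harmonic
    push_cast
    refine Finset.sum_congr rfl fun m _ => ?_
    rw [one_div]
  rw [e] at h
  exact h

/-- tail sums -/
lemma tailsum (N : ℕ) (hN : 1 ≤ N) (n : ℕ) :
    ∑ m ∈ Finset.range n, (if N ≤ m + 2 then ((m : ℝ) + 3) ^ (-(5/3 : ℝ)) else 0)
      ≤ (3/2) * ((N : ℝ) ^ (-(2/3 : ℝ)) - ((max N (n + 2) : ℕ) : ℝ) ^ (-(2/3 : ℝ))) := by
  induction n with
  | zero =>
    simp only [Finset.range_zero, Finset.sum_empty, zero_add]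
    have h1 : ((max N 2 : ℕ) : ℝ) ^ (-(2/3 : ℝ)) ≤ (N : ℝ) ^ (-(2/3 : ℝ)) := by
      apply Real.rpow_le_rpow_of_nonpos
      · exact_mod_cast hN
      · exact_mod_cast le_max_left _ _
      · norm_num
    linarith
  | succ n ih =>
    rw [Finset.sum_range_succ]
    by_cases h : N ≤ n + 2
    · rw [if_pos h]
      have e1 : max N (n + 2) = n + 2 := max_eq_right h
      have e2 : max N (n + 1 + 2) = n + 3 := max_eq_right (by omega)
      rw [e1] at ih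
      rw [e2]
      have ht := tel (5/3) (by norm_num) ((n : ℝ) + 2) (by positivity)
      have e3 : (1 : ℝ) / (5/3 - 1) = 3/2 := by norm_num
      have e4 : (1 : ℝ) - 5/3 = -(2/3) := by norm_num
      rw [e3, e4] at ht
      have e5 : (n : ℝ) + 2 + 1 = (n : ℝ) + 3 := by ring
      rw [e5] at ht
      push_cast at ih ⊢
      linarith
    · rw [if_neg h]
      have e1 : max N (n + 2) = N := max_eq_left (by omega)
      have e2 : max N (n + 1 + 2) = N := max_eq_left (by omega)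
      rw [e1] at ih
      rw [e2]
      linarith

lemma summ53 : Summable (fun m : ℕ => ((m : ℝ) + 1) ^ (-(5/3 : ℝ))) := by
  have h := (summable_nat_add_iff 1).2 (Real.summable_nat_rpow (p := -(5/3 : ℝ)) |>.2 (by norm_num))
  refine h.congr fun m => ?_
  push_cast; rfl

/-- the comparison sequence -/
noncomputable def gg (c t : ℝ) (m : ℕ) : ℝ :=
  if t * ((m : ℝ) + 2) ^ (2/3 : ℝ) ≤ c then
    t ^ 6 * (1 / ((m : ℝ) + 1) + |Real.log t| * ((m : ℝ) + 1) ^ (-(5/3 : ℝ)))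
  else t ^ 5 * |Real.log t| * ((m : ℝ) + 1) ^ (-(5/3 : ℝ))

lemma logt (t : ℝ) (ht : 0 < t) (ht3 : t ≤ 1/3) : 1 ≤ |Real.log t| ∧ |Real.log t| = - Real.log t := by
  have h1 : Real.log t < 0 := Real.log_neg ht (by linarith)
  have h2 : |Real.log t| = - Real.log t := abs_of_neg h1
  refine ⟨?_, h2⟩
  rw [h2]
  have h3 : Real.log t ≤ Real.log (1/3) := Real.log_le_log ht ht3
  have h4 : Real.log (1/3) ≤ -1 := by
    rw [show (1/3 : ℝ) = (3:ℝ)⁻¹ by norm_num, Real.log_inv]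
    have : 1 ≤ Real.log 3 := by
      rw [Real.le_log_iff_exp_le (by norm_num)]
      have := Real.exp_one_lt_d9
      linarith
    linarith
  linarith

lemma gsum (c : ℝ) (hc : 0 < c) (hc1 : c ≤ 1/3) : ∃ C : ℝ, 0 < C ∧ ∀ t : ℝ, 0 < t → t ≤ 1/3 → ∀ n : ℕ,
    ∑ m ∈ Finset.range n, gg c t m ≤ C * t ^ 6 * |Real.log t| := by
  obtain ⟨S, hS⟩ : ∃ S : ℝ, ∀ n : ℕ, ∑ m ∈ Finset.range n, ((m : ℝ) + 1) ^ (-(5/3 : ℝ)) ≤ S :=
    ⟨_, fun n => summ53.sum_le_tsum _ (fun m _ => by positivity)⟩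
  have hS0 : 0 ≤ S := by simpa using hS 0
  refine ⟨4 + S + 14 / c, by positivity, ?_⟩
  intro t ht ht3 n
  obtain ⟨hL1, hLe⟩ := logt t ht ht3
  set L := |Real.log t| with hL
  set x : ℝ := (c / t) ^ (3/2 : ℝ) with hx
  have hct : 0 < c / t := by positivity
  have hx0 : 0 < x := Real.rpow_pos_of_pos hct _
  set N := ⌈x⌉₊ with hN
  have hN1 : 1 ≤ N := Nat.one_le_iff_ne_zero.2 (by
    rw [hN]; exact (Nat.ceil_pos.2 hx0).ne')
  have hxN : x ≤ N := Nat.le_ceil x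
  have hNx : (N : ℝ) < x + 1 := Nat.ceil_lt_add_one hx0.le
  -- N^(-2/3) ≤ t / c
  have hx23 : x ^ (2/3 : ℝ) = c / t := by
    rw [hx, ← Real.rpow_mul hct.le]; norm_num
  have hNr : (N : ℝ) ^ (-(2/3 : ℝ)) ≤ t / c := by
    have h1 : (N : ℝ) ^ (-(2/3 : ℝ)) ≤ x ^ (-(2/3 : ℝ)) :=
      Real.rpow_le_rpow_of_nonpos hx0 hxN (by norm_num)
    have h2 : x ^ (-(2/3 : ℝ)) = t / c := by
      rw [Real.rpow_neg hx0.le, hx23]
      rw [inv_div]
    rw [h2] at h1; exact h1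
  -- log N ≤ 3 L
  have hlogN : Real.log N ≤ 3 * L := by
    have hti : 0 < 1 / t := by positivity
    have hti3 : 3 ≤ 1 / t := by rw [le_div_iff₀ ht]; linarith
    have h1 : x ≤ (1 / t) ^ (2 : ℝ) := by
      calc x ≤ (1 / t) ^ (3/2 : ℝ) := by
            apply Real.rpow_le_rpow hct.le _ (by norm_num)
            gcongr; linarith
        _ ≤ (1 / t) ^ (2 : ℝ) := by
            apply Real.rpow_le_rpow_of_exponent_le (by linarith) (by norm_num)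
    have h2 : (1 / t) ^ (2 : ℝ) = (1 / t) ^ 2 := by
      rw [← Real.rpow_natCast]; norm_num
    rw [h2] at h1
    have h3 : (N : ℝ) ≤ (1 / t) ^ 3 := by
      have : (1 / t) ^ 2 + 1 ≤ (1 / t) ^ 3 := by nlinarith
      linarith
    have h4 : Real.log N ≤ Real.log ((1 / t) ^ 3) :=
      Real.log_le_log (by exact_mod_cast hN1) h3
    rw [Real.log_pow, one_div, Real.log_inv] at h4
    rw [hLe]; push_cast at h4; linarith
  -- pointwise comparison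
  have hpt : ∀ m : ℕ, gg c t m ≤ t ^ 6 * (if m < N then 1 / ((m : ℝ) + 1) else 0)
      + t ^ 6 * L * ((m : ℝ) + 1) ^ (-(5/3 : ℝ))
      + 9 * t ^ 5 * L * (if N ≤ m + 2 then ((m : ℝ) + 3) ^ (-(5/3 : ℝ)) else 0) := by
    intro m
    have hr : 0 < (m : ℝ) + 1 := by positivity
    have hr1 : 0 < (m : ℝ) + 2 := by positivity
    have hr53 : 0 ≤ ((m : ℝ) + 1) ^ (-(5/3 : ℝ)) := by positivity
    have hr353 : 0 ≤ ((m : ℝ) + 3) ^ (-(5/3 : ℝ)) := by positivity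
    have hm2 : ((m : ℝ) + 2) = (((m : ℝ) + 2) ^ (2/3 : ℝ)) ^ (3/2 : ℝ) := by
      rw [← Real.rpow_mul hr1.le]; norm_num
    unfold gg
    by_cases h1 : t * ((m : ℝ) + 2) ^ (2/3 : ℝ) ≤ c
    · have h2 : m < N := by
        have : (m : ℝ) + 2 ≤ x := by
          rw [hm2, hx]
          apply Real.rpow_le_rpow (by positivity) _ (by norm_num)
          rw [le_div_iff₀ ht]; linarith
        have h3 : (m : ℝ) < N := by linarith
        exact_mod_cast h3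
      rw [if_pos h1, if_pos h2]
      have q1 : 0 ≤ 9 * t ^ 5 * L * (if N ≤ m + 2 then ((m : ℝ) + 3) ^ (-(5/3 : ℝ)) else 0) := by
        split_ifs <;> positivity
      have : t ^ 6 * (1 / ((m : ℝ) + 1) + |Real.log t| * ((m : ℝ) + 1) ^ (-(5/3 : ℝ)))
        = t ^ 6 * (1 / ((m : ℝ) + 1)) + t ^ 6 * L * ((m : ℝ) + 1) ^ (-(5/3 : ℝ)) := by rw [hL]; ring
      linarith
    · have h2 : N ≤ m + 2 := by
        have : x ≤ (m : ℝ) + 2 := by
          rw [hm2, hx]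
          apply Real.rpow_le_rpow hct.le _ (by norm_num)
          rw [div_le_iff₀ ht]; linarith
        rw [hN]
        apply Nat.ceil_le.2
        push_cast; exact this
      rw [if_neg h1, if_pos h2]
      have q2 : 0 ≤ t ^ 6 * (if m < N then 1 / ((m : ℝ) + 1) else 0) := by
        split_ifs <;> positivity
      have q3 : ((m : ℝ) + 1) ^ (-(5/3 : ℝ)) ≤ 9 * ((m : ℝ) + 3) ^ (-(5/3 : ℝ)) := by
        have e1 : (3 * ((m : ℝ) + 1)) ^ (-(5/3 : ℝ)) ≤ ((m : ℝ) + 3) ^ (-(5/3 : ℝ)) := by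
          apply Real.rpow_le_rpow_of_nonpos (by positivity) _ (by norm_num)
          have : (0:ℝ) ≤ m := by positivity
          linarith
        rw [Real.mul_rpow (by norm_num) hr.le] at e1
        have e2 : (1:ℝ)/9 ≤ (3:ℝ) ^ (-(5/3 : ℝ)) := by
          have : (3:ℝ) ^ (-(2:ℝ)) ≤ (3:ℝ) ^ (-(5/3 : ℝ)) :=
            Real.rpow_le_rpow_of_exponent_le (by norm_num) (by norm_num)
          have h9 : (3:ℝ) ^ (-(2:ℝ)) = 1/9 := by
            rw [Real.rpow_neg (by norm_num)]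
            norm_num
          linarith
        nlinarith
      have q4 : 0 ≤ t ^ 6 * L * ((m : ℝ) + 1) ^ (-(5/3 : ℝ)) := by positivity
      have q5 : t ^ 5 * L * ((m : ℝ) + 1) ^ (-(5/3 : ℝ)) ≤ 9 * t ^ 5 * L * ((m : ℝ) + 3) ^ (-(5/3 : ℝ)) := by
        have := mul_le_mul_of_nonneg_left q3 (by positivity : 0 ≤ t ^ 5 * L)
        linarith
      linarith
  calc ∑ m ∈ Finset.range n, gg c t m
      ≤ ∑ m ∈ Finset.range n, (t ^ 6 * (if m < N then 1 / ((m : ℝ) + 1) else 0)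
      + t ^ 6 * L * ((m : ℝ) + 1) ^ (-(5/3 : ℝ))
      + 9 * t ^ 5 * L * (if N ≤ m + 2 then ((m : ℝ) + 3) ^ (-(5/3 : ℝ)) else 0)) :=
        Finset.sum_le_sum fun m _ => hpt m
    _ = t ^ 6 * (∑ m ∈ Finset.range n, (if m < N then 1 / ((m : ℝ) + 1) else 0))
      + t ^ 6 * L * (∑ m ∈ Finset.range n, ((m : ℝ) + 1) ^ (-(5/3 : ℝ)))
      + 9 * t ^ 5 * L * (∑ m ∈ Finset.range n,
          (if N ≤ m + 2 then ((m : ℝ) + 3) ^ (-(5/3 : ℝ)) else 0)) := by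
        rw [Finset.sum_add_distrib, Finset.sum_add_distrib, Finset.mul_sum, Finset.mul_sum,
          Finset.mul_sum]
    _ ≤ t ^ 6 * (1 + 3 * L) + t ^ 6 * L * S + 9 * t ^ 5 * L * ((3/2) * (t / c)) := by
        have s1 : ∑ m ∈ Finset.range n, (if m < N then 1 / ((m : ℝ) + 1) else 0) ≤ 1 + 3 * L := by
          calc ∑ m ∈ Finset.range n, (if m < N then 1 / ((m : ℝ) + 1) else 0)
              = ∑ m ∈ (Finset.range n).filter (fun m => m < N), 1 / ((m : ℝ) + 1) := by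
                rw [Finset.sum_filter]
            _ ≤ ∑ m ∈ Finset.range N, 1 / ((m : ℝ) + 1) := by
                apply Finset.sum_le_sum_of_subset_of_nonneg
                · intro m hm
                  simp only [Finset.mem_filter, Finset.mem_range] at hm ⊢
                  exact hm.2
                · intro m _ _; positivity
            _ ≤ 1 + Real.log N := harm N
            _ ≤ _ := by linarith
        have s2 := hS n
        have s3 := tailsum N hN1 n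
        have s4 : 0 ≤ ((max N (n + 2) : ℕ) : ℝ) ^ (-(2/3 : ℝ)) := by positivity
        have s5 : ∑ m ∈ Finset.range n, (if N ≤ m + 2 then ((m : ℝ) + 3) ^ (-(5/3 : ℝ)) else 0)
            ≤ (3/2) * (t / c) := by linarith
        gcongr
    _ ≤ _ := by
        have : 9 * t ^ 5 * L * ((3/2) * (t / c)) = (27/2) / c * t ^ 6 * L := by ring
        rw [this]
        have h1 : t ^ 6 * (1 + 3 * L) ≤ 4 * t ^ 6 * L := by
          have : 0 < t ^ 6 := by positivity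
          nlinarith
        have h2 : (27/2) / c * t ^ 6 * L ≤ 14 / c * t ^ 6 * L := by
          gcongr; norm_num
        have h3 : (4 + S + 14 / c) * t ^ 6 * L = 4 * t ^ 6 * L + t ^ 6 * L * S + 14 / c * t ^ 6 * L := by ring
        linarith

lemma good_pt (K K1 q t u L l R h w p S Z1 Z2 Z3 Z4 W4 s : ℝ) (hK : 1 ≤ K) (hK1 : 1 ≤ K1)
    (ht : 0 < t) (ht1 : t ≤ 1) (hu : 0 < u) (hu1 : u ≤ 1) (hL : 1 ≤ L) (hl : |l| = L)
    (hR : 1 ≤ R) (hRu : R * u ^ 7 = u ^ 3) (hh : |h| ≤ K * u ^ 7) (hw : |w| ≤ K ^ 2)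
    (hp : |p - (t * h / 2 + w * h * t ^ 3)| ≤ 28 * K ^ 5 * t ^ 5 * |h|)
    (hS : |S| ≤ 4 * K1 * t)
    (hSe : |S - (Z1 * t + Z2 * t ^ 2 + (Z3 + 2 * q * l) * t ^ 3 + (Z4 + W4 * l) * t ^ 4)|
      ≤ K1 * t ^ 5 * (5 * R + 2 * L))
    (hZ3 : |Z3| ≤ 9 * K1 * R) (hZ4 : |Z4| ≤ 5 * K1 * R) (hW4 : |W4| ≤ 2 * K1) (hs : |s| = 1) :
    |s * p * S - (s * h * Z1 / 2 * t ^ 2 + s * h * Z2 / 2 * t ^ 3 + s * h * (Z3 / 2 + w * Z1) * t ^ 4
      + s * h * (Z4 / 2 + w * Z2) * t ^ 5 + (s * h * q * t ^ 4 + s * h * W4 / 2 * t ^ 5) * l)|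
      ≤ (K * (112 * K ^ 5 * K1 + 10 * K ^ 2 * K1 + K ^ 2 * (14 * K1 + 2 * |q|))) * (t ^ 6 * (u ^ 3 + L * u ^ 5)) := by
  have hK0 : 0 < K := by linarith
  have hK10 : 0 < K1 := by linarith
  have hL0 : 0 < L := by linarith
  have hR0 : 0 < R := by linarith
  set p0 := t * h / 2 + w * h * t ^ 3 with hp0
  set Sp := Z1 * t + Z2 * t ^ 2 + (Z3 + 2 * q * l) * t ^ 3 + (Z4 + W4 * l) * t ^ 4 with hSp
  set rest := (Z3 + 2 * q * l) * t ^ 3 + (Z4 + W4 * l) * t ^ 4 with hrest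
  have e1 : s * p * S - (s * h * Z1 / 2 * t ^ 2 + s * h * Z2 / 2 * t ^ 3 + s * h * (Z3 / 2 + w * Z1) * t ^ 4
      + s * h * (Z4 / 2 + w * Z2) * t ^ 5 + (s * h * q * t ^ 4 + s * h * W4 / 2 * t ^ 5) * l)
      = s * ((p - p0) * S + p0 * (S - Sp) + w * h * t ^ 3 * rest) := by
    rw [hp0, hSp, hrest]; ring
  rw [e1, abs_mul, hs, one_mul]
  have B1 : |(p - p0) * S| ≤ 112 * K ^ 5 * K1 * (t ^ 6 * |h| * (R + L)) := by
    rw [abs_mul]
    calc |p - p0| * |S| ≤ (28 * K ^ 5 * t ^ 5 * |h|) * (4 * K1 * t) := by gcongr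
      _ = 112 * K ^ 5 * K1 * (t ^ 6 * |h| * 1) := by ring
      _ ≤ _ := by gcongr; linarith
  have hp0b : |p0| ≤ 2 * K ^ 2 * (t * |h|) := by
    calc |p0| ≤ |t * h / 2| + |w * h * t ^ 3| := abs_add_le _ _
      _ = t * |h| / 2 + |w| * |h| * t ^ 3 := by
          rw [abs_div, abs_mul, abs_mul, abs_mul, abs_of_pos ht, abs_of_pos (by norm_num : (0:ℝ) < 2),
            abs_of_pos (by positivity : 0 < t ^ 3)]
      _ ≤ t * |h| / 2 + K ^ 2 * |h| * t := by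
          have : t ^ 3 ≤ t := by nlinarith [sq_nonneg t]
          gcongr
      _ ≤ _ := by
          have h1 : 1 ≤ K ^ 2 := by nlinarith
          have h2 : 0 ≤ t * |h| := by positivity
          nlinarith
  have B2 : |p0 * (S - Sp)| ≤ 10 * K ^ 2 * K1 * (t ^ 6 * |h| * (R + L)) := by
    rw [abs_mul]
    calc |p0| * |S - Sp| ≤ (2 * K ^ 2 * (t * |h|)) * (K1 * t ^ 5 * (5 * R + 2 * L)) := by gcongr
      _ ≤ (2 * K ^ 2 * (t * |h|)) * (K1 * t ^ 5 * (5 * R + 5 * L)) := by gcongr; norm_num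
      _ = _ := by ring
  have hrb : |rest| ≤ t ^ 3 * ((14 * K1 + 2 * |q|) * (R + L)) := by
    have h1 : |Z3 + 2 * q * l| ≤ 9 * K1 * R + 2 * |q| * L := by
      calc _ ≤ |Z3| + |2 * q * l| := abs_add_le _ _
        _ = |Z3| + 2 * |q| * L := by rw [abs_mul, abs_mul, hl]; norm_num
        _ ≤ _ := by gcongr
    have h2 : |Z4 + W4 * l| ≤ 5 * K1 * R + 2 * K1 * L := by
      calc _ ≤ |Z4| + |W4 * l| := abs_add_le _ _
        _ = |Z4| + |W4| * L := by rw [abs_mul, hl]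
        _ ≤ _ := by gcongr
    calc |rest| ≤ |(Z3 + 2 * q * l) * t ^ 3| + |(Z4 + W4 * l) * t ^ 4| := abs_add_le _ _
      _ = |Z3 + 2 * q * l| * t ^ 3 + |Z4 + W4 * l| * t ^ 4 := by
          rw [abs_mul, abs_mul, abs_of_pos (by positivity : 0 < t ^ 3), abs_of_pos (by positivity : 0 < t ^ 4)]
      _ ≤ (9 * K1 * R + 2 * |q| * L) * t ^ 3 + (5 * K1 * R + 2 * K1 * L) * t ^ 3 := by
          have : t ^ 4 ≤ t ^ 3 := by nlinarith [pow_pos ht 3]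
          gcongr
      _ ≤ _ := by
          have e : t ^ 3 * ((14 * K1 + 2 * |q|) * (R + L)) - ((9 * K1 * R + 2 * |q| * L) * t ^ 3 + (5 * K1 * R + 2 * K1 * L) * t ^ 3)
            = t ^ 3 * (2 * |q| * R + 12 * K1 * L) := by ring
          have : 0 ≤ t ^ 3 * (2 * |q| * R + 12 * K1 * L) := by positivity
          linarith
  have B3 : |w * h * t ^ 3 * rest| ≤ K ^ 2 * (14 * K1 + 2 * |q|) * (t ^ 6 * |h| * (R + L)) := by
    rw [abs_mul, abs_mul, abs_mul, abs_of_pos (by positivity : 0 < t ^ 3)]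
    calc |w| * |h| * t ^ 3 * |rest| ≤ K ^ 2 * |h| * t ^ 3 * (t ^ 3 * ((14 * K1 + 2 * |q|) * (R + L))) := by
          gcongr
      _ = _ := by ring
  have hfin : t ^ 6 * |h| * (R + L) ≤ K * (t ^ 6 * (u ^ 3 + L * u ^ 5)) := by
    have h57 : u ^ 7 ≤ u ^ 5 := pow_le_pow_of_le_one hu.le hu1 (by norm_num)
    calc t ^ 6 * |h| * (R + L) ≤ t ^ 6 * (K * u ^ 7) * (R + L) := by gcongr
      _ = K * (t ^ 6 * (R * u ^ 7 + L * u ^ 7)) := by ring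
      _ = K * (t ^ 6 * (u ^ 3 + L * u ^ 7)) := by rw [hRu]
      _ ≤ _ := by gcongr
  have h3 := abs_add_three ((p - p0) * S) (p0 * (S - Sp)) (w * h * t ^ 3 * rest)
  set D := t ^ 6 * |h| * (R + L) with hD
  have hC : 0 ≤ 112 * K ^ 5 * K1 + 10 * K ^ 2 * K1 + K ^ 2 * (14 * K1 + 2 * |q|) := by positivity
  calc _ ≤ (112 * K ^ 5 * K1 + 10 * K ^ 2 * K1 + K ^ 2 * (14 * K1 + 2 * |q|)) * D := by linarith
    _ ≤ (112 * K ^ 5 * K1 + 10 * K ^ 2 * K1 + K ^ 2 * (14 * K1 + 2 * |q|)) * (K * (t ^ 6 * (u ^ 3 + L * u ^ 5))) := by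
        gcongr
    _ = _ := by ring

lemma bad_pt (K K1 q t u L l lr C2 κ h w p S Z1 Z2 Z3 Z4 W4 s : ℝ) (hK : 1 ≤ K) (hK1 : 1 ≤ K1)
    (ht : 0 < t) (ht1 : t ≤ 1) (hu : 0 < u) (hu1 : u ≤ 1) (hL : 1 ≤ L) (hl : |l| = L)
    (hκ : 1 ≤ κ) (hC2 : 0 ≤ C2) (huk : u ^ 2 ≤ κ * t) (hlr : 0 ≤ lr) (hlr1 : lr * u ^ 2 ≤ C2 * L * t)
    (hlr2 : lr * u ≤ 3) (hh : |h| ≤ K * u ^ 7) (hw : |w| ≤ K ^ 2)
    (hp : |p| ≤ 30 * K ^ 5 * t * |h|)
    (hS : |S| ≤ 2 * K1 * (t * u ^ 4 + t ^ 6))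
    (hZ1 : |Z1| ≤ 2 * K1 * u ^ 4) (hZ2 : |Z2| ≤ 3 * K1 * (lr * u ^ 2))
    (hZ3 : |Z3| ≤ 3 * K1 * lr) (hZ4 : |Z4| * u ^ 2 ≤ 5 * K1) (hW4 : |W4| ≤ 2 * K1) (hs : |s| = 1) :
    |s * p * S - (s * h * Z1 / 2 * t ^ 2 + s * h * Z2 / 2 * t ^ 3 + s * h * (Z3 / 2 + w * Z1) * t ^ 4
      + s * h * (Z4 / 2 + w * Z2) * t ^ 5 + (s * h * q * t ^ 4 + s * h * W4 / 2 * t ^ 5) * l)|
      ≤ (60 * K ^ 6 * K1 * (κ ^ 3 + 1) + K * K1 * κ ^ 3 + 2 * K * K1 * (C2 * κ) + 2 * K * K1 * C2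
        + 2 * K ^ 3 * K1 * κ + 3 * K * K1 + 9 * K ^ 3 * K1 + K * |q| * κ + K * K1)
        * (t ^ 5 * L * u ^ 5) := by
  have hK0 : 0 < K := by linarith
  have hK10 : 0 < K1 := by linarith
  have hL0 : 0 < L := by linarith
  have hκ0 : 0 < κ := by linarith
  set E := t ^ 5 * L * u ^ 5 with hE
  have hE1 : t ^ 5 * u ^ 5 ≤ E := by
    rw [hE]
    have : t ^ 5 * u ^ 5 * 1 ≤ t ^ 5 * u ^ 5 * L := by gcongr
    linarith
  have hE0 : 0 ≤ E := by positivity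
  have m1 : t ^ 2 * u ^ 11 ≤ κ ^ 3 * E := by
    calc t ^ 2 * u ^ 11 = t ^ 2 * u ^ 5 * (u ^ 2) ^ 3 := by ring
      _ ≤ t ^ 2 * u ^ 5 * (κ * t) ^ 3 := by gcongr
      _ = κ ^ 3 * (t ^ 5 * u ^ 5) := by ring
      _ ≤ _ := by gcongr
  have m2 : lr * u ^ 2 * t ^ 3 * u ^ 7 ≤ C2 * κ * E := by
    calc lr * u ^ 2 * t ^ 3 * u ^ 7 = t ^ 3 * u ^ 5 * (lr * u ^ 2) * u ^ 2 := by ring
      _ ≤ t ^ 3 * u ^ 5 * (C2 * L * t) * (κ * t) := by gcongr
      _ = _ := by rw [hE]; ring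
  have m3 : lr * t ^ 4 * u ^ 7 ≤ C2 * E := by
    calc lr * t ^ 4 * u ^ 7 = t ^ 4 * u ^ 5 * (lr * u ^ 2) := by ring
      _ ≤ t ^ 4 * u ^ 5 * (C2 * L * t) := by gcongr
      _ = _ := by rw [hE]; ring
  have m4 : t ^ 4 * u ^ 11 ≤ κ * E := by
    calc t ^ 4 * u ^ 11 = t ^ 4 * u ^ 5 * u ^ 2 * u ^ 4 := by ring
      _ ≤ t ^ 4 * u ^ 5 * (κ * t) * 1 := by
          gcongr
          exact pow_le_one₀ hu.le hu1
      _ = κ * (t ^ 5 * u ^ 5) := by ring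
      _ ≤ _ := by gcongr
  have m6 : lr * u ^ 2 * t ^ 5 * u ^ 7 ≤ 3 * E := by
    calc lr * u ^ 2 * t ^ 5 * u ^ 7 = t ^ 5 * u ^ 5 * (lr * u) * u ^ 3 := by ring
      _ ≤ t ^ 5 * u ^ 5 * 3 * 1 := by
          gcongr
          exact pow_le_one₀ hu.le hu1
      _ = 3 * (t ^ 5 * u ^ 5) := by ring
      _ ≤ _ := by gcongr
  have m7 : t ^ 4 * L * u ^ 7 ≤ κ * E := by
    calc t ^ 4 * L * u ^ 7 = t ^ 4 * L * u ^ 5 * u ^ 2 := by ring
      _ ≤ t ^ 4 * L * u ^ 5 * (κ * t) := by gcongr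
      _ = _ := by rw [hE]; ring
  have m8 : t ^ 5 * L * u ^ 7 ≤ E := by
    have : u ^ 7 ≤ u ^ 5 := pow_le_pow_of_le_one hu.le hu1 (by norm_num)
    rw [hE]; gcongr
  have m9 : t ^ 7 * u ^ 7 ≤ E := by
    have h1 : u ^ 7 ≤ u ^ 5 := pow_le_pow_of_le_one hu.le hu1 (by norm_num)
    have h2 : t ^ 7 ≤ t ^ 5 := pow_le_pow_of_le_one ht.le ht1 (by norm_num)
    calc t ^ 7 * u ^ 7 ≤ t ^ 5 * u ^ 5 := by gcongr
      _ ≤ E := hE1
  -- T
  have T0 : |s * p * S| ≤ 60 * K ^ 6 * K1 * (κ ^ 3 + 1) * E := by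
    rw [abs_mul, abs_mul, hs, one_mul]
    calc |p| * |S| ≤ (30 * K ^ 5 * t * (K * u ^ 7)) * (2 * K1 * (t * u ^ 4 + t ^ 6)) := by
          have : |p| ≤ 30 * K ^ 5 * t * (K * u ^ 7) := hp.trans (by gcongr)
          gcongr
      _ = 60 * K ^ 6 * K1 * (t ^ 2 * u ^ 11 + t ^ 7 * u ^ 7) := by ring
      _ ≤ 60 * K ^ 6 * K1 * (κ ^ 3 * E + E) := by gcongr
      _ = _ := by ring
  have P1 : |s * h * Z1 / 2 * t ^ 2| ≤ K * K1 * κ ^ 3 * E := by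
    rw [abs_mul, abs_div, abs_mul, abs_mul, hs, one_mul, abs_of_pos (by positivity : 0 < t ^ 2),
      abs_of_pos (by norm_num : (0:ℝ) < 2)]
    calc |h| * |Z1| / 2 * t ^ 2 ≤ (K * u ^ 7) * (2 * K1 * u ^ 4) / 2 * t ^ 2 := by gcongr
      _ = K * K1 * (t ^ 2 * u ^ 11) := by ring
      _ ≤ K * K1 * (κ ^ 3 * E) := by gcongr
      _ = _ := by ring
  have P2 : |s * h * Z2 / 2 * t ^ 3| ≤ 2 * K * K1 * (C2 * κ) * E := by
    rw [abs_mul, abs_div, abs_mul, abs_mul, hs, one_mul, abs_of_pos (by positivity : 0 < t ^ 3),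
      abs_of_pos (by norm_num : (0:ℝ) < 2)]
    calc |h| * |Z2| / 2 * t ^ 3 ≤ (K * u ^ 7) * (3 * K1 * (lr * u ^ 2)) / 2 * t ^ 3 := by gcongr
      _ = 3 / 2 * K * K1 * (lr * u ^ 2 * t ^ 3 * u ^ 7) := by ring
      _ ≤ 2 * K * K1 * (C2 * κ * E) := by gcongr; norm_num
      _ = _ := by ring
  have P3 : |s * h * (Z3 / 2 + w * Z1) * t ^ 4| ≤ 2 * K * K1 * C2 * E + 2 * K ^ 3 * K1 * κ * E := by
    rw [abs_mul, abs_mul, abs_mul, hs, one_mul, abs_of_pos (by positivity : 0 < t ^ 4)]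
    have : |Z3 / 2 + w * Z1| ≤ 3 * K1 * lr / 2 + K ^ 2 * (2 * K1 * u ^ 4) := by
      calc _ ≤ |Z3 / 2| + |w * Z1| := abs_add_le _ _
        _ = |Z3| / 2 + |w| * |Z1| := by rw [abs_div, abs_mul, abs_of_pos (by norm_num : (0:ℝ) < 2)]
        _ ≤ _ := by gcongr
    calc |h| * |Z3 / 2 + w * Z1| * t ^ 4
        ≤ (K * u ^ 7) * (3 * K1 * lr / 2 + K ^ 2 * (2 * K1 * u ^ 4)) * t ^ 4 := by gcongr
      _ = 3 / 2 * K * K1 * (lr * t ^ 4 * u ^ 7) + 2 * K ^ 3 * K1 * (t ^ 4 * u ^ 11) := by ring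
      _ ≤ 2 * K * K1 * (C2 * E) + 2 * K ^ 3 * K1 * (κ * E) := by gcongr; norm_num
      _ = _ := by ring
  have P4 : |s * h * (Z4 / 2 + w * Z2) * t ^ 5| ≤ 3 * K * K1 * E + 9 * K ^ 3 * K1 * E := by
    rw [abs_mul, abs_mul, abs_mul, hs, one_mul, abs_of_pos (by positivity : 0 < t ^ 5)]
    have : |Z4 / 2 + w * Z2| ≤ |Z4| / 2 + K ^ 2 * (3 * K1 * (lr * u ^ 2)) := by
      calc _ ≤ |Z4 / 2| + |w * Z2| := abs_add_le _ _
        _ = |Z4| / 2 + |w| * |Z2| := by rw [abs_div, abs_mul, abs_of_pos (by norm_num : (0:ℝ) < 2)]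
        _ ≤ _ := by gcongr
    calc |h| * |Z4 / 2 + w * Z2| * t ^ 5
        ≤ (K * u ^ 7) * (|Z4| / 2 + K ^ 2 * (3 * K1 * (lr * u ^ 2))) * t ^ 5 := by gcongr
      _ = 1 / 2 * K * (t ^ 5 * u ^ 5) * (|Z4| * u ^ 2) + 3 * K ^ 3 * K1 * (lr * u ^ 2 * t ^ 5 * u ^ 7) := by ring
      _ ≤ 1 / 2 * K * E * (5 * K1) + 3 * K ^ 3 * K1 * (3 * E) := by gcongr
      _ ≤ _ := by
          have : 0 ≤ K * K1 * E := by positivity
          linarith
  have P5 : |(s * h * q * t ^ 4 + s * h * W4 / 2 * t ^ 5) * l| ≤ K * |q| * κ * E + K * K1 * E := by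
    rw [abs_mul, hl]
    have : |s * h * q * t ^ 4 + s * h * W4 / 2 * t ^ 5| ≤ (K * u ^ 7) * |q| * t ^ 4 + (K * u ^ 7) * (2 * K1) / 2 * t ^ 5 := by
      calc _ ≤ |s * h * q * t ^ 4| + |s * h * W4 / 2 * t ^ 5| := abs_add_le _ _
        _ = |h| * |q| * t ^ 4 + |h| * |W4| / 2 * t ^ 5 := by
            rw [abs_mul, abs_mul, abs_mul, hs, one_mul, abs_of_pos (by positivity : 0 < t ^ 4),
              abs_mul, abs_div, abs_mul, abs_mul, hs, one_mul, abs_of_pos (by positivity : 0 < t ^ 5),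
              abs_of_pos (by norm_num : (0:ℝ) < 2)]
        _ ≤ _ := by gcongr
    calc _ ≤ ((K * u ^ 7) * |q| * t ^ 4 + (K * u ^ 7) * (2 * K1) / 2 * t ^ 5) * L := by gcongr
      _ = K * |q| * (t ^ 4 * L * u ^ 7) + K * K1 * (t ^ 5 * L * u ^ 7) := by ring
      _ ≤ K * |q| * (κ * E) + K * K1 * E := by gcongr
      _ = _ := by ring
  have A1 := abs_sub (s * p * S) (s * h * Z1 / 2 * t ^ 2 + s * h * Z2 / 2 * t ^ 3 + s * h * (Z3 / 2 + w * Z1) * t ^ 4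
      + s * h * (Z4 / 2 + w * Z2) * t ^ 5 + (s * h * q * t ^ 4 + s * h * W4 / 2 * t ^ 5) * l)
  have A2 := abs_add_le (s * h * Z1 / 2 * t ^ 2 + s * h * Z2 / 2 * t ^ 3 + s * h * (Z3 / 2 + w * Z1) * t ^ 4
      + s * h * (Z4 / 2 + w * Z2) * t ^ 5) ((s * h * q * t ^ 4 + s * h * W4 / 2 * t ^ 5) * l)
  have A3 := abs_add_le (s * h * Z1 / 2 * t ^ 2 + s * h * Z2 / 2 * t ^ 3 + s * h * (Z3 / 2 + w * Z1) * t ^ 4)
      (s * h * (Z4 / 2 + w * Z2) * t ^ 5)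
  have A4 := abs_add_three (s * h * Z1 / 2 * t ^ 2) (s * h * Z2 / 2 * t ^ 3) (s * h * (Z3 / 2 + w * Z1) * t ^ 4)
  linarith

lemma upow (r : ℝ) (hr : 0 < r) (k : ℕ) : (r ^ (-(1/3:ℝ))) ^ k = r ^ (-((k:ℝ)/3)) := by
  rw [← Real.rpow_natCast, ← Real.rpow_mul hr.le]; congr 1; ring

/-- facts on the size of the elementary quantities -/
lemma facts (m : ℕ) : ∃ u R lr : ℝ, 0 < u ∧ u ≤ 1 ∧ 1 ≤ R ∧ 1 ≤ lr ∧ R * u ^ 7 = u ^ 3 ∧
    u ^ 3 = 1 / ((m : ℝ) + 1) ∧ u ^ 5 = ((m : ℝ) + 1) ^ (-(5/3 : ℝ)) ∧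
    u ^ 7 = ((m : ℝ) + 1) ^ (-(7/3 : ℝ)) ∧ u ^ 4 = ((m : ℝ) + 1) ^ (-(4/3 : ℝ)) ∧
    u ^ 2 = ((m : ℝ) + 1) ^ (-(2/3 : ℝ)) ∧ R = ((m : ℝ) + 1) ^ (4/3 : ℝ) ∧
    lr = 1 + Real.log ((m : ℝ) + 1) ∧ lr * u ≤ 3 ∧ lr ≤ 3 * R ∧
    ((m : ℝ) + 1) ^ (2/3 : ℝ) * u ^ 2 = 1 ∧ ((m : ℝ) + 1) ^ (2/3 : ℝ) ≤ R ∧
    ((m : ℝ) + 2) ^ (4/3 : ℝ) ≤ 4 * R ∧ ((m : ℝ) + 2) ^ (2/3 : ℝ) ≤ 2 * ((m : ℝ) + 1) ^ (2/3 : ℝ) ∧
    1 + Real.log ((m : ℝ) + 2) ≤ 2 * lr ∧ ((m : ℝ) + 2) ^ (-(4/3 : ℝ)) ≤ u ^ 4 ∧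
    ((m : ℝ) + 2) ^ (-(2/3 : ℝ)) ≤ u ^ 2 := by
  have hr : 0 < (m : ℝ) + 1 := by positivity
  have hr1 : 1 ≤ (m : ℝ) + 1 := by have : (0:ℝ) ≤ m := by positivity
                                   linarith
  have hr2 : (m : ℝ) + 1 ≤ (m : ℝ) + 2 := by linarith
  have hr2' : (m : ℝ) + 2 ≤ 2 * ((m : ℝ) + 1) := by linarith
  set r : ℝ := (m : ℝ) + 1 with hrd
  set u : ℝ := r ^ (-(1/3:ℝ)) with hu
  have hu0 : 0 < u := Real.rpow_pos_of_pos hr _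
  have hu1 : u ≤ 1 := Real.rpow_le_one_of_one_le_of_nonpos hr1 (by norm_num)
  have hR1 : 1 ≤ r ^ (4/3 : ℝ) := Real.one_le_rpow hr1 (by norm_num)
  have e7 : u ^ 7 = r ^ (-(7/3 : ℝ)) := by rw [hu, upow r hr 7]; norm_num
  have e5 : u ^ 5 = r ^ (-(5/3 : ℝ)) := by rw [hu, upow r hr 5]; norm_num
  have e4 : u ^ 4 = r ^ (-(4/3 : ℝ)) := by rw [hu, upow r hr 4]; norm_num
  have e3 : u ^ 3 = 1 / r := by
    rw [hu, upow r hr 3]; norm_num
    rw [Real.rpow_neg_one]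
  have e2 : u ^ 2 = r ^ (-(2/3 : ℝ)) := by rw [hu, upow r hr 2]; norm_num
  have hlog0 : 0 ≤ Real.log r := Real.log_nonneg hr1
  have h13 : r ^ (1/3 : ℝ) * u = 1 := by
    rw [hu, ← Real.rpow_add hr]; norm_num
  have hr13 : 0 < r ^ (1/3 : ℝ) := Real.rpow_pos_of_pos hr _
  have hlr : 1 + Real.log r ≤ 3 * r ^ (1/3 : ℝ) := by
    have h1 := Real.log_le_sub_one_of_pos hr13
    rw [Real.log_rpow hr] at h1
    linarith
  refine ⟨u, r ^ (4/3 : ℝ), 1 + Real.log r, hu0, hu1, hR1, by linarith, ?_, e3, e5, e7, e4, e2, rfl, rfl,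
    ?_, ?_, ?_, ?_, ?_, ?_, ?_, ?_, ?_⟩
  · rw [e7, e3, ← Real.rpow_add hr]; norm_num
    rw [Real.rpow_neg_one]
  · calc (1 + Real.log r) * u ≤ (3 * r ^ (1/3 : ℝ)) * u := by gcongr
      _ = 3 * (r ^ (1/3 : ℝ) * u) := by ring
      _ = 3 := by rw [h13]; ring
  · have : r ^ (1/3 : ℝ) ≤ r ^ (4/3 : ℝ) := Real.rpow_le_rpow_of_exponent_le hr1 (by norm_num)
    linarith
  · rw [e2, ← Real.rpow_add hr]; norm_num
  · exact Real.rpow_le_rpow_of_exponent_le hr1 (by norm_num)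
  · calc ((m : ℝ) + 2) ^ (4/3 : ℝ) ≤ (2 * r) ^ (4/3 : ℝ) :=
          Real.rpow_le_rpow (by positivity) hr2' (by norm_num)
      _ = 2 ^ (4/3 : ℝ) * r ^ (4/3 : ℝ) := Real.mul_rpow (by norm_num) hr.le
      _ ≤ 4 * r ^ (4/3 : ℝ) := by
          have : (2:ℝ) ^ (4/3 : ℝ) ≤ 2 ^ (2:ℝ) := Real.rpow_le_rpow_of_exponent_le (by norm_num) (by norm_num)
          have h4 : (2:ℝ) ^ (2:ℝ) = 4 := by norm_num
          rw [h4] at this
          gcongr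
  · calc ((m : ℝ) + 2) ^ (2/3 : ℝ) ≤ (2 * r) ^ (2/3 : ℝ) :=
          Real.rpow_le_rpow (by positivity) hr2' (by norm_num)
      _ = 2 ^ (2/3 : ℝ) * r ^ (2/3 : ℝ) := Real.mul_rpow (by norm_num) hr.le
      _ ≤ 2 * r ^ (2/3 : ℝ) := by
          have : (2:ℝ) ^ (2/3 : ℝ) ≤ 2 ^ (1:ℝ) := Real.rpow_le_rpow_of_exponent_le (by norm_num) (by norm_num)
          rw [Real.rpow_one] at this
          gcongr
  · have h1 : Real.log ((m : ℝ) + 2) ≤ Real.log (2 * r) := Real.log_le_log (by positivity) hr2'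
    rw [Real.log_mul (by norm_num) hr.ne'] at h1
    have h2 : Real.log 2 ≤ 1 := by
      have := Real.log_le_sub_one_of_pos (by norm_num : (0:ℝ) < 2)
      linarith
    linarith
  · rw [e4]
    exact Real.rpow_le_rpow_of_nonpos hr hr2 (by norm_num)
  · rw [e2]
    exact Real.rpow_le_rpow_of_nonpos hr hr2 (by norm_num)

end T2

theorem T2sum (Q : Seqs) (K : ℝ) (hG : Good Q K) (ζ : ℕ → ℝ → ℝ) (z1 z2 z3 z4 w4 : ℕ → ℝ)
    (q K1 c1 t1 : ℝ) (hX : ZX ζ z1 z2 z3 z4 w4 q K1 c1 t1) :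
    ∃ c2 c3 c4 c5 l4 l5 K' t0 : ℝ, 0 < K' ∧ 0 < t0 ∧ t0 ≤ t1 ∧ ∀ t : ℝ, 0 < t → t ≤ t0 →
      |∑' m : ℕ, (-1) ^ m * Q.p m t * (ζ m t + ζ (m + 1) t)
        - (c2 * t ^ 2 + c3 * t ^ 3 + c4 * t ^ 4 + c5 * t ^ 5 + (l4 * t ^ 4 + l5 * t ^ 5) * Real.log t)|
        ≤ K' * t ^ 6 * |Real.log t| := by
  have hK := hG.K1
  have hK1 := hX.K1
  have hc := hX.cpos
  have hc3 := hX.c1
  have hK0 : 0 < K := by linarith
  have hK10 : 0 < K1 := by linarith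
  obtain ⟨Cg, hCg, hgs⟩ := T2.gsum c1 hc hc3
  let w : ℕ → ℝ := fun m => Q.b (m + 1) / 2 - Q.A (m + 1) ^ 2 / 4
  let Z1 : ℕ → ℝ := fun m => z1 m + z1 (m + 1)
  let Z2 : ℕ → ℝ := fun m => z2 m + z2 (m + 1)
  let Z3 : ℕ → ℝ := fun m => z3 m + z3 (m + 1)
  let Z4 : ℕ → ℝ := fun m => z4 m + z4 (m + 1)
  let W4 : ℕ → ℝ := fun m => w4 m + w4 (m + 1)
  let s : ℕ → ℝ := fun m => (-1) ^ m
  have hs : ∀ m, |s m| = 1 := fun m => abs_neg_one_pow m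
  have hcast : ∀ m : ℕ, ((m + 1 : ℕ) : ℝ) + 1 = (m : ℝ) + 2 := fun m => by push_cast; ring
  -- one bounds
  have hone : ∀ (m : ℕ) (a : ℝ), 0 ≤ a → ((m + 1 : ℕ) : ℝ) + 1 > 0 ∧ (((m + 1 : ℕ) : ℝ) + 1) ^ (-a) ≤ 1 := by
    intro m a ha
    refine ⟨by positivity, Real.rpow_le_one_of_one_le_of_nonpos ?_ (by linarith)⟩
    rw [hcast]; have : (0:ℝ) ≤ m := by positivity
    linarith
  have bnd : ∀ (m : ℕ) (a x : ℝ), 0 ≤ a → |x| ≤ K * (((m + 1 : ℕ) : ℝ) + 1) ^ (-a) → |x| ≤ K := by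
    intro m a x ha hx
    have := (hone m a ha).2
    calc |x| ≤ K * (((m + 1 : ℕ) : ℝ) + 1) ^ (-a) := hx
      _ ≤ K * 1 := by gcongr
      _ = K := mul_one K
  have bA : ∀ m, |Q.A (m + 1)| ≤ K := fun m => bnd m (1/3) _ (by norm_num) (hG.A (m + 1))
  have bb : ∀ m, |Q.b (m + 1)| ≤ K := fun m => bnd m (2/3) _ (by norm_num) (hG.b (m + 1))
  have bc : ∀ m, |Q.c (m + 1)| ≤ K := fun m => bnd m 1 _ (by norm_num) (hG.c (m + 1))
  have bd : ∀ m, |Q.d (m + 1)| ≤ K := fun m => bnd m (4/3) _ (by norm_num) (hG.d (m + 1))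
  have bg : ∀ m, |Q.g (m + 1)| ≤ K := fun m => bnd m (5/3) _ (by norm_num) (hG.g (m + 1))
  have hw : ∀ m, |w m| ≤ K ^ 2 := by
    intro m
    have h1 := bA m
    have h2 := bb m
    have h3 : Q.A (m + 1) ^ 2 ≤ K ^ 2 := by
      rw [← sq_abs]; gcongr
    have h4 := abs_le.1 h2
    have h5 : 0 ≤ Q.A (m + 1) ^ 2 := sq_nonneg _
    have h6 : K ≤ K ^ 2 := by nlinarith
    show |Q.b (m + 1) / 2 - Q.A (m + 1) ^ 2 / 4| ≤ K ^ 2
    rw [abs_le]; constructor <;> nlinarith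
  set t0 : ℝ := min t1 (1 / (2 * K)) with ht0
  have ht0p : 0 < t0 := lt_min hX.t0pos (by positivity)
  have ht01 : t0 ≤ t1 := min_le_left _ _
  have ht02 : t0 ≤ 1 / (2 * K) := min_le_right _ _
  -- p
  have hp : ∀ (m : ℕ) (t : ℝ), 0 < t → t ≤ t0 →
      |Q.p m t - (t * Q.h m / 2 + w m * Q.h m * t ^ 3)| ≤ 28 * K ^ 5 * t ^ 5 * |Q.h m| := by
    intro m t ht htt
    have ht1 : t ≤ 1 := by have := hX.t01; linarith
    have htK : 2 * K * t ≤ 1 := by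
      have : t ≤ 1 / (2 * K) := htt.trans ht02
      rw [le_div_iff₀ (by positivity)] at this
      linarith
    have h := T2.om_inv K hK _ _ _ _ _ t (bA m) (bb m) (bc m) (bd m) (bg m) ht ht1 htK
    have e : Q.p m t - (t * Q.h m / 2 + w m * Q.h m * t ^ 3)
        = t * Q.h m * (1 / (Real.exp (t * Q.A (m+1) - t ^ 2 * Q.b (m+1) + t ^ 3 * Q.c (m+1) - t ^ 4 * Q.d (m+1) + t ^ 5 * Q.g (m+1))
        + Real.exp (-(t * Q.A (m+1) + t ^ 2 * Q.b (m+1) + t ^ 3 * Q.c (m+1) + t ^ 4 * Q.d (m+1) + t ^ 5 * Q.g (m+1))))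
      - (1 / 2 + (Q.b (m+1) / 2 - Q.A (m+1) ^ 2 / 4) * t ^ 2)) := by
      show Q.p m t - (t * Q.h m / 2 + (Q.b (m + 1) / 2 - Q.A (m + 1) ^ 2 / 4) * Q.h m * t ^ 3) = _
      unfold Seqs.p Seqs.om Seqs.delp Seqs.del
      ring
    rw [e, abs_mul, abs_mul, abs_of_pos ht]
    calc t * |Q.h m| * _ ≤ t * |Q.h m| * (28 * K ^ 5 * t ^ 4) := by gcongr
      _ = _ := by ring
  have hp' : ∀ (m : ℕ) (t : ℝ), 0 < t → t ≤ t0 → |Q.p m t| ≤ 30 * K ^ 5 * t * |Q.h m| := by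
    intro m t ht htt
    have ht1 : t ≤ 1 := by have := hX.t01; linarith
    have h := hp m t ht htt
    have h1 : |t * Q.h m / 2 + w m * Q.h m * t ^ 3| ≤ t * |Q.h m| / 2 + K ^ 2 * |Q.h m| * t := by
      calc _ ≤ |t * Q.h m / 2| + |w m * Q.h m * t ^ 3| := abs_add_le _ _
        _ = t * |Q.h m| / 2 + |w m| * |Q.h m| * t ^ 3 := by
            rw [abs_div, abs_mul, abs_mul, abs_mul, abs_of_pos ht, abs_of_pos (by norm_num : (0:ℝ) < 2),
              abs_of_pos (by positivity : 0 < t ^ 3)]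
        _ ≤ _ := by
            have h3 : t ^ 3 ≤ t := by nlinarith [sq_nonneg t]
            have := hw m
            gcongr
    have h2 : |Q.p m t| ≤ |Q.p m t - (t * Q.h m / 2 + w m * Q.h m * t ^ 3)|
        + |t * Q.h m / 2 + w m * Q.h m * t ^ 3| := by
      have := abs_add_le (Q.p m t - (t * Q.h m / 2 + w m * Q.h m * t ^ 3)) (t * Q.h m / 2 + w m * Q.h m * t ^ 3)
      rwa [sub_add_cancel] at this
    have h3 : t ^ 5 ≤ t := by
      calc t ^ 5 ≤ t ^ 1 := pow_le_pow_of_le_one ht.le ht1 (by norm_num)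
        _ = t := pow_one t
    have h4 : 28 * K ^ 5 * t ^ 5 * |Q.h m| ≤ 28 * K ^ 5 * t * |Q.h m| := by gcongr
    have h5 : K ^ 2 ≤ K ^ 5 := pow_le_pow_right₀ hK (by norm_num)
    have h6 : 1 ≤ K ^ 5 := one_le_pow₀ hK
    have h7 : 0 ≤ t * |Q.h m| := by positivity
    have h8 := mul_le_mul_of_nonneg_right h5 h7
    have h9 := mul_le_mul_of_nonneg_right h6 h7
    nlinarith
  -- bounds on the coefficient sums
  have bZ1 : ∀ m : ℕ, |Z1 m| ≤ K1 * ((m : ℝ) + 1) ^ (-(4/3 : ℝ)) + K1 * ((m : ℝ) + 2) ^ (-(4/3 : ℝ)) := by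
    intro m
    have h1 := hX.z1b m
    have h2 := hX.z1b (m + 1)
    rw [hcast] at h2
    exact (abs_add_le _ _).trans (add_le_add h1 h2)
  have bZ2 : ∀ m : ℕ, |Z2 m| ≤ K1 * ((m : ℝ) + 1) ^ (-(2/3 : ℝ)) * (1 + Real.log ((m : ℝ) + 1))
      + K1 * ((m : ℝ) + 2) ^ (-(2/3 : ℝ)) * (1 + Real.log ((m : ℝ) + 2)) := by
    intro m
    have h1 := hX.z2b m
    have h2 := hX.z2b (m + 1)
    rw [hcast] at h2
    exact (abs_add_le _ _).trans (add_le_add h1 h2)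
  have bZ3 : ∀ m : ℕ, |Z3 m| ≤ K1 * (1 + Real.log ((m : ℝ) + 1)) + K1 * (1 + Real.log ((m : ℝ) + 2)) := by
    intro m
    have h1 := hX.z3b m
    have h2 := hX.z3b (m + 1)
    rw [hcast] at h2
    exact (abs_add_le _ _).trans (add_le_add h1 h2)
  have bZ4 : ∀ m : ℕ, |Z4 m| ≤ K1 * ((m : ℝ) + 1) ^ (2/3 : ℝ) + K1 * ((m : ℝ) + 2) ^ (2/3 : ℝ) := by
    intro m
    have h1 := hX.z4b m
    have h2 := hX.z4b (m + 1)
    rw [hcast] at h2
    exact (abs_add_le _ _).trans (add_le_add h1 h2)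
  have bW4 : ∀ m : ℕ, |W4 m| ≤ 2 * K1 := by
    intro m
    have h1 := hX.w4b m
    have h2 := hX.w4b (m + 1)
    have := (abs_add_le (w4 m) (w4 (m + 1))).trans (add_le_add h1 h2)
    show |w4 m + w4 (m + 1)| ≤ 2 * K1
    linarith
  -- packaged bounds
  have pack : ∀ m : ℕ, ∃ u R lr : ℝ, 0 < u ∧ u ≤ 1 ∧ 1 ≤ R ∧ 1 ≤ lr ∧ R * u ^ 7 = u ^ 3 ∧
      u ^ 3 = 1 / ((m : ℝ) + 1) ∧ u ^ 5 = ((m : ℝ) + 1) ^ (-(5/3 : ℝ)) ∧
      lr * u ≤ 3 ∧ |Q.h m| ≤ K * u ^ 7 ∧ |Z1 m| ≤ 2 * K1 * u ^ 4 ∧ |Z2 m| ≤ 3 * K1 * (lr * u ^ 2) ∧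
      |Z3 m| ≤ 3 * K1 * lr ∧ |Z3 m| ≤ 9 * K1 * R ∧ |Z4 m| ≤ 5 * K1 * R ∧ |Z4 m| * u ^ 2 ≤ 5 * K1 ∧
      (∀ t : ℝ, 0 < t → t ≤ t0 → |ζ m t + ζ (m + 1) t| ≤ 2 * K1 * (t * u ^ 4 + t ^ 6)) ∧
      (∀ t : ℝ, 0 < t → t ≤ t0 → t * ((m : ℝ) + 2) ^ (2/3 : ℝ) ≤ c1 →
        |(ζ m t + ζ (m + 1) t) - (Z1 m * t + Z2 m * t ^ 2 + (Z3 m + 2 * q * Real.log t) * t ^ 3
          + (Z4 m + W4 m * Real.log t) * t ^ 4)| ≤ K1 * t ^ 5 * (5 * R + 2 * |Real.log t|)) ∧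
      (∀ t : ℝ, 0 < t → t ≤ t0 → c1 < t * ((m : ℝ) + 2) ^ (2/3 : ℝ) →
        u ^ 2 ≤ (2 / c1) * t ∧ lr * u ^ 2 ≤ 4 * (2 / c1) * |Real.log t| * t) := by
    intro m
    obtain ⟨u, R, lr, hu, hu1, hR, hlr1, hRu, hu3, hu5, hu7, hu4, hu2, hRe, hlre, hlru, hlrR, h23, h23R,
      hm43, hm23, hlog2, hm4, hm2⟩ := T2.facts m
    have hZ1 : |Z1 m| ≤ 2 * K1 * u ^ 4 := by
      refine (bZ1 m).trans ?_
      rw [← hu4]
      have := mul_le_mul_of_nonneg_left hm4 hK10.le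
      linarith
    have hZ2 : |Z2 m| ≤ 3 * K1 * (lr * u ^ 2) := by
      refine (bZ2 m).trans ?_
      rw [← hu2, ← hlre]
      have : K1 * ((m : ℝ) + 2) ^ (-(2/3 : ℝ)) * (1 + Real.log ((m : ℝ) + 2)) ≤ K1 * u ^ 2 * (2 * lr) := by
        have h0 : 0 ≤ 1 + Real.log ((m : ℝ) + 2) := by
          have : 0 ≤ Real.log ((m : ℝ) + 2) := Real.log_nonneg (by have : (0:ℝ) ≤ m := by positivity
                                                                   linarith)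
          linarith
        gcongr
      linarith
    have hZ3 : |Z3 m| ≤ 3 * K1 * lr := by
      refine (bZ3 m).trans ?_
      rw [← hlre]
      have := mul_le_mul_of_nonneg_left hlog2 hK10.le
      linarith
    have hZ3' : |Z3 m| ≤ 9 * K1 * R := by
      refine hZ3.trans ?_
      have := mul_le_mul_of_nonneg_left hlrR hK10.le
      linarith
    have hZ4a : |Z4 m| ≤ 3 * K1 * ((m : ℝ) + 1) ^ (2/3 : ℝ) := by
      refine (bZ4 m).trans ?_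
      have := mul_le_mul_of_nonneg_left hm23 hK10.le
      linarith
    have hZ4 : |Z4 m| ≤ 5 * K1 * R := by
      refine hZ4a.trans ?_
      have := mul_le_mul_of_nonneg_left h23R hK10.le
      nlinarith
    have hZ4u : |Z4 m| * u ^ 2 ≤ 5 * K1 := by
      calc |Z4 m| * u ^ 2 ≤ 3 * K1 * ((m : ℝ) + 1) ^ (2/3 : ℝ) * u ^ 2 := by gcongr
        _ = 3 * K1 * (((m : ℝ) + 1) ^ (2/3 : ℝ) * u ^ 2) := by ring
        _ = 3 * K1 := by rw [h23]; ring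
        _ ≤ _ := by linarith
    refine ⟨u, R, lr, hu, hu1, hR, hlr1, hRu, hu3, hu5, hlru, ?_, hZ1, hZ2, hZ3, hZ3', hZ4, hZ4u, ?_, ?_, ?_⟩
    · rw [hu7]; exact hG.h m
    · intro t ht htt
      have h1 := hX.crude m t ht (htt.trans ht01)
      have h2 := hX.crude (m + 1) t ht (htt.trans ht01)
      rw [hcast] at h2
      rw [← hu4] at h1
      have h3 : K1 * (t * ((m : ℝ) + 2) ^ (-(4/3 : ℝ)) + t ^ 6) ≤ K1 * (t * u ^ 4 + t ^ 6) := by gcongr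
      have h4 := abs_add_le (ζ m t) (ζ (m + 1) t)
      linarith
    · intro t ht htt hreg
      have hm12 : t * ((m : ℝ) + 1) ^ (2/3 : ℝ) ≤ c1 := by
        refine le_trans ?_ hreg
        gcongr; norm_num
      have h1 := hX.ex m t ht (htt.trans ht01) hm12
      have h2 := hX.ex (m + 1) t ht (htt.trans ht01) (by rw [hcast]; exact hreg)
      rw [hcast] at h2
      rw [← hRe] at h1
      have e : (ζ m t + ζ (m + 1) t) - (Z1 m * t + Z2 m * t ^ 2 + (Z3 m + 2 * q * Real.log t) * t ^ 3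
          + (Z4 m + W4 m * Real.log t) * t ^ 4)
          = (ζ m t - (z1 m * t + z2 m * t ^ 2 + (z3 m + q * Real.log t) * t ^ 3
            + (z4 m + w4 m * Real.log t) * t ^ 4))
          + (ζ (m+1) t - (z1 (m+1) * t + z2 (m+1) * t ^ 2 + (z3 (m+1) + q * Real.log t) * t ^ 3
            + (z4 (m+1) + w4 (m+1) * Real.log t) * t ^ 4)) := by
        show (ζ m t + ζ (m + 1) t) - ((z1 m + z1 (m + 1)) * t + (z2 m + z2 (m + 1)) * t ^ 2
          + ((z3 m + z3 (m + 1)) + 2 * q * Real.log t) * t ^ 3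
          + ((z4 m + z4 (m + 1)) + (w4 m + w4 (m + 1)) * Real.log t) * t ^ 4) = _
        ring
      rw [e]
      refine (abs_add_le _ _).trans ?_
      have h3 : K1 * t ^ 5 * (((m : ℝ) + 2) ^ (4/3 : ℝ) + |Real.log t|) ≤ K1 * t ^ 5 * (4 * R + |Real.log t|) := by
        gcongr
      have h4 : K1 * t ^ 5 * (5 * R + 2 * |Real.log t|) = K1 * t ^ 5 * (R + |Real.log t|)
        + K1 * t ^ 5 * (4 * R + |Real.log t|) := by ring
      linarith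
    · intro t ht htt hreg
      have ht3 : t ≤ 1/3 := by have := hX.t01; linarith
      obtain ⟨hL1, hLe⟩ := T2.logt t ht ht3
      set L := |Real.log t| with hL
      have hx : c1 < 2 * (t * ((m : ℝ) + 1) ^ (2/3 : ℝ)) := by
        have := mul_le_mul_of_nonneg_left hm23 ht.le
        linarith
      set r23 := ((m : ℝ) + 1) ^ (2/3 : ℝ) with hr23
      have hr23p : 0 < r23 := Real.rpow_pos_of_pos (by positivity) _
      have hx1 : 1 ≤ (2 / c1) * (t * r23) := by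
        rw [div_mul_eq_mul_div, le_div_iff₀ hc]; linarith
      have g1 : u ^ 2 ≤ (2 / c1) * t := by
        calc u ^ 2 = 1 * u ^ 2 := by ring
          _ ≤ (2 / c1) * (t * r23) * u ^ 2 := by gcongr
          _ = (2 / c1) * t * (r23 * u ^ 2) := by ring
          _ = _ := by rw [h23]; ring
      refine ⟨g1, ?_⟩
      have hxpos : 0 < t * r23 := by positivity
      have hlog : Real.log ((m : ℝ) + 1) = (3/2) * (Real.log (t * r23) + L) := by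
        rw [Real.log_mul ht.ne' hr23p.ne', hLe, hr23, Real.log_rpow (by positivity)]
        ring
      have hlogx : Real.log (t * r23) ≤ t * r23 := by
        have := Real.log_le_sub_one_of_pos hxpos
        linarith
      set x := t * r23 with hxd
      have hκ : 1 ≤ 2 / c1 := by rw [le_div_iff₀ hc]; linarith
      have hLx : (2 / c1) * L * x = (2 / c1 * x) * L := by ring
      have f1 : 1 ≤ (2 / c1) * L * x := by rw [hLx]; nlinarith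
      have f2 : x ≤ (2 / c1) * L * x := by
        have : 1 ≤ 2 / c1 * L := by nlinarith
        nlinarith
      have f3 : L ≤ (2 / c1) * L * x := by rw [hLx]; nlinarith
      have hlrb : lr ≤ 4 * (2 / c1) * L * x := by
        rw [hlre, hlog]; nlinarith
      calc lr * u ^ 2 ≤ (4 * (2 / c1) * L * x) * u ^ 2 := by gcongr
        _ = 4 * (2 / c1) * L * t * (r23 * u ^ 2) := by rw [hxd]; ring
        _ = _ := by rw [h23]; ring
  -- the coefficient sequences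
  let a2 : ℕ → ℝ := fun m => s m * Q.h m * Z1 m / 2
  let a3 : ℕ → ℝ := fun m => s m * Q.h m * Z2 m / 2
  let a4 : ℕ → ℝ := fun m => s m * Q.h m * (Z3 m / 2 + w m * Z1 m)
  let a5 : ℕ → ℝ := fun m => s m * Q.h m * (Z4 m / 2 + w m * Z2 m)
  let b4 : ℕ → ℝ := fun m => s m * Q.h m * q
  let b5 : ℕ → ℝ := fun m => s m * Q.h m * W4 m / 2
  have mksum : ∀ (f : ℕ → ℝ) (C : ℝ), (∀ m : ℕ, |f m| ≤ C * ((m : ℝ) + 1) ^ (-(5/3 : ℝ))) → Summable f := by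
    intro f C hf
    exact Summable.of_norm_bounded (T2.summ53.mul_left C) (fun m => by rw [Real.norm_eq_abs]; exact hf m)
  have two0 : (0:ℝ) < 2 := by norm_num
  have s2 : Summable a2 := by
    refine mksum a2 (K * K1) fun m => ?_
    obtain ⟨u, R, lr, hu, hu1, hR, hlr1, hRu, hu3, hu5, hlru, hh, hZ1, hZ2, hZ3, hZ3', hZ4, hZ4u, -, -, -⟩ := pack m
    rw [← hu5]
    show |s m * Q.h m * Z1 m / 2| ≤ _
    rw [abs_div, abs_mul, abs_mul, hs, one_mul, abs_of_pos two0]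
    calc |Q.h m| * |Z1 m| / 2 ≤ (K * u ^ 7) * (2 * K1 * u ^ 4) / 2 := by gcongr
      _ = K * K1 * (u ^ 5 * u ^ 6) := by ring
      _ ≤ K * K1 * (u ^ 5 * 1) := by gcongr; exact pow_le_one₀ hu.le hu1
      _ = _ := by ring
  have s3 : Summable a3 := by
    refine mksum a3 (5 * K * K1) fun m => ?_
    obtain ⟨u, R, lr, hu, hu1, hR, hlr1, hRu, hu3, hu5, hlru, hh, hZ1, hZ2, hZ3, hZ3', hZ4, hZ4u, -, -, -⟩ := pack m
    rw [← hu5]
    show |s m * Q.h m * Z2 m / 2| ≤ _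
    rw [abs_div, abs_mul, abs_mul, hs, one_mul, abs_of_pos two0]
    calc |Q.h m| * |Z2 m| / 2 ≤ (K * u ^ 7) * (3 * K1 * (lr * u ^ 2)) / 2 := by gcongr
      _ = 3 / 2 * (K * K1 * (u ^ 5 * ((lr * u) * u ^ 3))) := by ring
      _ ≤ 3 / 2 * (K * K1 * (u ^ 5 * (3 * 1))) := by gcongr; exact pow_le_one₀ hu.le hu1
      _ ≤ _ := by
          have : 0 ≤ K * K1 * u ^ 5 := by positivity
          linarith
  have s4 : Summable a4 := by
    refine mksum a4 (5 * K * K1 + 2 * K ^ 3 * K1) fun m => ?_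
    obtain ⟨u, R, lr, hu, hu1, hR, hlr1, hRu, hu3, hu5, hlru, hh, hZ1, hZ2, hZ3, hZ3', hZ4, hZ4u, -, -, -⟩ := pack m
    rw [← hu5]
    show |s m * Q.h m * (Z3 m / 2 + w m * Z1 m)| ≤ _
    rw [abs_mul, abs_mul, hs, one_mul]
    have hwm := hw m
    have : |Z3 m / 2 + w m * Z1 m| ≤ 3 * K1 * lr / 2 + K ^ 2 * (2 * K1 * u ^ 4) := by
      calc _ ≤ |Z3 m / 2| + |w m * Z1 m| := abs_add_le _ _
        _ = |Z3 m| / 2 + |w m| * |Z1 m| := by rw [abs_div, abs_mul, abs_of_pos two0]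
        _ ≤ _ := by gcongr
    calc |Q.h m| * |Z3 m / 2 + w m * Z1 m| ≤ (K * u ^ 7) * (3 * K1 * lr / 2 + K ^ 2 * (2 * K1 * u ^ 4)) := by
          gcongr
      _ = 3 / 2 * (K * K1 * (u ^ 5 * ((lr * u) * u))) + 2 * (K ^ 3 * K1 * (u ^ 5 * u ^ 6)) := by ring
      _ ≤ 3 / 2 * (K * K1 * (u ^ 5 * (3 * 1))) + 2 * (K ^ 3 * K1 * (u ^ 5 * 1)) := by
          gcongr
          exact pow_le_one₀ hu.le hu1
      _ ≤ _ := by
          have : 0 ≤ K * K1 * u ^ 5 := by positivity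
          linarith
  have s5 : Summable a5 := by
    refine mksum a5 (3 * K * K1 + 9 * K ^ 3 * K1) fun m => ?_
    obtain ⟨u, R, lr, hu, hu1, hR, hlr1, hRu, hu3, hu5, hlru, hh, hZ1, hZ2, hZ3, hZ3', hZ4, hZ4u, -, -, -⟩ := pack m
    rw [← hu5]
    show |s m * Q.h m * (Z4 m / 2 + w m * Z2 m)| ≤ _
    rw [abs_mul, abs_mul, hs, one_mul]
    have hwm := hw m
    have : |Z4 m / 2 + w m * Z2 m| ≤ |Z4 m| / 2 + K ^ 2 * (3 * K1 * (lr * u ^ 2)) := by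
      calc _ ≤ |Z4 m / 2| + |w m * Z2 m| := abs_add_le _ _
        _ = |Z4 m| / 2 + |w m| * |Z2 m| := by rw [abs_div, abs_mul, abs_of_pos two0]
        _ ≤ _ := by gcongr
    calc |Q.h m| * |Z4 m / 2 + w m * Z2 m|
        ≤ (K * u ^ 7) * (|Z4 m| / 2 + K ^ 2 * (3 * K1 * (lr * u ^ 2))) := by gcongr
      _ = 1 / 2 * (K * u ^ 5 * (|Z4 m| * u ^ 2)) + 3 * (K ^ 3 * K1 * (u ^ 5 * ((lr * u) * u ^ 3))) := by ring
      _ ≤ 1 / 2 * (K * u ^ 5 * (5 * K1)) + 3 * (K ^ 3 * K1 * (u ^ 5 * (3 * 1))) := by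
          gcongr
          exact pow_le_one₀ hu.le hu1
      _ ≤ _ := by
          have : 0 ≤ K * K1 * u ^ 5 := by positivity
          linarith
  have s6 : Summable b4 := by
    refine mksum b4 (K * |q|) fun m => ?_
    obtain ⟨u, R, lr, hu, hu1, hR, hlr1, hRu, hu3, hu5, hlru, hh, hZ1, hZ2, hZ3, hZ3', hZ4, hZ4u, -, -, -⟩ := pack m
    rw [← hu5]
    show |s m * Q.h m * q| ≤ _
    rw [abs_mul, abs_mul, hs, one_mul]
    calc |Q.h m| * |q| ≤ (K * u ^ 7) * |q| := by gcongr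
      _ = K * |q| * (u ^ 5 * u ^ 2) := by ring
      _ ≤ K * |q| * (u ^ 5 * 1) := by gcongr; exact pow_le_one₀ hu.le hu1
      _ = _ := by ring
  have s7 : Summable b5 := by
    refine mksum b5 (K * K1) fun m => ?_
    obtain ⟨u, R, lr, hu, hu1, hR, hlr1, hRu, hu3, hu5, hlru, hh, hZ1, hZ2, hZ3, hZ3', hZ4, hZ4u, -, -, -⟩ := pack m
    rw [← hu5]
    show |s m * Q.h m * W4 m / 2| ≤ _
    rw [abs_div, abs_mul, abs_mul, hs, one_mul, abs_of_pos two0]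
    have hW := bW4 m
    calc |Q.h m| * |W4 m| / 2 ≤ (K * u ^ 7) * (2 * K1) / 2 := by gcongr
      _ = K * K1 * (u ^ 5 * u ^ 2) := by ring
      _ ≤ K * K1 * (u ^ 5 * 1) := by gcongr; exact pow_le_one₀ hu.le hu1
      _ = _ := by ring
  -- constants
  set CG := K * (112 * K ^ 5 * K1 + 10 * K ^ 2 * K1 + K ^ 2 * (14 * K1 + 2 * |q|)) with hCG
  set κ := 2 / c1 with hκd
  have hκ : 1 ≤ κ := by rw [hκd, le_div_iff₀ hc]; linarith
  have hκ0 : 0 < κ := by linarith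
  set CB := (60 * K ^ 6 * K1 * (κ ^ 3 + 1) + K * K1 * κ ^ 3 + 2 * K * K1 * (4 * κ * κ) + 2 * K * K1 * (4 * κ)
        + 2 * K ^ 3 * K1 * κ + 3 * K * K1 + 9 * K ^ 3 * K1 + K * |q| * κ + K * K1) with hCB
  have hCG0 : 0 ≤ CG := by positivity
  have hCB0 : 0 ≤ CB := by positivity
  refine ⟨∑' m, a2 m, ∑' m, a3 m, ∑' m, a4 m, ∑' m, a5 m, ∑' m, b4 m, ∑' m, b5 m,
    (CG + CB + 1) * Cg, t0, by positivity, ht0p, ht01, ?_⟩
  intro t ht htt
  have ht1 : t ≤ 1 := by have := hX.t01; linarith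
  have ht3 : t ≤ 1/3 := by have := hX.t01; linarith
  obtain ⟨hL1, hLe⟩ := T2.logt t ht ht3
  set P : ℕ → ℝ := fun m => a2 m * t ^ 2 + a3 m * t ^ 3 + a4 m * t ^ 4 + a5 m * t ^ 5
    + (b4 m * t ^ 4 + b5 m * t ^ 5) * Real.log t with hP
  have hasP : HasSum P ((∑' m, a2 m) * t ^ 2 + (∑' m, a3 m) * t ^ 3 + (∑' m, a4 m) * t ^ 4
      + (∑' m, a5 m) * t ^ 5 + ((∑' m, b4 m) * t ^ 4 + (∑' m, b5 m) * t ^ 5) * Real.log t) :=
    ((((s2.hasSum.mul_right _).add (s3.hasSum.mul_right _)).add (s4.hasSum.mul_right _)).add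
      (s5.hasSum.mul_right _)).add (((s6.hasSum.mul_right _).add (s7.hasSum.mul_right _)).mul_right _)
  set T : ℕ → ℝ := fun m => (-1) ^ m * Q.p m t * (ζ m t + ζ (m + 1) t) with hT
  have sT : Summable T := by
    refine mksum T (30 * K ^ 5 * t * K * (2 * K1 * (t * 1 + t ^ 6))) fun m => ?_
    obtain ⟨u, R, lr, hu, hu1, hR, hlr1, hRu, hu3, hu5, hlru, hh, hZ1, hZ2, hZ3, hZ3', hZ4, hZ4u, hSb, -, -⟩ := pack m
    rw [← hu5]
    have h1 := hp' m t ht htt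
    have h2 := hSb t ht htt
    show |(-1) ^ m * Q.p m t * (ζ m t + ζ (m + 1) t)| ≤ _
    rw [abs_mul, abs_mul, abs_neg_one_pow, one_mul]
    calc |Q.p m t| * |ζ m t + ζ (m + 1) t|
        ≤ (30 * K ^ 5 * t * (K * u ^ 7)) * (2 * K1 * (t * 1 + t ^ 6)) := by
          have h3 : |Q.p m t| ≤ 30 * K ^ 5 * t * (K * u ^ 7) := h1.trans (by gcongr)
          have h4 : |ζ m t + ζ (m + 1) t| ≤ 2 * K1 * (t * 1 + t ^ 6) := by
            refine h2.trans ?_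
            gcongr
            exact pow_le_one₀ hu.le hu1
          gcongr
      _ ≤ (30 * K ^ 5 * t * (K * u ^ 5)) * (2 * K1 * (t * 1 + t ^ 6)) := by
          have : u ^ 7 ≤ u ^ 5 := pow_le_pow_of_le_one hu.le hu1 (by norm_num)
          gcongr
      _ = _ := by ring
  have hpt : ∀ m : ℕ, |T m - P m| ≤ (CG + CB) * T2.gg c1 t m := by
    intro m
    obtain ⟨u, R, lr, hu, hu1, hR, hlr1, hRu, hu3, hu5, hlru, hh, hZ1, hZ2, hZ3, hZ3', hZ4, hZ4u, hSb, hSe, hbad⟩ := pack m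
    have h1 := hp m t ht htt
    have h1' := hp' m t ht htt
    have h2 := hSb t ht htt
    have hu4 : u ^ 4 ≤ 1 := pow_le_one₀ hu.le hu1
    unfold T2.gg
    by_cases hreg : t * ((m : ℝ) + 2) ^ (2/3 : ℝ) ≤ c1
    · rw [if_pos hreg, ← hu3, ← hu5]
      have h3 : |ζ m t + ζ (m + 1) t| ≤ 4 * K1 * t := by
        refine h2.trans ?_
        have h6 : t ^ 6 ≤ t := by
          calc t ^ 6 ≤ t ^ 1 := pow_le_pow_of_le_one ht.le ht1 (by norm_num)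
            _ = t := pow_one t
        calc 2 * K1 * (t * u ^ 4 + t ^ 6) ≤ 2 * K1 * (t * 1 + t) := by gcongr
          _ = _ := by ring
      have hg := T2.good_pt K K1 q t u |Real.log t| (Real.log t) R (Q.h m) (w m) (Q.p m t)
        (ζ m t + ζ (m + 1) t) (Z1 m) (Z2 m) (Z3 m) (Z4 m) (W4 m) (s m) hK hK1 ht ht1 hu hu1 hL1 rfl hR
        hRu hh (hw m) h1 h3 (hSe t ht htt hreg) hZ3' hZ4 (bW4 m) (hs m)
      have e : 0 ≤ CB * (t ^ 6 * (u ^ 3 + |Real.log t| * u ^ 5)) := by positivity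
      calc |T m - P m| ≤ CG * (t ^ 6 * (u ^ 3 + |Real.log t| * u ^ 5)) := hg
        _ ≤ (CG + CB) * (t ^ 6 * (u ^ 3 + |Real.log t| * u ^ 5)) := by linarith
    · rw [if_neg hreg, ← hu5]
      obtain ⟨k1, k2⟩ := hbad t ht htt (not_le.1 hreg)
      have hg := T2.bad_pt K K1 q t u |Real.log t| (Real.log t) lr (4 * κ) κ (Q.h m) (w m) (Q.p m t)
        (ζ m t + ζ (m + 1) t) (Z1 m) (Z2 m) (Z3 m) (Z4 m) (W4 m) (s m) hK hK1 ht ht1 hu hu1 hL1 rfl hκ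
        (by positivity) k1 (by linarith) k2 hlru hh (hw m) h1' h2 hZ1 hZ2 hZ3 hZ4u (bW4 m) (hs m)
      have e : 0 ≤ CG * (t ^ 5 * |Real.log t| * u ^ 5) := by positivity
      calc |T m - P m| ≤ CB * (t ^ 5 * |Real.log t| * u ^ 5) := hg
        _ ≤ (CG + CB) * (t ^ 5 * |Real.log t| * u ^ 5) := by linarith
  have hsub := sT.hasSum.sub hasP
  have hlim := (hsub.tendsto_sum_nat).abs
  refine le_of_tendsto hlim (Filter.Eventually.of_forall fun n => ?_)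
  calc |∑ m ∈ Finset.range n, (T m - P m)| ≤ ∑ m ∈ Finset.range n, |T m - P m| :=
        Finset.abs_sum_le_sum_abs _ _
    _ ≤ ∑ m ∈ Finset.range n, (CG + CB) * T2.gg c1 t m := Finset.sum_le_sum fun m _ => hpt m
    _ = (CG + CB) * ∑ m ∈ Finset.range n, T2.gg c1 t m := by rw [Finset.mul_sum]
    _ ≤ (CG + CB) * (Cg * t ^ 6 * |Real.log t|) := by
        have := hgs t ht ht3 n
        gcongr
    _ ≤ _ := by
        have : 0 ≤ Cg * t ^ 6 * |Real.log t| := by positivity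
        nlinarith


end Pool.Agent.FW
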