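import Pool.Agent.Helper155.FW.Defs

set_option autoImplicit false
open Filter Asymptotics Topology

namespace Pool.Agent.FW

/-! ## TARGETS (prove these) -/

section EmOm

noncomputable def emC (c g t : ℝ) : ℝ := c + t ^ 2 * g
noncomputable def emU (A c g t : ℝ) : ℝ := A + t ^ 2 * emC c g t
noncomputable def emV (b d t : ℝ) : ℝ := b + t ^ 2 * d
noncomputable def emS (A c g t : ℝ) : ℝ := emC c g t * (2 * A + t ^ 2 * emC c g t)
noncomputable def emM (A b c d g t : ℝ) : ℝ :=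
  -(A * g) / 2 - emC c g t ^ 2 / 4 + (d * (2 * b + t ^ 2 * d) / 4
    - (d * emU A c g t ^ 2 + b * emS A c g t) / 4 + 5 * emS A c g t * (emU A c g t ^ 2 + A ^ 2) / 48)
    - emV b d t ^ 2 * emU A c g t ^ 2 / 8 + 5 * emV b d t * emU A c g t ^ 4 / 48
    + t ^ 2 * (5 * emV b d t ^ 2 * emU A c g t ^ 4 / 96)

lemma em_poly (A b c d g t u v : ℝ) (hu : u = t * A + t ^ 3 * c + t ^ 5 * g) (hv : v = t ^ 2 * b + t ^ 4 * d) :
    (1 + v + v ^ 2 / 2) * (1 / 2 * (1 - u ^ 2 / 2 + 5 * u ^ 4 / 24)) =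
      1 / 2 + (b / 2 - A ^ 2 / 4) * t ^ 2
        + (d / 2 - A * c / 2 + b ^ 2 / 4 - b * A ^ 2 / 4 + 5 * A ^ 4 / 48) * t ^ 4
        + t ^ 6 * emM A b c d g t := by
  have hu' : u = t * emU A c g t := by rw [hu]; unfold emU emC; ring
  have hv' : v = t ^ 2 * emV b d t := by rw [hv]; unfold emV; ring
  have hU : emU A c g t ^ 2 = A ^ 2 + t ^ 2 * emS A c g t := by unfold emU emS; ring
  rw [hu', hv']
  unfold emM emV emS emU emC
  ring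

lemma em_bound (K : ℝ) : ∃ C : ℝ, 0 ≤ C ∧ ∀ A b c d g t : ℝ, |A| ≤ K → |b| ≤ K → |c| ≤ K → |d| ≤ K → |g| ≤ K →
    |t| ≤ 1 → |emM A b c d g t| ≤ C := by
  have hc : Continuous (fun x : ℝ × ℝ × ℝ × ℝ × ℝ × ℝ =>
      emM x.1 x.2.1 x.2.2.1 x.2.2.2.1 x.2.2.2.2.1 x.2.2.2.2.2) := by
    unfold emM emV emS emU emC
    fun_prop
  obtain ⟨C, hC⟩ := (isCompact_closedBall (0 : ℝ × ℝ × ℝ × ℝ × ℝ × ℝ) (max K 1)).exists_bound_of_continuousOn
    hc.continuousOn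
  refine ⟨max C 0, le_max_right _ _, ?_⟩
  intro A b c d g t hA hb hc hd hg ht
  have h1 : (A, b, c, d, g, t) ∈ Metric.closedBall (0 : ℝ × ℝ × ℝ × ℝ × ℝ × ℝ) (max K 1) := by
    rw [mem_closedBall_zero_iff]
    simp only [Prod.norm_def, Real.norm_eq_abs, sup_le_iff]
    refine ⟨hA.trans (le_max_left _ _), hb.trans (le_max_left _ _), hc.trans (le_max_left _ _),
      hd.trans (le_max_left _ _), hg.trans (le_max_left _ _), ht.trans (le_max_right _ _)⟩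
  have := hC _ h1
  rw [Real.norm_eq_abs] at this
  exact this.trans (le_max_left _ _)

lemma em_exp3 {v : ℝ} (hv : |v| ≤ 1) : |Real.exp v - (1 + v + v ^ 2 / 2)| ≤ |v| ^ 3 := by
  have h := Real.exp_bound hv (n := 3) (by norm_num)
  have e : ∑ m ∈ Finset.range 3, v ^ m / (m.factorial : ℝ) = 1 + v + v ^ 2 / 2 := by
    simp [Finset.sum_range_succ, Nat.factorial]
  rw [e] at h
  refine h.trans ?_
  have h2 : (0 : ℝ) ≤ |v| ^ 3 := by positivity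
  have h3 : ((Nat.succ 3 : ℕ) : ℝ) / (((Nat.factorial 3 : ℕ) : ℝ) * ((3 : ℕ) : ℝ)) ≤ 1 := by
    norm_num [Nat.factorial]
  nlinarith

lemma em_exp5 {u : ℝ} (hu : |u| ≤ 1) :
    |Real.exp u - (1 + u + u ^ 2 / 2 + u ^ 3 / 6 + u ^ 4 / 24)| ≤ |u| ^ 5 / 100 := by
  have h := Real.exp_bound hu (n := 5) (by norm_num)
  have e : ∑ m ∈ Finset.range 5, u ^ m / (m.factorial : ℝ) = 1 + u + u ^ 2 / 2 + u ^ 3 / 6 + u ^ 4 / 24 := by
    simp [Finset.sum_range_succ, Nat.factorial]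
  rw [e] at h
  refine h.trans ?_
  have h3 : ((Nat.succ 5 : ℕ) : ℝ) / (((Nat.factorial 5 : ℕ) : ℝ) * ((5 : ℕ) : ℝ)) = 1 / 100 := by
    norm_num [Nat.factorial]
  rw [h3]
  apply le_of_eq
  ring

lemma em_two_le (u : ℝ) : 2 ≤ Real.exp u + Real.exp (-u) := by
  have h1 := Real.add_one_le_exp u
  have h2 := Real.add_one_le_exp (-u)
  linarith

lemma em_sech {u : ℝ} (hu : |u| ≤ 1) :
    |1 / (Real.exp u + Real.exp (-u)) - 1 / 2 * (1 - u ^ 2 / 2 + 5 * u ^ 4 / 24)| ≤ |u| ^ 5 := by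
  have h1 := em_exp5 hu
  have h2 := em_exp5 (u := -u) (by rwa [abs_neg])
  rw [abs_neg] at h2
  have hC := em_two_le u
  set Ch := Real.exp u + Real.exp (-u) with hCh
  set R := Ch - 2 * (1 + u ^ 2 / 2 + u ^ 4 / 24) with hR
  have hRb : |R| ≤ |u| ^ 5 / 50 := by
    have : R = (Real.exp u - (1 + u + u ^ 2 / 2 + u ^ 3 / 6 + u ^ 4 / 24)) +
        (Real.exp (-u) - (1 + (-u) + (-u) ^ 2 / 2 + (-u) ^ 3 / 6 + (-u) ^ 4 / 24)) := by
      rw [hR, hCh]; ring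
    rw [this]
    refine (abs_add_le _ _).trans ?_
    linarith
  have hu2 : u ^ 2 ≤ 1 := by
    rw [← sq_abs]; exact pow_le_one₀ (abs_nonneg _) hu
  set q := 1 / 2 * (1 - u ^ 2 / 2 + 5 * u ^ 4 / 24) with hq
  have hqb : |q| ≤ 1 := by
    rw [abs_le, hq]
    constructor
    · nlinarith [sq_nonneg u, sq_nonneg (u ^ 2)]
    · nlinarith [sq_nonneg u, sq_nonneg (u ^ 2)]
  have hid : 1 - Ch * q = -(u ^ 6 / 12 + 5 * u ^ 8 / 576) - R * q := by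
    have : Ch = R + 2 * (1 + u ^ 2 / 2 + u ^ 4 / 24) := by rw [hR]; ring
    rw [this, hq]; ring
  have h6 : |u| ^ 6 ≤ |u| ^ 5 := pow_le_pow_of_le_one (abs_nonneg _) hu (by norm_num)
  have h8 : |u| ^ 8 ≤ |u| ^ 5 := pow_le_pow_of_le_one (abs_nonneg _) hu (by norm_num)
  have hb : |1 - Ch * q| ≤ |u| ^ 5 := by
    rw [hid]
    have e6 : u ^ 6 = |u| ^ 6 := by rw [← abs_pow]; exact (abs_of_nonneg (by positivity)).symm
    have e8 : u ^ 8 = |u| ^ 8 := by rw [← abs_pow]; exact (abs_of_nonneg (by positivity)).symm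
    have hRq : |R * q| ≤ |u| ^ 5 / 50 := by
      rw [abs_mul]
      have := mul_le_mul hRb hqb (abs_nonneg _) (by positivity)
      linarith
    have hRq' := abs_le.mp hRq
    have h0 : 0 ≤ |u| ^ 6 := by positivity
    have h0' : 0 ≤ |u| ^ 8 := by positivity
    rw [e6, e8, abs_le]
    constructor <;> linarith [hRq'.1, hRq'.2]
  have hC0 : 0 < Ch := by linarith
  have e : 1 / Ch - q = (1 - Ch * q) / Ch := by field_simp
  rw [e, abs_div, abs_of_pos hC0, div_le_iff₀ hC0]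
  have : 0 ≤ |u| ^ 5 := by positivity
  nlinarith

lemma em_inv {K : ℝ} (hK : 1 ≤ K) : ∃ C : ℝ, 0 ≤ C ∧ ∀ A b c d g t : ℝ, |A| ≤ K → |b| ≤ K → |c| ≤ K → |d| ≤ K → |g| ≤ K →
    0 < t → t ≤ 1 / (5 * K) →
    |1 / (Real.exp (t * A - t ^ 2 * b + t ^ 3 * c - t ^ 4 * d + t ^ 5 * g) +
        Real.exp (-(t * A + t ^ 2 * b + t ^ 3 * c + t ^ 4 * d + t ^ 5 * g)))
      - (1 / 2 + (b / 2 - A ^ 2 / 4) * t ^ 2
        + (d / 2 - A * c / 2 + b ^ 2 / 4 - b * A ^ 2 / 4 + 5 * A ^ 4 / 48) * t ^ 4)| ≤ C * t ^ 5 ∧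
    |1 / (Real.exp (t * A - t ^ 2 * b + t ^ 3 * c - t ^ 4 * d + t ^ 5 * g) +
        Real.exp (-(t * A + t ^ 2 * b + t ^ 3 * c + t ^ 4 * d + t ^ 5 * g)))| ≤ 2 := by
  obtain ⟨C, hC0, hC⟩ := em_bound K
  refine ⟨8 * K ^ 3 + 729 * K ^ 5 + C, by positivity, ?_⟩
  intro A b c d g t hA hb hc hd hg ht0 ht1
  have hK0 : 0 < K := by linarith
  have hKt : K * t ≤ 1 / 5 := by
    rw [le_div_iff₀ (by positivity)] at ht1
    linarith
  have ht : t ≤ 1 / 5 := by nlinarith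
  obtain ⟨u, hu⟩ : ∃ u, u = t * A + t ^ 3 * c + t ^ 5 * g := ⟨_, rfl⟩
  obtain ⟨v, hv⟩ : ∃ v, v = t ^ 2 * b + t ^ 4 * d := ⟨_, rfl⟩
  have ht3 : t ^ 3 ≤ t := by nlinarith [sq_nonneg t, mul_pos ht0 ht0]
  have ht4 : t ^ 4 ≤ t ^ 2 := by nlinarith [sq_nonneg t, mul_pos ht0 ht0, pow_pos ht0 4, pow_pos ht0 2]
  have ht5 : t ^ 5 ≤ t := by
    have : t ^ 5 = t * t ^ 4 := by ring
    have h4 : t ^ 4 ≤ 1 := by
      apply pow_le_one₀ ht0.le; linarith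
    nlinarith
  have hub : |u| ≤ 3 * K * t := by
    rw [hu]
    have h1 : |t * A| ≤ t * K := by rw [abs_mul, abs_of_pos ht0]; exact mul_le_mul_of_nonneg_left hA ht0.le
    have h2 : |t ^ 3 * c| ≤ t * K := by
      rw [abs_mul, abs_of_pos (pow_pos ht0 3)]; exact mul_le_mul ht3 hc (abs_nonneg _) ht0.le
    have h3 : |t ^ 5 * g| ≤ t * K := by
      rw [abs_mul, abs_of_pos (pow_pos ht0 5)]; exact mul_le_mul ht5 hg (abs_nonneg _) ht0.le
    have := abs_add_three (t * A) (t ^ 3 * c) (t ^ 5 * g)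
    linarith
  have hvb : |v| ≤ 2 * K * t ^ 2 := by
    rw [hv]
    have h1 : |t ^ 2 * b| ≤ t ^ 2 * K := by
      rw [abs_mul, abs_of_pos (pow_pos ht0 2)]; exact mul_le_mul_of_nonneg_left hb (by positivity)
    have h2 : |t ^ 4 * d| ≤ t ^ 2 * K := by
      rw [abs_mul, abs_of_pos (pow_pos ht0 4)]; exact mul_le_mul ht4 hd (abs_nonneg _) (by positivity)
    have := abs_add_le (t ^ 2 * b) (t ^ 4 * d)
    linarith
  have hu1 : |u| ≤ 1 := by nlinarith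
  have hv1 : |v| ≤ 1 := by nlinarith
  have e1 : Real.exp (t * A - t ^ 2 * b + t ^ 3 * c - t ^ 4 * d + t ^ 5 * g) +
        Real.exp (-(t * A + t ^ 2 * b + t ^ 3 * c + t ^ 4 * d + t ^ 5 * g)) =
      Real.exp (-v) * (Real.exp u + Real.exp (-u)) := by
    rw [mul_add, ← Real.exp_add, ← Real.exp_add]
    congr 2
    · rw [hu, hv]; ring
    · rw [hu, hv]; ring
  have hCh := em_two_le u
  have hCh0 : 0 < Real.exp u + Real.exp (-u) := by linarith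
  have e2 : 1 / (Real.exp (-v) * (Real.exp u + Real.exp (-u))) = Real.exp v * (1 / (Real.exp u + Real.exp (-u))) := by
    rw [Real.exp_neg v]
    have := Real.exp_ne_zero v
    field_simp
  rw [e1, e2]
  have hi : |1 / (Real.exp u + Real.exp (-u))| ≤ 1 / 2 := by
    rw [abs_of_pos (by positivity), div_le_div_iff₀ hCh0 (by norm_num)]
    linarith
  have hs := em_sech hu1
  have h3 := em_exp3 hv1
  have hv2 : v ^ 2 ≤ 1 := by
    rw [← sq_abs]; exact pow_le_one₀ (abs_nonneg _) hv1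
  have hvq : |1 + v + v ^ 2 / 2| ≤ 3 := by
    have := abs_le.mp hv1
    rw [abs_le]
    constructor <;> nlinarith [sq_nonneg v]
  constructor
  · have hp := em_poly A b c d g t u v hu hv
    have hM := hC A b c d g t hA hb hc hd hg (by rw [abs_of_pos ht0]; linarith)
    set I := 1 / (Real.exp u + Real.exp (-u)) with hI
    set q := 1 / 2 * (1 - u ^ 2 / 2 + 5 * u ^ 4 / 24) with hq
    have e3 : Real.exp v * I - (1 / 2 + (b / 2 - A ^ 2 / 4) * t ^ 2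
        + (d / 2 - A * c / 2 + b ^ 2 / 4 - b * A ^ 2 / 4 + 5 * A ^ 4 / 48) * t ^ 4) =
        (Real.exp v - (1 + v + v ^ 2 / 2)) * I + (1 + v + v ^ 2 / 2) * (I - q) + t ^ 6 * emM A b c d g t := by
      linear_combination hp
    rw [e3]
    refine (abs_add_three _ _ _).trans ?_
    have b1 : |(Real.exp v - (1 + v + v ^ 2 / 2)) * I| ≤ 8 * K ^ 3 * t ^ 5 := by
      rw [abs_mul]
      have hh : |v| ^ 3 ≤ (2 * K * t ^ 2) ^ 3 := pow_le_pow_left₀ (abs_nonneg _) hvb 3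
      have h6 : t ^ 6 ≤ t ^ 5 := pow_le_pow_of_le_one ht0.le (by linarith) (by norm_num)
      have hI1 : |I| ≤ 1 := by linarith
      calc |Real.exp v - (1 + v + v ^ 2 / 2)| * |I| ≤ |v| ^ 3 * 1 :=
            mul_le_mul h3 hI1 (abs_nonneg _) (by positivity)
        _ ≤ (2 * K * t ^ 2) ^ 3 := by linarith
        _ = 8 * K ^ 3 * t ^ 6 := by ring
        _ ≤ 8 * K ^ 3 * t ^ 5 := mul_le_mul_of_nonneg_left h6 (by positivity)
    have b2 : |(1 + v + v ^ 2 / 2) * (I - q)| ≤ 729 * K ^ 5 * t ^ 5 := by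
      rw [abs_mul]
      have hh : |u| ^ 5 ≤ (3 * K * t) ^ 5 := pow_le_pow_left₀ (abs_nonneg _) hub 5
      calc |1 + v + v ^ 2 / 2| * |I - q| ≤ 3 * |u| ^ 5 := mul_le_mul hvq hs (abs_nonneg _) (by norm_num)
        _ ≤ 3 * (3 * K * t) ^ 5 := by linarith
        _ = 729 * K ^ 5 * t ^ 5 := by ring
    have b3 : |t ^ 6 * emM A b c d g t| ≤ C * t ^ 5 := by
      rw [abs_mul, abs_of_pos (pow_pos ht0 6)]
      have h6 : t ^ 6 ≤ t ^ 5 := pow_le_pow_of_le_one ht0.le (by linarith) (by norm_num)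
      calc t ^ 6 * |emM A b c d g t| ≤ t ^ 5 * C := mul_le_mul h6 hM (abs_nonneg _) (by positivity)
        _ = C * t ^ 5 := by ring
    linarith
  · rw [abs_mul, abs_of_pos (Real.exp_pos v)]
    have h4 : Real.exp v ≤ 4 := by
      have := (abs_le.mp h3).2
      have h5 := (abs_le.mp hvq).2
      have h6 : |v| ^ 3 ≤ 1 := pow_le_one₀ (abs_nonneg _) hv1
      linarith
    calc Real.exp v * |1 / (Real.exp u + Real.exp (-u))| ≤ 4 * (1 / 2) :=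
          mul_le_mul h4 hi (abs_nonneg _) (by norm_num)
      _ = 2 := by norm_num

lemma em_exp1 (x : ℝ) : |Real.exp x - 1 - x| ≤ 3 * x ^ 2 * Real.exp |x| := by
  have h0 : 1 ≤ Real.exp |x| := Real.one_le_exp (abs_nonneg x)
  rcases le_or_gt |x| 1 with h | h
  · have := Real.abs_exp_sub_one_sub_id_le h
    nlinarith [sq_nonneg x]
  · have h1 : Real.exp x ≤ Real.exp |x| := Real.exp_le_exp.mpr (le_abs_self x)
    have h2 : |x| + 1 ≤ Real.exp |x| := Real.add_one_le_exp _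
    have h3 : 1 ≤ x ^ 2 := by
      rw [← sq_abs]; nlinarith
    have h4 : |Real.exp x - 1 - x| ≤ Real.exp x + 1 + |x| := by
      have e : Real.exp x - 1 - x = Real.exp x + (-1) + (-x) := by ring
      rw [e]
      refine (abs_add_three _ _ _).trans ?_
      rw [abs_neg, abs_neg, abs_of_pos (Real.exp_pos x), abs_one]
    nlinarith

lemma em_T1 {K L X t Y W J y r1 : ℝ} (hK : 1 ≤ K) (hL1' : 1 ≤ L) (ht0 : 0 < t) (hKt : K * t ≤ 1 / 5) (ht : t ≤ 1 / 5)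
    (hX0 : 0 ≤ X) (hr1 : 1 ≤ r1) (hL : L ≤ 1 + 3 / 2 * r1) (hXl : r1 ≤ K * X)
    (hY : |Y| ≤ K * L) (hW : |W| ≤ K) (hi2 : |J| ≤ 2) (hy : y = t ^ 3 * Y + t ^ 5 * W) :
    Real.exp (-(t * X)) * |(Real.exp (-y) - 1 - (-y)) * J| ≤ 24 * K ^ 2 * Real.exp K * t ^ 5 * L ^ 2 := by
  have hK0 : 0 < K := by linarith
  have ht5 : 0 < t ^ 5 := pow_pos ht0 5
  have ht3 : 0 < t ^ 3 := pow_pos ht0 3
  have ht7 : 0 < t ^ 7 := pow_pos ht0 7
  have hLL : L ≤ L ^ 2 := by nlinarith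
  -- key: exp(-tX) exp(t^3 K L) ≤ 1
  have hLX : L ≤ 5 / 2 * (K * X) := by linarith
  have hkey : t ^ 3 * (K * L) ≤ t * X := by
    have h1 : t ^ 3 * (K * L) ≤ t ^ 3 * (K * (5 / 2 * (K * X))) := by
      apply mul_le_mul_of_nonneg_left _ ht3.le
      exact mul_le_mul_of_nonneg_left hLX hK0.le
    have h2 : t ^ 3 * (K * (5 / 2 * (K * X))) = (K * t) ^ 2 * (5 / 2) * (t * X) := by ring
    have h3 : (K * t) ^ 2 * (5 / 2) ≤ 1 := by
      have : 0 ≤ K * t := by positivity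
      nlinarith
    have h4 : 0 ≤ t * X := mul_nonneg ht0.le hX0
    have h5 : (K * t) ^ 2 * (5 / 2) * (t * X) ≤ 1 * (t * X) := mul_le_mul_of_nonneg_right h3 h4
    linarith
  have h53 : t ^ 5 ≤ t ^ 3 := pow_le_pow_of_le_one ht0.le (by linarith) (by norm_num)
  have h51 : t ^ 5 ≤ 1 := pow_le_one₀ ht0.le (by linarith)
  have hyb : |y| ≤ t ^ 3 * (K * L) + t ^ 5 * K := by
    rw [hy]
    refine (abs_add_le _ _).trans ?_
    rw [abs_mul, abs_mul, abs_of_pos ht3, abs_of_pos ht5]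
    exact add_le_add (mul_le_mul_of_nonneg_left hY ht3.le) (mul_le_mul_of_nonneg_left hW ht5.le)
  have hyb2 : |y| ≤ 2 * (t ^ 3 * (K * L)) := by
    refine hyb.trans ?_
    have : t ^ 5 * K ≤ t ^ 3 * (K * L) := by
      apply mul_le_mul h53 _ hK0.le ht3.le
      nlinarith
    linarith
  have hy2 : y ^ 2 ≤ 4 * K ^ 2 * L ^ 2 * t ^ 6 := by
    rw [← sq_abs]
    calc |y| ^ 2 ≤ (2 * (t ^ 3 * (K * L))) ^ 2 := pow_le_pow_left₀ (abs_nonneg _) hyb2 2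
      _ = 4 * K ^ 2 * L ^ 2 * t ^ 6 := by ring
  have hexy : Real.exp (-(t * X)) * Real.exp |y| ≤ Real.exp K := by
    rw [← Real.exp_add, Real.exp_le_exp]
    nlinarith
  have hT1 : Real.exp (-(t * X)) * |(Real.exp (-y) - 1 - (-y)) * J| ≤ 24 * K ^ 2 * Real.exp K * t ^ 5 * L ^ 2 := by
    rw [abs_mul]
    have h1 := em_exp1 (-y)
    rw [abs_neg, neg_sq] at h1
    have h65 : t ^ 6 ≤ t ^ 5 := pow_le_pow_of_le_one ht0.le (by linarith) (by norm_num)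
    calc Real.exp (-(t * X)) * (|Real.exp (-y) - 1 - (-y)| * |J|)
        ≤ Real.exp (-(t * X)) * ((3 * y ^ 2 * Real.exp |y|) * 2) := by
          apply mul_le_mul_of_nonneg_left _ (Real.exp_pos _).le
          exact mul_le_mul h1 hi2 (abs_nonneg _) (by positivity)
      _ = 6 * y ^ 2 * (Real.exp (-(t * X)) * Real.exp |y|) := by ring
      _ ≤ 6 * (4 * K ^ 2 * L ^ 2 * t ^ 6) * Real.exp K := by
          apply mul_le_mul _ hexy (by positivity) (by positivity)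
          linarith
      _ = 24 * K ^ 2 * Real.exp K * L ^ 2 * t ^ 6 := by ring
      _ ≤ 24 * K ^ 2 * Real.exp K * L ^ 2 * t ^ 5 := by
          apply mul_le_mul_of_nonneg_left h65 (by positivity)
      _ = 24 * K ^ 2 * Real.exp K * t ^ 5 * L ^ 2 := by ring
  exact hT1

lemma em_T2 {K L X t Y W J w w' C : ℝ} (hK : 1 ≤ K) (hL1' : 1 ≤ L) (ht0 : 0 < t) (hKt : K * t ≤ 1 / 5) (ht : t ≤ 1 / 5)
    (hC0 : 0 ≤ C) (hex1 : Real.exp (-(t * X)) ≤ 1) (hLL : L ≤ L ^ 2)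
    (hY : |Y| ≤ K * L) (hW : |W| ≤ K) (hi2 : |J| ≤ 2) (hwK : |w| ≤ K ^ 2) (hw'K : |w'| ≤ 3 * K ^ 4)
    (hi1 : |J - (1 / 2 + w * t ^ 2 + w' * t ^ 4)| ≤ C * t ^ 5) :
    Real.exp (-(t * X)) * |-(t ^ 5 * W) * J + (1 - t ^ 3 * Y) * (J - (1 / 2 + w * t ^ 2 + w' * t ^ 4)) -
          t ^ 5 * (Y * w) - t ^ 7 * (Y * w')| ≤
          (2 * K + (1 + K) * C + K * (K ^ 2 + 3 * K ^ 4)) * t ^ 5 * L ^ 2 := by
  have hK0 : 0 < K := by linarith
  have ht5 : 0 < t ^ 5 := pow_pos ht0 5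
  have ht3 : 0 < t ^ 3 := pow_pos ht0 3
  have ht7 : 0 < t ^ 7 := pow_pos ht0 7
  have a1 : |-(t ^ 5 * W) * J| ≤ 2 * K * t ^ 5 * L ^ 2 := by
    rw [abs_mul, abs_neg, abs_mul, abs_of_pos ht5]
    calc t ^ 5 * |W| * |J| ≤ (t ^ 5 * K) * 2 :=
          mul_le_mul (mul_le_mul_of_nonneg_left hW ht5.le) hi2 (abs_nonneg _) (by positivity)
      _ = 2 * K * t ^ 5 * 1 := by ring
      _ ≤ 2 * K * t ^ 5 * L ^ 2 := by
          apply mul_le_mul_of_nonneg_left _ (by positivity)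
          nlinarith
  have a2 : |(1 - t ^ 3 * Y) * (J - (1 / 2 + w * t ^ 2 + w' * t ^ 4))| ≤ (1 + K) * C * t ^ 5 * L ^ 2 := by
    rw [abs_mul]
    have b1 : |1 - t ^ 3 * Y| ≤ (1 + K) * L ^ 2 := by
      have h31 : t ^ 3 ≤ 1 := pow_le_one₀ ht0.le (by linarith)
      have b2 : |t ^ 3 * Y| ≤ K * L := by
        rw [abs_mul, abs_of_pos ht3]
        calc t ^ 3 * |Y| ≤ 1 * (K * L) := mul_le_mul h31 hY (abs_nonneg _) (by norm_num)
          _ = K * L := by ring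
      have b3 : K * L ≤ K * L ^ 2 := mul_le_mul_of_nonneg_left hLL hK0.le
      have b4 := abs_le.mp b2
      rw [abs_le]
      constructor <;> nlinarith [b4.1, b4.2]
    calc |1 - t ^ 3 * Y| * |J - (1 / 2 + w * t ^ 2 + w' * t ^ 4)|
        ≤ ((1 + K) * L ^ 2) * (C * t ^ 5) := mul_le_mul b1 hi1 (abs_nonneg _) (by positivity)
      _ = (1 + K) * C * t ^ 5 * L ^ 2 := by ring
  have a3 : |t ^ 5 * (Y * w)| ≤ K * K ^ 2 * t ^ 5 * L ^ 2 := by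
    rw [abs_mul, abs_mul, abs_of_pos ht5]
    calc t ^ 5 * (|Y| * |w|) ≤ t ^ 5 * ((K * L) * K ^ 2) := by
          apply mul_le_mul_of_nonneg_left _ ht5.le
          exact mul_le_mul hY hwK (abs_nonneg _) (by positivity)
      _ = (K * K ^ 2 * t ^ 5) * L := by ring
      _ ≤ (K * K ^ 2 * t ^ 5) * L ^ 2 := mul_le_mul_of_nonneg_left hLL (by positivity)
      _ = K * K ^ 2 * t ^ 5 * L ^ 2 := by ring
  have h75 : t ^ 7 ≤ t ^ 5 := pow_le_pow_of_le_one ht0.le (by linarith) (by norm_num)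
  have a4 : |t ^ 7 * (Y * w')| ≤ K * (3 * K ^ 4) * t ^ 5 * L ^ 2 := by
    rw [abs_mul, abs_mul, abs_of_pos ht7]
    calc t ^ 7 * (|Y| * |w'|) ≤ t ^ 5 * ((K * L) * (3 * K ^ 4)) := by
          apply mul_le_mul h75 _ (by positivity) ht5.le
          exact mul_le_mul hY hw'K (abs_nonneg _) (by positivity)
      _ = (K * (3 * K ^ 4) * t ^ 5) * L := by ring
      _ ≤ (K * (3 * K ^ 4) * t ^ 5) * L ^ 2 := mul_le_mul_of_nonneg_left hLL (by positivity)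
      _ = K * (3 * K ^ 4) * t ^ 5 * L ^ 2 := by ring
  have hsum : |-(t ^ 5 * W) * J +
      (1 - t ^ 3 * Y) * (J - (1 / 2 + w * t ^ 2 + w' * t ^ 4)) -
      t ^ 5 * (Y * w) - t ^ 7 * (Y * w')| ≤
      (2 * K + (1 + K) * C + K * (K ^ 2 + 3 * K ^ 4)) * t ^ 5 * L ^ 2 := by
    rw [abs_le] at a1 a2 a3 a4 ⊢
    have e : (2 * K + (1 + K) * C + K * (K ^ 2 + 3 * K ^ 4)) * t ^ 5 * L ^ 2 =
      2 * K * t ^ 5 * L ^ 2 + (1 + K) * C * t ^ 5 * L ^ 2 + K * K ^ 2 * t ^ 5 * L ^ 2 +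
      K * (3 * K ^ 4) * t ^ 5 * L ^ 2 := by ring
    rw [e]
    constructor <;> linarith [a1.1, a1.2, a2.1, a2.2, a3.1, a3.2, a4.1, a4.2]
  have hn := abs_nonneg (-(t ^ 5 * W) * J +
      (1 - t ^ 3 * Y) * (J - (1 / 2 + w * t ^ 2 + w' * t ^ 4)) -
      t ^ 5 * (Y * w) - t ^ 7 * (Y * w'))
  nlinarith

lemma em_w'b {K A b c d : ℝ} (hK : 1 ≤ K) (a1 : |A| ≤ K) (a2 : |b| ≤ K) (a3 : |c| ≤ K) (a4 : |d| ≤ K) :
    |d / 2 - A * c / 2 + b ^ 2 / 4 - b * A ^ 2 / 4 + 5 * A ^ 4 / 48| ≤ 3 * K ^ 4 := by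
  have hK0 : 0 < K := by linarith
  have p1 : |A * c| ≤ K * K := by
    rw [abs_mul]; exact mul_le_mul a1 a3 (abs_nonneg _) hK0.le
  have p2 : |b ^ 2| ≤ K ^ 2 := by
    rw [abs_pow]; exact pow_le_pow_left₀ (abs_nonneg _) a2 2
  have p3 : |b * A ^ 2| ≤ K * K ^ 2 := by
    rw [abs_mul, abs_pow]
    exact mul_le_mul a2 (pow_le_pow_left₀ (abs_nonneg _) a1 2) (by positivity) hK0.le
  have p4 : |A ^ 4| ≤ K ^ 4 := by
    rw [abs_pow]; exact pow_le_pow_left₀ (abs_nonneg _) a1 4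
  have k1 : K ≤ K ^ 4 := le_self_pow₀ hK (by norm_num)
  have k2 : K ^ 2 ≤ K ^ 4 := pow_le_pow_right₀ hK (by norm_num)
  have k3 : K ^ 3 ≤ K ^ 4 := pow_le_pow_right₀ hK (by norm_num)
  have e1 : K * K = K ^ 2 := by ring
  have e2 : K * K ^ 2 = K ^ 3 := by ring
  rw [e1] at p1
  rw [e2] at p3
  rw [abs_le] at p1 p2 p3 p4 a4 ⊢
  constructor <;> linarith [p1.1, p1.2, p2.1, p2.2, p3.1, p3.2, p4.1, p4.2, a4.1, a4.2]

end EmOm


theorem em_om (Q : Seqs) (K : ℝ) (hG : Good Q K) :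
    ∃ (w w' : ℕ → ℝ) (K' t0 : ℝ), 0 < K' ∧ 0 < t0 ∧ t0 ≤ 1 / 3 ∧
      (∀ m : ℕ, |w m| ≤ K' * ((m : ℝ) + 1) ^ (-(2 / 3 : ℝ))) ∧ (∀ m, |w' m| ≤ K') ∧
      ∀ (m : ℕ) (t : ℝ), 0 < t → t ≤ t0 →
        |Q.e m t / Q.om m t - Real.exp (-(t * Q.X m))
            * (1 / 2 + w m * t ^ 2 - Q.Y m / 2 * t ^ 3 + w' m * t ^ 4)|
          ≤ K' * t ^ 5 * (1 + Real.log ((m : ℝ) + 1)) ^ 2 := by
  have hK := hG.K1
  have hK0 : 0 < K := by linarith
  obtain ⟨C, hC0, hC⟩ := em_inv hK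
  have hle1 : ∀ (n : ℕ) (x : ℝ), 0 ≤ x → ((n : ℝ) + 1) ^ (-x) ≤ 1 := by
    intro n x hx
    apply Real.rpow_le_one_of_one_le_of_nonpos
    · have : (0 : ℝ) ≤ n := Nat.cast_nonneg n
      linarith
    · linarith
  have hA : ∀ n, |Q.A n| ≤ K := fun n => (hG.A n).trans (by
    have := hle1 n (1 / 3) (by norm_num); nlinarith)
  have hb : ∀ n, |Q.b n| ≤ K := fun n => (hG.b n).trans (by
    have := hle1 n (2 / 3) (by norm_num); nlinarith)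
  have hc : ∀ n, |Q.c n| ≤ K := fun n => (hG.c n).trans (by
    have := hle1 n 1 (by norm_num); nlinarith)
  have hd : ∀ n, |Q.d n| ≤ K := fun n => (hG.d n).trans (by
    have := hle1 n (4 / 3) (by norm_num); nlinarith)
  have hg : ∀ n, |Q.g n| ≤ K := fun n => (hG.g n).trans (by
    have := hle1 n (5 / 3) (by norm_num); nlinarith)
  obtain ⟨w, hw⟩ : ∃ w : ℕ → ℝ, w = fun m => Q.b (m + 1) / 2 - Q.A (m + 1) ^ 2 / 4 := ⟨_, rfl⟩
  obtain ⟨w', hw'⟩ : ∃ w' : ℕ → ℝ, w' = fun m => Q.d (m + 1) / 2 - Q.A (m + 1) * Q.c (m + 1) / 2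
    + Q.b (m + 1) ^ 2 / 4 - Q.b (m + 1) * Q.A (m + 1) ^ 2 / 4 + 5 * Q.A (m + 1) ^ 4 / 48 := ⟨_, rfl⟩
  have hwb : ∀ m : ℕ, |w m| ≤ K ^ 2 * ((m : ℝ) + 1) ^ (-(2 / 3 : ℝ)) := by
    intro m
    have hm0 : (0 : ℝ) < (m : ℝ) + 1 := by positivity
    have h1 := hG.b (m + 1)
    have h2 := hG.A (m + 1)
    have hmono : ∀ x : ℝ, 0 ≤ x → (((m + 1 : ℕ) : ℝ) + 1) ^ (-x) ≤ ((m : ℝ) + 1) ^ (-x) := by
      intro x hx
      apply Real.rpow_le_rpow_of_nonpos hm0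
      · push_cast; linarith
      · linarith
    have h3 := hmono (2 / 3) (by norm_num)
    have h4 := hmono (1 / 3) (by norm_num)
    have h5 : (((m : ℝ) + 1) ^ (-(1 / 3 : ℝ))) ^ 2 = ((m : ℝ) + 1) ^ (-(2 / 3 : ℝ)) := by
      rw [← Real.rpow_natCast, ← Real.rpow_mul hm0.le]; norm_num
    have h6 : |Q.A (m + 1)| ≤ K * ((m : ℝ) + 1) ^ (-(1 / 3 : ℝ)) :=
      h2.trans (mul_le_mul_of_nonneg_left h4 hK0.le)
    have h7 : Q.A (m + 1) ^ 2 ≤ K ^ 2 * ((m : ℝ) + 1) ^ (-(2 / 3 : ℝ)) := by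
      rw [← sq_abs, ← h5, ← mul_pow]
      exact pow_le_pow_left₀ (abs_nonneg _) h6 2
    have h8 : |Q.b (m + 1)| ≤ K * ((m : ℝ) + 1) ^ (-(2 / 3 : ℝ)) :=
      h1.trans (mul_le_mul_of_nonneg_left h3 hK0.le)
    have h9 : (0 : ℝ) < ((m : ℝ) + 1) ^ (-(2 / 3 : ℝ)) := Real.rpow_pos_of_pos hm0 _
    have h10 : K * ((m : ℝ) + 1) ^ (-(2 / 3 : ℝ)) ≤ K ^ 2 * ((m : ℝ) + 1) ^ (-(2 / 3 : ℝ)) := by
      apply mul_le_mul_of_nonneg_right _ h9.le
      nlinarith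
    rw [hw]
    simp only
    have h11 := abs_le.mp h8
    have h12 := sq_nonneg (Q.A (m + 1))
    rw [abs_le]
    constructor <;> nlinarith [h11.1, h11.2]
  have hw'b : ∀ m : ℕ, |w' m| ≤ 3 * K ^ 4 := by
    intro m
    rw [hw']
    exact em_w'b hK (hA _) (hb _) (hc _) (hd _)
  refine ⟨w, w', 24 * K ^ 2 * Real.exp K + 2 * K + (1 + K) * C + K * (K ^ 2 + 3 * K ^ 4) + K ^ 2 + 3 * K ^ 4,
    1 / (5 * K), by positivity, by positivity, ?_, ?_, ?_, ?_⟩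
  · rw [div_le_div_iff₀ (by positivity) (by norm_num)]; linarith
  · intro m
    refine (hwb m).trans ?_
    apply mul_le_mul_of_nonneg_right _ (by positivity)
    have : 0 ≤ 24 * K ^ 2 * Real.exp K + 2 * K + (1 + K) * C + K * (K ^ 2 + 3 * K ^ 4) + 3 * K ^ 4 := by positivity
    linarith
  · intro m
    refine (hw'b m).trans ?_
    have : 0 ≤ 24 * K ^ 2 * Real.exp K + 2 * K + (1 + K) * C + K * (K ^ 2 + 3 * K ^ 4) + K ^ 2 := by positivity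
    linarith
  · intro m t ht0 ht1
    have hm0 : (0 : ℝ) < (m : ℝ) + 1 := by positivity
    have hKt : K * t ≤ 1 / 5 := by
      rw [le_div_iff₀ (by positivity)] at ht1
      linarith
    have ht : t ≤ 1 / 5 := by
      calc t = 1 * t := (one_mul t).symm
        _ ≤ K * t := mul_le_mul_of_nonneg_right hK ht0.le
        _ ≤ 1 / 5 := hKt
    have hL1 : 0 ≤ Real.log ((m : ℝ) + 1) := Real.log_nonneg (by
      have : (0 : ℝ) ≤ m := Nat.cast_nonneg m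
      linarith)
    obtain ⟨L, hL⟩ : ∃ L, L = 1 + Real.log ((m : ℝ) + 1) := ⟨_, rfl⟩
    have hL1' : 1 ≤ L := by rw [hL]; linarith
    rw [← hL]
    have hY : |Q.Y m| ≤ K * L := by rw [hL]; exact hG.Yu m
    have hW := hG.Wu m
    have hXl := hG.Xl m
    have hwK : |w m| ≤ K ^ 2 := (hwb m).trans (by
      have := mul_le_mul_of_nonneg_left (hle1 m (2 / 3) (by norm_num)) (sq_nonneg K)
      linarith)
    have hw'K := hw'b m
    obtain ⟨hi1, hi2⟩ := hC (Q.A (m + 1)) (Q.b (m + 1)) (Q.c (m + 1)) (Q.d (m + 1)) (Q.g (m + 1)) t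
      (hA _) (hb _) (hc _) (hd _) (hg _) ht0 ht1
    have eom : Real.exp (t * Q.A (m + 1) - t ^ 2 * Q.b (m + 1) + t ^ 3 * Q.c (m + 1) - t ^ 4 * Q.d (m + 1)
        + t ^ 5 * Q.g (m + 1)) + Real.exp (-(t * Q.A (m + 1) + t ^ 2 * Q.b (m + 1) + t ^ 3 * Q.c (m + 1)
        + t ^ 4 * Q.d (m + 1) + t ^ 5 * Q.g (m + 1))) = Q.om m t := rfl
    have ew : Q.b (m + 1) / 2 - Q.A (m + 1) ^ 2 / 4 = w m := by rw [hw]
    have ew' : Q.d (m + 1) / 2 - Q.A (m + 1) * Q.c (m + 1) / 2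
      + Q.b (m + 1) ^ 2 / 4 - Q.b (m + 1) * Q.A (m + 1) ^ 2 / 4 + 5 * Q.A (m + 1) ^ 4 / 48 = w' m := by rw [hw']
    rw [eom] at hi1 hi2
    rw [ew, ew'] at hi1
    obtain ⟨J, hJ⟩ : ∃ J, J = 1 / Q.om m t := ⟨_, rfl⟩
    rw [← hJ] at hi1 hi2
    obtain ⟨y, hy⟩ : ∃ y, y = t ^ 3 * Q.Y m + t ^ 5 * Q.W m := ⟨_, rfl⟩
    have ee : Q.e m t = Real.exp (-(t * Q.X m)) * Real.exp (-y) := by
      unfold Seqs.e
      rw [← Real.exp_add]
      congr 1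
      rw [hy]; ring
    have e1 : Q.e m t / Q.om m t - Real.exp (-(t * Q.X m))
            * (1 / 2 + w m * t ^ 2 - Q.Y m / 2 * t ^ 3 + w' m * t ^ 4) =
        Real.exp (-(t * Q.X m)) * ((Real.exp (-y) - 1 - (-y)) * J) +
        Real.exp (-(t * Q.X m)) * (-(t ^ 5 * Q.W m) * J +
          (1 - t ^ 3 * Q.Y m) * (J - (1 / 2 + w m * t ^ 2 + w' m * t ^ 4)) -
          t ^ 5 * (Q.Y m * w m) - t ^ 7 * (Q.Y m * w' m)) := by
      rw [ee, div_eq_mul_one_div, ← hJ, hy]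
      ring
    rw [e1]
    refine (abs_add_le _ _).trans ?_
    rw [abs_mul, abs_mul (Real.exp (-(t * Q.X m))), abs_of_pos (Real.exp_pos _)]
    have hX0 : 0 ≤ Q.X m := by
      have : 0 ≤ ((m : ℝ) + 1) ^ (2 / 3 : ℝ) := by positivity
      exact (mul_nonneg_iff_of_pos_left hK0).mp (this.trans hXl)
    have hex1 : Real.exp (-(t * Q.X m)) ≤ 1 := by
      rw [Real.exp_le_one_iff]
      have := mul_nonneg ht0.le hX0
      linarith
    have hLL : L ≤ L ^ 2 := le_self_pow₀ hL1' (by norm_num)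
    have hT1 := em_T1 (K := K) (L := L) (X := Q.X m) (t := t) (Y := Q.Y m) (W := Q.W m) (J := J) (y := y)
      (r1 := ((m : ℝ) + 1) ^ (2 / 3 : ℝ)) hK hL1' ht0 hKt ht hX0 (by
        apply Real.one_le_rpow
        · have : (0 : ℝ) ≤ m := Nat.cast_nonneg m
          linarith
        · norm_num) (by
        have h1 := Real.log_le_rpow_div hm0.le (show (0 : ℝ) < 2 / 3 by norm_num)
        have h3 : ((m : ℝ) + 1) ^ (2 / 3 : ℝ) / (2 / 3) = 3 / 2 * ((m : ℝ) + 1) ^ (2 / 3 : ℝ) := by ring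
        rw [h3] at h1
        rw [hL]
        linarith) hXl hY hW hi2 hy
    have hT2 := em_T2 (K := K) (L := L) (X := Q.X m) (t := t) (Y := Q.Y m) (W := Q.W m) (J := J)
      (w := w m) (w' := w' m) (C := C) hK hL1' ht0 hKt ht hC0 hex1 hLL hY hW hi2 hwK hw'K hi1
    have hrest : 0 ≤ (K ^ 2 + 3 * K ^ 4) * t ^ 5 * L ^ 2 := by positivity
    have e9 : (24 * K ^ 2 * Real.exp K + 2 * K + (1 + K) * C + K * (K ^ 2 + 3 * K ^ 4) + K ^ 2 + 3 * K ^ 4) * t ^ 5 * L ^ 2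
      = 24 * K ^ 2 * Real.exp K * t ^ 5 * L ^ 2 + (2 * K + (1 + K) * C + K * (K ^ 2 + 3 * K ^ 4)) * t ^ 5 * L ^ 2
        + (K ^ 2 + 3 * K ^ 4) * t ^ 5 * L ^ 2 := by ring
    rw [e9]
    linarith


end Pool.Agent.FW
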