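import Pool.Agent.Helper155.FW.Defs

set_option autoImplicit false
open Filter Asymptotics Topology

namespace Pool.Agent.FW

/-! ## TARGETS (prove these) -/

/-! ### P1: algebra -/

theorem rpow_bigO {x y : ℝ} (h : y ≤ x) :
    (fun n : ℕ => (n : ℝ) ^ (-x)) =O[atTop] (fun n : ℕ => (n : ℝ) ^ (-y)) := by
  apply IsBigO.of_bound 1
  filter_upwards [eventually_ge_atTop 1] with n hn
  have hn' : (1 : ℝ) ≤ n := by exact_mod_cast hn
  rw [one_mul, Real.norm_of_nonneg (Real.rpow_nonneg (by linarith) _),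
    Real.norm_of_nonneg (Real.rpow_nonneg (by linarith) _)]
  exact Real.rpow_le_rpow_of_exponent_le hn' (by linarith)

theorem rpow_mul_bigO {x y T : ℝ} (h : T ≤ x + y) {f g : ℕ → ℝ}
    (hf : f =O[atTop] (fun n : ℕ => (n : ℝ) ^ (-x)))
    (hg : g =O[atTop] (fun n : ℕ => (n : ℝ) ^ (-y))) :
    (fun n => f n * g n) =O[atTop] (fun n : ℕ => (n : ℝ) ^ (-T)) := by
  refine (hf.mul hg).trans ?_
  refine IsBigO.trans ?_ (rpow_bigO h)
  apply IsBigO.of_bound 1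
  filter_upwards [eventually_ge_atTop 1] with n hn
  have hn' : (1 : ℝ) ≤ n := by exact_mod_cast hn
  rw [one_mul, ← Real.rpow_add (by linarith)]
  apply le_of_eq
  congr 2
  ring

theorem PE.mono {x0 x0' Q Q' : ℝ} {f : ℕ → ℝ} (hf : PE x0 Q f) (hx : x0' ≤ x0) (hQ : Q' ≤ Q) :
    PE x0' Q' f := by
  obtain ⟨S, c, h1, h2⟩ := hf
  exact ⟨S, c, fun x hxS => hx.trans (h1 x hxS), h2.trans (rpow_bigO hQ)⟩

theorem PE.of_isBigO {x0 Q : ℝ} {f : ℕ → ℝ}
    (hf : f =O[atTop] (fun n : ℕ => (n : ℝ) ^ (-Q))) : PE x0 Q f := by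
  refine ⟨∅, 0, by simp, ?_⟩
  simpa using hf

theorem PE.single {x0 Q x : ℝ} (a : ℝ) (hx : x0 ≤ x) : PE x0 Q (fun n : ℕ => a * (n : ℝ) ^ (-x)) := by
  refine ⟨{x}, fun _ => a, by simpa using hx, ?_⟩
  have : (fun n : ℕ => a * (n : ℝ) ^ (-x) - ∑ x ∈ ({x} : Finset ℝ), a * (n : ℝ) ^ (-x)) = fun _ => 0 := by
    funext n
    rw [Finset.sum_singleton, sub_self]
  rw [this]
  exact isBigO_zero _ _

theorem PE.congr' {x0 Q : ℝ} {f g : ℕ → ℝ} (hf : PE x0 Q f) (h : f =ᶠ[atTop] g) : PE x0 Q g := by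
  obtain ⟨S, c, h1, h2⟩ := hf
  refine ⟨S, c, h1, h2.congr' ?_ (EventuallyEq.refl _ _)⟩
  filter_upwards [h] with n hn
  rw [hn]

theorem PE.add {x0 Q : ℝ} {f g : ℕ → ℝ} (hf : PE x0 Q f) (hg : PE x0 Q g) :
    PE x0 Q (fun n => f n + g n) := by
  classical
  obtain ⟨S, c, h1, h2⟩ := hf
  obtain ⟨S', c', h1', h2'⟩ := hg
  refine ⟨S ∪ S', fun x => (if x ∈ S then c x else 0) + (if x ∈ S' then c' x else 0), ?_, ?_⟩
  · intro x hx
    rcases Finset.mem_union.1 hx with h | h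
    · exact h1 x h
    · exact h1' x h
  · refine (h2.add h2').congr_left ?_
    intro n
    have e1 : ∑ x ∈ S ∪ S', (if x ∈ S then c x else 0) * (n : ℝ) ^ (-x) =
        ∑ x ∈ S, c x * (n : ℝ) ^ (-x) := by
      simp only [ite_mul, zero_mul]
      rw [← Finset.sum_filter]
      apply Finset.sum_congr _ (fun _ _ => rfl)
      ext x
      simp only [Finset.mem_filter, Finset.mem_union]
      tauto
    have e2 : ∑ x ∈ S ∪ S', (if x ∈ S' then c' x else 0) * (n : ℝ) ^ (-x) =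
        ∑ x ∈ S', c' x * (n : ℝ) ^ (-x) := by
      simp only [ite_mul, zero_mul]
      rw [← Finset.sum_filter]
      apply Finset.sum_congr _ (fun _ _ => rfl)
      ext x
      simp only [Finset.mem_filter, Finset.mem_union]
      tauto
    simp only [add_mul, Finset.sum_add_distrib]
    rw [e1, e2]
    ring

theorem PE.smul {x0 Q : ℝ} {f : ℕ → ℝ} (a : ℝ) (hf : PE x0 Q f) : PE x0 Q (fun n => a * f n) := by
  obtain ⟨S, c, h1, h2⟩ := hf
  refine ⟨S, fun x => a * c x, h1, ?_⟩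
  refine (h2.const_mul_left a).congr_left ?_
  intro n
  rw [mul_sub, Finset.mul_sum]
  congr 1
  apply Finset.sum_congr rfl
  intro x _
  ring

theorem PE.sum {ι : Type*} {x0 Q : ℝ} (s : Finset ι) (f : ι → ℕ → ℝ) (h : ∀ i ∈ s, PE x0 Q (f i)) :
    PE x0 Q (fun n => ∑ i ∈ s, f i n) := by
  classical
  induction s using Finset.induction_on with
  | empty =>
    apply PE.of_isBigO
    simp only [Finset.sum_empty]
    exact isBigO_zero _ _
  | insert i s hi ih =>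
    have h1 := (h i (Finset.mem_insert_self _ _)).add
      (ih fun j hj => h j (Finset.mem_insert_of_mem hj))
    refine h1.congr' ?_
    filter_upwards with n
    rw [Finset.sum_insert hi]

theorem main_bigO {x0 : ℝ} (S : Finset ℝ) (c : ℝ → ℝ) (h : ∀ x ∈ S, x0 ≤ x) :
    (fun n : ℕ => ∑ x ∈ S, c x * (n : ℝ) ^ (-x)) =O[atTop] (fun n : ℕ => (n : ℝ) ^ (-x0)) := by
  have h1 : (∑ x ∈ S, fun n : ℕ => c x * (n : ℝ) ^ (-x)) =O[atTop] (fun n : ℕ => (n : ℝ) ^ (-x0)) := by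
    apply IsBigO.sum
    intro x hx
    exact (rpow_bigO (h x hx)).const_mul_left _
  refine h1.congr_left ?_
  intro n
  rw [Finset.sum_apply]

theorem PE.mul {x0 Q y0 R T : ℝ} {f g : ℕ → ℝ} (hf : PE x0 Q f) (hg : PE y0 R g)
    (h1 : T ≤ x0 + R) (h2 : T ≤ y0 + Q) (h3 : T ≤ Q + R) :
    PE (x0 + y0) T (fun n => f n * g n) := by
  obtain ⟨S, c, hS, hfe⟩ := hf
  obtain ⟨S', c', hS', hge⟩ := hg
  have hF := main_bigO S c hS
  have hG := main_bigO S' c' hS'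
  have p1 : PE (x0 + y0) T (fun n : ℕ => ∑ x ∈ S, ∑ y ∈ S', (c x * c' y) * (n : ℝ) ^ (-(x + y))) := by
    apply PE.sum
    intro x hx
    apply PE.sum
    intro y hy
    exact PE.single _ (add_le_add (hS x hx) (hS' y hy))
  have p2 : PE (x0 + y0) T (fun n : ℕ => (∑ x ∈ S, c x * (n : ℝ) ^ (-x)) *
      (g n - ∑ x ∈ S', c' x * (n : ℝ) ^ (-x))) := PE.of_isBigO (rpow_mul_bigO h1 hF hge)
  have p3 : PE (x0 + y0) T (fun n : ℕ => (∑ x ∈ S', c' x * (n : ℝ) ^ (-x)) *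
      (f n - ∑ x ∈ S, c x * (n : ℝ) ^ (-x))) := PE.of_isBigO (rpow_mul_bigO h2 hG hfe)
  have p4 : PE (x0 + y0) T (fun n : ℕ => (f n - ∑ x ∈ S, c x * (n : ℝ) ^ (-x)) *
      (g n - ∑ x ∈ S', c' x * (n : ℝ) ^ (-x))) := PE.of_isBigO (rpow_mul_bigO h3 hfe hge)
  refine (((p1.add p2).add p3).add p4).congr' ?_
  filter_upwards [eventually_ge_atTop 1] with n hn
  have hn' : (0 : ℝ) < n := by exact_mod_cast hn
  have e : ∑ x ∈ S, ∑ y ∈ S', (c x * c' y) * (n : ℝ) ^ (-(x + y)) =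
      (∑ x ∈ S, c x * (n : ℝ) ^ (-x)) * (∑ x ∈ S', c' x * (n : ℝ) ^ (-x)) := by
    rw [Finset.sum_mul_sum]
    apply Finset.sum_congr rfl
    intro x _
    apply Finset.sum_congr rfl
    intro y _
    rw [neg_add, Real.rpow_add hn']
    ring
  rw [e]
  ring

theorem PE.bound {x0 Q x : ℝ} {f : ℕ → ℝ} (hf : PE x0 Q f) (h1 : x ≤ x0) (h2 : x ≤ Q) :
    ∃ K : ℝ, 0 < K ∧ ∀ n : ℕ, |f n| ≤ K * ((n : ℝ) + 1) ^ (-x) := by
  obtain ⟨S, c, hS, hfe⟩ := hf
  have hF := (main_bigO S c hS).trans (rpow_bigO h1)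
  have hf1 : f =O[atTop] (fun n : ℕ => (n : ℝ) ^ (-x)) := by
    refine (hF.add (hfe.trans (rpow_bigO h2))).congr_left ?_
    intro n
    ring
  have hb : (fun n : ℕ => (n : ℝ) ^ (-x)) =O[atTop] (fun n : ℕ => ((n : ℝ) + 1) ^ (-x)) := by
    apply IsBigO.of_bound ((2 : ℝ) ^ |x|)
    filter_upwards [eventually_ge_atTop 1] with n hn
    have hn' : (1 : ℝ) ≤ n := by exact_mod_cast hn
    have hn0 : (0 : ℝ) < n := by linarith
    have hn1 : (0 : ℝ) < (n : ℝ) + 1 := by linarith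
    rw [Real.norm_of_nonneg (Real.rpow_nonneg hn0.le _),
      Real.norm_of_nonneg (Real.rpow_nonneg hn1.le _)]
    rcases le_total x 0 with hx | hx
    · have e1 : (1 : ℝ) ≤ 2 ^ |x| := Real.one_le_rpow (by norm_num) (abs_nonneg _)
      have e2 : (n : ℝ) ^ (-x) ≤ ((n : ℝ) + 1) ^ (-x) :=
        Real.rpow_le_rpow hn0.le (by linarith) (by linarith)
      exact e2.trans (le_mul_of_one_le_left (Real.rpow_nonneg hn1.le _) e1)
    · rw [abs_of_nonneg hx]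
      have e1 : (2 * (n : ℝ)) ^ (-x) ≤ ((n : ℝ) + 1) ^ (-x) :=
        Real.rpow_le_rpow_of_nonpos hn1 (by linarith) (by linarith)
      rw [Real.mul_rpow (by norm_num) hn0.le] at e1
      calc (n : ℝ) ^ (-x) = 2 ^ x * (2 ^ (-x) * (n : ℝ) ^ (-x)) := by
            rw [← mul_assoc, ← Real.rpow_add (by norm_num), add_neg_cancel, Real.rpow_zero, one_mul]
        _ ≤ 2 ^ x * ((n : ℝ) + 1) ^ (-x) :=
            mul_le_mul_of_nonneg_left e1 (Real.rpow_nonneg (by norm_num) _)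
  obtain ⟨K, hK, hKn⟩ := bound_of_isBigO_nat_atTop (hf1.trans hb)
  refine ⟨K, hK, fun n => ?_⟩
  have hn1 : (0 : ℝ) < (n : ℝ) + 1 := by positivity
  have := hKn (x := n) (Real.rpow_pos_of_pos hn1 _).ne'
  rwa [Real.norm_eq_abs, Real.norm_of_nonneg (Real.rpow_nonneg hn1.le _)] at this

end Pool.Agent.FW
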