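import Pool.Agent.Helper155.FW.Defs
import Pool.Agent.Helper155.FW.P1

set_option autoImplicit false
open Filter Asymptotics Topology

namespace Pool.Agent.FW

/-! ## AVAILABLE (proved by others; use freely) -/

/-! ### P1: algebra -/









/-! ## TARGETS (prove these) -/

/-! ### P2: shift and difference -/

theorem aux_rpow_mul_inv_pow {n : ℝ} (hn : 0 < n) (x a : ℝ) (k : ℕ) :
    n ^ (-x) * (a / n) ^ k = a ^ k * n ^ (-(x + k)) := by
  have : n ^ (-(x + k)) = n ^ (-x) * (n ^ k)⁻¹ := by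
    rw [neg_add, Real.rpow_add hn, Real.rpow_neg hn.le (k : ℝ), Real.rpow_natCast]
  rw [this, div_pow]
  ring

theorem aux_taylor (x ε : ℝ) (J : ℕ) : ∃ d : ℕ → ℝ, d 0 = 1 ∧
    (fun n : ℕ => ((n : ℝ) + ε) ^ (-x) - ∑ k ∈ Finset.range J, d k * (n : ℝ) ^ (-(x + k)))
      =O[atTop] (fun n : ℕ => (n : ℝ) ^ (-(x + J))) := by
  have hp := Real.one_add_rpow_hasFPowerSeriesAt_zero (a := -x)
  set p := binomialSeries ℝ (-x) with hpdef
  have h := hp.isBigO_sub_partialSum_pow J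
  have ht : Tendsto (fun n : ℕ => ε / (n : ℝ)) atTop (𝓝 0) := tendsto_const_div_atTop_nhds_zero_nat ε
  have h2 := h.comp_tendsto ht
  have h3 := (isBigO_refl (fun n : ℕ => (n : ℝ) ^ (-x)) atTop).mul h2
  have hbig : ∀ᶠ n : ℕ in atTop, 0 < (n : ℝ) ∧ 0 ≤ 1 + ε / n := by
    filter_upwards [eventually_ge_atTop (⌈|ε|⌉₊ + 1)] with n hn
    have h0 : |ε| + 1 ≤ n := by
      have h1 : |ε| ≤ ⌈|ε|⌉₊ := Nat.le_ceil _
      have h2 : ((⌈|ε|⌉₊ + 1 : ℕ) : ℝ) ≤ n := by exact_mod_cast hn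
      push_cast at h2
      linarith
    have hn0 : 0 < (n : ℝ) := by have := abs_nonneg ε; linarith
    refine ⟨hn0, ?_⟩
    have h1 : -1 ≤ ε / n := by
      rw [le_div_iff₀ hn0]
      have := neg_abs_le ε
      linarith
    linarith
  refine ⟨fun k => p.coeff k * ε ^ k, ?_, ?_⟩
  · have h0 := hp.coeff_zero (fun _ => (1 : ℝ))
    have h1 : p.coeff 0 = p 0 (fun _ => (1 : ℝ)) := rfl
    simp only [pow_zero, mul_one]
    rw [h1, h0]
    simp
  · refine (h3.congr' ?_ ?_).trans (isBigO_const_mul_self (|ε| ^ J) (fun n : ℕ => (n : ℝ) ^ (-(x + J))) atTop)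
    · filter_upwards [hbig] with n hn
      obtain ⟨hn0, hn1⟩ := hn
      simp only [Function.comp_apply, zero_add, FormalMultilinearSeries.partialSum,
        FormalMultilinearSeries.apply_eq_pow_smul_coeff, smul_eq_mul]
      rw [mul_sub, ← Real.mul_rpow hn0.le hn1, Finset.mul_sum]
      congr 1
      · congr 1
        field_simp
      · apply Finset.sum_congr rfl
        intro k _
        rw [← mul_assoc, aux_rpow_mul_inv_pow hn0]
        ring
    · filter_upwards [hbig] with n hn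
      obtain ⟨hn0, hn1⟩ := hn
      simp only [Function.comp_apply, Real.norm_eq_abs]
      rw [abs_div, abs_of_pos hn0, aux_rpow_mul_inv_pow hn0]

theorem aux_rpow_bigO (Q ε : ℝ) : (fun n : ℕ => ((n : ℝ) + ε) ^ (-Q)) =O[atTop] (fun n : ℕ => (n : ℝ) ^ (-Q)) := by
  obtain ⟨d, _, h⟩ := aux_taylor Q ε 0
  simpa using h

theorem aux_mono {Q Q' : ℝ} (h : Q' ≤ Q) : (fun n : ℕ => (n : ℝ) ^ (-Q)) =O[atTop] (fun n : ℕ => (n : ℝ) ^ (-Q')) := by
  apply IsBigO.of_bound 1
  filter_upwards [eventually_ge_atTop 1] with n hn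
  have hn1 : (1 : ℝ) ≤ n := by exact_mod_cast hn
  rw [one_mul, Real.norm_of_nonneg (by positivity), Real.norm_of_nonneg (by positivity)]
  exact Real.rpow_le_rpow_of_exponent_le hn1 (by linarith)

theorem aux_zero {x0 Q : ℝ} : PE x0 Q (fun _ => 0) := PE.of_isBigO (isBigO_zero _ _)

theorem aux_sum {x0 Q : ℝ} {ι : Type*} (T : Finset ι) (F : ι → ℕ → ℝ) (h : ∀ i ∈ T, PE x0 Q (F i)) :
    PE x0 Q (fun n => ∑ i ∈ T, F i n) := by
  classical
  induction T using Finset.induction_on with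
  | empty => simpa using aux_zero
  | insert a s ha ih =>
    have h1 := h a (Finset.mem_insert_self a s)
    have h2 := ih (fun i hi => h i (Finset.mem_insert_of_mem hi))
    simpa [Finset.sum_insert ha] using h1.add h2

theorem aux_PE (x ε Q : ℝ) : PE x Q (fun n : ℕ => ((n : ℝ) + ε) ^ (-x)) := by
  obtain ⟨J, hJ⟩ := exists_nat_ge (Q - x)
  obtain ⟨d, _, h⟩ := aux_taylor x ε J
  have h1 : PE x Q (fun n : ℕ => ∑ k ∈ Finset.range J, d k * (n : ℝ) ^ (-(x + k))) := by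
    apply aux_sum
    intro k _
    exact PE.single _ (by have : (0 : ℝ) ≤ k := Nat.cast_nonneg k; linarith)
  have h2 : PE x Q (fun n : ℕ => ((n : ℝ) + ε) ^ (-x) - ∑ k ∈ Finset.range J, d k * (n : ℝ) ^ (-(x + k))) :=
    PE.of_isBigO (h.trans (aux_mono (by linarith)))
  refine (h1.add h2).congr' (Eventually.of_forall fun n => ?_)
  ring

theorem aux_PE' (x ε Q : ℝ) : PE (x + 1) Q (fun n : ℕ => ((n : ℝ) + ε) ^ (-x) - (n : ℝ) ^ (-x)) := by
  obtain ⟨J, hJ⟩ := exists_nat_ge (Q - x)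
  obtain ⟨d, hd, h⟩ := aux_taylor x ε (J + 1)
  have h1 : PE (x + 1) Q (fun n : ℕ => ∑ k ∈ Finset.range J, d (k + 1) * (n : ℝ) ^ (-(x + (k + 1 : ℕ)))) := by
    apply aux_sum
    intro k _
    refine PE.single _ ?_
    have : (0 : ℝ) ≤ k := Nat.cast_nonneg k
    push_cast
    linarith
  have h2 : PE (x + 1) Q (fun n : ℕ => ((n : ℝ) + ε) ^ (-x) - ∑ k ∈ Finset.range (J + 1), d k * (n : ℝ) ^ (-(x + k))) :=
    PE.of_isBigO (h.trans (aux_mono (by push_cast; linarith)))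
  refine (h1.add h2).congr' (Eventually.of_forall fun n => ?_)
  simp only
  rw [Finset.sum_range_succ' (fun k => d k * (n : ℝ) ^ (-(x + (k : ℕ)))) J, hd]
  simp only [Nat.cast_zero, add_zero, one_mul]
  ring

theorem aux_cast_pred : ∀ᶠ n : ℕ in atTop, ((n - 1 : ℕ) : ℝ) = (n : ℝ) + (-1) := by
  filter_upwards [eventually_ge_atTop 1] with n hn
  rw [Nat.cast_sub hn]; push_cast; ring


theorem PE.shift {x0 Q : ℝ} {f : ℕ → ℝ} (hf : PE x0 Q f) : PE x0 Q (fun n => f (n + 1)) := by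
  obtain ⟨S, c, hS, he⟩ := hf
  have h1 : PE x0 Q (fun n : ℕ => ∑ x ∈ S, c x * ((n : ℝ) + 1) ^ (-x)) := by
    apply aux_sum
    intro x hx
    exact ((aux_PE x 1 Q).mono (hS x hx) le_rfl).smul (c x)
  have h2 : (fun n : ℕ => f (n + 1) - ∑ x ∈ S, c x * ((n : ℝ) + 1) ^ (-x)) =O[atTop] (fun n : ℕ => (n : ℝ) ^ (-Q)) := by
    have h3 := he.comp_tendsto (tendsto_add_atTop_nat 1)
    refine IsBigO.trans ?_ (aux_rpow_bigO Q 1)
    refine h3.congr' (Eventually.of_forall fun n => ?_) (Eventually.of_forall fun n => ?_)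
    · simp only [Function.comp_apply]; push_cast; rfl
    · simp only [Function.comp_apply]; push_cast; rfl
  refine (h1.add (PE.of_isBigO h2)).congr' (Eventually.of_forall fun n => ?_)
  simp only
  ring

theorem PE.unshift {x0 Q : ℝ} {f : ℕ → ℝ} (hf : PE x0 Q f) : PE x0 Q (fun n => f (n - 1)) := by
  obtain ⟨S, c, hS, he⟩ := hf
  have h1 : PE x0 Q (fun n : ℕ => ∑ x ∈ S, c x * ((n : ℝ) + (-1)) ^ (-x)) := by
    apply aux_sum
    intro x hx
    exact ((aux_PE x (-1) Q).mono (hS x hx) le_rfl).smul (c x)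
  have h2 : (fun n : ℕ => f (n - 1) - ∑ x ∈ S, c x * ((n : ℝ) + (-1)) ^ (-x)) =O[atTop] (fun n : ℕ => (n : ℝ) ^ (-Q)) := by
    have h3 := he.comp_tendsto (tendsto_sub_atTop_nat 1)
    refine IsBigO.trans ?_ (aux_rpow_bigO Q (-1))
    refine h3.congr' ?_ ?_
    · filter_upwards [aux_cast_pred] with n hn
      simp only [Function.comp_apply, hn]
    · filter_upwards [aux_cast_pred] with n hn
      simp only [Function.comp_apply, hn]
  refine (h1.add (PE.of_isBigO h2)).congr' (Eventually.of_forall fun n => ?_)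
  simp only
  ring

theorem PE.diff {x0 Q : ℝ} {f : ℕ → ℝ} (hf : PE x0 Q f) :
    PE (x0 + 1) Q (fun n => f (n + 1) - f n) := by
  obtain ⟨S, c, hS, he⟩ := hf
  have h1 : PE (x0 + 1) Q (fun n : ℕ => ∑ x ∈ S, c x * (((n : ℝ) + 1) ^ (-x) - (n : ℝ) ^ (-x))) := by
    apply aux_sum
    intro x hx
    exact ((aux_PE' x 1 Q).mono (by have := hS x hx; linarith) le_rfl).smul (c x)
  have h2 : (fun n : ℕ => f (n + 1) - ∑ x ∈ S, c x * ((n : ℝ) + 1) ^ (-x)) =O[atTop] (fun n : ℕ => (n : ℝ) ^ (-Q)) := by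
    have h3 := he.comp_tendsto (tendsto_add_atTop_nat 1)
    refine IsBigO.trans ?_ (aux_rpow_bigO Q 1)
    refine h3.congr' (Eventually.of_forall fun n => ?_) (Eventually.of_forall fun n => ?_)
    · simp only [Function.comp_apply]; push_cast; rfl
    · simp only [Function.comp_apply]; push_cast; rfl
  have h3 := h2.sub he
  refine (h1.add (PE.of_isBigO h3)).congr' (Eventually.of_forall fun n => ?_)
  simp only [mul_sub, Finset.sum_sub_distrib]
  ring

end Pool.Agent.FW
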