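import Pool.Agent.Helper155.FW.Defs
import Pool.Agent.Helper155.FW.P2

set_option autoImplicit false
open Filter Asymptotics Topology

namespace Pool.Agent.FW

/-! ## AVAILABLE (proved by others; use freely) -/

/-! ### P1: algebra -/









/-! ### P2: shift and difference -/




/-! ## TARGETS (prove these) -/

/-! ### P3a -/

theorem P3a_zero (x0 Q : ℝ) : PE x0 Q (fun _ : ℕ => (0 : ℝ)) := by
  apply PE.of_isBigO
  exact isBigO_zero _ _

theorem P3a_high {x0 Q : ℝ} {f : ℕ → ℝ} (hf : PE x0 Q f) (h : Q ≤ x0) :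
    f =O[atTop] (fun n : ℕ => (n : ℝ) ^ (-Q)) := by
  obtain ⟨S, c, hS, hO⟩ := hf
  have h1 : (fun n : ℕ => ∑ x ∈ S, c x * (n : ℝ) ^ (-x)) =O[atTop] (fun n : ℕ => (n : ℝ) ^ (-Q)) := by
    apply IsBigO.fun_sum
    intro x hx
    apply IsBigO.const_mul_left
    apply IsBigO.of_bound 1
    filter_upwards [eventually_ge_atTop 1] with n hn
    have hn1 : (1 : ℝ) ≤ n := by exact_mod_cast hn
    rw [one_mul, Real.norm_of_nonneg (by positivity), Real.norm_of_nonneg (by positivity)]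
    apply Real.rpow_le_rpow_of_exponent_le hn1
    have := hS x hx
    linarith
  have h2 := hO.add h1
  refine h2.congr_left ?_
  intro n
  ring

theorem P3a_iter {x0 Q : ℝ} {f : ℕ → ℝ} (hf : PE x0 Q f) (J : ℕ) :
    ∃ W : ℕ → ℝ, PE x0 Q W ∧ PE (x0 + J) Q (fun n => W n + W (n + 1) - f n) := by
  induction J with
  | zero =>
    refine ⟨fun _ => 0, P3a_zero _ _, ?_⟩
    have h := hf.smul (-1)
    rw [Nat.cast_zero, add_zero]
    have e : (fun n : ℕ => (0 : ℝ) + 0 - f n) = fun n => -1 * f n := by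
      funext n
      ring
    show PE x0 Q (fun n : ℕ => (0 : ℝ) + 0 - f n)
    rw [e]
    exact h
  | succ J ih =>
    obtain ⟨W, hW, hd⟩ := ih
    refine ⟨fun n => W n + -(1 / 2) * (W n + W (n + 1) - f n), ?_, ?_⟩
    · apply hW.add
      have h1 := (hd.smul (-(1 / 2))).mono (x0' := x0) (Q' := Q) (by
        have : (0 : ℝ) ≤ J := by positivity
        linarith) le_rfl
      exact h1
    · have h1 := hd.diff.smul (-(1 / 2))
      have e : x0 + (J : ℝ) + 1 = x0 + ((J + 1 : ℕ) : ℝ) := by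
        push_cast
        ring
      rw [e] at h1
      have e2 : (fun n => -(1 / 2) * ((fun n => W n + W (n + 1) - f n) (n + 1) -
          (fun n => W n + W (n + 1) - f n) n)) =
          fun n => W n + -(1 / 2) * (W n + W (n + 1) - f n) +
            (W (n + 1) + -(1 / 2) * (W (n + 1) + W (n + 1 + 1) - f (n + 1))) - f n := by
        funext n
        simp only []
        ring
      rw [← e2]
      exact h1

theorem PE.halfsum {x0 Q : ℝ} {f : ℕ → ℝ} (hf : PE x0 Q f) :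
    ∃ W : ℕ → ℝ, PE x0 Q W ∧
      (fun n => W n + W (n + 1) - f n) =O[atTop] (fun n : ℕ => (n : ℝ) ^ (-Q)) := by
  obtain ⟨J, hJ⟩ := exists_nat_ge (Q - x0)
  obtain ⟨W, hW, hd⟩ := P3a_iter hf J
  exact ⟨W, hW, P3a_high hd (by linarith)⟩

/-- leading coefficient version -/
theorem PE.halfsum_lead {y0 x0 Q a : ℝ} {f : ℕ → ℝ} (hx : x0 ≤ y0 + 1)
    (hf : PE x0 Q (fun n : ℕ => f n - a * (n : ℝ) ^ (-y0))) :
    ∃ W : ℕ → ℝ, PE x0 Q (fun n : ℕ => W n - a / 2 * (n : ℝ) ^ (-y0)) ∧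
      (fun n => W n + W (n + 1) - f n) =O[atTop] (fun n : ℕ => (n : ℝ) ^ (-Q)) := by
  have h1 : PE (y0 + 1) Q (fun n : ℕ => a * ((n + 1 : ℕ) : ℝ) ^ (-y0) - a * (n : ℝ) ^ (-y0)) :=
    (PE.single (x0 := y0) (Q := Q) (x := y0) a le_rfl).diff
  have h2 := h1.mono (x0' := x0) (Q' := Q) hx le_rfl
  have h3 := hf.diff.mono (x0' := x0) (Q' := Q) (by linarith) le_rfl
  have h4 := (h2.add h3).smul (1 / 2)
  have e4 : (fun n : ℕ => 1 / 2 * (a * ((n + 1 : ℕ) : ℝ) ^ (-y0) - a * (n : ℝ) ^ (-y0) +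
      ((fun n : ℕ => f n - a * (n : ℝ) ^ (-y0)) (n + 1) - (fun n : ℕ => f n - a * (n : ℝ) ^ (-y0)) n))) =
      fun n => 1 / 2 * (f (n + 1) - f n) := by
    funext n
    simp only []
    ring
  rw [e4] at h4
  obtain ⟨V, hV, hVd⟩ := h4.halfsum
  refine ⟨fun n => 1 / 2 * f n + -1 * V n, ?_, ?_⟩
  · have h5 := (hf.smul (1 / 2)).add (hV.smul (-1))
    have e5 : (fun n : ℕ => 1 / 2 * (f n - a * (n : ℝ) ^ (-y0)) + -1 * V n) =
        fun n : ℕ => 1 / 2 * f n + -1 * V n - a / 2 * (n : ℝ) ^ (-y0) := by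
      funext n
      ring
    rw [← e5]
    exact h5
  · have h6 := hVd.neg_left
    refine h6.congr_left ?_
    intro n
    ring

end Pool.Agent.FW
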