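import Pool.Agent.Helper155.FW.Defs
import Pool.Agent.Helper155.FW.P3a

set_option autoImplicit false
open Filter Asymptotics Topology

namespace Pool.Agent.FW

/-! ## AVAILABLE (proved by others; use freely) -/

/-! ### P1: algebra -/









/-! ### P2: shift and difference -/




/-! ### P3a -/



/-! ## TARGETS (prove these) -/

/-! ### P3b -/

theorem alt_summable {Q : ℝ} (hQ : 2 < Q) (n : ℕ) :
    Summable (fun k : ℕ => (((n + k : ℕ) : ℝ) + 1) ^ (-Q)) := by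
  have h1 : Summable (fun k : ℕ => ((k : ℝ)) ^ (-Q)) :=
    Real.summable_nat_rpow.2 (by linarith)
  have h2 := (summable_nat_add_iff (n + 1)).2 h1
  refine h2.congr fun k => ?_
  congr 1
  push_cast
  ring

theorem alt_partial {Q : ℝ} (hQ : 2 < Q) (n : ℕ) (hn : 1 ≤ n) (N : ℕ) :
    ∑ k ∈ Finset.range N, (((n + k : ℕ) : ℝ) + 1) ^ (-Q) ≤ (n : ℝ) ^ (-(Q - 1)) := by
  have hn' : (0 : ℝ) < n := by exact_mod_cast hn
  have hterm : ∀ k ∈ Finset.range N, (((n + k : ℕ) : ℝ) + 1) ^ (-Q) ≤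
      (n : ℝ) ^ (2 - Q) * (1 / ((n + k : ℕ) : ℝ) - 1 / ((n + (k + 1) : ℕ) : ℝ)) := by
    intro k _
    have hk : (0 : ℝ) < ((n + k : ℕ) : ℝ) := by positivity
    have e1 : (((n + k : ℕ) : ℝ) + 1) ^ (-Q) =
        (((n + k : ℕ) : ℝ) + 1) ^ (2 - Q) * (((n + k : ℕ) : ℝ) + 1) ^ (-2 : ℝ) := by
      rw [← Real.rpow_add (by positivity)]
      congr 1
      ring
    have e2 : (((n + k : ℕ) : ℝ) + 1) ^ (2 - Q) ≤ (n : ℝ) ^ (2 - Q) := by
      apply Real.rpow_le_rpow_of_nonpos hn' _ (by linarith)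
      push_cast
      have : (0 : ℝ) ≤ k := by positivity
      linarith
    have e3 : (((n + k : ℕ) : ℝ) + 1) ^ (-2 : ℝ) ≤
        1 / ((n + k : ℕ) : ℝ) - 1 / ((n + (k + 1) : ℕ) : ℝ) := by
      have e4 : (((n + (k + 1) : ℕ)) : ℝ) = ((n + k : ℕ) : ℝ) + 1 := by push_cast; ring
      rw [e4]
      set m : ℝ := ((n + k : ℕ) : ℝ) with hm
      have e5 : (m + 1) ^ (-2 : ℝ) = 1 / (m + 1) ^ 2 := by
        rw [show (-2 : ℝ) = -((2 : ℕ) : ℝ) by norm_num, Real.rpow_neg (by positivity),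
          Real.rpow_natCast, one_div]
      rw [e5, div_sub_div _ _ (by positivity) (by positivity), div_le_div_iff₀ (by positivity)
        (by positivity)]
      nlinarith
    rw [e1]
    exact mul_le_mul e2 e3 (by positivity) (by positivity)
  calc ∑ k ∈ Finset.range N, (((n + k : ℕ) : ℝ) + 1) ^ (-Q)
      ≤ ∑ k ∈ Finset.range N,
        (n : ℝ) ^ (2 - Q) * (1 / ((n + k : ℕ) : ℝ) - 1 / ((n + (k + 1) : ℕ) : ℝ)) :=
        Finset.sum_le_sum hterm
    _ = (n : ℝ) ^ (2 - Q) * (1 / ((n + 0 : ℕ) : ℝ) - 1 / ((n + N : ℕ) : ℝ)) := by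
        rw [← Finset.mul_sum, Finset.sum_range_sub' (fun k => 1 / ((n + k : ℕ) : ℝ)) N]
    _ ≤ (n : ℝ) ^ (2 - Q) * (1 / (n : ℝ)) := by
        apply mul_le_mul_of_nonneg_left _ (by positivity)
        have : (0 : ℝ) ≤ 1 / ((n + N : ℕ) : ℝ) := by positivity
        rw [Nat.add_zero]
        linarith
    _ = (n : ℝ) ^ (-(Q - 1)) := by
        rw [one_div, ← Real.rpow_neg_one, ← Real.rpow_add hn']
        congr 1
        ring

/-- exact solution tending to zero -/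
theorem PE.alt {x0 Q : ℝ} {f : ℕ → ℝ} (hx : 1 < x0) (hQ : 2 < Q) (hf : PE x0 Q f) :
    ∃ b : ℕ → ℝ, (∀ n, b n + b (n + 1) = f n) ∧ PE x0 (Q - 1) b := by
  obtain ⟨W, hW, hO⟩ := PE.halfsum hf
  set eps : ℕ → ℝ := fun n => f n - W n - W (n + 1) with heps
  have hO' : eps =O[atTop] (fun n : ℕ => (n : ℝ) ^ (-Q)) := by
    have h1 : eps = fun n => -(W n + W (n + 1) - f n) := by
      funext n
      rw [heps]
      ring
    rw [h1]
    exact hO.neg_left
  obtain ⟨K, hK, hbd⟩ := (PE.of_isBigO (x0 := Q) hO').bound le_rfl le_rfl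
  have hsum : ∀ n, Summable (fun k : ℕ => (-1 : ℝ) ^ k * eps (n + k)) := by
    intro n
    apply Summable.of_norm_bounded ((alt_summable hQ n).mul_left K)
    intro k
    rw [norm_mul, norm_pow, norm_neg, norm_one, one_pow, one_mul, Real.norm_eq_abs]
    exact hbd (n + k)
  set r : ℕ → ℝ := fun n => ∑' k : ℕ, (-1 : ℝ) ^ k * eps (n + k) with hr
  have hrr : ∀ n, r n + r (n + 1) = eps n := by
    intro n
    have h1 : r n = (-1 : ℝ) ^ 0 * eps (n + 0) +
        ∑' k : ℕ, (-1 : ℝ) ^ (k + 1) * eps (n + (k + 1)) := (hsum n).tsum_eq_zero_add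
    have h2 : ∑' k : ℕ, (-1 : ℝ) ^ (k + 1) * eps (n + (k + 1)) = - r (n + 1) := by
      rw [hr]
      show _ = -∑' k : ℕ, (-1 : ℝ) ^ k * eps (n + 1 + k)
      rw [← tsum_neg]
      refine tsum_congr fun k => ?_
      rw [show n + (k + 1) = n + 1 + k by ring]
      ring
    rw [h1, h2]
    simp
  have hrb : ∀ n : ℕ, 1 ≤ n → |r n| ≤ K * (n : ℝ) ^ (-(Q - 1)) := by
    intro n hn
    have hS := alt_summable hQ n
    have h1 : ‖r n‖ ≤ ∑' k : ℕ, K * (((n + k : ℕ) : ℝ) + 1) ^ (-Q) := by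
      apply tsum_of_norm_bounded (hS.mul_left K).hasSum
      intro k
      rw [norm_mul, norm_pow, norm_neg, norm_one, one_pow, one_mul, Real.norm_eq_abs]
      exact hbd (n + k)
    rw [Real.norm_eq_abs, tsum_mul_left] at h1
    refine h1.trans (mul_le_mul_of_nonneg_left ?_ hK.le)
    exact Real.tsum_le_of_sum_range_le (fun k => by positivity) (alt_partial hQ n hn)
  refine ⟨fun n => W n + r n, ?_, ?_⟩
  · intro n
    have h1 := hrr n
    show W n + r n + (W (n + 1) + r (n + 1)) = f n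
    have h2 : eps n = f n - W n - W (n + 1) := rfl
    rw [h2] at h1
    linarith
  · apply PE.add (hW.mono le_rfl (by linarith))
    apply PE.of_isBigO
    apply IsBigO.of_bound K
    filter_upwards [eventually_ge_atTop 1] with n hn
    rw [Real.norm_eq_abs, Real.norm_eq_abs, abs_of_nonneg (a := (n : ℝ) ^ (-(Q - 1)))
      (by positivity)]
    exact hrb n hn

end Pool.Agent.FW
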