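import Pool.Agent.Helper155.FW.Defs
import Pool.Agent.Helper155.FW.P1

set_option autoImplicit false
open Filter Asymptotics Topology

namespace Pool.Agent.FW

/-! ## AVAILABLE (proved by others; use freely) -/

/-! ### P1: algebra -/









/-! ## TARGETS (prove these) -/

/-! ### P4: composition -/

section aux

theorem PE.zero' {x0 Q : ℝ} : PE x0 Q (fun _ => (0 : ℝ)) :=
  PE.of_isBigO (isBigO_zero _ _)

theorem PE.pow_succ' {x0 Q : ℝ} {f : ℕ → ℝ} (hx : 0 < x0) (hQ : 0 < Q) (hf : PE x0 Q f) (k : ℕ) :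
    PE x0 Q (fun n => f n ^ (k + 1)) := by
  induction k with
  | zero => simpa using hf
  | succ k ih =>
    have h := PE.mul (T := Q) hf ih (by linarith) (by linarith) (by linarith)
    have h2 := h.mono (x0' := x0) (Q' := Q) (by linarith) le_rfl
    refine h2.congr' (Filter.Eventually.of_forall fun n => ?_)
    show f n * f n ^ (k + 1) = f n ^ (k + 1 + 1)
    ring

theorem PE.sum' {x0 Q : ℝ} {f : ℕ → ℝ} (hx : 0 < x0) (hQ : 0 < Q) (hf : PE x0 Q f) (b : ℕ → ℝ)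
    (J : ℕ) : PE x0 Q (fun n => ∑ k ∈ Finset.range J, b k * f n ^ (k + 1)) := by
  induction J with
  | zero => simpa using PE.zero'
  | succ J ih =>
    refine (ih.add ((hf.pow_succ' hx hQ J).smul (b J))).congr'
      (Filter.Eventually.of_forall fun n => ?_)
    show _ = ∑ k ∈ Finset.range (J + 1), b k * f n ^ (k + 1)
    rw [Finset.sum_range_succ]

theorem PE.comp_aux {x0 Q : ℝ} {f : ℕ → ℝ} (hx : 0 < x0) (hQ : 0 < Q) (hf : PE x0 Q f)
    (φ : ℝ → ℝ) (b : ℕ → ℝ → ℝ)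
    (hφ : ∀ J : ℕ, ∃ c : ℕ → ℝ, (fun x => φ x - ∑ k ∈ Finset.range J, c k * x ^ (k + 1))
      =O[𝓝 0] (fun x => x ^ (J + 1))) : PE x0 Q (fun n => φ (f n)) := by
  set m := min x0 Q with hm
  have hmpos : 0 < m := lt_min hx hQ
  obtain ⟨K, hK, hKf⟩ := hf.bound (x := m) (min_le_left _ _) (min_le_right _ _)
  -- `f = O(n^{-m})`
  have hfO : f =O[atTop] (fun n : ℕ => (n : ℝ) ^ (-m)) := by
    refine IsBigO.of_bound K ?_
    filter_upwards [eventually_ge_atTop 1] with n hn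
    have hn0 : (0 : ℝ) < n := by exact_mod_cast hn
    rw [Real.norm_eq_abs, Real.norm_eq_abs, abs_of_pos (Real.rpow_pos_of_pos hn0 _)]
    refine (hKf n).trans (mul_le_mul_of_nonneg_left ?_ hK.le)
    exact Real.rpow_le_rpow_of_nonpos hn0 (by linarith) (by linarith)
  have hf0 : Tendsto f atTop (𝓝 0) := by
    refine hfO.trans_tendsto ?_
    exact (tendsto_rpow_neg_atTop hmpos).comp tendsto_natCast_atTop_atTop
  obtain ⟨J, hJ⟩ : ∃ J : ℕ, Q ≤ m * (J + 1 : ℕ) := by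
    obtain ⟨J, hJ⟩ := exists_nat_ge (Q / m)
    refine ⟨J, ?_⟩
    rw [div_le_iff₀ hmpos] at hJ
    push_cast
    nlinarith
  obtain ⟨c, hc⟩ := hφ J
  have h1 : (fun n => φ (f n) - ∑ k ∈ Finset.range J, c k * f n ^ (k + 1)) =O[atTop]
      (fun n => f n ^ (J + 1)) := hc.comp_tendsto hf0
  have h2 : (fun n => f n ^ (J + 1)) =O[atTop] (fun n : ℕ => (n : ℝ) ^ (-Q)) := by
    refine (hfO.pow (J + 1)).trans ?_
    refine IsBigO.of_bound 1 ?_
    filter_upwards [eventually_ge_atTop 1] with n hn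
    have hn1 : (1 : ℝ) ≤ n := by exact_mod_cast hn
    have hn0 : (0 : ℝ) < n := by linarith
    rw [one_mul, Real.norm_eq_abs, Real.norm_eq_abs, abs_of_pos (Real.rpow_pos_of_pos hn0 _),
      ← Real.rpow_natCast, ← Real.rpow_mul hn0.le, abs_of_pos (Real.rpow_pos_of_pos hn0 _)]
    apply Real.rpow_le_rpow_of_exponent_le hn1
    linarith
  refine ((PE.of_isBigO (x0 := x0) (h1.trans h2)).add (hf.sum' hx hQ c J)).congr'
    (Filter.Eventually.of_forall fun n => ?_)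
  show φ (f n) - ∑ k ∈ Finset.range J, c k * f n ^ (k + 1) +
    ∑ k ∈ Finset.range J, c k * f n ^ (k + 1) = φ (f n)
  ring

end aux

theorem PE.exp_sub_one {x0 Q : ℝ} {f : ℕ → ℝ} (hx : 0 < x0) (hQ : 0 < Q) (hf : PE x0 Q f) :
    PE x0 Q (fun n => Real.exp (f n) - 1) := by
  refine hf.comp_aux hx hQ (fun x => Real.exp x - 1) (fun _ _ => 0) fun J => ?_
  refine ⟨fun k => 1 / ((k + 1).factorial : ℝ), ?_⟩
  refine (Real.exp_sub_sum_range_isBigO_pow (J + 1)).congr_left fun x => ?_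
  rw [Finset.sum_range_succ']
  have : ∑ k ∈ Finset.range J, x ^ (k + 1) / ((k + 1).factorial : ℝ) =
      ∑ k ∈ Finset.range J, 1 / ((k + 1).factorial : ℝ) * x ^ (k + 1) :=
    Finset.sum_congr rfl fun k _ => by ring
  rw [this]
  simp
  ring

theorem PE.log_one_add {x0 Q : ℝ} {f : ℕ → ℝ} (hx : 0 < x0) (hQ : 0 < Q) (hf : PE x0 Q f) :
    PE x0 Q (fun n => Real.log (1 + f n)) := by
  refine hf.comp_aux hx hQ (fun x => Real.log (1 + x)) (fun _ _ => 0) fun J => ?_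
  refine ⟨fun k => (-1) ^ k / ((k : ℝ) + 1), ?_⟩
  refine IsBigO.of_bound 2 ?_
  have hnh : ∀ᶠ x : ℝ in 𝓝 0, |x| < 1 / 2 := by
    have h := Metric.ball_mem_nhds (0 : ℝ) (show (0 : ℝ) < 1 / 2 by norm_num)
    filter_upwards [h] with x hx
    simpa [Real.dist_eq] using hx
  filter_upwards [hnh] with x hx
  have h1 := Real.abs_log_sub_add_sum_range_le (x := -x) (by rw [abs_neg]; linarith) J
  have h2 : ∑ i ∈ Finset.range J, (-x) ^ (i + 1) / ((i : ℝ) + 1) + Real.log (1 - -x) =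
      Real.log (1 + x) - ∑ k ∈ Finset.range J, (-1) ^ k / ((k : ℝ) + 1) * x ^ (k + 1) := by
    have : ∑ i ∈ Finset.range J, (-x) ^ (i + 1) / ((i : ℝ) + 1) =
        -∑ k ∈ Finset.range J, (-1) ^ k / ((k : ℝ) + 1) * x ^ (k + 1) := by
      rw [← Finset.sum_neg_distrib]
      refine Finset.sum_congr rfl fun k _ => ?_
      rw [neg_pow, pow_succ (-1 : ℝ) k]
      ring
    rw [this, sub_neg_eq_add]
    ring
  rw [h2, abs_neg] at h1
  rw [Real.norm_eq_abs, Real.norm_eq_abs, abs_pow]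
  refine h1.trans ?_
  rw [div_le_iff₀ (by linarith)]
  have h3 : 0 ≤ |x| ^ (J + 1) := by positivity
  nlinarith

theorem PE.inv_one_add {x0 Q : ℝ} {f : ℕ → ℝ} (hx : 0 < x0) (hQ : 0 < Q) (hf : PE x0 Q f) :
    PE x0 Q (fun n => (1 + f n)⁻¹ - 1) := by
  refine hf.comp_aux hx hQ (fun x => (1 + x)⁻¹ - 1) (fun _ _ => 0) fun J => ?_
  refine ⟨fun k => (-1) ^ (k + 1), ?_⟩
  refine IsBigO.of_bound 2 ?_
  have hnh : ∀ᶠ x : ℝ in 𝓝 0, |x| < 1 / 2 := by
    have h := Metric.ball_mem_nhds (0 : ℝ) (show (0 : ℝ) < 1 / 2 by norm_num)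
    filter_upwards [h] with x hx
    simpa [Real.dist_eq] using hx
  filter_upwards [hnh] with x hx
  have hx2 := abs_lt.1 hx
  have hpos : 0 < 1 + x := by linarith
  have h2 : (1 + x)⁻¹ - 1 - ∑ k ∈ Finset.range J, (-1) ^ (k + 1) * x ^ (k + 1) =
      (-x) ^ (J + 1) / (1 + x) := by
    have h3 : ∑ k ∈ Finset.range (J + 1), (-x) ^ k = ((-x) ^ (J + 1) - 1) / ((-x) - 1) :=
      geom_sum_eq (by linarith) _
    rw [Finset.sum_range_succ'] at h3
    have h4 : ∑ k ∈ Finset.range J, (-1) ^ (k + 1) * x ^ (k + 1) =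
        ∑ k ∈ Finset.range J, (-x) ^ (k + 1) :=
      Finset.sum_congr rfl fun k _ => by rw [← mul_pow]; congr 1; ring
    rw [h4]
    have h5 : ∑ k ∈ Finset.range J, (-x) ^ (k + 1) = ((-x) ^ (J + 1) - 1) / ((-x) - 1) - 1 := by
      rw [← h3]; simp
    rw [h5]
    have h6 : (-x) - 1 ≠ 0 := by linarith
    have h7 : (-x) - 1 = -(1 + x) := by ring
    rw [h7, div_neg]
    field_simp
    ring
  rw [h2, Real.norm_eq_abs, Real.norm_eq_abs, abs_div, abs_pow, abs_pow, abs_neg, abs_of_pos hpos,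
    div_le_iff₀ hpos]
  have h3 : 0 ≤ |x| ^ (J + 1) := by positivity
  nlinarith

end Pool.Agent.FW
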