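import Pool.Agent.Helper155.FW.Defs
import Pool.Agent.Helper155.FW.P2

set_option autoImplicit false
open Filter Asymptotics Topology

namespace Pool.Agent.FW

/-! ## AVAILABLE (proved by others; use freely) -/

/-! ### P1: algebra -/









/-! ### P2: shift and difference -/




/-- Taylor expansion of `(1+t)^p` -/
theorem taylor_rpow (p : ℝ) (J : ℕ) (hJ : 2 ≤ J) : ∃ a : ℕ → ℝ, a 0 = 1 ∧ a 1 = p ∧ ∃ C : ℝ,
    ∀ t ∈ Set.Icc (0 : ℝ) 1, |(1 + t) ^ p - ∑ k ∈ Finset.range J, a k * t ^ k| ≤ C * t ^ J := by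
  obtain ⟨n, rfl⟩ : ∃ n, J = n + 1 := ⟨J - 1, by omega⟩
  have hcd : ContDiffOn ℝ (n + 1) (fun t : ℝ => (1 + t) ^ p) (Set.Icc 0 1) := by
    intro t ht
    refine ContDiffWithinAt.rpow_const_of_ne ?_ ?_
    · exact (contDiff_const.add contDiff_id).contDiffWithinAt
    · have := ht.1
      positivity
  obtain ⟨C, hC⟩ := exists_taylor_mean_remainder_bound (zero_le_one' ℝ) hcd
  refine ⟨fun k => ((Nat.factorial k : ℕ) : ℝ)⁻¹ *
    iteratedDerivWithin k (fun t : ℝ => (1 + t) ^ p) (Set.Icc 0 1) 0, ?_, ?_, C, ?_⟩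
  · simp
  · show ((Nat.factorial 1 : ℕ) : ℝ)⁻¹ *
      iteratedDerivWithin 1 (fun t : ℝ => (1 + t) ^ p) (Set.Icc 0 1) 0 = p
    rw [iteratedDerivWithin_one]
    have h1 : HasDerivAt (fun t : ℝ => (1 + t) ^ p) p 0 := by
      have h2 : HasDerivAt (fun t : ℝ => 1 + t) 1 0 := by
        simpa using (hasDerivAt_id (0 : ℝ)).const_add 1
      have h3 := h2.rpow_const (p := p) (Or.inl (by norm_num))
      simpa using h3
    rw [h1.hasDerivWithinAt.derivWithin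
      (uniqueDiffOn_Icc zero_lt_one 0 (Set.left_mem_Icc.2 zero_le_one))]
    simp
  · intro t ht
    have h1 := hC t ht
    rw [taylor_within_apply, Real.norm_eq_abs, sub_zero] at h1
    refine le_trans (le_of_eq ?_) h1
    congr 2
    refine Finset.sum_congr rfl fun k _ => ?_
    rw [smul_eq_mul]
    ring

theorem PE.sum5a {x0 Q : ℝ} {ι : Type*} (S : Finset ι) (f : ι → ℕ → ℝ)
    (h : ∀ i ∈ S, PE x0 Q (f i)) : PE x0 Q (fun n => ∑ i ∈ S, f i n) := by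
  classical
  induction S using Finset.induction_on with
  | empty =>
    simp only [Finset.sum_empty]
    exact PE.of_isBigO (isBigO_zero _ _)
  | insert a S ha ih =>
    simp only [Finset.sum_insert ha]
    exact PE.add (h a (Finset.mem_insert_self _ _))
      (ih fun i hi => h i (Finset.mem_insert_of_mem hi))

/-- second order difference of a power -/
theorem diff_pow (y Q : ℝ) : PE (y + 2) Q
    (fun n : ℕ => ((n + 1 : ℕ) : ℝ) ^ (-y) - (n : ℝ) ^ (-y) + y * (n : ℝ) ^ (-(y + 1))) := by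
  obtain ⟨J0, hJ0⟩ := exists_nat_ge (Q - y)
  obtain ⟨J, hJ⟩ : ∃ J, J = J0 + 2 := ⟨_, rfl⟩
  obtain ⟨a, a0, a1, C, hC⟩ := taylor_rpow (-y) J (by omega)
  have hmain : PE (y + 2) Q (fun n : ℕ => ∑ k ∈ Finset.Ico 2 J, a k * (n : ℝ) ^ (-(y + k))) := by
    refine PE.sum5a _ _ fun k hk => PE.single _ ?_
    have h2 : (2 : ℝ) ≤ k := by exact_mod_cast (Finset.mem_Ico.1 hk).1
    linarith
  have herr : PE (y + 2) Q (fun n : ℕ => ((n + 1 : ℕ) : ℝ) ^ (-y) - (n : ℝ) ^ (-y)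
      + y * (n : ℝ) ^ (-(y + 1)) - ∑ k ∈ Finset.Ico 2 J, a k * (n : ℝ) ^ (-(y + k))) := by
    refine PE.of_isBigO (IsBigO.of_bound |C| ?_)
    filter_upwards [eventually_ge_atTop 1] with n hn
    have hn1 : (1 : ℝ) ≤ n := by exact_mod_cast hn
    have hn0 : (0 : ℝ) < n := by linarith
    have hinv : (n : ℝ)⁻¹ ∈ Set.Icc (0 : ℝ) 1 := ⟨by positivity, inv_le_one_of_one_le₀ hn1⟩
    have h1 := hC _ hinv
    have e1 : ((n + 1 : ℕ) : ℝ) ^ (-y) = (n : ℝ) ^ (-y) * (1 + (n : ℝ)⁻¹) ^ (-y) := by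
      rw [← Real.mul_rpow hn0.le (by positivity)]
      congr 1
      push_cast
      field_simp
    have e2 : ∀ k : ℕ, (n : ℝ) ^ (-(y + k)) = (n : ℝ) ^ (-y) * ((n : ℝ)⁻¹) ^ k := by
      intro k
      rw [neg_add, Real.rpow_add hn0, Real.rpow_neg hn0.le (k : ℝ), Real.rpow_natCast, inv_pow]
    have e3 : ∑ k ∈ Finset.range J, a k * ((n : ℝ)⁻¹) ^ k
        = 1 + (-y) * (n : ℝ)⁻¹ + ∑ k ∈ Finset.Ico 2 J, a k * ((n : ℝ)⁻¹) ^ k := by
      rw [Finset.range_eq_Ico, Finset.sum_eq_sum_Ico_succ_bot (by omega),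
        Finset.sum_eq_sum_Ico_succ_bot (by omega), a0, zero_add, a1]
      ring
    have e4 : (n : ℝ) ^ (-(y + 1)) = (n : ℝ) ^ (-y) * (n : ℝ)⁻¹ := by
      have := e2 1
      simpa using this
    have e5 : ((n + 1 : ℕ) : ℝ) ^ (-y) - (n : ℝ) ^ (-y) + y * (n : ℝ) ^ (-(y + 1))
        - ∑ k ∈ Finset.Ico 2 J, a k * (n : ℝ) ^ (-(y + k))
        = (n : ℝ) ^ (-y) * ((1 + (n : ℝ)⁻¹) ^ (-y)
          - ∑ k ∈ Finset.range J, a k * ((n : ℝ)⁻¹) ^ k) := by
      rw [e3, e1, e4]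
      have e6 : ∑ k ∈ Finset.Ico 2 J, a k * (n : ℝ) ^ (-(y + k))
          = (n : ℝ) ^ (-y) * ∑ k ∈ Finset.Ico 2 J, a k * ((n : ℝ)⁻¹) ^ k := by
        rw [Finset.mul_sum]
        refine Finset.sum_congr rfl fun k _ => ?_
        rw [e2]
        ring
      rw [e6]
      ring
    have hpos : 0 < (n : ℝ) ^ (-y) := Real.rpow_pos_of_pos hn0 _
    rw [e5, Real.norm_eq_abs, abs_mul, abs_of_pos hpos, Real.norm_eq_abs,
      abs_of_pos (Real.rpow_pos_of_pos hn0 _)]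
    calc (n : ℝ) ^ (-y) * |(1 + (n : ℝ)⁻¹) ^ (-y) - ∑ k ∈ Finset.range J, a k * ((n : ℝ)⁻¹) ^ k|
        ≤ (n : ℝ) ^ (-y) * (|C| * ((n : ℝ)⁻¹) ^ J) := by
          refine mul_le_mul_of_nonneg_left (h1.trans ?_) hpos.le
          exact mul_le_mul_of_nonneg_right (le_abs_self C) (by positivity)
      _ = |C| * (n : ℝ) ^ (-(y + J)) := by
          rw [e2]
          ring
      _ ≤ |C| * (n : ℝ) ^ (-Q) := by
          refine mul_le_mul_of_nonneg_left ?_ (abs_nonneg C)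
          refine Real.rpow_le_rpow_of_exponent_le hn1 ?_
          have : (J : ℝ) = J0 + 2 := by rw [hJ]; push_cast; ring
          rw [this]
          linarith
  refine (PE.add hmain herr).congr' (Eventually.of_forall fun n => ?_)
  simp only
  ring

/-- one step -/
theorem antidiff_step {x0 Q : ℝ} {f : ℕ → ℝ} (hx : 1 < x0) (hf : PE x0 Q f) :
    ∃ R : ℕ → ℝ, PE (x0 - 1) (Q - 1) R ∧ PE (x0 + 1) Q (fun n => R (n + 1) - R n - f n) := by
  obtain ⟨S, c, hS, herr⟩ := hf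
  refine ⟨fun n => ∑ x ∈ S, (c x / (1 - x)) * (n : ℝ) ^ (-(x - 1)), ?_, ?_⟩
  · refine PE.sum5a S (fun x (n : ℕ) => (c x / (1 - x)) * (n : ℝ) ^ (-(x - 1)))
      fun x hxS => PE.single _ ?_
    have := hS x hxS
    linarith
  · have h1 : PE (x0 + 1) Q (fun n : ℕ => ∑ x ∈ S, (c x / (1 - x)) *
        (((n + 1 : ℕ) : ℝ) ^ (-(x - 1)) - (n : ℝ) ^ (-(x - 1))
          + (x - 1) * (n : ℝ) ^ (-((x - 1) + 1)))) := by
      refine PE.sum5a S (fun x (n : ℕ) => (c x / (1 - x)) *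
        (((n + 1 : ℕ) : ℝ) ^ (-(x - 1)) - (n : ℝ) ^ (-(x - 1))
          + (x - 1) * (n : ℝ) ^ (-((x - 1) + 1)))) fun x hxS => ?_
      refine PE.smul _ ((diff_pow (x - 1) Q).mono ?_ le_rfl)
      have := hS x hxS
      linarith
    have h2 : PE (x0 + 1) Q (fun n : ℕ => (-1) * (f n - ∑ x ∈ S, c x * (n : ℝ) ^ (-x))) :=
      PE.smul _ (PE.of_isBigO herr)
    refine (PE.add h1 h2).congr' (Eventually.of_forall fun n => ?_)
    simp only
    have h3 : ∑ x ∈ S, (c x / (1 - x)) * (((n + 1 : ℕ) : ℝ) ^ (-(x - 1)) - (n : ℝ) ^ (-(x - 1))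
          + (x - 1) * (n : ℝ) ^ (-((x - 1) + 1)))
        = ∑ x ∈ S, (c x / (1 - x)) * ((n + 1 : ℕ) : ℝ) ^ (-(x - 1))
          - ∑ x ∈ S, (c x / (1 - x)) * (n : ℝ) ^ (-(x - 1)) - ∑ x ∈ S, c x * (n : ℝ) ^ (-x) := by
      rw [← Finset.sum_sub_distrib, ← Finset.sum_sub_distrib]
      refine Finset.sum_congr rfl fun x hxS => ?_
      have h4 : 1 - x ≠ 0 := by
        have := hS x hxS
        intro h
        linarith
      rw [sub_add_cancel]
      field_simp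
      ring
    rw [h3]
    ring

theorem antidiff_iter {x0 Q : ℝ} {f : ℕ → ℝ} (hx : 1 < x0) (hf : PE x0 Q f) (J : ℕ) :
    ∃ R : ℕ → ℝ, PE (x0 - 1) (Q - 1) R ∧ PE (x0 + J) Q (fun n => R (n + 1) - R n - f n) := by
  induction J with
  | zero =>
    refine ⟨fun _ => 0, PE.of_isBigO (isBigO_zero _ _), ?_⟩
    refine ((PE.smul (-1) hf).congr' (Eventually.of_forall fun n => ?_)).mono (by simp) le_rfl
    simp
  | succ J ih =>
    obtain ⟨R, hR, hD⟩ := ih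
    obtain ⟨R', hR', hD'⟩ := antidiff_step (by
      have : (0 : ℝ) ≤ J := Nat.cast_nonneg J
      linarith) hD
    refine ⟨fun n => R n + (-1) * R' n, ?_, ?_⟩
    · refine PE.add hR (PE.smul _ (hR'.mono ?_ le_rfl))
      have : (0 : ℝ) ≤ J := Nat.cast_nonneg J
      linarith
    · refine ((PE.smul (-1) hD').congr' (Eventually.of_forall fun n => ?_)).mono ?_ le_rfl
      · simp only
        ring
      · push_cast
        linarith

/-! ## TARGETS (prove these) -/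

/-! ### P5a -/

theorem PE.antidiff {x0 Q : ℝ} {f : ℕ → ℝ} (hx : 1 < x0) (hQ : 1 < Q) (hf : PE x0 Q f) :
    ∃ R : ℕ → ℝ, PE (x0 - 1) (Q - 1) R ∧
      (fun n => R (n + 1) - R n - f n) =O[atTop] (fun n : ℕ => (n : ℝ) ^ (-Q)) := by
  obtain ⟨J, hJ⟩ := exists_nat_ge (Q - x0)
  obtain ⟨R, hR, hD⟩ := antidiff_iter hx hf J
  refine ⟨R, hR, ?_⟩
  obtain ⟨K, hK0, hK⟩ := hD.bound (x := Q) (by linarith) le_rfl
  refine IsBigO.of_bound K ?_
  filter_upwards [eventually_ge_atTop 1] with n hn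
  have hn1 : (1 : ℝ) ≤ n := by exact_mod_cast hn
  have hn0 : (0 : ℝ) < n := by linarith
  rw [Real.norm_eq_abs, Real.norm_eq_abs, abs_of_pos (Real.rpow_pos_of_pos hn0 _)]
  refine (hK n).trans (mul_le_mul_of_nonneg_left ?_ hK0.le)
  exact Real.rpow_le_rpow_of_nonpos hn0 (by linarith) (by linarith)

end Pool.Agent.FW
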