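import Pool.Agent.Helper155.FW.Defs
import Pool.Agent.Helper155.FW.P2

set_option autoImplicit false
open Filter Asymptotics Topology

namespace Pool.Agent.FW

/-! ## AVAILABLE (proved by others; use freely) -/

/-! ### P1: algebra -/









/-! ### P2: shift and difference -/




/-! ## helper lemmas -/

theorem rp_add_nat (a : ℝ) (k : ℕ) {n : ℕ} (hn : 1 ≤ n) :
    (n : ℝ) ^ (-(a + k)) = (n : ℝ) ^ (-a) * ((n : ℝ)⁻¹) ^ k := by
  have hn' : (0 : ℝ) < n := by exact_mod_cast hn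
  rw [neg_add, Real.rpow_add hn', Real.rpow_neg hn'.le (k : ℝ), Real.rpow_natCast, inv_pow]

theorem rp_isBigO {b Q : ℝ} (h : Q ≤ b) :
    (fun n : ℕ => (n : ℝ) ^ (-b)) =O[atTop] (fun n : ℕ => (n : ℝ) ^ (-Q)) := by
  refine IsBigO.of_bound 1 ?_
  filter_upwards [eventually_ge_atTop 1] with n hn
  have hn' : (1 : ℝ) ≤ n := by exact_mod_cast hn
  have hn0 : (0 : ℝ) ≤ n := by linarith
  rw [one_mul, Real.norm_of_nonneg (Real.rpow_nonneg hn0 _), Real.norm_of_nonneg (Real.rpow_nonneg hn0 _)]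
  exact Real.rpow_le_rpow_of_exponent_le hn' (by linarith)

theorem taylor2 {f : ℝ → ℝ} (hf : AnalyticAt ℝ f 0) : ∃ c : ℕ → ℝ, ∀ K : ℕ,
    (fun y => f y - f 0 - deriv f 0 * y - ∑ k ∈ Finset.range K, c k * y ^ (k + 2))
      =O[nhds 0] (fun y : ℝ => y ^ (K + 2)) := by
  obtain ⟨p, hp⟩ := hf
  refine ⟨fun k => p.coeff (k + 2), fun K => ?_⟩
  have h := hp.isBigO_sub_partialSum_pow (K + 2)
  have h2 : (fun y : ℝ => ‖y‖ ^ (K + 2)) = fun y : ℝ => ‖y ^ (K + 2)‖ := by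
    funext y
    rw [norm_pow]
  rw [h2, isBigO_norm_right] at h
  refine h.congr_left fun y => ?_
  rw [zero_add]
  unfold FormalMultilinearSeries.partialSum
  rw [Finset.sum_range_succ', Finset.sum_range_succ']
  have h0 : (p 0 fun _ => y) = f 0 := hp.coeff_zero _
  have h1 : (p (0 + 1) fun _ => y) = deriv f 0 * y := by
    rw [FormalMultilinearSeries.apply_eq_pow_smul_coeff, hp.deriv]
    change y ^ 1 • p.coeff 1 = p.coeff 1 * y
    rw [smul_eq_mul, pow_one, mul_comm]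
  have h3 : ∑ k ∈ Finset.range K, (p (k + 1 + 1) fun _ => y) = ∑ k ∈ Finset.range K, p.coeff (k + 2) * y ^ (k + 2) := by
    refine Finset.sum_congr rfl fun k _ => ?_
    rw [FormalMultilinearSeries.apply_eq_pow_smul_coeff, smul_eq_mul, mul_comm]
  rw [h0, h1, h3]
  ring

theorem log_succ {n : ℕ} (hn : 1 ≤ n) : Real.log ((n : ℝ) + 1) = Real.log n + Real.log (1 + (n : ℝ)⁻¹) := by
  have hn' : (0 : ℝ) < n := by exact_mod_cast hn
  rw [← Real.log_mul hn'.ne' (by positivity)]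
  congr 1
  field_simp

theorem pshift (a Q : ℝ) : ∃ (K : ℕ) (c : ℕ → ℝ),
    (fun n : ℕ => ((n + 1 : ℕ) : ℝ) ^ (-a) - (n : ℝ) ^ (-a) + a * (n : ℝ) ^ (-(a + 1)) -
      ∑ k ∈ Finset.range K, c k * (n : ℝ) ^ (-(a + 2 + k))) =O[atTop] (fun n : ℕ => (n : ℝ) ^ (-Q)) := by
  set f : ℝ → ℝ := fun y => Real.exp (-(a * Real.log (1 + y))) with hf
  have hfa : AnalyticAt ℝ f 0 := by
    apply AnalyticAt.rexp'
    apply AnalyticAt.neg
    apply AnalyticAt.mul analyticAt_const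
    apply AnalyticAt.log
    · exact analyticAt_const.add analyticAt_id
    · norm_num
  have hf0 : f 0 = 1 := by simp [hf]
  have hfd : deriv f 0 = -a := by
    have h1 : HasDerivAt (fun y : ℝ => 1 + y) 1 0 := by
      simpa using (hasDerivAt_id (0 : ℝ)).const_add 1
    have h2 := (((h1.log (by norm_num)).const_mul a).neg).exp
    have h3 : HasDerivAt f (-a) 0 := by
      refine h2.congr_deriv ?_
      simp
    exact h3.deriv
  obtain ⟨c, hc⟩ := taylor2 hfa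
  set K := ⌈Q - a⌉₊ with hK
  refine ⟨K, c, ?_⟩
  have h1 := (hc K).comp_tendsto (tendsto_inv_atTop_nhds_zero_nat (𝕜 := ℝ))
  have h2 := (isBigO_refl (fun n : ℕ => (n : ℝ) ^ (-a)) atTop).mul h1
  have h3 : (fun n : ℕ => (n : ℝ) ^ (-a) * ((fun y : ℝ => y ^ (K + 2)) ∘ fun n : ℕ => (n : ℝ)⁻¹) n) =ᶠ[atTop]
      (fun n : ℕ => (n : ℝ) ^ (-(a + (K + 2 : ℕ)))) := by
    filter_upwards [eventually_ge_atTop 1] with n hn
    rw [rp_add_nat a (K + 2) hn]
    rfl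
  have h4 : (fun n : ℕ => (n : ℝ) ^ (-a) * ((fun y => f y - f 0 - deriv f 0 * y - ∑ k ∈ Finset.range K, c k * y ^ (k + 2)) ∘ fun n : ℕ => (n : ℝ)⁻¹) n)
      =ᶠ[atTop] (fun n : ℕ => ((n + 1 : ℕ) : ℝ) ^ (-a) - (n : ℝ) ^ (-a) + a * (n : ℝ) ^ (-(a + 1)) -
      ∑ k ∈ Finset.range K, c k * (n : ℝ) ^ (-(a + 2 + k))) := by
    filter_upwards [eventually_ge_atTop 1] with n hn
    have hn' : (0 : ℝ) < n := by exact_mod_cast hn
    simp only [Function.comp_apply]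
    rw [hf0, hfd]
    have e1 : ((n + 1 : ℕ) : ℝ) ^ (-a) = (n : ℝ) ^ (-a) * f ((n : ℝ)⁻¹) := by
      rw [hf]
      simp only
      have hn1 : (0 : ℝ) < ((n + 1 : ℕ) : ℝ) := by positivity
      rw [Real.rpow_def_of_pos hn1, Real.rpow_def_of_pos hn', ← Real.exp_add]
      push_cast
      rw [log_succ hn]
      congr 1
      ring
    have e2 : (n : ℝ) ^ (-(a + 1)) = (n : ℝ) ^ (-a) * (n : ℝ)⁻¹ := by
      have := rp_add_nat a 1 hn
      simpa using this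
    have e3 : ∑ k ∈ Finset.range K, c k * (n : ℝ) ^ (-(a + 2 + k)) =
        (n : ℝ) ^ (-a) * ∑ k ∈ Finset.range K, c k * ((n : ℝ)⁻¹) ^ (k + 2) := by
      rw [Finset.mul_sum]
      refine Finset.sum_congr rfl fun k _ => ?_
      have e4 : a + 2 + (k : ℝ) = a + ((k + 2 : ℕ) : ℝ) := by push_cast; ring
      rw [e4, rp_add_nat a (k + 2) hn]
      ring
    rw [e1, e2, e3]
    ring
  refine (h2.congr' h4 h3).trans (rp_isBigO ?_)
  have := Nat.le_ceil (Q - a)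
  push_cast
  rw [← hK] at this
  linarith

theorem lshift (Q : ℝ) : ∃ (K : ℕ) (c : ℕ → ℝ),
    (fun n : ℕ => Real.log ((n + 1 : ℕ) : ℝ) - Real.log n - (n : ℝ) ^ (-(1 : ℝ)) -
      ∑ k ∈ Finset.range K, c k * (n : ℝ) ^ (-(2 + (k : ℝ)))) =O[atTop] (fun n : ℕ => (n : ℝ) ^ (-Q)) := by
  set f : ℝ → ℝ := fun y => Real.log (1 + y) with hf
  have hfa : AnalyticAt ℝ f 0 := by
    apply AnalyticAt.log
    · exact analyticAt_const.add analyticAt_id
    · norm_num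
  have hf0 : f 0 = 0 := by simp [hf]
  have hfd : deriv f 0 = 1 := by
    have h1 : HasDerivAt (fun y : ℝ => 1 + y) 1 0 := by
      simpa using (hasDerivAt_id (0 : ℝ)).const_add 1
    have h2 := (h1.log (by norm_num))
    have h3 : HasDerivAt f 1 0 := by
      refine h2.congr_deriv ?_
      simp
    exact h3.deriv
  obtain ⟨c, hc⟩ := taylor2 hfa
  set K := ⌈Q⌉₊ with hK
  refine ⟨K, c, ?_⟩
  have h1 := (hc K).comp_tendsto (tendsto_inv_atTop_nhds_zero_nat (𝕜 := ℝ))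
  have hz : ∀ (k : ℕ) {n : ℕ}, 1 ≤ n → (n : ℝ) ^ (-(k : ℝ)) = ((n : ℝ)⁻¹) ^ k := by
    intro k n hn
    have := rp_add_nat 0 k hn
    simpa using this
  have h3 : ((fun y : ℝ => y ^ (K + 2)) ∘ fun n : ℕ => (n : ℝ)⁻¹) =ᶠ[atTop]
      (fun n : ℕ => (n : ℝ) ^ (-((K + 2 : ℕ) : ℝ))) := by
    filter_upwards [eventually_ge_atTop 1] with n hn
    rw [hz (K + 2) hn]
    rfl
  have h4 : ((fun y => f y - f 0 - deriv f 0 * y - ∑ k ∈ Finset.range K, c k * y ^ (k + 2)) ∘ fun n : ℕ => (n : ℝ)⁻¹)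
      =ᶠ[atTop] (fun n : ℕ => Real.log ((n + 1 : ℕ) : ℝ) - Real.log n - (n : ℝ) ^ (-(1 : ℝ)) -
      ∑ k ∈ Finset.range K, c k * (n : ℝ) ^ (-(2 + (k : ℝ)))) := by
    filter_upwards [eventually_ge_atTop 1] with n hn
    simp only [Function.comp_apply]
    rw [hf0, hfd]
    have e1 : f ((n : ℝ)⁻¹) = Real.log ((n + 1 : ℕ) : ℝ) - Real.log n := by
      rw [hf]
      simp only
      push_cast
      rw [log_succ hn]
      ring
    have e2 : (n : ℝ) ^ (-(1 : ℝ)) = (n : ℝ)⁻¹ := by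
      have := hz 1 hn
      simpa using this
    have e3 : ∑ k ∈ Finset.range K, c k * (n : ℝ) ^ (-(2 + (k : ℝ))) = ∑ k ∈ Finset.range K, c k * ((n : ℝ)⁻¹) ^ (k + 2) := by
      refine Finset.sum_congr rfl fun k _ => ?_
      have e4 : 2 + (k : ℝ) = ((k + 2 : ℕ) : ℝ) := by push_cast; ring
      rw [e4, hz (k + 2) hn]
    rw [e1, e2, e3]
    ring
  refine (h1.congr' h4 h3).trans (rp_isBigO ?_)
  have := Nat.le_ceil Q
  push_cast
  rw [← hK] at this
  linarith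

theorem PE.zero (x0 Q : ℝ) : PE x0 Q (fun _ => 0) :=
  PE.of_isBigO (isBigO_zero _ _)

theorem PE.neg' {x0 Q : ℝ} {f : ℕ → ℝ} (hf : PE x0 Q f) : PE x0 Q (fun n => -f n) := by
  have h := hf.smul (-1)
  simpa only [neg_one_mul] using h

theorem PE.sub' {x0 Q : ℝ} {f g : ℕ → ℝ} (hf : PE x0 Q f) (hg : PE x0 Q g) :
    PE x0 Q (fun n => f n - g n) := by
  have h := hf.add hg.neg'
  simpa only [← sub_eq_add_neg] using h

theorem PE.sum5b' {ι : Type} {x0 Q : ℝ} (s : Finset ι) (f : ι → ℕ → ℝ) (h : ∀ i ∈ s, PE x0 Q (f i)) :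
    PE x0 Q (fun n => ∑ i ∈ s, f i n) := by
  classical
  induction s using Finset.induction_on with
  | empty =>
    simp only [Finset.sum_empty]
    exact PE.zero x0 Q
  | insert a s ha ih =>
    simp only [Finset.sum_insert ha]
    exact (h a (Finset.mem_insert_self _ _)).add (ih fun i hi => h i (Finset.mem_insert_of_mem hi))

theorem PE.const' {x0 Q : ℝ} (a : ℝ) (hx : x0 ≤ 0) : PE x0 Q (fun _ => a) := by
  have h := PE.single (x0 := x0) (Q := Q) (x := 0) a hx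
  simpa only [neg_zero, Real.rpow_zero, mul_one] using h

/-- from the precise form to a cruder one -/
theorem crude {e Q t : ℝ} {y : ℕ → ℝ} (h : PE e Q (fun n : ℕ => y n - t * (n : ℝ) ^ (-(e - 1)))) :
    PE (e - 1) Q y := by
  have h1 := (h.mono (x0' := e - 1) (by linarith) (le_refl Q)).add (PE.single (x0 := e - 1) (Q := Q) (x := e - 1) t le_rfl)
  simpa only [sub_add_cancel] using h1

theorem anti_gen (Q : ℝ) (N : ℕ) : ∀ e : ℝ, Q + 1 ≤ e + N → (∀ i : ℕ, e + i ≠ 1) → ∃ y : ℕ → ℝ,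
    PE e Q (fun n : ℕ => y n - 1 / (1 - e) * (n : ℝ) ^ (-(e - 1))) ∧
    (fun n : ℕ => y (n + 1) - y n - (n : ℝ) ^ (-e)) =O[atTop] (fun n : ℕ => (n : ℝ) ^ (-Q)) := by
  induction N with
  | zero =>
    intro e he _
    push_cast at he
    refine ⟨fun _ => 0, ?_, ?_⟩
    · apply PE.of_isBigO
      have h1 := (rp_isBigO (b := e - 1) (Q := Q) (by linarith)).const_mul_left (-(1 / (1 - e)))
      refine h1.congr_left fun n => ?_
      ring
    · have h1 := (rp_isBigO (b := e) (Q := Q) (by linarith)).const_mul_left (-1)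
      refine h1.congr_left fun n => ?_
      ring
  | succ N ih =>
    intro e he hi
    push_cast at he
    have hne : 1 - e ≠ 0 := by
      intro h
      apply hi 0
      push_cast
      linarith
    obtain ⟨K, c, hc⟩ := pshift (e - 1) Q
    have h1 : ∀ k : ℕ, ∃ y : ℕ → ℝ, PE (e + 1 + k) Q (fun n : ℕ => y n - 1 / (1 - (e + 1 + k)) * (n : ℝ) ^ (-((e + 1 + k) - 1))) ∧
        (fun n : ℕ => y (n + 1) - y n - (n : ℝ) ^ (-(e + 1 + k))) =O[atTop] (fun n : ℕ => (n : ℝ) ^ (-Q)) := by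
      intro k
      have hk : (0 : ℝ) ≤ k := Nat.cast_nonneg k
      apply ih
      · linarith
      · intro i hh
        apply hi (1 + k + i)
        push_cast
        linarith
    choose y hy1 hy2 using h1
    have hymem : ∀ k, PE e Q (y k) := by
      intro k
      have hk : (0 : ℝ) ≤ k := Nat.cast_nonneg k
      exact (crude (hy1 k)).mono (by linarith) le_rfl
    refine ⟨fun n => 1 / (1 - e) * ((n : ℝ) ^ (-(e - 1)) - ∑ k ∈ Finset.range K, c k * y k n), ?_, ?_⟩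
    · have h2 : PE e Q (fun n => -(1 / (1 - e)) * ∑ k ∈ Finset.range K, c k * y k n) :=
        (PE.sum5b' _ _ fun k _ => (hymem k).smul (c k)).smul _
      have h3 : (fun n : ℕ => 1 / (1 - e) * ((n : ℝ) ^ (-(e - 1)) - ∑ k ∈ Finset.range K, c k * y k n) -
          1 / (1 - e) * (n : ℝ) ^ (-(e - 1))) = fun n => -(1 / (1 - e)) * ∑ k ∈ Finset.range K, c k * y k n := by
        funext n
        ring
      rw [h3]
      exact h2
    · have h3 : (fun n : ℕ => ∑ k ∈ Finset.range K, c k * (y k (n + 1) - y k n - (n : ℝ) ^ (-(e + 1 + k)))) =O[atTop]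
          (fun n : ℕ => (n : ℝ) ^ (-Q)) := by
        have h4 : (∑ k ∈ Finset.range K, fun n : ℕ => c k * (y k (n + 1) - y k n - (n : ℝ) ^ (-(e + 1 + k)))) =O[atTop]
            (fun n : ℕ => (n : ℝ) ^ (-Q)) :=
          IsBigO.sum fun k _ => (hy2 k).const_mul_left (c k)
        exact h4.congr_left fun n => by rw [Finset.sum_apply]
      refine ((hc.sub h3).const_mul_left (1 / (1 - e))).congr_left fun n => ?_
      have e1 : ∑ k ∈ Finset.range K, c k * (y k (n + 1) - y k n - (n : ℝ) ^ (-(e + 1 + k))) =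
          (∑ k ∈ Finset.range K, c k * y k (n + 1)) - (∑ k ∈ Finset.range K, c k * y k n) -
            ∑ k ∈ Finset.range K, c k * (n : ℝ) ^ (-(e + 1 + k)) := by
        rw [← Finset.sum_sub_distrib, ← Finset.sum_sub_distrib]
        refine Finset.sum_congr rfl fun k _ => ?_
        ring
      have e2 : ∑ k ∈ Finset.range K, c k * (n : ℝ) ^ (-(e - 1 + 2 + k)) = ∑ k ∈ Finset.range K, c k * (n : ℝ) ^ (-(e + 1 + k)) := by
        refine Finset.sum_congr rfl fun k _ => ?_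
        congr 2
        ring
      have e3 : e - 1 + 1 = e := by ring
      rw [e1, e2, e3]
      field_simp
      ring

/-- the polynomial case -/
theorem anti_poly (Q : ℝ) (m : ℕ) : ∃ y : ℕ → ℝ,
    PE (-(m : ℝ)) Q (fun n : ℕ => y n - 1 / (m + 1 : ℝ) * (n : ℝ) ^ (-(-(m : ℝ) - 1))) ∧
    ∀ n : ℕ, y (n + 1) - y n = (n : ℝ) ^ m := by
  induction m using Nat.strong_induction_on with
  | _ m ih =>
    have h1 : ∀ k : ℕ, ∃ y : ℕ → ℝ, k < m → (PE (-(k : ℝ)) Q (fun n : ℕ => y n - 1 / (k + 1 : ℝ) * (n : ℝ) ^ (-(-(k : ℝ) - 1))) ∧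
        ∀ n : ℕ, y (n + 1) - y n = (n : ℝ) ^ k) := by
      intro k
      by_cases hk : k < m
      · obtain ⟨y, hy⟩ := ih k hk
        exact ⟨y, fun _ => hy⟩
      · exact ⟨0, fun h => absurd h hk⟩
    choose y hy using h1
    have hymem : ∀ k < m, PE (-(m : ℝ)) Q (y k) := by
      intro k hk
      have hk' : (k : ℝ) + 1 ≤ m := by exact_mod_cast hk
      exact (crude (hy k hk).1).mono (by linarith) le_rfl
    refine ⟨fun n => 1 / (m + 1 : ℝ) * ((n : ℝ) ^ (m + 1) - ∑ k ∈ Finset.range m, ((m + 1).choose k : ℝ) * y k n), ?_, ?_⟩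
    · have h2 : PE (-(m : ℝ)) Q (fun n => -(1 / (m + 1 : ℝ)) * ∑ k ∈ Finset.range m, ((m + 1).choose k : ℝ) * y k n) :=
        (PE.sum5b' _ _ fun k hk => (hymem k (Finset.mem_range.mp hk)).smul _).smul _
      have h3 : (fun n : ℕ => 1 / (m + 1 : ℝ) * ((n : ℝ) ^ (m + 1) - ∑ k ∈ Finset.range m, ((m + 1).choose k : ℝ) * y k n) -
          1 / (m + 1 : ℝ) * (n : ℝ) ^ (-(-(m : ℝ) - 1))) =
          fun n => -(1 / (m + 1 : ℝ)) * ∑ k ∈ Finset.range m, ((m + 1).choose k : ℝ) * y k n := by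
        funext n
        have h4 : -(-(m : ℝ) - 1) = ((m + 1 : ℕ) : ℝ) := by push_cast; ring
        rw [h4, Real.rpow_natCast]
        ring
      rw [h3]
      exact h2
    · intro n
      have e1 : (∑ k ∈ Finset.range m, ((m + 1).choose k : ℝ) * y k (n + 1)) - (∑ k ∈ Finset.range m, ((m + 1).choose k : ℝ) * y k n) =
          ∑ k ∈ Finset.range m, ((m + 1).choose k : ℝ) * (n : ℝ) ^ k := by
        rw [← Finset.sum_sub_distrib]
        refine Finset.sum_congr rfl fun k hk => ?_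
        rw [← mul_sub, (hy k (Finset.mem_range.mp hk)).2 n]
      have e2 : ((n + 1 : ℕ) : ℝ) ^ (m + 1) = (∑ k ∈ Finset.range m, ((m + 1).choose k : ℝ) * (n : ℝ) ^ k) +
          (m + 1 : ℝ) * (n : ℝ) ^ m + (n : ℝ) ^ (m + 1) := by
        push_cast
        rw [add_pow, Finset.sum_range_succ, Finset.sum_range_succ]
        simp only [one_pow, mul_one, Nat.choose_self, Nat.cast_one]
        rw [Nat.choose_succ_self_right]
        push_cast
        have : ∑ k ∈ Finset.range m, (n : ℝ) ^ k * ((m + 1).choose k : ℝ) = ∑ k ∈ Finset.range m, ((m + 1).choose k : ℝ) * (n : ℝ) ^ k :=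
          Finset.sum_congr rfl fun k _ => mul_comm _ _
        rw [this]
        ring
      simp only
      rw [e2]
      have hm : (m + 1 : ℝ) ≠ 0 := by positivity
      have e3 : ∑ k ∈ Finset.range m, ((m + 1).choose k : ℝ) * y k (n + 1) =
          (∑ k ∈ Finset.range m, ((m + 1).choose k : ℝ) * y k n) + ∑ k ∈ Finset.range m, ((m + 1).choose k : ℝ) * (n : ℝ) ^ k := by
        linarith
      rw [e3]
      field_simp
      ring

theorem anti_ne (Q e : ℝ) (he : e ≠ 1) : ∃ y : ℕ → ℝ,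
    PE e Q (fun n : ℕ => y n - 1 / (1 - e) * (n : ℝ) ^ (-(e - 1))) ∧
    (fun n : ℕ => y (n + 1) - y n - (n : ℝ) ^ (-e)) =O[atTop] (fun n : ℕ => (n : ℝ) ^ (-Q)) := by
  by_cases h : ∀ i : ℕ, e + i ≠ 1
  · obtain ⟨N, hN⟩ := exists_nat_ge (Q + 1 - e)
    exact anti_gen Q N e (by linarith) h
  · push Not at h
    obtain ⟨i, hi⟩ := h
    rcases i with _ | m
    · exfalso
      apply he
      simpa using hi
    · push_cast at hi
      have hem : e = -(m : ℝ) := by linarith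
      obtain ⟨y, hy1, hy2⟩ := anti_poly Q m
      refine ⟨y, ?_, ?_⟩
      · rw [hem]
        have : 1 / (1 - -(m : ℝ)) = 1 / (m + 1 : ℝ) := by
          congr 1
          ring
        rw [this]
        exact hy1
      · refine (isBigO_zero _ _).congr_left fun n => ?_
        rw [hy2 n, hem, neg_neg, Real.rpow_natCast, sub_self]

theorem anti_one (Q : ℝ) : ∃ y : ℕ → ℝ, PE 1 Q y ∧
    (fun n : ℕ => Real.log ((n + 1 : ℕ) : ℝ) + y (n + 1) - Real.log n - y n - (n : ℝ) ^ (-(1 : ℝ))) =O[atTop]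
      (fun n : ℕ => (n : ℝ) ^ (-Q)) := by
  obtain ⟨K, c, hc⟩ := lshift Q
  have h1 : ∀ k : ℕ, ∃ y : ℕ → ℝ, PE (2 + k) Q (fun n : ℕ => y n - 1 / (1 - (2 + (k : ℝ))) * (n : ℝ) ^ (-((2 + (k : ℝ)) - 1))) ∧
      (fun n : ℕ => y (n + 1) - y n - (n : ℝ) ^ (-(2 + (k : ℝ)))) =O[atTop] (fun n : ℕ => (n : ℝ) ^ (-Q)) := by
    intro k
    have hk : (0 : ℝ) ≤ k := Nat.cast_nonneg k
    exact anti_ne _ _ (by linarith)
  choose y hy1 hy2 using h1
  have hymem : ∀ k, PE 1 Q (y k) := by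
    intro k
    have hk : (0 : ℝ) ≤ k := Nat.cast_nonneg k
    exact (crude (hy1 k)).mono (by linarith) le_rfl
  refine ⟨fun n => -∑ k ∈ Finset.range K, c k * y k n, ?_, ?_⟩
  · exact (PE.sum5b' _ _ fun k _ => (hymem k).smul (c k)).neg'
  · have h3 : (fun n : ℕ => ∑ k ∈ Finset.range K, c k * (y k (n + 1) - y k n - (n : ℝ) ^ (-(2 + (k : ℝ))))) =O[atTop]
        (fun n : ℕ => (n : ℝ) ^ (-Q)) := by
      have h4 : (∑ k ∈ Finset.range K, fun n : ℕ => c k * (y k (n + 1) - y k n - (n : ℝ) ^ (-(2 + (k : ℝ))))) =O[atTop]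
          (fun n : ℕ => (n : ℝ) ^ (-Q)) :=
        IsBigO.sum fun k _ => (hy2 k).const_mul_left (c k)
      exact h4.congr_left fun n => by rw [Finset.sum_apply]
    refine (hc.sub h3).congr_left fun n => ?_
    have e1 : ∑ k ∈ Finset.range K, c k * (y k (n + 1) - y k n - (n : ℝ) ^ (-(2 + (k : ℝ)))) =
        (∑ k ∈ Finset.range K, c k * y k (n + 1)) - (∑ k ∈ Finset.range K, c k * y k n) -
          ∑ k ∈ Finset.range K, c k * (n : ℝ) ^ (-(2 + (k : ℝ))) := by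
      rw [← Finset.sum_sub_distrib, ← Finset.sum_sub_distrib]
      refine Finset.sum_congr rfl fun k _ => ?_
      ring
    rw [e1]
    ring

/-- telescoping bound -/
theorem tele {Q : ℝ} (hQ : 1 < Q) {n : ℕ} (hn : 1 ≤ n) :
    ((n + 1 : ℕ) : ℝ) ^ (-Q) ≤ 1 / (Q - 1) * ((n : ℝ) ^ (-(Q - 1)) - ((n + 1 : ℕ) : ℝ) ^ (-(Q - 1))) := by
  have hn' : (0 : ℝ) < n := by exact_mod_cast hn
  have hn1 : (0 : ℝ) < ((n + 1 : ℕ) : ℝ) := by positivity
  have hlog : Real.log n ≤ Real.log ((n + 1 : ℕ) : ℝ) - 1 / ((n + 1 : ℕ) : ℝ) := by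
    have h1 : Real.log ((n : ℝ) / ((n + 1 : ℕ) : ℝ)) ≤ (n : ℝ) / ((n + 1 : ℕ) : ℝ) - 1 :=
      Real.log_le_sub_one_of_pos (by positivity)
    rw [Real.log_div hn'.ne' hn1.ne'] at h1
    have h2 : (n : ℝ) / ((n + 1 : ℕ) : ℝ) - 1 = -(1 / ((n + 1 : ℕ) : ℝ)) := by
      push_cast
      field_simp
      ring
    linarith
  have h3 : ((n + 1 : ℕ) : ℝ) ^ (-(Q - 1)) * (1 + (Q - 1) * (1 / ((n + 1 : ℕ) : ℝ))) ≤ (n : ℝ) ^ (-(Q - 1)) := by
    rw [Real.rpow_def_of_pos hn', Real.rpow_def_of_pos hn1]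
    have h4 : 1 + (Q - 1) * (1 / ((n + 1 : ℕ) : ℝ)) ≤ Real.exp ((Q - 1) * (1 / ((n + 1 : ℕ) : ℝ))) := by
      have := Real.add_one_le_exp ((Q - 1) * (1 / ((n + 1 : ℕ) : ℝ)))
      linarith
    refine (mul_le_mul_of_nonneg_left h4 (Real.exp_pos _).le).trans ?_
    rw [← Real.exp_add]
    apply Real.exp_le_exp.mpr
    nlinarith
  have h5 : ((n + 1 : ℕ) : ℝ) ^ (-Q) = ((n + 1 : ℕ) : ℝ) ^ (-(Q - 1)) * (1 / ((n + 1 : ℕ) : ℝ)) := by
    have : -Q = -(Q - 1) + (-1) := by ring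
    rw [this, Real.rpow_add hn1, Real.rpow_neg_one, one_div]
  have hQ1 : 0 < Q - 1 := by linarith
  rw [h5, one_div (Q - 1), inv_mul_eq_div, le_div_iff₀ hQ1]
  linarith

theorem tail {Q : ℝ} (hQ : 1 < Q) {r : ℕ → ℝ} (hr : r =O[atTop] (fun n : ℕ => (n : ℝ) ^ (-Q))) :
    ∃ R : ℝ, (fun n : ℕ => (∑ j ∈ Finset.range (n + 1), r j) - R) =O[atTop] (fun n : ℕ => (n : ℝ) ^ (-(Q - 1))) := by
  obtain ⟨C, hC⟩ := hr.bound
  obtain ⟨N, hN⟩ := eventually_atTop.mp hC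
  set C' := max C 0 with hC'
  have hC0 : 0 ≤ C' := le_max_right _ _
  set M := max N 1 with hM
  have hQ1 : 0 < Q - 1 := by linarith
  set s : ℕ → ℝ := fun n => ∑ j ∈ Finset.range (n + 1), r j with hs
  set D := C' * (1 / (Q - 1)) with hD
  have hD0 : 0 ≤ D := by positivity
  have hrb : ∀ n ≥ M, |r (n + 1)| ≤ D * ((n : ℝ) ^ (-(Q - 1)) - ((n + 1 : ℕ) : ℝ) ^ (-(Q - 1))) := by
    intro n hn
    have h1 := hN (n + 1) (by omega)
    rw [Real.norm_eq_abs, Real.norm_of_nonneg (Real.rpow_nonneg (Nat.cast_nonneg _) _)] at h1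
    have h2 : C * ((n + 1 : ℕ) : ℝ) ^ (-Q) ≤ C' * ((n + 1 : ℕ) : ℝ) ^ (-Q) :=
      mul_le_mul_of_nonneg_right (le_max_left _ _) (Real.rpow_nonneg (Nat.cast_nonneg _) _)
    have h3 := mul_le_mul_of_nonneg_left (tele hQ (show 1 ≤ n by omega)) hC0
    calc |r (n + 1)| ≤ C * ((n + 1 : ℕ) : ℝ) ^ (-Q) := h1
      _ ≤ C' * ((n + 1 : ℕ) : ℝ) ^ (-Q) := h2
      _ ≤ C' * (1 / (Q - 1) * ((n : ℝ) ^ (-(Q - 1)) - ((n + 1 : ℕ) : ℝ) ^ (-(Q - 1)))) := h3
      _ = D * ((n : ℝ) ^ (-(Q - 1)) - ((n + 1 : ℕ) : ℝ) ^ (-(Q - 1))) := by rw [hD]; ring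
  have hdiff : ∀ n ≥ M, ∀ k : ℕ, |s (n + k) - s n| ≤ D * ((n : ℝ) ^ (-(Q - 1)) - ((n + k : ℕ) : ℝ) ^ (-(Q - 1))) := by
    intro n hn k
    induction k with
    | zero => simp
    | succ k ih =>
      have h1 : s (n + (k + 1)) = s (n + k) + r (n + k + 1) := by
        rw [hs]
        simp only
        rw [← add_assoc, Finset.sum_range_succ]
      have h2 : s (n + (k + 1)) - s n = (s (n + k) - s n) + r (n + k + 1) := by rw [h1]; ring
      rw [h2]
      refine (abs_add_le _ _).trans ?_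
      have h3 := hrb (n + k) (by omega)
      have h4 : ((n + (k + 1) : ℕ) : ℝ) = ((n + k + 1 : ℕ) : ℝ) := by push_cast; ring
      rw [h4]
      linarith
  have hdiff2 : ∀ n ≥ M, ∀ m ≥ n, |s m - s n| ≤ D * (n : ℝ) ^ (-(Q - 1)) := by
    intro n hn m hm
    obtain ⟨k, rfl⟩ := Nat.exists_eq_add_of_le hm
    refine (hdiff n hn k).trans ?_
    apply mul_le_mul_of_nonneg_left _ hD0
    have : 0 ≤ ((n + k : ℕ) : ℝ) ^ (-(Q - 1)) := Real.rpow_nonneg (Nat.cast_nonneg _) _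
    linarith
  have hlim0 : Tendsto (fun n : ℕ => D * (n : ℝ) ^ (-(Q - 1))) atTop (𝓝 0) := by
    have h1 := (tendsto_rpow_neg_atTop hQ1).comp tendsto_natCast_atTop_atTop
    have h2 := h1.const_mul D
    rw [mul_zero] at h2
    exact h2
  have hcauchy : CauchySeq (fun n => s (n + M)) := by
    refine cauchySeq_of_le_tendsto_0' (fun n : ℕ => D * ((n + M : ℕ) : ℝ) ^ (-(Q - 1))) ?_ ?_
    · intro n m hnm
      rw [dist_comm, Real.dist_eq]
      exact hdiff2 (n + M) (by omega) (m + M) (by omega)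
    · exact hlim0.comp (tendsto_add_atTop_nat M)
  obtain ⟨R, hR⟩ := cauchySeq_tendsto_of_complete hcauchy
  have hR' : Tendsto s atTop (𝓝 R) := (tendsto_add_atTop_iff_nat M).mp hR
  refine ⟨R, IsBigO.of_bound D ?_⟩
  filter_upwards [eventually_ge_atTop M] with n hn
  rw [Real.norm_eq_abs, Real.norm_of_nonneg (Real.rpow_nonneg (Nat.cast_nonneg _) _)]
  have h1 : Tendsto (fun m => |s m - s n|) atTop (𝓝 |R - s n|) := (hR'.sub_const (s n)).abs
  have h2 : |R - s n| ≤ D * (n : ℝ) ^ (-(Q - 1)) := by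
    refine le_of_tendsto h1 ?_
    filter_upwards [eventually_ge_atTop n] with m hm
    exact hdiff2 n hn m hm
  rw [abs_sub_comm]
  exact h2

theorem sum_anti {Q : ℝ} (hQ : 1 < Q) {g Y : ℕ → ℝ}
    (h : (fun n : ℕ => Y (n + 1) - Y n - g n) =O[atTop] (fun n : ℕ => (n : ℝ) ^ (-Q))) {x0 : ℝ} (hx0 : x0 ≤ 0) :
    PE x0 (Q - 1) (fun n : ℕ => (∑ j ∈ Finset.range (n + 1), g j) - Y n - g n) := by
  have h1 : (fun n : ℕ => g n - (Y (n + 1) - Y n)) =O[atTop] (fun n : ℕ => (n : ℝ) ^ (-Q)) := by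
    refine h.neg_left.congr_left fun n => ?_
    ring
  obtain ⟨R, hR⟩ := tail hQ h1
  have h2 : ∀ n : ℕ, ∑ j ∈ Finset.range (n + 1), (g j - (Y (j + 1) - Y j)) =
      (∑ j ∈ Finset.range (n + 1), g j) - (Y (n + 1) - Y 0) := by
    intro n
    rw [Finset.sum_sub_distrib, Finset.sum_range_sub]
  have h3 : PE x0 (Q - 1) (fun n : ℕ => ∑ j ∈ Finset.range (n + 1), (g j - (Y (j + 1) - Y j)) - R) := PE.of_isBigO hR
  have h4 : PE x0 (Q - 1) (fun n : ℕ => Y (n + 1) - Y n - g n) :=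
    (PE.of_isBigO h).mono le_rfl (by linarith)
  have h5 := (h3.add h4).add (PE.const' (x0 := x0) (Q := Q - 1) (R - Y 0) hx0)
  have h6 : (fun n : ℕ => (∑ j ∈ Finset.range (n + 1), g j) - Y n - g n) =
      fun n : ℕ => ((∑ j ∈ Finset.range (n + 1), (g j - (Y (j + 1) - Y j)) - R) + (Y (n + 1) - Y n - g n)) + (R - Y 0) := by
    funext n
    rw [h2 n]
    ring
  rw [h6]
  exact h5

theorem psum_ne {Q x : ℝ} (hQ : 1 < Q) (hx : x ≠ 1) :
    PE (min x 0) (Q - 1) (fun n : ℕ => (∑ j ∈ Finset.range (n + 1), (j : ℝ) ^ (-x)) - 1 / (1 - x) * (n : ℝ) ^ (-(x - 1))) := by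
  obtain ⟨y, hy1, hy2⟩ := anti_ne Q x hx
  have h1 := sum_anti hQ hy2 (min_le_right x 0)
  have h2 := hy1.mono (min_le_left x 0) (show Q - 1 ≤ Q by linarith)
  have h3 := PE.single (x0 := min x 0) (Q := Q - 1) (x := x) 1 (min_le_left _ _)
  have h4 := (h1.add h2).add h3
  have h5 : (fun n : ℕ => (∑ j ∈ Finset.range (n + 1), (j : ℝ) ^ (-x)) - 1 / (1 - x) * (n : ℝ) ^ (-(x - 1))) =
      fun n : ℕ => (((∑ j ∈ Finset.range (n + 1), (j : ℝ) ^ (-x)) - y n - (n : ℝ) ^ (-x)) +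
        (y n - 1 / (1 - x) * (n : ℝ) ^ (-(x - 1)))) + 1 * (n : ℝ) ^ (-x) := by
    funext n
    ring
  rw [h5]
  exact h4

theorem psum_one {Q : ℝ} (hQ : 1 < Q) :
    PE 0 (Q - 1) (fun n : ℕ => (∑ j ∈ Finset.range (n + 1), (j : ℝ) ^ (-(1 : ℝ))) - Real.log n) := by
  obtain ⟨y, hy1, hy2⟩ := anti_one Q
  have hy3 : (fun n : ℕ => (Real.log ((n + 1 : ℕ) : ℝ) + y (n + 1)) - (Real.log n + y n) - (n : ℝ) ^ (-(1 : ℝ))) =O[atTop]
      (fun n : ℕ => (n : ℝ) ^ (-Q)) := by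
    refine hy2.congr_left fun n => ?_
    ring
  have h1 := sum_anti (Y := fun n : ℕ => Real.log (n : ℝ) + y n) hQ hy3 (le_refl (0 : ℝ))
  have h2 := hy1.mono (zero_le_one) (show Q - 1 ≤ Q by linarith)
  have h3 := PE.single (x0 := 0) (Q := Q - 1) (x := 1) 1 zero_le_one
  have h4 := (h1.add h2).add h3
  have h5 : (fun n : ℕ => (∑ j ∈ Finset.range (n + 1), (j : ℝ) ^ (-(1 : ℝ))) - Real.log n) =
      fun n : ℕ => (((∑ j ∈ Finset.range (n + 1), (j : ℝ) ^ (-(1 : ℝ))) - (Real.log (n : ℝ) + y n) - (n : ℝ) ^ (-(1 : ℝ))) +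
        y n) + 1 * (n : ℝ) ^ (-(1 : ℝ)) := by
    funext n
    ring
  rw [h5]
  exact h4

theorem psum_all {Q : ℝ} (hQ : 1 < Q) (x : ℝ) : ∃ μ : ℝ,
    PE (min (x - 1) 0) (Q - 1) (fun n : ℕ => (∑ j ∈ Finset.range (n + 1), (j : ℝ) ^ (-x)) - μ * Real.log n) := by
  by_cases hx : x = 1
  · subst hx
    refine ⟨1, ?_⟩
    have h := (psum_one hQ).mono (x0' := min ((1 : ℝ) - 1) 0) (min_le_right _ _) le_rfl
    simpa only [one_mul] using h
  · refine ⟨0, ?_⟩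
    have h1 := (psum_ne hQ hx).mono (x0' := min (x - 1) 0) (by
      apply min_le_min_right
      linarith) le_rfl
    have h2 := PE.single (x0 := min (x - 1) 0) (Q := Q - 1) (x := x - 1) (1 / (1 - x)) (min_le_left _ _)
    have h3 := h1.add h2
    simpa only [zero_mul, sub_zero, sub_add_cancel] using h3

/-! ## TARGETS (prove these) -/

/-! ### P5b -/

/-- partial sums, including a possible logarithm (`x = 1`) and the constant -/
theorem PE.partial_sum {y0 x0 Q a : ℝ} {f : ℕ → ℝ} (hy : y0 < 1) (hyx : y0 < x0) (hQ : 1 < Q)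
    (hf : PE x0 Q (fun n : ℕ => f n - a * (n : ℝ) ^ (-y0))) :
    ∃ lam x2 : ℝ, y0 - 1 < x2 ∧ x2 ≤ 0 ∧
      PE x2 (Q - 1) (fun n : ℕ => (∑ j ∈ Finset.range (n + 1), f j)
        - a / (1 - y0) * (n : ℝ) ^ (1 - y0) - lam * Real.log n) := by
  obtain ⟨S, c, hS, hO⟩ := hf
  choose μ hμ using fun x => psum_all hQ x
  obtain ⟨R, hR⟩ := tail hQ hO
  set x2 := min 0 (min y0 (x0 - 1)) with hx2
  refine ⟨∑ x ∈ S, c x * μ x, x2, ?_, min_le_left _ _, ?_⟩
  · rw [hx2]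
    refine lt_min (by linarith) (lt_min (by linarith) (by linarith))
  have hx20 : x2 ≤ 0 := min_le_left _ _
  have hx2y : x2 ≤ y0 := (min_le_right _ _).trans (min_le_left _ _)
  have hx2x : x2 ≤ x0 - 1 := (min_le_right _ _).trans (min_le_right _ _)
  have h1 := ((psum_ne (x := y0) hQ hy.ne).mono (x0' := x2) (le_min hx2y hx20) (le_refl _)).smul a
  have h2 : PE x2 (Q - 1) (fun n : ℕ => ∑ x ∈ S, c x * ((∑ j ∈ Finset.range (n + 1), (j : ℝ) ^ (-x)) - μ x * Real.log n)) := by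
    refine PE.sum5b' S _ fun x hx => ?_
    refine ((hμ x).mono (x0' := x2) (le_min ?_ hx20) (le_refl _)).smul (c x)
    have := hS x hx
    linarith
  have h3 : PE x2 (Q - 1) (fun n : ℕ => (∑ j ∈ Finset.range (n + 1), ((fun n : ℕ => f n - a * (n : ℝ) ^ (-y0)) j - ∑ x ∈ S, c x * (j : ℝ) ^ (-x))) - R) :=
    PE.of_isBigO hR
  have h4 := ((h1.add h2).add h3).add (PE.const' (x0 := x2) (Q := Q - 1) R hx20)
  refine PE.congr' h4 (Eventually.of_forall fun n => ?_)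
  have e1 : ∑ j ∈ Finset.range (n + 1), ((fun n : ℕ => f n - a * (n : ℝ) ^ (-y0)) j - ∑ x ∈ S, c x * (j : ℝ) ^ (-x)) =
      (∑ j ∈ Finset.range (n + 1), f j) - a * (∑ j ∈ Finset.range (n + 1), (j : ℝ) ^ (-y0)) -
        ∑ x ∈ S, c x * ∑ j ∈ Finset.range (n + 1), (j : ℝ) ^ (-x) := by
    rw [Finset.sum_sub_distrib, Finset.sum_sub_distrib, Finset.mul_sum, Finset.sum_comm]
    congr 1
    refine Finset.sum_congr rfl fun x _ => ?_
    rw [Finset.mul_sum]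
  have e2 : ∑ x ∈ S, c x * ((∑ j ∈ Finset.range (n + 1), (j : ℝ) ^ (-x)) - μ x * Real.log n) =
      (∑ x ∈ S, c x * ∑ j ∈ Finset.range (n + 1), (j : ℝ) ^ (-x)) - (∑ x ∈ S, c x * μ x) * Real.log n := by
    rw [Finset.sum_mul, ← Finset.sum_sub_distrib]
    refine Finset.sum_congr rfl fun x _ => ?_
    ring
  have e3 : (n : ℝ) ^ (1 - y0) = (n : ℝ) ^ (-(y0 - 1)) := by
    congr 1
    ring
  simp only at e1 ⊢
  rw [e1, e2, e3]
  ring

end Pool.Agent.FW
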