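import Pool.Agent.Helper155.FW.Defs
import Pool.Agent.Helper155.FW.H2a
import Pool.Agent.Helper155.FW.P5b
import Pool.Agent.Helper155.FW.P5a
import Pool.Agent.Helper155.FW.P4
import Pool.Agent.Helper155.FW.P3b

set_option autoImplicit false
open Filter Asymptotics Topology

namespace Pool.Agent.FW

/-! ## AVAILABLE (proved by others; use freely) -/

/-! ### P1: algebra -/









/-! ### P2: shift and difference -/




/-! ### P3: the equation `W n + W (n+1) = f n` -/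




/-! ### P4: composition -/




/-! ### P5: antidifference and partial sums -/




/-! ### helpers -/

/-- the weight -/
noncomputable def h441_w (s u : ℝ) (m : ℕ) : ℝ :=
  Real.exp (-(u * s * ((m : ℝ) + 1) ^ (2 / 3 : ℝ)))

theorem h441_w_pos (s u : ℝ) (m : ℕ) : 0 < h441_w s u m := Real.exp_pos _

/-- finite expansions in powers -/
def h441_Good (G : ℝ → ℝ) : Prop :=
  ∃ (S : Finset ℝ) (c : ℝ → ℝ) (K : ℝ), 0 < K ∧ (∀ y ∈ S, y < 3) ∧
    ∀ u : ℝ, 0 < u → u ≤ 1 → |G u - ∑ y ∈ S, c y * u ^ (-y)| ≤ K * (1 + |Real.log u|)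

theorem h441_good_bdd {G : ℝ → ℝ} (K : ℝ)
    (h : ∀ u : ℝ, 0 < u → u ≤ 1 → |G u| ≤ K * (1 + |Real.log u|)) : h441_Good G := by
  refine ⟨∅, fun _ => 0, |K| + 1, by positivity, by simp, ?_⟩
  intro u hu hu1
  simp only [Finset.sum_empty, sub_zero]
  refine (h u hu hu1).trans ?_
  apply mul_le_mul_of_nonneg_right _ (by positivity)
  linarith [le_abs_self K]

theorem h441_good_congr {G H : ℝ → ℝ} (hG : h441_Good G)
    (h : ∀ u : ℝ, 0 < u → u ≤ 1 → H u = G u) : h441_Good H := by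
  obtain ⟨S, c, K, hK, hS, hb⟩ := hG
  refine ⟨S, c, K, hK, hS, ?_⟩
  intro u hu hu1
  rw [h u hu hu1]
  exact hb u hu hu1

theorem h441_good_add {G H : ℝ → ℝ} (hG : h441_Good G) (hH : h441_Good H) :
    h441_Good (fun u => G u + H u) := by
  classical
  obtain ⟨S1, c1, K1, hK1, hS1, hb1⟩ := hG
  obtain ⟨S2, c2, K2, hK2, hS2, hb2⟩ := hH
  refine ⟨S1 ∪ S2, fun y => (if y ∈ S1 then c1 y else 0) + (if y ∈ S2 then c2 y else 0), K1 + K2,
    by positivity, ?_, ?_⟩
  · intro y hy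
    rcases Finset.mem_union.mp hy with h | h
    · exact hS1 y h
    · exact hS2 y h
  · intro u hu hu1
    have e1 : ∑ y ∈ S1 ∪ S2, ((if y ∈ S1 then c1 y else 0) + (if y ∈ S2 then c2 y else 0)) *
        u ^ (-y) = ∑ y ∈ S1, c1 y * u ^ (-y) + ∑ y ∈ S2, c2 y * u ^ (-y) := by
      simp only [add_mul, ite_mul, zero_mul]
      rw [Finset.sum_add_distrib, Finset.sum_ite_mem, Finset.sum_ite_mem,
        Finset.union_inter_cancel_left, Finset.union_inter_cancel_right]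
    rw [e1]
    have e2 : G u + H u - (∑ y ∈ S1, c1 y * u ^ (-y) + ∑ y ∈ S2, c2 y * u ^ (-y)) =
      (G u - ∑ y ∈ S1, c1 y * u ^ (-y)) + (H u - ∑ y ∈ S2, c2 y * u ^ (-y)) := by ring
    rw [e2]
    refine (abs_add_le _ _).trans ?_
    have := hb1 u hu hu1
    have := hb2 u hu hu1
    linarith

theorem h441_good_smul {G : ℝ → ℝ} (a : ℝ) (hG : h441_Good G) :
    h441_Good (fun u => a * G u) := by
  obtain ⟨S, c, K, hK, hS, hb⟩ := hG
  refine ⟨S, fun y => a * c y, |a| * K + 1, by positivity, hS, ?_⟩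
  intro u hu hu1
  have e1 : ∑ y ∈ S, a * c y * u ^ (-y) = a * ∑ y ∈ S, c y * u ^ (-y) := by
    rw [Finset.mul_sum]
    exact Finset.sum_congr rfl fun y _ => by ring
  rw [e1, ← mul_sub, abs_mul]
  have h1 := mul_le_mul_of_nonneg_left (hb u hu hu1) (abs_nonneg a)
  have h2 : 0 ≤ 1 + |Real.log u| := by positivity
  nlinarith

theorem h441_good_sum {ι : Type} (s : Finset ι) (G : ι → ℝ → ℝ) (h : ∀ i ∈ s, h441_Good (G i)) :
    h441_Good (fun u => ∑ i ∈ s, G i u) := by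
  classical
  induction s using Finset.induction_on with
  | empty =>
    apply h441_good_bdd 0
    intro u _ _
    simp
  | insert i s hi ih =>
    refine h441_good_congr (h441_good_add (h i (Finset.mem_insert_self i s))
      (ih fun j hj => h j (Finset.mem_insert_of_mem hj))) ?_
    intro u _ _
    rw [Finset.sum_insert hi]

theorem h441_good_pow {y : ℝ} (hy : y < 3) : h441_Good (fun u => u ^ (-y)) := by
  refine ⟨{y}, fun _ => 1, 1, one_pos, by simpa using hy, ?_⟩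
  intro u _ _
  simp only [Finset.sum_singleton, one_mul, sub_self, abs_zero]
  positivity

theorem h441_pow_le_one {u : ℝ} (hu : 0 < u) (hu1 : u ≤ 1) {e : ℝ} (he : 0 ≤ e) : u ^ e ≤ 1 :=
  Real.rpow_le_one hu.le hu1 he

theorem h441_one_le_pow {u : ℝ} (hu : 0 < u) (hu1 : u ≤ 1) {e : ℝ} (he : 0 ≤ e) : 1 ≤ u ^ (-e) := by
  rw [Real.rpow_neg hu.le]
  exact (one_le_inv₀ (Real.rpow_pos_of_pos hu e)).mpr (h441_pow_le_one hu hu1 he)

theorem h441_ps (a s : ℝ) (hs : 0 < s) : ∃ K : ℝ, 0 < K ∧ ∀ u : ℝ, 0 < u → u ≤ 1 →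
    Summable (fun m : ℕ => ((m : ℝ) + 1) ^ a * h441_w s u m) ∧
    |∑' m : ℕ, ((m : ℝ) + 1) ^ a * h441_w s u m
      - (if -1 < a then 3 / 2 * Real.Gamma (3 * (a + 1) / 2) * s ^ (-(3 * (a + 1) / 2)) *
        u ^ (-(3 * (a + 1) / 2)) else 0)|
      ≤ K * u ^ (-(max 0 (3 * (a - 1) / 2))) * (1 + |Real.log u|) := by
  obtain ⟨K0, hK0, h0⟩ := pureSum a
  obtain ⟨hs1, _⟩ := h0 1 one_pos le_rfl
  set E := max 0 (3 * (a - 1) / 2) with hE
  have hE0 : 0 ≤ E := le_max_left _ _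
  set Z1 := ∑' m : ℕ, ((m : ℝ) + 1) ^ a * Real.exp (-(1 * ((m : ℝ) + 1) ^ (2 / 3 : ℝ))) with hZ1
  have hZ1n : 0 ≤ Z1 := tsum_nonneg fun m => by positivity
  set Γ0 := |Real.Gamma (3 * (a + 1) / 2)| with hΓ0
  refine ⟨K0 * s ^ (-E) * (1 + |Real.log s|) + (Z1 + 3 / 2 * Γ0) , by positivity, ?_⟩
  intro u hu hu1
  have hus : 0 < u * s := mul_pos hu hs
  have hL : 1 ≤ 1 + |Real.log u| := by linarith [abs_nonneg (Real.log u)]
  have hP : 1 ≤ u ^ (-E) := h441_one_le_pow hu hu1 hE0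
  rcases le_or_gt (u * s) 1 with hcase | hcase
  · obtain ⟨h1, h2⟩ := h0 (u * s) hus hcase
    refine ⟨h1, ?_⟩
    have e1 : (if -1 < a then 3 / 2 * Real.Gamma (3 * (a + 1) / 2) *
        (u * s) ^ (-(3 * (a + 1) / 2)) else 0) =
        (if -1 < a then 3 / 2 * Real.Gamma (3 * (a + 1) / 2) * s ^ (-(3 * (a + 1) / 2)) *
        u ^ (-(3 * (a + 1) / 2)) else 0) := by
      split_ifs
      · rw [Real.mul_rpow hu.le hs.le]
        ring
      · rfl
    rw [e1] at h2
    refine h2.trans ?_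
    rw [Real.mul_rpow hu.le hs.le, Real.log_mul hu.ne' hs.ne']
    have h3 : 1 + |Real.log u + Real.log s| ≤ (1 + |Real.log s|) * (1 + |Real.log u|) := by
      have := abs_add_le (Real.log u) (Real.log s)
      nlinarith [abs_nonneg (Real.log u), abs_nonneg (Real.log s)]
    calc K0 * (u ^ (-E) * s ^ (-E)) * (1 + |Real.log u + Real.log s|)
        ≤ K0 * (u ^ (-E) * s ^ (-E)) * ((1 + |Real.log s|) * (1 + |Real.log u|)) := by
          apply mul_le_mul_of_nonneg_left h3 (by positivity)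
      _ = (K0 * s ^ (-E) * (1 + |Real.log s|)) * u ^ (-E) * (1 + |Real.log u|) := by ring
      _ ≤ _ := by
          apply mul_le_mul_of_nonneg_right _ (by positivity)
          apply mul_le_mul_of_nonneg_right _ (by positivity)
          have : 0 ≤ Z1 + 3 / 2 * Γ0 := by positivity
          linarith
  · have hle : ∀ m : ℕ, ((m : ℝ) + 1) ^ a * h441_w s u m ≤
        ((m : ℝ) + 1) ^ a * Real.exp (-(1 * ((m : ℝ) + 1) ^ (2 / 3 : ℝ))) := by
      intro m
      apply mul_le_mul_of_nonneg_left _ (by positivity)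
      apply Real.exp_le_exp.mpr
      have : 0 ≤ ((m : ℝ) + 1) ^ (2 / 3 : ℝ) := by positivity
      nlinarith
    have hsum : Summable (fun m : ℕ => ((m : ℝ) + 1) ^ a * h441_w s u m) :=
      Summable.of_nonneg_of_le (fun m => mul_nonneg (by positivity) (h441_w_pos _ _ _).le) hle hs1
    refine ⟨hsum, ?_⟩
    have hS1 : ∑' m : ℕ, ((m : ℝ) + 1) ^ a * h441_w s u m ≤ Z1 := hsum.tsum_le_tsum hle hs1
    have hS0 : 0 ≤ ∑' m : ℕ, ((m : ℝ) + 1) ^ a * h441_w s u m :=
      tsum_nonneg fun m => mul_nonneg (by positivity) (h441_w_pos _ _ _).le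
    have hmain : |(if -1 < a then 3 / 2 * Real.Gamma (3 * (a + 1) / 2) * s ^ (-(3 * (a + 1) / 2)) *
        u ^ (-(3 * (a + 1) / 2)) else 0)| ≤ 3 / 2 * Γ0 := by
      split_ifs with ha
      · rw [mul_assoc, ← Real.mul_rpow hs.le hu.le, abs_mul, abs_mul,
          abs_of_pos (show (0 : ℝ) < 3 / 2 by norm_num)]
        have h4 : |(s * u) ^ (-(3 * (a + 1) / 2))| ≤ 1 := by
          rw [abs_of_nonneg (by positivity), Real.rpow_neg (by positivity)]
          apply inv_le_one_of_one_le₀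
          apply Real.one_le_rpow
          · linarith
          · linarith
        calc 3 / 2 * |Real.Gamma (3 * (a + 1) / 2)| * |(s * u) ^ (-(3 * (a + 1) / 2))|
            ≤ 3 / 2 * |Real.Gamma (3 * (a + 1) / 2)| * 1 :=
              mul_le_mul_of_nonneg_left h4 (by positivity)
          _ = _ := by rw [mul_one]
      · simp only [abs_zero]
        positivity
    refine (abs_sub _ _).trans ?_
    rw [abs_of_nonneg hS0]
    have h5 : 0 ≤ K0 * s ^ (-E) * (1 + |Real.log s|) := by positivity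
    have h6 : 0 ≤ Z1 + 3 / 2 * Γ0 := by positivity
    calc _ ≤ Z1 + 3 / 2 * Γ0 := add_le_add hS1 hmain
      _ = (Z1 + 3 / 2 * Γ0) * 1 * 1 := by ring
      _ ≤ (K0 * s ^ (-E) * (1 + |Real.log s|) + (Z1 + 3 / 2 * Γ0)) * u ^ (-E) *
          (1 + |Real.log u|) := by
          apply mul_le_mul _ hL zero_le_one (by positivity)
          apply mul_le_mul _ hP zero_le_one (by positivity)
          linarith

theorem h441_combine {u : ℝ} (hu : 0 < u) (k : ℕ) (e : ℝ) : u ^ k * u ^ (-e) = u ^ ((k : ℝ) - e) := by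
  rw [← Real.rpow_natCast, ← Real.rpow_add hu]
  rfl

/-- upper bound -/
theorem h441_upper (a s : ℝ) (hs : 0 < s) (k : ℕ) (hk : 3 * (a + 1) / 2 ≤ k) :
    ∃ K : ℝ, 0 < K ∧ ∀ u : ℝ, 0 < u → u ≤ 1 →
      u ^ k * ∑' m : ℕ, ((m : ℝ) + 1) ^ a * h441_w s u m ≤ K * (1 + |Real.log u|) := by
  obtain ⟨K, hK, h⟩ := h441_ps a s hs
  refine ⟨K + 3 / 2 * |Real.Gamma (3 * (a + 1) / 2)| * s ^ (-(3 * (a + 1) / 2)), by positivity, ?_⟩
  intro u hu hu1
  obtain ⟨h1, h2⟩ := h u hu hu1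
  have hk0 : (0 : ℝ) ≤ k := Nat.cast_nonneg k
  have hL : 1 ≤ 1 + |Real.log u| := by linarith [abs_nonneg (Real.log u)]
  have hup := (abs_le.mp h2).2
  have huk : 0 < u ^ k := pow_pos hu k
  have hA : u ^ k * (K * u ^ (-(max 0 (3 * (a - 1) / 2))) * (1 + |Real.log u|)) ≤
      K * (1 + |Real.log u|) := by
    have e1 : u ^ k * (K * u ^ (-(max 0 (3 * (a - 1) / 2))) * (1 + |Real.log u|)) =
      K * (1 + |Real.log u|) * (u ^ k * u ^ (-(max 0 (3 * (a - 1) / 2)))) := by ring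
    rw [e1, h441_combine hu]
    have h3 : u ^ ((k : ℝ) - max 0 (3 * (a - 1) / 2)) ≤ 1 := by
      apply h441_pow_le_one hu hu1
      rw [sub_nonneg]
      apply max_le hk0
      linarith
    calc K * (1 + |Real.log u|) * u ^ ((k : ℝ) - max 0 (3 * (a - 1) / 2))
        ≤ K * (1 + |Real.log u|) * 1 := mul_le_mul_of_nonneg_left h3 (by positivity)
      _ = _ := mul_one _
  have hB : u ^ k * (if -1 < a then 3 / 2 * Real.Gamma (3 * (a + 1) / 2) *
      s ^ (-(3 * (a + 1) / 2)) * u ^ (-(3 * (a + 1) / 2)) else 0) ≤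
      3 / 2 * |Real.Gamma (3 * (a + 1) / 2)| * s ^ (-(3 * (a + 1) / 2)) := by
    split_ifs with ha
    · have e1 : u ^ k * (3 / 2 * Real.Gamma (3 * (a + 1) / 2) * s ^ (-(3 * (a + 1) / 2)) *
        u ^ (-(3 * (a + 1) / 2))) = 3 / 2 * Real.Gamma (3 * (a + 1) / 2) *
        s ^ (-(3 * (a + 1) / 2)) * (u ^ k * u ^ (-(3 * (a + 1) / 2))) := by ring
      rw [e1, h441_combine hu]
      have h3 : u ^ ((k : ℝ) - 3 * (a + 1) / 2) ≤ 1 := h441_pow_le_one hu hu1 (by linarith)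
      have h4 : 0 ≤ u ^ ((k : ℝ) - 3 * (a + 1) / 2) := by positivity
      calc 3 / 2 * Real.Gamma (3 * (a + 1) / 2) * s ^ (-(3 * (a + 1) / 2)) *
            u ^ ((k : ℝ) - 3 * (a + 1) / 2)
          ≤ 3 / 2 * |Real.Gamma (3 * (a + 1) / 2)| * s ^ (-(3 * (a + 1) / 2)) * 1 := by
            apply mul_le_mul _ h3 h4 (by positivity)
            apply mul_le_mul_of_nonneg_right _ (by positivity)
            apply mul_le_mul_of_nonneg_left (le_abs_self _) (by norm_num)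
        _ = _ := mul_one _
    · rw [mul_zero]
      positivity
  have h5 : u ^ k * ∑' m : ℕ, ((m : ℝ) + 1) ^ a * h441_w s u m ≤
      u ^ k * (K * u ^ (-(max 0 (3 * (a - 1) / 2))) * (1 + |Real.log u|)) +
      u ^ k * (if -1 < a then 3 / 2 * Real.Gamma (3 * (a + 1) / 2) *
      s ^ (-(3 * (a + 1) / 2)) * u ^ (-(3 * (a + 1) / 2)) else 0) := by
    rw [← mul_add]
    apply mul_le_mul_of_nonneg_left _ huk.le
    linarith
  have h6 : 0 ≤ 3 / 2 * |Real.Gamma (3 * (a + 1) / 2)| * s ^ (-(3 * (a + 1) / 2)) := by positivity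
  nlinarith

theorem h441_power_good (k : ℕ) (s : ℝ) (hs : 0 < s) (a : ℝ) (ha : a < 1 + 2 * k / 3) :
    h441_Good (fun u => u ^ k * ∑' m : ℕ, ((m : ℝ) + 1) ^ a * h441_w s u m) := by
  obtain ⟨K, hK, h⟩ := h441_ps a s hs
  have hk0 : (0 : ℝ) ≤ k := Nat.cast_nonneg k
  set C : ℝ := if -1 < a then 3 / 2 * Real.Gamma (3 * (a + 1) / 2) * s ^ (-(3 * (a + 1) / 2)) else 0
    with hC
  have hy : 3 * (a + 1) / 2 - k < 3 := by linarith
  refine h441_good_congr (h441_good_add (h441_good_smul C (h441_good_pow hy))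
    (h441_good_bdd (G := fun u => u ^ k * (∑' m : ℕ, ((m : ℝ) + 1) ^ a * h441_w s u m
      - (if -1 < a then 3 / 2 * Real.Gamma (3 * (a + 1) / 2) * s ^ (-(3 * (a + 1) / 2)) *
        u ^ (-(3 * (a + 1) / 2)) else 0))) K ?_)) ?_
  · intro u hu hu1
    obtain ⟨h1, h2⟩ := h u hu hu1
    have huk : 0 < u ^ k := pow_pos hu k
    rw [abs_mul, abs_of_pos huk]
    refine (mul_le_mul_of_nonneg_left h2 huk.le).trans ?_
    have e1 : u ^ k * (K * u ^ (-(max 0 (3 * (a - 1) / 2))) * (1 + |Real.log u|)) =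
      K * (1 + |Real.log u|) * (u ^ k * u ^ (-(max 0 (3 * (a - 1) / 2)))) := by ring
    rw [e1, h441_combine hu]
    have h3 : u ^ ((k : ℝ) - max 0 (3 * (a - 1) / 2)) ≤ 1 := by
      apply h441_pow_le_one hu hu1
      rw [sub_nonneg]
      apply max_le hk0
      linarith
    calc K * (1 + |Real.log u|) * u ^ ((k : ℝ) - max 0 (3 * (a - 1) / 2))
        ≤ K * (1 + |Real.log u|) * 1 := mul_le_mul_of_nonneg_left h3 (by positivity)
      _ = _ := mul_one _
  · intro u hu hu1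
    have e2 : C * u ^ (-(3 * (a + 1) / 2 - k)) =
        u ^ k * (if -1 < a then 3 / 2 * Real.Gamma (3 * (a + 1) / 2) * s ^ (-(3 * (a + 1) / 2)) *
        u ^ (-(3 * (a + 1) / 2)) else 0) := by
      rw [hC]
      split_ifs
      · have e3 := h441_combine hu k (3 * (a + 1) / 2)
        rw [show -(3 * (a + 1) / 2 - (k : ℝ)) = (k : ℝ) - 3 * (a + 1) / 2 by ring, ← e3]
        ring
      · simp
    simp only [e2]
    ring

theorem h441_bigO_all {Q : ℝ} {e : ℕ → ℝ} (h : e =O[atTop] (fun n : ℕ => (n : ℝ) ^ (-Q))) :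
    ∃ K : ℝ, 0 < K ∧ ∀ m : ℕ, |e (m + 1)| ≤ K * ((m : ℝ) + 1) ^ (-Q) := by
  have h1 := h.comp_tendsto (tendsto_add_atTop_nat 1)
  obtain ⟨K, hK, hb⟩ := Asymptotics.bound_of_isBigO_nat_atTop h1
  refine ⟨K, hK, fun m => ?_⟩
  have hpos : (0 : ℝ) < ((m + 1 : ℕ) : ℝ) ^ (-Q) := by positivity
  have h2 := hb (x := m) hpos.ne'
  simp only [Function.comp_apply, Real.norm_eq_abs] at h2
  rw [abs_of_pos hpos] at h2
  push_cast at h2
  exact h2

theorem h441_PS {x0 Q : ℝ} {f : ℕ → ℝ} (hf : PE x0 Q f) (k : ℕ) (s : ℝ) (hs : 0 < s)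
    (hx0 : -1 - 2 * (k : ℝ) / 3 < x0) (hQ : 1 - 2 * (k : ℝ) / 3 ≤ Q) :
    (∀ u : ℝ, 0 < u → u ≤ 1 → Summable (fun m : ℕ => f (m + 1) * h441_w s u m)) ∧
    h441_Good (fun u => u ^ k * ∑' m : ℕ, f (m + 1) * h441_w s u m) := by
  obtain ⟨S, c, hS, hO⟩ := hf
  obtain ⟨K, hK, hb⟩ := h441_bigO_all hO
  set e : ℕ → ℝ := fun m => f (m + 1) - ∑ x ∈ S, c x * ((m : ℝ) + 1) ^ (-x) with he
  have hb' : ∀ m, |e m| ≤ K * ((m : ℝ) + 1) ^ (-Q) := by
    intro m
    have := hb m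
    push_cast at this
    exact this
  have hdec : ∀ u m, f (m + 1) * h441_w s u m =
      ∑ x ∈ S, c x * (((m : ℝ) + 1) ^ (-x) * h441_w s u m) + e m * h441_w s u m := by
    intro u m
    have e1 : ∑ x ∈ S, c x * (((m : ℝ) + 1) ^ (-x) * h441_w s u m) =
        (∑ x ∈ S, c x * ((m : ℝ) + 1) ^ (-x)) * h441_w s u m := by
      rw [Finset.sum_mul]
      exact Finset.sum_congr rfl fun x _ => by ring
    rw [e1, he]
    ring
  have hsx : ∀ x : ℝ, ∀ u : ℝ, 0 < u → u ≤ 1 →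
      Summable (fun m : ℕ => ((m : ℝ) + 1) ^ x * h441_w s u m) := by
    intro x u hu hu1
    obtain ⟨K', _, h⟩ := h441_ps x s hs
    exact (h u hu hu1).1
  have hse1 : ∀ u : ℝ, ∀ m : ℕ, ‖e m * h441_w s u m‖ ≤
      K * (((m : ℝ) + 1) ^ (-Q) * h441_w s u m) := by
    intro u m
    rw [norm_mul, Real.norm_eq_abs, Real.norm_eq_abs, abs_of_pos (h441_w_pos s u m)]
    have := mul_le_mul_of_nonneg_right (hb' m) (h441_w_pos s u m).le
    linarith
  have hse : ∀ u : ℝ, 0 < u → u ≤ 1 → Summable (fun m : ℕ => e m * h441_w s u m) := by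
    intro u hu hu1
    exact Summable.of_norm_bounded ((hsx (-Q) u hu hu1).mul_left K) (hse1 u)
  have hsS : ∀ u : ℝ, 0 < u → u ≤ 1 → ∀ x ∈ S,
      Summable (fun m : ℕ => c x * (((m : ℝ) + 1) ^ (-x) * h441_w s u m)) := fun u hu hu1 x _ =>
    (hsx (-x) u hu hu1).mul_left (c x)
  refine ⟨?_, ?_⟩
  · intro u hu hu1
    simp only [hdec u]
    exact (summable_sum (hsS u hu hu1)).add (hse u hu hu1)
  · obtain ⟨K', hK', hup⟩ := h441_upper (-Q) s hs k (by linarith)
    refine h441_good_congr (h441_good_add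
      (h441_good_sum S (fun x u => c x * (u ^ k * ∑' m : ℕ, ((m : ℝ) + 1) ^ (-x) * h441_w s u m))
        (fun x hx => h441_good_smul (c x) (h441_power_good k s hs (-x) (by
          have := hS x hx
          linarith))))
      (h441_good_bdd (G := fun u => u ^ k * ∑' m : ℕ, e m * h441_w s u m) (K * K') ?_)) ?_
    · intro u hu hu1
      have huk : 0 < u ^ k := pow_pos hu k
      rw [abs_mul, abs_of_pos huk]
      have h1 := tsum_of_norm_bounded ((hsx (-Q) u hu hu1).mul_left K).hasSum (hse1 u)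
      rw [Real.norm_eq_abs, tsum_mul_left] at h1
      have h2 := mul_le_mul_of_nonneg_left (hup u hu hu1) hK.le
      have h3 := mul_le_mul_of_nonneg_left h1 huk.le
      linarith
    · intro u hu hu1
      simp only [hdec u]
      rw [(summable_sum (hsS u hu hu1)).tsum_add (hse u hu hu1),
        Summable.tsum_finsetSum (hsS u hu hu1), mul_add, Finset.mul_sum]
      congr 1
      apply Finset.sum_congr rfl
      intro x hx
      rw [tsum_mul_left]
      ring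

theorem h441_real_exp (x : ℝ) (n : ℕ) :
    |Real.exp x - ∑ m ∈ Finset.range n, x ^ m / (m.factorial : ℝ)| ≤ |x| ^ n * Real.exp |x| := by
  have h := Complex.norm_exp_sub_sum_le_norm_mul_exp (x : ℂ) n
  rw [Complex.norm_real, Real.norm_eq_abs] at h
  have e1 : Complex.exp (x : ℂ) - ∑ m ∈ Finset.range n, (x : ℂ) ^ m / (m.factorial : ℂ) =
      ((Real.exp x - ∑ m ∈ Finset.range n, x ^ m / (m.factorial : ℝ) : ℝ) : ℂ) := by
    push_cast
    rfl
  rw [e1, Complex.norm_real, Real.norm_eq_abs] at h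
  exact h

theorem h441_absorb {θ s K2 : ℝ} (hθ0 : 0 ≤ θ) (hθ : θ < 2 / 3) (hs : 0 < s) (hK2 : 0 < K2) :
    ∃ K3 : ℝ, 0 ≤ K3 ∧ ∀ x : ℝ, 1 ≤ x → K2 * x ^ θ ≤ s / 2 * x ^ (2 / 3 : ℝ) + K3 := by
  set x1 : ℝ := (2 * K2 / s) ^ (1 / (2 / 3 - θ)) with hx1
  have hx1p : 0 < x1 := by positivity
  refine ⟨K2 * x1 ^ θ, by positivity, fun x hx => ?_⟩
  have hx0 : 0 < x := by linarith
  rcases le_total x x1 with h | h
  · have h1 : x ^ θ ≤ x1 ^ θ := Real.rpow_le_rpow hx0.le h hθ0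
    have h2 : 0 ≤ s / 2 * x ^ (2 / 3 : ℝ) := by positivity
    nlinarith
  · have hd : 0 < 2 / 3 - θ := by linarith
    have h1 : x1 ^ (2 / 3 - θ) ≤ x ^ (2 / 3 - θ) := Real.rpow_le_rpow hx1p.le h hd.le
    have h2 : x1 ^ (2 / 3 - θ) = 2 * K2 / s := by
      rw [hx1, ← Real.rpow_mul (by positivity), one_div, inv_mul_cancel₀ hd.ne', Real.rpow_one]
    rw [h2, div_le_iff₀ hs] at h1
    have h3 : x ^ (2 / 3 : ℝ) = x ^ (2 / 3 - θ) * x ^ θ := by
      rw [← Real.rpow_add hx0]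
      congr 1
      ring
    have h4 : 0 < x ^ θ := by positivity
    have h5 : 0 ≤ K2 * x1 ^ θ := by positivity
    rw [h3]
    nlinarith

theorem h441_rem {θ : ℝ} (hθ0 : 0 ≤ θ) (hθ : θ < 2 / 3) (s : ℝ) (hs : 0 < s) (B D : ℕ → ℝ)
    (K1 K2 : ℝ) (hK1 : 0 < K1) (hK2 : 0 < K2)
    (hB : ∀ m : ℕ, |B m| ≤ K1 * ((m : ℝ) + 1)) (hD : ∀ m : ℕ, |D m| ≤ K2 * ((m : ℝ) + 1) ^ θ)
    (J : ℕ) (hJ : 3 ≤ J * (1 - 3 * θ / 2)) :
    ∃ K : ℝ, 0 < K ∧ ∀ u : ℝ, 0 < u → u ≤ 1 →
      Summable (fun m : ℕ => B m * h441_w s u m * (Real.exp (-(u * D m)) -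
        ∑ k ∈ Finset.range J, (-(u * D m)) ^ k / (k.factorial : ℝ))) ∧
      |∑' m : ℕ, B m * h441_w s u m * (Real.exp (-(u * D m)) -
        ∑ k ∈ Finset.range J, (-(u * D m)) ^ k / (k.factorial : ℝ))| ≤ K * (1 + |Real.log u|) := by
  obtain ⟨K3, hK3, habs⟩ := h441_absorb hθ0 hθ hs hK2
  set a : ℝ := 1 + J * θ with ha
  obtain ⟨K4, hK4, hup⟩ := h441_upper a (s / 2) (by positivity) J (by rw [ha]; linarith)
  obtain ⟨K5, _, hps⟩ := h441_ps a (s / 2) (by positivity)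
  set C : ℝ := K1 * K2 ^ J * Real.exp K3 with hC
  refine ⟨C * K4, by positivity, ?_⟩
  intro u hu hu1
  have hterm : ∀ m : ℕ, ‖B m * h441_w s u m * (Real.exp (-(u * D m)) -
        ∑ k ∈ Finset.range J, (-(u * D m)) ^ k / (k.factorial : ℝ))‖ ≤
      (C * u ^ J) * (((m : ℝ) + 1) ^ a * h441_w (s / 2) u m) := by
    intro m
    have hm1 : (1 : ℝ) ≤ (m : ℝ) + 1 := by
      have : (0 : ℝ) ≤ m := Nat.cast_nonneg m
      linarith
    have hm0 : (0 : ℝ) < (m : ℝ) + 1 := by linarith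
    rw [norm_mul, norm_mul, Real.norm_eq_abs, Real.norm_eq_abs, Real.norm_eq_abs,
      abs_of_pos (h441_w_pos s u m)]
    have h1 := h441_real_exp (-(u * D m)) J
    rw [abs_neg, abs_mul, abs_of_pos hu] at h1
    have h2 : (u * |D m|) ^ J ≤ u ^ J * (K2 ^ J * ((m : ℝ) + 1) ^ (J * θ)) := by
      rw [mul_pow]
      apply mul_le_mul_of_nonneg_left _ (by positivity)
      calc |D m| ^ J ≤ (K2 * ((m : ℝ) + 1) ^ θ) ^ J :=
            pow_le_pow_left₀ (abs_nonneg _) (hD m) J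
        _ = K2 ^ J * ((m : ℝ) + 1) ^ (J * θ) := by
            rw [mul_pow, ← Real.rpow_natCast (((m : ℝ) + 1) ^ θ), ← Real.rpow_mul hm0.le,
              mul_comm θ]
    have h3 : h441_w s u m * Real.exp (u * |D m|) ≤ Real.exp K3 * h441_w (s / 2) u m := by
      unfold h441_w
      rw [← Real.exp_add, ← Real.exp_add]
      apply Real.exp_le_exp.mpr
      have h4 := (hD m).trans (habs _ hm1)
      have h5 : u * |D m| ≤ u * (s / 2 * ((m : ℝ) + 1) ^ (2 / 3 : ℝ) + K3) :=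
        mul_le_mul_of_nonneg_left h4 hu.le
      have h6 : u * K3 ≤ K3 := by nlinarith
      nlinarith
    have hw := h441_w_pos s u m
    have hw2 := h441_w_pos (s / 2) u m
    calc |B m| * h441_w s u m * |Real.exp (-(u * D m)) -
          ∑ k ∈ Finset.range J, (-(u * D m)) ^ k / (k.factorial : ℝ)|
        ≤ |B m| * h441_w s u m * ((u * |D m|) ^ J * Real.exp (u * |D m|)) :=
          mul_le_mul_of_nonneg_left h1 (by positivity)
      _ = |B m| * (u * |D m|) ^ J * (h441_w s u m * Real.exp (u * |D m|)) := by ring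
      _ ≤ (K1 * ((m : ℝ) + 1)) * (u ^ J * (K2 ^ J * ((m : ℝ) + 1) ^ (J * θ))) *
          (Real.exp K3 * h441_w (s / 2) u m) := by
          apply mul_le_mul _ h3 (by positivity) (by positivity)
          apply mul_le_mul (hB m) h2 (by positivity) (by positivity)
      _ = (C * u ^ J) * ((((m : ℝ) + 1) * ((m : ℝ) + 1) ^ (J * θ)) * h441_w (s / 2) u m) := by
          rw [hC]
          ring
      _ = (C * u ^ J) * (((m : ℝ) + 1) ^ a * h441_w (s / 2) u m) := by
          rw [ha, Real.rpow_add hm0, Real.rpow_one]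
  have hsum := (hps u hu hu1).1
  refine ⟨Summable.of_norm_bounded (hsum.mul_left _) hterm, ?_⟩
  have h1 := tsum_of_norm_bounded (hsum.mul_left _).hasSum hterm
  rw [Real.norm_eq_abs, tsum_mul_left] at h1
  refine h1.trans ?_
  have h2 := mul_le_mul_of_nonneg_left (hup u hu hu1) (show 0 ≤ C by positivity)
  linarith

theorem h441_PEpow {s x2 : ℝ} {X : ℕ → ℝ} (hx2 : -(2 / 3) < x2)
    (hX : PE x2 4 (fun n : ℕ => X n - s * (n : ℝ) ^ (2 / 3 : ℝ))) (hX' : PE (-(2 / 3)) 4 X)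
    (j : ℕ) : PE (x2 - 2 * j / 3) (4 - 2 * j / 3)
      (fun n : ℕ => X n ^ (j + 1) - s ^ (j + 1) * (n : ℝ) ^ (2 * ((j : ℝ) + 1) / 3)) := by
  induction j with
  | zero =>
    refine (hX.mono (by simp) (by simp)).congr' ?_
    filter_upwards with n
    simp
  | succ j ih =>
    have hj : (0 : ℝ) ≤ j := Nat.cast_nonneg j
    have h1 := PE.mul (T := 4 - 2 * ((j + 1 : ℕ) : ℝ) / 3) ih hX'
      (by push_cast; linarith) (by push_cast; linarith) (by push_cast; linarith)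
    have h2 := PE.mul (T := 4 - 2 * ((j + 1 : ℕ) : ℝ) / 3)
      (PE.single (x0 := -(2 * ((j : ℝ) + 1) / 3)) (Q := 4) (s ^ (j + 1)) le_rfl) hX
      (by push_cast; linarith) (by push_cast; linarith) (by push_cast; linarith)
    refine (((h1.mono (x0' := x2 - 2 * ((j + 1 : ℕ) : ℝ) / 3) (by push_cast; linarith) le_rfl).add
      (h2.mono (by push_cast; linarith) le_rfl))).congr' ?_
    filter_upwards [eventually_ge_atTop 1] with n hn
    have hn0 : (0 : ℝ) < n := by exact_mod_cast hn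
    rw [neg_neg]
    have e1 : (n : ℝ) ^ (2 * (((j + 1 : ℕ) : ℝ) + 1) / 3) =
        (n : ℝ) ^ (2 * ((j : ℝ) + 1) / 3) * (n : ℝ) ^ (2 / 3 : ℝ) := by
      rw [← Real.rpow_add hn0]
      congr 1
      push_cast
      ring
    rw [e1]
    ring

/-! ## TARGETS (prove these) -/

/-- no logarithms above order `u^0` -/
theorem phi (s ch x2 y1 K : ℝ) (hs : 0 < s) (h X : ℕ → ℝ) (hx2 : -(2 / 3) < x2)
    (hX : PE x2 4 (fun n : ℕ => X n - s * (n : ℝ) ^ (2 / 3 : ℝ))) (hy1 : 7 / 3 < y1)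
    (hh : PE y1 5 (fun n : ℕ => h n - ch * (n : ℝ) ^ (-(7 / 3 : ℝ))))
    (hK : 1 ≤ K) (hXl : ∀ m : ℕ, ((m : ℝ) + 1) ^ (2 / 3 : ℝ) ≤ K * X m) :
    ∃ (S : Finset ℝ) (c : ℝ → ℝ) (K' : ℝ), 0 < K' ∧ (∀ y ∈ S, y < 3) ∧
      ∀ u : ℝ, 0 < u → u ≤ 1 →
        Summable (fun m : ℕ => h m * X m ^ 5 * Real.exp (-(u * X m))) ∧
        |∑' m : ℕ, h m * X m ^ 5 * Real.exp (-(u * X m)) - 3 * ch * s ^ 2 * u ^ (-(3 : ℝ))
          - ∑ y ∈ S, c y * u ^ (-y)| ≤ K' * (1 + |Real.log u|) := by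
  -- normalise: x2 ≤ 0
  obtain ⟨z, hz1, hz2, hXz⟩ : ∃ z : ℝ, -(2 / 3) < z ∧ z ≤ 0 ∧
      PE z 4 (fun n : ℕ => X n - s * (n : ℝ) ^ (2 / 3 : ℝ)) :=
    ⟨min x2 0, lt_min hx2 (by norm_num), min_le_right _ _, hX.mono (min_le_left _ _) le_rfl⟩
  set D : ℕ → ℝ := fun n => X n - s * (n : ℝ) ^ (2 / 3 : ℝ) with hD
  have hXPE : PE (-(2 / 3)) 4 X := by
    refine ((hXz.mono (x0' := -(2 / 3)) hz1.le le_rfl).add
      (PE.single (x0 := -(2 / 3)) (Q := 4) s le_rfl)).congr' ?_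
    filter_upwards with n
    simp only [hD, neg_neg]
    ring
  have hE5 : PE (z - 8 / 3) (4 / 3)
      (fun n : ℕ => X n ^ 5 - s ^ 5 * (n : ℝ) ^ (10 / 3 : ℝ)) := by
    have h := h441_PEpow hz1 hXz hXPE 4
    refine (h.mono (by norm_num) (by norm_num)).congr' ?_
    filter_upwards with n
    norm_num
  have hX5 : PE (-(10 / 3)) (4 / 3) (fun n : ℕ => X n ^ 5) := by
    refine ((hE5.mono (x0' := -(10 / 3)) (by linarith) le_rfl).add
      (PE.single (x0 := -(10 / 3)) (Q := 4 / 3) (s ^ 5) le_rfl)).congr' ?_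
    filter_upwards with n
    rw [neg_neg]
    ring
  have hhPE : PE (7 / 3) 5 h := by
    refine ((hh.mono (x0' := 7 / 3) hy1.le le_rfl).add
      (PE.single (x0 := 7 / 3) (Q := 5) ch le_rfl)).congr' ?_
    filter_upwards with n
    ring
  set B : ℕ → ℝ := fun n => h n * X n ^ 5 with hB
  have hBPE : PE (-1) (5 / 3) B := by
    have h1 := PE.mul (T := 5 / 3) hhPE hX5 (by norm_num) (by norm_num) (by norm_num)
    exact h1.mono (by norm_num) le_rfl
  have hlead : PE (min (z - 1 / 3) (y1 - 10 / 3)) (5 / 3)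
      (fun n : ℕ => B n - ch * s ^ 5 * (n : ℝ)) := by
    have h1 := PE.mul (T := 5 / 3) hh hX5 (by linarith) (by norm_num) (by norm_num)
    have h2 := PE.mul (T := 5 / 3) (PE.single (x0 := 7 / 3) (Q := 5) ch le_rfl) hE5
      (by norm_num) (by linarith) (by norm_num)
    refine ((h1.mono (x0' := min (z - 1 / 3) (y1 - 10 / 3))
      ((min_le_right _ _).trans (by linarith)) le_rfl).add
      (h2.mono ((min_le_left _ _).trans (by linarith)) le_rfl)).congr' ?_
    filter_upwards [eventually_ge_atTop 1] with n hn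
    have hn0 : (0 : ℝ) < n := by exact_mod_cast hn
    have e1 : (n : ℝ) = (n : ℝ) ^ (-(7 / 3 : ℝ)) * (n : ℝ) ^ (10 / 3 : ℝ) := by
      rw [← Real.rpow_add hn0]
      norm_num
    have e2 : ch * s ^ 5 * (n : ℝ) = ch * s ^ 5 * ((n : ℝ) ^ (-(7 / 3 : ℝ)) * (n : ℝ) ^ (10 / 3 : ℝ)) := by
      rw [← e1]
    simp only [hB]
    rw [e2]
    ring
  have hfk : ∀ k : ℕ, PE (-1 + k * z) (5 / 3 + k * z) (fun n => B n * D n ^ k) := by
    intro k
    induction k with
    | zero =>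
      refine (hBPE.mono (by simp) (by simp)).congr' ?_
      filter_upwards with n
      simp
    | succ k ih =>
      have hk0 : (0 : ℝ) ≤ k := Nat.cast_nonneg k
      have h1 := PE.mul (T := 5 / 3 + ((k + 1 : ℕ) : ℝ) * z) ih hXz
        (by push_cast; linarith) (by push_cast; linarith) (by push_cast; linarith)
      refine (h1.mono (by push_cast; linarith) le_rfl).congr' ?_
      filter_upwards with n
      simp only [hD]
      ring
  -- bounds
  obtain ⟨KB, hKB, hBb⟩ := PE.bound hBPE (x := -1) (by norm_num) (by norm_num)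
  obtain ⟨KD, hKD, hDb⟩ := PE.bound hXz (x := z) le_rfl (by linarith)
  have hBb' : ∀ m : ℕ, |B (m + 1)| ≤ (2 * KB) * ((m : ℝ) + 1) := by
    intro m
    have hm0 : (0 : ℝ) ≤ m := Nat.cast_nonneg m
    have h1 := hBb (m + 1)
    rw [neg_neg, Real.rpow_one] at h1
    push_cast at h1
    nlinarith
  have hDb' : ∀ m : ℕ, |D (m + 1)| ≤ (KD * 2 ^ (-z)) * ((m : ℝ) + 1) ^ (-z) := by
    intro m
    have hm0 : (0 : ℝ) ≤ m := Nat.cast_nonneg m
    have h1 := hDb (m + 1)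
    push_cast at h1
    refine h1.trans ?_
    rw [mul_assoc, ← Real.mul_rpow (by norm_num) (by positivity)]
    apply mul_le_mul_of_nonneg_left _ hKD.le
    apply Real.rpow_le_rpow (by positivity) (by linarith) (by linarith)
  obtain ⟨J, hJ⟩ := exists_nat_ge (3 / (1 - 3 * (-z) / 2))
  have hzpos : 0 < 1 - 3 * (-z) / 2 := by linarith
  rw [div_le_iff₀ hzpos] at hJ
  have hJ1 : 1 ≤ J := by
    rcases Nat.eq_zero_or_pos J with h0 | h0
    · rw [h0] at hJ
      norm_num at hJ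
    · exact h0
  obtain ⟨J', rfl⟩ : ∃ J', J = J' + 1 := ⟨J - 1, by omega⟩
  obtain ⟨KR, hKR, hR⟩ := h441_rem (θ := -z) (by linarith) (by linarith) s hs
    (fun m => B (m + 1)) (fun m => D (m + 1)) (2 * KB) (KD * 2 ^ (-z)) (by positivity)
    (by positivity) hBb' hDb' (J' + 1) hJ
  -- the pieces
  have hPS : ∀ k : ℕ, 1 ≤ k →
      (∀ u : ℝ, 0 < u → u ≤ 1 → Summable (fun m : ℕ => (B (m + 1) * D (m + 1) ^ k) * h441_w s u m)) ∧
      h441_Good (fun u => u ^ k * ∑' m : ℕ, (B (m + 1) * D (m + 1) ^ k) * h441_w s u m) := by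
    intro k hk
    have hk0 : (1 : ℝ) ≤ k := by exact_mod_cast hk
    exact h441_PS (hfk k) k s hs (by nlinarith) (by nlinarith)
  have hPS0 := h441_PS (f := B) hBPE
  have hPSl := h441_PS hlead 0 s hs (by
    have : -1 < min (z - 1 / 3) (y1 - 10 / 3) := lt_min (by linarith) (by linarith)
    simpa using this) (by norm_num)
  obtain ⟨K1, hK1, hps1⟩ := h441_ps 1 s hs
  -- summability for k = 0
  have hsum0 : ∀ u : ℝ, 0 < u → u ≤ 1 → Summable (fun m : ℕ => B (m + 1) * h441_w s u m) := by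
    intro u hu hu1
    have h1 := hPSl.1 u hu hu1
    have h2 := ((hps1 u hu hu1).1).mul_left (ch * s ^ 5)
    refine (h1.add h2).congr ?_
    intro m
    rw [Real.rpow_one]
    push_cast
    ring
  have hsumk : ∀ k : ℕ, ∀ u : ℝ, 0 < u → u ≤ 1 →
      Summable (fun m : ℕ => (B (m + 1) * D (m + 1) ^ k) * h441_w s u m) := by
    intro k u hu hu1
    rcases Nat.eq_zero_or_pos k with h0 | h0
    · subst h0
      simpa using hsum0 u hu hu1
    · exact (hPS k h0).1 u hu hu1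
  have hterm : ∀ u : ℝ, ∀ m : ℕ, h (m + 1) * X (m + 1) ^ 5 * Real.exp (-(u * X (m + 1))) =
      B (m + 1) * h441_w s u m * (Real.exp (-(u * D (m + 1))) -
        ∑ k ∈ Finset.range (J' + 1), (-(u * D (m + 1))) ^ k / (k.factorial : ℝ)) +
      ∑ k ∈ Finset.range (J' + 1), ((-1) ^ k / (k.factorial : ℝ) * u ^ k) *
        ((B (m + 1) * D (m + 1) ^ k) * h441_w s u m) := by
    intro u m
    have e1 : Real.exp (-(u * X (m + 1))) = h441_w s u m * Real.exp (-(u * D (m + 1))) := by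
      unfold h441_w
      rw [← Real.exp_add]
      congr 1
      simp only [hD]
      push_cast
      ring
    have e2 : ∑ k ∈ Finset.range (J' + 1), ((-1) ^ k / (k.factorial : ℝ) * u ^ k) *
        ((B (m + 1) * D (m + 1) ^ k) * h441_w s u m) = B (m + 1) * h441_w s u m *
        ∑ k ∈ Finset.range (J' + 1), (-(u * D (m + 1))) ^ k / (k.factorial : ℝ) := by
      rw [Finset.mul_sum]
      apply Finset.sum_congr rfl
      intro k _
      rw [neg_pow (u * D (m + 1)) k, mul_pow]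
      ring
    rw [e1, e2]
    simp only [hB]
    ring
  have hsumR : ∀ u : ℝ, 0 < u → u ≤ 1 → ∀ k ∈ Finset.range (J' + 1),
      Summable (fun m : ℕ => ((-1) ^ k / (k.factorial : ℝ) * u ^ k) *
        ((B (m + 1) * D (m + 1) ^ k) * h441_w s u m)) := fun u hu hu1 k _ =>
    (hsumk k u hu hu1).mul_left _
  have hsumS : ∀ u : ℝ, 0 < u → u ≤ 1 →
      Summable (fun m : ℕ => h (m + 1) * X (m + 1) ^ 5 * Real.exp (-(u * X (m + 1)))) := by
    intro u hu hu1
    simp only [hterm u]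
    exact (hR u hu hu1).1.add (summable_sum (hsumR u hu hu1))
  have hsumT : ∀ u : ℝ, 0 < u → u ≤ 1 →
      Summable (fun m : ℕ => h m * X m ^ 5 * Real.exp (-(u * X m))) := fun u hu hu1 =>
    (summable_nat_add_iff (f := fun m : ℕ => h m * X m ^ 5 * Real.exp (-(u * X m))) 1).mp
      (hsumS u hu hu1)
  -- leading term
  have hGood0 : h441_Good (fun u => (∑' m : ℕ, B (m + 1) * h441_w s u m)
      - 3 * ch * s ^ 2 * u ^ (-(3 : ℝ))) := by
    refine h441_good_congr (h441_good_add hPSl.2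
      (h441_good_bdd (G := fun u => ch * s ^ 5 * (∑' m : ℕ, ((m : ℝ) + 1) ^ (1 : ℝ) * h441_w s u m
        - (if (-1 : ℝ) < 1 then 3 / 2 * Real.Gamma (3 * (1 + 1) / 2) * s ^ (-(3 * (1 + 1) / 2 : ℝ)) *
        u ^ (-(3 * (1 + 1) / 2 : ℝ)) else 0))) (|ch * s ^ 5| * K1) ?_)) ?_
    · intro u hu hu1
      rw [abs_mul]
      have h1 := mul_le_mul_of_nonneg_left (hps1 u hu hu1).2 (abs_nonneg (ch * s ^ 5))
      refine h1.trans (le_of_eq ?_)
      norm_num
      ring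
    · intro u hu hu1
      have h1 := (hPSl.1 u hu hu1).tsum_add (((hps1 u hu hu1).1).mul_left (ch * s ^ 5))
      rw [tsum_mul_left] at h1
      have h2 : ∀ m : ℕ, (B (m + 1) - ch * s ^ 5 * ((m + 1 : ℕ) : ℝ)) * h441_w s u m +
          ch * s ^ 5 * (((m : ℝ) + 1) ^ (1 : ℝ) * h441_w s u m) = B (m + 1) * h441_w s u m := by
        intro m
        rw [Real.rpow_one]
        push_cast
        ring
      rw [tsum_congr h2] at h1
      rw [h1, if_pos (by norm_num), pow_zero, one_mul]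
      have hΓ : Real.Gamma (3 * (1 + 1) / 2) = 2 := by
        have h3 := Real.Gamma_nat_eq_factorial 2
        rw [show (3 * (1 + 1) / 2 : ℝ) = ((2 : ℕ) : ℝ) + 1 by norm_num, h3]
        norm_num
      have hs3 : s ^ (-(3 * (1 + 1) / 2 : ℝ)) = (s ^ 3)⁻¹ := by
        rw [Real.rpow_neg hs.le]
        congr 1
        rw [← Real.rpow_natCast]
        norm_num
      rw [hΓ, hs3, show (3 * (1 + 1) / 2 : ℝ) = 3 by norm_num]
      field_simp
      ring
  have hGoodT : h441_Good (fun u => ∑' m : ℕ, h m * X m ^ 5 * Real.exp (-(u * X m))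
      - 3 * ch * s ^ 2 * u ^ (-(3 : ℝ))) := by
    refine h441_good_congr (h441_good_add (h441_good_add (h441_good_add
      (h441_good_bdd (G := fun u => h 0 * X 0 ^ 5 * Real.exp (-(u * X 0))) (|h 0 * X 0 ^ 5|) ?_)
      (h441_good_bdd (G := fun u => ∑' m : ℕ, B (m + 1) * h441_w s u m *
        (Real.exp (-(u * D (m + 1))) -
        ∑ k ∈ Finset.range (J' + 1), (-(u * D (m + 1))) ^ k / (k.factorial : ℝ))) KR
        (fun u hu hu1 => (hR u hu hu1).2))) hGood0)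
      (h441_good_sum (Finset.range J') (fun k u => ((-1) ^ (k + 1) / ((k + 1).factorial : ℝ)) *
        (u ^ (k + 1) * ∑' m : ℕ, (B (m + 1) * D (m + 1) ^ (k + 1)) * h441_w s u m))
        (fun k _ => h441_good_smul _ (hPS (k + 1) (by omega)).2))) ?_
    · intro u hu hu1
      rw [abs_mul, abs_of_pos (Real.exp_pos _)]
      have hX0 : 0 ≤ X 0 := by
        have h1 := hXl 0
        have h2 : (0 : ℝ) < (((0 : ℕ) : ℝ) + 1) ^ (2 / 3 : ℝ) := by positivity
        by_contra hneg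
        push Not at hneg
        nlinarith
      have h1 : Real.exp (-(u * X 0)) ≤ 1 := by
        apply Real.exp_le_one_iff.mpr
        have := mul_nonneg hu.le hX0
        linarith
      have h2 : 0 ≤ |Real.log u| := abs_nonneg _
      have h3 : 0 ≤ |h 0 * X 0 ^ 5| := abs_nonneg _
      calc |h 0 * X 0 ^ 5| * Real.exp (-(u * X 0)) ≤ |h 0 * X 0 ^ 5| * 1 :=
            mul_le_mul_of_nonneg_left h1 h3
        _ ≤ |h 0 * X 0 ^ 5| * (1 + |Real.log u|) :=
            mul_le_mul_of_nonneg_left (by linarith) h3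
    · intro u hu hu1
      have h1 := (hsumT u hu hu1).tsum_eq_zero_add
      rw [h1, tsum_congr (hterm u), (hR u hu hu1).1.tsum_add (summable_sum (hsumR u hu hu1)),
        Summable.tsum_finsetSum (hsumR u hu hu1), Finset.sum_range_succ']
      simp only [tsum_mul_left, pow_zero, Nat.factorial_zero, Nat.cast_one, div_one, one_mul,
        mul_one]
      have h2 : ∀ k ∈ Finset.range J', (-1 : ℝ) ^ (k + 1) / ((k + 1).factorial : ℝ) * u ^ (k + 1) *
          ∑' m : ℕ, (B (m + 1) * D (m + 1) ^ (k + 1)) * h441_w s u m =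
          ((-1) ^ (k + 1) / ((k + 1).factorial : ℝ)) *
        (u ^ (k + 1) * ∑' m : ℕ, (B (m + 1) * D (m + 1) ^ (k + 1)) * h441_w s u m) := by
        intro k _
        ring
      rw [Finset.sum_congr rfl h2]
      ring
  obtain ⟨S, c, K', hK', hS, hb⟩ := hGoodT
  exact ⟨S, c, K', hK', hS, fun u hu hu1 => ⟨hsumT u hu hu1, hb u hu hu1⟩⟩


end Pool.Agent.FW
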