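import Pool.Agent.Helper155.FW.Defs
import Pool.Agent.Helper155.FW.H2b

set_option autoImplicit false
open Filter Asymptotics Topology

namespace Pool.Agent.FW

/-! ## AVAILABLE (proved by others; use freely) -/


/-! ## TARGETS (prove these) -/

/-- log-power expansions on `(0,1]` -/
def LXc (j : ℕ) (G : ℝ → ℝ) : Prop :=
  ∃ (S : Finset ℝ) (c d : ℝ → ℝ) (K : ℝ), 0 ≤ K ∧ (∀ x ∈ S, (j:ℝ) - 3 < x ∨ 0 ≤ x) ∧
    (∀ x ∈ S, d x ≠ 0 → 0 ≤ x ∧ (j:ℝ) - 3 < x) ∧
    ∀ t : ℝ, 0 < t → t ≤ 1 →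
      |G t - ∑ x ∈ S, (c x + d x * Real.log t) * t ^ x| ≤ K * t ^ j * (1 + |Real.log t|)

theorem LXc.congr {j : ℕ} {G G' : ℝ → ℝ} (h : LXc j G) (hG : ∀ t, 0 < t → t ≤ 1 → G t = G' t) :
    LXc j G' := by
  obtain ⟨S, c, d, K, h1, h2, h3, h4⟩ := h
  refine ⟨S, c, d, K, h1, h2, h3, fun t ht ht1 => ?_⟩
  rw [← hG t ht ht1]
  exact h4 t ht ht1

theorem LXc.of_bound {j : ℕ} {G : ℝ → ℝ} {K : ℝ} (hK : 0 ≤ K)
    (h : ∀ t, 0 < t → t ≤ 1 → |G t| ≤ K * t ^ j * (1 + |Real.log t|)) : LXc j G := by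
  refine ⟨∅, 0, 0, K, hK, by simp, by simp, fun t ht ht1 => ?_⟩
  simpa using h t ht ht1

theorem LXc.single {j : ℕ} (x c d : ℝ) (h1 : (j:ℝ) - 3 < x ∨ 0 ≤ x)
    (h2 : d ≠ 0 → 0 ≤ x ∧ (j:ℝ) - 3 < x) :
    LXc j (fun t => (c + d * Real.log t) * t ^ x) := by
  refine ⟨{x}, fun _ => c, fun _ => d, 0, le_rfl, by simpa using h1, by simpa using h2, ?_⟩
  intro t _ _
  simp

theorem LXc.add {j : ℕ} {G G' : ℝ → ℝ} (h : LXc j G) (h' : LXc j G') : LXc j (fun t => G t + G' t) := by
  classical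
  obtain ⟨S, c, d, K, h1, h2, h3, h4⟩ := h
  obtain ⟨S', c', d', K', h1', h2', h3', h4'⟩ := h'
  refine ⟨S ∪ S', fun x => (if x ∈ S then c x else 0) + (if x ∈ S' then c' x else 0),
    fun x => (if x ∈ S then d x else 0) + (if x ∈ S' then d' x else 0), K + K', by positivity, ?_, ?_, ?_⟩
  · intro x hx
    rcases Finset.mem_union.1 hx with h | h
    · exact h2 x h
    · exact h2' x h
  · intro x _ hne
    by_cases hS : x ∈ S ∧ d x ≠ 0
    · exact h3 x hS.1 hS.2
    · by_cases hS' : x ∈ S' ∧ d' x ≠ 0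
      · exact h3' x hS'.1 hS'.2
      · exfalso
        apply hne
        have e1 : (if x ∈ S then d x else 0) = 0 := by
          split_ifs with hx
          · by_contra hd; exact hS ⟨hx, hd⟩
          · rfl
        have e2 : (if x ∈ S' then d' x else 0) = 0 := by
          split_ifs with hx
          · by_contra hd; exact hS' ⟨hx, hd⟩
          · rfl
        simp only [e1, e2, add_zero]
  · intro t ht ht1
    have e1 : ∑ x ∈ S ∪ S', ((if x ∈ S then c x else 0) + (if x ∈ S then d x else 0) * Real.log t) * t ^ x =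
        ∑ x ∈ S, (c x + d x * Real.log t) * t ^ x := by
      have : ∀ x, ((if x ∈ S then c x else 0) + (if x ∈ S then d x else 0) * Real.log t) * t ^ x =
          if x ∈ S then (c x + d x * Real.log t) * t ^ x else 0 := by
        intro x; split_ifs <;> ring
      simp only [this]
      rw [← Finset.sum_filter]
      apply Finset.sum_congr _ (fun _ _ => rfl)
      ext x
      simp only [Finset.mem_filter, Finset.mem_union]
      tauto
    have e2 : ∑ x ∈ S ∪ S', ((if x ∈ S' then c' x else 0) + (if x ∈ S' then d' x else 0) * Real.log t) * t ^ x =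
        ∑ x ∈ S', (c' x + d' x * Real.log t) * t ^ x := by
      have : ∀ x, ((if x ∈ S' then c' x else 0) + (if x ∈ S' then d' x else 0) * Real.log t) * t ^ x =
          if x ∈ S' then (c' x + d' x * Real.log t) * t ^ x else 0 := by
        intro x; split_ifs <;> ring
      simp only [this]
      rw [← Finset.sum_filter]
      apply Finset.sum_congr _ (fun _ _ => rfl)
      ext x
      simp only [Finset.mem_filter, Finset.mem_union]
      tauto
    have e3 : ∑ x ∈ S ∪ S', (((if x ∈ S then c x else 0) + (if x ∈ S' then c' x else 0)) +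
        ((if x ∈ S then d x else 0) + (if x ∈ S' then d' x else 0)) * Real.log t) * t ^ x =
        ∑ x ∈ S, (c x + d x * Real.log t) * t ^ x + ∑ x ∈ S', (c' x + d' x * Real.log t) * t ^ x := by
      rw [← e1, ← e2, ← Finset.sum_add_distrib]
      apply Finset.sum_congr rfl
      intro x _
      ring
    rw [e3]
    have a1 := h4 t ht ht1
    have a2 := h4' t ht ht1
    have e4 : G t + G' t - (∑ x ∈ S, (c x + d x * Real.log t) * t ^ x +
        ∑ x ∈ S', (c' x + d' x * Real.log t) * t ^ x) =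
        (G t - ∑ x ∈ S, (c x + d x * Real.log t) * t ^ x) +
        (G' t - ∑ x ∈ S', (c' x + d' x * Real.log t) * t ^ x) := by ring
    rw [e4]
    refine (abs_add_le _ _).trans ?_
    linarith

theorem LXc.sum {ι : Type*} {j : ℕ} (s : Finset ι) (G : ι → ℝ → ℝ) (h : ∀ i ∈ s, LXc j (G i)) :
    LXc j (fun t => ∑ i ∈ s, G i t) := by
  classical
  induction s using Finset.induction_on with
  | empty =>
    apply LXc.of_bound (K := 0) le_rfl
    intro t _ _
    simp
  | insert i s hi ih =>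
    have h1 := (h i (Finset.mem_insert_self _ _)).add
      (ih fun j hj => h j (Finset.mem_insert_of_mem hj))
    refine h1.congr ?_
    intro t _ _
    rw [Finset.sum_insert hi]

/-- the barrier -/
noncomputable def Bf (K : ℝ) (j : ℕ) (u : ℝ) : ℝ :=
  K * (u ^ (j+1) / ((j:ℝ)+1) * (1 - Real.log u + 1 / ((j:ℝ)+1)))

theorem Bf_deriv (K : ℝ) (j : ℕ) (u : ℝ) (hu : 0 < u) :
    HasDerivAt (Bf K j) (K * u ^ j * (1 - Real.log u)) u := by
  unfold Bf
  have h1 : HasDerivAt (fun u : ℝ => u ^ (j+1)) (((j+1 : ℕ) : ℝ) * u ^ j) u := by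
    simpa using hasDerivAt_pow (j+1) u
  have h2 : HasDerivAt (fun u : ℝ => 1 - Real.log u + 1 / ((j:ℝ)+1)) (-u⁻¹) u :=
    ((Real.hasDerivAt_log hu.ne').const_sub 1).add_const _
  have h3 := ((h1.div_const ((j:ℝ)+1)).mul h2).const_mul K
  refine h3.congr_deriv ?_
  have hj : ((j:ℝ)+1) ≠ 0 := by positivity
  push_cast
  rw [pow_succ]
  field_simp
  ring

theorem Bf_nonneg (K : ℝ) (hK : 0 ≤ K) (j : ℕ) (u : ℝ) (hu : 0 < u) (hu1 : u ≤ 1) : 0 ≤ Bf K j u := by
  unfold Bf
  have : Real.log u ≤ 0 := Real.log_nonpos hu.le hu1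
  have h2 : 0 ≤ 1 - Real.log u + 1 / ((j:ℝ)+1) := by
    have : 0 ≤ 1 / ((j:ℝ)+1) := by positivity
    linarith
  positivity

theorem Bf_le (K : ℝ) (hK : 0 ≤ K) (j : ℕ) (u : ℝ) (hu : 0 < u) (hu1 : u ≤ 1) :
    Bf K j u ≤ 2 * K * u ^ (j+1) * (1 + |Real.log u|) := by
  unfold Bf
  have hl : Real.log u ≤ 0 := Real.log_nonpos hu.le hu1
  rw [abs_of_nonpos hl]
  have hj : (1:ℝ) ≤ (j:ℝ)+1 := by
    have : (0:ℝ) ≤ j := Nat.cast_nonneg _
    linarith
  have h1 : 1 / ((j:ℝ)+1) ≤ 1 := by
    rw [div_le_one (by linarith)]; exact hj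
  have h0 : 0 ≤ 1 / ((j:ℝ)+1) := by positivity
  have hup : 0 ≤ u ^ (j+1) := by positivity
  have h2 : u ^ (j+1) / ((j:ℝ)+1) ≤ u ^ (j+1) := div_le_self hup hj
  have h3 : u ^ (j+1) / ((j:ℝ)+1) * (1 - Real.log u + 1 / ((j:ℝ)+1)) ≤
      u ^ (j+1) * (2 * (1 + -Real.log u)) := by
    apply mul_le_mul h2 _ (by linarith) hup
    linarith
  calc K * (u ^ (j+1) / ((j:ℝ)+1) * (1 - Real.log u + 1 / ((j:ℝ)+1)))
      ≤ K * (u ^ (j+1) * (2 * (1 + -Real.log u))) := mul_le_mul_of_nonneg_left h3 hK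
    _ = _ := by ring

theorem Bf_tendsto (K : ℝ) (hK : 0 ≤ K) (j : ℕ) : Tendsto (Bf K j) (𝓝[>] 0) (𝓝 0) := by
  have h1 : Tendsto (fun u : ℝ => Real.log u * u ^ (j+1)) (𝓝[>] 0) (𝓝 0) := by
    have := tendsto_log_mul_rpow_nhdsGT_zero (r := ((j+1 : ℕ) : ℝ)) (by positivity)
    refine this.congr ?_
    intro u
    rw [Real.rpow_natCast]
  have h2 : Tendsto (fun u : ℝ => u ^ (j+1)) (𝓝[>] 0) (𝓝 0) := by
    have : Tendsto (fun u : ℝ => u ^ (j+1)) (𝓝 0) (𝓝 (0 ^ (j+1))) := (continuous_pow (j+1)).tendsto 0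
    rw [zero_pow (by omega)] at this
    exact this.mono_left nhdsWithin_le_nhds
  have h3 : Tendsto (fun u : ℝ => K * ((u ^ (j+1) * (1 + 1 / ((j:ℝ)+1)) - Real.log u * u ^ (j+1)) / ((j:ℝ)+1)))
      (𝓝[>] 0) (𝓝 (K * ((0 * (1 + 1 / ((j:ℝ)+1)) - 0) / ((j:ℝ)+1)))) :=
    (((h2.mul_const _).sub h1).div_const _).const_mul K
  simp only [zero_mul, sub_zero, zero_div, mul_zero] at h3
  refine h3.congr ?_
  intro u
  unfold Bf
  ring

theorem remainder_limit {j : ℕ} {R E : ℝ → ℝ} {K : ℝ} (hK : 0 ≤ K)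
    (hR : ∀ t, 0 < t → t ≤ 1 → HasDerivAt R (E t) t)
    (hE : ∀ t, 0 < t → t ≤ 1 → |E t| ≤ K * t ^ j * (1 + |Real.log t|)) : LXc (j+1) R := by
  have hdiff : ∀ a b : ℝ, 0 < a → a ≤ b → b ≤ 1 → |R b - R a| ≤ Bf K j b - Bf K j a := by
    intro a b ha hab hb
    have := image_norm_le_of_norm_deriv_right_le_deriv_boundary' (f := fun t => R t - R a)
      (f' := E) (a := a) (b := b) (B := fun t => Bf K j t - Bf K j a)
      (B' := fun t => K * t ^ j * (1 - Real.log t))
      (fun t ht => ((hR t (lt_of_lt_of_le ha ht.1) (ht.2.trans hb)).sub_const _).continuousAt.continuousWithinAt)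
      (fun t ht => ((hR t (lt_of_lt_of_le ha ht.1) (ht.2.le.trans hb)).sub_const _).hasDerivWithinAt)
      (by simp)
      (fun t ht => ((Bf_deriv K j t (lt_of_lt_of_le ha ht.1)).sub_const _).continuousAt.continuousWithinAt)
      (fun t ht => ((Bf_deriv K j t (lt_of_lt_of_le ha ht.1)).sub_const _).hasDerivWithinAt)
      (fun t ht => by
        have ht0 : 0 < t := lt_of_lt_of_le ha ht.1
        have ht1 : t ≤ 1 := ht.2.le.trans hb
        have h1 := hE t ht0 ht1
        rw [abs_of_nonpos (Real.log_nonpos ht0.le ht1)] at h1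
        rw [Real.norm_eq_abs]
        exact h1)
      (x := b) ⟨hab, le_rfl⟩
    exact this
  let a : ℕ → ℝ := fun n => 1 / ((n : ℝ) + 1)
  have ha0 : ∀ n, 0 < a n := fun n => by positivity
  have ha1 : ∀ n, a n ≤ 1 := fun n => by
    show 1 / ((n : ℝ) + 1) ≤ 1
    rw [div_le_one (by positivity)]
    have : (0:ℝ) ≤ n := Nat.cast_nonneg _
    linarith
  have haanti : Antitone a := by
    intro m n hmn
    have : (m : ℝ) ≤ n := by exact_mod_cast hmn
    exact one_div_le_one_div_of_le (by positivity) (by linarith)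
  have halim : Tendsto a atTop (𝓝 0) := tendsto_one_div_add_atTop_nhds_zero_nat
  have halim' : Tendsto a atTop (𝓝[>] 0) :=
    tendsto_nhdsWithin_of_tendsto_nhds_of_eventually_within _ halim (Eventually.of_forall ha0)
  have hBa : Tendsto (fun n => Bf K j (a n)) atTop (𝓝 0) := (Bf_tendsto K hK j).comp halim'
  have hcauchy : CauchySeq (fun n => R (a n)) := by
    apply cauchySeq_of_le_tendsto_0 (fun n => 2 * Bf K j (a n))
    · intro n m N hn hm
      have key : ∀ n, N ≤ n → |R (a N) - R (a n)| ≤ Bf K j (a N) := by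
        intro n hn
        have h1 := hdiff (a n) (a N) (ha0 n) (haanti hn) (ha1 N)
        have h2 := Bf_nonneg K hK j (a n) (ha0 n) (ha1 n)
        linarith
      rw [Real.dist_eq]
      have e : R (a n) - R (a m) = (R (a N) - R (a m)) - (R (a N) - R (a n)) := by ring
      rw [e]
      refine (abs_sub _ _).trans ?_
      have := key n hn
      have := key m hm
      linarith
    · have := hBa.const_mul 2
      simpa using this
  obtain ⟨L, hL⟩ := cauchySeq_tendsto_of_complete hcauchy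
  have hfin : ∀ b, 0 < b → b ≤ 1 → |R b - L| ≤ Bf K j b := by
    intro b hb hb1
    have h1 : Tendsto (fun n => |R b - R (a n)|) atTop (𝓝 |R b - L|) :=
      (tendsto_const_nhds.sub hL).abs
    apply le_of_tendsto h1
    have h2 : ∀ᶠ n in atTop, a n < b := halim.eventually (gt_mem_nhds hb)
    filter_upwards [h2] with n hn
    have h3 := hdiff (a n) b (ha0 n) hn.le hb1
    have h4 := Bf_nonneg K hK j (a n) (ha0 n) (ha1 n)
    linarith
  refine ⟨{0}, fun _ => L, fun _ => 0, 2 * K, by positivity, by simp, by simp, ?_⟩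
  intro t ht ht1
  simp only [Finset.sum_singleton, zero_mul, add_zero, Real.rpow_zero, mul_one]
  exact (hfin t ht ht1).trans (Bf_le K hK j t ht ht1)

theorem LXc.step {j : ℕ} {G H : ℝ → ℝ} (hder : ∀ t, 0 < t → t ≤ 1 → HasDerivAt G (H t) t)
    (hH : LXc j H) : LXc (j+1) G := by
  classical
  obtain ⟨S, c, d, K, hK, h2, h3, h4⟩ := hH
  -- antiderivatives of the terms
  let A : ℝ → ℝ → ℝ := fun x t => if x = -1 then c x * Real.log t else
    ((c x / (x+1) - d x / (x+1)^2) + (d x / (x+1)) * Real.log t) * t ^ (x+1)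
  have hA : ∀ x ∈ S, ∀ t, 0 < t → HasDerivAt (A x) ((c x + d x * Real.log t) * t ^ x) t := by
    intro x hx t ht
    by_cases hx1 : x = -1
    · have hd : d x = 0 := by
        by_contra hd
        have := (h3 x hx hd).1
        rw [hx1] at this
        linarith
      have e : A x = fun t => c x * Real.log t := by
        funext t; exact if_pos hx1
      rw [e, hd, zero_mul, add_zero, hx1, Real.rpow_neg_one]
      exact (Real.hasDerivAt_log ht.ne').const_mul _
    · have hx0 : x + 1 ≠ 0 := fun h => hx1 (by linarith)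
      have e : A x = fun t => ((c x / (x+1) - d x / (x+1)^2) + (d x / (x+1)) * Real.log t) * t ^ (x+1) := by
        funext t; exact if_neg hx1
      rw [e]
      have a1 := ((Real.hasDerivAt_log ht.ne').const_mul (d x / (x+1))).const_add
        (c x / (x+1) - d x / (x+1)^2)
      have a2 := Real.hasDerivAt_rpow_const (x := t) (p := x+1) (Or.inl ht.ne')
      refine (a1.mul a2).congr_deriv ?_
      rw [add_sub_cancel_right, Real.rpow_add ht, Real.rpow_one]
      field_simp
      ring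
  have hALX : ∀ x ∈ S, LXc (j+1) (A x) := by
    intro x hx
    by_cases hx1 : x = -1
    · have hj : (j:ℝ) - 3 < -1 := by
        rcases h2 x hx with h | h
        · rw [hx1] at h; exact h
        · rw [hx1] at h; linarith
      have := LXc.single (j := j+1) 0 0 (c x) (Or.inr le_rfl) (fun _ => ⟨le_rfl, by push_cast; linarith⟩)
      refine this.congr ?_
      intro t _ _
      have e : A x t = c x * Real.log t := if_pos hx1
      rw [e, Real.rpow_zero]; ring
    · have := LXc.single (j := j+1) (x+1) (c x / (x+1) - d x / (x+1)^2) (d x / (x+1))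
        (by
          rcases h2 x hx with h | h
          · left; push_cast; linarith
          · right; linarith)
        (by
          intro hne
          have hd : d x ≠ 0 := fun h => hne (by rw [h, zero_div])
          obtain ⟨b1, b2⟩ := h3 x hx hd
          exact ⟨by linarith, by push_cast; linarith⟩)
      refine this.congr ?_
      intro t _ _
      exact (if_neg hx1).symm
  have hAsum := LXc.sum S A hALX
  have hR : LXc (j+1) (fun t => G t - ∑ x ∈ S, A x t) := by
    refine remainder_limit (E := fun t => H t - ∑ x ∈ S, (c x + d x * Real.log t) * t ^ x) hK ?_ h4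
    intro t ht ht1
    exact (hder t ht ht1).sub (HasDerivAt.fun_sum fun x hx => hA x hx t ht)
  refine (hR.add hAsum).congr ?_
  intro t _ _
  ring

theorem F_expand (s ch x2 y1 K : ℝ) (hs : 0 < s) (h X : ℕ → ℝ) (hx2 : -(2 / 3) < x2)
    (hX : PE x2 4 (fun n : ℕ => X n - s * (n : ℝ) ^ (2 / 3 : ℝ))) (hy1 : 7 / 3 < y1)
    (hh : PE y1 5 (fun n : ℕ => h n - ch * (n : ℝ) ^ (-(7 / 3 : ℝ))))
    (hK : 1 ≤ K) (hXl : ∀ m : ℕ, ((m : ℝ) + 1) ^ (2 / 3 : ℝ) ≤ K * X m) :
    ∃ (S : Finset ℝ) (c d : ℝ → ℝ), (∀ x ∈ S, x ≤ 2 → d x = 0) ∧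
      (fun t : ℝ => (∑' m : ℕ, h m * Real.exp (-(t * X m)))
          - ∑ x ∈ S, (c x + d x * Real.log t) * t ^ x
          + 3 / 4 * ch * s ^ 2 * t ^ 2 * Real.log t)
        =O[𝓝[>] 0] (fun t : ℝ => t ^ (5 : ℝ) * |Real.log t|) := by
  obtain ⟨S0, c0, K', hK', hS0, hphi⟩ := phi s ch x2 y1 K hs h X hx2 hX hy1 hh hK hXl
  have hXK : ∀ m, 1 ≤ K * X m := by
    intro m
    refine le_trans ?_ (hXl m)
    apply Real.one_le_rpow _ (by norm_num)
    have : (0:ℝ) ≤ m := Nat.cast_nonneg _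
    linarith
  have hKpos : 0 < K := by linarith
  have hXpos : ∀ m, 0 < X m := by
    intro m
    by_contra hcon
    push Not at hcon
    have := mul_nonpos_of_nonneg_of_nonpos hKpos.le hcon
    linarith [hXK m]
  -- the derivatives
  let F : ℕ → ℝ → ℝ := fun i t => ∑' m : ℕ, h m * (-X m) ^ i * Real.exp (-(t * X m))
  have hterm : ∀ i, i ≤ 5 → ∀ m y u, u ≤ y →
      ‖h m * (-X m) ^ i * Real.exp (-(y * X m))‖ ≤ K ^ (5 - i) * |h m * X m ^ 5 * Real.exp (-(u * X m))| := by
    intro i hi m y u huy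
    rw [Real.norm_eq_abs, abs_mul, abs_mul, abs_pow, abs_neg, abs_of_pos (hXpos m), abs_mul, abs_mul,
      abs_pow, abs_of_pos (hXpos m), abs_of_pos (Real.exp_pos _), abs_of_pos (Real.exp_pos _)]
    have e1 : X m ^ i ≤ K ^ (5 - i) * X m ^ 5 := by
      have e2 : X m ^ 5 = X m ^ i * X m ^ (5 - i) := by
        rw [← pow_add]; congr 1; omega
      rw [e2]
      have e3 : 1 ≤ (K * X m) ^ (5 - i) := one_le_pow₀ (hXK m)
      rw [mul_pow] at e3
      have e4 : 0 ≤ X m ^ i := pow_nonneg (hXpos m).le _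
      nlinarith
    have e5 : Real.exp (-(y * X m)) ≤ Real.exp (-(u * X m)) := by
      apply Real.exp_le_exp.2
      have := mul_le_mul_of_nonneg_right huy (hXpos m).le
      linarith
    calc |h m| * X m ^ i * Real.exp (-(y * X m)) ≤ |h m| * (K ^ (5 - i) * X m ^ 5) * Real.exp (-(u * X m)) := by
          apply mul_le_mul _ e5 (Real.exp_pos _).le (by have := hXpos m; positivity)
          exact mul_le_mul_of_nonneg_left e1 (abs_nonneg _)
      _ = _ := by ring
  have hFder : ∀ i, i ≤ 4 → ∀ t, 0 < t → t ≤ 1 → HasDerivAt (F i) (F (i+1) t) t := by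
    intro i hi t ht ht1
    have hu : Summable (fun m => K ^ (5 - (i+1)) * |h m * X m ^ 5 * Real.exp (-((t/2) * X m))|) :=
      ((hphi (t/2) (by linarith) (by linarith)).1.abs).mul_left _
    have hu0 : Summable (fun m => K ^ (5 - i) * |h m * X m ^ 5 * Real.exp (-(t * X m))|) :=
      ((hphi t ht ht1).1.abs).mul_left _
    refine hasDerivAt_tsum_of_isPreconnected (g := fun m t => h m * (-X m) ^ i * Real.exp (-(t * X m)))
      (g' := fun m t => h m * (-X m) ^ (i+1) * Real.exp (-(t * X m))) (t := Set.Ioi (t/2)) (y₀ := t) hu isOpen_Ioi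
      isPreconnected_Ioi ?_ ?_ (by show t/2 < t; linarith) ?_ (by show t/2 < t; linarith)
    · intro m y _
      have e1 : HasDerivAt (fun t : ℝ => -(t * X m)) (-(1 * X m)) y :=
        ((hasDerivAt_id y).mul_const (X m)).neg
      refine (e1.exp.const_mul (h m * (-X m) ^ i)).congr_deriv ?_
      rw [pow_succ]; ring
    · intro m y hy
      exact hterm (i+1) (by omega) m y (t/2) (le_of_lt hy)
    · exact Summable.of_norm_bounded hu0 (fun m => hterm i (by omega) m t t le_rfl)
  set A := ch * s ^ 2 with hAdef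
  -- level 0
  have l0 : LXc 0 (fun t => F 5 t - (-(3 * A) * t ^ (-(3:ℝ)))) := by
    have b1 : LXc 0 (fun t => ∑ y ∈ S0, (-(c0 y) + 0 * Real.log t) * t ^ (-y)) := by
      apply LXc.sum
      intro y hy
      apply LXc.single
      · left
        have := hS0 y hy
        push_cast; linarith
      · intro h; exact absurd rfl h
    have b2 : LXc 0 (fun t => -(∑' m : ℕ, h m * X m ^ 5 * Real.exp (-(t * X m)) - 3 * ch * s ^ 2 * t ^ (-(3 : ℝ))
          - ∑ y ∈ S0, c0 y * t ^ (-y))) := by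
      apply LXc.of_bound hK'.le
      intro t ht ht1
      rw [abs_neg, pow_zero, mul_one]
      exact (hphi t ht ht1).2
    refine (b1.add b2).congr ?_
    intro t _ _
    have e1 : F 5 t = -∑' m : ℕ, h m * X m ^ 5 * Real.exp (-(t * X m)) := by
      show ∑' m : ℕ, h m * (-X m) ^ 5 * Real.exp (-(t * X m)) = _
      rw [← tsum_neg]
      congr 1
      funext m
      ring
    have e2 : ∑ y ∈ S0, (-(c0 y) + 0 * Real.log t) * t ^ (-y) = - ∑ y ∈ S0, c0 y * t ^ (-y) := by
      rw [← Finset.sum_neg_distrib]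
      apply Finset.sum_congr rfl
      intro y _
      ring
    rw [e1, e2, hAdef]
    ring
  have l1 : LXc 1 (fun t => F 4 t - ((3/2 * A) * t ^ (-(2:ℝ)))) := by
    refine LXc.step ?_ l0
    intro t ht ht1
    refine ((hFder 4 (by norm_num) t ht ht1).sub
      ((Real.hasDerivAt_rpow_const (x := t) (p := -(2:ℝ)) (Or.inl ht.ne')).const_mul (3/2 * A))).congr_deriv ?_
    have : (-(2:ℝ) - 1) = -3 := by norm_num
    rw [this]; ring
  have l2 : LXc 2 (fun t => F 3 t - (-(3/2 * A) * t ^ (-(1:ℝ)))) := by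
    refine LXc.step ?_ l1
    intro t ht ht1
    refine ((hFder 3 (by norm_num) t ht ht1).sub
      ((Real.hasDerivAt_rpow_const (x := t) (p := -(1:ℝ)) (Or.inl ht.ne')).const_mul (-(3/2 * A)))).congr_deriv ?_
    have : (-(1:ℝ) - 1) = -2 := by norm_num
    rw [this]; ring
  have l3 : LXc 3 (fun t => F 2 t - (-(3/2 * A) * Real.log t)) := by
    refine LXc.step ?_ l2
    intro t ht ht1
    refine ((hFder 2 (by norm_num) t ht ht1).sub
      ((Real.hasDerivAt_log ht.ne').const_mul (-(3/2 * A)))).congr_deriv ?_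
    rw [Real.rpow_neg_one]
  have l4 : LXc 4 (fun t => F 1 t - (-(3/2 * A) * (t * Real.log t - t))) := by
    refine LXc.step ?_ l3
    intro t ht ht1
    refine ((hFder 1 (by norm_num) t ht ht1).sub
      ((((hasDerivAt_id t).mul (Real.hasDerivAt_log ht.ne')).sub (hasDerivAt_id t)).const_mul
        (-(3/2 * A)))).congr_deriv ?_
    simp only [id]
    field_simp
    ring
  have l5 : LXc 5 (fun t => F 0 t - (-(3/2 * A) * (t ^ 2 / 2 * Real.log t - 3/4 * t ^ 2))) := by
    refine LXc.step ?_ l4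
    intro t ht ht1
    have e1 : HasDerivAt (fun t : ℝ => t ^ 2) (2 * t) t := by simpa using hasDerivAt_pow 2 t
    refine ((hFder 0 (by norm_num) t ht ht1).sub
      ((((e1.div_const 2).mul (Real.hasDerivAt_log ht.ne')).sub (e1.const_mul (3/4))).const_mul
        (-(3/2 * A)))).congr_deriv ?_
    field_simp
    ring
  have l6 := l5.add (LXc.single (j := 5) 2 (9/8 * A) 0 (Or.inr (by norm_num)) (fun h => absurd rfl h))
  obtain ⟨S, c, d, K1, hK1, _, hd, hb⟩ := l6
  refine ⟨S, c, d, ?_, ?_⟩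
  · intro x hx hx2
    by_contra hne
    have := (hd x hx hne).2
    push_cast at this
    linarith
  · apply IsBigO.of_bound (2 * K1)
    have h1 : ∀ᶠ t : ℝ in 𝓝[>] 0, t < Real.exp (-1) :=
      nhdsWithin_le_nhds (gt_mem_nhds (Real.exp_pos _))
    filter_upwards [h1, self_mem_nhdsWithin] with t ht1 ht0
    have ht0' : 0 < t := ht0
    have hlog : Real.log t < -1 := by
      rw [Real.log_lt_iff_lt_exp ht0']; exact ht1
    have hle1 : t ≤ 1 := by
      have : Real.exp (-1) ≤ 1 := Real.exp_le_one_iff.2 (by norm_num)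
      linarith
    have h2 := hb t ht0' hle1
    have hF0 : F 0 t = ∑' m : ℕ, h m * Real.exp (-(t * X m)) := by
      show ∑' m : ℕ, h m * (-X m) ^ 0 * Real.exp (-(t * X m)) = _
      simp
    beta_reduce at h2
    rw [hF0] at h2
    have h5 : t ^ (5:ℝ) = t ^ 5 := by
      rw [← Real.rpow_natCast]; norm_num
    have h22 : t ^ (2:ℝ) = t ^ 2 := by
      rw [← Real.rpow_natCast]; norm_num
    rw [h22] at h2
    rw [Real.norm_eq_abs, Real.norm_eq_abs, abs_mul, abs_abs, h5, abs_of_nonneg (by positivity : 0 ≤ t ^ 5)]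
    rw [abs_of_nonpos (by linarith : Real.log t ≤ 0)] at h2 ⊢
    have e : (∑' m : ℕ, h m * Real.exp (-(t * X m)))
          - ∑ x ∈ S, (c x + d x * Real.log t) * t ^ x
          + 3 / 4 * ch * s ^ 2 * t ^ 2 * Real.log t =
        ∑' m : ℕ, h m * Real.exp (-(t * X m)) - (-(3/2 * A) * (t ^ 2 / 2 * Real.log t - 3/4 * t ^ 2)) +
          (9/8 * A + 0 * Real.log t) * t ^ 2 - ∑ x ∈ S, (c x + d x * Real.log t) * t ^ x := by
      rw [hAdef]; ring
    rw [e]
    refine h2.trans ?_
    have h6 : 0 ≤ K1 * t ^ 5 := by positivity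
    nlinarith

end Pool.Agent.FW
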