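import Pool.Agent.Helper155.FW.Defs

set_option autoImplicit false
open Filter Asymptotics Topology

namespace Pool.Agent.FW

/-- the function `exp (-x) - 1 + x` -/
noncomputable def hlG (x : ℝ) : ℝ := Real.exp (-x) - 1 + x

theorem hlG_nonneg (x : ℝ) : 0 ≤ hlG x := by
  have := Real.add_one_le_exp (-x)
  unfold hlG; linarith

theorem hlG_le {x : ℝ} (hx : 0 ≤ x) : hlG x ≤ x := by
  have : Real.exp (-x) ≤ 1 := Real.exp_le_one_iff.2 (by linarith)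
  unfold hlG; linarith

theorem hlG_le_sq {x : ℝ} (hx : 0 ≤ x) : hlG x ≤ x ^ 2 / 2 := by
  have h1 := Real.quadratic_le_exp_of_nonneg hx
  have h2 : Real.exp (-x) * Real.exp x = 1 := by rw [← Real.exp_add]; simp
  have h3 : 0 < Real.exp (-x) := Real.exp_pos _
  have h4 : Real.exp (-x) * (1 + x + x ^ 2 / 2) ≤ 1 := by nlinarith
  have h5 : (1 - x + x ^ 2 / 2) * (1 + x + x ^ 2 / 2) = 1 + x ^ 4 / 4 := by ring
  have h6 : 0 < 1 + x + x ^ 2 / 2 := by positivity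
  have h7 : Real.exp (-x) ≤ 1 - x + x ^ 2 / 2 := by
    by_contra hc
    push Not at hc
    have := mul_lt_mul_of_pos_right hc h6
    have h8 : 0 ≤ x ^ 4 / 4 := by positivity
    linarith
  unfold hlG; linarith

theorem hlG_sub {x : ℝ} (hx : 0 ≤ x) : |hlG x - x ^ 2 / 2| ≤ x ^ 3 := by
  rcases le_or_gt x 1 with h1 | h1
  · have h2 := Real.exp_bound (x := -x) (by rw [abs_neg, abs_of_nonneg hx]; exact h1)
      (n := 3) (by norm_num)
    have h3 : ∑ m ∈ Finset.range 3, (-x) ^ m / (m.factorial : ℝ) = 1 - x + x ^ 2 / 2 := by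
      simp [Finset.sum_range_succ, Nat.factorial]; ring
    rw [h3, abs_neg, abs_of_nonneg hx] at h2
    have h4 : hlG x - x ^ 2 / 2 = Real.exp (-x) - (1 - x + x ^ 2 / 2) := by unfold hlG; ring
    rw [h4]
    refine h2.trans ?_
    have h5 : ((Nat.succ 3 : ℕ) : ℝ) / (((Nat.factorial 3 : ℕ) : ℝ) * ((3 : ℕ) : ℝ)) ≤ 1 := by
      norm_num [Nat.factorial]
    calc x ^ 3 * (((Nat.succ 3 : ℕ) : ℝ) / (((Nat.factorial 3 : ℕ) : ℝ) * ((3 : ℕ) : ℝ)))
        ≤ x ^ 3 * 1 := mul_le_mul_of_nonneg_left h5 (by positivity)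
      _ = x ^ 3 := mul_one _
  · have h2 := hlG_nonneg x
    have h3 := hlG_le_sq hx
    rw [abs_le]
    have h4 : x ^ 2 ≤ x ^ 3 := by nlinarith [sq_nonneg x]
    constructor <;> nlinarith [sq_nonneg x]

theorem hlG_lip {x z B : ℝ} (hx : 0 ≤ x) (hz : 0 ≤ z) (hxB : x ≤ B) (hzB : z ≤ B) :
    |hlG x - hlG z| ≤ |x - z| * B := by
  wlog hzx : z ≤ x generalizing x z with H
  · rw [abs_sub_comm, abs_sub_comm x z]
    exact H hz hx hzB hxB (le_of_not_ge hzx)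
  have h1 : 0 ≤ x - z := by linarith
  have h2 : Real.exp (-x) * Real.exp (x - z) = Real.exp (-z) := by
    rw [← Real.exp_add]; congr 1; ring
  have h3 := Real.add_one_le_exp (x - z)
  have h4 : 0 < Real.exp (-x) := Real.exp_pos _
  have h5 : Real.exp (-z) * Real.exp (-(x - z)) = Real.exp (-x) := by
    rw [← Real.exp_add]; congr 1; ring
  have h6 := Real.add_one_le_exp (-(x - z))
  have h7 : 0 < Real.exp (-z) := Real.exp_pos _
  have h8 : Real.exp (-z) ≤ 1 := Real.exp_le_one_iff.2 (by linarith)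
  have h9 := Real.add_one_le_exp (-x)
  rw [abs_of_nonneg h1, abs_le]
  have e1 : Real.exp (-z) - Real.exp (-x) ≥ Real.exp (-x) * (x - z) := by
    nlinarith
  have e2 : Real.exp (-z) - Real.exp (-x) ≤ x - z := by
    nlinarith
  have e3 : Real.exp (-x) * (x - z) ≥ (1 - x) * (x - z) := by nlinarith
  have e4 : x * (x - z) ≤ B * (x - z) := mul_le_mul_of_nonneg_right hxB h1
  have e5 : 0 ≤ (x - z) * B := mul_nonneg h1 (hx.trans hxB)
  unfold hlG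
  constructor
  · linarith
  · nlinarith

theorem hl_rat {x : ℝ} (hx : 1 ≤ x) :
    (x + 1) ^ (-(2 / 3) : ℝ) * (1 + 2 / 3 * (x + 1)⁻¹) ≤ x ^ (-(2 / 3) : ℝ) := by
  have hx0 : 0 < x := by linarith
  have hy0 : 0 < x + 1 := by linarith
  have h1 : x ^ (-(2 / 3) : ℝ) = (x + 1) ^ (-(2 / 3) : ℝ) *
      Real.exp (2 / 3 * (Real.log (x + 1) - Real.log x)) := by
    rw [Real.rpow_def_of_pos hx0, Real.rpow_def_of_pos hy0, ← Real.exp_add]
    congr 1; ring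
  rw [h1]
  apply mul_le_mul_of_nonneg_left _ (Real.rpow_nonneg hy0.le _)
  have h2 := Real.add_one_le_exp (2 / 3 * (Real.log (x + 1) - Real.log x))
  have h3 : (x + 1)⁻¹ ≤ Real.log (x + 1) - Real.log x := by
    have h4 := Real.log_le_sub_one_of_pos (show 0 < x / (x + 1) by positivity)
    rw [Real.log_div hx0.ne' hy0.ne'] at h4
    have h5 : x / (x + 1) - 1 = -(x + 1)⁻¹ := by field_simp; ring
    linarith
  linarith

theorem hl_53 {y : ℝ} (hy : 0 < y) : y ^ (-(5 / 3) : ℝ) = y ^ (-(2 / 3) : ℝ) * y⁻¹ := by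
  rw [← Real.rpow_neg_one y, ← Real.rpow_add hy]; norm_num

theorem hl_step1 {x : ℝ} (hx : 1 ≤ x) :
    (x + 1) ^ (-(5 / 3) : ℝ) ≤ 3 / 2 * (x ^ (-(2 / 3) : ℝ) - (x + 1) ^ (-(2 / 3) : ℝ)) := by
  have h1 := hl_rat hx
  rw [hl_53 (by linarith)]
  linarith

theorem hl_step2 {x : ℝ} (hx : 1 ≤ x) :
    (x + 1) ^ (-(5 / 3) : ℝ) * Real.log (x + 1) ≤ 3 / 2 * (x ^ (-(2 / 3) : ℝ) * (Real.log x + 4)
      - (x + 1) ^ (-(2 / 3) : ℝ) * (Real.log (x + 1) + 4)) := by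
  have h1 := hl_rat hx
  have hx0 : 0 < x := by linarith
  have hy0 : 0 < x + 1 := by linarith
  rw [hl_53 hy0]
  have hlx : 0 ≤ Real.log x := Real.log_nonneg hx
  have h2 : Real.log (x + 1) - x⁻¹ ≤ Real.log x := by
    have h4 := Real.log_le_sub_one_of_pos (show 0 < (x + 1) / x by positivity)
    rw [Real.log_div hy0.ne' hx0.ne'] at h4
    have h5 : (x + 1) / x - 1 = x⁻¹ := by field_simp; ring
    linarith
  have hw : 0 < (x + 1) ^ (-(2 / 3) : ℝ) := Real.rpow_pos_of_pos hy0 _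
  set w := (x + 1) ^ (-(2 / 3) : ℝ) with hwd
  have h3 : w * (1 + 2 / 3 * (x + 1)⁻¹) * (Real.log (x + 1) - x⁻¹ + 4) ≤
      x ^ (-(2 / 3) : ℝ) * (Real.log x + 4) := by
    have hu : 0 < (x + 1)⁻¹ := by positivity
    calc w * (1 + 2 / 3 * (x + 1)⁻¹) * (Real.log (x + 1) - x⁻¹ + 4)
        ≤ w * (1 + 2 / 3 * (x + 1)⁻¹) * (Real.log x + 4) :=
          mul_le_mul_of_nonneg_left (by linarith) (by positivity)
      _ ≤ _ := mul_le_mul_of_nonneg_right h1 (by linarith)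
  have h4 : (1 + 2 / 3 * (x + 1)⁻¹) * (Real.log (x + 1) - x⁻¹ + 4) - (Real.log (x + 1) + 4) ≥
      2 / 3 * ((x + 1)⁻¹ * Real.log (x + 1)) := by
    have h5 : (1 + 2 / 3 * (x + 1)⁻¹) * (Real.log (x + 1) - x⁻¹ + 4) - (Real.log (x + 1) + 4)
        - 2 / 3 * ((x + 1)⁻¹ * Real.log (x + 1)) = (5 / 3) * (x - 1) / (x * (x + 1)) := by
      field_simp
      ring
    have h6 : 0 ≤ (5 / 3) * (x - 1) / (x * (x + 1)) := by
      apply div_nonneg
      · nlinarith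
      · positivity
    linarith
  have h7 := mul_le_mul_of_nonneg_left h4 hw.le
  nlinarith

theorem hl_tail (M : ℕ) (hM : 1 ≤ M) (N : ℕ) :
    ∑ k ∈ Finset.range N, (((k + M : ℕ) : ℝ) + 1) ^ (-(5 / 3) : ℝ) *
      (Real.log (((k + M : ℕ) : ℝ) + 1) + 1) ≤
    3 / 2 * ((M : ℝ) ^ (-(2 / 3) : ℝ) * (Real.log (M : ℝ) + 5) -
      ((N + M : ℕ) : ℝ) ^ (-(2 / 3) : ℝ) * (Real.log ((N + M : ℕ) : ℝ) + 5)) := by
  induction N with
  | zero => simp
  | succ N ih =>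
    rw [Finset.sum_range_succ]
    have h1 : (1 : ℝ) ≤ ((N + M : ℕ) : ℝ) := by exact_mod_cast (by omega : 1 ≤ N + M)
    have h2 := hl_step1 h1
    have h3 := hl_step2 h1
    have h4 : ((N + 1 + M : ℕ) : ℝ) = ((N + M : ℕ) : ℝ) + 1 := by push_cast; ring
    rw [h4]
    nlinarith

theorem hl_harm (M : ℕ) (hM : 1 ≤ M) :
    ∑ k ∈ Finset.range M, ((k : ℝ) + 1)⁻¹ ≤ 1 + Real.log (M : ℝ) := by
  induction M, hM using Nat.le_induction with
  | base => simp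
  | succ M hM ih =>
    rw [Finset.sum_range_succ]
    have hM0 : (0 : ℝ) < (M : ℝ) := by exact_mod_cast hM
    have h4 := Real.log_le_sub_one_of_pos (show 0 < (M : ℝ) / (M + 1) by positivity)
    rw [Real.log_div hM0.ne' (by positivity)] at h4
    have h5 : (M : ℝ) / (M + 1) - 1 = -((M : ℝ) + 1)⁻¹ := by field_simp; ring
    push_cast
    linarith

theorem hl_logsum (M : ℕ) (hM : 1 ≤ M) :
    |∑ k ∈ Finset.range M, Real.log ((k : ℝ) + 1) * ((k : ℝ) + 1)⁻¹ - Real.log (M : ℝ) ^ 2 / 2|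
      ≤ Real.log (M : ℝ) := by
  induction M, hM using Nat.le_induction with
  | base => simp
  | succ M hM ih =>
    rw [Finset.sum_range_succ]
    have hM0 : (0 : ℝ) < (M : ℝ) := by exact_mod_cast hM
    have hM1 : (1 : ℝ) ≤ (M : ℝ) := by exact_mod_cast hM
    have h4 := Real.log_le_sub_one_of_pos (show 0 < (M : ℝ) / (M + 1) by positivity)
    rw [Real.log_div hM0.ne' (by positivity)] at h4
    have h5 : (M : ℝ) / (M + 1) - 1 = -((M : ℝ) + 1)⁻¹ := by field_simp; ring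
    have h6 := Real.log_le_sub_one_of_pos (show 0 < ((M : ℝ) + 1) / M by positivity)
    rw [Real.log_div (by positivity) hM0.ne'] at h6
    have h7 : ((M : ℝ) + 1) / M - 1 = (M : ℝ)⁻¹ := by field_simp; ring
    push_cast
    have h8 : Real.log ((M : ℝ) + 1) ≤ (M : ℝ) := by
      have := Real.log_le_sub_one_of_pos (show (0 : ℝ) < (M : ℝ) + 1 by positivity)
      linarith
    have h9 : 0 ≤ Real.log ((M : ℝ) + 1) := Real.log_nonneg (by linarith)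
    generalize Real.log ((M : ℝ) + 1) = u at *
    generalize Real.log (M : ℝ) = v at *
    generalize ∑ k ∈ Finset.range M, Real.log ((k : ℝ) + 1) * ((k : ℝ) + 1)⁻¹ = S at *
    have hp1 : ((M : ℝ))⁻¹ - ((M : ℝ) + 1)⁻¹ = (M : ℝ)⁻¹ * ((M : ℝ) + 1)⁻¹ := by
      field_simp; ring
    have hp2 : (M : ℝ) * (M : ℝ)⁻¹ = 1 := mul_inv_cancel₀ hM0.ne'
    have hp3 : 0 < (M : ℝ)⁻¹ := by positivity
    have hp4 : 0 < ((M : ℝ) + 1)⁻¹ := by positivity
    have hp5 : (M : ℝ)⁻¹ ≤ 1 := inv_le_one_of_one_le₀ hM1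
    have hd1 : ((M : ℝ) + 1)⁻¹ ≤ u - v := by linarith
    have hd2 : u - v ≤ (M : ℝ)⁻¹ := by linarith
    have hd0 : 0 < u - v := by linarith
    have hd3 : (u - v) ^ 2 ≤ u - v := by nlinarith
    have k1 : u * ((M : ℝ) + 1)⁻¹ - (u ^ 2 / 2 - v ^ 2 / 2) ≤ u - v := by
      nlinarith
    have k2 : -(u - v) ≤ u * ((M : ℝ) + 1)⁻¹ - (u ^ 2 / 2 - v ^ 2 / 2) := by
      have e1 : u * (u - v - ((M : ℝ) + 1)⁻¹) ≤ u * ((M : ℝ)⁻¹ * ((M : ℝ) + 1)⁻¹) :=
        mul_le_mul_of_nonneg_left (by linarith) h9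
      have e2 : u * ((M : ℝ)⁻¹ * ((M : ℝ) + 1)⁻¹) ≤ (M : ℝ) * ((M : ℝ)⁻¹ * ((M : ℝ) + 1)⁻¹) :=
        mul_le_mul_of_nonneg_right h8 (by positivity)
      have e3 : (M : ℝ) * ((M : ℝ)⁻¹ * ((M : ℝ) + 1)⁻¹) = ((M : ℝ) + 1)⁻¹ := by
        rw [← mul_assoc, hp2, one_mul]
      nlinarith [sq_nonneg (u - v)]
    rw [abs_le] at ih ⊢
    constructor <;> linarith [ih.1, ih.2]

theorem hl_psum (M : ℕ) :
    ∑ k ∈ Finset.range M, ((k : ℝ) + 1) ^ (-(1 / 3) : ℝ) ≤ 3 / 2 * (M : ℝ) ^ (2 / 3 : ℝ) := by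
  induction M with
  | zero => simp
  | succ M ih =>
    rw [Finset.sum_range_succ]
    have hy : (0 : ℝ) < (M : ℝ) + 1 := by positivity
    have h1 := rpow_one_add_le_one_add_mul_self (s := -((M : ℝ) + 1)⁻¹)
      (by
        have : ((M : ℝ) + 1)⁻¹ ≤ 1 := inv_le_one_of_one_le₀ (by
          have : (0 : ℝ) ≤ (M : ℝ) := Nat.cast_nonneg _
          linarith)
        linarith) (p := 2 / 3) (by norm_num) (by norm_num)
    have h2 : (M : ℝ) ^ (2 / 3 : ℝ) =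
        ((M : ℝ) + 1) ^ (2 / 3 : ℝ) * (1 + -((M : ℝ) + 1)⁻¹) ^ (2 / 3 : ℝ) := by
      rw [← Real.mul_rpow hy.le]
      · congr 1; field_simp; ring
      · have : ((M : ℝ) + 1)⁻¹ ≤ 1 := inv_le_one_of_one_le₀ (by
          have : (0 : ℝ) ≤ (M : ℝ) := Nat.cast_nonneg _
          linarith)
        linarith
    have h3 : ((M : ℝ) + 1) ^ (-(1 / 3) : ℝ) = ((M : ℝ) + 1) ^ (2 / 3 : ℝ) * ((M : ℝ) + 1)⁻¹ := by
      rw [← Real.rpow_neg_one, ← Real.rpow_add hy]; norm_num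
    have h4 : 0 ≤ ((M : ℝ) + 1) ^ (2 / 3 : ℝ) := Real.rpow_nonneg hy.le _
    have h5 := mul_le_mul_of_nonneg_left h1 h4
    rw [← h2] at h5
    push_cast
    rw [h3]
    linarith

theorem hl_summ {p : ℝ} (hp : 1 < p) :
    Summable (fun m : ℕ => ((m : ℝ) + 1) ^ (-p) * (Real.log ((m : ℝ) + 1) + 1)) := by
  have h1 : Summable (fun m : ℕ => ((m : ℝ) + 1) ^ (-p + (p - 1) / 2)) := by
    have h2 := (summable_nat_add_iff 1).2
      (Real.summable_nat_rpow.2 (show -p + (p - 1) / 2 < -1 by linarith))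
    simpa using h2
  refine Summable.of_nonneg_of_le (fun m => ?_) (fun m => ?_) (h1.mul_left (((p - 1) / 2)⁻¹ + 1))
  · have : 0 ≤ Real.log ((m : ℝ) + 1) := Real.log_nonneg (by
      have : (0 : ℝ) ≤ (m : ℝ) := Nat.cast_nonneg _
      linarith)
    positivity
  · have hn : (1 : ℝ) ≤ (m : ℝ) + 1 := by
      have : (0 : ℝ) ≤ (m : ℝ) := Nat.cast_nonneg _
      linarith
    have hn0 : (0 : ℝ) < (m : ℝ) + 1 := by linarith
    have h3 := Real.log_le_rpow_div hn0.le (show 0 < (p - 1) / 2 by linarith)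
    have h4 : (1 : ℝ) ≤ ((m : ℝ) + 1) ^ ((p - 1) / 2) :=
      Real.one_le_rpow hn (by linarith)
    rw [Real.rpow_add hn0]
    have h5 : 0 < ((m : ℝ) + 1) ^ (-p) := Real.rpow_pos_of_pos hn0 _
    calc ((m : ℝ) + 1) ^ (-p) * (Real.log ((m : ℝ) + 1) + 1)
        ≤ ((m : ℝ) + 1) ^ (-p) * (((m : ℝ) + 1) ^ ((p - 1) / 2) / ((p - 1) / 2)
          + ((m : ℝ) + 1) ^ ((p - 1) / 2)) :=
          mul_le_mul_of_nonneg_left (by linarith) h5.le
      _ = _ := by ring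


/-! ## TARGETS (prove these) -/


/-- the source of the squared logarithm -/
theorem hlog (s ch K θ y : ℝ) (hs : 0 < s) (hK : 1 ≤ K) (hθ : θ < 2 / 3) (hy : 7 / 3 < y)
    (h X L : ℕ → ℝ)
    (hX : ∀ m : ℕ, |X m - s * ((m : ℝ) + 1) ^ (2 / 3 : ℝ)| ≤ K * ((m : ℝ) + 1) ^ θ)
    (hXl : ∀ m : ℕ, ((m : ℝ) + 1) ^ (2 / 3 : ℝ) ≤ K * X m)
    (hh : ∀ m : ℕ, |h m - ch * ((m : ℝ) + 1) ^ (-(7 / 3 : ℝ))| ≤ K * ((m : ℝ) + 1) ^ (-y))
    (hL : ∀ m : ℕ, |L m - Real.log ((m : ℝ) + 1)| ≤ K) :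
    ∃ c0 c1 K' : ℝ, 0 < K' ∧ ∀ t : ℝ, 0 < t → t ≤ 1 / 3 →
      Summable (fun m : ℕ => h m * L m * Real.exp (-(t * X m))) ∧
      |∑' m : ℕ, h m * L m * Real.exp (-(t * X m))
        - (c0 + c1 * t + 9 / 16 * ch * s ^ 2 * t ^ 2 * Real.log t ^ 2)|
        ≤ K' * t ^ 2 * |Real.log t| := by
  have hK0 : 0 < K := by linarith
  -- notation
  have hn0 : ∀ m : ℕ, (0 : ℝ) < (m : ℝ) + 1 := fun m => by positivity
  have hn1 : ∀ m : ℕ, (1 : ℝ) ≤ (m : ℝ) + 1 := fun m => by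
    have : (0 : ℝ) ≤ (m : ℝ) := Nat.cast_nonneg _
    linarith
  have hl0 : ∀ m : ℕ, 0 ≤ Real.log ((m : ℝ) + 1) := fun m => Real.log_nonneg (hn1 m)
  have hP0 : 0 ≤ |ch| := abs_nonneg _
  obtain ⟨H, hHd⟩ : ∃ H, H = |ch| + K := ⟨_, rfl⟩
  obtain ⟨A, hAd⟩ : ∃ A, A = s + K := ⟨_, rfl⟩
  have hH0 : 0 < H := by rw [hHd]; positivity
  have hA0 : 0 < A := by rw [hAd]; positivity
  have pw : ∀ (m : ℕ) (a : ℝ), 0 < ((m : ℝ) + 1) ^ a := fun m a => Real.rpow_pos_of_pos (hn0 m) _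
  have bh : ∀ m : ℕ, |h m| ≤ H * ((m : ℝ) + 1) ^ (-(7 / 3) : ℝ) := by
    intro m
    have h1 := hh m
    have h2 : ((m : ℝ) + 1) ^ (-y) ≤ ((m : ℝ) + 1) ^ (-(7 / 3) : ℝ) :=
      Real.rpow_le_rpow_of_exponent_le (hn1 m) (by linarith)
    have h3 : |h m| ≤ |ch * ((m : ℝ) + 1) ^ (-(7 / 3) : ℝ)|
        + |h m - ch * ((m : ℝ) + 1) ^ (-(7 / 3) : ℝ)| := by
      have := abs_add_le (ch * ((m : ℝ) + 1) ^ (-(7 / 3) : ℝ))
        (h m - ch * ((m : ℝ) + 1) ^ (-(7 / 3) : ℝ))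
      simpa using this
    rw [abs_mul, abs_of_pos (pw m _)] at h3
    have h4 := mul_le_mul_of_nonneg_left h2 hK0.le
    rw [hHd]
    linarith
  have bX : ∀ m : ℕ, X m ≤ A * ((m : ℝ) + 1) ^ (2 / 3 : ℝ) := by
    intro m
    have h1 := (abs_le.1 (hX m)).2
    have h2 : ((m : ℝ) + 1) ^ θ ≤ ((m : ℝ) + 1) ^ (2 / 3 : ℝ) :=
      Real.rpow_le_rpow_of_exponent_le (hn1 m) (by linarith)
    have h4 := mul_le_mul_of_nonneg_left h2 hK0.le
    rw [hAd]
    linarith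
  have bX0 : ∀ m : ℕ, 0 < X m := by
    intro m
    have h1 := hXl m
    have h2 := pw m (2 / 3)
    by_contra hc
    push Not at hc
    have := mul_nonneg hK0.le (neg_nonneg.2 hc)
    linarith
  have bL : ∀ m : ℕ, |L m| ≤ K * (Real.log ((m : ℝ) + 1) + 1) := by
    intro m
    have h1 := hL m
    have h2 : |L m| ≤ |Real.log ((m : ℝ) + 1)| + |L m - Real.log ((m : ℝ) + 1)| := by
      have := abs_add_le (Real.log ((m : ℝ) + 1)) (L m - Real.log ((m : ℝ) + 1))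
      simpa using this
    rw [abs_of_nonneg (hl0 m)] at h2
    have := mul_nonneg (sub_nonneg.2 hK) (hl0 m)
    linarith
  have bhL : ∀ m : ℕ, |h m * L m| ≤
      H * K * (((m : ℝ) + 1) ^ (-(7 / 3) : ℝ) * (Real.log ((m : ℝ) + 1) + 1)) := by
    intro m
    rw [abs_mul]
    calc |h m| * |L m| ≤ (H * ((m : ℝ) + 1) ^ (-(7 / 3) : ℝ)) *
          (K * (Real.log ((m : ℝ) + 1) + 1)) :=
          mul_le_mul (bh m) (bL m) (abs_nonneg _) (mul_nonneg hH0.le (pw m _).le)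
      _ = _ := by ring
  have e53 : ∀ m : ℕ, ((m : ℝ) + 1) ^ (-(7 / 3) : ℝ) * ((m : ℝ) + 1) ^ (2 / 3 : ℝ) =
      ((m : ℝ) + 1) ^ (-(5 / 3) : ℝ) := by
    intro m
    rw [← Real.rpow_add (hn0 m)]; norm_num
  have bhLX : ∀ m : ℕ, |h m * L m * X m| ≤
      H * K * A * (((m : ℝ) + 1) ^ (-(5 / 3) : ℝ) * (Real.log ((m : ℝ) + 1) + 1)) := by
    intro m
    rw [abs_mul, abs_of_pos (bX0 m)]
    have hq : 0 ≤ H * K * (((m : ℝ) + 1) ^ (-(7 / 3) : ℝ) * (Real.log ((m : ℝ) + 1) + 1)) := by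
      have := hl0 m
      have := pw m (-(7 / 3))
      positivity
    calc |h m * L m| * X m ≤
          (H * K * (((m : ℝ) + 1) ^ (-(7 / 3) : ℝ) * (Real.log ((m : ℝ) + 1) + 1))) *
          (A * ((m : ℝ) + 1) ^ (2 / 3 : ℝ)) :=
          mul_le_mul (bhL m) (bX m) (bX0 m).le hq
      _ = H * K * A * ((((m : ℝ) + 1) ^ (-(7 / 3) : ℝ) * ((m : ℝ) + 1) ^ (2 / 3 : ℝ)) *
          (Real.log ((m : ℝ) + 1) + 1)) := by ring
      _ = _ := by rw [e53 m]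
  have s1 : Summable (fun m : ℕ => h m * L m) :=
    Summable.of_norm_bounded ((hl_summ (p := 7 / 3) (by norm_num)).mul_left (H * K))
      (fun m => by rw [Real.norm_eq_abs]; exact bhL m)
  have s2 : Summable (fun m : ℕ => h m * L m * X m) :=
    Summable.of_norm_bounded ((hl_summ (p := 5 / 3) (by norm_num)).mul_left (H * K * A))
      (fun m => by rw [Real.norm_eq_abs]; exact bhLX m)
  have s3 : Summable (fun m : ℕ => ((m : ℝ) + 1) ^ (-(y - 4 / 3)) *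
      (Real.log ((m : ℝ) + 1) + 1)) := hl_summ (by linarith)
  have s4 : Summable (fun m : ℕ => ((m : ℝ) + 1) ^ (-(5 / 3 - θ)) *
      (Real.log ((m : ℝ) + 1) + 1)) := hl_summ (by linarith)
  obtain ⟨S2, hS2⟩ : ∃ S, S = ∑' m : ℕ, ((m : ℝ) + 1) ^ (-(y - 4 / 3)) *
      (Real.log ((m : ℝ) + 1) + 1) := ⟨_, rfl⟩
  obtain ⟨S3, hS3⟩ : ∃ S, S = ∑' m : ℕ, ((m : ℝ) + 1) ^ (-(5 / 3 - θ)) *
      (Real.log ((m : ℝ) + 1) + 1) := ⟨_, rfl⟩
  have hnn : ∀ (a : ℝ) (m : ℕ), 0 ≤ ((m : ℝ) + 1) ^ a * (Real.log ((m : ℝ) + 1) + 1) := by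
    intro a m
    have := hl0 m
    have := pw m a
    positivity
  have hS20 : 0 ≤ S2 := by rw [hS2]; exact tsum_nonneg (fun m => hnn _ m)
  have hS30 : 0 ≤ S3 := by rw [hS3]; exact tsum_nonneg (fun m => hnn _ m)
  refine ⟨∑' m, h m * L m, -∑' m, h m * L m * X m,
    (H * K * A ^ 2 / 2) * (5 / 2) + (K * A ^ 2 / 2) * S2 + |ch| * K * A * S3
      + |ch| * s ^ 3 * (9 / 4) + H * K * A * (39 / 2) + 3 / 2 * |ch| * s ^ 2 + 1,
    by positivity, ?_⟩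
  intro t ht ht3
  have s5 : Summable (fun m : ℕ => h m * L m * Real.exp (-(t * X m))) := by
    refine Summable.of_norm_bounded ((hl_summ (p := 7 / 3) (by norm_num)).mul_left (H * K))
      (fun m => ?_)
    rw [Real.norm_eq_abs, abs_mul, abs_of_pos (Real.exp_pos _)]
    have h1 : Real.exp (-(t * X m)) ≤ 1 :=
      Real.exp_le_one_iff.2 (neg_nonpos.2 (mul_pos ht (bX0 m)).le)
    calc |h m * L m| * Real.exp (-(t * X m)) ≤ |h m * L m| * 1 :=
          mul_le_mul_of_nonneg_left h1 (abs_nonneg _)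
      _ = |h m * L m| := mul_one _
      _ ≤ _ := bhL m
  refine ⟨s5, ?_⟩
  -- the remainder series
  have s6 : Summable (fun m : ℕ => h m * L m * hlG (t * X m)) := by
    have := (s5.sub s1).add (s2.mul_left t)
    refine this.congr (fun m => ?_)
    unfold hlG; ring
  have hdec : ∑' m : ℕ, h m * L m * Real.exp (-(t * X m)) =
      ∑' m, h m * L m - t * ∑' m, h m * L m * X m + ∑' m : ℕ, h m * L m * hlG (t * X m) := by
    rw [← tsum_mul_left, ← s1.tsum_sub (s2.mul_left t),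
      ← (s1.sub (s2.mul_left t)).tsum_add s6]
    apply tsum_congr
    intro m
    unfold hlG; ring
  -- the cutoff
  obtain ⟨N, hN⟩ : ∃ N : ℝ, N = t ^ (-(3 / 2) : ℝ) := ⟨_, rfl⟩
  have ht1 : t ≤ 1 := by linarith
  have hN1 : 1 ≤ N := by rw [hN]; exact Real.one_le_rpow_of_pos_of_le_one_of_nonpos ht ht1 (by norm_num)
  obtain ⟨M, hMd⟩ : ∃ M : ℕ, M = ⌊N⌋₊ := ⟨_, rfl⟩
  have hM1 : 1 ≤ M := by rw [hMd]; exact Nat.le_floor (by simpa using hN1)
  have hMN : (M : ℝ) ≤ N := by rw [hMd]; exact Nat.floor_le (by linarith)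
  have hMN2 : N < (M : ℝ) + 1 := by rw [hMd]; exact Nat.lt_floor_add_one _
  have hMr : (1 : ℝ) ≤ (M : ℝ) := by exact_mod_cast hM1
  have hM0 : (0 : ℝ) < (M : ℝ) := by linarith
  have hMN3 : N / 2 ≤ (M : ℝ) := by linarith
  have hN0 : 0 < N := by linarith
  obtain ⟨Lg, hLg⟩ : ∃ Lg, Lg = -Real.log t := ⟨_, rfl⟩
  have hLg1 : 1 ≤ Lg := by
    have h1 : Real.log t ≤ Real.log (1 / 3) := Real.log_le_log ht ht3
    have h2 : Real.log (1 / 3) = -Real.log 3 := by rw [one_div, Real.log_inv]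
    have h3 : (1 : ℝ) ≤ Real.log 3 := by
      rw [Real.le_log_iff_exp_le (by norm_num)]
      have := Real.exp_one_lt_d9
      linarith
    linarith
  have habs : |Real.log t| = Lg := by
    rw [abs_of_neg (by linarith), hLg]
  have hlN : Real.log N = 3 / 2 * Lg := by
    rw [hN, Real.log_rpow ht, hLg]; ring
  obtain ⟨lM, hlM⟩ : ∃ lM, lM = Real.log (M : ℝ) := ⟨_, rfl⟩
  have hlM0 : 0 ≤ lM := by rw [hlM]; exact Real.log_nonneg hMr
  have hlM1 : lM ≤ 3 / 2 * Lg := by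
    rw [hlM, ← hlN]; exact Real.log_le_log hM0 hMN
  have hlM2 : 3 / 2 * Lg - 1 ≤ lM := by
    have h1 : Real.log (N / 2) ≤ Real.log (M : ℝ) := Real.log_le_log (by linarith) hMN3
    rw [Real.log_div hN0.ne' (by norm_num), hlN] at h1
    have h2 : Real.log 2 ≤ 1 := by
      have := Real.log_two_lt_d9
      linarith
    rw [hlM]
    linarith
  have hN23 : N ^ (2 / 3 : ℝ) = t⁻¹ := by
    rw [hN, ← Real.rpow_mul ht.le, ← Real.rpow_neg_one]; norm_num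
  have hM23 : t * (M : ℝ) ^ (2 / 3 : ℝ) ≤ 1 := by
    have h1 : (M : ℝ) ^ (2 / 3 : ℝ) ≤ N ^ (2 / 3 : ℝ) :=
      Real.rpow_le_rpow hM0.le hMN (by norm_num)
    rw [hN23] at h1
    calc t * (M : ℝ) ^ (2 / 3 : ℝ) ≤ t * t⁻¹ := mul_le_mul_of_nonneg_left h1 ht.le
      _ = 1 := mul_inv_cancel₀ ht.ne'
  have hMm : (M : ℝ) ^ (-(2 / 3) : ℝ) ≤ 2 * t := by
    have h1 : (M : ℝ) ^ (-(2 / 3) : ℝ) ≤ (N / 2) ^ (-(2 / 3) : ℝ) :=
      Real.rpow_le_rpow_of_nonpos (by linarith) hMN3 (by norm_num)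
    have h2 : (N / 2) ^ (-(2 / 3) : ℝ) = t * 2 ^ (2 / 3 : ℝ) := by
      rw [Real.div_rpow hN0.le (by norm_num), Real.rpow_neg hN0.le, hN23, inv_inv,
        Real.rpow_neg (by norm_num)]
      field_simp
    have h3 : (2 : ℝ) ^ (2 / 3 : ℝ) ≤ 2 := by
      calc (2 : ℝ) ^ (2 / 3 : ℝ) ≤ 2 ^ (1 : ℝ) :=
            Real.rpow_le_rpow_of_exponent_le (by norm_num) (by norm_num)
        _ = 2 := by simp
    rw [h2] at h1
    have := mul_le_mul_of_nonneg_left h3 ht.le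
    linarith
  -- pointwise bounds below the cutoff
  have hpt : ∀ m : ℕ,
      |h m * L m * hlG (t * X m) - ch * s ^ 2 * t ^ 2 / 2 *
        (Real.log ((m : ℝ) + 1) * ((m : ℝ) + 1)⁻¹)| ≤
      (H * K * A ^ 2 / 2) * t ^ 2 * ((m : ℝ) + 1)⁻¹
      + (K * A ^ 2 / 2) * t ^ 2 * (((m : ℝ) + 1) ^ (-(y - 4 / 3)) * (Real.log ((m : ℝ) + 1) + 1))
      + |ch| * K * A * t ^ 2 * (((m : ℝ) + 1) ^ (-(5 / 3 - θ)) * (Real.log ((m : ℝ) + 1) + 1))
      + |ch| * s ^ 3 * t ^ 3 * (Real.log ((m : ℝ) + 1) * ((m : ℝ) + 1) ^ (-(1 / 3) : ℝ)) := by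
    intro m
    have n0 := hn0 m
    have l0 := hl0 m
    have x0 := (bX0 m).le
    have htX : 0 ≤ t * X m := mul_nonneg ht.le x0
    obtain ⟨q, hq⟩ : ∃ q, q = ((m : ℝ) + 1) ^ (2 / 3 : ℝ) := ⟨_, rfl⟩
    obtain ⟨w, hw⟩ : ∃ w, w = ((m : ℝ) + 1) ^ (-(7 / 3) : ℝ) := ⟨_, rfl⟩
    have q0 : 0 < q := by rw [hq]; exact pw m _
    have w0 : 0 < w := by rw [hw]; exact pw m _
    have hwq2 : w * q ^ 2 = ((m : ℝ) + 1)⁻¹ := by
      rw [hw, hq, ← Real.rpow_neg_one, ← Real.rpow_natCast, ← Real.rpow_mul n0.le,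
        ← Real.rpow_add n0]
      norm_num
    have hwq3 : w * q ^ 3 = ((m : ℝ) + 1) ^ (-(1 / 3) : ℝ) := by
      rw [hw, hq, ← Real.rpow_natCast, ← Real.rpow_mul n0.le, ← Real.rpow_add n0]
      norm_num
    have hyq2 : ((m : ℝ) + 1) ^ (-y) * q ^ 2 = ((m : ℝ) + 1) ^ (-(y - 4 / 3)) := by
      rw [hq, ← Real.rpow_natCast, ← Real.rpow_mul n0.le, ← Real.rpow_add n0]
      congr 1; push_cast; ring
    have hwqθ : w * (((m : ℝ) + 1) ^ θ * q) = ((m : ℝ) + 1) ^ (-(5 / 3 - θ)) := by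
      rw [hw, hq, ← Real.rpow_add n0, ← Real.rpow_add n0]
      congr 1; ring
    have bXm : X m ≤ A * q := by rw [hq]; exact bX m
    have bhm : |h m| ≤ H * w := by rw [hw]; exact bh m
    have hhm : |h m - ch * w| ≤ K * ((m : ℝ) + 1) ^ (-y) := by rw [hw]; exact hh m
    have hXm : |X m - s * q| ≤ K * ((m : ℝ) + 1) ^ θ := by rw [hq]; exact hX m
    have hLm := hL m
    have gX0 := hlG_nonneg (t * X m)
    have gX : hlG (t * X m) ≤ A ^ 2 / 2 * t ^ 2 * q ^ 2 := by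
      have h1 := hlG_le_sq htX
      have h2 : t * X m ≤ t * (A * q) := mul_le_mul_of_nonneg_left bXm ht.le
      have h3 : (t * X m) ^ 2 ≤ (t * (A * q)) ^ 2 := pow_le_pow_left₀ htX h2 2
      calc hlG (t * X m) ≤ (t * X m) ^ 2 / 2 := h1
        _ ≤ (t * (A * q)) ^ 2 / 2 := by linarith
        _ = _ := by ring
    have hz0 : 0 ≤ t * (s * q) := by positivity
    have gL : |hlG (t * X m) - hlG (t * (s * q))| ≤
        K * A * t ^ 2 * (((m : ℝ) + 1) ^ θ * q) := by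
      have h2 : t * X m ≤ t * (A * q) := mul_le_mul_of_nonneg_left bXm ht.le
      have h3 : t * (s * q) ≤ t * (A * q) :=
        mul_le_mul_of_nonneg_left (mul_le_mul_of_nonneg_right (by linarith) q0.le) ht.le
      have h4 := hlG_lip htX hz0 h2 h3
      have h5 : |t * X m - t * (s * q)| = t * |X m - s * q| := by
        rw [← mul_sub, abs_mul, abs_of_pos ht]
      rw [h5] at h4
      have h6 : t * |X m - s * q| * (t * (A * q)) ≤
          t * (K * ((m : ℝ) + 1) ^ θ) * (t * (A * q)) :=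
        mul_le_mul_of_nonneg_right (mul_le_mul_of_nonneg_left hXm ht.le) (by positivity)
      calc _ ≤ _ := h4
        _ ≤ _ := h6
        _ = _ := by ring
    have gS := hlG_sub hz0
    -- decomposition
    have hsplit : h m * L m * hlG (t * X m) - ch * s ^ 2 * t ^ 2 / 2 *
        (Real.log ((m : ℝ) + 1) * ((m : ℝ) + 1)⁻¹) =
        h m * (L m - Real.log ((m : ℝ) + 1)) * hlG (t * X m)
        + (h m - ch * w) * Real.log ((m : ℝ) + 1) * hlG (t * X m)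
        + ch * w * Real.log ((m : ℝ) + 1) * (hlG (t * X m) - hlG (t * (s * q)))
        + ch * w * Real.log ((m : ℝ) + 1) * (hlG (t * (s * q)) - (t * (s * q)) ^ 2 / 2) := by
      rw [← hwq2]; ring
    rw [hsplit]
    have E1 : |h m * (L m - Real.log ((m : ℝ) + 1)) * hlG (t * X m)| ≤
        (H * K * A ^ 2 / 2) * t ^ 2 * ((m : ℝ) + 1)⁻¹ := by
      rw [abs_mul, abs_mul, abs_of_nonneg gX0]
      calc |h m| * |L m - Real.log ((m : ℝ) + 1)| * hlG (t * X m)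
          ≤ (H * w) * K * (A ^ 2 / 2 * t ^ 2 * q ^ 2) :=
            mul_le_mul (mul_le_mul bhm hLm (abs_nonneg _) (by positivity)) gX gX0
              (by positivity)
        _ = (H * K * A ^ 2 / 2) * t ^ 2 * (w * q ^ 2) := by ring
        _ = _ := by rw [hwq2]
    have E2 : |(h m - ch * w) * Real.log ((m : ℝ) + 1) * hlG (t * X m)| ≤
        (K * A ^ 2 / 2) * t ^ 2 * (((m : ℝ) + 1) ^ (-(y - 4 / 3)) *
          (Real.log ((m : ℝ) + 1) + 1)) := by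
      have py := pw m (-y)
      rw [abs_mul, abs_mul, abs_of_nonneg gX0, abs_of_nonneg l0]
      calc |h m - ch * w| * Real.log ((m : ℝ) + 1) * hlG (t * X m)
          ≤ (K * ((m : ℝ) + 1) ^ (-y)) * (Real.log ((m : ℝ) + 1) + 1) *
            (A ^ 2 / 2 * t ^ 2 * q ^ 2) :=
            mul_le_mul (mul_le_mul hhm (by linarith) l0 (by positivity)) gX gX0
              (by positivity)
        _ = (K * A ^ 2 / 2) * t ^ 2 * ((((m : ℝ) + 1) ^ (-y) * q ^ 2) *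
            (Real.log ((m : ℝ) + 1) + 1)) := by ring
        _ = _ := by rw [hyq2]
    have E3 : |ch * w * Real.log ((m : ℝ) + 1) * (hlG (t * X m) - hlG (t * (s * q)))| ≤
        |ch| * K * A * t ^ 2 * (((m : ℝ) + 1) ^ (-(5 / 3 - θ)) *
          (Real.log ((m : ℝ) + 1) + 1)) := by
      have pθ := pw m θ
      rw [abs_mul, abs_mul, abs_mul, abs_of_nonneg l0, abs_of_pos w0]
      calc |ch| * w * Real.log ((m : ℝ) + 1) * |hlG (t * X m) - hlG (t * (s * q))|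
          ≤ |ch| * w * (Real.log ((m : ℝ) + 1) + 1) *
            (K * A * t ^ 2 * (((m : ℝ) + 1) ^ θ * q)) :=
            mul_le_mul (mul_le_mul_of_nonneg_left (by linarith) (by positivity)) gL
              (abs_nonneg _) (by positivity)
        _ = |ch| * K * A * t ^ 2 * ((w * (((m : ℝ) + 1) ^ θ * q)) *
            (Real.log ((m : ℝ) + 1) + 1)) := by ring
        _ = _ := by rw [hwqθ]
    have E4 : |ch * w * Real.log ((m : ℝ) + 1) *
        (hlG (t * (s * q)) - (t * (s * q)) ^ 2 / 2)| ≤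
        |ch| * s ^ 3 * t ^ 3 * (Real.log ((m : ℝ) + 1) * ((m : ℝ) + 1) ^ (-(1 / 3) : ℝ)) := by
      rw [abs_mul, abs_mul, abs_mul, abs_of_nonneg l0, abs_of_pos w0]
      calc |ch| * w * Real.log ((m : ℝ) + 1) * |hlG (t * (s * q)) - (t * (s * q)) ^ 2 / 2|
          ≤ |ch| * w * Real.log ((m : ℝ) + 1) * (t * (s * q)) ^ 3 :=
            mul_le_mul_of_nonneg_left gS (by positivity)
        _ = |ch| * s ^ 3 * t ^ 3 * (Real.log ((m : ℝ) + 1) * (w * q ^ 3)) := by ring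
        _ = _ := by rw [hwq3]
    calc _ ≤ |h m * (L m - Real.log ((m : ℝ) + 1)) * hlG (t * X m)|
        + |(h m - ch * w) * Real.log ((m : ℝ) + 1) * hlG (t * X m)|
        + |ch * w * Real.log ((m : ℝ) + 1) * (hlG (t * X m) - hlG (t * (s * q)))|
        + |ch * w * Real.log ((m : ℝ) + 1) * (hlG (t * (s * q)) - (t * (s * q)) ^ 2 / 2)| := by
          refine (abs_add_le _ _).trans (add_le_add_left ?_ _)
          refine (abs_add_le _ _).trans (add_le_add_left ?_ _)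
          exact abs_add_le _ _
      _ ≤ _ := by linarith
  -- the head
  have hhead : |∑ m ∈ Finset.range M, h m * L m * hlG (t * X m) - ch * s ^ 2 * t ^ 2 / 2 *
      ∑ m ∈ Finset.range M, (Real.log ((m : ℝ) + 1) * ((m : ℝ) + 1)⁻¹)| ≤
      (H * K * A ^ 2 / 2) * t ^ 2 * (1 + lM) + (K * A ^ 2 / 2) * t ^ 2 * S2
      + |ch| * K * A * t ^ 2 * S3
      + |ch| * s ^ 3 * t ^ 3 * (lM * (3 / 2 * (M : ℝ) ^ (2 / 3 : ℝ))) := by
    rw [Finset.mul_sum, ← Finset.sum_sub_distrib]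
    refine (Finset.abs_sum_le_sum_abs _ _).trans ?_
    refine (Finset.sum_le_sum (fun m _ => hpt m)).trans ?_
    rw [Finset.sum_add_distrib, Finset.sum_add_distrib, Finset.sum_add_distrib,
      ← Finset.mul_sum, ← Finset.mul_sum, ← Finset.mul_sum, ← Finset.mul_sum]
    have g1 := hl_harm M hM1
    have g2 : ∑ m ∈ Finset.range M, ((m : ℝ) + 1) ^ (-(y - 4 / 3)) *
        (Real.log ((m : ℝ) + 1) + 1) ≤ S2 := by
      rw [hS2]; exact s3.sum_le_tsum _ (fun m _ => hnn _ m)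
    have g3 : ∑ m ∈ Finset.range M, ((m : ℝ) + 1) ^ (-(5 / 3 - θ)) *
        (Real.log ((m : ℝ) + 1) + 1) ≤ S3 := by
      rw [hS3]; exact s4.sum_le_tsum _ (fun m _ => hnn _ m)
    have g4 : ∑ m ∈ Finset.range M, Real.log ((m : ℝ) + 1) * ((m : ℝ) + 1) ^ (-(1 / 3) : ℝ) ≤
        lM * (3 / 2 * (M : ℝ) ^ (2 / 3 : ℝ)) := by
      calc ∑ m ∈ Finset.range M, Real.log ((m : ℝ) + 1) * ((m : ℝ) + 1) ^ (-(1 / 3) : ℝ)
          ≤ ∑ m ∈ Finset.range M, lM * ((m : ℝ) + 1) ^ (-(1 / 3) : ℝ) := by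
            apply Finset.sum_le_sum
            intro m hm
            have hm1 : m + 1 ≤ M := Finset.mem_range.1 hm
            have hm2 : (m : ℝ) + 1 ≤ (M : ℝ) := by exact_mod_cast hm1
            apply mul_le_mul_of_nonneg_right _ (pw m _).le
            rw [hlM]
            exact Real.log_le_log (hn0 m) hm2
        _ = lM * ∑ m ∈ Finset.range M, ((m : ℝ) + 1) ^ (-(1 / 3) : ℝ) := by
            rw [Finset.mul_sum]
        _ ≤ _ := mul_le_mul_of_nonneg_left (hl_psum M) hlM0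
    rw [← hlM] at g1
    have k1 := mul_le_mul_of_nonneg_left g1 (show 0 ≤ (H * K * A ^ 2 / 2) * t ^ 2 by positivity)
    have k2 := mul_le_mul_of_nonneg_left g2 (show 0 ≤ (K * A ^ 2 / 2) * t ^ 2 by positivity)
    have k3 := mul_le_mul_of_nonneg_left g3 (show 0 ≤ |ch| * K * A * t ^ 2 by positivity)
    have k4 := mul_le_mul_of_nonneg_left g4 (show 0 ≤ |ch| * s ^ 3 * t ^ 3 by positivity)
    linarith
  -- the tail
  have htail : |∑' k : ℕ, h (k + M) * L (k + M) * hlG (t * X (k + M))| ≤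
      H * K * A * t * (3 / 2 * ((M : ℝ) ^ (-(2 / 3) : ℝ) * (lM + 5))) := by
    have s7 : Summable (fun k : ℕ => h (k + M) * L (k + M) * hlG (t * X (k + M))) :=
      (summable_nat_add_iff M).2 s6
    have h1 : |∑' k : ℕ, h (k + M) * L (k + M) * hlG (t * X (k + M))| ≤
        ∑' k : ℕ, |h (k + M) * L (k + M) * hlG (t * X (k + M))| := by
      have := norm_tsum_le_tsum_norm s7.norm
      simpa [Real.norm_eq_abs] using this
    refine h1.trans ?_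
    apply Real.tsum_le_of_sum_range_le (fun k => abs_nonneg _)
    intro N'
    have h2 := hl_tail M hM1 N'
    have h3 : 0 ≤ ((N' + M : ℕ) : ℝ) ^ (-(2 / 3) : ℝ) * (Real.log ((N' + M : ℕ) : ℝ) + 5) := by
      have : 0 ≤ Real.log ((N' + M : ℕ) : ℝ) := Real.log_nonneg (by
        exact_mod_cast (by omega : 1 ≤ N' + M))
      positivity
    have h4 : ∑ k ∈ Finset.range N', |h (k + M) * L (k + M) * hlG (t * X (k + M))| ≤
        H * K * A * t * ∑ k ∈ Finset.range N', (((k + M : ℕ) : ℝ) + 1) ^ (-(5 / 3) : ℝ) *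
      (Real.log (((k + M : ℕ) : ℝ) + 1) + 1) := by
      rw [Finset.mul_sum]
      apply Finset.sum_le_sum
      intro k _
      have x0 := (bX0 (k + M)).le
      have g0 := hlG_nonneg (t * X (k + M))
      have g1 := hlG_le (mul_nonneg ht.le x0)
      rw [abs_mul, abs_of_nonneg g0]
      have g2 := bhLX (k + M)
      rw [abs_mul, abs_of_nonneg x0] at g2
      calc |h (k + M) * L (k + M)| * hlG (t * X (k + M))
          ≤ |h (k + M) * L (k + M)| * (t * X (k + M)) :=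
            mul_le_mul_of_nonneg_left g1 (abs_nonneg _)
        _ = t * (|h (k + M) * L (k + M)| * X (k + M)) := by ring
        _ ≤ t * _ := mul_le_mul_of_nonneg_left g2 ht.le
        _ = _ := by ring
    rw [← hlM] at h2
    have h5 : ∑ k ∈ Finset.range N', (((k + M : ℕ) : ℝ) + 1) ^ (-(5 / 3) : ℝ) *
      (Real.log (((k + M : ℕ) : ℝ) + 1) + 1) ≤
        3 / 2 * ((M : ℝ) ^ (-(2 / 3) : ℝ) * (lM + 5)) := by linarith
    exact h4.trans (mul_le_mul_of_nonneg_left h5 (by positivity))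
  have hsum : ∑' m : ℕ, h m * L m * hlG (t * X m) =
      ∑ m ∈ Finset.range M, h m * L m * hlG (t * X m)
      + ∑' k : ℕ, h (k + M) * L (k + M) * hlG (t * X (k + M)) :=
    (s6.sum_add_tsum_nat_add M).symm
  have hlog := hl_logsum M hM1
  rw [← hlM] at hlog
  -- main term
  have hmain : |ch * s ^ 2 * t ^ 2 / 2 *
      ∑ m ∈ Finset.range M, (Real.log ((m : ℝ) + 1) * ((m : ℝ) + 1)⁻¹)
      - 9 / 16 * ch * s ^ 2 * t ^ 2 * Real.log t ^ 2| ≤ 3 / 2 * |ch| * s ^ 2 * t ^ 2 * Lg := by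
    have h1 : Real.log t ^ 2 = Lg ^ 2 := by rw [hLg]; ring
    rw [h1]
    generalize ∑ m ∈ Finset.range M, (Real.log ((m : ℝ) + 1) * ((m : ℝ) + 1)⁻¹) = Sg at *
    have h2 : ch * s ^ 2 * t ^ 2 / 2 * Sg - 9 / 16 * ch * s ^ 2 * t ^ 2 * Lg ^ 2 =
        ch * (s ^ 2 * t ^ 2 / 2 * ((Sg - lM ^ 2 / 2) + (lM ^ 2 / 2 - 9 / 8 * Lg ^ 2))) := by ring
    have h3 : |lM ^ 2 / 2 - 9 / 8 * Lg ^ 2| ≤ 3 / 2 * Lg := by
      rw [abs_le]
      constructor <;> nlinarith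
    have h4 : |(Sg - lM ^ 2 / 2) + (lM ^ 2 / 2 - 9 / 8 * Lg ^ 2)| ≤ 3 * Lg :=
      (abs_add_le _ _).trans (by linarith)
    rw [h2, abs_mul, abs_mul, abs_of_nonneg (show 0 ≤ s ^ 2 * t ^ 2 / 2 by positivity)]
    calc |ch| * (s ^ 2 * t ^ 2 / 2 * |(Sg - lM ^ 2 / 2) + (lM ^ 2 / 2 - 9 / 8 * Lg ^ 2)|)
        ≤ |ch| * (s ^ 2 * t ^ 2 / 2 * (3 * Lg)) := by gcongr
      _ = _ := by ring
  rw [hdec, hsum, habs]
  

  have hid : ∑' m, h m * L m - t * ∑' m, h m * L m * X m +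
      (∑ m ∈ Finset.range M, h m * L m * hlG (t * X m)
        + ∑' k : ℕ, h (k + M) * L (k + M) * hlG (t * X (k + M))) -
      (∑' m, h m * L m + -(∑' m, h m * L m * X m) * t +
        9 / 16 * ch * s ^ 2 * t ^ 2 * Real.log t ^ 2) =
      (∑ m ∈ Finset.range M, h m * L m * hlG (t * X m) - ch * s ^ 2 * t ^ 2 / 2 *
        ∑ m ∈ Finset.range M, (Real.log ((m : ℝ) + 1) * ((m : ℝ) + 1)⁻¹))
      + ∑' k : ℕ, h (k + M) * L (k + M) * hlG (t * X (k + M))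
      + (ch * s ^ 2 * t ^ 2 / 2 *
        ∑ m ∈ Finset.range M, (Real.log ((m : ℝ) + 1) * ((m : ℝ) + 1)⁻¹)
        - 9 / 16 * ch * s ^ 2 * t ^ 2 * Real.log t ^ 2) := by ring
  rw [hid]
  refine (abs_add_le _ _).trans ?_
  refine (add_le_add_left (abs_add_le _ _) _).trans ?_
  have t20 : 0 < t ^ 2 := by positivity
  -- bound each piece by constant * t^2 * Lg
  have c1 : (H * K * A ^ 2 / 2) * t ^ 2 * (1 + lM) ≤ (H * K * A ^ 2 / 2) * (5 / 2) * (t ^ 2 * Lg) := by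
    have : (1 + lM) ≤ 5 / 2 * Lg := by linarith
    calc (H * K * A ^ 2 / 2) * t ^ 2 * (1 + lM) ≤ (H * K * A ^ 2 / 2) * t ^ 2 * (5 / 2 * Lg) :=
          mul_le_mul_of_nonneg_left this (by positivity)
      _ = _ := by ring
  have hLL : t ^ 2 ≤ t ^ 2 * Lg := le_mul_of_one_le_right t20.le hLg1
  have c2 : (K * A ^ 2 / 2) * t ^ 2 * S2 ≤ (K * A ^ 2 / 2) * S2 * (t ^ 2 * Lg) := by
    calc (K * A ^ 2 / 2) * t ^ 2 * S2 = (K * A ^ 2 / 2) * S2 * t ^ 2 := by ring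
      _ ≤ _ := mul_le_mul_of_nonneg_left hLL (by positivity)
  have c3 : |ch| * K * A * t ^ 2 * S3 ≤ |ch| * K * A * S3 * (t ^ 2 * Lg) := by
    calc |ch| * K * A * t ^ 2 * S3 = |ch| * K * A * S3 * t ^ 2 := by ring
      _ ≤ _ := mul_le_mul_of_nonneg_left hLL (by positivity)
  have c4 : |ch| * s ^ 3 * t ^ 3 * (lM * (3 / 2 * (M : ℝ) ^ (2 / 3 : ℝ))) ≤
      |ch| * s ^ 3 * (9 / 4) * (t ^ 2 * Lg) := by
    calc |ch| * s ^ 3 * t ^ 3 * (lM * (3 / 2 * (M : ℝ) ^ (2 / 3 : ℝ)))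
        = |ch| * s ^ 3 * t ^ 2 * (3 / 2) * lM * (t * (M : ℝ) ^ (2 / 3 : ℝ)) := by ring
      _ ≤ |ch| * s ^ 3 * t ^ 2 * (3 / 2) * lM * 1 :=
          mul_le_mul_of_nonneg_left hM23 (by positivity)
      _ ≤ |ch| * s ^ 3 * t ^ 2 * (3 / 2) * (3 / 2 * Lg) := by
          rw [mul_one]
          exact mul_le_mul_of_nonneg_left hlM1 (by positivity)
      _ = _ := by ring
  have c5 : H * K * A * t * (3 / 2 * ((M : ℝ) ^ (-(2 / 3) : ℝ) * (lM + 5))) ≤
      H * K * A * (39 / 2) * (t ^ 2 * Lg) := by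
    have h5 : (M : ℝ) ^ (-(2 / 3) : ℝ) * (lM + 5) ≤ 2 * t * (13 / 2 * Lg) := by
      apply mul_le_mul hMm (by linarith) (by linarith) (by positivity)
    calc H * K * A * t * (3 / 2 * ((M : ℝ) ^ (-(2 / 3) : ℝ) * (lM + 5)))
        ≤ H * K * A * t * (3 / 2 * (2 * t * (13 / 2 * Lg))) :=
          mul_le_mul_of_nonneg_left (by linarith) (by positivity)
      _ = _ := by ring
  have c6 : 0 ≤ t ^ 2 * Lg := by positivity
  have goalrw : ((H * K * A ^ 2 / 2) * (5 / 2) + (K * A ^ 2 / 2) * S2 + |ch| * K * A * S3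
      + |ch| * s ^ 3 * (9 / 4) + H * K * A * (39 / 2) + 3 / 2 * |ch| * s ^ 2 + 1) * t ^ 2 * Lg =
      (H * K * A ^ 2 / 2) * (5 / 2) * (t ^ 2 * Lg) + (K * A ^ 2 / 2) * S2 * (t ^ 2 * Lg)
      + |ch| * K * A * S3 * (t ^ 2 * Lg) + |ch| * s ^ 3 * (9 / 4) * (t ^ 2 * Lg)
      + H * K * A * (39 / 2) * (t ^ 2 * Lg) + 3 / 2 * |ch| * s ^ 2 * t ^ 2 * Lg
      + t ^ 2 * Lg := by ring
  rw [goalrw]
  linarith


end Pool.Agent.FW
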