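import Pool.Agent.Helper155.FW.Defs

set_option autoImplicit false
open Filter Asymptotics Topology

namespace Pool.Agent.FW

/-! ## TARGETS (prove these) -/

/-- remainder bound for the exponential series -/
theorem tay_rem (k : ℕ) (hk : 1 ≤ k) (x : ℝ) (hx : 0 ≤ x) :
    |Real.exp (-x) - ∑ i ∈ Finset.range k, (-x) ^ i / (i.factorial : ℝ)| ≤ ((k : ℝ) + 3) * x ^ k ∧
    |Real.exp (-x) - ∑ i ∈ Finset.range k, (-x) ^ i / (i.factorial : ℝ)| ≤
      ((k : ℝ) + 3) * x ^ (k - 1) := by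
  obtain ⟨j, rfl⟩ : ∃ j, k = j + 1 := ⟨k - 1, by omega⟩
  rw [Nat.add_sub_cancel]
  have hj : (0 : ℝ) ≤ (j : ℝ) := Nat.cast_nonneg j
  have hk4 : (0 : ℝ) ≤ ((j + 1 : ℕ) : ℝ) + 3 := by positivity
  rcases le_total x 1 with h | h
  · have h1 : |-x| ≤ 1 := by rw [abs_neg, abs_of_nonneg hx]; exact h
    have h2 := Real.exp_bound h1 (n := j + 1) (by omega)
    have h3 : |Real.exp (-x) - ∑ i ∈ Finset.range (j + 1), (-x) ^ i / (i.factorial : ℝ)| ≤
        2 * x ^ (j + 1) := by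
      refine h2.trans ?_
      rw [abs_neg, abs_of_nonneg hx, mul_comm]
      refine mul_le_mul_of_nonneg_right ?_ (pow_nonneg hx _)
      have h4 : (1 : ℝ) ≤ ((j + 1).factorial : ℝ) := by exact_mod_cast Nat.factorial_pos _
      rw [div_le_iff₀ (by positivity)]
      have h5 : ((j + 1).succ : ℝ) = (j : ℝ) + 2 := by push_cast; ring
      rw [h5]
      push_cast
      have h6 : (j : ℝ) + 1 ≤ ((j + 1).factorial : ℝ) * ((j : ℝ) + 1) := by nlinarith
      nlinarith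
    have h4 : 0 ≤ x ^ (j + 1) := pow_nonneg hx _
    have h5 : x ^ (j + 1) ≤ x ^ j := pow_le_pow_of_le_one hx h (Nat.le_succ j)
    have h6 : 0 ≤ x ^ j := pow_nonneg hx _
    push_cast
    constructor
    · nlinarith
    · nlinarith
  · have hsum : |∑ i ∈ Finset.range (j + 1), (-x) ^ i / (i.factorial : ℝ)| ≤
        ((j : ℝ) + 1) * x ^ j := by
      refine (Finset.abs_sum_le_sum_abs _ _).trans ?_
      have h1 : ∀ i ∈ Finset.range (j + 1), |(-x) ^ i / (i.factorial : ℝ)| ≤ x ^ j := by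
        intro i hi
        have hi' : i ≤ j := by have := Finset.mem_range.1 hi; omega
        rw [abs_div, abs_pow, abs_neg, abs_of_nonneg hx]
        have h4 : (1 : ℝ) ≤ |(i.factorial : ℝ)| := by
          rw [Nat.abs_cast]
          exact_mod_cast Nat.factorial_pos _
        calc x ^ i / |(i.factorial : ℝ)| ≤ x ^ i / 1 :=
              div_le_div_of_nonneg_left (pow_nonneg hx _) one_pos h4
          _ = x ^ i := div_one _
          _ ≤ x ^ j := pow_le_pow_right₀ h hi'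
      have h2 := Finset.sum_le_sum h1
      rw [Finset.sum_const, Finset.card_range, nsmul_eq_mul] at h2
      push_cast at h2
      exact h2
    have hexp : |Real.exp (-x)| ≤ x ^ j := by
      rw [abs_of_pos (Real.exp_pos _)]
      calc Real.exp (-x) ≤ 1 := Real.exp_le_one_iff.2 (by linarith)
        _ ≤ x ^ j := one_le_pow₀ h
    have h3 : |Real.exp (-x) - ∑ i ∈ Finset.range (j + 1), (-x) ^ i / (i.factorial : ℝ)| ≤
        x ^ j + ((j : ℝ) + 1) * x ^ j := (abs_sub _ _).trans (add_le_add hexp hsum)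
    have h5 : x ^ j ≤ x ^ (j + 1) := pow_le_pow_right₀ h (Nat.le_succ j)
    have h6 : 0 ≤ x ^ j := pow_nonneg hx _
    push_cast
    constructor
    · nlinarith
    · nlinarith

/-- telescoping inequality -/
theorem tay_tel (n : ℝ) (hn : 1 < n) :
    n ^ (-(5 / 3) : ℝ) ≤ 3 / 2 * ((n - 1) ^ (-(2 / 3) : ℝ) - n ^ (-(2 / 3) : ℝ)) := by
  have hn0 : 0 < n := by linarith
  have h1 : (1 + (-(1 / n))) ^ (2 / 3 : ℝ) ≤ 1 + 2 / 3 * (-(1 / n)) := by
    refine rpow_one_add_le_one_add_mul_self ?_ (by norm_num) (by norm_num)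
    rw [neg_le_neg_iff, div_le_one hn0]
    exact hn.le
  have h2 : 1 / n < 1 := by rw [div_lt_one hn0]; exact hn
  have h3 : 0 < 1 + (-(1 / n)) := by linarith
  have h4 : 0 < (1 + (-(1 / n))) ^ (2 / 3 : ℝ) := Real.rpow_pos_of_pos h3 _
  have h5 : n - 1 = n * (1 + (-(1 / n))) := by field_simp; ring
  have h6 : (n - 1) ^ (-(2 / 3) : ℝ) = n ^ (-(2 / 3) : ℝ) * ((1 + (-(1 / n))) ^ (2 / 3 : ℝ))⁻¹ := by
    rw [h5, Real.mul_rpow hn0.le h3.le, Real.rpow_neg h3.le]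
  have h7 : n ^ (-(5 / 3) : ℝ) = n ^ (-(2 / 3) : ℝ) * (1 / n) := by
    rw [one_div, ← Real.rpow_neg_one n, ← Real.rpow_add hn0]
    norm_num
  rw [h6, h7]
  have h8 : 0 < n ^ (-(2 / 3) : ℝ) := Real.rpow_pos_of_pos hn0 _
  have h9 : 1 + 2 / 3 * (1 / n) ≤ ((1 + (-(1 / n))) ^ (2 / 3 : ℝ))⁻¹ := by
    rw [le_inv_comm₀ (by positivity) h4]
    refine h1.trans ?_
    rw [← one_div, le_div_iff₀ (by positivity)]
    have : 0 ≤ (1 / n) ^ 2 := sq_nonneg _
    nlinarith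
  nlinarith [mul_le_mul_of_nonneg_left h9 h8.le]

/-- tail sum -/
theorem tay_tail (N : ℕ) (hN : 1 ≤ N) :
    Summable (fun m : ℕ => (((m + N : ℕ) : ℝ) + 1) ^ (-(5 / 3) : ℝ)) ∧
    ∑' m : ℕ, (((m + N : ℕ) : ℝ) + 1) ^ (-(5 / 3) : ℝ) ≤ 3 / 2 * (N : ℝ) ^ (-(2 / 3) : ℝ) := by
  have hN' : (1 : ℝ) ≤ N := by exact_mod_cast hN
  have h0 : ∀ m : ℕ, 0 ≤ (((m + N : ℕ) : ℝ) + 1) ^ (-(5 / 3) : ℝ) := fun m => by positivity
  have h1 : ∀ L : ℕ, ∑ m ∈ Finset.range L, (((m + N : ℕ) : ℝ) + 1) ^ (-(5 / 3) : ℝ) ≤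
      3 / 2 * ((N : ℝ) ^ (-(2 / 3) : ℝ) - ((L + N : ℕ) : ℝ) ^ (-(2 / 3) : ℝ)) := by
    intro L
    induction L with
    | zero => simp
    | succ L ih =>
      rw [Finset.sum_range_succ]
      have h2 := tay_tel (((L + N : ℕ) : ℝ) + 1) (by push_cast; linarith [Nat.cast_nonneg (α := ℝ) L])
      rw [add_sub_cancel_right] at h2
      have h3 : ((L + 1 + N : ℕ) : ℝ) = ((L + N : ℕ) : ℝ) + 1 := by push_cast; ring
      rw [h3]
      linarith
  have h2 : ∀ L : ℕ, ∑ m ∈ Finset.range L, (((m + N : ℕ) : ℝ) + 1) ^ (-(5 / 3) : ℝ) ≤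
      3 / 2 * (N : ℝ) ^ (-(2 / 3) : ℝ) := by
    intro L
    refine (h1 L).trans ?_
    have : 0 ≤ ((L + N : ℕ) : ℝ) ^ (-(2 / 3) : ℝ) := by positivity
    linarith
  exact ⟨summable_of_sum_range_le h0 h2, Real.tsum_le_of_sum_range_le h0 h2⟩

/-- Taylor expansion of `∑ a_m exp(-t X_m)` to the borderline order -/
theorem tay (K : ℝ) (hK : 1 ≤ K) (k : ℕ) (hk : 1 ≤ k) (X a : ℕ → ℝ)
    (hXl : ∀ m : ℕ, ((m : ℝ) + 1) ^ (2 / 3 : ℝ) ≤ K * X m)
    (hXu : ∀ m : ℕ, X m ≤ K * ((m : ℝ) + 1) ^ (2 / 3 : ℝ))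
    (ha : ∀ m : ℕ, |a m| ≤ K * ((m : ℝ) + 1) ^ (-(1 + 2 * (k : ℝ) / 3))) :
    ∃ (c : ℕ → ℝ) (K' : ℝ), 0 < K' ∧ ∀ t : ℝ, 0 < t → t ≤ 1 / 3 →
      Summable (fun m : ℕ => a m * Real.exp (-(t * X m))) ∧
      |∑' m : ℕ, a m * Real.exp (-(t * X m)) - ∑ i ∈ Finset.range k, c i * t ^ i|
        ≤ K' * t ^ k * |Real.log t| := by
  have hK0 : 0 < K := by linarith
  have hm1 : ∀ m : ℕ, 0 < (m : ℝ) + 1 := fun m => by positivity
  have hX0 : ∀ m, 0 < X m := by
    intro m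
    have h1 := hXl m
    have h2 : 0 < ((m : ℝ) + 1) ^ (2 / 3 : ℝ) := Real.rpow_pos_of_pos (hm1 m) _
    by_contra h3
    push Not at h3
    nlinarith
  have hk' : (1 : ℝ) ≤ k := by exact_mod_cast hk
  have hXpow : ∀ (m i : ℕ), X m ^ i ≤ K ^ i * ((m : ℝ) + 1) ^ (2 / 3 * (i : ℝ)) := by
    intro m i
    have h1 := pow_le_pow_left₀ (hX0 m).le (hXu m) i
    rw [mul_pow] at h1
    refine h1.trans (le_of_eq ?_)
    rw [Real.rpow_mul (hm1 m).le, Real.rpow_natCast]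
  -- bounds for a_m X_m^i
  have haX : ∀ (m i : ℕ), |a m| * X m ^ i ≤
      K ^ (i + 1) * ((m : ℝ) + 1) ^ (-(1 + 2 * (k : ℝ) / 3) + 2 / 3 * (i : ℝ)) := by
    intro m i
    calc |a m| * X m ^ i ≤ (K * ((m : ℝ) + 1) ^ (-(1 + 2 * (k : ℝ) / 3))) *
          (K ^ i * ((m : ℝ) + 1) ^ (2 / 3 * (i : ℝ))) :=
          mul_le_mul (ha m) (hXpow m i) (pow_nonneg (hX0 m).le _) (by positivity)
      _ = K ^ (i + 1) * ((m : ℝ) + 1) ^ (-(1 + 2 * (k : ℝ) / 3) + 2 / 3 * (i : ℝ)) := by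
          rw [Real.rpow_add (hm1 m)]
          ring
  have hS53 : Summable fun m : ℕ => ((m : ℝ) + 1) ^ (-(5 / 3) : ℝ) := by
    have h1 : Summable fun n : ℕ => (n : ℝ) ^ (-(5 / 3) : ℝ) :=
      Real.summable_nat_rpow.2 (by norm_num)
    have h2 := (summable_nat_add_iff 1).2 h1
    refine h2.congr fun m => ?_
    push_cast
    rfl
  have hle53 : ∀ (m i : ℕ), i < k →
      ((m : ℝ) + 1) ^ (-(1 + 2 * (k : ℝ) / 3) + 2 / 3 * (i : ℝ)) ≤
        ((m : ℝ) + 1) ^ (-(5 / 3) : ℝ) := by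
    intro m i hi
    refine Real.rpow_le_rpow_of_exponent_le (by linarith [Nat.cast_nonneg (α := ℝ) m]) ?_
    have : (i : ℝ) + 1 ≤ k := by exact_mod_cast hi
    linarith
  have hsumi : ∀ i < k, Summable fun m : ℕ => a m * X m ^ i := by
    intro i hi
    refine Summable.of_norm_bounded (g := fun m : ℕ => K ^ (i + 1) * ((m : ℝ) + 1) ^ (-(5 / 3) : ℝ))
      (hS53.mul_left _) fun m => ?_
    rw [Real.norm_eq_abs, abs_mul, abs_of_nonneg (pow_nonneg (hX0 m).le i)]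
    exact (haX m i).trans (mul_le_mul_of_nonneg_left (hle53 m i hi) (by positivity))
  set c : ℕ → ℝ := fun i => (-1) ^ i / (i.factorial : ℝ) * ∑' m : ℕ, a m * X m ^ i with hc
  set C : ℝ := ((k : ℝ) + 3) * K ^ (k + 1) with hC
  have hC0 : 0 < C := by positivity
  refine ⟨c, 6 * C, by positivity, fun t ht ht3 => ?_⟩
  have hsumE : Summable (fun m : ℕ => a m * Real.exp (-(t * X m))) := by
    have h0 := hsumi 0 hk
    refine Summable.of_norm_bounded (g := fun m : ℕ => ‖a m * X m ^ 0‖) h0.norm fun m => ?_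
    rw [norm_mul, norm_mul, pow_zero, norm_one, Real.norm_of_nonneg (Real.exp_pos _).le]
    refine mul_le_mul_of_nonneg_left ?_ (norm_nonneg _)
    exact Real.exp_le_one_iff.2 (by nlinarith [hX0 m])
  refine ⟨hsumE, ?_⟩
  -- rewrite as a sum of remainders
  let R : ℕ → ℝ := fun m => Real.exp (-(t * X m)) -
    ∑ i ∈ Finset.range k, (-(t * X m)) ^ i / (i.factorial : ℝ)
  have hterm : ∀ m, a m * R m = a m * Real.exp (-(t * X m)) -
      ∑ i ∈ Finset.range k, ((-1) ^ i / (i.factorial : ℝ) * t ^ i) * (a m * X m ^ i) := by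
    intro m
    simp only [R]
    rw [mul_sub, Finset.mul_sum]
    congr 1
    refine Finset.sum_congr rfl fun i _ => ?_
    have : (-(t * X m)) ^ i = (-1) ^ i * t ^ i * X m ^ i := by
      rw [neg_pow, mul_pow]; ring
    rw [this]
    ring
  have hsumT : ∀ i ∈ Finset.range k, Summable fun m : ℕ =>
      ((-1) ^ i / (i.factorial : ℝ) * t ^ i) * (a m * X m ^ i) := fun i hi =>
    (hsumi i (Finset.mem_range.1 hi)).mul_left _
  have hsumR : Summable fun m => a m * R m := by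
    refine (hsumE.sub (summable_sum hsumT)).congr fun m => ?_
    rw [hterm m]
  have hdiff : ∑' m : ℕ, a m * Real.exp (-(t * X m)) - ∑ i ∈ Finset.range k, c i * t ^ i =
      ∑' m, a m * R m := by
    have h1 : ∑' m, a m * R m = ∑' m : ℕ, a m * Real.exp (-(t * X m)) -
        ∑' m : ℕ, ∑ i ∈ Finset.range k,
          ((-1) ^ i / (i.factorial : ℝ) * t ^ i) * (a m * X m ^ i) := by
      rw [← hsumE.tsum_sub (summable_sum hsumT)]
      exact tsum_congr hterm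
    rw [h1, Summable.tsum_finsetSum hsumT]
    congr 1
    refine Finset.sum_congr rfl fun i _ => ?_
    rw [tsum_mul_left, hc]
    ring
  rw [hdiff]
  -- two bounds
  have hb1 : ∀ m, |a m * R m| ≤ C * t ^ k * ((m : ℝ) + 1)⁻¹ := by
    intro m
    have h1 := (tay_rem k hk (t * X m) (mul_nonneg ht.le (hX0 m).le)).1
    rw [abs_mul]
    have h2 := haX m k
    have h3 : -(1 + 2 * (k : ℝ) / 3) + 2 / 3 * (k : ℝ) = -1 := by ring
    rw [h3, Real.rpow_neg_one] at h2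
    calc |a m| * |R m| ≤ |a m| * (((k : ℝ) + 3) * (t * X m) ^ k) :=
          mul_le_mul_of_nonneg_left h1 (abs_nonneg _)
      _ = ((k : ℝ) + 3) * t ^ k * (|a m| * X m ^ k) := by rw [mul_pow]; ring
      _ ≤ ((k : ℝ) + 3) * t ^ k * (K ^ (k + 1) * ((m : ℝ) + 1)⁻¹) :=
          mul_le_mul_of_nonneg_left h2 (by positivity)
      _ = C * t ^ k * ((m : ℝ) + 1)⁻¹ := by rw [hC]; ring
  have hb2 : ∀ m, |a m * R m| ≤ C * t ^ (k - 1) * ((m : ℝ) + 1) ^ (-(5 / 3) : ℝ) := by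
    intro m
    have h1 := (tay_rem k hk (t * X m) (mul_nonneg ht.le (hX0 m).le)).2
    rw [abs_mul]
    have h2 := (haX m (k - 1)).trans
      (mul_le_mul_of_nonneg_left (hle53 m (k - 1) (by omega)) (by positivity))
    have h4 : K ^ (k - 1 + 1) ≤ K ^ (k + 1) := pow_le_pow_right₀ hK (by omega)
    calc |a m| * |R m| ≤ |a m| * (((k : ℝ) + 3) * (t * X m) ^ (k - 1)) :=
          mul_le_mul_of_nonneg_left h1 (abs_nonneg _)
      _ = ((k : ℝ) + 3) * t ^ (k - 1) * (|a m| * X m ^ (k - 1)) := by rw [mul_pow]; ring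
      _ ≤ ((k : ℝ) + 3) * t ^ (k - 1) * (K ^ (k - 1 + 1) * ((m : ℝ) + 1) ^ (-(5 / 3) : ℝ)) :=
          mul_le_mul_of_nonneg_left h2 (by positivity)
      _ ≤ ((k : ℝ) + 3) * t ^ (k - 1) * (K ^ (k + 1) * ((m : ℝ) + 1) ^ (-(5 / 3) : ℝ)) :=
          mul_le_mul_of_nonneg_left (mul_le_mul_of_nonneg_right h4 (by positivity)) (by positivity)
      _ = C * t ^ (k - 1) * ((m : ℝ) + 1) ^ (-(5 / 3) : ℝ) := by rw [hC]; ring
  -- the threshold
  set N : ℕ := ⌈t ^ (-(3 / 2) : ℝ)⌉₊ with hN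
  have hT1 : 1 ≤ t ^ (-(3 / 2) : ℝ) :=
    Real.one_le_rpow_of_pos_of_le_one_of_nonpos ht (by linarith) (by norm_num)
  have hN1 : 1 ≤ N := Nat.one_le_ceil_iff.2 (by linarith)
  have hNge : t ^ (-(3 / 2) : ℝ) ≤ N := Nat.le_ceil _
  have hNle : (N : ℝ) ≤ 2 * t ^ (-(3 / 2) : ℝ) := by
    have := Nat.ceil_lt_add_one (show 0 ≤ t ^ (-(3 / 2) : ℝ) by linarith)
    linarith
  have hlog1 : 1 ≤ |Real.log t| := by
    have h1 : Real.log t ≤ Real.log (1 / 3) := Real.log_le_log ht ht3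
    have h2 : Real.log (1 / 3) ≤ -1 := by
      rw [Real.log_le_iff_le_exp (by norm_num), Real.exp_neg]
      rw [one_div, inv_le_inv₀ (by norm_num) (Real.exp_pos _)]
      linarith [Real.exp_one_lt_d9]
    rw [abs_of_nonpos (by linarith)]
    linarith
  have hlogN : Real.log N ≤ 1 + 3 / 2 * |Real.log t| := by
    have h1 : Real.log N ≤ Real.log (2 * t ^ (-(3 / 2) : ℝ)) :=
      Real.log_le_log (by exact_mod_cast hN1) hNle
    rw [Real.log_mul (by norm_num) (by positivity), Real.log_rpow ht] at h1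
    have h2 : Real.log t ≤ 0 := Real.log_nonpos ht.le (by linarith)
    rw [abs_of_nonpos h2]
    have h3 : Real.log 2 ≤ 1 := by linarith [Real.log_two_lt_d9]
    linarith
  have hN23 : (N : ℝ) ^ (-(2 / 3) : ℝ) ≤ t := by
    have h1 : (N : ℝ) ^ (-(2 / 3) : ℝ) ≤ (t ^ (-(3 / 2) : ℝ)) ^ (-(2 / 3) : ℝ) :=
      Real.rpow_le_rpow_of_nonpos (by linarith) hNge (by norm_num)
    rw [← Real.rpow_mul ht.le] at h1
    norm_num at h1
    convert h1 using 2
  -- split the sum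
  have habs : Summable fun m => |a m * R m| := hsumR.abs
  have h1 : |∑' m, a m * R m| ≤ ∑' m, |a m * R m| := by
    have := norm_tsum_le_tsum_norm (f := fun m => a m * R m) hsumR.norm
    simpa [Real.norm_eq_abs] using this
  have h2 := habs.sum_add_tsum_nat_add N
  have h3 : ∑ m ∈ Finset.range N, |a m * R m| ≤ C * t ^ k * (1 + Real.log N) := by
    have h4 : ∑ m ∈ Finset.range N, |a m * R m| ≤
        ∑ m ∈ Finset.range N, C * t ^ k * ((m : ℝ) + 1)⁻¹ := Finset.sum_le_sum fun m _ => hb1 m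
    refine h4.trans ?_
    rw [← Finset.mul_sum]
    refine mul_le_mul_of_nonneg_left ?_ (by positivity)
    have h5 := harmonic_le_one_add_log N
    have h6 : ((harmonic N : ℚ) : ℝ) = ∑ m ∈ Finset.range N, ((m : ℝ) + 1)⁻¹ := by
      simp [harmonic]
    rw [h6] at h5
    exact h5
  have h4 : ∑' m, |a (m + N) * R (m + N)| ≤ C * t ^ (k - 1) * (3 / 2 * t) := by
    obtain ⟨h5, h6⟩ := tay_tail N hN1
    have h7 : ∑' m, |a (m + N) * R (m + N)| ≤
        ∑' m : ℕ, C * t ^ (k - 1) * (((m + N : ℕ) : ℝ) + 1) ^ (-(5 / 3) : ℝ) :=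
      ((summable_nat_add_iff N).2 habs).tsum_le_tsum (fun m => hb2 (m + N)) (h5.mul_left _)
    rw [tsum_mul_left] at h7
    refine h7.trans (mul_le_mul_of_nonneg_left (h6.trans ?_) (by positivity))
    linarith
  have h5 : t ^ (k - 1) * t = t ^ k := by
    rw [← pow_succ]
    congr 1
    omega
  have htk : 0 < t ^ k := pow_pos ht _
  calc |∑' m, a m * R m| ≤ C * t ^ k * (1 + Real.log N) + C * t ^ (k - 1) * (3 / 2 * t) := by
        rw [← h2] at h1
        linarith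
    _ = C * t ^ k * (1 + Real.log N + 3 / 2) := by rw [← h5]; ring
    _ ≤ C * t ^ k * (6 * |Real.log t|) := by
        refine mul_le_mul_of_nonneg_left ?_ (by positivity)
        linarith
    _ = 6 * C * t ^ k * |Real.log t| := by ring


end Pool.Agent.FW
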