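import Pool.Agent.Helper155.FW.Defs
import Pool.Agent.Helper155.FW.HTAY
import Pool.Agent.Helper155.FW.HLOG
import Pool.Agent.Helper155.FW.H2c

set_option autoImplicit false
open Filter Asymptotics Topology

namespace Pool.Agent.FW

/-! ## AVAILABLE (proved by others; use freely) -/

/-! ### P1: algebra -/









/-! ### P2: shift and difference -/










/-! ## TARGETS (prove these) -/

theorem HFa_logdiff : PE 1 4 (fun n : ℕ => Real.log ((n : ℝ) + 1) - Real.log n) := by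
  have h1 : PE 1 4 (fun n : ℕ => (1 : ℝ) * (n : ℝ) ^ (-(1 : ℝ))) := PE.single 1 le_rfl
  have h2 : PE 1 4 (fun n : ℕ => (-1 / 2 : ℝ) * (n : ℝ) ^ (-(2 : ℝ))) :=
    PE.single _ (by norm_num)
  have h3 : PE 1 4 (fun n : ℕ => (1 / 3 : ℝ) * (n : ℝ) ^ (-(3 : ℝ))) := PE.single _ (by norm_num)
  have h4 : PE 1 4 (fun n : ℕ => (Real.log ((n : ℝ) + 1) - Real.log n) -
      ((1 : ℝ) * (n : ℝ) ^ (-(1 : ℝ)) + (-1 / 2 : ℝ) * (n : ℝ) ^ (-(2 : ℝ)) +
        (1 / 3 : ℝ) * (n : ℝ) ^ (-(3 : ℝ)))) := by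
    apply PE.of_isBigO
    refine IsBigO.of_bound 2 ?_
    filter_upwards [eventually_ge_atTop 2] with n hn
    have hn2 : (2 : ℝ) ≤ n := by exact_mod_cast hn
    have hn0 : (0 : ℝ) < n := by linarith
    have e1 : (n : ℝ) ^ (-(1 : ℝ)) = (n : ℝ)⁻¹ := Real.rpow_neg_one _
    have e2 : (n : ℝ) ^ (-(2 : ℝ)) = ((n : ℝ) ^ 2)⁻¹ := by
      rw [Real.rpow_neg hn0.le]; norm_cast
    have e3 : (n : ℝ) ^ (-(3 : ℝ)) = ((n : ℝ) ^ 3)⁻¹ := by
      rw [Real.rpow_neg hn0.le]; norm_cast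
    have e4 : (n : ℝ) ^ (-(4 : ℝ)) = ((n : ℝ) ^ 4)⁻¹ := by
      rw [Real.rpow_neg hn0.le]; norm_cast
    have hx : |(-((n : ℝ)⁻¹))| = (n : ℝ)⁻¹ := by rw [abs_neg, abs_of_pos (by positivity)]
    have hinv : (n : ℝ)⁻¹ ≤ 1 / 2 := by
      rw [inv_le_comm₀ hn0 (by norm_num)]
      norm_num
      exact_mod_cast hn
    have hx1 : |(-((n : ℝ)⁻¹))| < 1 := by rw [hx]; linarith
    have h5 := Real.abs_log_sub_add_sum_range_le hx1 3
    have h6 : Real.log ((n : ℝ) + 1) - Real.log n = Real.log (1 - -((n : ℝ)⁻¹)) := by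
      rw [← Real.log_div (by linarith) hn0.ne']
      congr 1
      field_simp
      ring
    rw [Real.norm_eq_abs, Real.norm_eq_abs, e1, e2, e3, e4, h6, abs_of_pos (a := ((n : ℝ) ^ 4)⁻¹)
      (by positivity)]
    rw [hx] at h5
    have h7 : Real.log (1 - -((n : ℝ)⁻¹)) - (1 * (n : ℝ)⁻¹ + -1 / 2 * ((n : ℝ) ^ 2)⁻¹ +
        1 / 3 * ((n : ℝ) ^ 3)⁻¹) = ∑ i ∈ Finset.range 3, (-((n : ℝ)⁻¹)) ^ (i + 1) / ((i : ℝ) + 1) +
          Real.log (1 - -((n : ℝ)⁻¹)) := by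
      rw [Finset.sum_range_succ, Finset.sum_range_succ, Finset.sum_range_succ,
        Finset.sum_range_zero]
      push_cast
      rw [← inv_pow, ← inv_pow]
      ring
    rw [h7]
    refine h5.trans ?_
    rw [div_le_iff₀ (by linarith), ← inv_pow]
    have h8 : 0 ≤ ((n : ℝ)⁻¹) ^ 4 := by positivity
    have h9 : ((n : ℝ)⁻¹) ^ (3 + 1) = ((n : ℝ)⁻¹) ^ 4 := rfl
    rw [h9]
    nlinarith
  exact (((h1.add h2).add h3).add h4).congr' (Eventually.of_forall fun n => by ring)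

theorem HFa_exp3 (u : ℝ) : |Real.exp u - (1 + u + u ^ 2 / 2)| ≤ |u| ^ 3 * Real.exp |u| := by
  have h1 := Complex.norm_exp_sub_sum_le_norm_mul_exp (u : ℂ) 3
  rw [Complex.norm_real, Real.norm_eq_abs] at h1
  refine le_trans (le_of_eq ?_) h1
  have h2 : Complex.exp (u : ℂ) - ∑ m ∈ Finset.range 3, (u : ℂ) ^ m / (m.factorial : ℂ) =
      ((Real.exp u - (1 + u + u ^ 2 / 2) : ℝ) : ℂ) := by
    rw [Finset.sum_range_succ, Finset.sum_range_succ, Finset.sum_range_succ,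
        Finset.sum_range_zero]
    push_cast [Nat.factorial]
    ring
  rw [h2, Complex.norm_real, Real.norm_eq_abs]

/-- absorbing a power -/
theorem HFa_absorb (S : Finset ℝ) (c d : ℝ → ℝ) (hd : ∀ x ∈ S, x ≤ 2 → d x = 0) (a x1 : ℝ) :
    ∃ (S' : Finset ℝ) (c' d' : ℝ → ℝ), (∀ x ∈ S', x ≤ 2 → d' x = 0) ∧
      ∀ t : ℝ, ∑ x ∈ S', (c' x + d' x * Real.log t) * t ^ x =
        ∑ x ∈ S, (c x + d x * Real.log t) * t ^ x + a * t ^ x1 := by
  classical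
  refine ⟨insert x1 S, fun x => (if x ∈ S then c x else 0) + (if x = x1 then a else 0),
    fun x => if x ∈ S then d x else 0, ?_, ?_⟩
  · intro x _ hx2
    simp only
    split_ifs with h
    · exact hd x h hx2
    · rfl
  · intro t
    have h1 : ∀ x ∈ insert x1 S, ((if x ∈ S then c x else 0) + (if x = x1 then a else 0) +
        (if x ∈ S then d x else 0) * Real.log t) * t ^ x =
        (if x ∈ S then (c x + d x * Real.log t) * t ^ x else 0) +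
          (if x = x1 then a * t ^ x1 else 0) := by
      intro x _
      by_cases h1 : x ∈ S <;> by_cases h2 : x = x1
      · rw [if_pos h1, if_pos h2, if_pos h1, if_pos h1, if_pos h2, h2]; ring
      · rw [if_pos h1, if_neg h2, if_pos h1, if_pos h1, if_neg h2]; ring
      · rw [if_neg h1, if_pos h2, if_neg h1, if_neg h1, if_pos h2, h2]; ring
      · rw [if_neg h1, if_neg h2, if_neg h1, if_neg h1, if_neg h2]; ring
    simp only
    rw [Finset.sum_congr rfl h1, Finset.sum_add_distrib, Finset.sum_ite_eq' (insert x1 S) x1,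
      if_pos (Finset.mem_insert_self _ _), ← Finset.sum_filter]
    congr 1
    apply Finset.sum_congr _ (fun _ _ => rfl)
    ext x
    rw [Finset.mem_filter, Finset.mem_insert]
    constructor
    · exact fun h => h.2
    · exact fun h => ⟨Or.inr h, h⟩

theorem HFa_rpow_le {z a b : ℝ} (hz : 1 ≤ z) (h : a ≤ b) : z ^ a ≤ z ^ b :=
  Real.rpow_le_rpow_of_exponent_le hz h

/-- the error term of the expansion of the exponential -/
theorem HFa_term (h X0 L lam t : ℝ) (ht : 0 ≤ t) (hL : 0 ≤ L) (hX : |lam| * L ≤ X0) :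
    |h * Real.exp (-(t * (X0 + lam * L))) - (h * Real.exp (-(t * X0)) -
      t * lam * (h * L * Real.exp (-(t * X0))) + t ^ 2 * lam ^ 2 / 2 * (h * L ^ 2))| ≤
      t ^ 3 * (|h| * (|lam| ^ 3 * L ^ 3 + lam ^ 2 / 2 * L ^ 2 * X0)) := by
  have hX0 : 0 ≤ X0 := le_trans (by positivity) hX
  obtain ⟨u, hu⟩ : ∃ u, u = -(t * lam * L) := ⟨_, rfl⟩
  have hau : |u| = t * |lam| * L := by
    rw [hu, abs_neg, abs_mul, abs_mul, abs_of_nonneg ht, abs_of_nonneg hL]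
  have e1 : Real.exp (-(t * (X0 + lam * L))) = Real.exp (-(t * X0)) * Real.exp u := by
    rw [← Real.exp_add, hu]; congr 1; ring
  have e2 : h * Real.exp (-(t * (X0 + lam * L))) - (h * Real.exp (-(t * X0)) -
      t * lam * (h * L * Real.exp (-(t * X0))) + t ^ 2 * lam ^ 2 / 2 * (h * L ^ 2)) =
      h * (Real.exp (-(t * X0)) * (Real.exp u - (1 + u + u ^ 2 / 2))) +
      h * (t ^ 2 * lam ^ 2 / 2 * L ^ 2) * (Real.exp (-(t * X0)) - 1) := by
    rw [e1, hu]; ring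
  rw [e2]
  have k1 : |h * (Real.exp (-(t * X0)) * (Real.exp u - (1 + u + u ^ 2 / 2)))| ≤
      |h| * (t ^ 3 * |lam| ^ 3 * L ^ 3) := by
    rw [abs_mul, abs_mul, abs_of_pos (Real.exp_pos _)]
    apply mul_le_mul_of_nonneg_left _ (abs_nonneg h)
    have h1 := mul_le_mul_of_nonneg_left (HFa_exp3 u) (Real.exp_pos (-(t * X0))).le
    refine h1.trans ?_
    have h2 : Real.exp (-(t * X0)) * (|u| ^ 3 * Real.exp |u|) =
        |u| ^ 3 * Real.exp (-(t * X0) + |u|) := by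
      rw [Real.exp_add]; ring
    rw [h2]
    have h3 : Real.exp (-(t * X0) + |u|) ≤ 1 := by
      rw [Real.exp_le_one_iff, hau]
      have := mul_le_mul_of_nonneg_left hX ht
      linarith
    calc |u| ^ 3 * Real.exp (-(t * X0) + |u|) ≤ |u| ^ 3 * 1 :=
          mul_le_mul_of_nonneg_left h3 (by positivity)
      _ = t ^ 3 * |lam| ^ 3 * L ^ 3 := by rw [hau]; ring
  have k2 : |h * (t ^ 2 * lam ^ 2 / 2 * L ^ 2) * (Real.exp (-(t * X0)) - 1)| ≤
      |h| * (t ^ 2 * lam ^ 2 / 2 * L ^ 2) * (t * X0) := by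
    rw [abs_mul, abs_mul, abs_of_nonneg (a := t ^ 2 * lam ^ 2 / 2 * L ^ 2) (by positivity)]
    apply mul_le_mul_of_nonneg_left _ (by positivity)
    have h1 := Real.add_one_le_exp (-(t * X0))
    have h2 : Real.exp (-(t * X0)) ≤ 1 := by
      rw [Real.exp_le_one_iff]
      have := mul_nonneg ht hX0
      linarith
    rw [abs_le]
    constructor
    · linarith
    · have := mul_nonneg ht hX0
      linarith
  refine (abs_add_le _ _).trans ((add_le_add k1 k2).trans (le_of_eq ?_))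
  ring

theorem HFa_log_ge {t : ℝ} (ht : 0 < t) (ht3 : t ≤ 1 / 3) : 1 ≤ |Real.log t| := by
  have h1 : Real.log t ≤ Real.log (1 / 3) := Real.log_le_log ht ht3
  have h2 : Real.log (1 / 3) = - Real.log 3 := by
    rw [one_div, Real.log_inv]
  have h3 : 1 ≤ Real.log 3 := by
    rw [Real.le_log_iff_exp_le (by norm_num)]
    have := Real.exp_one_lt_d9
    linarith
  rw [le_abs]
  right
  linarith

/-- the case of a logarithmic term in `X` -/
theorem F_lam (s ch x2 y1 K lam : ℝ) (hs : 0 < s) (h X : ℕ → ℝ) (hx2 : -(2 / 3) < x2)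
    (hX : PE x2 4 (fun n : ℕ => X n - s * (n : ℝ) ^ (2 / 3 : ℝ) - lam * Real.log n))
    (hy1 : 7 / 3 < y1)
    (hh : PE y1 5 (fun n : ℕ => h n - ch * (n : ℝ) ^ (-(7 / 3 : ℝ))))
    (hK : 1 ≤ K) (hXl : ∀ m : ℕ, ((m : ℝ) + 1) ^ (2 / 3 : ℝ) ≤ K * X m) :
    ∃ (S : Finset ℝ) (c d : ℝ → ℝ), (∀ x ∈ S, x ≤ 2 → d x = 0) ∧
      (fun t : ℝ => (∑' m : ℕ, h m * Real.exp (-(t * X m)))
          - ∑ x ∈ S, (c x + d x * Real.log t) * t ^ x
          + 3 / 4 * ch * s ^ 2 * t ^ 2 * Real.log t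
          + 9 / 16 * lam * ch * s ^ 2 * t ^ 3 * Real.log t ^ 2)
        =O[𝓝[>] 0] (fun t : ℝ => t ^ 3 * |Real.log t|) := by
  have hK0 : 0 < K := by linarith
  have hz1 : ∀ m : ℕ, (1 : ℝ) ≤ (m : ℝ) + 1 := fun m => by
    have : (0 : ℝ) ≤ m := Nat.cast_nonneg m
    linarith
  obtain ⟨M0, hM0⟩ : ∃ M0 : ℕ, ∀ m : ℕ, M0 ≤ m →
      |lam| * Real.log ((m : ℝ) + 1) ≤ ((m : ℝ) + 1) ^ (2 / 3 : ℝ) / (2 * K) := by
    have h1 := (isLittleO_log_rpow_atTop (by norm_num : (0 : ℝ) < 2 / 3))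
    have h2 := h1.bound (c := 1 / (2 * K * (|lam| + 1))) (by positivity)
    have h3 : Tendsto (fun m : ℕ => (m : ℝ) + 1) atTop atTop :=
      tendsto_atTop_add_const_right _ _ tendsto_natCast_atTop_atTop
    obtain ⟨M0, hM0⟩ := eventually_atTop.1 (h3.eventually h2)
    refine ⟨M0, fun m hm => ?_⟩
    have h4 := hM0 m hm
    have hz := hz1 m
    rw [Real.norm_eq_abs, Real.norm_eq_abs, abs_of_nonneg (Real.log_nonneg hz),
      abs_of_nonneg (a := ((m : ℝ) + 1) ^ (2 / 3 : ℝ)) (by positivity)] at h4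
    have h5 := mul_le_mul_of_nonneg_left h4 (abs_nonneg lam)
    refine h5.trans ?_
    have h6 : |lam| * (1 / (2 * K * (|lam| + 1)) * ((m : ℝ) + 1) ^ (2 / 3 : ℝ)) =
        (|lam| / (|lam| + 1)) * (((m : ℝ) + 1) ^ (2 / 3 : ℝ) / (2 * K)) := by
      field_simp
    rw [h6]
    have h7 : |lam| / (|lam| + 1) ≤ 1 := by
      rw [div_le_one (by positivity)]
      linarith
    have h8 : 0 ≤ ((m : ℝ) + 1) ^ (2 / 3 : ℝ) / (2 * K) := by positivity
    nlinarith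
  obtain ⟨L, hL⟩ : ∃ L : ℕ → ℝ, L = fun m => if m < M0 then 0 else Real.log ((m : ℝ) + 1) :=
    ⟨_, rfl⟩
  have hL0 : ∀ m, 0 ≤ L m := by
    intro m
    rw [hL]
    simp only
    split_ifs
    · exact le_rfl
    · exact Real.log_nonneg (hz1 m)
  have hL1 : ∀ m, L m ≤ Real.log ((m : ℝ) + 1) := by
    intro m
    rw [hL]
    simp only
    split_ifs
    · exact Real.log_nonneg (hz1 m)
    · exact le_rfl
  have hlamL : ∀ m, |lam| * L m ≤ ((m : ℝ) + 1) ^ (2 / 3 : ℝ) / (2 * K) := by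
    intro m
    rw [hL]
    simp only
    split_ifs with hm
    · rw [mul_zero]; positivity
    · exact hM0 m (by omega)
  obtain ⟨X0, hX0⟩ : ∃ X0 : ℕ → ℝ, X0 = fun m => X m - lam * L m := ⟨_, rfl⟩
  have hXX : ∀ m, X m = X0 m + lam * L m := fun m => by rw [hX0]; ring
  have hX0l : ∀ m : ℕ, ((m : ℝ) + 1) ^ (2 / 3 : ℝ) ≤ (2 * K) * X0 m := by
    intro m
    rw [hX0]
    simp only
    have h1 := hXl m
    have h2 := hlamL m
    rw [le_div_iff₀ (by positivity)] at h2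
    have h3 : lam * L m ≤ |lam| * L m := mul_le_mul_of_nonneg_right (le_abs_self lam) (hL0 m)
    have h4 := mul_le_mul_of_nonneg_right h3 (by positivity : (0 : ℝ) ≤ 2 * K)
    nlinarith
  have hlamX : ∀ m, |lam| * L m ≤ X0 m := by
    intro m
    refine (hlamL m).trans ?_
    rw [div_le_iff₀ (by positivity)]
    linarith [hX0l m]
  have hX0nn : ∀ m, 0 ≤ X0 m := fun m =>
    le_trans (mul_nonneg (abs_nonneg _) (hL0 m)) (hlamX m)
  have hX0PE : PE (min x2 1) 4 (fun n : ℕ => X0 n - s * (n : ℝ) ^ (2 / 3 : ℝ)) := by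
    have h1 : PE (min x2 1) 4 (fun n : ℕ => X n - s * (n : ℝ) ^ (2 / 3 : ℝ) -
        lam * Real.log n) := hX.mono (min_le_left _ _) le_rfl
    have h2 : PE (min x2 1) 4 (fun n : ℕ => (-lam) * (Real.log ((n : ℝ) + 1) - Real.log n)) :=
      (HFa_logdiff.smul (-lam)).mono (min_le_right _ _) le_rfl
    refine (h1.add h2).congr' ?_
    filter_upwards [eventually_ge_atTop M0] with n hn
    rw [hX0, hL]
    simp only
    rw [if_neg (by omega)]
    ring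
  obtain ⟨S0, c0, d0, hd0, hF0⟩ := F_expand s ch (min x2 1) y1 (2 * K) hs h X0
    (lt_min hx2 (by norm_num)) hX0PE hy1 hh (by linarith) hX0l
  -- bounds
  obtain ⟨Ka, hKa, hbX⟩ := hX0PE.bound (x := min x2 1) le_rfl
    ((min_le_right _ _).trans (by norm_num))
  obtain ⟨Kb, hKb, hbs⟩ := ((PE.single (x0 := -(2 / 3)) (Q := 4) (x := -(2 / 3)) s
    le_rfl).diff).bound (x := -(2 / 3) + 1) le_rfl (by norm_num)
  obtain ⟨Kc, hKc, hbh⟩ := hh.bound (x := min y1 5) (min_le_left _ _) (min_le_right _ _)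
  obtain ⟨Kd, hKd, hbc⟩ := ((PE.single (x0 := 7 / 3) (Q := 5) (x := 7 / 3) ch
    le_rfl).diff).bound (x := 7 / 3 + 1) le_rfl (by norm_num)
  have hlogM : 0 ≤ Real.log ((M0 : ℝ) + 1) := Real.log_nonneg (hz1 M0)
  obtain ⟨KK, hKK⟩ : ∃ KK, KK = Ka + Kb + Kc + Kd + 2 * K + Real.log ((M0 : ℝ) + 1) + 1 :=
    ⟨_, rfl⟩
  have hKK1 : 1 ≤ KK := by rw [hKK]; linarith
  have hKK0 : 0 < KK := by linarith
  obtain ⟨θ, hθ⟩ : ∃ θ, θ = max (-(min x2 1)) (-(1 / 3) : ℝ) := ⟨_, rfl⟩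
  have hθ2 : θ < 2 / 3 := by
    rw [hθ]
    apply max_lt
    · have : -(2 / 3) < min x2 1 := lt_min hx2 (by norm_num)
      linarith
    · norm_num
  obtain ⟨y, hy⟩ : ∃ y, y = min (min y1 5) (10 / 3 : ℝ) := ⟨_, rfl⟩
  have hy2 : 7 / 3 < y := by
    rw [hy]
    exact lt_min (lt_min hy1 (by norm_num)) (by norm_num)
  have hXb : ∀ m : ℕ, |X0 m - s * ((m : ℝ) + 1) ^ (2 / 3 : ℝ)| ≤ KK * ((m : ℝ) + 1) ^ θ := by
    intro m
    have h1 := hbX m
    have h2 := hbs m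
    have e1 : (-(-(2 / 3)) : ℝ) = 2 / 3 := by norm_num
    rw [e1] at h2
    push_cast at h2
    have h3 : |X0 m - s * ((m : ℝ) + 1) ^ (2 / 3 : ℝ)| ≤
        |X0 m - s * (m : ℝ) ^ (2 / 3 : ℝ)| +
          |s * ((m : ℝ) + 1) ^ (2 / 3 : ℝ) - s * (m : ℝ) ^ (2 / 3 : ℝ)| := by
      have : X0 m - s * ((m : ℝ) + 1) ^ (2 / 3 : ℝ) = (X0 m - s * (m : ℝ) ^ (2 / 3 : ℝ)) -
          (s * ((m : ℝ) + 1) ^ (2 / 3 : ℝ) - s * (m : ℝ) ^ (2 / 3 : ℝ)) := by ring
      rw [this]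
      exact abs_sub _ _
    have h4 : ((m : ℝ) + 1) ^ (-(min x2 1)) ≤ ((m : ℝ) + 1) ^ θ :=
      HFa_rpow_le (hz1 m) (by rw [hθ]; exact le_max_left _ _)
    have h5 : ((m : ℝ) + 1) ^ (-(-(2 / 3) + 1) : ℝ) ≤ ((m : ℝ) + 1) ^ θ :=
      HFa_rpow_le (hz1 m) (by
        rw [hθ]
        refine le_trans (le_of_eq (by norm_num)) (le_max_right _ _))
    have h6 := mul_le_mul_of_nonneg_left h4 hKa.le
    have h7 := mul_le_mul_of_nonneg_left h5 hKb.le
    have h8 : 0 ≤ ((m : ℝ) + 1) ^ θ := by positivity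
    have h9 : Ka + Kb ≤ KK := by rw [hKK]; linarith
    have h10 := mul_le_mul_of_nonneg_right h9 h8
    linarith
  have hhb : ∀ m : ℕ, |h m - ch * ((m : ℝ) + 1) ^ (-(7 / 3 : ℝ))| ≤
      KK * ((m : ℝ) + 1) ^ (-y) := by
    intro m
    have h1 := hbh m
    have h2 := hbc m
    push_cast at h2
    have h3 : |h m - ch * ((m : ℝ) + 1) ^ (-(7 / 3 : ℝ))| ≤
        |h m - ch * (m : ℝ) ^ (-(7 / 3 : ℝ))| +
          |ch * ((m : ℝ) + 1) ^ (-(7 / 3 : ℝ)) - ch * (m : ℝ) ^ (-(7 / 3 : ℝ))| := by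
      have : h m - ch * ((m : ℝ) + 1) ^ (-(7 / 3 : ℝ)) =
          (h m - ch * (m : ℝ) ^ (-(7 / 3 : ℝ))) -
          (ch * ((m : ℝ) + 1) ^ (-(7 / 3 : ℝ)) - ch * (m : ℝ) ^ (-(7 / 3 : ℝ))) := by ring
      rw [this]
      exact abs_sub _ _
    have h4 : ((m : ℝ) + 1) ^ (-(min y1 5)) ≤ ((m : ℝ) + 1) ^ (-y) :=
      HFa_rpow_le (hz1 m) (by rw [hy]; exact neg_le_neg (min_le_left _ _))
    have h5 : ((m : ℝ) + 1) ^ (-(7 / 3 + 1) : ℝ) ≤ ((m : ℝ) + 1) ^ (-y) :=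
      HFa_rpow_le (hz1 m) (by
        rw [hy]
        refine neg_le_neg ((min_le_right _ _).trans (le_of_eq (by norm_num))))
    have h6 := mul_le_mul_of_nonneg_left h4 hKc.le
    have h7 := mul_le_mul_of_nonneg_left h5 hKd.le
    have h8 : 0 ≤ ((m : ℝ) + 1) ^ (-y) := by positivity
    have h9 : Kc + Kd ≤ KK := by rw [hKK]; linarith
    have h10 := mul_le_mul_of_nonneg_right h9 h8
    linarith
  have hLb : ∀ m : ℕ, |L m - Real.log ((m : ℝ) + 1)| ≤ KK := by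
    intro m
    rw [hL]
    simp only
    split_ifs with hm
    · rw [zero_sub, abs_neg, abs_of_nonneg (Real.log_nonneg (hz1 m))]
      have h1 : Real.log ((m : ℝ) + 1) ≤ Real.log ((M0 : ℝ) + 1) := by
        apply Real.log_le_log (by linarith [hz1 m])
        have : (m : ℝ) ≤ M0 := by exact_mod_cast hm.le
        linarith
      rw [hKK]
      linarith
    · rw [sub_self, abs_zero]; exact hKK0.le
  have hX0l' : ∀ m : ℕ, ((m : ℝ) + 1) ^ (2 / 3 : ℝ) ≤ KK * X0 m := by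
    intro m
    refine (hX0l m).trans (mul_le_mul_of_nonneg_right ?_ (hX0nn m))
    rw [hKK]; linarith
  obtain ⟨e0, e1, K', hK', hG⟩ := hlog s ch KK θ y hs hKK1 hθ2 hy2 h X0 L hXb hX0l' hhb hLb
  -- the bound of h, L, X0
  have hhB : ∀ m : ℕ, |h m| ≤ (|ch| + KK) * ((m : ℝ) + 1) ^ (-(7 / 3 : ℝ)) := by
    intro m
    have h1 := hhb m
    have h2 : ((m : ℝ) + 1) ^ (-y) ≤ ((m : ℝ) + 1) ^ (-(7 / 3 : ℝ)) :=
      HFa_rpow_le (hz1 m) (by linarith)
    have h3 := mul_le_mul_of_nonneg_left h2 hKK0.le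
    have h4 : |h m| ≤ |h m - ch * ((m : ℝ) + 1) ^ (-(7 / 3 : ℝ))| +
        |ch * ((m : ℝ) + 1) ^ (-(7 / 3 : ℝ))| := by
      have : h m = (h m - ch * ((m : ℝ) + 1) ^ (-(7 / 3 : ℝ))) +
        ch * ((m : ℝ) + 1) ^ (-(7 / 3 : ℝ)) := by ring
      conv_lhs => rw [this]
      exact abs_add_le _ _
    rw [abs_mul, abs_of_nonneg (a := ((m : ℝ) + 1) ^ (-(7 / 3 : ℝ))) (by positivity)] at h4
    linarith
  have hLB : ∀ m : ℕ, L m ≤ 9 * ((m : ℝ) + 1) ^ (1 / 9 : ℝ) := by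
    intro m
    have h1 := Real.log_le_rpow_div (x := (m : ℝ) + 1) (by linarith [hz1 m])
      (by norm_num : (0 : ℝ) < 1 / 9)
    refine (hL1 m).trans (h1.trans (le_of_eq ?_))
    field_simp
  have hXB : ∀ m : ℕ, X0 m ≤ (s + KK) * ((m : ℝ) + 1) ^ (2 / 3 : ℝ) := by
    intro m
    have h1 := (abs_le.1 (hXb m)).2
    have h2 : ((m : ℝ) + 1) ^ θ ≤ ((m : ℝ) + 1) ^ (2 / 3 : ℝ) := HFa_rpow_le (hz1 m) hθ2.le
    have h3 := mul_le_mul_of_nonneg_left h2 hKK0.le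
    linarith
  obtain ⟨B, hB⟩ : ∃ B : ℕ → ℝ, B = fun m => |h m| * (|lam| ^ 3 * L m ^ 3 +
      lam ^ 2 / 2 * L m ^ 2 * X0 m) := ⟨_, rfl⟩
  obtain ⟨Ch, hCh⟩ : ∃ Ch, Ch = |ch| + KK := ⟨_, rfl⟩
  have hCh0 : 0 < Ch := by rw [hCh]; positivity
  have hsum9 : Summable (fun m : ℕ => ((m : ℝ) + 1) ^ (-(13 / 9) : ℝ)) := by
    have h1 : Summable (fun n : ℕ => (n : ℝ) ^ (-(13 / 9) : ℝ)) :=
      Real.summable_nat_rpow.2 (by norm_num)
    have h2 := (summable_nat_add_iff 1).2 h1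
    simpa using h2
  have hL2B : ∀ m : ℕ, L m ^ 2 ≤ 81 * ((m : ℝ) + 1) ^ (2 / 9 : ℝ) := by
    intro m
    have h1 := pow_le_pow_left₀ (hL0 m) (hLB m) 2
    refine h1.trans (le_of_eq ?_)
    rw [mul_pow, ← Real.rpow_natCast (((m : ℝ) + 1) ^ (1 / 9 : ℝ)) 2,
      ← Real.rpow_mul (by linarith [hz1 m])]
    norm_num
  have hL3B : ∀ m : ℕ, L m ^ 3 ≤ 729 * ((m : ℝ) + 1) ^ (1 / 3 : ℝ) := by
    intro m
    have h1 := pow_le_pow_left₀ (hL0 m) (hLB m) 3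
    refine h1.trans (le_of_eq ?_)
    rw [mul_pow, ← Real.rpow_natCast (((m : ℝ) + 1) ^ (1 / 9 : ℝ)) 3,
      ← Real.rpow_mul (by linarith [hz1 m])]
    norm_num
  have hBle : ∀ m : ℕ, B m ≤ (Ch * (|lam| ^ 3 * 729 + lam ^ 2 / 2 * 81 * (s + KK))) *
      ((m : ℝ) + 1) ^ (-(13 / 9) : ℝ) := by
    intro m
    have hz := hz1 m
    have hz0 : 0 < (m : ℝ) + 1 := by linarith
    rw [hB]
    simp only
    have h1 := hhB m
    rw [← hCh] at h1
    have q1 : ((m : ℝ) + 1) ^ (-(7 / 3 : ℝ)) * ((m : ℝ) + 1) ^ (1 / 3 : ℝ) ≤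
        ((m : ℝ) + 1) ^ (-(13 / 9) : ℝ) := by
      rw [← Real.rpow_add hz0]
      exact HFa_rpow_le hz (by norm_num)
    have q2 : ((m : ℝ) + 1) ^ (-(7 / 3 : ℝ)) * (((m : ℝ) + 1) ^ (2 / 9 : ℝ) *
        ((m : ℝ) + 1) ^ (2 / 3 : ℝ)) = ((m : ℝ) + 1) ^ (-(13 / 9) : ℝ) := by
      rw [← Real.rpow_add hz0, ← Real.rpow_add hz0]
      norm_num
    have h2 : |lam| ^ 3 * L m ^ 3 + lam ^ 2 / 2 * L m ^ 2 * X0 m ≤
        |lam| ^ 3 * (729 * ((m : ℝ) + 1) ^ (1 / 3 : ℝ)) +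
          lam ^ 2 / 2 * (81 * ((m : ℝ) + 1) ^ (2 / 9 : ℝ)) *
            ((s + KK) * ((m : ℝ) + 1) ^ (2 / 3 : ℝ)) := by
      apply add_le_add
      · exact mul_le_mul_of_nonneg_left (hL3B m) (by positivity)
      · apply mul_le_mul _ (hXB m) (hX0nn m) (by positivity)
        exact mul_le_mul_of_nonneg_left (hL2B m) (by positivity)
    have h3 : 0 ≤ |lam| ^ 3 * L m ^ 3 + lam ^ 2 / 2 * L m ^ 2 * X0 m := by
      have := hL0 m
      have := hX0nn m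
      positivity
    refine (mul_le_mul h1 h2 h3 (by positivity)).trans ?_
    have h4 : Ch * ((m : ℝ) + 1) ^ (-(7 / 3 : ℝ)) *
        (|lam| ^ 3 * (729 * ((m : ℝ) + 1) ^ (1 / 3 : ℝ)) +
          lam ^ 2 / 2 * (81 * ((m : ℝ) + 1) ^ (2 / 9 : ℝ)) *
            ((s + KK) * ((m : ℝ) + 1) ^ (2 / 3 : ℝ))) =
        Ch * (|lam| ^ 3 * 729) * (((m : ℝ) + 1) ^ (-(7 / 3 : ℝ)) *
          ((m : ℝ) + 1) ^ (1 / 3 : ℝ)) + Ch * (lam ^ 2 / 2 * 81 * (s + KK)) *
          (((m : ℝ) + 1) ^ (-(7 / 3 : ℝ)) * (((m : ℝ) + 1) ^ (2 / 9 : ℝ) *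
        ((m : ℝ) + 1) ^ (2 / 3 : ℝ))) := by ring
    rw [h4, q2]
    have h5 := mul_le_mul_of_nonneg_left q1 (by positivity : 0 ≤ Ch * (|lam| ^ 3 * 729))
    refine (add_le_add h5 le_rfl).trans (le_of_eq ?_)
    ring
  have hB0 : ∀ m, 0 ≤ B m := by
    intro m
    rw [hB]
    have := hL0 m
    have := hX0nn m
    simp only
    positivity
  have hBs : Summable B :=
    Summable.of_nonneg_of_le hB0 hBle (hsum9.mul_left _)
  have hhs : Summable (fun m => |h m|) := by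
    refine Summable.of_nonneg_of_le (fun m => abs_nonneg _) (fun m => ?_) (hsum9.mul_left Ch)
    refine (hhB m).trans ?_
    rw [← hCh]
    exact mul_le_mul_of_nonneg_left (HFa_rpow_le (hz1 m) (by norm_num)) hCh0.le
  have hL2s : Summable (fun m => h m * L m ^ 2) := by
    refine Summable.of_norm_bounded (hsum9.mul_left (Ch * 81)) (fun m => ?_)
    rw [Real.norm_eq_abs, abs_mul, abs_of_nonneg (a := L m ^ 2) (by positivity)]
    have h1 := hhB m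
    rw [← hCh] at h1
    refine (mul_le_mul h1 (hL2B m) (by positivity) (by positivity)).trans ?_
    have h2 : Ch * ((m : ℝ) + 1) ^ (-(7 / 3 : ℝ)) * (81 * ((m : ℝ) + 1) ^ (2 / 9 : ℝ)) =
        Ch * 81 * (((m : ℝ) + 1) ^ (-(7 / 3 : ℝ)) * ((m : ℝ) + 1) ^ (2 / 9 : ℝ)) := by ring
    rw [h2, ← Real.rpow_add (by linarith [hz1 m])]
    exact mul_le_mul_of_nonneg_left (HFa_rpow_le (hz1 m) (by norm_num)) (by positivity)
  obtain ⟨P, hP⟩ : ∃ P, P = ∑' m, h m * L m ^ 2 := ⟨_, rfl⟩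
  obtain ⟨TB, hTB⟩ : ∃ TB, TB = ∑' m, B m := ⟨_, rfl⟩
  have hTB0 : 0 ≤ TB := by rw [hTB]; exact tsum_nonneg hB0
  -- main decomposition
  have hmain : ∀ t : ℝ, 0 < t → t ≤ 1 / 3 →
      |(∑' m, h m * Real.exp (-(t * X m))) - ((∑' m, h m * Real.exp (-(t * X0 m))) -
        t * lam * (∑' m, h m * L m * Real.exp (-(t * X0 m))) +
          t ^ 2 * lam ^ 2 / 2 * P)| ≤ t ^ 3 * TB := by
    intro t ht ht3
    have s1 : Summable (fun m => h m * Real.exp (-(t * X0 m))) := by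
      refine Summable.of_norm_bounded hhs (fun m => ?_)
      rw [Real.norm_eq_abs, abs_mul, abs_of_pos (Real.exp_pos _)]
      have : Real.exp (-(t * X0 m)) ≤ 1 := by
        rw [Real.exp_le_one_iff]
        have := mul_nonneg ht.le (hX0nn m)
        linarith
      exact mul_le_of_le_one_right (abs_nonneg _) this
    have s2 := (hG t ht ht3).1
    obtain ⟨Dm, hDm⟩ : ∃ Dm : ℕ → ℝ, Dm = fun m => h m * Real.exp (-(t * X m)) -
        (h m * Real.exp (-(t * X0 m)) - t * lam * (h m * L m * Real.exp (-(t * X0 m))) +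
          t ^ 2 * lam ^ 2 / 2 * (h m * L m ^ 2)) := ⟨_, rfl⟩
    have hDb : ∀ m, ‖Dm m‖ ≤ t ^ 3 * B m := by
      intro m
      rw [hDm, hB, Real.norm_eq_abs]
      simp only
      rw [hXX m]
      exact HFa_term (h m) (X0 m) (L m) lam t ht.le (hL0 m) (hlamX m)
    have s3 : Summable Dm := Summable.of_norm_bounded (hBs.mul_left (t ^ 3)) hDb
    have hs := ((s3.hasSum.add s1.hasSum).sub (s2.hasSum.mul_left (t * lam))).add
      (hL2s.hasSum.mul_left (t ^ 2 * lam ^ 2 / 2))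
    have hfun : (fun m => Dm m + h m * Real.exp (-(t * X0 m)) -
        t * lam * (h m * L m * Real.exp (-(t * X0 m))) +
          t ^ 2 * lam ^ 2 / 2 * (h m * L m ^ 2)) = fun m => h m * Real.exp (-(t * X m)) := by
      funext m
      rw [hDm]
      ring
    rw [hfun] at hs
    rw [hs.tsum_eq, ← hP]
    have e5 : (∑' m, Dm m) + (∑' m, h m * Real.exp (-(t * X0 m))) -
        t * lam * (∑' m, h m * L m * Real.exp (-(t * X0 m))) + t ^ 2 * lam ^ 2 / 2 * P -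
        ((∑' m, h m * Real.exp (-(t * X0 m))) -
        t * lam * (∑' m, h m * L m * Real.exp (-(t * X0 m))) +
          t ^ 2 * lam ^ 2 / 2 * P) = ∑' m, Dm m := by ring
    rw [e5]
    have h9 := tsum_of_norm_bounded (hBs.hasSum.mul_left (t ^ 3)) hDb
    rw [← hTB, Real.norm_eq_abs] at h9
    exact h9
  obtain ⟨S1, c1, d1, hd1, hA1⟩ := HFa_absorb S0 c0 d0 hd0 (-(lam * e0)) 1
  obtain ⟨S2, c2, d2, hd2, hA2⟩ := HFa_absorb S1 c1 d1 hd1 (-(lam * e1) + lam ^ 2 / 2 * P) 2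
  refine ⟨S2, c2, d2, hd2, ?_⟩
  have hnear : ∀ᶠ t : ℝ in 𝓝[>] 0, 0 < t ∧ t ≤ 1 / 3 := by
    have h1 : Set.Ioc (0 : ℝ) (1 / 3) ∈ 𝓝[>] (0 : ℝ) := Ioc_mem_nhdsGT (by norm_num)
    filter_upwards [h1] with t ht using ht
  have hO1 : (fun t : ℝ => (∑' m, h m * Real.exp (-(t * X m))) -
      ((∑' m, h m * Real.exp (-(t * X0 m))) -
        t * lam * (∑' m, h m * L m * Real.exp (-(t * X0 m))) +
          t ^ 2 * lam ^ 2 / 2 * P)) =O[𝓝[>] 0] (fun t : ℝ => t ^ 3 * |Real.log t|) := by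
    refine IsBigO.of_bound TB ?_
    filter_upwards [hnear] with t ht
    rw [Real.norm_eq_abs, Real.norm_eq_abs, abs_of_nonneg (a := t ^ 3 * |Real.log t|)
      (mul_nonneg (pow_nonneg ht.1.le 3) (abs_nonneg _))]
    refine (hmain t ht.1 ht.2).trans ?_
    have h1 := HFa_log_ge ht.1 ht.2
    have h2 : 0 ≤ t ^ 3 * TB := mul_nonneg (pow_nonneg ht.1.le 3) hTB0
    nlinarith
  have hO2 : (fun t : ℝ => (∑' m : ℕ, h m * Real.exp (-(t * X0 m))) -
      ∑ x ∈ S0, (c0 x + d0 x * Real.log t) * t ^ x + 3 / 4 * ch * s ^ 2 * t ^ 2 * Real.log t)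
        =O[𝓝[>] 0] (fun t : ℝ => t ^ 3 * |Real.log t|) := by
    refine hF0.trans (IsBigO.of_bound 1 ?_)
    filter_upwards [hnear] with t ht
    have e6 : t ^ (5 : ℝ) = t ^ 5 := by exact_mod_cast Real.rpow_natCast t 5
    have ht0 := ht.1
    rw [e6, Real.norm_eq_abs, Real.norm_eq_abs, abs_of_nonneg (a := t ^ 5 * |Real.log t|)
      (by positivity), abs_of_nonneg (a := t ^ 3 * |Real.log t|) (by positivity), one_mul]
    apply mul_le_mul_of_nonneg_right _ (abs_nonneg _)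
    apply pow_le_pow_of_le_one ht.1.le (by linarith [ht.2]) (by norm_num)
  have hO3 : (fun t : ℝ => -(t * lam) * ((∑' m, h m * L m * Real.exp (-(t * X0 m))) -
      (e0 + e1 * t + 9 / 16 * ch * s ^ 2 * t ^ 2 * Real.log t ^ 2)))
        =O[𝓝[>] 0] (fun t : ℝ => t ^ 3 * |Real.log t|) := by
    refine IsBigO.of_bound (|lam| * K') ?_
    filter_upwards [hnear] with t ht
    have ht0 := ht.1
    rw [Real.norm_eq_abs, Real.norm_eq_abs, abs_of_nonneg (a := t ^ 3 * |Real.log t|)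
      (by positivity), abs_mul, abs_neg, abs_mul, abs_of_pos ht.1]
    have h1 := (hG t ht.1 ht.2).2
    have h2 := mul_le_mul_of_nonneg_left h1 (by positivity : 0 ≤ t * |lam|)
    refine h2.trans (le_of_eq ?_)
    ring
  refine (hO1.add (hO2.add hO3)).congr' ?_ EventuallyEq.rfl
  filter_upwards [hnear] with t ht
  have ht0 := ht.1
  rw [hA2 t, hA1 t]
  have e7 : t ^ (1 : ℝ) = t := Real.rpow_one t
  have e8 : t ^ (2 : ℝ) = t ^ 2 := by exact_mod_cast Real.rpow_natCast t 2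
  rw [e7, e8]
  ring


end Pool.Agent.FW
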