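import Pool.Agent.Helper155.FW.Defs

set_option autoImplicit false
open Filter Asymptotics Topology

namespace Pool.Agent.FW

/-! ## TARGETS (prove these) -/

theorem LX.congr' {r d3 E : ℝ} {f g : ℝ → ℝ} (hf : LX r d3 E f) (h : f =ᶠ[𝓝[>] 0] g) :
    LX r d3 E g := by
  obtain ⟨S, c, d, hd, hO⟩ := hf
  refine ⟨S, c, d, hd, hO.congr' ?_ EventuallyEq.rfl⟩
  filter_upwards [h] with t ht
  rw [ht]

theorem LX.add {r d3 E d3' E' : ℝ} {f g : ℝ → ℝ} (hf : LX r d3 E f) (hg : LX r d3' E' g) :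
    LX r (d3 + d3') (E + E') (fun t => f t + g t) := by
  classical
  obtain ⟨S, c, d, hd, hO⟩ := hf
  obtain ⟨S', c', d', hd', hO'⟩ := hg
  refine ⟨S ∪ S', fun x => (if x ∈ S then c x else 0) + (if x ∈ S' then c' x else 0),
    fun x => (if x ∈ S then d x else 0) + (if x ∈ S' then d' x else 0), ?_, ?_⟩
  · intro x _ hx3
    have h1 : (if x ∈ S then d x else 0) = 0 := by
      split_ifs with h
      · exact hd x h hx3
      · rfl
    have h2 : (if x ∈ S' then d' x else 0) = 0 := by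
      split_ifs with h
      · exact hd' x h hx3
      · rfl
    simp only [h1, h2, add_zero]
  · refine (hO.add hO').congr_left ?_
    intro t
    have e : ∑ x ∈ S ∪ S', ((if x ∈ S then c x else 0) + (if x ∈ S' then c' x else 0) +
        ((if x ∈ S then d x else 0) + (if x ∈ S' then d' x else 0)) * Real.log t) * t ^ x =
        ∑ x ∈ S, (c x + d x * Real.log t) * t ^ x + ∑ x ∈ S', (c' x + d' x * Real.log t) * t ^ x := by
      have e1 : ∑ x ∈ S, (c x + d x * Real.log t) * t ^ x =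
          ∑ x ∈ S ∪ S', if x ∈ S then (c x + d x * Real.log t) * t ^ x else 0 := by
        rw [Finset.sum_ite_mem, Finset.union_inter_cancel_left]
      have e2 : ∑ x ∈ S', (c' x + d' x * Real.log t) * t ^ x =
          ∑ x ∈ S ∪ S', if x ∈ S' then (c' x + d' x * Real.log t) * t ^ x else 0 := by
        rw [Finset.sum_ite_mem, Finset.union_inter_cancel_right]
      rw [e1, e2, ← Finset.sum_add_distrib]
      refine Finset.sum_congr rfl fun x _ => ?_
      by_cases h1 : x ∈ S <;> by_cases h2 : x ∈ S' <;> simp only [h1, h2, if_true, if_false] <;> ring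
    rw [e]
    ring

theorem LX.smul {r d3 E : ℝ} {f : ℝ → ℝ} (a : ℝ) (hf : LX r d3 E f) :
    LX r (a * d3) (a * E) (fun t => a * f t) := by
  obtain ⟨S, c, d, hd, hO⟩ := hf
  refine ⟨S, fun x => a * c x, fun x => a * d x, fun x hx h3 => by simp only [hd x hx h3, mul_zero], ?_⟩
  refine (hO.const_mul_left a).congr_left ?_
  intro t
  have e : ∑ x ∈ S, (a * c x + a * d x * Real.log t) * t ^ x =
      a * ∑ x ∈ S, (c x + d x * Real.log t) * t ^ x := by
    rw [Finset.mul_sum]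
    exact Finset.sum_congr rfl fun x _ => by ring
  rw [e]
  ring

theorem LX.of_isBigO {r : ℝ} {f : ℝ → ℝ}
    (hf : f =O[𝓝[>] 0] (fun t : ℝ => t ^ r * |Real.log t|)) : LX r 0 0 f := by
  refine ⟨∅, fun _ => 0, fun _ => 0, fun _ _ _ => rfl, hf.congr_left fun t => ?_⟩
  simp

/-- a power, any exponent -/
theorem LX.pow {r x : ℝ} (a : ℝ) : LX r 0 0 (fun t => a * t ^ x) := by
  refine ⟨{x}, fun _ => a, fun _ => 0, fun _ _ _ => rfl, ?_⟩
  refine (isBigO_zero _ _).congr_left fun t => ?_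
  simp

/-- a power times a logarithm, exponent greater than three -/
theorem LX.powlog {r x : ℝ} (a : ℝ) (hx : 3 < x) : LX r 0 0 (fun t => a * t ^ x * Real.log t) := by
  refine ⟨{x}, fun _ => 0, fun _ => a, ?_, ?_⟩
  · intro y hy hy3
    rw [Finset.mem_singleton] at hy
    rw [hy] at hy3
    exact absurd hy3 (not_le.2 hx)
  · refine (isBigO_zero _ _).congr_left fun t => ?_
    simp only [Finset.sum_singleton]
    ring

theorem LX.log3 {r : ℝ} (a : ℝ) : LX r a 0 (fun t => a * t ^ 3 * Real.log t) := by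
  refine ⟨∅, fun _ => 0, fun _ => 0, fun _ _ _ => rfl, ?_⟩
  refine (isBigO_zero _ _).congr_left fun t => ?_
  simp

theorem LX.logsq {r : ℝ} (a : ℝ) : LX r 0 a (fun t => a * t ^ r * Real.log t ^ 2) := by
  refine ⟨∅, fun _ => 0, fun _ => 0, fun _ _ _ => rfl, ?_⟩
  refine (isBigO_zero _ _).congr_left fun t => ?_
  simp

theorem h170_ev : ∀ᶠ t : ℝ in 𝓝[>] 0, 0 < t ∧ t < 1 := by
  filter_upwards [Ioo_mem_nhdsGT (zero_lt_one' ℝ)] with t ht
  exact ht

/-- forgetting down to level four -/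
theorem LX.to4 {d3 E : ℝ} {f : ℝ → ℝ} (hf : LX 6 d3 E f) : LX 4 d3 0 f := by
  obtain ⟨S, c, d, hd, hO⟩ := hf
  refine ⟨S, c, d, hd, ?_⟩
  have h64 : ∀ t : ℝ, 0 < t → t < 1 → t ^ (6:ℝ) = t ^ (4:ℝ) * t ^ 2 := by
    intro t h0 _
    rw [← Real.rpow_natCast t 2, ← Real.rpow_add h0]
    norm_num
  have h1 : (fun t : ℝ => t ^ (6:ℝ) * |Real.log t|) =O[𝓝[>] 0] (fun t : ℝ => t ^ (4:ℝ) * |Real.log t|) := by
    refine IsBigO.of_bound 1 ?_
    filter_upwards [h170_ev] with t ht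
    obtain ⟨h0, h1⟩ := ht
    rw [Real.norm_of_nonneg (by positivity), Real.norm_of_nonneg (by positivity), one_mul, h64 t h0 h1]
    have h2 : t ^ 2 ≤ 1 := by nlinarith
    have h3 : 0 ≤ t ^ (4:ℝ) := by positivity
    have h4 : t ^ (4:ℝ) * t ^ 2 ≤ t ^ (4:ℝ) := by
      calc t ^ (4:ℝ) * t ^ 2 ≤ t ^ (4:ℝ) * 1 := mul_le_mul_of_nonneg_left h2 h3
        _ = _ := mul_one _
    exact mul_le_mul_of_nonneg_right h4 (abs_nonneg _)
  have h2 : (fun t : ℝ => E * t ^ (6:ℝ) * Real.log t ^ 2) =O[𝓝[>] 0]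
      (fun t : ℝ => t ^ (4:ℝ) * |Real.log t|) := by
    refine IsBigO.of_bound |E| ?_
    filter_upwards [h170_ev] with t ht
    obtain ⟨h0, h1⟩ := ht
    have hlog : |Real.log t| ≤ t⁻¹ := by
      rw [abs_of_neg (Real.log_neg h0 h1), ← Real.log_inv]
      exact (Real.log_le_sub_one_of_pos (inv_pos.2 h0)).trans (by linarith)
    have h3 : 0 ≤ t ^ (4:ℝ) := by positivity
    have h5 : t ^ 2 * |Real.log t| ≤ 1 := by
      calc t ^ 2 * |Real.log t| ≤ t ^ 2 * t⁻¹ := mul_le_mul_of_nonneg_left hlog (by positivity)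
        _ = t := by field_simp
        _ ≤ 1 := h1.le
    rw [Real.norm_eq_abs, abs_mul, abs_mul, abs_of_nonneg (by positivity : 0 ≤ t ^ (6:ℝ)),
      Real.norm_of_nonneg (by positivity), h64 t h0 h1, abs_pow]
    have e : |E| * (t ^ (4:ℝ) * t ^ 2) * |Real.log t| ^ 2 =
        |E| * (t ^ (4:ℝ) * |Real.log t|) * (t ^ 2 * |Real.log t|) := by ring
    rw [e]
    calc |E| * (t ^ (4:ℝ) * |Real.log t|) * (t ^ 2 * |Real.log t|) ≤
        |E| * (t ^ (4:ℝ) * |Real.log t|) * 1 := mul_le_mul_of_nonneg_left h5 (by positivity)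
      _ = _ := mul_one _
  refine ((hO.trans h1).add h2).congr_left ?_
  intro t
  ring


end Pool.Agent.FW
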