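import Pool.Agent.Helper155.FW.Defs
import Pool.Agent.Helper155.FW.HFa
import Pool.Agent.Helper155.FW.H0
import Pool.Agent.Helper155.FW.J2a

set_option autoImplicit false
open Filter Asymptotics Topology

namespace Pool.Agent.FW

/-! ## AVAILABLE (proved by others; use freely) -/

/-! ### P1: algebra -/









/-! ### P2: shift and difference -/























/-! ## TARGETS (prove these) -/

theorem LX.cast {r d E d' E' : ℝ} {f : ℝ → ℝ} (hf : LX r d E f) (h1 : d = d') (h2 : E = E') :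
    LX r d' E' f := by
  subst h1 h2
  exact hf

theorem LX.sum_terms {r : ℝ} (S : Finset ℝ) (c d : ℝ → ℝ) (hd : ∀ x ∈ S, x ≤ 2 → d x = 0) :
    LX r 0 0 (fun t => ∑ x ∈ S, (c x * t ^ (x + 1) + d x * t ^ (x + 1) * Real.log t)) := by
  classical
  induction S using Finset.induction_on with
  | empty =>
    have h := LX.pow (r := r) (x := 1) 0
    refine h.congr' (Filter.Eventually.of_forall fun t => ?_)
    simp
  | insert a S ha ih =>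
    have h1 := ih (fun x hx => hd x (Finset.mem_insert_of_mem hx))
    have h2 : LX r 0 0 (fun t => c a * t ^ (a + 1)) := LX.pow (c a)
    have h3 : LX r 0 0 (fun t => d a * t ^ (a + 1) * Real.log t) := by
      by_cases hda : d a = 0
      · have h := LX.pow (r := r) (x := 1) 0
        refine h.congr' (Filter.Eventually.of_forall fun t => ?_)
        simp [hda]
      · refine LX.powlog (d a) ?_
        by_contra hc
        exact hda (hd a (Finset.mem_insert_self _ _) (by linarith))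
    have h4 := ((h2.add h3).add h1).cast (d' := 0) (E' := 0) (by ring) (by ring)
    refine h4.congr' (Filter.Eventually.of_forall fun t => ?_)
    simp only [Finset.sum_insert ha]

theorem T1_F4 (ch x2 y1 K lam s : ℝ) (hs : 0 < s) (h X : ℕ → ℝ) (hx2 : -(2 / 3) < x2)
    (hX : PE x2 4 (fun n : ℕ => X n - s * (n : ℝ) ^ (2 / 3 : ℝ) - lam * Real.log n))
    (hy1 : 7 / 3 < y1)
    (hh : PE y1 5 (fun n : ℕ => h n - ch * (n : ℝ) ^ (-(7 / 3 : ℝ))))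
    (hK : 1 ≤ K) (hXl : ∀ m : ℕ, ((m : ℝ) + 1) ^ (2 / 3 : ℝ) ≤ K * X m) :
    LX 4 (3 / 8 * ch * s ^ 2) (9 / 32 * lam * ch * s ^ 2)
      (fun t => -(t / 2 * ∑' m : ℕ, h m * Real.exp (-(t * X m)))) := by
  obtain ⟨S, c, d, hd, hO⟩ := F_lam s ch x2 y1 K lam hs h X hx2 hX hy1 hh hK hXl
  have h1 : LX 4 0 0 (fun t => ∑ x ∈ S, (c x * t ^ (x + 1) + d x * t ^ (x + 1) * Real.log t)) :=
    LX.sum_terms S c d hd
  have h2 : LX 4 (3 / 8 * ch * s ^ 2) 0 (fun t => (3 / 8 * ch * s ^ 2) * t ^ 3 * Real.log t) :=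
    LX.log3 _
  have h3 : LX 4 0 (9 / 32 * lam * ch * s ^ 2)
      (fun t => (9 / 32 * lam * ch * s ^ 2) * t ^ (4 : ℝ) * Real.log t ^ 2) := LX.logsq _
  have h4 : LX 4 0 0 (fun t => -(t / 2) * ((∑' m : ℕ, h m * Real.exp (-(t * X m)))
          - ∑ x ∈ S, (c x + d x * Real.log t) * t ^ x
          + 3 / 4 * ch * s ^ 2 * t ^ 2 * Real.log t
          + 9 / 16 * lam * ch * s ^ 2 * t ^ 3 * Real.log t ^ 2)) := by
    refine LX.of_isBigO ?_
    have h5 : (fun t : ℝ => -(t / 2)) =O[𝓝[>] 0] (fun t : ℝ => t) := by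
      refine IsBigO.of_bound 1 (Filter.Eventually.of_forall fun t => ?_)
      rw [norm_neg, norm_div, one_mul]
      have : ‖(2 : ℝ)‖ = 2 := by norm_num
      rw [this]
      have := norm_nonneg t
      linarith
    refine (h5.mul hO).congr' (Filter.EventuallyEq.refl _ _) ?_
    filter_upwards [self_mem_nhdsWithin] with t ht
    have ht' : (0 : ℝ) < t := ht
    have e1 : t ^ (4 : ℝ) = t * t ^ 3 := by
      rw [show (4 : ℝ) = ((4 : ℕ) : ℝ) by norm_num, Real.rpow_natCast]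
      ring
    rw [e1]
    ring
  have h5 := ((((h1.smul (-1 / 2)).add h2).add h3).add h4).cast
    (d' := 3 / 8 * ch * s ^ 2) (E' := 9 / 32 * lam * ch * s ^ 2) (by ring) (by ring)
  refine h5.congr' ?_
  filter_upwards [self_mem_nhdsWithin] with t ht
  have ht' : (0 : ℝ) < t := ht
  have e1 : t ^ (4 : ℝ) = t * t ^ 3 := by
    rw [show (4 : ℝ) = ((4 : ℕ) : ℝ) by norm_num, Real.rpow_natCast]
    ring
  have e2 : ∑ x ∈ S, (c x * t ^ (x + 1) + d x * t ^ (x + 1) * Real.log t)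
      = t * ∑ x ∈ S, (c x + d x * Real.log t) * t ^ x := by
    rw [Finset.mul_sum]
    refine Finset.sum_congr rfl fun x _ => ?_
    rw [Real.rpow_add ht', Real.rpow_one]
    ring
  rw [e1, e2]
  ring

theorem T1_F6 (ch x2 y1 K s : ℝ) (hs : 0 < s) (h X : ℕ → ℝ) (hx2 : -(2 / 3) < x2)
    (hX : PE x2 4 (fun n : ℕ => X n - s * (n : ℝ) ^ (2 / 3 : ℝ)))
    (hy1 : 7 / 3 < y1)
    (hh : PE y1 5 (fun n : ℕ => h n - ch * (n : ℝ) ^ (-(7 / 3 : ℝ))))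
    (hK : 1 ≤ K) (hXl : ∀ m : ℕ, ((m : ℝ) + 1) ^ (2 / 3 : ℝ) ≤ K * X m) :
    LX 6 (3 / 8 * ch * s ^ 2) 0
      (fun t => -(t / 2 * ∑' m : ℕ, h m * Real.exp (-(t * X m)))) := by
  obtain ⟨S, c, d, hd, hO⟩ := F_expand s ch x2 y1 K hs h X hx2 hX hy1 hh hK hXl
  have h1 : LX 6 0 0 (fun t => ∑ x ∈ S, (c x * t ^ (x + 1) + d x * t ^ (x + 1) * Real.log t)) :=
    LX.sum_terms S c d hd
  have h2 : LX 6 (3 / 8 * ch * s ^ 2) 0 (fun t => (3 / 8 * ch * s ^ 2) * t ^ 3 * Real.log t) :=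
    LX.log3 _
  have h4 : LX 6 0 0 (fun t => -(t / 2) * ((∑' m : ℕ, h m * Real.exp (-(t * X m)))
          - ∑ x ∈ S, (c x + d x * Real.log t) * t ^ x
          + 3 / 4 * ch * s ^ 2 * t ^ 2 * Real.log t)) := by
    refine LX.of_isBigO ?_
    have h5 : (fun t : ℝ => -(t / 2)) =O[𝓝[>] 0] (fun t : ℝ => t) := by
      refine IsBigO.of_bound 1 (Filter.Eventually.of_forall fun t => ?_)
      rw [norm_neg, norm_div, one_mul]
      have : ‖(2 : ℝ)‖ = 2 := by norm_num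
      rw [this]
      have := norm_nonneg t
      linarith
    refine (h5.mul hO).congr' (Filter.EventuallyEq.refl _ _) ?_
    filter_upwards [self_mem_nhdsWithin] with t ht
    have ht' : (0 : ℝ) < t := ht
    have e1 : t ^ (6 : ℝ) = t * t ^ (5 : ℝ) := by
      rw [show (6 : ℝ) = 1 + 5 by norm_num, Real.rpow_add ht', Real.rpow_one]
    rw [e1]
    ring
  have h5 := (((h1.smul (-1 / 2)).add h2).add h4).cast
    (d' := 3 / 8 * ch * s ^ 2) (E' := 0) (by ring) (by ring)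
  refine h5.congr' ?_
  filter_upwards [self_mem_nhdsWithin] with t ht
  have ht' : (0 : ℝ) < t := ht
  have e2 : ∑ x ∈ S, (c x * t ^ (x + 1) + d x * t ^ (x + 1) * Real.log t)
      = t * ∑ x ∈ S, (c x + d x * Real.log t) * t ^ x := by
    rw [Finset.mul_sum]
    refine Finset.sum_congr rfl fun x _ => ?_
    rw [Real.rpow_add ht', Real.rpow_one]
    ring
  rw [e2]
  ring

theorem T1_hbd (ch y1 : ℝ) (h : ℕ → ℝ) (hy1 : 7 / 3 < y1)
    (hh : PE y1 5 (fun n : ℕ => h n - ch * (n : ℝ) ^ (-(7 / 3 : ℝ)))) :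
    ∃ (y K3 : ℝ), 7 / 3 < y ∧ 0 < K3 ∧
      ∀ m : ℕ, |h m - ch * ((m : ℝ) + 1) ^ (-(7 / 3 : ℝ))| ≤ K3 * ((m : ℝ) + 1) ^ (-y) := by
  have h1 : PE (min y1 (10 / 3)) 5 (fun n : ℕ => h n - ch * (n : ℝ) ^ (-(7 / 3 : ℝ))) :=
    hh.mono (min_le_left _ _) le_rfl
  have h2 : PE (min y1 (10 / 3)) 5 (fun n : ℕ => ch * ((n + 1 : ℕ) : ℝ) ^ (-(7 / 3 : ℝ))
      - ch * (n : ℝ) ^ (-(7 / 3 : ℝ))) := by
    have h3 : PE (7 / 3) 5 (fun n : ℕ => ch * (n : ℝ) ^ (-(7 / 3 : ℝ))) := PE.single ch le_rfl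
    refine (PE.diff h3).mono ?_ le_rfl
    exact (min_le_right _ _).trans (by norm_num)
  have h3 := h1.add (h2.smul (-1))
  obtain ⟨K3, hK3, hb⟩ := PE.bound h3 (x := min y1 (10 / 3)) le_rfl
    ((min_le_right _ _).trans (by norm_num))
  refine ⟨min y1 (10 / 3), K3, lt_min hy1 (by norm_num), hK3, fun m => ?_⟩
  have h4 := hb m
  have e : h m - ch * (m : ℝ) ^ (-(7 / 3 : ℝ)) + -1 * (ch * ((m + 1 : ℕ) : ℝ) ^ (-(7 / 3 : ℝ))
      - ch * (m : ℝ) ^ (-(7 / 3 : ℝ))) = h m - ch * ((m : ℝ) + 1) ^ (-(7 / 3 : ℝ)) := by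
    push_cast
    ring
  rw [e] at h4
  exact h4

theorem T1_Xbd (s x2 lam : ℝ) (X : ℕ → ℝ) (hx2 : -(2 / 3) < x2)
    (hX : PE x2 4 (fun n : ℕ => X n - s * (n : ℝ) ^ (2 / 3 : ℝ) - lam * Real.log n)) :
    ∃ (θ K4 : ℝ), θ < 2 / 3 ∧ 0 < K4 ∧
      ∀ m : ℕ, |X m - s * ((m : ℝ) + 1) ^ (2 / 3 : ℝ)| ≤ K4 * ((m : ℝ) + 1) ^ θ := by
  have h1 : PE (min x2 (1 / 3)) 4
      (fun n : ℕ => X n - s * (n : ℝ) ^ (2 / 3 : ℝ) - lam * Real.log n) :=
    hX.mono (min_le_left _ _) le_rfl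
  have h2 : PE (min x2 (1 / 3)) 4 (fun n : ℕ => s * ((n + 1 : ℕ) : ℝ) ^ (2 / 3 : ℝ)
      - s * (n : ℝ) ^ (2 / 3 : ℝ)) := by
    have h3 : PE (-(2 / 3)) 4 (fun n : ℕ => s * (n : ℝ) ^ (-(-(2 / 3) : ℝ))) :=
      PE.single s le_rfl
    rw [neg_neg] at h3
    refine (PE.diff h3).mono ?_ le_rfl
    exact (min_le_right _ _).trans (by norm_num)
  have h3 := h1.add (h2.smul (-1))
  obtain ⟨K3, hK3, hb⟩ := PE.bound h3 (x := min x2 (1 / 3)) le_rfl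
    ((min_le_right _ _).trans (by norm_num))
  refine ⟨max (-(min x2 (1 / 3))) (1 / 2), K3 + 2 * |lam| + 0, ?_, by positivity, fun m => ?_⟩
  · refine max_lt ?_ (by norm_num)
    have : -(2 / 3 : ℝ) < min x2 (1 / 3) := lt_min hx2 (by norm_num)
    linarith
  have h4 := hb m
  have hm1 : (1 : ℝ) ≤ (m : ℝ) + 1 := by
    have : (0 : ℝ) ≤ (m : ℝ) := Nat.cast_nonneg m
    linarith
  set θ := max (-(min x2 (1 / 3))) (1 / 2 : ℝ) with hθ
  have h5 : ((m : ℝ) + 1) ^ (-(min x2 (1 / 3))) ≤ ((m : ℝ) + 1) ^ θ :=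
    Real.rpow_le_rpow_of_exponent_le hm1 (le_max_left _ _)
  have h6 : |lam * Real.log m| ≤ 2 * |lam| * ((m : ℝ) + 1) ^ θ := by
    rw [abs_mul]
    have h7 : |Real.log (m : ℝ)| ≤ Real.log ((m : ℝ) + 1) := by
      rcases Nat.eq_zero_or_pos m with h0 | h0
      · subst h0
        simp
      · have hm2 : (1 : ℝ) ≤ (m : ℝ) := by exact_mod_cast h0
        rw [abs_of_nonneg (Real.log_nonneg hm2)]
        exact Real.log_le_log (by linarith) (by linarith)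
    have h8 : Real.log ((m : ℝ) + 1) ≤ ((m : ℝ) + 1) ^ (1 / 2 : ℝ) / (1 / 2) :=
      Real.log_le_rpow_div (by linarith) (by norm_num)
    have h9 : ((m : ℝ) + 1) ^ (1 / 2 : ℝ) ≤ ((m : ℝ) + 1) ^ θ :=
      Real.rpow_le_rpow_of_exponent_le hm1 (le_max_right _ _)
    have h10 : |Real.log (m : ℝ)| ≤ 2 * ((m : ℝ) + 1) ^ θ := by
      have : ((m : ℝ) + 1) ^ (1 / 2 : ℝ) / (1 / 2) = 2 * ((m : ℝ) + 1) ^ (1 / 2 : ℝ) := by ring
      linarith
    have := mul_le_mul_of_nonneg_left h10 (abs_nonneg lam)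
    linarith
  have e : X m - s * ((m : ℝ) + 1) ^ (2 / 3 : ℝ) =
      (X m - s * (m : ℝ) ^ (2 / 3 : ℝ) - lam * Real.log m + -1 * (s * ((m + 1 : ℕ) : ℝ) ^ (2 / 3 : ℝ)
      - s * (m : ℝ) ^ (2 / 3 : ℝ))) + lam * Real.log m := by
    push_cast
    ring
  rw [e]
  refine (abs_add_le _ _).trans ?_
  have h11 := mul_le_mul_of_nonneg_left h5 hK3.le
  linarith

theorem T1_summable_log :
    Summable (fun m : ℕ => 49 * ((m : ℝ) + 1) ^ (-(2 : ℝ))) := by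
  refine Summable.mul_left _ ?_
  have h := (Real.summable_nat_rpow (p := -(2 : ℝ))).2 (by norm_num)
  have h2 := (summable_nat_add_iff 1).2 h
  refine h2.congr fun m => ?_
  push_cast
  rfl

theorem T1_log_bd (m : ℕ) :
    ((m : ℝ) + 1) ^ (-(7 / 3 : ℝ)) * (1 + Real.log ((m : ℝ) + 1)) ^ 2 ≤
      49 * ((m : ℝ) + 1) ^ (-(2 : ℝ)) := by
  have hm0 : (0 : ℝ) < (m : ℝ) + 1 := by positivity
  have hm1 : (1 : ℝ) ≤ (m : ℝ) + 1 := by
    have : (0 : ℝ) ≤ (m : ℝ) := Nat.cast_nonneg m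
    linarith
  have h1 : Real.log ((m : ℝ) + 1) ≤ ((m : ℝ) + 1) ^ (1 / 6 : ℝ) / (1 / 6) :=
    Real.log_le_rpow_div (by linarith) (by norm_num)
  have h2 : (1 : ℝ) ≤ ((m : ℝ) + 1) ^ (1 / 6 : ℝ) := Real.one_le_rpow hm1 (by norm_num)
  have h3 : 1 + Real.log ((m : ℝ) + 1) ≤ 7 * ((m : ℝ) + 1) ^ (1 / 6 : ℝ) := by
    have : ((m : ℝ) + 1) ^ (1 / 6 : ℝ) / (1 / 6) = 6 * ((m : ℝ) + 1) ^ (1 / 6 : ℝ) := by ring
    linarith
  have h4 : 0 ≤ 1 + Real.log ((m : ℝ) + 1) := by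
    have := Real.log_nonneg hm1
    linarith
  have h5 : (1 + Real.log ((m : ℝ) + 1)) ^ 2 ≤ 49 * ((m : ℝ) + 1) ^ (1 / 3 : ℝ) := by
    have h6 := pow_le_pow_left₀ h4 h3 2
    have h7 : (7 * ((m : ℝ) + 1) ^ (1 / 6 : ℝ)) ^ 2 = 49 * ((m : ℝ) + 1) ^ (1 / 3 : ℝ) := by
      rw [mul_pow, ← Real.rpow_natCast (((m : ℝ) + 1) ^ (1 / 6 : ℝ)) 2, ← Real.rpow_mul hm0.le]
      norm_num
    linarith
  calc ((m : ℝ) + 1) ^ (-(7 / 3 : ℝ)) * (1 + Real.log ((m : ℝ) + 1)) ^ 2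
      ≤ ((m : ℝ) + 1) ^ (-(7 / 3 : ℝ)) * (49 * ((m : ℝ) + 1) ^ (1 / 3 : ℝ)) :=
        mul_le_mul_of_nonneg_left h5 (Real.rpow_nonneg hm0.le _)
    _ = 49 * (((m : ℝ) + 1) ^ (-(7 / 3 : ℝ)) * ((m : ℝ) + 1) ^ (1 / 3 : ℝ)) := by ring
    _ = 49 * ((m : ℝ) + 1) ^ (-(2 : ℝ)) := by
        rw [← Real.rpow_add hm0]
        norm_num

theorem T1_rest (C ch lam y1 x2 K K' : ℝ) (hC : 0 < C) (Q : Seqs) (hG : Good Q K)
    (hy1 : 7 / 3 < y1)
    (hh : PE y1 5 (fun n : ℕ => Q.h n - ch * (n : ℝ) ^ (-(7 / 3 : ℝ))))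
    (hx2 : -(2 / 3) < x2) (s : ℝ) (hs : 0 < s)
    (hX : PE x2 4 (fun n : ℕ => Q.X n - s * (n : ℝ) ^ (2 / 3 : ℝ)
      - lam * Real.log n))
    (hY : ∀ m : ℕ, |Q.Y m + C / 24 * Real.log ((m : ℝ) + 1)| ≤ K') :
    LX 6 0 (-(3 / 256) * C * ch * s ^ 2)
      (fun t => -(∑' m : ℕ, Q.e m t * Q.p m t)
        + t / 2 * ∑' m : ℕ, Q.h m * Real.exp (-(t * Q.X m))) := by
  obtain ⟨w, w', K1, t0, hK1, ht0, ht01, hw, hw', hem⟩ := em_om Q K hG
  have hK := hG.K1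
  have hXpos : ∀ m : ℕ, 0 ≤ Q.X m := by
    intro m
    have h1 := hG.Xl m
    have h2 : (0 : ℝ) ≤ ((m : ℝ) + 1) ^ (2 / 3 : ℝ) := Real.rpow_nonneg (by positivity) _
    by_contra hc
    push Not at hc
    have : K * Q.X m < 0 := mul_neg_of_pos_of_neg (by linarith) hc
    linarith
  have hrp : ∀ (m : ℕ) (x : ℝ), 0 ≤ ((m : ℝ) + 1) ^ x := fun m x =>
    Real.rpow_nonneg (by positivity) _
  have hm1 : ∀ m : ℕ, (1 : ℝ) ≤ (m : ℝ) + 1 := fun m => by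
    have : (0 : ℝ) ≤ (m : ℝ) := Nat.cast_nonneg m
    linarith
  set K2 : ℝ := K * (1 + K1) with hK2
  have hKK2 : K ≤ K2 := by nlinarith
  have hK2' : 1 ≤ K2 := hK.trans hKK2
  have hXl2 : ∀ m : ℕ, ((m : ℝ) + 1) ^ (2 / 3 : ℝ) ≤ K2 * Q.X m := fun m =>
    (hG.Xl m).trans (mul_le_mul_of_nonneg_right hKK2 (hXpos m))
  have hXu2 : ∀ m : ℕ, Q.X m ≤ K2 * ((m : ℝ) + 1) ^ (2 / 3 : ℝ) := fun m =>
    (hG.Xu m).trans (mul_le_mul_of_nonneg_right hKK2 (hrp m _))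
  -- the three Taylor sums
  have hb1 : ∀ m : ℕ, |Q.h m * w m| ≤ K2 * ((m : ℝ) + 1) ^ (-(1 + 2 * ((3 : ℕ) : ℝ) / 3)) := by
    intro m
    rw [abs_mul]
    calc |Q.h m| * |w m| ≤ (K * ((m : ℝ) + 1) ^ (-(7 / 3 : ℝ))) *
          (K1 * ((m : ℝ) + 1) ^ (-(2 / 3 : ℝ))) :=
          mul_le_mul (hG.h m) (hw m) (abs_nonneg _) (mul_nonneg (by linarith) (hrp m _))
      _ = (K * K1) * (((m : ℝ) + 1) ^ (-(7 / 3 : ℝ)) * ((m : ℝ) + 1) ^ (-(2 / 3 : ℝ))) := by ring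
      _ = (K * K1) * ((m : ℝ) + 1) ^ (-(1 + 2 * ((3 : ℕ) : ℝ) / 3)) := by
          rw [← Real.rpow_add (by positivity)]
          norm_num
      _ ≤ K2 * ((m : ℝ) + 1) ^ (-(1 + 2 * ((3 : ℕ) : ℝ) / 3)) :=
          mul_le_mul_of_nonneg_right (by rw [hK2]; nlinarith) (hrp m _)
  have hb3 : ∀ m : ℕ, |Q.h m * w' m| ≤ K2 * ((m : ℝ) + 1) ^ (-(1 + 2 * ((1 : ℕ) : ℝ) / 3)) := by
    intro m
    rw [abs_mul]
    calc |Q.h m| * |w' m| ≤ (K * ((m : ℝ) + 1) ^ (-(7 / 3 : ℝ))) * K1 :=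
          mul_le_mul (hG.h m) (hw' m) (abs_nonneg _) (mul_nonneg (by linarith) (hrp m _))
      _ = (K * K1) * ((m : ℝ) + 1) ^ (-(7 / 3 : ℝ)) := by ring
      _ ≤ (K * K1) * ((m : ℝ) + 1) ^ (-(1 + 2 * ((1 : ℕ) : ℝ) / 3)) := by
          refine mul_le_mul_of_nonneg_left ?_ (mul_nonneg (by linarith) hK1.le)
          exact Real.rpow_le_rpow_of_exponent_le (hm1 m) (by norm_num)
      _ ≤ K2 * ((m : ℝ) + 1) ^ (-(1 + 2 * ((1 : ℕ) : ℝ) / 3)) :=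
          mul_le_mul_of_nonneg_right (by rw [hK2]; nlinarith) (hrp m _)
  have hb0 : ∀ m : ℕ, |Q.h m| ≤ K2 * ((m : ℝ) + 1) ^ (-(1 + 2 * ((1 : ℕ) : ℝ) / 3)) := by
    intro m
    calc |Q.h m| ≤ K * ((m : ℝ) + 1) ^ (-(7 / 3 : ℝ)) := hG.h m
      _ ≤ K * ((m : ℝ) + 1) ^ (-(1 + 2 * ((1 : ℕ) : ℝ) / 3)) := by
          refine mul_le_mul_of_nonneg_left ?_ (by linarith)
          exact Real.rpow_le_rpow_of_exponent_le (hm1 m) (by norm_num)
      _ ≤ K2 * ((m : ℝ) + 1) ^ (-(1 + 2 * ((1 : ℕ) : ℝ) / 3)) :=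
          mul_le_mul_of_nonneg_right hKK2 (hrp m _)
  obtain ⟨a1, L1, hL1, hS1⟩ := tay K2 hK2' 3 (by norm_num) Q.X (fun m => Q.h m * w m)
    hXl2 hXu2 hb1
  obtain ⟨a3, L3, hL3, hS3⟩ := tay K2 hK2' 1 (by norm_num) Q.X (fun m => Q.h m * w' m)
    hXl2 hXu2 hb3
  obtain ⟨a0, L0, hL0, hS0⟩ := tay K2 hK2' 1 (by norm_num) Q.X Q.h hXl2 hXu2 hb0
  -- the logarithmic sum
  obtain ⟨y, K3, hy, hK3, hhb⟩ := T1_hbd ch y1 Q.h hy1 hh
  obtain ⟨θ, K4, hθ, hK4, hXb⟩ := T1_Xbd s x2 lam Q.X hx2 hX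
  have hK'0 : 0 ≤ K' := (abs_nonneg _).trans (hY 0)
  have hC24 : 0 < 24 / C := by positivity
  set K5 : ℝ := K + K3 + K4 + 24 / C * K' with hK5
  have hq : 0 ≤ 24 / C * K' := mul_nonneg hC24.le hK'0
  obtain ⟨c0, c1, L2, hL2, hS2⟩ := hlog s ch K5 θ y hs (by linarith) hθ hy Q.h Q.X
    (fun m => -(24 / C) * Q.Y m)
    (fun m => (hXb m).trans (mul_le_mul_of_nonneg_right (by linarith) (hrp m _)))
    (fun m => (hG.Xl m).trans (mul_le_mul_of_nonneg_right (by linarith) (hXpos m)))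
    (fun m => (hhb m).trans (mul_le_mul_of_nonneg_right (by linarith) (hrp m _)))
    (fun m => by
      have e : -(24 / C) * Q.Y m - Real.log ((m : ℝ) + 1) =
          -(24 / C) * (Q.Y m + C / 24 * Real.log ((m : ℝ) + 1)) := by
        field_simp
        ring
      rw [e, abs_mul, abs_neg, abs_of_pos hC24]
      have := mul_le_mul_of_nonneg_left (hY m) hC24.le
      linarith)
  -- the remainder
  obtain ⟨B, hB⟩ : ∃ B, HasSum (fun m : ℕ => (K * K1) * (49 * ((m : ℝ) + 1) ^ (-(2 : ℝ)))) B :=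
    ⟨_, (T1_summable_log.mul_left (K * K1)).hasSum⟩
  have hKK1 : 0 ≤ K * K1 := mul_nonneg (by linarith) hK1.le
  have hmain : ∀ t : ℝ, 0 < t → t ≤ t0 → ∃ R : ℝ, |R| ≤ B * t ^ 5 ∧
      -(∑' m : ℕ, Q.e m t * Q.p m t) + t / 2 * ∑' m : ℕ, Q.h m * Real.exp (-(t * Q.X m)) =
      -(t ^ 3 * ∑' m : ℕ, Q.h m * w m * Real.exp (-(t * Q.X m)))
      - C / 48 * t ^ 4 * (∑' m : ℕ, Q.h m * (-(24 / C) * Q.Y m) * Real.exp (-(t * Q.X m)))
      - t ^ 5 * (∑' m : ℕ, Q.h m * w' m * Real.exp (-(t * Q.X m))) - t * R := by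
    intro t ht htt
    have ht3 : t ≤ 1 / 3 := htt.trans ht01
    set u : ℕ → ℝ := fun m => Q.h m * (Q.e m t / Q.om m t - Real.exp (-(t * Q.X m))
            * (1 / 2 + w m * t ^ 2 - Q.Y m / 2 * t ^ 3 + w' m * t ^ 4)) with hu
    have hub : ∀ m : ℕ, ‖u m‖ ≤ t ^ 5 * ((K * K1) * (49 * ((m : ℝ) + 1) ^ (-(2 : ℝ)))) := by
      intro m
      rw [Real.norm_eq_abs, hu]
      simp only
      rw [abs_mul]
      have hlog0 : 0 ≤ (1 + Real.log ((m : ℝ) + 1)) ^ 2 := sq_nonneg _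
      calc |Q.h m| * |Q.e m t / Q.om m t - Real.exp (-(t * Q.X m))
            * (1 / 2 + w m * t ^ 2 - Q.Y m / 2 * t ^ 3 + w' m * t ^ 4)|
          ≤ (K * ((m : ℝ) + 1) ^ (-(7 / 3 : ℝ))) * (K1 * t ^ 5 *
            (1 + Real.log ((m : ℝ) + 1)) ^ 2) :=
            mul_le_mul (hG.h m) (hem m t ht htt) (abs_nonneg _)
              (mul_nonneg (by linarith) (hrp m _))
        _ = (K * K1 * t ^ 5) * (((m : ℝ) + 1) ^ (-(7 / 3 : ℝ)) *
            (1 + Real.log ((m : ℝ) + 1)) ^ 2) := by ring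
        _ ≤ (K * K1 * t ^ 5) * (49 * ((m : ℝ) + 1) ^ (-(2 : ℝ))) :=
            mul_le_mul_of_nonneg_left (T1_log_bd m) (by positivity)
        _ = t ^ 5 * ((K * K1) * (49 * ((m : ℝ) + 1) ^ (-(2 : ℝ)))) := by ring
    have hus : Summable u := Summable.of_norm_bounded (hB.summable.mul_left (t ^ 5)) hub
    have huR : ‖∑' m, u m‖ ≤ t ^ 5 * B := tsum_of_norm_bounded (hB.mul_left (t ^ 5)) hub
    have s0 := (hS0 t ht ht3).1
    have s1 := (hS1 t ht ht3).1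
    have s2 := (hS2 t ht ht3).1
    have s3 := (hS3 t ht ht3).1
    refine ⟨∑' m, u m, ?_, ?_⟩
    · rw [Real.norm_eq_abs] at huR
      linarith
    · have hsum := ((((s0.hasSum.mul_left (1 / 2)).add (s1.hasSum.mul_left (t ^ 2))).add
        (s2.hasSum.mul_left (C / 48 * t ^ 3))).add (s3.hasSum.mul_left (t ^ 4))).add hus.hasSum
      have hsum2 := hsum.mul_left t
      have e1 : (fun m : ℕ => t * (1 / 2 * (Q.h m * Real.exp (-(t * Q.X m)))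
          + t ^ 2 * (Q.h m * w m * Real.exp (-(t * Q.X m)))
          + C / 48 * t ^ 3 * (Q.h m * (-(24 / C) * Q.Y m) * Real.exp (-(t * Q.X m)))
          + t ^ 4 * (Q.h m * w' m * Real.exp (-(t * Q.X m))) + u m)) =
          fun m : ℕ => Q.e m t * Q.p m t := by
        funext m
        rw [hu]
        simp only [Seqs.p]
        field_simp
        ring
      rw [e1] at hsum2
      rw [hsum2.tsum_eq]
      ring
  -- assemble
  have hlogev : ∀ᶠ t : ℝ in 𝓝[>] 0, t < min t0 (Real.exp (-1)) := by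
    have : (0 : ℝ) < min t0 (Real.exp (-1)) := lt_min ht0 (Real.exp_pos _)
    exact nhdsWithin_le_nhds (Iio_mem_nhds this)
  have hfin : LX 6 0 0 (fun t => (-(∑' m : ℕ, Q.e m t * Q.p m t)
        + t / 2 * ∑' m : ℕ, Q.h m * Real.exp (-(t * Q.X m)))
        - (-(a1 0) * t ^ (3 : ℝ) + (-(a1 1) - C / 48 * c0) * t ^ (4 : ℝ)
          + (-(a1 2) - C / 48 * c1 - a3 0) * t ^ (5 : ℝ)
          + (-(3 / 256) * C * ch * s ^ 2) * t ^ (6 : ℝ) * Real.log t ^ 2)) := by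
    refine LX.of_isBigO ?_
    refine IsBigO.of_bound (L1 + C / 48 * L2 + L3 + |B|) ?_
    filter_upwards [self_mem_nhdsWithin, hlogev] with t ht0' htlt
    have ht : (0 : ℝ) < t := ht0'
    have htt : t ≤ t0 := (htlt.trans_le (min_le_left _ _)).le
    have ht3 : t ≤ 1 / 3 := htt.trans ht01
    have hlog1 : 1 ≤ |Real.log t| := by
      have h1 : Real.log t ≤ -1 := by
        have h2 : t ≤ Real.exp (-1) := (htlt.trans_le (min_le_right _ _)).le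
        have := Real.log_le_log ht h2
        rwa [Real.log_exp] at this
      rw [abs_of_neg (by linarith)]
      linarith
    obtain ⟨R, hR, hRe⟩ := hmain t ht htt
    rw [hRe]
    have g1 := (hS1 t ht ht3).2
    have g2 := (hS2 t ht ht3).2
    have g3 := (hS3 t ht ht3).2
    simp only [Finset.sum_range_succ, Finset.sum_range_zero, zero_add, pow_zero, mul_one,
      pow_one] at g1 g3
    set T1 := ∑' m : ℕ, Q.h m * w m * Real.exp (-(t * Q.X m)) with hT1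
    set T2 := ∑' m : ℕ, Q.h m * (-(24 / C) * Q.Y m) * Real.exp (-(t * Q.X m)) with hT2
    set T3 := ∑' m : ℕ, Q.h m * w' m * Real.exp (-(t * Q.X m)) with hT3
    have r3 : t ^ (3 : ℝ) = t ^ 3 := by
      rw [show (3 : ℝ) = ((3 : ℕ) : ℝ) by norm_num, Real.rpow_natCast]
    have r4 : t ^ (4 : ℝ) = t ^ 4 := by
      rw [show (4 : ℝ) = ((4 : ℕ) : ℝ) by norm_num, Real.rpow_natCast]
    have r5 : t ^ (5 : ℝ) = t ^ 5 := by
      rw [show (5 : ℝ) = ((5 : ℕ) : ℝ) by norm_num, Real.rpow_natCast]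
    have r6 : t ^ (6 : ℝ) = t ^ 6 := by
      rw [show (6 : ℝ) = ((6 : ℕ) : ℝ) by norm_num, Real.rpow_natCast]
    rw [r3, r4, r5, r6]
    have e2 : -(t ^ 3 * T1) - C / 48 * t ^ 4 * T2 - t ^ 5 * T3 - t * R
        - (-(a1 0) * t ^ 3 + (-(a1 1) - C / 48 * c0) * t ^ 4
          + (-(a1 2) - C / 48 * c1 - a3 0) * t ^ 5
          + (-(3 / 256) * C * ch * s ^ 2) * t ^ 6 * Real.log t ^ 2)
        = -(t ^ 3 * (T1 - (a1 0 + a1 1 * t + a1 2 * t ^ 2)))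
          - C / 48 * t ^ 4 * (T2 - (c0 + c1 * t + 9 / 16 * ch * s ^ 2 * t ^ 2 * Real.log t ^ 2))
          - t ^ 5 * (T3 - a3 0) - t * R := by
      ring
    rw [e2, Real.norm_eq_abs, Real.norm_eq_abs, abs_mul (t ^ 6), abs_abs,
      abs_of_pos (pow_pos ht 6)]
    have b1 : |t ^ 3 * (T1 - (a1 0 + a1 1 * t + a1 2 * t ^ 2))| ≤
        L1 * (t ^ 6 * |Real.log t|) := by
      rw [abs_mul, abs_of_pos (pow_pos ht 3)]
      calc t ^ 3 * |T1 - (a1 0 + a1 1 * t + a1 2 * t ^ 2)| ≤ t ^ 3 * (L1 * t ^ 3 * |Real.log t|) :=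
            mul_le_mul_of_nonneg_left g1 (pow_pos ht 3).le
        _ = L1 * (t ^ 6 * |Real.log t|) := by ring
    have b2 : |C / 48 * t ^ 4 * (T2 - (c0 + c1 * t + 9 / 16 * ch * s ^ 2 * t ^ 2
        * Real.log t ^ 2))| ≤ C / 48 * L2 * (t ^ 6 * |Real.log t|) := by
      have hp : 0 < C / 48 * t ^ 4 := by positivity
      rw [abs_mul, abs_of_pos hp]
      calc C / 48 * t ^ 4 * |T2 - (c0 + c1 * t + 9 / 16 * ch * s ^ 2 * t ^ 2
        * Real.log t ^ 2)| ≤ C / 48 * t ^ 4 * (L2 * t ^ 2 * |Real.log t|) :=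
            mul_le_mul_of_nonneg_left g2 hp.le
        _ = C / 48 * L2 * (t ^ 6 * |Real.log t|) := by ring
    have b3 : |t ^ 5 * (T3 - a3 0)| ≤ L3 * (t ^ 6 * |Real.log t|) := by
      rw [abs_mul, abs_of_pos (pow_pos ht 5)]
      calc t ^ 5 * |T3 - a3 0| ≤ t ^ 5 * (L3 * t * |Real.log t|) :=
            mul_le_mul_of_nonneg_left g3 (pow_pos ht 5).le
        _ = L3 * (t ^ 6 * |Real.log t|) := by ring
    have b4 : |t * R| ≤ |B| * (t ^ 6 * |Real.log t|) := by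
      rw [abs_mul, abs_of_pos ht]
      have hB1 : B * t ^ 5 ≤ |B| * t ^ 5 :=
        mul_le_mul_of_nonneg_right (le_abs_self B) (pow_pos ht 5).le
      calc t * |R| ≤ t * (|B| * t ^ 5) :=
            mul_le_mul_of_nonneg_left (hR.trans hB1) ht.le
        _ = |B| * (t ^ 6 * 1) := by ring
        _ ≤ |B| * (t ^ 6 * |Real.log t|) := by
            refine mul_le_mul_of_nonneg_left ?_ (abs_nonneg B)
            exact mul_le_mul_of_nonneg_left hlog1 (pow_pos ht 6).le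
    have e3 : (L1 + C / 48 * L2 + L3 + |B|) * (t ^ 6 * |Real.log t|) =
        L1 * (t ^ 6 * |Real.log t|) + C / 48 * L2 * (t ^ 6 * |Real.log t|)
          + L3 * (t ^ 6 * |Real.log t|) + |B| * (t ^ 6 * |Real.log t|) := by ring
    rw [e3]
    generalize L1 * (t ^ 6 * |Real.log t|) = W1 at *
    generalize C / 48 * L2 * (t ^ 6 * |Real.log t|) = W2 at *
    generalize L3 * (t ^ 6 * |Real.log t|) = W3 at *
    generalize |B| * (t ^ 6 * |Real.log t|) = W4 at *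
    generalize t ^ 3 * (T1 - (a1 0 + a1 1 * t + a1 2 * t ^ 2)) = X1 at *
    generalize C / 48 * t ^ 4 * (T2 - (c0 + c1 * t + 9 / 16 * ch * s ^ 2 * t ^ 2
        * Real.log t ^ 2)) = X2 at *
    generalize t ^ 5 * (T3 - a3 0) = X3 at *
    generalize t * R = X4 at *
    rw [abs_le] at b1 b2 b3 b4
    rw [abs_le]
    constructor
    · linarith [b1.1, b1.2, b2.1, b2.2, b3.1, b3.2, b4.1, b4.2]
    · linarith [b1.1, b1.2, b2.1, b2.2, b3.1, b3.2, b4.1, b4.2]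
  have p3 : LX 6 0 0 (fun t => -(a1 0) * t ^ (3 : ℝ)) := LX.pow _
  have p4 : LX 6 0 0 (fun t => (-(a1 1) - C / 48 * c0) * t ^ (4 : ℝ)) := LX.pow _
  have p5 : LX 6 0 0 (fun t => (-(a1 2) - C / 48 * c1 - a3 0) * t ^ (5 : ℝ)) := LX.pow _
  have p6 : LX 6 0 (-(3 / 256) * C * ch * s ^ 2)
      (fun t => (-(3 / 256) * C * ch * s ^ 2) * t ^ (6 : ℝ) * Real.log t ^ 2) := LX.logsq _
  have hall := ((((p3.add p4).add p5).add p6).add hfin).cast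
    (d' := 0) (E' := -(3 / 256) * C * ch * s ^ 2) (by ring) (by ring)
  refine hall.congr' (Filter.Eventually.of_forall fun t => ?_)
  ring

/-- the main sum -/
theorem T1_LX (C ch lam x1 y1 x2 K K' : ℝ) (hC : 0 < C) (Q : Seqs) (hG : Good Q K)
    (hy1 : 7 / 3 < y1)
    (hh : PE y1 5 (fun n : ℕ => Q.h n - ch * (n : ℝ) ^ (-(7 / 3 : ℝ))))
    (hx2 : -(2 / 3) < x2)
    (hX : PE x2 4 (fun n : ℕ => Q.X n - 3 / 2 * C ^ (1 / 3 : ℝ) * (n : ℝ) ^ (2 / 3 : ℝ)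
      - lam * Real.log n))
    (hY : ∀ m : ℕ, |Q.Y m + C / 24 * Real.log ((m : ℝ) + 1)| ≤ K') :
    LX 4 (3 / 8 * ch * (3 / 2 * C ^ (1 / 3 : ℝ)) ^ 2)
        (9 / 32 * lam * ch * (3 / 2 * C ^ (1 / 3 : ℝ)) ^ 2)
        (fun t => -∑' m : ℕ, Q.e m t * Q.p m t) ∧
    (lam = 0 → LX 6 (3 / 8 * ch * (3 / 2 * C ^ (1 / 3 : ℝ)) ^ 2)
        (-(3 / 256) * C * ch * (3 / 2 * C ^ (1 / 3 : ℝ)) ^ 2)
        (fun t => -∑' m : ℕ, Q.e m t * Q.p m t)) := by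
  have hs : 0 < 3 / 2 * C ^ (1 / 3 : ℝ) := by positivity
  have hrest := T1_rest C ch lam y1 x2 K K' hC Q hG hy1 hh hx2 (3 / 2 * C ^ (1 / 3 : ℝ)) hs hX hY
  constructor
  · have h4 := T1_F4 ch x2 y1 K lam (3 / 2 * C ^ (1 / 3 : ℝ)) hs Q.h Q.X hx2 hX hy1 hh hG.K1 hG.Xl
    have h5 := (hrest.to4.add h4).cast (d' := 3 / 8 * ch * (3 / 2 * C ^ (1 / 3 : ℝ)) ^ 2)
      (E' := 9 / 32 * lam * ch * (3 / 2 * C ^ (1 / 3 : ℝ)) ^ 2) (by ring) (by ring)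
    refine h5.congr' (Filter.Eventually.of_forall fun t => ?_)
    simp only
    ring
  · intro hlam
    have hX' : PE x2 4 (fun n : ℕ => Q.X n - 3 / 2 * C ^ (1 / 3 : ℝ) * (n : ℝ) ^ (2 / 3 : ℝ)) := by
      refine hX.congr' (Filter.Eventually.of_forall fun n => ?_)
      simp [hlam]
    have h4 := T1_F6 ch x2 y1 K (3 / 2 * C ^ (1 / 3 : ℝ)) hs Q.h Q.X hx2 hX' hy1 hh hG.K1 hG.Xl
    have h5 := (hrest.add h4).cast (d' := 3 / 8 * ch * (3 / 2 * C ^ (1 / 3 : ℝ)) ^ 2)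
      (E' := -(3 / 256) * C * ch * (3 / 2 * C ^ (1 / 3 : ℝ)) ^ 2) (by ring) (by ring)
    refine h5.congr' (Filter.Eventually.of_forall fun t => ?_)
    simp only
    ring


end Pool.Agent.FW
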