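import Pool.Agent.Helper155.FW.Defs

set_option autoImplicit false
open Filter Asymptotics Topology

namespace Pool.Agent.FW

/-! ## TARGETS (prove these) -/

/-- error scale -/
noncomputable def esR (t : ℝ) : ℝ := t ^ 6 * |Real.log t|

/-- the small logarithmic function -/
noncomputable def esX (t : ℝ) : ℝ := t ^ 3 * Real.log t

theorem es_ev : ∀ᶠ t : ℝ in 𝓝[>] 0,
    0 < t ∧ t ≤ 1 ∧ 1 ≤ |Real.log t| ∧ t * |Real.log t| ≤ 1 := by
  have h : Set.Ioo (0 : ℝ) (Real.exp (-1)) ∈ 𝓝[>] (0 : ℝ) := Ioo_mem_nhdsGT (Real.exp_pos _)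
  filter_upwards [h] with t ht
  have ht0 := ht.1
  have h1 : Real.exp (-1) ≤ 1 := Real.exp_le_one_iff.mpr (by norm_num)
  have h3 : Real.log t ≤ -1 := by
    have := Real.log_lt_log ht.1 ht.2
    rw [Real.log_exp] at this
    linarith
  have h4 : |Real.log t| = - Real.log t := abs_of_neg (by linarith)
  have h5 : - Real.log t ≤ 1 / t := by
    have h6 := Real.log_le_sub_one_of_pos (show 0 < 1 / t by positivity)
    rw [Real.log_div one_ne_zero ht.1.ne', Real.log_one] at h6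
    linarith
  refine ⟨ht0, by linarith [ht.2], by rw [h4]; linarith, ?_⟩
  rw [h4]
  rw [le_div_iff₀ ht0] at h5
  linarith

theorem es_t6 : (fun t : ℝ => t ^ 6) =O[𝓝[>] 0] esR := by
  apply IsBigO.of_bound 1
  filter_upwards [es_ev] with t ht
  obtain ⟨h0, h1, h2, h3⟩ := ht
  unfold esR
  rw [Real.norm_eq_abs, Real.norm_eq_abs, abs_of_pos (by positivity), abs_of_nonneg (by positivity),
    one_mul]
  have : 0 < t ^ 6 := by positivity
  nlinarith

theorem es_R_t : esR =O[𝓝[>] 0] (fun t : ℝ => t) := by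
  apply IsBigO.of_bound 1
  filter_upwards [es_ev] with t ht
  obtain ⟨h0, h1, h2, h3⟩ := ht
  unfold esR
  rw [Real.norm_eq_abs, Real.norm_eq_abs, abs_of_nonneg (by positivity), abs_of_pos h0, one_mul]
  have h4 : t ^ 4 ≤ 1 := pow_le_one₀ h0.le h1
  calc t ^ 6 * |Real.log t| = t * (t ^ 4 * (t * |Real.log t|)) := by ring
    _ ≤ t * (1 * 1) := by gcongr
    _ = t := by ring

theorem es_X_t : esX =O[𝓝[>] 0] (fun t : ℝ => t) := by
  apply IsBigO.of_bound 1
  filter_upwards [es_ev] with t ht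
  obtain ⟨h0, h1, h2, h3⟩ := ht
  unfold esX
  rw [norm_mul, Real.norm_eq_abs, Real.norm_eq_abs, Real.norm_eq_abs, abs_of_pos h0,
    abs_of_pos (by positivity : (0 : ℝ) < t ^ 3), one_mul]
  calc t ^ 3 * |Real.log t| = t * (t * (t * |Real.log t|)) := by ring
    _ ≤ t * (1 * 1) := by gcongr
    _ = t := by ring

theorem es_t_one : (fun t : ℝ => t) =O[𝓝[>] 0] (fun _ : ℝ => (1 : ℝ)) := by
  apply IsBigO.of_bound 1
  filter_upwards [es_ev] with t ht
  obtain ⟨h0, h1, h2, h3⟩ := ht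
  rw [Real.norm_eq_abs, abs_of_pos h0]
  simpa using h1

theorem es_X3 : (fun t : ℝ => esX t ^ 3) =O[𝓝[>] 0] esR := by
  apply IsBigO.of_bound 1
  filter_upwards [es_ev] with t ht
  obtain ⟨h0, h1, h2, h3⟩ := ht
  unfold esX esR
  rw [norm_pow, norm_mul, Real.norm_eq_abs, Real.norm_eq_abs, Real.norm_eq_abs,
    abs_of_nonneg (by positivity : (0 : ℝ) ≤ t ^ 6 * |Real.log t|),
    abs_of_pos (by positivity : (0 : ℝ) < t ^ 3), one_mul]
  calc (t ^ 3 * |Real.log t|) ^ 3 = t ^ 6 * |Real.log t| * (t * ((t * |Real.log t|)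
        * (t * |Real.log t|))) := by ring
    _ ≤ t ^ 6 * |Real.log t| * (1 * (1 * 1)) := by gcongr
    _ = _ := by ring

theorem es_X2t : (fun t : ℝ => esX t ^ 2 * t) =O[𝓝[>] 0] esR := by
  apply IsBigO.of_bound 1
  filter_upwards [es_ev] with t ht
  obtain ⟨h0, h1, h2, h3⟩ := ht
  unfold esX esR
  rw [norm_mul, norm_pow, norm_mul, Real.norm_eq_abs, Real.norm_eq_abs, Real.norm_eq_abs,
    Real.norm_eq_abs,
    abs_of_nonneg (by positivity : (0 : ℝ) ≤ t ^ 6 * |Real.log t|),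
    abs_of_pos (by positivity : (0 : ℝ) < t ^ 3), abs_of_pos h0, one_mul]
  calc (t ^ 3 * |Real.log t|) ^ 2 * t = t ^ 6 * |Real.log t| * (t * |Real.log t|) := by ring
    _ ≤ t ^ 6 * |Real.log t| * 1 := by gcongr
    _ = _ := by ring

theorem es_Xt3 : (fun t : ℝ => esX t * t ^ 3) =O[𝓝[>] 0] esR := by
  apply IsBigO.of_bound 1
  filter_upwards [es_ev] with t ht
  obtain ⟨h0, h1, h2, h3⟩ := ht
  unfold esX esR
  rw [norm_mul, norm_mul, Real.norm_eq_abs, Real.norm_eq_abs, Real.norm_eq_abs,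
    abs_of_nonneg (by positivity : (0 : ℝ) ≤ t ^ 6 * |Real.log t|),
    abs_of_pos (by positivity : (0 : ℝ) < t ^ 3), one_mul]
  apply le_of_eq
  ring

theorem es_X_one : esX =O[𝓝[>] 0] (fun _ : ℝ => (1 : ℝ)) := es_X_t.trans es_t_one

theorem es_R_one : esR =O[𝓝[>] 0] (fun _ : ℝ => (1 : ℝ)) := es_R_t.trans es_t_one

theorem es_poly (P : Polynomial ℝ) : (fun t : ℝ => P.eval t) =O[𝓝[>] 0] (fun _ : ℝ => (1 : ℝ)) :=
  ((P.continuous.tendsto 0).mono_left nhdsWithin_le_nhds).isBigO_one ℝ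

theorem es_mul_one {f g h : ℝ → ℝ} (hf : f =O[𝓝[>] 0] h)
    (hg : g =O[𝓝[>] 0] (fun _ : ℝ => (1 : ℝ))) : (fun t => f t * g t) =O[𝓝[>] 0] h := by
  have := hf.mul hg
  simpa using this

/-- the model function -/
noncomputable def esS (P Q B : Polynomial ℝ) (t : ℝ) : ℝ :=
  P.eval t + esX t * Q.eval t + esX t ^ 2 * B.eval t

/-- expansions -/
def esE (f : ℝ → ℝ) (p q b : ℝ) : Prop :=
  ∃ P Q B : Polynomial ℝ, P.eval 0 = p ∧ Q.eval 0 = q ∧ B.eval 0 = b ∧
    (fun t => f t - esS P Q B t) =O[𝓝[>] 0] esR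

theorem es_S_one (P Q B : Polynomial ℝ) :
    (esS P Q B) =O[𝓝[>] 0] (fun _ : ℝ => (1 : ℝ)) := by
  have h1 := es_poly P
  have h2 := es_mul_one es_X_one (es_poly Q)
  have h3 : (fun t => esX t ^ 2 * B.eval t) =O[𝓝[>] 0] (fun _ : ℝ => (1 : ℝ)) := by
    have h4 := es_mul_one (es_mul_one es_X_one es_X_one) (es_poly B)
    refine h4.congr_left (fun t => by ring)
  exact (h1.add h2).add h3

theorem esE.one {f : ℝ → ℝ} {p q b : ℝ} (h : esE f p q b) :
    f =O[𝓝[>] 0] (fun _ : ℝ => (1 : ℝ)) := by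
  obtain ⟨P, Q, B, _, _, _, h⟩ := h
  have h1 := (h.trans es_R_one).add (es_S_one P Q B)
  refine h1.congr_left (fun t => by ring)

theorem esE.congr {f g : ℝ → ℝ} {p q b : ℝ} (h : esE f p q b)
    (hfg : f =ᶠ[𝓝[>] 0] g) : esE g p q b := by
  obtain ⟨P, Q, B, h1, h2, h3, h⟩ := h
  refine ⟨P, Q, B, h1, h2, h3, ?_⟩
  refine h.congr' ?_ (EventuallyEq.refl _ _)
  filter_upwards [hfg] with t ht
  rw [ht]

theorem esE.coef {f : ℝ → ℝ} {p q b p' q' b' : ℝ} (h : esE f p q b)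
    (h1 : p = p') (h2 : q = q') (h3 : b = b') : esE f p' q' b' := by
  subst h1 h2 h3
  exact h

theorem esE.err {f g : ℝ → ℝ} {p q b : ℝ} (h : esE f p q b)
    (hfg : (fun t => g t - f t) =O[𝓝[>] 0] esR) : esE g p q b := by
  obtain ⟨P, Q, B, h1, h2, h3, h⟩ := h
  refine ⟨P, Q, B, h1, h2, h3, ?_⟩
  exact (hfg.add h).congr_left (fun t => by ring)

theorem esE.poly (P : Polynomial ℝ) : esE (fun t => P.eval t) (P.eval 0) 0 0 := by
  refine ⟨P, 0, 0, rfl, by simp, by simp, ?_⟩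
  have : (fun t => P.eval t - esS P 0 0 t) = fun _ => (0 : ℝ) := by
    funext t
    unfold esS
    simp
  rw [this]
  exact isBigO_zero _ _

theorem esE.add {f g : ℝ → ℝ} {p q b p' q' b' : ℝ} (hf : esE f p q b) (hg : esE g p' q' b') :
    esE (fun t => f t + g t) (p + p') (q + q') (b + b') := by
  obtain ⟨P, Q, B, h1, h2, h3, h⟩ := hf
  obtain ⟨P', Q', B', h1', h2', h3', h'⟩ := hg
  refine ⟨P + P', Q + Q', B + B', by simp [h1, h1'], by simp [h2, h2'], by simp [h3, h3'], ?_⟩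
  refine (h.add h').congr_left (fun t => ?_)
  unfold esS
  simp only [Polynomial.eval_add]
  ring

theorem esE.const_mul {f : ℝ → ℝ} {p q b : ℝ} (c : ℝ) (hf : esE f p q b) :
    esE (fun t => c * f t) (c * p) (c * q) (c * b) := by
  obtain ⟨P, Q, B, h1, h2, h3, h⟩ := hf
  refine ⟨Polynomial.C c * P, Polynomial.C c * Q, Polynomial.C c * B, by simp [h1], by simp [h2],
    by simp [h3], ?_⟩
  refine (h.const_mul_left c).congr_left (fun t => ?_)
  unfold esS
  simp only [Polynomial.eval_mul, Polynomial.eval_C]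
  ring

theorem esE.mul {f g : ℝ → ℝ} {p q b p' q' b' : ℝ} (hf : esE f p q b) (hg : esE g p' q' b') :
    esE (fun t => f t * g t) (p * p') (p * q' + p' * q) (q * q' + p * b' + p' * b) := by
  have hg1 := hg.one
  obtain ⟨P, Q, B, h1, h2, h3, h⟩ := hf
  obtain ⟨P', Q', B', h1', h2', h3', h'⟩ := hg
  refine ⟨P * P', P * Q' + P' * Q, Q * Q' + P * B' + P' * B, by simp [h1, h1'],
    by simp [h1, h1', h2, h2'], by simp [h1, h1', h2, h2', h3, h3'], ?_⟩
  have k1 := es_mul_one h hg1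
  have k2 := es_mul_one h' (es_S_one P Q B)
  have k3 := es_mul_one es_X3 (es_poly (Q * B' + Q' * B))
  have k4 := es_mul_one (es_mul_one es_X3 es_X_one) (es_poly (B * B'))
  refine (((k1.add k2).add k3).add k4).congr_left (fun t => ?_)
  unfold esS
  simp only [Polynomial.eval_mul, Polynomial.eval_add]
  ring

theorem es_eval (P : Polynomial ℝ) (t : ℝ) :
    P.eval t = P.eval 0 + t * P.divX.eval t := by
  conv_lhs => rw [← Polynomial.divX_mul_X_add P]
  rw [Polynomial.eval_add, Polynomial.eval_mul, Polynomial.eval_X, Polynomial.eval_C,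
    Polynomial.coeff_zero_eq_eval_zero]
  ring

/-- functions without constant term are small -/
theorem esE.small {f : ℝ → ℝ} {q b : ℝ} (h : esE f 0 q b) :
    f =O[𝓝[>] 0] (fun t : ℝ => t) := by
  obtain ⟨P, Q, B, h1, _, _, h⟩ := h
  have k1 := es_mul_one (isBigO_refl (fun t : ℝ => t) (𝓝[>] 0)) (es_poly P.divX)
  have k2 := es_mul_one es_X_t (es_poly Q)
  have k3 := es_mul_one (es_mul_one es_X_t es_X_one) (es_poly B)
  refine ((((h.trans es_R_t).add k1).add k2).add k3).congr_left (fun t => ?_)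
  unfold esS
  rw [es_eval P t, h1]
  ring

/-- inverse of `1 + u` -/
theorem esE.inv1 {u : ℝ → ℝ} {q b : ℝ} (h : esE u 0 q b) :
    esE (fun t => (1 + u t)⁻¹) 1 (-q) (q ^ 2 - b) := by
  have h0 : Tendsto u (𝓝[>] 0) (𝓝 0) := by
    have k : Tendsto (fun t : ℝ => t) (𝓝[>] 0) (𝓝 0) :=
      (continuous_id.tendsto 0).mono_left nhdsWithin_le_nhds
    exact h.small.trans_tendsto k
  have hone : esE (fun _ => (1 : ℝ)) 1 0 0 := by
    have := esE.poly 1
    simpa using this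
  have h2 := h.mul h
  have h3 := h2.mul h
  have h4 := h3.mul h
  have h5 := h4.mul h
  have hs := ((((hone.add (h.const_mul (-1))).add h2).add (h3.const_mul (-1))).add h4).add
    (h5.const_mul (-1))
  have hE : esE (fun t => 1 - u t + u t ^ 2 - u t ^ 3 + u t ^ 4 - u t ^ 5) 1 (-q) (q ^ 2 - b) := by
    refine (hs.congr ?_).coef (by ring) (by ring) (by ring)
    exact Eventually.of_forall (fun t => by ring)
  refine hE.err ?_
  have h6 : (fun t => u t ^ 6) =O[𝓝[>] 0] esR := (h.small.pow 6).trans es_t6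
  have hinv : (fun t => (1 + u t)⁻¹) =O[𝓝[>] 0] (fun _ : ℝ => (1 : ℝ)) := by
    have k : Tendsto (fun t => (1 + u t)⁻¹) (𝓝[>] 0) (𝓝 ((1 + 0 : ℝ)⁻¹)) :=
      (tendsto_const_nhds.add h0).inv₀ (by norm_num)
    exact k.isBigO_one ℝ
  have h7 := es_mul_one h6 hinv
  refine h7.congr' ?_ (EventuallyEq.refl _ _)
  have hne : ∀ᶠ t in 𝓝[>] 0, -(1 / 2) < u t := h0.eventually_const_lt (by norm_num)
  filter_upwards [hne] with t ht
  have : 1 + u t ≠ 0 := by linarith
  field_simp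
  ring

theorem esE.inv {g : ℝ → ℝ} {p q b : ℝ} (h : esE g p q b) (hp : p ≠ 0) :
    esE (fun t => (g t)⁻¹) p⁻¹ (-(q / p ^ 2)) (q ^ 2 / p ^ 3 - b / p ^ 2) := by
  have hone : esE (fun _ => (-1 : ℝ)) (-1) 0 0 := by
    have := esE.poly (-1)
    simpa using this
  have hu := (h.const_mul p⁻¹).add hone
  have hu' : esE (fun t => p⁻¹ * g t - 1) 0 (p⁻¹ * q) (p⁻¹ * b) := by
    refine (hu.congr ?_).coef (by rw [inv_mul_cancel₀ hp]; ring) (by ring) (by ring)
    exact Eventually.of_forall (fun t => by ring)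
  have hi := (hu'.inv1).const_mul p⁻¹
  refine (hi.congr ?_).coef (by ring) (by field_simp) (by field_simp)
  refine Eventually.of_forall (fun t => ?_)
  simp only
  rw [add_sub_cancel, mul_inv, inv_inv, ← mul_assoc, inv_mul_cancel₀ hp, one_mul]

/-- exponentials -/
theorem esE.exp (V : Polynomial ℝ) (hV : V.eval 0 = 0) :
    esE (fun t => Real.exp (V.eval t)) 1 0 0 := by
  let W : Polynomial ℝ := ∑ k ∈ Finset.range 6, Polynomial.C ((k.factorial : ℝ)⁻¹) * V ^ k
  have hW : ∀ t, W.eval t = ∑ k ∈ Finset.range 6, V.eval t ^ k / (k.factorial : ℝ) := by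
    intro t
    simp only [W, Polynomial.eval_finsetSum, Polynomial.eval_mul, Polynomial.eval_C,
      Polynomial.eval_pow]
    apply Finset.sum_congr rfl
    intro k _
    ring
  have hW0 : W.eval 0 = 1 := by
    rw [hW 0, hV]
    simp [Finset.sum_range_succ]
  have h1 := (esE.poly W).coef hW0 rfl rfl
  refine h1.err ?_
  have hs : (fun t => V.eval t) =O[𝓝[>] 0] (fun t : ℝ => t) := ((esE.poly V).coef hV rfl rfl).small
  have h0 : Tendsto (fun t => V.eval t) (𝓝[>] 0) (𝓝 0) := by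
    have k : Tendsto (fun t : ℝ => t) (𝓝[>] 0) (𝓝 0) :=
      (continuous_id.tendsto 0).mono_left nhdsWithin_le_nhds
    exact hs.trans_tendsto k
  have h6 : (fun t => V.eval t ^ 6) =O[𝓝[>] 0] esR := (hs.pow 6).trans es_t6
  refine IsBigO.trans ?_ h6
  apply IsBigO.of_bound (((Nat.succ 6 : ℕ) : ℝ) / (((Nat.factorial 6 : ℕ) : ℝ) * (6 : ℕ)))
  have hab : ∀ᶠ t in 𝓝[>] 0, |V.eval t| < 1 := by
    have := h0.abs
    rw [abs_zero] at this
    exact this.eventually_lt_const one_pos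
  filter_upwards [hab] with t ht
  have hb := Real.exp_bound ht.le (n := 6) (by norm_num)
  rw [hW t, Real.norm_eq_abs, norm_pow, Real.norm_eq_abs]
  rw [mul_comm] at hb
  exact hb

/-- the exact side: `ζ_0` in terms of `m(t)` -/
theorem exact_side (A0 b0 c0 d0 g0 kap e1 e3 e5 K t0 : ℝ) (m ζ0 : ℝ → ℝ)
    (hm : (fun t : ℝ => m t - (Real.pi + e1 * t + e3 * t ^ 3 - 2 * t ^ 3 * Real.log t + e5 * t ^ 5))
      =O[𝓝[>] 0] (fun t : ℝ => t ^ 6))
    (ht0 : 0 < t0) (hpos : ∀ t : ℝ, 0 < t → 0 < kap / m t)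
    (hζ : ∀ t : ℝ, 0 < t → t ≤ t0 → ζ0 t =
      Real.exp (-(t * (2 * A0) + t ^ 3 * (2 * c0) + t ^ 5 * (2 * g0)))
        * (Real.exp (t * A0 + t ^ 2 * b0 + t ^ 3 * c0 + t ^ 4 * d0 + t ^ 5 * g0) - kap / m t)
        / (kap / m t + Real.exp (-(t * A0 - t ^ 2 * b0 + t ^ 3 * c0 - t ^ 4 * d0 + t ^ 5 * g0))))
    (hsmall : ∀ t : ℝ, 0 < t → t ≤ t0 → |ζ0 t| ≤ K * t) :
    ∃ a1 a2 a3 a4 a5 l4 l5 : ℝ,
      (fun t : ℝ => ζ0 t - (a1 * t + a2 * t ^ 2 + a3 * t ^ 3 + a4 * t ^ 4 + a5 * t ^ 5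
          - 1 / Real.pi * t ^ 3 * Real.log t + l4 * t ^ 4 * Real.log t + l5 * t ^ 5 * Real.log t
          - 1 / Real.pi ^ 2 * t ^ 6 * Real.log t ^ 2))
        =O[𝓝[>] 0] (fun t : ℝ => t ^ 6 * |Real.log t|) := by
  have hmE : esE m Real.pi (-2) 0 := by
    have hP : esE (fun t => (Polynomial.C Real.pi + Polynomial.C e1 * Polynomial.X
        + Polynomial.C e3 * Polynomial.X ^ 3 + Polynomial.C e5 * Polynomial.X ^ 5).eval t)
        Real.pi 0 0 := by
      refine (esE.poly _).coef (by simp) rfl rfl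
    refine ⟨Polynomial.C Real.pi + Polynomial.C e1 * Polynomial.X
        + Polynomial.C e3 * Polynomial.X ^ 3 + Polynomial.C e5 * Polynomial.X ^ 5,
        Polynomial.C (-2), 0, by simp, by simp, by simp, ?_⟩
    refine (hm.trans es_t6).congr_left (fun t => ?_)
    unfold esS esX
    simp only [Polynomial.eval_add, Polynomial.eval_mul, Polynomial.eval_C, Polynomial.eval_X,
      Polynomial.eval_pow, Polynomial.eval_zero]
    ring
  have hmi := hmE.inv Real.pi_ne_zero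
  have hexp : ∀ V : Polynomial ℝ, V.eval 0 = 0 →
      Tendsto (fun t => Real.exp (V.eval t)) (𝓝[>] 0) (𝓝 1) := by
    intro V hV
    have h1 : Continuous (fun t => Real.exp (V.eval t)) := Real.continuous_exp.comp V.continuous
    have h2 := h1.tendsto 0
    rw [hV, Real.exp_zero] at h2
    exact h2.mono_left nhdsWithin_le_nhds
  have hlimE : ∀ {f : ℝ → ℝ} {p q b : ℝ}, esE f p q b → Tendsto f (𝓝[>] 0) (𝓝 p) := by
    intro f p q b h
    have hone : esE (fun _ => (-p : ℝ)) (-p) 0 0 := by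
      have := esE.poly (Polynomial.C (-p))
      simpa using this
    have h1 := (h.add hone).coef (add_neg_cancel p) rfl rfl
    have k : Tendsto (fun t : ℝ => t) (𝓝[>] 0) (𝓝 0) :=
      (continuous_id.tendsto 0).mono_left nhdsWithin_le_nhds
    have h2 := h1.small.trans_tendsto k
    have h3 := h2.add (tendsto_const_nhds (x := p))
    rw [zero_add] at h3
    refine h3.congr (fun t => by ring)
  -- polynomials in the exponents
  let V1 : Polynomial ℝ := Polynomial.C (-(2 * A0)) * Polynomial.X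
    + Polynomial.C (-(2 * c0)) * Polynomial.X ^ 3 + Polynomial.C (-(2 * g0)) * Polynomial.X ^ 5
  let V2 : Polynomial ℝ := Polynomial.C A0 * Polynomial.X + Polynomial.C b0 * Polynomial.X ^ 2
    + Polynomial.C c0 * Polynomial.X ^ 3 + Polynomial.C d0 * Polynomial.X ^ 4
    + Polynomial.C g0 * Polynomial.X ^ 5
  let V3 : Polynomial ℝ := Polynomial.C (-A0) * Polynomial.X + Polynomial.C b0 * Polynomial.X ^ 2
    + Polynomial.C (-c0) * Polynomial.X ^ 3 + Polynomial.C d0 * Polynomial.X ^ 4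
    + Polynomial.C (-g0) * Polynomial.X ^ 5
  have hV1 : ∀ t, V1.eval t = -(t * (2 * A0) + t ^ 3 * (2 * c0) + t ^ 5 * (2 * g0)) := by
    intro t
    simp only [V1, Polynomial.eval_add, Polynomial.eval_mul, Polynomial.eval_C, Polynomial.eval_X,
      Polynomial.eval_pow]
    ring
  have hV2 : ∀ t, V2.eval t = t * A0 + t ^ 2 * b0 + t ^ 3 * c0 + t ^ 4 * d0 + t ^ 5 * g0 := by
    intro t
    simp only [V2, Polynomial.eval_add, Polynomial.eval_mul, Polynomial.eval_C, Polynomial.eval_X,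
      Polynomial.eval_pow]
    ring
  have hV3 : ∀ t, V3.eval t = -(t * A0 - t ^ 2 * b0 + t ^ 3 * c0 - t ^ 4 * d0 + t ^ 5 * g0) := by
    intro t
    simp only [V3, Polynomial.eval_add, Polynomial.eval_mul, Polynomial.eval_C, Polynomial.eval_X,
      Polynomial.eval_pow]
    ring
  have hV10 : V1.eval 0 = 0 := by rw [hV1]; ring
  have hV20 : V2.eval 0 = 0 := by rw [hV2]; ring
  have hV30 : V3.eval 0 = 0 := by rw [hV3]; ring
  have hevt : ∀ᶠ t : ℝ in 𝓝[>] 0, 0 < t ∧ t ≤ t0 := by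
    have h : Set.Ioo (0 : ℝ) t0 ∈ 𝓝[>] (0 : ℝ) := Ioo_mem_nhdsGT ht0
    filter_upwards [h] with t ht
    exact ⟨ht.1, ht.2.le⟩
  have hζlim : Tendsto ζ0 (𝓝[>] 0) (𝓝 0) := by
    have k : Tendsto (fun t : ℝ => K * t) (𝓝[>] 0) (𝓝 0) := by
      have h1 : Continuous (fun t : ℝ => K * t) := by fun_prop
      have h2 := h1.tendsto 0
      rw [mul_zero] at h2
      exact h2.mono_left nhdsWithin_le_nhds
    apply squeeze_zero_norm' _ k
    filter_upwards [hevt] with t ht
    rw [Real.norm_eq_abs]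
    exact hsmall t ht.1 ht.2
  have hkm : Tendsto (fun t => kap / m t) (𝓝[>] 0) (𝓝 (kap / Real.pi)) :=
    tendsto_const_nhds.div (hlimE hmE) Real.pi_ne_zero
  have hkap : kap = Real.pi := by
    have h1 : Tendsto (fun t => ζ0 t * (kap / m t + Real.exp (V3.eval t))) (𝓝[>] 0)
        (𝓝 (0 * (kap / Real.pi + 1))) := hζlim.mul (hkm.add (hexp V3 hV30))
    have h2 : Tendsto (fun t => Real.exp (V1.eval t) * (Real.exp (V2.eval t) - kap / m t))
        (𝓝[>] 0) (𝓝 (1 * (1 - kap / Real.pi))) :=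
      (hexp V1 hV10).mul ((hexp V2 hV20).sub hkm)
    have h3 : (fun t => ζ0 t * (kap / m t + Real.exp (V3.eval t))) =ᶠ[𝓝[>] 0]
        (fun t => Real.exp (V1.eval t) * (Real.exp (V2.eval t) - kap / m t)) := by
      filter_upwards [hevt] with t ht
      have hp : 0 < kap / m t + Real.exp (V3.eval t) := add_pos (hpos t ht.1) (Real.exp_pos _)
      rw [hζ t ht.1 ht.2, ← hV1, ← hV2, ← hV3, div_mul_cancel₀ _ hp.ne']
    have h4 := tendsto_nhds_unique (h1.congr' h3) h2
    have h5 : kap / Real.pi = 1 := by linarith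
    rwa [div_eq_one_iff_eq Real.pi_ne_zero] at h5
  have hkE : esE (fun t => kap / m t) 1 (2 / Real.pi) (4 / Real.pi ^ 2) := by
    refine ((hmi.const_mul Real.pi).congr ?_).coef ?_ ?_ ?_
    · refine Eventually.of_forall (fun t => ?_)
      simp only
      rw [hkap, div_eq_mul_inv]
    · exact mul_inv_cancel₀ Real.pi_ne_zero
    · have := Real.pi_ne_zero
      field_simp
    · have := Real.pi_ne_zero
      field_simp
      norm_num
  have hN := (esE.exp V1 hV10).mul ((esE.exp V2 hV20).add (hkE.const_mul (-1)))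
  have hD := hkE.add (esE.exp V3 hV30)
  have hDi := hD.inv (by norm_num)
  have hQ := hN.mul hDi
  have hfin : esE ζ0 0 (-(1 / Real.pi)) (-(1 / Real.pi ^ 2)) := by
    refine (hQ.congr ?_).coef (by ring) ?_ ?_
    · filter_upwards [hevt] with t ht
      rw [hζ t ht.1 ht.2, ← hV1, ← hV2, ← hV3]
      ring
    · have := Real.pi_ne_zero
      field_simp
      ring
    · have := Real.pi_ne_zero
      field_simp
      ring
  obtain ⟨P, Q, B, hP, hQ', hB, hO⟩ := hfin
  refine ⟨P.divX.eval 0, P.divX.divX.eval 0, P.divX.divX.divX.eval 0,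
    P.divX.divX.divX.divX.eval 0, P.divX.divX.divX.divX.divX.eval 0,
    Q.divX.eval 0, Q.divX.divX.eval 0, ?_⟩
  have k1 := es_mul_one es_t6 (es_poly P.divX.divX.divX.divX.divX.divX)
  have k2 := es_mul_one es_Xt3 (es_poly Q.divX.divX.divX)
  have k3 := es_mul_one es_X2t (es_poly B.divX)
  have k4 := ((hO.add k1).add k2).add k3
  refine IsBigO.congr_left k4 (fun t => ?_)
  unfold esS
  rw [es_eval P t, hP, es_eval P.divX t, es_eval P.divX.divX t, es_eval P.divX.divX.divX t,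
    es_eval P.divX.divX.divX.divX t, es_eval P.divX.divX.divX.divX.divX t,
    es_eval Q t, hQ', es_eval Q.divX t, es_eval Q.divX.divX t, es_eval B t, hB]
  unfold esX
  ring


end Pool.Agent.FW
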