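import Pool.Agent.Helper155.FW.Defs
import Pool.Agent.Helper155.FW.J2a

set_option autoImplicit false
open Filter Asymptotics Topology

namespace Pool.Agent.FW

/-! ## AVAILABLE (proved by others; use freely) -/










/-! ## TARGETS (prove these) -/

theorem LX_pl (a y k : ℝ) (h : a < y) :
    (fun t : ℝ => t ^ y * |Real.log t| ^ k) =o[𝓝[>] 0] (fun t : ℝ => t ^ a) := by
  have h1 := isLittleO_abs_log_rpow_rpow_nhdsGT_zero k (show a - y < 0 by linarith)
  have h2 := (isBigO_refl (fun t : ℝ => t ^ y) (𝓝[>] 0)).mul_isLittleO h1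
  refine h2.congr' EventuallyEq.rfl ?_
  filter_upwards [self_mem_nhdsWithin] with t ht
  rw [← Real.rpow_add ht]
  congr 1
  ring

theorem LX_term (a x c d : ℝ) (h : a < x) :
    (fun t : ℝ => (c + d * Real.log t) * t ^ x) =o[𝓝[>] 0] (fun t : ℝ => t ^ a) := by
  have h0 : (fun t : ℝ => c * t ^ x) =o[𝓝[>] 0] (fun t : ℝ => t ^ a) := by
    apply IsLittleO.const_mul_left
    have := LX_pl a x 0 h
    simpa using this
  have h1 : (fun t : ℝ => d * (t ^ x * Real.log t)) =o[𝓝[>] 0] (fun t : ℝ => t ^ a) := by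
    apply IsLittleO.const_mul_left
    have h2 := LX_pl a x 1 h
    refine IsBigO.trans_isLittleO ?_ h2
    apply IsBigO.of_bound 1
    filter_upwards with t
    rw [norm_mul, norm_mul, one_mul, Real.rpow_one, Real.norm_eq_abs (|Real.log t|), abs_abs,
      Real.norm_eq_abs (Real.log t)]
  refine (h0.add h1).congr_left ?_
  intro t
  ring

theorem LX_sq (a r e : ℝ) (h : a < r) :
    (fun t : ℝ => e * t ^ r * Real.log t ^ 2) =o[𝓝[>] 0] (fun t : ℝ => t ^ a) := by
  have h1 : (fun t : ℝ => e * (t ^ r * Real.log t ^ 2)) =o[𝓝[>] 0] (fun t : ℝ => t ^ a) := by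
    apply IsLittleO.const_mul_left
    have h2 := LX_pl a r 2 h
    refine IsBigO.trans_isLittleO ?_ h2
    apply IsBigO.of_bound 1
    filter_upwards with t
    rw [norm_mul, norm_mul, one_mul, Real.rpow_two, sq_abs]
  refine h1.congr_left ?_
  intro t
  ring

theorem LX_inv : Tendsto (fun t : ℝ => (Real.log t)⁻¹) (𝓝[>] 0) (𝓝 0) :=
  tendsto_inv_atBot_zero.comp Real.tendsto_log_nhdsGT_zero

theorem LX_lin (c d : ℝ) (h : Tendsto (fun t : ℝ => c + d * Real.log t) (𝓝[>] 0) (𝓝 0)) :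
    c = 0 ∧ d = 0 := by
  have hlog : ∀ᶠ t : ℝ in 𝓝[>] 0, Real.log t ≠ 0 := by
    filter_upwards [Real.tendsto_log_nhdsGT_zero.eventually (eventually_lt_atBot 0)] with t ht
    exact ht.ne
  have h1 := h.mul LX_inv
  have h2 : Tendsto (fun t : ℝ => c * (Real.log t)⁻¹ + d) (𝓝[>] 0) (𝓝 (c * 0 + d)) :=
    (LX_inv.const_mul c).add_const d
  have h3 : (fun t : ℝ => (c + d * Real.log t) * (Real.log t)⁻¹)
      =ᶠ[𝓝[>] 0] (fun t : ℝ => c * (Real.log t)⁻¹ + d) := by
    filter_upwards [hlog] with t ht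
    field_simp
  have h4 := tendsto_nhds_unique (h1.congr' h3) h2
  have hd : d = 0 := by linarith
  subst hd
  refine ⟨?_, rfl⟩
  simp only [zero_mul, add_zero] at h
  exact tendsto_nhds_unique tendsto_const_nhds h

theorem LX_key (r : ℝ) (c d : ℝ → ℝ) (S : Finset ℝ) :
    (∀ x ∈ S, x < r) → ∀ e : ℝ,
    (fun t : ℝ => ∑ x ∈ S, (c x + d x * Real.log t) * t ^ x + e * t ^ r * Real.log t ^ 2)
      =O[𝓝[>] 0] (fun t : ℝ => t ^ r * |Real.log t|) →
    (∀ x ∈ S, c x = 0 ∧ d x = 0) ∧ e = 0 := by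
  induction S using Finset.induction_on_min with
  | empty =>
    intro _ e he
    refine ⟨by simp, ?_⟩
    simp only [Finset.sum_empty, zero_add] at he
    by_contra hne
    obtain ⟨C, hC⟩ := he.bound
    have h1 : ∀ᶠ t : ℝ in 𝓝[>] 0, Real.log t < -(C / |e|) - 1 :=
      Real.tendsto_log_nhdsGT_zero.eventually (eventually_lt_atBot _)
    have h1' : ∀ᶠ t : ℝ in 𝓝[>] 0, Real.log t < 0 :=
      Real.tendsto_log_nhdsGT_zero.eventually (eventually_lt_atBot _)
    have h2 := ((hC.and h1).and h1').and (self_mem_nhdsWithin : ∀ᶠ t : ℝ in 𝓝[>] 0, t ∈ Set.Ioi 0)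
    obtain ⟨t, ⟨⟨ht1, ht2⟩, ht3⟩, ht4⟩ := h2.exists
    have ht0 : 0 < t := ht4
    rw [norm_mul, norm_mul, norm_mul, norm_pow, Real.norm_eq_abs, Real.norm_eq_abs, Real.norm_eq_abs,
      Real.norm_eq_abs, abs_abs, abs_of_pos (Real.rpow_pos_of_pos ht0 r)] at ht1
    have hp : 0 < t ^ r := Real.rpow_pos_of_pos ht0 r
    have hl : 0 < |Real.log t| := abs_pos.mpr ht3.ne
    have he0 : 0 < |e| := abs_pos.mpr hne
    have h3 : |e| * |Real.log t| ≤ C := by
      have : |e| * |Real.log t| * (t ^ r * |Real.log t|) ≤ C * (t ^ r * |Real.log t|) := by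
        calc |e| * |Real.log t| * (t ^ r * |Real.log t|) = |e| * t ^ r * |Real.log t| ^ 2 := by ring
          _ ≤ _ := ht1
      exact le_of_mul_le_mul_right this (by positivity)
    have h4 : |Real.log t| ≤ C / |e| := by
      rw [le_div_iff₀ he0]; linarith
    have h5 : -Real.log t ≤ |Real.log t| := neg_le_abs _
    linarith
  | insert a s has ih =>
    intro hS e he
    have har : a < r := hS a (Finset.mem_insert_self a s)
    have hnotin : a ∉ s := fun h => lt_irrefl a (has a h)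
    have hR : (fun t : ℝ => t ^ r * |Real.log t|) =o[𝓝[>] 0] (fun t : ℝ => t ^ a) := by
      have := LX_pl a r 1 har
      simpa using this
    have hsum : (fun t : ℝ => ∑ x ∈ s, (c x + d x * Real.log t) * t ^ x)
        =o[𝓝[>] 0] (fun t : ℝ => t ^ a) := by
      apply IsLittleO.fun_sum
      intro x hx
      exact LX_term a x (c x) (d x) (has x hx)
    have htot := he.trans_isLittleO hR
    have hfirst : (fun t : ℝ => (c a + d a * Real.log t) * t ^ a) =o[𝓝[>] 0] (fun t : ℝ => t ^ a) := by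
      refine ((htot.sub hsum).sub (LX_sq a r e har)).congr_left ?_
      intro t
      rw [Finset.sum_insert hnotin]
      ring
    have hpos : ∀ᶠ t : ℝ in 𝓝[>] 0, t ^ a ≠ 0 := by
      filter_upwards [self_mem_nhdsWithin] with t ht
      exact (Real.rpow_pos_of_pos ht a).ne'
    have hlim : Tendsto (fun t : ℝ => c a + d a * Real.log t) (𝓝[>] 0) (𝓝 0) := by
      have h1 := hfirst.tendsto_div_nhds_zero
      refine h1.congr' ?_
      filter_upwards [hpos] with t ht
      rw [mul_div_assoc, div_self ht, mul_one]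
    obtain ⟨hca, hda⟩ := LX_lin _ _ hlim
    have hrest : (fun t : ℝ => ∑ x ∈ s, (c x + d x * Real.log t) * t ^ x + e * t ^ r * Real.log t ^ 2)
        =O[𝓝[>] 0] (fun t : ℝ => t ^ r * |Real.log t|) := by
      refine he.congr_left ?_
      intro t
      rw [Finset.sum_insert hnotin, hca, hda]
      ring
    obtain ⟨h1, h2⟩ := ih (fun x hx => hS x (Finset.mem_insert_of_mem hx)) e hrest
    refine ⟨?_, h2⟩
    intro x hx
    rcases Finset.mem_insert.mp hx with rfl | hx
    · exact ⟨hca, hda⟩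
    · exact h1 x hx

theorem LX_big (r x c d : ℝ) (h : r ≤ x) :
    (fun t : ℝ => (c + d * Real.log t) * t ^ x) =O[𝓝[>] 0] (fun t : ℝ => t ^ r * |Real.log t|) := by
  apply IsBigO.of_bound (|c| + |d|)
  have h1 : ∀ᶠ t : ℝ in 𝓝[>] 0, Real.log t < -1 :=
    Real.tendsto_log_nhdsGT_zero.eventually (eventually_lt_atBot _)
  filter_upwards [h1, Ioo_mem_nhdsGT (show (0 : ℝ) < 1 by norm_num)] with t ht ht'
  have hp : 0 < t ^ r := Real.rpow_pos_of_pos ht'.1 r
  have hpx : 0 < t ^ x := Real.rpow_pos_of_pos ht'.1 x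
  have hle : t ^ x ≤ t ^ r := Real.rpow_le_rpow_of_exponent_ge ht'.1 ht'.2.le h
  rw [norm_mul, norm_mul, Real.norm_eq_abs, Real.norm_eq_abs, Real.norm_eq_abs, Real.norm_eq_abs,
    abs_abs, abs_of_pos hp, abs_of_pos hpx]
  have hl : 1 ≤ |Real.log t| := by
    rw [abs_of_neg (by linarith)]; linarith
  have h2 : |c + d * Real.log t| ≤ (|c| + |d|) * |Real.log t| := by
    calc |c + d * Real.log t| ≤ |c| + |d * Real.log t| := abs_add_le _ _
      _ = |c| + |d| * |Real.log t| := by rw [abs_mul]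
      _ ≤ (|c| + |d|) * |Real.log t| := by nlinarith [abs_nonneg c]
  calc |c + d * Real.log t| * t ^ x ≤ ((|c| + |d|) * |Real.log t|) * t ^ r :=
        mul_le_mul h2 hle hpx.le (by positivity)
    _ = (|c| + |d|) * (t ^ r * |Real.log t|) := by ring

theorem LX_key2 (r : ℝ) (c d : ℝ → ℝ) (S : Finset ℝ) (e : ℝ)
    (h : (fun t : ℝ => ∑ x ∈ S, (c x + d x * Real.log t) * t ^ x + e * t ^ r * Real.log t ^ 2)
      =O[𝓝[>] 0] (fun t : ℝ => t ^ r * |Real.log t|)) :
    (∀ x ∈ S, x < r → c x = 0 ∧ d x = 0) ∧ e = 0 := by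
  have h1 : (fun t : ℝ => ∑ x ∈ S with ¬ x < r, (c x + d x * Real.log t) * t ^ x)
      =O[𝓝[>] 0] (fun t : ℝ => t ^ r * |Real.log t|) := by
    apply IsBigO.fun_sum
    intro x hx
    exact LX_big r x (c x) (d x) (not_lt.mp (Finset.mem_filter.mp hx).2)
  have h2 : (fun t : ℝ => ∑ x ∈ S with x < r, (c x + d x * Real.log t) * t ^ x
      + e * t ^ r * Real.log t ^ 2) =O[𝓝[>] 0] (fun t : ℝ => t ^ r * |Real.log t|) := by
    refine (h.sub h1).congr_left ?_
    intro t
    rw [← Finset.sum_filter_add_sum_filter_not S (fun x => x < r)]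
    ring
  obtain ⟨h3, h4⟩ := LX_key r c d (S.filter (fun x => x < r))
    (fun x hx => (Finset.mem_filter.mp hx).2) e h2
  exact ⟨fun x hx hxr => h3 x (Finset.mem_filter.mpr ⟨hx, hxr⟩), h4⟩

theorem LX_zero {r D e : ℝ} (hr : 3 < r) (h : LX r D e (fun _ => 0)) : D = 0 ∧ e = 0 := by
  obtain ⟨S, c, d, hd, hO⟩ := h
  classical
  have h1 : (fun t : ℝ => ∑ x ∈ insert (3 : ℝ) S, ((if x ∈ S then c x else 0)
      + ((if x ∈ S then d x else 0) + (if x = 3 then D else 0)) * Real.log t) * t ^ x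
      + e * t ^ r * Real.log t ^ 2) =O[𝓝[>] 0] (fun t : ℝ => t ^ r * |Real.log t|) := by
    refine hO.neg_left.congr_left ?_
    intro t
    have e1 : ∑ x ∈ insert (3 : ℝ) S, ((if x ∈ S then c x else 0)
      + ((if x ∈ S then d x else 0) + (if x = 3 then D else 0)) * Real.log t) * t ^ x
      = ∑ x ∈ insert (3 : ℝ) S, (if x ∈ S then (c x + d x * Real.log t) * t ^ x else 0)
        + ∑ x ∈ insert (3 : ℝ) S, (if x = 3 then D * Real.log t * t ^ x else 0) := by
      rw [← Finset.sum_add_distrib]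
      apply Finset.sum_congr rfl
      intro x _
      split_ifs <;> ring
    have e2 : ∑ x ∈ insert (3 : ℝ) S, (if x ∈ S then (c x + d x * Real.log t) * t ^ x else 0)
        = ∑ x ∈ S, (c x + d x * Real.log t) * t ^ x := by
      rw [← Finset.sum_filter]
      apply Finset.sum_congr _ (fun _ _ => rfl)
      ext x
      simp only [Finset.mem_filter, Finset.mem_insert]
      tauto
    have e3 : ∑ x ∈ insert (3 : ℝ) S, (if x = 3 then D * Real.log t * t ^ x else 0)
        = D * t ^ 3 * Real.log t := by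
      rw [Finset.sum_ite_eq' (insert (3 : ℝ) S) 3]
      simp only [Finset.mem_insert_self, if_true]
      have : t ^ (3 : ℝ) = t ^ 3 := by
        rw [← Real.rpow_natCast]; norm_num
      rw [this]; ring
    rw [e1, e2, e3]
    ring
  obtain ⟨h2, h3⟩ := LX_key2 r _ _ _ e h1
  refine ⟨?_, h3⟩
  have h4 := (h2 3 (Finset.mem_insert_self _ _) hr).2
  by_cases h5 : (3 : ℝ) ∈ S
  · simpa [h5, hd 3 h5 le_rfl] using h4
  · simpa [h5] using h4

/-- uniqueness of the coefficients -/
theorem LX.unique {r d3 E d3' E' : ℝ} {f : ℝ → ℝ} (hr : 3 < r) (hf : LX r d3 E f)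
    (hg : LX r d3' E' f) : d3 = d3' ∧ E = E' := by
  have h1 := hf.add (hg.smul (-1))
  have h2 : LX r (d3 + -1 * d3') (E + -1 * E') (fun _ => 0) := by
    apply h1.congr'
    filter_upwards with t
    ring
  obtain ⟨h3, h4⟩ := LX_zero hr h2
  constructor <;> linarith


end Pool.Agent.FW
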