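import Pool.Agent.Helper155.FW.D1
import Pool.Agent.Helper155.FW.E1
import Pool.Agent.Helper155.FW.E2
import Pool.Agent.Helper155.FW.F2
import Pool.Agent.Helper155.FW.G1
import Pool.Agent.Helper155.FW.G2
import Pool.Agent.Helper155.FW.G3
import Pool.Agent.Helper155.FW.G4
import Pool.Agent.Helper155.FW.J2b
import Pool.Agent.Helper155.FW.J1
import Pool.Agent.Helper155.FW.HFb

set_option autoImplicit false
open Filter Asymptotics Topology

namespace Pool.Agent.FW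

theorem Seqs.e_pos (Q : Seqs) (m : ℕ) (t : ℝ) : 0 < Q.e m t := Real.exp_pos _

theorem ZF.mono {Q : Seqs} {ζ : ℕ → ℝ → ℝ} {K t0 K' t0' : ℝ} (h : ZF Q ζ K t0) (hK : K ≤ K')
    (h0 : 0 < t0') (ht : t0' ≤ t0) : ZF Q ζ K' t0' where
  K1 := h.K1.trans hK
  t0pos := h0
  t01 := ht.trans h.t01
  bd := fun m t h1 h2 =>
    (h.bd m t h1 (h2.trans ht)).trans (mul_le_mul_of_nonneg_right hK (Q.e_pos m t).le)
  step := fun m t h1 h2 => by
    refine (h.step m t h1 (h2.trans ht)).trans ?_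
    have h3 : 0 ≤ t ^ 6 := by positivity
    have h4 : 0 ≤ Q.e m t := (Q.e_pos m t).le
    have h5 : 0 ≤ ((m : ℝ) + 1) ^ (-(2 : ℝ)) := by positivity
    gcongr

theorem Crude.mono {ζ : ℕ → ℝ → ℝ} {K t0 K' t0' : ℝ} (h : Crude ζ K t0) (hK : K ≤ K')
    (ht : t0' ≤ t0) : Crude ζ K' t0' := by
  intro m t h1 h2
  refine (h m t h1 (h2.trans ht)).trans ?_
  have h5 : 0 ≤ t * ((m : ℝ) + 1) ^ (-(4 / 3 : ℝ)) + t ^ 6 := by positivity
  gcongr

theorem ZX.mono {ζ : ℕ → ℝ → ℝ} {z1 z2 z3 z4 w4 : ℕ → ℝ} {q K c t0 K' : ℝ}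
    (h : ZX ζ z1 z2 z3 z4 w4 q K c t0) (hK : K ≤ K') : ZX ζ z1 z2 z3 z4 w4 q K' c t0 where
  K1 := h.K1.trans hK
  cpos := h.cpos
  c1 := h.c1
  t0pos := h.t0pos
  t01 := h.t01
  ex := fun m t h1 h2 h3 => by
    refine (h.ex m t h1 h2 h3).trans ?_
    have : 0 ≤ t ^ 5 := by positivity
    have h5 : 0 ≤ ((m : ℝ) + 1) ^ (4 / 3 : ℝ) + |Real.log t| := by positivity
    gcongr
  crude := h.crude.mono hK le_rfl
  z1b := fun m => (h.z1b m).trans (by gcongr)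
  z2b := fun m => by
    refine (h.z2b m).trans ?_
    have : 0 ≤ Real.log ((m : ℝ) + 1) := Real.log_nonneg (by linarith [Nat.cast_nonneg (α := ℝ) m])
    gcongr
  z3b := fun m => by
    refine (h.z3b m).trans ?_
    have : 0 ≤ Real.log ((m : ℝ) + 1) := Real.log_nonneg (by linarith [Nat.cast_nonneg (α := ℝ) m])
    gcongr
  z4b := fun m => (h.z4b m).trans (by gcongr)
  w4b := fun m => (h.w4b m).trans hK

theorem LX.npow {r : ℝ} (n : ℕ) (a : ℝ) : LX r 0 0 (fun t => a * t ^ n) := by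
  have := LX.pow (r := r) (x := (n : ℝ)) a
  simpa [Real.rpow_natCast] using this

theorem LX.npowlog {r : ℝ} (n : ℕ) (hn : 3 < n) (a : ℝ) :
    LX r 0 0 (fun t => a * t ^ n * Real.log t) := by
  have := LX.powlog (r := r) (x := (n : ℝ)) a (by exact_mod_cast hn)
  simpa [Real.rpow_natCast] using this

theorem LX.logsq6 (a : ℝ) : LX 6 0 a (fun t => a * t ^ 6 * Real.log t ^ 2) := by
  have h := LX.logsq (r := 6) a
  have e : (fun t : ℝ => a * t ^ (6 : ℝ) * Real.log t ^ 2) = fun t => a * t ^ 6 * Real.log t ^ 2 := by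
    funext t
    have : t ^ (6 : ℝ) = t ^ 6 := by exact_mod_cast Real.rpow_natCast t 6
    rw [this]
  rw [e] at h
  exact h

theorem log_abs_ge_one {t : ℝ} (h0 : 0 < t) (h1 : t ≤ 1 / 3) : 1 ≤ |Real.log t| := by
  have h2 : Real.log t ≤ -1 := by
    have h3 : Real.log t ≤ Real.log (1 / 3) := Real.log_le_log h0 h1
    have h4 : Real.log (1 / 3 : ℝ) ≤ -1 := by
      rw [Real.log_le_iff_le_exp (by norm_num)]
      have : Real.exp (-1) = (Real.exp 1)⁻¹ := Real.exp_neg 1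
      rw [this, one_div]
      have h5 : Real.exp 1 < 3 := by
        have := Real.exp_one_lt_d9
        linarith
      exact inv_anti₀ (Real.exp_pos 1) h5.le
    exact h3.trans h4
  rw [abs_of_neg (by linarith)]
  linarith

theorem abs_mul_log_le {t : ℝ} (h0 : 0 < t) (h1 : t ≤ 1) : t * |Real.log t| ≤ 1 := by
  have h2 : Real.log t ≤ 0 := Real.log_nonpos h0.le h1
  rw [abs_of_nonpos h2]
  have h3 : Real.log t⁻¹ ≤ t⁻¹ - 1 := Real.log_le_sub_one_of_pos (inv_pos.mpr h0)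
  rw [Real.log_inv] at h3
  calc t * -Real.log t ≤ t * (t⁻¹ - 1) := by gcongr
    _ = 1 - t := by field_simp
    _ ≤ 1 := by linarith

/-- from a pointwise bound near `0+` to `IsBigO` -/
theorem isBigO_of_bound {f g : ℝ → ℝ} {K t0 : ℝ} (ht0 : 0 < t0)
    (h : ∀ t : ℝ, 0 < t → t ≤ t0 → |f t| ≤ K * |g t|) : f =O[𝓝[>] 0] g := by
  refine IsBigO.of_bound K ?_
  have : Set.Ioc (0 : ℝ) t0 ∈ 𝓝[>] (0 : ℝ) := Ioc_mem_nhdsGT ht0
  filter_upwards [this] with t ht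
  simpa [Real.norm_eq_abs] using h t ht.1 ht.2

theorem bound_of_isBigO {f g : ℝ → ℝ} (h : f =O[𝓝[>] 0] g) :
    ∃ K t0 : ℝ, 0 < K ∧ 0 < t0 ∧ ∀ t : ℝ, 0 < t → t ≤ t0 → |f t| ≤ K * |g t| := by
  obtain ⟨K, hK, hb⟩ := h.exists_pos
  rw [IsBigOWith, eventually_nhdsWithin_iff] at hb
  rw [Metric.eventually_nhds_iff] at hb
  obtain ⟨ε, hε, hb⟩ := hb
  refine ⟨K, ε / 2, hK, by positivity, fun t h1 h2 => ?_⟩
  have := hb (y := t) (by rw [Real.dist_eq, sub_zero, abs_of_pos h1]; linarith) h1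
  simpa [Real.norm_eq_abs] using this

theorem core (C ch lam x1 y1 x2 kap e1 e3 e5 : ℝ) (hC : 0 < C) (A h : ℕ → ℝ)
    (ρ : ℝ → ℕ → ℝ) (m : ℝ → ℝ)
    (hA0 : ∀ n, 0 < A n)
    (hx1 : 1 / 3 < x1)
    (hA : PE x1 5 (fun n : ℕ => A n - C ^ (1 / 3 : ℝ) / 2 * (n : ℝ) ^ (-(1 / 3 : ℝ))))
    (hy1 : 7 / 3 < y1)
    (hh : PE y1 5 (fun n : ℕ => h n - ch * (n : ℝ) ^ (-(7 / 3 : ℝ))))
    (hx2 : -(2 / 3) < x2)
    (hX : PE x2 4 (fun n : ℕ => 2 * ∑ j ∈ Finset.range (n + 1), A j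
      - 3 / 2 * C ^ (1 / 3 : ℝ) * (n : ℝ) ^ (2 / 3 : ℝ) - lam * Real.log n))
    (hρ : ∀ t > 0, ∀ n, 0 < ρ t n)
    (hrec : ∀ t > 0, ∀ n, ρ t n = t * (A n + A (n + 1) + (-1) ^ n * h n) + 1 / ρ t (n + 1))
    (hρ0 : ∀ t > 0, ρ t 0 = kap / m t)
    (hm : (fun t : ℝ => m t - (Real.pi + e1 * t + e3 * t ^ 3 - 2 * t ^ 3 * Real.log t + e5 * t ^ 5))
      =O[𝓝[>] 0] (fun t : ℝ => t ^ 6)) :
    False := by
  obtain ⟨b, c, d, g, K, hG, hR, K', hY⟩ := build C ch lam x1 y1 x2 hC A h hA0 hx1 hA hy1 hh hx2 hX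
  obtain ⟨Q, hQ⟩ : ∃ Q : Seqs, Q = ⟨A, b, c, d, g, h⟩ := ⟨_, rfl⟩
  rw [← hQ] at hG hR hY
  have hQA : Q.A = A := by rw [hQ]
  have hQh : Q.h = h := by rw [hQ]
  obtain ⟨ζ, K1, t1, hZ, hζ0⟩ := zeta_exists Q K hG hR ρ hρ (by rw [hQA, hQh]; exact hrec)
  obtain ⟨K2, t2, hK2, ht2, ht21, hC2⟩ := crude_bound Q K hG ζ K1 t1 hZ
  have ht1le : t1 ≤ 1 / 3 := hZ.t01
  -- exact side
  have hpos : ∀ t : ℝ, 0 < t → 0 < kap / m t := fun t ht => hρ0 t ht ▸ hρ t ht 0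
  obtain ⟨a1, a2, a3, a4, a5, l4, l5, hex⟩ :=
    exact_side (A 0) (b 0) (c 0) (d 0) (g 0) kap e1 e3 e5 (2 * K2) t2 m (fun t => ζ 0 t) hm ht2 hpos
      (by
        intro t ht htt
        rw [hζ0 t ht (htt.trans ht21), hρ0 t ht]
        simp [Seqs.e, Seqs.X, Seqs.Y, Seqs.W, Seqs.del, Seqs.delp, hQ])
      (by
        intro t ht htt
        have h1 := hC2 0 t ht htt
        simp only [Nat.cast_zero, zero_add, Real.one_rpow, mul_one] at h1
        have ht3 : t ≤ 1 / 3 := htt.trans (ht21.trans ht1le)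
        have h6 : t ^ 6 ≤ t := by
          have : t ^ 6 = t * t ^ 5 := by ring
          rw [this]
          have h7 : t ^ 5 ≤ 1 := pow_le_one₀ ht.le (by linarith)
          nlinarith
        calc |ζ 0 t| ≤ K2 * (t + t ^ 6) := h1
          _ ≤ K2 * (t + t) := by gcongr
          _ = 2 * K2 * t := by ring)
  obtain ⟨y, z1, z2, z3, z4, K3, c3, hYF, hy0⟩ := YF_exists Q K hG a1 a2 a3 a4
  obtain ⟨Ke, te, hKe, hte, hexb⟩ := bound_of_isBigO hex
  -- common constants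
  set Km := max K1 K2 with hKm
  set tm := min t2 te with htm
  have htm0 : 0 < tm := lt_min ht2 hte
  have hZm : ZF Q ζ Km tm := hZ.mono (le_max_left _ _) htm0 ((min_le_left _ _).trans ht21)
  have hCm : Crude ζ Km tm := hC2.mono (le_max_right _ _) (min_le_left _ _)
  have hcomp0 : ∀ t : ℝ, 0 < t → t ≤ tm →
      |ζ 0 t - y 0 t - (-(1 / Real.pi) * t ^ 3 * Real.log t + l4 * t ^ 4 * Real.log t)|
        ≤ (|a5| + |l5| + 1 / Real.pi ^ 2 + Ke) * t ^ 5 * |Real.log t| := by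
    intro t ht htt
    have ht3 : t ≤ 1 / 3 := (htt.trans (min_le_left _ _)).trans (ht21.trans ht1le)
    have hl1 := log_abs_ge_one ht ht3
    have hl2 := abs_mul_log_le ht (by linarith : t ≤ 1)
    have h1 := hexb t ht (htt.trans (min_le_right _ _))
    rw [abs_mul, abs_abs, abs_of_nonneg (by positivity : (0:ℝ) ≤ t ^ 6)] at h1
    set R := ζ 0 t - (a1 * t + a2 * t ^ 2 + a3 * t ^ 3 + a4 * t ^ 4 + a5 * t ^ 5
          - 1 / Real.pi * t ^ 3 * Real.log t + l4 * t ^ 4 * Real.log t + l5 * t ^ 5 * Real.log t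
          - 1 / Real.pi ^ 2 * t ^ 6 * Real.log t ^ 2) with hRdef
    have h2 : ζ 0 t - y 0 t - (-(1 / Real.pi) * t ^ 3 * Real.log t + l4 * t ^ 4 * Real.log t)
        = R + a5 * t ^ 5 + l5 * t ^ 5 * Real.log t - 1 / Real.pi ^ 2 * t ^ 6 * Real.log t ^ 2 := by
      rw [hRdef, hy0 t]; ring
    rw [h2]
    have hA5 : |a5 * t ^ 5| ≤ |a5| * t ^ 5 * |Real.log t| := by
      rw [abs_mul, abs_of_nonneg (by positivity : (0:ℝ) ≤ t ^ 5)]
      have : 0 ≤ |a5| * t ^ 5 := by positivity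
      nlinarith
    have hL5 : |l5 * t ^ 5 * Real.log t| ≤ |l5| * t ^ 5 * |Real.log t| := by
      rw [abs_mul, abs_mul, abs_of_nonneg (by positivity : (0:ℝ) ≤ t ^ 5)]
    have hQ6 : |1 / Real.pi ^ 2 * t ^ 6 * Real.log t ^ 2| ≤ 1 / Real.pi ^ 2 * t ^ 5 * |Real.log t| := by
      have e : 1 / Real.pi ^ 2 * t ^ 6 * Real.log t ^ 2
          = (1 / Real.pi ^ 2 * t ^ 5 * |Real.log t|) * (t * |Real.log t|) := by
        rw [← sq_abs (Real.log t)]; ring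
      rw [e, abs_of_nonneg (by positivity)]
      have : 0 ≤ 1 / Real.pi ^ 2 * t ^ 5 * |Real.log t| := by positivity
      nlinarith
    have hR6 : |R| ≤ Ke * t ^ 5 * |Real.log t| := by
      refine h1.trans ?_
      have : t ^ 6 ≤ t ^ 5 := by
        have e : t ^ 6 = t ^ 5 * t := by ring
        rw [e]
        have : 0 ≤ t ^ 5 := by positivity
        nlinarith
      calc Ke * (t ^ 6 * |Real.log t|) ≤ Ke * (t ^ 5 * |Real.log t|) := by gcongr
        _ = Ke * t ^ 5 * |Real.log t| := by ring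
    calc |R + a5 * t ^ 5 + l5 * t ^ 5 * Real.log t - 1 / Real.pi ^ 2 * t ^ 6 * Real.log t ^ 2|
        ≤ |R| + |a5 * t ^ 5| + |l5 * t ^ 5 * Real.log t|
          + |1 / Real.pi ^ 2 * t ^ 6 * Real.log t ^ 2| := by
          refine (abs_sub _ _).trans ?_
          gcongr
          refine (abs_add_le _ _).trans ?_
          gcongr
          exact abs_add_le _ _
      _ ≤ (|a5| + |l5| + 1 / Real.pi ^ 2 + Ke) * t ^ 5 * |Real.log t| := by linarith
  obtain ⟨K4, c4, t4, hK4, hc4, hc43, ht4, ht4m, hcmp⟩ := compare Q K hG ζ Km tm hZm hCm y z1 z2 z3 z4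
    K3 c3 hYF (-(1 / Real.pi)) l4 (|a5| + |l5| + 1 / Real.pi ^ 2 + Ke) hcomp0
  have htm3 : tm ≤ 1 / 3 := (min_le_left _ _).trans (ht21.trans ht1le)
  -- bounded w4
  obtain ⟨Kw, hKw⟩ : ∃ Kw : ℝ, ∀ n : ℕ,
      |l4 + -(1 / Real.pi) * ∑ j ∈ Finset.range n, (-1) ^ j * Q.h j| ≤ Kw := by
    have hs : Summable (fun j : ℕ => |Q.h j|) := by
      refine Summable.of_nonneg_of_le (fun _ => abs_nonneg _) hG.h ?_
      refine Summable.mul_left K ?_
      have := (Real.summable_nat_rpow (p := -(7 / 3 : ℝ))).mpr (by norm_num)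
      have h2 := (summable_nat_add_iff 1).mpr this
      simpa using h2
    refine ⟨|l4| + 1 / Real.pi * ∑' j, |Q.h j|, fun n => ?_⟩
    refine (abs_add_le _ _).trans ?_
    rw [abs_mul, abs_neg, abs_of_pos (by positivity : 0 < 1 / Real.pi)]
    gcongr
    refine (Finset.abs_sum_le_sum_abs _ _).trans ?_
    refine (Finset.sum_le_sum (fun j _ => ?_)).trans (hs.sum_le_tsum _ (fun _ _ => abs_nonneg _))
    rw [abs_mul, abs_pow, abs_neg, abs_one, one_pow, one_mul]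
  obtain ⟨K5, c5, t5, ht5m, hZX⟩ := ZX_of Q K hG ζ Km tm hCm y z1 z2 z3 z4 K3 c3 hYF (-(1 / Real.pi))
    (fun n => l4 + -(1 / Real.pi) * ∑ j ∈ Finset.range n, (-1) ^ j * Q.h j)
    (max K4 Kw) c4 t4 (fun n => (hKw n).trans (le_max_right _ _)) hc4 hc43 ht4 ht4m htm3
    (fun n t h1 h2 h3 => (hcmp n t h1 h2 h3).trans (by
      have : 0 ≤ t ^ 5 := by positivity
      gcongr
      exact le_max_left _ _))
  have ht5 : 0 < t5 := hZX.t0pos
  set K6 := max K5 Km with hK6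
  have hZX6 := hZX.mono (K' := K6) (le_max_left _ _)
  have hZ6 : ZF Q ζ K6 t5 := hZm.mono (le_max_right _ _) ht5 ht5m
  obtain ⟨p2, p3, p4, p5, q4, q5, K7, t7, hK7, ht7, ht75, hT2⟩ := T2sum Q K hG ζ z1 z2 z3 z4 _ _ K6 c5 t5 hZX6
  obtain ⟨r3, r4, r5, s5, K8, t8, hK8, ht8, ht85, hT3⟩ := T3sum Q K hG ζ z1 z2 z3 z4 _ _ K6 c5 t5 hZX6 hZ6
  obtain ⟨K9, t9, hK9, ht9, ht95, hsum⟩ := zeta_sum Q K hG ζ K6 t5 hZ6
  -- the function f1 = T1
  have hXQ : PE x2 4 (fun n : ℕ => Q.X n - 3 / 2 * C ^ (1 / 3 : ℝ) * (n : ℝ) ^ (2 / 3 : ℝ)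
      - lam * Real.log n) := by
    simpa [Seqs.X, hQA] using hX
  obtain ⟨hT1a, hT1b⟩ := T1_LX C ch lam x1 y1 x2 K K' hC Q hG hy1 (by rw [hQh]; exact hh) hx2 hXQ hY
  set f1 : ℝ → ℝ := fun t => -∑' m : ℕ, Q.e m t * Q.p m t with hf1
  -- f2
  have hf2 : LX 6 0 0 (fun t => ζ 0 t - f1 t) := by
    have hO : (fun t : ℝ => (ζ 0 t - f1 t)
        + ((p2 * t ^ 2 + p3 * t ^ 3 + p4 * t ^ 4 + p5 * t ^ 5) + (q4 * t ^ 4 + q5 * t ^ 5) * Real.log t)
        + ((r3 * t ^ 3 + r4 * t ^ 4 + r5 * t ^ 5) + s5 * t ^ 5 * Real.log t))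
        =O[𝓝[>] 0] (fun t : ℝ => t ^ (6 : ℝ) * |Real.log t|) := by
      refine isBigO_of_bound (K := K9 + K7 + K8) (t0 := min t9 (min t7 t8))
        (lt_min ht9 (lt_min ht7 ht8)) ?_
      intro t ht htt
      have g9 := hsum t ht (htt.trans (min_le_left _ _))
      have g7 := hT2 t ht (htt.trans ((min_le_right _ _).trans (min_le_left _ _)))
      have g8 := hT3 t ht (htt.trans ((min_le_right _ _).trans (min_le_right _ _)))
      have ht3 : t ≤ 1 / 3 := (htt.trans (min_le_left _ _)).trans (ht95.trans (ht5m.trans htm3))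
      have hl1 := log_abs_ge_one ht ht3
      have e6 : t ^ (6 : ℝ) = t ^ 6 := by exact_mod_cast Real.rpow_natCast t 6
      rw [e6, abs_mul, abs_abs, abs_of_nonneg (by positivity : (0:ℝ) ≤ t ^ 6)]
      obtain ⟨-, -, -, g9⟩ := g9
      set S1 := ∑' m : ℕ, Q.e m t * Q.p m t
      set S2 := ∑' m : ℕ, (-1) ^ m * Q.p m t * (ζ m t + ζ (m + 1) t)
      set S3 := ∑' m : ℕ, Q.p m t * ζ m t * ζ (m + 1) t / Q.e m t
      have e : (ζ 0 t - f1 t)
        + ((p2 * t ^ 2 + p3 * t ^ 3 + p4 * t ^ 4 + p5 * t ^ 5) + (q4 * t ^ 4 + q5 * t ^ 5) * Real.log t)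
        + ((r3 * t ^ 3 + r4 * t ^ 4 + r5 * t ^ 5) + s5 * t ^ 5 * Real.log t)
        = (ζ 0 t + S1 + S2 + S3)
          - (S2 - (p2 * t ^ 2 + p3 * t ^ 3 + p4 * t ^ 4 + p5 * t ^ 5 + (q4 * t ^ 4 + q5 * t ^ 5) * Real.log t))
          - (S3 - (r3 * t ^ 3 + r4 * t ^ 4 + r5 * t ^ 5 + s5 * t ^ 5 * Real.log t)) := by
        simp only [hf1]; ring
      rw [e]
      refine (abs_sub _ _).trans ((add_le_add (abs_sub _ _) le_rfl).trans ?_)
      have h6 : K9 * t ^ 6 ≤ K9 * t ^ 6 * |Real.log t| := by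
        have : 0 ≤ K9 * t ^ 6 := by positivity
        nlinarith
      linarith
    have h1 := LX.of_isBigO hO
    have g : LX 6 0 0 (fun t : ℝ => -(
        ((p2 * t ^ 2 + p3 * t ^ 3 + p4 * t ^ 4 + p5 * t ^ 5) + (q4 * t ^ 4 + q5 * t ^ 5) * Real.log t)
        + ((r3 * t ^ 3 + r4 * t ^ 4 + r5 * t ^ 5) + s5 * t ^ 5 * Real.log t))) := by
      have a2' := LX.npow (r := 6) 2 (-p2)
      have a3' := LX.npow (r := 6) 3 (-p3 - r3)
      have a4' := LX.npow (r := 6) 4 (-p4 - r4)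
      have a5' := LX.npow (r := 6) 5 (-p5 - r5)
      have b4' := LX.npowlog (r := 6) 4 (by norm_num) (-q4)
      have b5' := LX.npowlog (r := 6) 5 (by norm_num) (-q5 - s5)
      have := ((((a2'.add a3').add a4').add a5').add b4').add b5'
      simp only [add_zero] at this
      refine this.congr' (Eventually.of_forall fun t => ?_)
      simp only; ring
    have h2 := h1.add g
    simp only [add_zero] at h2
    refine h2.congr' (Eventually.of_forall fun t => ?_)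
    simp only; ring
  -- ζ 0
  have hζL : LX 6 (-(1 / Real.pi)) (-(1 / Real.pi ^ 2)) (fun t => ζ 0 t) := by
    have hO : (fun t : ℝ => ζ 0 t - (a1 * t + a2 * t ^ 2 + a3 * t ^ 3 + a4 * t ^ 4 + a5 * t ^ 5
          - 1 / Real.pi * t ^ 3 * Real.log t + l4 * t ^ 4 * Real.log t + l5 * t ^ 5 * Real.log t
          - 1 / Real.pi ^ 2 * t ^ 6 * Real.log t ^ 2)) =O[𝓝[>] 0] (fun t : ℝ => t ^ (6 : ℝ) * |Real.log t|) := by
      have e6 : (fun t : ℝ => t ^ (6 : ℝ) * |Real.log t|) = fun t : ℝ => t ^ 6 * |Real.log t| := by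
        funext t
        have : t ^ (6 : ℝ) = t ^ 6 := by exact_mod_cast Real.rpow_natCast t 6
        rw [this]
      rw [e6]; exact hex
    have h1 := LX.of_isBigO hO
    have b1 := LX.npow (r := 6) 1 a1
    have b2 := LX.npow (r := 6) 2 a2
    have b3 := LX.npow (r := 6) 3 a3
    have b4 := LX.npow (r := 6) 4 a4
    have b5 := LX.npow (r := 6) 5 a5
    have c3' := LX.log3 (r := 6) (-(1 / Real.pi))
    have c4' := LX.npowlog (r := 6) 4 (by norm_num) l4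
    have c5' := LX.npowlog (r := 6) 5 (by norm_num) l5
    have c6' := LX.logsq6 (-(1 / Real.pi ^ 2))
    have := ((((((((h1.add b1).add b2).add b3).add b4).add b5).add c3').add c4').add c5').add c6'
    simp only [add_zero, zero_add] at this
    refine this.congr' (Eventually.of_forall fun t => ?_)
    simp only; ring
  have hd3 : ∀ E, LX 4 (3 / 8 * ch * (3 / 2 * C ^ (1 / 3 : ℝ)) ^ 2) E f1 →
      3 / 8 * ch * (3 / 2 * C ^ (1 / 3 : ℝ)) ^ 2 = -(1 / Real.pi) ∧ E = 0 := by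
    intro E hE
    have h1 := hE.add hf2.to4
    simp only [add_zero] at h1
    have h2 : LX 4 (3 / 8 * ch * (3 / 2 * C ^ (1 / 3 : ℝ)) ^ 2) E (fun t => ζ 0 t) :=
      h1.congr' (Eventually.of_forall fun t => by simp only; ring)
    exact LX.unique (by norm_num) h2 hζL.to4
  obtain ⟨hd, hE4⟩ := hd3 _ hT1a
  have hpi : 0 < Real.pi := Real.pi_pos
  have hlam : lam = 0 := by
    have e : 9 / 32 * lam * ch * (3 / 2 * C ^ (1 / 3 : ℝ)) ^ 2
        = 3 / 4 * lam * (3 / 8 * ch * (3 / 2 * C ^ (1 / 3 : ℝ)) ^ 2) := by ring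
    rw [e, hd] at hE4
    have h3 : (1 / Real.pi : ℝ) ≠ 0 := by positivity
    have h4 : lam * (1 / Real.pi) = 0 := by linarith
    rcases mul_eq_zero.mp h4 with h5 | h5
    · exact h5
    · exact absurd h5 h3
  have hT6 := hT1b hlam
  have h1 := hT6.add hf2
  simp only [add_zero] at h1
  have h2 : LX 6 (3 / 8 * ch * (3 / 2 * C ^ (1 / 3 : ℝ)) ^ 2)
      (-(3 / 256) * C * ch * (3 / 2 * C ^ (1 / 3 : ℝ)) ^ 2) (fun t => ζ 0 t) :=
    h1.congr' (Eventually.of_forall fun t => by simp only [hf1]; ring)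
  obtain ⟨-, hE6⟩ := LX.unique (by norm_num) h2 hζL
  have e : -(3 / 256) * C * ch * (3 / 2 * C ^ (1 / 3 : ℝ)) ^ 2
      = -(C / 32) * (3 / 8 * ch * (3 / 2 * C ^ (1 / 3 : ℝ)) ^ 2) := by ring
  rw [e, hd] at hE6
  have h7 : 0 < C / 32 * (1 / Real.pi) := by positivity
  have h8 : 0 < 1 / Real.pi ^ 2 := by positivity
  linarith

end Pool.Agent.FW
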