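import Pool.Agent.Helper155.FW.Defs
import Pool.Agent.Helper155.FW.P3b
import Pool.Agent.Helper155.FW.P4
import Pool.Agent.Helper155.FW.P5a
import Pool.Agent.Helper155.FW.P5b

set_option autoImplicit false
open Filter Asymptotics Topology

namespace Pool.Agent.FW

/-! ## AVAILABLE (proved by others; use freely) -/

/-! ### P1: algebra -/









/-! ### P2: shift and difference -/




/-! ### P3: the equation `W n + W (n+1) = f n` -/




/-! ### P4: composition -/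




/-! ### P5: antidifference and partial sums -/



/-! ## TARGETS (prove these) -/

theorem build_congr {x0 Q : ℝ} {f g : ℕ → ℝ} (hf : PE x0 Q f) (h : ∀ n, f n = g n) : PE x0 Q g := by
  have e : f = g := funext h
  rwa [e] at hf

theorem build_mul {x0 Q y0 R z T : ℝ} {f g : ℕ → ℝ} (hf : PE x0 Q f) (hg : PE y0 R g)
    (hz : z ≤ x0 + y0) (h1 : T ≤ x0 + R) (h2 : T ≤ y0 + Q) (h3 : T ≤ Q + R) :
    PE z T (fun n => f n * g n) :=
  (PE.mul hf hg h1 h2 h3).mono hz le_rfl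

/-- partial sums of a sequence with a summable power bound -/
theorem build_sum {f : ℕ → ℝ} {K x : ℝ} (hK : 0 < K) (hx : 1 < x)
    (h : ∀ n : ℕ, |f n| ≤ K * ((n : ℝ) + 1) ^ (-x)) :
    ∃ S : ℝ, 0 ≤ S ∧ ∀ m : ℕ, |∑ j ∈ Finset.range (m + 1), f j| ≤ S := by
  have hs : Summable (fun n : ℕ => K * ((n : ℝ) + 1) ^ (-x)) := by
    apply Summable.mul_left
    have h1 : Summable (fun n : ℕ => (n : ℝ) ^ (-x)) := Real.summable_nat_rpow.2 (by linarith)
    have h2 := (summable_nat_add_iff 1).2 h1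
    refine h2.congr ?_
    intro n
    push_cast
    rfl
  have hnn : ∀ n : ℕ, 0 ≤ K * ((n : ℝ) + 1) ^ (-x) := fun n => by positivity
  refine ⟨∑' n : ℕ, K * ((n : ℝ) + 1) ^ (-x), tsum_nonneg hnn, ?_⟩
  intro m
  calc |∑ j ∈ Finset.range (m + 1), f j| ≤ ∑ j ∈ Finset.range (m + 1), |f j| :=
        Finset.abs_sum_le_sum_abs _ _
    _ ≤ ∑ j ∈ Finset.range (m + 1), K * ((j : ℝ) + 1) ^ (-x) := Finset.sum_le_sum fun j _ => h j
    _ ≤ _ := hs.sum_le_tsum _ (fun j _ => hnn j)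

theorem build_harm (m : ℕ) :
    |(∑ j ∈ Finset.range (m + 1), ((j : ℝ))⁻¹) - Real.log ((m : ℝ) + 1)| ≤ 1 := by
  have h1 : (∑ j ∈ Finset.range (m + 1), ((j : ℝ))⁻¹) = ((harmonic m : ℚ) : ℝ) := by
    rw [Finset.sum_range_succ']
    simp only [Nat.cast_zero, inv_zero, add_zero]
    unfold harmonic
    push_cast
    rfl
  have h2 : Real.log ((m : ℝ) + 1) ≤ ((harmonic m : ℚ) : ℝ) := by
    have := log_add_one_le_harmonic m
    push_cast at this
    exact this
  have h3 : ((harmonic m : ℚ) : ℝ) ≤ 1 + Real.log m := harmonic_le_one_add_log m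
  have h4 : Real.log m ≤ Real.log ((m : ℝ) + 1) := by
    rcases Nat.eq_zero_or_pos m with h | h
    · subst h; simp
    · apply Real.log_le_log
      · exact_mod_cast h
      · linarith
  rw [h1, abs_le]
  constructor <;> linarith

/-- the size of `X` -/
theorem build_X (s lam x2 : ℝ) (hs : 0 < s) (hx2 : -(2 / 3) < x2) (X : ℕ → ℝ) (hpos : ∀ m, 0 < X m)
    (hX : PE x2 4 (fun n : ℕ => X n - 3 / 2 * s * (n : ℝ) ^ (2 / 3 : ℝ) - lam * Real.log n)) :
    ∃ K1 K2 : ℝ, (∀ m : ℕ, ((m : ℝ) + 1) ^ (2 / 3 : ℝ) ≤ K1 * X m) ∧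
      (∀ m : ℕ, X m ≤ K2 * ((m : ℝ) + 1) ^ (2 / 3 : ℝ)) ∧ 0 ≤ K1 ∧ 0 ≤ K2 := by
  obtain ⟨K, hK, hb⟩ := hX.bound (x := min x2 4) (min_le_left _ _) (min_le_right _ _)
  have hx : -(2 / 3) < min x2 4 := lt_min hx2 (by norm_num)
  set x := min x2 4 with hxdef
  have hP : ∀ m : ℕ, (0 : ℝ) < ((m : ℝ) + 1) ^ (2 / 3 : ℝ) := fun m => by positivity
  have htop : Tendsto (fun m : ℕ => (m : ℝ) + 1) atTop atTop :=
    tendsto_atTop_add_const_right _ _ tendsto_natCast_atTop_atTop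
  have t1 : Tendsto (fun m : ℕ => ((m : ℝ) / ((m : ℝ) + 1)) ^ (2 / 3 : ℝ)) atTop (𝓝 1) := by
    have h1 : Tendsto (fun m : ℕ => (m : ℝ) / ((m : ℝ) + 1)) atTop (𝓝 1) :=
      tendsto_natCast_div_add_atTop (1 : ℝ)
    have h2 := h1.rpow_const (p := (2 / 3 : ℝ)) (Or.inl one_ne_zero)
    rwa [Real.one_rpow] at h2
  have t2 : Tendsto (fun m : ℕ => Real.log m / ((m : ℝ) + 1) ^ (2 / 3 : ℝ)) atTop (𝓝 0) := by
    have h1 : Tendsto (fun y : ℝ => Real.log y / y ^ (2 / 3 : ℝ)) atTop (𝓝 0) :=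
      (isLittleO_log_rpow_atTop (by norm_num : (0 : ℝ) < 2 / 3)).tendsto_div_nhds_zero
    have h2 := h1.comp htop
    refine squeeze_zero' ?_ ?_ h2
    · filter_upwards [eventually_ge_atTop 1] with m hm
      have : (1 : ℝ) ≤ m := by exact_mod_cast hm
      exact div_nonneg (Real.log_nonneg this) (hP m).le
    · filter_upwards [eventually_ge_atTop 1] with m hm
      have : (1 : ℝ) ≤ m := by exact_mod_cast hm
      show Real.log m / ((m : ℝ) + 1) ^ (2 / 3 : ℝ) ≤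
        Real.log ((m : ℝ) + 1) / ((m : ℝ) + 1) ^ (2 / 3 : ℝ)
      apply div_le_div_of_nonneg_right _ (hP m).le
      apply Real.log_le_log <;> linarith
  have t3 : Tendsto (fun m : ℕ => (X m - 3 / 2 * s * (m : ℝ) ^ (2 / 3 : ℝ) - lam * Real.log m) /
      ((m : ℝ) + 1) ^ (2 / 3 : ℝ)) atTop (𝓝 0) := by
    have h1 : Tendsto (fun y : ℝ => y ^ (-(x + 2 / 3))) atTop (𝓝 0) :=
      tendsto_rpow_neg_atTop (by linarith)
    have h2 := (h1.comp htop).const_mul K
    rw [mul_zero] at h2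
    refine squeeze_zero_norm ?_ h2
    intro m
    rw [Real.norm_eq_abs, abs_div, abs_of_pos (hP m), div_le_iff₀ (hP m)]
    show _ ≤ K * ((m : ℝ) + 1) ^ (-(x + 2 / 3)) * ((m : ℝ) + 1) ^ (2 / 3 : ℝ)
    have e : K * ((m : ℝ) + 1) ^ (-(x + 2 / 3)) * ((m : ℝ) + 1) ^ (2 / 3 : ℝ) =
        K * ((m : ℝ) + 1) ^ (-x) := by
      rw [mul_assoc K, ← Real.rpow_add (by positivity)]
      congr 2
      ring
    rw [e]
    exact hb m
  have t4 : Tendsto (fun m : ℕ => X m / ((m : ℝ) + 1) ^ (2 / 3 : ℝ)) atTop (𝓝 (3 / 2 * s)) := by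
    have h1 := ((t1.const_mul (3 / 2 * s)).add (t2.const_mul lam)).add t3
    have e0 : 3 / 2 * s * 1 + lam * 0 + 0 = 3 / 2 * s := by ring
    rw [e0] at h1
    refine h1.congr ?_
    intro m
    rw [Real.div_rpow (Nat.cast_nonneg m) (by positivity)]
    have := (hP m).ne'
    field_simp
    ring
  have hs' : (0 : ℝ) < 3 / 2 * s := by linarith
  obtain ⟨K2, hK2⟩ := t4.bddAbove_range
  have t5 := t4.inv₀ hs'.ne'
  obtain ⟨K1, hK1⟩ := t5.bddAbove_range
  have hK2' : ∀ m : ℕ, X m / ((m : ℝ) + 1) ^ (2 / 3 : ℝ) ≤ K2 := fun m => hK2 ⟨m, rfl⟩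
  have hK1' : ∀ m : ℕ, (X m / ((m : ℝ) + 1) ^ (2 / 3 : ℝ))⁻¹ ≤ K1 := fun m => hK1 ⟨m, rfl⟩
  refine ⟨K1, K2, ?_, ?_, ?_, ?_⟩
  · intro m
    have h := hK1' m
    rw [inv_div, div_le_iff₀ (hpos m)] at h
    exact h
  · intro m
    exact (div_le_iff₀ (hP m)).1 (hK2' m)
  · exact le_trans (inv_nonneg.2 (div_nonneg (hpos 0).le (hP 0).le)) (hK1' 0)
  · exact le_trans (div_nonneg (hpos 0).le (hP 0).le) (hK2' 0)

/-- Existence of the auxiliary sequences. -/
theorem build (C ch lam x1 y1 x2 : ℝ) (hC : 0 < C) (A h : ℕ → ℝ)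
    (hA0 : ∀ n, 0 < A n)
    (hx1 : 1 / 3 < x1)
    (hA : PE x1 5 (fun n : ℕ => A n - C ^ (1 / 3 : ℝ) / 2 * (n : ℝ) ^ (-(1 / 3 : ℝ))))
    (hy1 : 7 / 3 < y1)
    (hh : PE y1 5 (fun n : ℕ => h n - ch * (n : ℝ) ^ (-(7 / 3 : ℝ))))
    (hx2 : -(2 / 3) < x2)
    (hX : PE x2 4 (fun n : ℕ => 2 * ∑ j ∈ Finset.range (n + 1), A j
      - 3 / 2 * C ^ (1 / 3 : ℝ) * (n : ℝ) ^ (2 / 3 : ℝ) - lam * Real.log n)) :
    ∃ (b c d g : ℕ → ℝ) (K : ℝ), Good ⟨A, b, c, d, g, h⟩ K ∧ Rel ⟨A, b, c, d, g, h⟩ ∧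
      ∃ K' : ℝ, ∀ m : ℕ,
        |(Seqs.mk A b c d g h).Y m + C / 24 * Real.log ((m : ℝ) + 1)| ≤ K' := by
  have hs : 0 < C ^ (1 / 3 : ℝ) := Real.rpow_pos_of_pos hC _
  have hs3 : (C ^ (1 / 3 : ℝ)) ^ 3 = C := by
    rw [← Real.rpow_natCast, ← Real.rpow_mul hC.le]
    norm_num
  set s := C ^ (1 / 3 : ℝ) with hsdef
  -- the sequence A
  have pa : PE (1 / 3) 5 (fun n : ℕ => s / 2 * (n : ℝ) ^ (-(1 / 3 : ℝ))) := PE.single _ le_rfl
  have pA : PE (1 / 3) 5 A :=
    build_congr (pa.add (hA.mono hx1.le le_rfl)) (fun n => by ring)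
  have ph : PE (7 / 3) 5 h :=
    build_congr ((PE.single (x0 := 7 / 3) (Q := 5) ch le_rfl).add (hh.mono hy1.le le_rfl))
      (fun n => by ring)
  have pA2 : PE (2 / 3) (16 / 3) (fun n => A n * A n) :=
    build_mul pA pA (by norm_num) (by norm_num) (by norm_num) (by norm_num)
  have pA3 : PE 1 (17 / 3) (fun n => A n * A n * A n) :=
    build_mul pA2 pA (by norm_num) (by norm_num) (by norm_num) (by norm_num)
  have pA4 : PE (4 / 3) 6 (fun n => A n * A n * A n * A n) :=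
    build_mul pA3 pA (by norm_num) (by norm_num) (by norm_num) (by norm_num)
  have pA5 : PE (5 / 3) (19 / 3) (fun n => A n * A n * A n * A n * A n) :=
    build_mul pA4 pA (by norm_num) (by norm_num) (by norm_num) (by norm_num)
  -- b
  have pf : PE (5 / 3) (16 / 3) (fun n => 1 / 2 * (A (n + 1) * A (n + 1) - A n * A n)) :=
    (pA2.diff.mono (by norm_num) le_rfl).smul (1 / 2)
  obtain ⟨b, hb, pb'⟩ := PE.alt (by norm_num) (by norm_num) pf
  have pb : PE (5 / 3) (13 / 3) b := pb'.mono le_rfl (by norm_num)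
  have pAb : PE 2 (14 / 3) (fun n => A n * b n) :=
    build_mul pA pb (by norm_num) (by norm_num) (by norm_num) (by norm_num)
  have pAb' : PE 3 (14 / 3) (fun n => A (n + 1) * b (n + 1) - A n * b n) :=
    pAb.diff.mono (by norm_num) le_rfl
  obtain ⟨ct, hct, pct'⟩ := PE.alt (by norm_num) (by norm_num) pAb'
  have pct : PE 3 (11 / 3) ct := pct'.mono le_rfl (by norm_num)
  set c : ℕ → ℝ := fun n => -(1 / 6) * (A n * A n * A n) + ct n with hc
  have pc : PE 1 (11 / 3) c :=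
    ((pA3.smul (-(1 / 6))).mono le_rfl (by norm_num)).add (pct.mono (by norm_num) le_rfl)
  -- d
  have pAc : PE (4 / 3) 4 (fun n => A n * c n) :=
    build_mul pA pc (by norm_num) (by norm_num) (by norm_num) (by norm_num)
  have pb2 : PE (10 / 3) 6 (fun n => b n * b n) :=
    build_mul pb pb (by norm_num) (by norm_num) (by norm_num) (by norm_num)
  have pG : PE (4 / 3) 4 (fun n => A n * c n + 1 / 2 * (b n * b n) +
      1 / 24 * (A n * A n * A n * A n)) :=
    (pAc.add ((pb2.smul (1 / 2)).mono (by norm_num) (by norm_num))).add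
      ((pA4.smul (1 / 24)).mono le_rfl (by norm_num))
  have pG' := pG.diff.mono (x0' := 7 / 3) (by norm_num) (le_refl (4 : ℝ))
  obtain ⟨dt, hdt, pdt'⟩ := PE.alt (by norm_num) (by norm_num) pG'
  have pdt : PE (7 / 3) 3 dt := pdt'.mono le_rfl (by norm_num)
  have pA2b : PE (7 / 3) 5 (fun n => A n * A n * b n) :=
    build_mul pA2 pb (by norm_num) (by norm_num) (by norm_num) (by norm_num)
  set d : ℕ → ℝ := fun n => -(1 / 2) * (A n * A n * b n) + dt n with hd
  have pd : PE (7 / 3) 3 d :=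
    ((pA2b.smul (-(1 / 2))).mono le_rfl (by norm_num)).add pdt
  -- g
  have pAd : PE (8 / 3) (10 / 3) (fun n => A n * d n) :=
    build_mul pA pd (by norm_num) (by norm_num) (by norm_num) (by norm_num)
  have pbc : PE (8 / 3) (16 / 3) (fun n => b n * c n) :=
    build_mul pb pc (by norm_num) (by norm_num) (by norm_num) (by norm_num)
  have pA3b : PE (8 / 3) (16 / 3) (fun n => A n * A n * A n * b n) :=
    build_mul pA3 pb (by norm_num) (by norm_num) (by norm_num) (by norm_num)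
  have pH : PE (8 / 3) (10 / 3) (fun n => A n * d n + b n * c n +
      1 / 6 * (A n * A n * A n * b n)) :=
    (pAd.add (pbc.mono le_rfl (by norm_num))).add ((pA3b.smul (1 / 6)).mono le_rfl (by norm_num))
  have pH' := pH.diff.mono (x0' := 11 / 3) (by norm_num) (le_refl (10 / 3 : ℝ))
  obtain ⟨gt, hgt, pgt'⟩ := PE.alt (by norm_num) (by norm_num) pH'
  have pgt : PE (11 / 3) (7 / 3) gt := pgt'.mono le_rfl (by norm_num)
  have pA2c : PE (5 / 3) (13 / 3) (fun n => A n * A n * c n) :=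
    build_mul pA2 pc (by norm_num) (by norm_num) (by norm_num) (by norm_num)
  have pAb2 : PE (11 / 3) (19 / 3) (fun n => A n * (b n * b n)) :=
    build_mul pA pb2 (by norm_num) (by norm_num) (by norm_num) (by norm_num)
  set g : ℕ → ℝ := fun n => (-(1 / 2) * (A n * A n * c n) + -(1 / 2) * (A n * (b n * b n)) +
    -(1 / 120) * (A n * A n * A n * A n * A n)) + gt n with hg
  have pg : PE (5 / 3) (7 / 3) g :=
    ((((pA2c.smul (-(1 / 2))).mono le_rfl (by norm_num)).add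
      ((pAb2.smul (-(1 / 2))).mono (by norm_num) (by norm_num))).add
      ((pA5.smul (-(1 / 120))).mono le_rfl (by norm_num))).add (pgt.mono (by norm_num) le_rfl)
  -- bounds
  obtain ⟨KA, hKA, bA⟩ := pA.bound (x := 1 / 3) le_rfl (by norm_num)
  obtain ⟨Kb, hKb, bb⟩ := pb.bound (x := 2 / 3) (by norm_num) (by norm_num)
  obtain ⟨Kc, hKc, bc⟩ := pc.bound (x := 1) le_rfl (by norm_num)
  obtain ⟨Kd, hKd, bd⟩ := pd.bound (x := 4 / 3) (by norm_num) (by norm_num)
  obtain ⟨Kg, hKg, bg⟩ := pg.bound (x := 5 / 3) le_rfl (by norm_num)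
  obtain ⟨Kh, hKh, bh⟩ := ph.bound (x := 7 / 3) le_rfl (by norm_num)
  obtain ⟨Kct, hKct, bct⟩ := pct.bound (x := 3) le_rfl (by norm_num)
  have hXpos : ∀ m : ℕ, 0 < 2 * ∑ j ∈ Finset.range (m + 1), A j := by
    intro m
    have : 0 < ∑ j ∈ Finset.range (m + 1), A j :=
      Finset.sum_pos (fun j _ => hA0 j) ⟨0, Finset.mem_range.2 (Nat.succ_pos m)⟩
    linarith
  obtain ⟨K1, K2, hX1, hX2, hK1, hK2⟩ := build_X s lam x2 hs hx2
    (fun m => 2 * ∑ j ∈ Finset.range (m + 1), A j) hXpos hX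
  obtain ⟨SW, hSW0, hSW⟩ := build_sum hKg (by norm_num : (1 : ℝ) < 5 / 3) bg
  obtain ⟨St, hSt0, hSt⟩ := build_sum hKct (by norm_num : (1 : ℝ) < 3) bct
  -- A ^ 3 against its leading term
  set a : ℕ → ℝ := fun n => s / 2 * (n : ℝ) ^ (-(1 / 3 : ℝ)) with ha
  have pAa : PE (2 / 3) (16 / 3) (fun n => A n * a n) :=
    build_mul pA pa (by norm_num) (by norm_num) (by norm_num) (by norm_num)
  have paa : PE (2 / 3) (16 / 3) (fun n => a n * a n) :=
    build_mul pa pa (by norm_num) (by norm_num) (by norm_num) (by norm_num)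
  have pq : PE (2 / 3) (16 / 3) (fun n => A n * A n + A n * a n + a n * a n) :=
    (pA2.add pAa).add paa
  have pdiff : PE (x1 + 2 / 3) (17 / 3) (fun n => (A n - a n) *
      (A n * A n + A n * a n + a n * a n)) :=
    build_mul hA pq le_rfl (by linarith) (by norm_num) (by norm_num)
  have hy : 1 < min (x1 + 2 / 3) 2 := lt_min (by linarith) (by norm_num)
  obtain ⟨Ke, hKe, be⟩ := pdiff.bound (x := min (x1 + 2 / 3) 2) (min_le_left _ _)
    ((min_le_right _ _).trans (by norm_num))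
  obtain ⟨Se, hSe0, hSe⟩ := build_sum hKe hy be
  have ha3 : ∀ n : ℕ, a n * a n * a n = C / 8 * ((n : ℝ))⁻¹ := by
    intro n
    have h1 : ((n : ℝ) ^ (-(1 / 3 : ℝ))) ^ 3 = ((n : ℝ))⁻¹ := by
      rw [← Real.rpow_natCast, ← Real.rpow_mul (Nat.cast_nonneg n), ← Real.rpow_neg_one]
      norm_num
    calc a n * a n * a n = s ^ 3 / 8 * ((n : ℝ) ^ (-(1 / 3 : ℝ))) ^ 3 := by
          rw [ha]; ring
      _ = _ := by rw [h1, hs3]
  have hYeq : ∀ m : ℕ, 2 * ∑ j ∈ Finset.range (m + 1), c j + C / 24 * Real.log ((m : ℝ) + 1) =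
      -(C / 24) * ((∑ j ∈ Finset.range (m + 1), ((j : ℝ))⁻¹) - Real.log ((m : ℝ) + 1)) -
      1 / 3 * (∑ j ∈ Finset.range (m + 1), (A j - a j) * (A j * A j + A j * a j + a j * a j)) +
      2 * ∑ j ∈ Finset.range (m + 1), ct j := by
    intro m
    have h1 : ∑ j ∈ Finset.range (m + 1), c j =
        -(1 / 6) * (∑ j ∈ Finset.range (m + 1), (A j - a j) * (A j * A j + A j * a j + a j * a j)) +
        -(1 / 6) * (C / 8) * (∑ j ∈ Finset.range (m + 1), ((j : ℝ))⁻¹) +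
        ∑ j ∈ Finset.range (m + 1), ct j := by
      rw [Finset.mul_sum, Finset.mul_sum, ← Finset.sum_add_distrib, ← Finset.sum_add_distrib]
      apply Finset.sum_congr rfl
      intro j _
      have h2 := ha3 j
      show -(1 / 6) * (A j * A j * A j) + ct j = _
      have h3 : (A j - a j) * (A j * A j + A j * a j + a j * a j) =
          A j * A j * A j - a j * a j * a j := by ring
      rw [h3, h2]
      ring
    rw [h1]
    ring
  have hYb : ∀ m : ℕ, |2 * ∑ j ∈ Finset.range (m + 1), c j + C / 24 * Real.log ((m : ℝ) + 1)| ≤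
      C / 24 + 1 / 3 * Se + 2 * St := by
    intro m
    rw [hYeq]
    have h1 := abs_le.1 (build_harm m)
    have h2 := abs_le.1 (hSe m)
    have h3 := abs_le.1 (hSt m)
    have hC24 : 0 < C / 24 := by positivity
    have h4 : |C / 24 * ((∑ j ∈ Finset.range (m + 1), ((j : ℝ))⁻¹) - Real.log ((m : ℝ) + 1))| ≤
        C / 24 := by
      rw [abs_mul, abs_of_pos hC24]
      calc _ ≤ C / 24 * 1 := mul_le_mul_of_nonneg_left (build_harm m) hC24.le
        _ = _ := mul_one _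
    have h5 := abs_le.1 h4
    rw [abs_le]
    constructor <;> linarith [h5.1, h5.2, h2.1, h2.2, h3.1, h3.2]
  -- the constant
  set KY : ℝ := C / 24 + 1 / 3 * Se + 2 * St with hKYdef
  have hKY0 : 0 ≤ KY := by positivity
  set K : ℝ := 1 + KA + Kb + Kc + Kd + Kg + Kh + K1 + K2 + (KY + C / 24) + 2 * SW with hKdef
  have hC24 : 0 < C / 24 := by positivity
  have e1 : 1 ≤ K := by rw [hKdef]; linarith
  have eA : KA ≤ K := by rw [hKdef]; linarith
  have eb : Kb ≤ K := by rw [hKdef]; linarith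
  have ec : Kc ≤ K := by rw [hKdef]; linarith
  have ed : Kd ≤ K := by rw [hKdef]; linarith
  have eg : Kg ≤ K := by rw [hKdef]; linarith
  have eh : Kh ≤ K := by rw [hKdef]; linarith
  have eK1 : K1 ≤ K := by rw [hKdef]; linarith
  have eK2 : K2 ≤ K := by rw [hKdef]; linarith
  have eY : KY + C / 24 ≤ K := by rw [hKdef]; linarith
  have eW : 2 * SW ≤ K := by rw [hKdef]; linarith
  have up : ∀ {t K0 x : ℝ} (n : ℕ), K0 ≤ K → t ≤ K0 * ((n : ℝ) + 1) ^ x →
      t ≤ K * ((n : ℝ) + 1) ^ x := by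
    intro t K0 x n h1 h2
    exact h2.trans (mul_le_mul_of_nonneg_right h1 (by positivity))
  refine ⟨b, c, d, g, K, ?_, ?_, KY, ?_⟩
  · refine ⟨e1, hA0, fun n => up n eA (bA n), fun n => up n eb (bb n), fun n => up n ec (bc n),
      fun n => up n ed (bd n), fun n => up n eg (bg n), fun n => up n eh (bh n), ?_, ?_, ?_, ?_⟩
    · intro m
      show ((m : ℝ) + 1) ^ (2 / 3 : ℝ) ≤ K * (2 * ∑ j ∈ Finset.range (m + 1), A j)
      exact (hX1 m).trans (mul_le_mul_of_nonneg_right eK1 (hXpos m).le)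
    · intro m
      show 2 * ∑ j ∈ Finset.range (m + 1), A j ≤ K * ((m : ℝ) + 1) ^ (2 / 3 : ℝ)
      exact up m eK2 (hX2 m)
    · intro m
      show |2 * ∑ j ∈ Finset.range (m + 1), c j| ≤ K * (1 + Real.log ((m : ℝ) + 1))
      have hl : 0 ≤ Real.log ((m : ℝ) + 1) := Real.log_nonneg (by
        have : (0 : ℝ) ≤ m := Nat.cast_nonneg m
        linarith)
      have h1 := abs_le.1 (hYb m)
      have h2 : KY + C / 24 * Real.log ((m : ℝ) + 1) ≤ K * (1 + Real.log ((m : ℝ) + 1)) := by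
        have h3 : KY ≤ K := by linarith
        have h4 : C / 24 ≤ K := by linarith
        have h5 : C / 24 * Real.log ((m : ℝ) + 1) ≤ K * Real.log ((m : ℝ) + 1) :=
          mul_le_mul_of_nonneg_right h4 hl
        linarith
      have h6 : 0 ≤ C / 24 * Real.log ((m : ℝ) + 1) := by positivity
      rw [abs_le]
      constructor <;> linarith [h1.1, h1.2]
    · intro m
      show |2 * ∑ j ∈ Finset.range (m + 1), g j| ≤ K
      rw [abs_mul, abs_of_pos (by norm_num : (0 : ℝ) < 2)]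
      linarith [hSW m]
  · refine ⟨?_, ?_, ?_, ?_⟩
    · intro n
      show b n + b (n + 1) = (A (n + 1) ^ 2 - A n ^ 2) / 2
      rw [hb n]
      ring
    · intro n
      show c n + c (n + 1) + (A n * b n - A (n + 1) * b (n + 1))
        + (A n ^ 3 + A (n + 1) ^ 3) / 6 = 0
      have h1 := hct n
      simp only [hc]
      linear_combination h1
    · intro n
      show d n + d (n + 1)
        + ((A n * c n + b n ^ 2 / 2 + A n ^ 4 / 24)
          - (A (n + 1) * c (n + 1) + b (n + 1) ^ 2 / 2 + A (n + 1) ^ 4 / 24))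
        + (A n ^ 2 * b n + A (n + 1) ^ 2 * b (n + 1)) / 2 = 0
      have h1 := hdt n
      simp only [hd]
      linear_combination h1
    · intro n
      show g n + g (n + 1)
        + ((A n * d n + b n * c n + A n ^ 3 * b n / 6)
          - (A (n + 1) * d (n + 1) + b (n + 1) * c (n + 1) + A (n + 1) ^ 3 * b (n + 1) / 6))
        + (((A n ^ 2 * c n + A n * b n ^ 2) / 2 + A n ^ 5 / 120)
          + ((A (n + 1) ^ 2 * c (n + 1) + A (n + 1) * b (n + 1) ^ 2) / 2 + A (n + 1) ^ 5 / 120)) = 0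
      have h1 := hgt n
      simp only [hg]
      linear_combination h1
  · intro m
    exact hYb m

end Pool.Agent.FW
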