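import Mathlib

set_option autoImplicit false
open Filter Asymptotics Topology

namespace Pool.Agent.FW

/-- finite power expansion with exponents `≥ x0` and error `O(n^{-Q})` -/
def PE (x0 Q : ℝ) (f : ℕ → ℝ) : Prop :=
  ∃ (S : Finset ℝ) (c : ℝ → ℝ), (∀ x ∈ S, x0 ≤ x) ∧
    (fun n : ℕ => f n - ∑ x ∈ S, c x * (n : ℝ) ^ (-x)) =O[atTop] (fun n : ℕ => (n : ℝ) ^ (-Q))

structure Seqs where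
  A : ℕ → ℝ
  b : ℕ → ℝ
  c : ℕ → ℝ
  d : ℕ → ℝ
  g : ℕ → ℝ
  h : ℕ → ℝ

namespace Seqs
variable (Q : Seqs)

/-- `δ_n(t)` -/
noncomputable def del (n : ℕ) (t : ℝ) : ℝ :=
  t * Q.A n + t ^ 2 * Q.b n + t ^ 3 * Q.c n + t ^ 4 * Q.d n + t ^ 5 * Q.g n
/-- `δ⁺_n(t) = -δ_n(-t)` -/
noncomputable def delp (n : ℕ) (t : ℝ) : ℝ :=
  t * Q.A n - t ^ 2 * Q.b n + t ^ 3 * Q.c n - t ^ 4 * Q.d n + t ^ 5 * Q.g n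
noncomputable def X (m : ℕ) : ℝ := 2 * ∑ j ∈ Finset.range (m + 1), Q.A j
noncomputable def Y (m : ℕ) : ℝ := 2 * ∑ j ∈ Finset.range (m + 1), Q.c j
noncomputable def W (m : ℕ) : ℝ := 2 * ∑ j ∈ Finset.range (m + 1), Q.g j
/-- `e_m(t) = ∏_{j ≤ m} exp(-(δ_j + δ⁺_j))` -/
noncomputable def e (m : ℕ) (t : ℝ) : ℝ := Real.exp (-(t * Q.X m + t ^ 3 * Q.Y m + t ^ 5 * Q.W m))
noncomputable def om (m : ℕ) (t : ℝ) : ℝ :=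
  Real.exp (Q.delp (m + 1) t) + Real.exp (-(Q.del (m + 1) t))
noncomputable def p (m : ℕ) (t : ℝ) : ℝ := t * Q.h m / Q.om m t

end Seqs

/-- size bounds -/
structure Good (Q : Seqs) (K : ℝ) : Prop where
  K1 : 1 ≤ K
  A0 : ∀ n, 0 < Q.A n
  A : ∀ n : ℕ, |Q.A n| ≤ K * ((n : ℝ) + 1) ^ (-(1 / 3 : ℝ))
  b : ∀ n : ℕ, |Q.b n| ≤ K * ((n : ℝ) + 1) ^ (-(2 / 3 : ℝ))
  c : ∀ n : ℕ, |Q.c n| ≤ K * ((n : ℝ) + 1) ^ (-(1 : ℝ))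
  d : ∀ n : ℕ, |Q.d n| ≤ K * ((n : ℝ) + 1) ^ (-(4 / 3 : ℝ))
  g : ∀ n : ℕ, |Q.g n| ≤ K * ((n : ℝ) + 1) ^ (-(5 / 3 : ℝ))
  h : ∀ n : ℕ, |Q.h n| ≤ K * ((n : ℝ) + 1) ^ (-(7 / 3 : ℝ))
  Xl : ∀ m : ℕ, ((m : ℝ) + 1) ^ (2 / 3 : ℝ) ≤ K * Q.X m
  Xu : ∀ m : ℕ, Q.X m ≤ K * ((m : ℝ) + 1) ^ (2 / 3 : ℝ)
  Yu : ∀ m : ℕ, |Q.Y m| ≤ K * (1 + Real.log ((m : ℝ) + 1))
  Wu : ∀ m : ℕ, |Q.W m| ≤ K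

/-- the formal relations making `exp(δ_n) - exp(-δ_{n+1}) = t (A_n + A_{n+1}) + O(t^6)` -/
structure Rel (Q : Seqs) : Prop where
  r2 : ∀ n, Q.b n + Q.b (n + 1) = (Q.A (n + 1) ^ 2 - Q.A n ^ 2) / 2
  r3 : ∀ n, Q.c n + Q.c (n + 1) + (Q.A n * Q.b n - Q.A (n + 1) * Q.b (n + 1))
      + (Q.A n ^ 3 + Q.A (n + 1) ^ 3) / 6 = 0
  r4 : ∀ n, Q.d n + Q.d (n + 1)
      + ((Q.A n * Q.c n + Q.b n ^ 2 / 2 + Q.A n ^ 4 / 24)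
        - (Q.A (n + 1) * Q.c (n + 1) + Q.b (n + 1) ^ 2 / 2 + Q.A (n + 1) ^ 4 / 24))
      + (Q.A n ^ 2 * Q.b n + Q.A (n + 1) ^ 2 * Q.b (n + 1)) / 2 = 0
  r5 : ∀ n, Q.g n + Q.g (n + 1)
      + ((Q.A n * Q.d n + Q.b n * Q.c n + Q.A n ^ 3 * Q.b n / 6)
        - (Q.A (n + 1) * Q.d (n + 1) + Q.b (n + 1) * Q.c (n + 1) + Q.A (n + 1) ^ 3 * Q.b (n + 1) / 6))
      + (((Q.A n ^ 2 * Q.c n + Q.A n * Q.b n ^ 2) / 2 + Q.A n ^ 5 / 120)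
        + ((Q.A (n + 1) ^ 2 * Q.c (n + 1) + Q.A (n + 1) * Q.b (n + 1) ^ 2) / 2 + Q.A (n + 1) ^ 5 / 120)) = 0

/-- the family `ζ_m(t)` (real `t ∈ (0, t0]`) -/
structure ZF (Q : Seqs) (ζ : ℕ → ℝ → ℝ) (K t0 : ℝ) : Prop where
  K1 : 1 ≤ K
  t0pos : 0 < t0
  t01 : t0 ≤ 1 / 3
  bd : ∀ (m : ℕ) (t : ℝ), 0 < t → t ≤ t0 → |ζ m t| ≤ K * Q.e m t
  step : ∀ (m : ℕ) (t : ℝ), 0 < t → t ≤ t0 →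
    |ζ (m + 1) t - ζ m t - (Q.e m t * Q.p m t + (-1) ^ m * Q.p m t * (ζ m t + ζ (m + 1) t)
        + Q.p m t * ζ m t * ζ (m + 1) t / Q.e m t)| ≤ K * t ^ 6 * Q.e m t * ((m : ℝ) + 1) ^ (-(2 : ℝ))

/-- crude bound -/
def Crude (ζ : ℕ → ℝ → ℝ) (K t0 : ℝ) : Prop :=
  ∀ (m : ℕ) (t : ℝ), 0 < t → t ≤ t0 → |ζ m t| ≤ K * (t * ((m : ℝ) + 1) ^ (-(4 / 3 : ℝ)) + t ^ 6)

/-- the analytic comparison family `y_m(t)` on `t (m+1)^{2/3} ≤ c` with its Taylor coefficients -/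
structure YF (Q : Seqs) (y : ℕ → ℝ → ℝ) (z1 z2 z3 z4 : ℕ → ℝ) (K c : ℝ) : Prop where
  K1 : 1 ≤ K
  cpos : 0 < c
  c1 : c ≤ 1 / 3
  bd : ∀ (m : ℕ) (t : ℝ), 0 < t → t * ((m : ℝ) + 1) ^ (2 / 3 : ℝ) ≤ c → |y m t| ≤ K * t
  step : ∀ (m : ℕ) (t : ℝ), 0 < t → t * ((m : ℝ) + 2) ^ (2 / 3 : ℝ) ≤ c →
    y (m + 1) t - y m t = Q.e m t * Q.p m t + (-1) ^ m * Q.p m t * (y m t + y (m + 1) t)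
        + Q.p m t * y m t * y (m + 1) t / Q.e m t
  ex : ∀ (m : ℕ) (t : ℝ), 0 < t → t * ((m : ℝ) + 1) ^ (2 / 3 : ℝ) ≤ c →
    |y m t - (z1 m * t + z2 m * t ^ 2 + z3 m * t ^ 3 + z4 m * t ^ 4)|
      ≤ K * t ^ 5 * ((m : ℝ) + 1) ^ (4 / 3 : ℝ)
  z1b : ∀ m : ℕ, |z1 m| ≤ K
  z2b : ∀ m : ℕ, |z2 m| ≤ K
  z3b : ∀ m : ℕ, |z3 m| ≤ K * (1 + Real.log ((m : ℝ) + 1))
  z4b : ∀ m : ℕ, |z4 m| ≤ K * ((m : ℝ) + 1) ^ (2 / 3 : ℝ)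

/-- uniform expansion of `ζ_m(t)` -/
structure ZX (ζ : ℕ → ℝ → ℝ) (z1 z2 z3 z4 w4 : ℕ → ℝ) (q K c t0 : ℝ) : Prop where
  K1 : 1 ≤ K
  cpos : 0 < c
  c1 : c ≤ 1 / 3
  t0pos : 0 < t0
  t01 : t0 ≤ 1 / 3
  ex : ∀ (m : ℕ) (t : ℝ), 0 < t → t ≤ t0 → t * ((m : ℝ) + 1) ^ (2 / 3 : ℝ) ≤ c →
    |ζ m t - (z1 m * t + z2 m * t ^ 2 + (z3 m + q * Real.log t) * t ^ 3
        + (z4 m + w4 m * Real.log t) * t ^ 4)|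
      ≤ K * t ^ 5 * (((m : ℝ) + 1) ^ (4 / 3 : ℝ) + |Real.log t|)
  crude : Crude ζ K t0
  z1b : ∀ m : ℕ, |z1 m| ≤ K * ((m : ℝ) + 1) ^ (-(4 / 3 : ℝ))
  z2b : ∀ m : ℕ, |z2 m| ≤ K * ((m : ℝ) + 1) ^ (-(2 / 3 : ℝ)) * (1 + Real.log ((m : ℝ) + 1))
  z3b : ∀ m : ℕ, |z3 m| ≤ K * (1 + Real.log ((m : ℝ) + 1))
  z4b : ∀ m : ℕ, |z4 m| ≤ K * ((m : ℝ) + 1) ^ (2 / 3 : ℝ)
  w4b : ∀ m : ℕ, |w4 m| ≤ K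

/-- expansions at `0+`: only `t^3 log t` (coefficient `d3`), `t^p log t` with `p > 3`,
`t^r log^2 t` (coefficient `E`), powers, and error `O(t^r |log t|)` -/
def LX (r d3 E : ℝ) (f : ℝ → ℝ) : Prop :=
  ∃ (S : Finset ℝ) (c d : ℝ → ℝ), (∀ x ∈ S, x ≤ 3 → d x = 0) ∧
    (fun t : ℝ => f t - ∑ x ∈ S, (c x + d x * Real.log t) * t ^ x
        - d3 * t ^ 3 * Real.log t - E * t ^ r * Real.log t ^ 2)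
      =O[𝓝[>] 0] (fun t : ℝ => t ^ r * |Real.log t|)

end Pool.Agent.FW
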